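import Pool.Agent.H82.STB.Cls2
import Pool.Agent.H65.STB.Evt

/-!
# The chain of lines at given windows

`chh_coreU`: the theorem `chh_core` for windows `U i` with `W + i k ≤ U i`, `U i + k ≤ U (i + 1)`: the
closed data are those of the windows `W + i k`.
-/

set_option autoImplicit false

namespace Pool.STA37

open Finset Real MvPolynomial
open Pool.Agent.H49.Ent Pool.Agent.H32.Dense Pool.STK Pool.KA Pool.KSAT Pool.K2S Pool.PB Pool.S6C
open Pool.GEN Pool.CHT Pool.CHX Pool.D2F Pool.D2Con Pool.D2A Pool.RCD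
open Pool.STB (ChH V3 Po Bx Hb cv)
open Pool.BFL (Pb)
open Pool.STB82
open Pool.PB.Trl (rt rt_mem t_rt)

variable {m J : ℕ}

theorem pbm {Ω : Type} [Fintype Ω] {p : Ω → ℝ} (hp : ∀ ω, 0 ≤ p ω) {A B : Ω → Prop}
    (h : ∀ ω, A ω → B ω) : Pb p A ≤ Pb p B := by
  classical
  unfold Pb
  refine Finset.sum_le_sum fun ω _ => ?_
  by_cases h1 : A ω
  · rw [if_pos h1, if_pos (h ω h1)]
  · rw [if_neg h1]
    split_ifs
    · exact hp ω
    · exact le_rfl

/-- **Free data** between the records at given windows. -/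
theorem free_winU (F : Fam m J) {B : F.Ω → Prop} (hB : 0 < Pe F.p B) {n : ℕ} (hn : 0 < n)
    (U : ℕ → ℕ) {𝒟 : Type} {D : F.Ω → 𝒟} (T : Finset 𝒟) (hT : ∀ ω, B ω → D ω ∈ T) :
    ∃ i < n, ∀ (Y Z : Type) (y : F.Ω → Y) (z : F.Ω → Z),
      Fst (slam F (U i)) (fun ω => ptr F J ω) B y →
      Fst (slam F (U (i + 1))) (fun ω => ptr F J ω) B z →
      CH (Pool.Agent.H49.Ent.cond F.p B True) D y - Real.log T.card / n ≤
        CH (Pool.Agent.H49.Ent.cond F.p B True) D z := by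
  classical
  have hlaw := isLaw_cond F.isLaw hB
  choose V Zc hZ using fun i => exists_fst (slam F (U i)) (fun ω => ptr F J ω) B
  have h0 : CH (Pool.Agent.H49.Ent.cond F.p B True) D (Zc 0) ≤ Real.log T.card := by
    refine (CH_le_card hlaw.nonneg hlaw.2 D (Zc 0) (fun _ => T) fun ω hω =>
      hT ω (cond_pos_B hω)).trans (le_of_eq ?_)
    exact Ex_const hlaw.2 _
  obtain ⟨i, hi, h1⟩ := free_pig hlaw D hn V Zc h0
  refine ⟨i, hi, fun Y Z y z hy hz => ?_⟩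
  have h2 : CH (Pool.Agent.H49.Ent.cond F.p B True) D y ≤
      CH (Pool.Agent.H49.Ent.cond F.p B True) D (Zc i) := by
    refine CH_mono_cond hlaw.nonneg ?_
    intro ω ω' a b e1
    exact hy.fin _ _ (hZ i).cl ω ω' (cond_pos_B a) (cond_pos_B b) e1
  have hZ1 := hZ (i + 1)
  have h3 : CH (Pool.Agent.H49.Ent.cond F.p B True) D (Zc (i + 1)) ≤
      CH (Pool.Agent.H49.Ent.cond F.p B True) D z := by
    refine CH_mono_cond hlaw.nonneg ?_
    intro ω ω' a b e1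
    exact hZ1.fin Z z hz.cl ω ω' (cond_pos_B a) (cond_pos_B b) e1
  linarith

/-- **The structure `ChH`**, with the closed data of a later window. -/
theorem mk_ChU (F : Fam m J) {B : F.Ω → Prop} (hB : 0 < Pe F.p B) {W k b W' : ℕ}
    (hWk : W + k ≤ W') (hWJ : W' ≤ J)
    {Zt Yt 𝒟 : Type} {z : F.Ω → Zt} {y : F.Ω → Yt} (hz : Fst (slam F W') (fun ω => ptr F J ω) B z)
    (hy : Fst (slam F W) (fun ω => ptr F J ω) B y) {D : LnT F → 𝒟} {X : 𝒟 → V3} {Φ : 𝒟 → Po}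
    {xo : F.Ω → V3} {Jo : F.Ω → Po} (hxo : Cl2 (slam F W') (fun ω => ptr F J ω) B xo)
    (hJo : Cl2 (slam F W') (fun ω => ptr F J ω) B Jo) {K e h R η c : ℝ} (hK : 0 ≤ K)
    (full : Real.log (2 * ((2 ^ k : ℕ) : ℝ) + 1) - e ≤
      CH (Pool.Agent.H49.Ent.cond F.p B True) (dg F W k) (slam F W))
    (free : CH (Pool.Agent.H49.Ent.cond F.p B True) (fun ω => D (slam F W ω)) y - e ≤
      CH (Pool.Agent.H49.Ent.cond F.p B True) (fun ω => D (slam F W ω)) z)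
    (X1 : ∀ d, Bx 1 (X d)) (Φ1 : ∀ d, Hb b 1 (Φ d)) (x1 : ∀ ω, B ω → Bx 1 (xo ω))
    (J1 : ∀ ω, B ω → (Jo ω).totalDegree ≤ b ∧ ∀ q, Bx 1 q → |MvPolynomial.eval q (Jo ω)| ≤ K)
    (pos : ∀ ω ω', B ω → B ω' → slam F W ω = slam F W ω' →
      Bx (K / ((2 ^ k : ℕ) : ℝ)) (xo ω' - xo ω -
        (((dg F W k ω' : ℝ) - dg F W k ω) / ((2 ^ k : ℕ) : ℝ)) • X (D (slam F W ω))))
    (jet : ∀ ω ω', B ω → B ω' → slam F W ω = slam F W ω' → ∀ q, Bx 4 q →
      |(MvPolynomial.eval q (Jo ω') + MvPolynomial.eval (q - xo ω') (Φ (D (slam F W ω)))) -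
        (MvPolynomial.eval q (Jo ω) + MvPolynomial.eval (q - xo ω) (Φ (D (slam F W ω))))| ≤
          K / ((2 ^ k : ℕ) : ℝ))
    (nf : ∀ q : F.Ω → ℝ, IsLaw q → (∀ ω, q ω ≤ R * Pool.Agent.H49.Ent.cond F.p B True ω) →
      CH q (fun ω => ⌊((2 ^ k : ℕ) : ℝ) * MvPolynomial.eval (xo ω) (Jo ω)⌋)
        (fun ω => (cv (2 ^ k) (xo ω), y ω)) ≤ (1 - h) * Real.log ((2 ^ k : ℕ) : ℝ) + e)
    (gp : ∀ H : Zt → V3, (∀ r, Bx 1 (H r) ∧ ∃ i, |H r i| = 1) →
      Pb (Pool.Agent.H49.Ent.cond F.p B True)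
        (fun ω => |∑ i, H (z ω) i * X (D (slam F W ω)) i| ≤ η) ≤ c) :
    ∃ (x : Zt → V3) (Jz : Zt → Po), (∀ ω, B ω → x (z ω) = xo ω) ∧ (∀ ω, B ω → Jz (z ω) = Jo ω) ∧
      ChH (Pool.Agent.H49.Ent.cond F.p B True) (slam F W) z y (dg F W k) D X Φ x Jz b (2 ^ k)
        K e h R η c := by
  obtain ⟨x, hx, hx'⟩ := hz.fac hxo 0
  obtain ⟨Jz, hJ, hJ'⟩ := hz.fac hJo 0
  have hlaw := isLaw_cond F.isLaw hB
  have hBx0 : Bx 1 (0 : V3) := fun i => by simp
  refine ⟨x, Jz, hx, hJ, ?_⟩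
  refine
    { law := hlaw
      yL := ?_
      yz := ?_
      tz := ?_
      tM := ?_
      full := full
      free := free
      X1 := X1
      Φ1 := Φ1
      x1 := ?_
      J1 := ?_
      pos := ?_
      jet := ?_
      nf := ?_
      gp := gp }
  · intro ω ω' h1 h2 e1
    obtain ⟨⟨φ, hφ⟩, -⟩ := hy.cl
    rw [hφ ω (cond_pos_B h1), hφ ω' (cond_pos_B h2), e1]
  · intro ω ω' h1 h2 e1
    exact hy.mono hz (slam_coarse F (by omega) hWJ B) ω ω' (cond_pos_B h1) (cond_pos_B h2) e1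
  · intro ω ω' h1 h2 e1
    exact hz.fin _ _ ((dg_cl2 F W k B).mono (slam_coarse F hWk hWJ B) ⟨id, fun _ _ => rfl⟩) ω ω'
      (cond_pos_B h1) (cond_pos_B h2) e1
  · intro ω _
    rw [abs_of_nonneg (dg_nonneg F W k ω)]
    push_cast
    exact (dg_lt F W k ω).le
  · intro r
    rcases hx' r with h1 | ⟨ω, h1, h2⟩
    · rw [h1]
      exact hBx0
    · rw [h2]
      exact x1 ω h1
  · intro r
    rcases hJ' r with h1 | ⟨ω, h1, h2⟩
    · rw [h1]
      refine ⟨by simp, fun q _ => ?_⟩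
      rw [map_zero, abs_zero]
      exact hK
    · rw [h2]
      exact J1 ω h1
  · intro ω ω' h1 h2 e1
    rw [hx ω (cond_pos_B h1), hx ω' (cond_pos_B h2)]
    exact pos ω ω' (cond_pos_B h1) (cond_pos_B h2) e1
  · intro ω ω' h1 h2 e1
    rw [hx ω (cond_pos_B h1), hx ω' (cond_pos_B h2), hJ ω (cond_pos_B h1), hJ ω' (cond_pos_B h2)]
    exact jet ω ω' (cond_pos_B h1) (cond_pos_B h2) e1
  · intro q hq hqR
    have hpos : ∀ ω, 0 < q ω → B ω := fun ω hω => by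
      by_contra hn
      have h1 : Pool.Agent.H49.Ent.cond F.p B True ω = 0 := by
        unfold Pool.Agent.H49.Ent.cond
        rw [if_neg (fun h => hn (of_eq_true h))]
      have h2 := hqR ω
      rw [h1, mul_zero] at h2
      linarith
    refine le_trans (le_of_eq ?_) (nf q hq hqR)
    refine ch_eq hq.nonneg ?_ ?_
    · intro ω hω
      show ⌊_ * MvPolynomial.eval (x (z ω)) (Jz (z ω))⌋ = _
      rw [hx ω (hpos ω hω), hJ ω (hpos ω hω)]
    · intro ω hω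
      rw [hx ω (hpos ω hω)]

/-- Two samples of a line with a longer window: the steps of the digits. -/
theorem dg_step (F : Fam m J) {W U k : ℕ} (hWU : W ≤ U) (hk : W + k ≤ J) (hUk : U + k ≤ J)
    {ω ω' : F.Ω} (hs : slam F U ω = slam F U ω') :
    |((dg F W k ω' : ℝ) - dg F W k ω) / 2 ^ k -
      1 / 2 ^ (U - W) * (((dg F U k ω' : ℝ) - dg F U k ω) / 2 ^ k)| ≤ 2 / 2 ^ k := by
  have hsW : slam F W ω = slam F W ω' := by
    obtain ⟨φ, hφ⟩ := slam_coarse F hWU (by omega) (fun _ => True)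
    rw [hφ ω trivial, hφ ω' trivial, hs]
  have h1 := Pool.STB65.rt_two F (W₀ := W) (d := 0) (k := k) (by omega) (ω := ω) (ω' := ω')
    (by rw [add_zero]; exact hsW)
  rw [add_zero, zero_add] at h1
  have h2 := Pool.STB65.rt_two F (W₀ := W) (d := U - W) (k := k) (by omega) (ω := ω) (ω' := ω')
    (by rw [show W + (U - W) = U by omega]; exact hs)
  rw [show W + (U - W) = U by omega] at h2
  have h3 : (1 : ℝ) / 2 ^ (U - W + k) ≤ 1 / 2 ^ k :=
    one_div_le_one_div_of_le (by positivity) (pow_le_pow_right₀ one_le_two (by omega))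
  have h4 : 1 / 2 ^ (U - W) * (((dg F U k ω' : ℝ) - dg F U k ω) / 2 ^ k) =
      ((dg F U k ω' : ℝ) - dg F U k ω) / 2 ^ (U - W + k) := by
    rw [pow_add]
    field_simp
  rw [h4]
  have h5 : ((dg F W k ω' : ℝ) - dg F W k ω) / 2 ^ k -
      ((dg F U k ω' : ℝ) - dg F U k ω) / 2 ^ (U - W + k) =
      (rt F W ω' - rt F W ω - ((dg F U k ω' : ℝ) - dg F U k ω) / 2 ^ (U - W + k)) -
      (rt F W ω' - rt F W ω - ((dg F W k ω' : ℝ) - dg F W k ω) / 2 ^ k) := by ring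
  rw [h5]
  refine (abs_sub _ _).trans ((add_le_add (h2.trans h3) h1).trans (le_of_eq ?_))
  ring

/-- The directions at a longer window. -/
noncomputable def xsc {𝒟 : Type} (X : 𝒟 → V3) (s : ℕ) (d : 𝒟) : V3 := (1 / 2 ^ s : ℝ) • X d

theorem xsc_bx {𝒟 : Type} {X : 𝒟 → V3} (h : ∀ d, Bx 1 (X d)) (s : ℕ) (d : 𝒟) :
    Bx 1 (xsc X s d) := fun i => by
  show |(1 / 2 ^ s : ℝ) * X d i| ≤ 1
  have h1 : (1 : ℝ) / 2 ^ s ≤ 1 := (div_le_one (by positivity)).2 (one_le_pow₀ one_le_two)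
  rw [abs_mul, abs_of_pos (by positivity : (0 : ℝ) < 1 / 2 ^ s)]
  calc 1 / 2 ^ s * |X d i| ≤ 1 * 1 := mul_le_mul h1 (h d i) (abs_nonneg _) zero_le_one
    _ = 1 := one_mul 1

/-- **One of the windows `U i`.** -/
theorem chh_coreU {S : PCl m} (hS : TmH S) (n : ℕ) (hn : 0 < n) {ε : ℝ} (hε : 0 < ε) :
    Bas S (fun J F B => ∀ (W k b s₀ : ℕ) (U : ℕ → ℕ) (𝒟 : Type) (D : LnT F → 𝒟) (X : 𝒟 → V3)
      (Φ : 𝒟 → Po) (T : Finset 𝒟) (xo : ℕ → F.Ω → V3) (Jo : ℕ → F.Ω → Po) (K e h' R η c₁ : ℝ),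
      0 ≤ K → (∀ ω, B ω → D (slam F W ω) ∈ T) → Real.log T.card / n ≤ e →
      ε * J + Real.log 3 ≤ e → (∀ d, Bx 1 (X d)) → (∀ d, Hb b 1 (Φ d)) →
      (∀ i ≤ n, W + i * k ≤ U i ∧ U i ≤ W + i * k + s₀) → (∀ i < n, U i + k ≤ U (i + 1)) →
      U n ≤ J →
      (∀ i < n, WinD F B (W + i * k) k b (fun ω => D (slam F W ω)) X Φ (xo i) (Jo i) K) →
      (∀ i < n, WinN F B (U i) k (xo i) (Jo i) e h' R) →
      (∀ i < n, WinG F B (U (i + 1)) (fun ω => D (slam F W ω)) X (2 ^ s₀ * η) c₁) → 0 ≤ η →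
      ∃ i < n, ∃ (Zt Yt : Type) (zp : PtT F → Zt) (y : F.Ω → Yt) (D' : LnT F → 𝒟) (x : Zt → V3)
        (Jz : Zt → Po), Fst (slam F (U (i + 1))) (fun ω => ptr F J ω) B
          (fun ω => zp (ptr F J ω)) ∧
        Fst (slam F (U i)) (fun ω => ptr F J ω) B y ∧
        (∀ ω, D' (slam F (U i) ω) = D (slam F W ω)) ∧
        (∀ ω, B ω → x (zp (ptr F J ω)) = xo i ω) ∧ (∀ ω, B ω → Jz (zp (ptr F J ω)) = Jo i ω) ∧
        ChH (Pool.Agent.H49.Ent.cond F.p B True) (slam F (U i)) (fun ω => zp (ptr F J ω)) y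
          (dg F (U i) k) D' (xsc X (U i - (W + i * k))) Φ x Jz b (2 ^ k) (K + 2) e h' R η c₁) := by
  classical
  refine Bas.mono 0 (full_cls hS hε) ?_
  rintro J - F B ⟨hB, hfull⟩ W k b s₀ U 𝒟 D X Φ T xo Jo K e h' R η c₁ hK hT hTe hεe X1 Φ1 hU hUk hUJ
    hwd hwn hwg hη
  obtain ⟨i, hi, hfree⟩ := free_winU F hB (n := n) hn U T hT
  obtain ⟨Zt, zp, hz⟩ := exists_fst' (slam F (U (i + 1))) (fun ω => ptr F J ω) B
  obtain ⟨Yt, y, hy⟩ := exists_fst (slam F (U i)) (fun ω => ptr F J ω) B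
  have hUm : ∀ j, i + 1 ≤ j → j ≤ n → U (i + 1) ≤ U j := by
    intro j hj
    induction j, hj using Nat.le_induction with
    | base => intro _; exact le_rfl
    | succ j hj ih =>
      intro hjn
      have h1 := hUk j (by omega)
      have h2 := ih (by omega)
      omega
  have hJ1 : U (i + 1) ≤ J := (hUm n (by omega) le_rfl).trans hUJ
  have hki := hUk i hi
  obtain ⟨hWU, hUs⟩ := hU i hi.le
  have hW0 : W ≤ U i := le_trans (Nat.le_add_right _ _) hWU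
  obtain ⟨D', hD'⟩ := lift_D F (W := W) (W' := U i) hW0 (by omega) D
  have hwi := hwd i hi
  have hgi := hwg i hi Zt zp hz.cl
  have hcoa : ∃ φ : LnT F → LnT F, ∀ ω, B ω → slam F (W + i * k + k) ω =
      φ (slam F (U (i + 1)) ω) := slam_coarse F (by omega) hJ1 B
  have hsW : ∀ ω ω' : F.Ω, slam F (U i) ω = slam F (U i) ω' →
      slam F (W + i * k) ω = slam F (W + i * k) ω' := fun ω ω' h => by
    obtain ⟨φ, hφ⟩ := slam_coarse F hWU (by omega) (fun _ => True)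
    rw [hφ ω trivial, hφ ω' trivial, h]
  have hM : ((2 ^ k : ℕ) : ℝ) = 2 ^ k := by push_cast; rfl
  obtain ⟨x, Jz, hx, hJz, hch⟩ := mk_ChU F hB (W := U i) (k := k) (b := b) (W' := U (i + 1)) hki hJ1
    hz hy (D := D') (X := xsc X (U i - (W + i * k))) (Φ := Φ) (xo := xo i) (Jo := Jo i)
    (hwi.cx.mono hcoa ⟨id, fun _ _ => rfl⟩) (hwi.cJ.mono hcoa ⟨id, fun _ _ => rfl⟩)
    (K := K + 2) (e := e) (h := h') (R := R) (η := η) (c := c₁) (by linarith)
    ((by linarith [hfull (U i) k (by omega)]) : _ ≤ CH (Pool.Agent.H49.Ent.cond F.p B True)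
      (dg F (U i) k) (slam F (U i)))
    (by
      have h3 := hfree Yt Zt y (fun ω => zp (ptr F J ω)) hy hz
      simp_rw [hD']
      linarith) (xsc_bx X1 _) Φ1 hwi.x1 (fun ω hω => ⟨(hwi.J1 ω hω).1, fun q hq =>
        ((hwi.J1 ω hω).2 q hq).trans (by linarith)⟩)
    (by
      intro ω ω' h3 h4 h5 j
      rw [hD', hM]
      have h6 := hwi.pos ω ω' h3 h4 (hsW ω ω' h5) j
      have h7 := dg_step F hWU (by omega) (show U i + k ≤ J by omega) h5
      rw [hM] at h6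
      have h8 : (xo i ω' - xo i ω - (((dg F (U i) k ω' : ℝ) - dg F (U i) k ω) / 2 ^ k) •
          xsc X (U i - (W + i * k)) (D (slam F W ω))) j =
          (xo i ω' - xo i ω - (((dg F (W + i * k) k ω' : ℝ) - dg F (W + i * k) k ω) / 2 ^ k) •
            X (D (slam F W ω))) j +
          (((dg F (W + i * k) k ω' : ℝ) - dg F (W + i * k) k ω) / 2 ^ k -
            1 / 2 ^ (U i - (W + i * k)) * (((dg F (U i) k ω' : ℝ) - dg F (U i) k ω) / 2 ^ k)) *
            X (D (slam F W ω)) j := by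
        show xo i ω' j - xo i ω j - (((dg F (U i) k ω' : ℝ) - dg F (U i) k ω) / 2 ^ k) *
          (1 / 2 ^ (U i - (W + i * k)) * X (D (slam F W ω)) j) =
          (xo i ω' j - xo i ω j - (((dg F (W + i * k) k ω' : ℝ) - dg F (W + i * k) k ω) / 2 ^ k) *
            X (D (slam F W ω)) j) + _
        ring
      rw [h8]
      refine (abs_add_le _ _).trans ?_
      have h9 : |(((dg F (W + i * k) k ω' : ℝ) - dg F (W + i * k) k ω) / 2 ^ k -
            1 / 2 ^ (U i - (W + i * k)) * (((dg F (U i) k ω' : ℝ) - dg F (U i) k ω) / 2 ^ k)) *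
            X (D (slam F W ω)) j| ≤ 2 / 2 ^ k * 1 := by
        rw [abs_mul]
        exact mul_le_mul h7 (X1 _ j) (abs_nonneg _) (by positivity)
      refine (add_le_add h6 h9).trans (le_of_eq ?_)
      rw [mul_one, ← add_div])
    (by
      intro ω ω' h3 h4 h5 q hq
      rw [hD']
      refine (hwi.jet ω ω' h3 h4 (hsW ω ω' h5) q hq).trans ?_
      exact div_le_div_of_nonneg_right (by linarith) (by positivity)) (hwn i hi Yt y hy)
    (by
      intro H hH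
      have h3 := hgi H hH
      simp_rw [hD']
      refine le_trans (pbm (isLaw_cond F.isLaw hB).nonneg fun ω hω => ?_) h3
      have h4 : ∑ j, H (zp (ptr F J ω)) j * X (D (slam F W ω)) j = 2 ^ (U i - (W + i * k)) *
          ∑ j, H (zp (ptr F J ω)) j * xsc X (U i - (W + i * k)) (D (slam F W ω)) j := by
        rw [Finset.mul_sum]
        refine Finset.sum_congr rfl fun j _ => ?_
        show _ = 2 ^ (U i - (W + i * k)) * (H (zp (ptr F J ω)) j *
          (1 / 2 ^ (U i - (W + i * k)) * X (D (slam F W ω)) j))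
        field_simp
      rw [h4, abs_mul, abs_of_pos (by positivity : (0 : ℝ) < 2 ^ (U i - (W + i * k)))]
      exact mul_le_mul (pow_le_pow_right₀ one_le_two (by omega)) hω (abs_nonneg _) (by positivity))
  exact ⟨i, hi, Zt, Yt, zp, y, D', x, Jz, hz, hy, hD', hx, hJz, hch⟩

end Pool.STA37
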