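import Pool.Agent.H37.STA.Vel
import Pool.Agent.H82.STB.Ins
import Pool.Agent.H98.STB.Pass

/-!
# The jets of the two contact places, from the positions and the velocities of the chain

`uj`: the heights and their velocities over the labels of a window, in digits. `uj_near`: they are
determined, up to a few units, by the closed record of the window, the data of the line and the
position. `uj_few`: they are few bits.
-/

set_option autoImplicit false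

namespace Pool.STA37

open Finset Real MvPolynomial
open Pool.Agent.H49.Ent Pool.Agent.H32.Dense Pool.STK Pool.KA Pool.KSAT Pool.K2S Pool.PB
open Pool.GEN Pool.CHT Pool.D2F
open Pool.STB (V3 Po Bx Hb cv)
open Pool.STB65 (uni_der InpP PosO Rs Rs_pos st rt_st)
open Pool.STB82 (yv hgP lnP tmP lnP_eval hgP_d1 hgP_deg)
open Pool.LA91 (jet ojet eval_alp)
open Pool.PB.Trl (rt rt_mem t_rt)

variable {m J : ℕ}

theorem jet_zero' (H : MvPolynomial (Option (Fin m)) ℝ) (b v : Option (Fin m) → ℝ) :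
    jet 0 H b v = eval b H := by
  show (aeval (Pool.LA91.lp b v) H : Polynomial ℝ).eval 0 = _
  rw [eval_alp]
  congr 2
  funext o
  ring

theorem ojet_zero' (F : Fam m J) (k : Fin m) (G : MvPolynomial (Option (Fin m)) ℝ) (ω : F.Ω) :
    ojet F k 0 G ω = F.x ω k - eval (bt F ω) G := by
  show jet 0 (X (some k) - G) (bt F ω) (bd F ω) = _
  rw [jet_zero', map_sub, eval_X]
  rfl

/-- The line of a sample, in the time of the window. -/
theorem lnP_own (F : Fam m J) {w : ℕ} (hw : w ≤ J) (ω : F.Ω) (τ : ℝ) (o : Option (Fin m)) :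
    (lnP w (slam F w ω) o).eval τ = bt F ω o + ((τ - rt F w ω) / 2 ^ w) * bd F ω o := by
  have h1 := t_rt F hw ω
  have h2 : (tmP w (slam F w ω)).eval τ = F.t ω + (τ - rt F w ω) / 2 ^ w := by
    unfold tmP
    simp only [Polynomial.eval_add, Polynomial.eval_mul, Polynomial.eval_C, Polynomial.eval_X]
    rw [h1]
    ring
  cases o with
  | none =>
    show (tmP w (slam F w ω)).eval τ = F.t ω + (τ - rt F w ω) / 2 ^ w * 1
    rw [h2, mul_one]
  | some k =>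
    show (Polynomial.C _ + Polynomial.C _ * tmP w (slam F w ω)).eval _ = _
    simp only [Polynomial.eval_add, Polynomial.eval_mul, Polynomial.eval_C]
    rw [h2]
    show F.u ω k + F.d ω k * (F.t ω + (τ - rt F w ω) / 2 ^ w) =
      F.x ω k + (τ - rt F w ω) / 2 ^ w * F.d ω k
    show _ = F.u ω k + F.t ω * F.d ω k + _
    ring

/-- The velocity of the height of `c 1`. -/
theorem hgP_d2 (F : Fam m J) (c : ℕ → Fin m) {w : ℕ} (hw : w ≤ J) (g1 : ℕ)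
    (P : LnT F → MvPolynomial (Option (Fin m)) ℝ) (ω : F.Ω) :
    (Polynomial.derivative (hgP c w g1 P (slam F w ω) 2)).eval (rt F w ω) =
      2 ^ g1 * (1 / 2 ^ w * jet 1 (X (some (c 1)) - P (slam F w ω)) (bt F ω) (bd F ω)) := by
  have hp : (0 : ℝ) < 2 ^ w := by positivity
  have h1 := (hgP c w g1 P (slam F w ω) 2 : Polynomial ℝ).hasDerivAt (rt F w ω)
  have e : (fun τ : ℝ => (hgP c w g1 P (slam F w ω) 2 : Polynomial ℝ).eval τ) =
      fun τ => 2 ^ g1 * eval (fun o => bt F ω o + ((τ - rt F w ω) / 2 ^ w) * bd F ω o)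
        (X (some (c 1)) - P (slam F w ω)) := by
    funext τ
    show (Polynomial.C (2 ^ g1) * (lnP w (slam F w ω) (some (c 1)) -
      aeval (lnP w (slam F w ω)) (P (slam F w ω)))).eval τ = _
    rw [Polynomial.eval_mul, Polynomial.eval_C, Polynomial.eval_sub, Pool.STB82.eval_aevalP,
      map_sub, eval_X]
    congr 2
    · exact lnP_own F hw ω τ _
    · congr 1
      congr 1
      funext o
      exact lnP_own F hw ω τ o
  have h2 : HasDerivAt (fun τ : ℝ => (τ - rt F w ω) / 2 ^ w) (1 / 2 ^ w) (rt F w ω) :=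
    ((hasDerivAt_id (rt F w ω)).sub_const _).div_const _
  have h3 : HasDerivAt (fun τ : ℝ => eval (fun o => bt F ω o + ((τ - rt F w ω) / 2 ^ w) *
      bd F ω o) (X (some (c 1)) - P (slam F w ω)))
      (jet 1 (X (some (c 1)) - P (slam F w ω)) (bt F ω) (bd F ω) * (1 / 2 ^ w)) (rt F w ω) := by
    refine HasDerivAt.comp (x := rt F w ω)
      (h₂ := fun s : ℝ => eval (fun o => bt F ω o + s * bd F ω o)
        (X (some (c 1)) - P (slam F w ω)))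
      (h := fun τ : ℝ => (τ - rt F w ω) / 2 ^ w) ?_ h2
    rw [sub_self, zero_div]
    exact hd_jet _ _ _
  have h4 := h3.const_mul ((2 : ℝ) ^ g1)
  rw [← e] at h4
  rw [h1.unique h4]
  ring

theorem jet1_C (P : MvPolynomial (Option (Fin m)) ℝ) (r : ℝ) (b v : Option (Fin m) → ℝ) :
    jet 1 (P - C r) b v = jet 1 P b v := by
  have h1 := hd_jet (P - C r) b v
  have h2 := (hd_jet P b v).sub_const r
  have e : (fun s : ℝ => eval (fun o => b o + s * v o) (P - C r)) =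
      fun s => eval (fun o => b o + s * v o) P - r := by
    funext s
    rw [map_sub, eval_C]
  rw [e] at h1
  exact h1.unique h2

theorem jet1_X (k : Fin m) (b v : Option (Fin m) → ℝ) :
    jet 1 (X (some k) : MvPolynomial (Option (Fin m)) ℝ) b v = v (some k) := by
  have h1 := hd_jet (X (some k) : MvPolynomial (Option (Fin m)) ℝ) b v
  have e : (fun s : ℝ => eval (fun o => b o + s * v o)
      (X (some k) : MvPolynomial (Option (Fin m)) ℝ)) = fun s => b (some k) + s * v (some k) := by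
    funext s
    rw [eval_X]
  rw [e] at h1
  have h2 : HasDerivAt (fun s : ℝ => b (some k) + s * v (some k)) (v (some k)) 0 := by
    simpa using ((hasDerivAt_id (0 : ℝ)).mul_const (v (some k))).const_add (b (some k))
  exact h1.unique h2

/-- The labels of the two contact places at a window with the centre `a`. -/
noncomputable def lb (W₀ g1 : ℕ) (a : V3) (P : MvPolynomial (Option (Fin m)) ℝ) (l : ℕ) :
    MvPolynomial (Option (Fin m)) ℝ := if l = 0 then C (a 1 / 2 ^ W₀) else P + C (a 2 / 2 ^ g1)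

/-- **The jets of the two contact places**, in digits. -/
noncomputable def uj (F : Fam m J) (c : ℕ → Fin m) (W₀ g1 : ℕ)
    (Pl : LnT F → MvPolynomial (Option (Fin m)) ℝ) (a : F.Ω → V3) (N : ℕ → ℕ → ℝ) (ω : F.Ω)
    (l j : ℕ) : ℤ := if l < 2 ∧ j ≤ 1 then
      ⌊(2 : ℝ) ^ (N l j * J) * ojet F (c l) j (lb W₀ g1 (a ω) (Pl (slam F W₀ ω)) l) ω⌋ else 0

theorem oj00 (F : Fam m J) (c : ℕ → Fin m) (W₀ g1 : ℕ)
    (Pl : LnT F → MvPolynomial (Option (Fin m)) ℝ) (a : V3) (ω : F.Ω) :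
    ojet F (c 0) 0 (lb W₀ g1 a (Pl (slam F W₀ ω)) 0) ω =
      (yv F c W₀ g1 Pl ω 1 - a 1) / 2 ^ W₀ := by
  rw [ojet_zero']
  show F.x ω (c 0) - eval (bt F ω) (C (a 1 / 2 ^ W₀)) = (2 ^ W₀ * F.x ω (c 0) - a 1) / 2 ^ W₀
  rw [eval_C]
  field_simp

theorem oj10 (F : Fam m J) (c : ℕ → Fin m) (W₀ g1 : ℕ)
    (Pl : LnT F → MvPolynomial (Option (Fin m)) ℝ) (a : V3) (ω : F.Ω) :
    ojet F (c 1) 0 (lb W₀ g1 a (Pl (slam F W₀ ω)) 1) ω =
      (yv F c W₀ g1 Pl ω 2 - a 2) / 2 ^ g1 := by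
  rw [ojet_zero']
  show F.x ω (c 1) - eval (bt F ω) (Pl (slam F W₀ ω) + C (a 2 / 2 ^ g1)) =
    (2 ^ g1 * (F.x ω (c 1) - eval (bt F ω) (Pl (slam F W₀ ω))) - a 2) / 2 ^ g1
  rw [map_add, eval_C]
  field_simp
  ring

theorem oj01 (F : Fam m J) (c : ℕ → Fin m) (W₀ g1 : ℕ) (P : MvPolynomial (Option (Fin m)) ℝ)
    (a : V3) (ω : F.Ω) : ojet F (c 0) 1 (lb W₀ g1 a P 0) ω = F.d ω (c 0) := by
  show jet 1 (X (some (c 0)) - C (a 1 / 2 ^ W₀)) (bt F ω) (bd F ω) = _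
  rw [jet1_C, jet1_X]
  rfl

theorem oj11 (F : Fam m J) (c : ℕ → Fin m) {W₀ : ℕ} (hW : W₀ ≤ J) (g1 : ℕ)
    (Pl : LnT F → MvPolynomial (Option (Fin m)) ℝ) (a : V3) (ω : F.Ω) :
    ojet F (c 1) 1 (lb W₀ g1 a (Pl (slam F W₀ ω)) 1) ω = 2 ^ W₀ / 2 ^ g1 *
      (Polynomial.derivative (hgP c W₀ g1 Pl (slam F W₀ ω) 2)).eval (rt F W₀ ω) := by
  have h1 : ojet F (c 1) 1 (lb W₀ g1 a (Pl (slam F W₀ ω)) 1) ω =
      jet 1 (X (some (c 1)) - Pl (slam F W₀ ω)) (bt F ω) (bd F ω) := by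
    show jet 1 (X (some (c 1)) - (Pl (slam F W₀ ω) + C (a 2 / 2 ^ g1))) (bt F ω) (bd F ω) = _
    rw [← sub_sub, jet1_C]
  rw [h1, hgP_d2 F c hW]
  field_simp

/-- **The jets are determined up to a few units.** -/
theorem uj_near (K : ℕ) : ∃ C : ℝ, 1 ≤ C ∧ ∀ {m J : ℕ} {F : Fam m J} {B : F.Ω → Prop}
    (c : ℕ → Fin m) (W₀ d k n g1 i : ℕ) (Y σ Kp : ℝ)
    (Pl : LnT F → MvPolynomial (Option (Fin m)) ℝ) (yt : PtT F → V3) (ctr xo : ℕ → F.Ω → V3)
    (D₁ : LnT F → V3) (N : ℕ → ℕ → ℝ),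
    InpP F B W₀ d k n K Y (yv F c W₀ g1 Pl) yt (hgP c W₀ g1 Pl) →
    PosO F B W₀ d k n σ Kp (yv F c W₀ g1 Pl) (hgP c W₀ g1 Pl) ctr xo D₁ → i < n →
    W₀ + d + n * k ≤ J → 0 < σ → 0 ≤ Y →
    (2 : ℝ) ^ (N 0 0 * J) * σ ≤ 2 ^ (W₀ + (d + i * k) + k) →
    (2 : ℝ) ^ (N 1 0 * J) * σ ≤ 2 ^ (g1 + (d + i * k) + k) →
    (2 : ℝ) ^ (N 0 1 * J) * σ ≤ 2 ^ k →
    (2 : ℝ) ^ (N 1 1 * J) * 2 ^ W₀ * (C * Y / 2 ^ d + σ / 2 ^ k) ≤ 2 ^ g1 →
    ∀ ω ω', B ω → B ω' → ctr i ω = ctr i ω' → Pl (slam F W₀ ω) = Pl (slam F W₀ ω') →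
      D₁ (slam F (W₀ + d) ω) = D₁ (slam F (W₀ + d) ω') →
      cv (2 ^ k) (xo i ω) = cv (2 ^ k) (xo i ω') → ∀ l j,
      |(uj F c W₀ g1 Pl (ctr i) N ω l j : ℝ) - uj F c W₀ g1 Pl (ctr i) N ω' l j| ≤ 6 := by
  classical
  obtain ⟨C, hC, hu⟩ := uni_der K
  refine ⟨C, hC, ?_⟩
  intro m J F B c W₀ d k n g1 i Y σ Kp Pl yt ctr xo D₁ N I O hi hJ hσ hY n00 n10 n01 n11 ω ω' hω hω'
    hctr hPl hD hcv
  have hWJ : W₀ ≤ J := by omega
  have hWdJ : W₀ + d ≤ J := by omega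
  have hfl : ∀ {a b D : ℝ}, |a - b| ≤ D → |((⌊a⌋ : ℤ) : ℝ) - (⌊b⌋ : ℤ)| ≤ D + 1 := by
    intro a b D h
    have a1 := Int.floor_le a
    have a2 := Int.lt_floor_add_one a
    have b1 := Int.floor_le b
    have b2 := Int.lt_floor_add_one b
    rw [abs_le] at h ⊢
    constructor <;> linarith [h.1, h.2]
  have hR : 0 < Rs d k σ i := Rs_pos hσ i
  have h2k : (0 : ℝ) < 2 ^ k := by positivity
  have hxx : ∀ l : Fin 3, |xo i ω l - xo i ω' l| ≤ 1 / 2 ^ k := by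
    intro l
    have h1 := congrFun hcv l
    have h2 : ⌊((2 ^ k : ℕ) : ℝ) * xo i ω l⌋ = ⌊((2 ^ k : ℕ) : ℝ) * xo i ω' l⌋ := h1
    have e : ((2 ^ k : ℕ) : ℝ) = 2 ^ k := by push_cast; rfl
    rw [e] at h2
    have a1 := Int.floor_le ((2 : ℝ) ^ k * xo i ω l)
    have a2 := Int.lt_floor_add_one ((2 : ℝ) ^ k * xo i ω l)
    have b1 := Int.floor_le ((2 : ℝ) ^ k * xo i ω' l)
    have b2 := Int.lt_floor_add_one ((2 : ℝ) ^ k * xo i ω' l)
    have e2 : ((⌊(2 : ℝ) ^ k * xo i ω l⌋ : ℤ) : ℝ) = (⌊(2 : ℝ) ^ k * xo i ω' l⌋ : ℤ) := by rw [h2]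
    have h3 : |(2 : ℝ) ^ k * (xo i ω l - xo i ω' l)| ≤ 1 := by
      rw [mul_sub, abs_le]
      constructor <;> linarith
    rw [abs_mul, abs_of_pos h2k] at h3
    rw [le_div_iff₀ h2k, mul_comm]
    exact h3
  have hyy : ∀ l : Fin 3, |(yv F c W₀ g1 Pl ω l - ctr i ω l) -
      (yv F c W₀ g1 Pl ω' l - ctr i ω l)| ≤ 5 * σ / (2 ^ (d + i * k) * 2 ^ k) := by
    intro l
    have h1 := O.qx i hi ω hω l
    have h2 := O.qx i hi ω' hω' l
    rw [Pi.sub_apply, Pi.smul_apply, smul_eq_mul, Pi.sub_apply] at h1 h2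
    rw [← hctr] at h2
    have h3 := hxx l
    have h4 : |Rs d k σ i * ((yv F c W₀ g1 Pl ω l - ctr i ω l) -
        (yv F c W₀ g1 Pl ω' l - ctr i ω l))| ≤ 5 / 2 ^ k := by
      have e : Rs d k σ i * ((yv F c W₀ g1 Pl ω l - ctr i ω l) -
          (yv F c W₀ g1 Pl ω' l - ctr i ω l)) =
          (xo i ω l - xo i ω' l) - (xo i ω l - Rs d k σ i * (yv F c W₀ g1 Pl ω l - ctr i ω l)) +
          (xo i ω' l - Rs d k σ i * (yv F c W₀ g1 Pl ω' l - ctr i ω l)) := by ring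
      rw [e]
      refine (abs_add_le _ _).trans ((add_le_add ((abs_sub _ _).trans (add_le_add h3 h1))
        h2).trans (le_of_eq ?_))
      ring
    rw [abs_mul, abs_of_pos hR] at h4
    have h5 : (2 : ℝ) ^ (d + i * k) / σ * |(yv F c W₀ g1 Pl ω l - ctr i ω l) -
        (yv F c W₀ g1 Pl ω' l - ctr i ω l)| ≤ 5 / 2 ^ k := h4
    rw [le_div_iff₀ (by positivity)]
    rw [div_mul_eq_mul_div, div_le_div_iff₀ hσ h2k] at h5
    calc _ = (2 : ℝ) ^ (d + i * k) * |(yv F c W₀ g1 Pl ω l - ctr i ω l) -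
        (yv F c W₀ g1 Pl ω' l - ctr i ω l)| * 2 ^ k := by ring
      _ ≤ 5 * σ := h5
  intro l j
  unfold uj
  by_cases hlj : l < 2 ∧ j ≤ 1
  swap
  · rw [if_neg hlj, if_neg hlj, Int.cast_zero, sub_zero, abs_zero]
    norm_num
  rw [if_pos hlj, if_pos hlj, ← hctr]
  obtain ⟨hl, hj⟩ := hlj
  have hpw : ∀ x : ℝ, (0 : ℝ) < (2 : ℝ) ^ (x * J) := fun x => Real.rpow_pos_of_pos two_pos _
  -- the positions
  have key0 : ∀ (N' : ℝ) (g : ℕ) (a b : ℝ), |a - b| ≤ 5 * σ / (2 ^ (d + i * k) * 2 ^ k) →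
      (2 : ℝ) ^ (N' * J) * σ ≤ 2 ^ (g + (d + i * k) + k) →
      |(2 : ℝ) ^ (N' * J) * (a / 2 ^ g) - (2 : ℝ) ^ (N' * J) * (b / 2 ^ g)| ≤ 5 := by
    intro N' g a b h1 h2
    have e : (2 : ℝ) ^ (N' * J) * (a / 2 ^ g) - (2 : ℝ) ^ (N' * J) * (b / 2 ^ g) =
        (2 : ℝ) ^ (N' * J) / 2 ^ g * (a - b) := by ring
    rw [e, abs_mul, abs_of_pos (by have := hpw N'; positivity)]
    calc (2 : ℝ) ^ (N' * J) / 2 ^ g * |a - b| ≤ (2 : ℝ) ^ (N' * J) / 2 ^ g *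
        (5 * σ / (2 ^ (d + i * k) * 2 ^ k)) :=
          mul_le_mul_of_nonneg_left h1 (by have := hpw N'; positivity)
      _ = 5 * ((2 : ℝ) ^ (N' * J) * σ) / (2 ^ (g + (d + i * k) + k)) := by
          rw [pow_add 2 (g + (d + i * k)) k, pow_add 2 g (d + i * k)]
          field_simp
      _ ≤ 5 * (2 ^ (g + (d + i * k) + k)) / (2 ^ (g + (d + i * k) + k)) :=
          div_le_div_of_nonneg_right (mul_le_mul_of_nonneg_left h2 (by norm_num)) (by positivity)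
      _ = 5 := by field_simp
  -- the velocities
  have hvel : ∀ (ω : F.Ω), B ω → ∀ l : Fin 3,
      |(Polynomial.derivative (hgP c W₀ g1 Pl (slam F W₀ ω) l)).eval (rt F W₀ ω) -
        σ * D₁ (slam F (W₀ + d) ω) l| ≤ C * Y / 2 ^ d + σ / 2 ^ k := by
    intro ω hω l
    obtain ⟨Q, hQ⟩ : ∃ Q, Q = Polynomial.derivative (hgP c W₀ g1 Pl (slam F W₀ ω) l) := ⟨_, rfl⟩
    have h1 := O.dv ω hω l
    rw [← hQ] at h1 ⊢
    have hQd : Q.natDegree ≤ K := by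
      rw [hQ]
      exact (Polynomial.natDegree_derivative_le _).trans ((Nat.sub_le _ _).trans (I.hd _ _))
    have hQb : ∀ τ ∈ Set.Icc (0 : ℝ) 1, |Q.eval τ| ≤ Y := fun τ hτ => by
      rw [hQ]
      exact I.vel ω hω l τ hτ
    have hQ' : ∀ τ ∈ Set.Icc (0 : ℝ) 1, |(Polynomial.derivative Q).eval τ| ≤ C * Y := fun τ hτ =>
      (hu Q Y hQd hQb τ (by rw [abs_of_nonneg hτ.1]; linarith [hτ.2])).2
    have hr := rt_mem F W₀ ω
    have hs := Pool.STB65.st_mem (F := F) d (slam F (W₀ + d) ω)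
    have h2 := Pool.STB65.pol_lip Q hQ' (x := st d (slam F (W₀ + d) ω)) hs (y := rt F W₀ ω) hr
    have h3 : |rt F W₀ ω - st d (slam F (W₀ + d) ω)| ≤ 1 / 2 ^ d := by
      rw [rt_st F hWdJ ω, add_sub_cancel_left]
      have h4 := rt_mem F (W₀ + d) ω
      rw [abs_of_nonneg (div_nonneg h4.1 (by positivity))]
      exact div_le_div_of_nonneg_right h4.2 (by positivity)
    have h5 : |Q.eval (rt F W₀ ω) - Q.eval (st d (slam F (W₀ + d) ω))| ≤ C * Y / 2 ^ d := by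
      refine h2.trans ((mul_le_mul_of_nonneg_left h3 (by positivity)).trans (le_of_eq ?_))
      ring
    have h6 : |Q.eval (st d (slam F (W₀ + d) ω)) - σ * D₁ (slam F (W₀ + d) ω) l| ≤ σ / 2 ^ k := by
      have e : Q.eval (st d (slam F (W₀ + d) ω)) - σ * D₁ (slam F (W₀ + d) ω) l =
          -(σ * (D₁ (slam F (W₀ + d) ω) l - 1 / σ * Q.eval (st d (slam F (W₀ + d) ω)))) := by
        field_simp
        ring
      rw [e, abs_neg, abs_mul, abs_of_pos hσ]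
      refine (mul_le_mul_of_nonneg_left h1 hσ.le).trans (le_of_eq ?_)
      ring
    have e : Q.eval (rt F W₀ ω) - σ * D₁ (slam F (W₀ + d) ω) l =
        (Q.eval (rt F W₀ ω) - Q.eval (st d (slam F (W₀ + d) ω))) +
        (Q.eval (st d (slam F (W₀ + d) ω)) - σ * D₁ (slam F (W₀ + d) ω) l) := by ring
    rw [e]
    exact (abs_add_le _ _).trans (add_le_add h5 h6)
  rcases (show (l = 0 ∧ j = 0) ∨ (l = 0 ∧ j = 1) ∨ (l = 1 ∧ j = 0) ∨ (l = 1 ∧ j = 1) by omega) with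
    ⟨rfl, rfl⟩ | ⟨rfl, rfl⟩ | ⟨rfl, rfl⟩ | ⟨rfl, rfl⟩
  · rw [oj00, oj00]
    exact (hfl (key0 _ W₀ _ _ (hyy 1) n00)).trans (by norm_num)
  · rw [oj01, oj01]
    have a1 : |F.d ω (c 0) - σ * D₁ (slam F (W₀ + d) ω) 1| ≤ σ / 2 ^ k := by
      have h1 := O.dv ω hω 1
      rw [hgP_d1] at h1
      have e : F.d ω (c 0) - σ * D₁ (slam F (W₀ + d) ω) 1 =
          -(σ * (D₁ (slam F (W₀ + d) ω) 1 - 1 / σ * F.d ω (c 0))) := by
        field_simp
        ring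
      rw [e, abs_neg, abs_mul, abs_of_pos hσ]
      refine (mul_le_mul_of_nonneg_left h1 hσ.le).trans (le_of_eq ?_)
      ring
    have a2 : |F.d ω' (c 0) - σ * D₁ (slam F (W₀ + d) ω') 1| ≤ σ / 2 ^ k := by
      have h1 := O.dv ω' hω' 1
      rw [hgP_d1] at h1
      have e : F.d ω' (c 0) - σ * D₁ (slam F (W₀ + d) ω') 1 =
          -(σ * (D₁ (slam F (W₀ + d) ω') 1 - 1 / σ * F.d ω' (c 0))) := by
        field_simp
        ring
      rw [e, abs_neg, abs_mul, abs_of_pos hσ]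
      refine (mul_le_mul_of_nonneg_left h1 hσ.le).trans (le_of_eq ?_)
      ring
    rw [hD] at a1
    have a3 : |F.d ω (c 0) - F.d ω' (c 0)| ≤ 2 * (σ / 2 ^ k) := by
      rw [abs_le] at a1 a2 ⊢
      constructor <;> linarith [a1.1, a1.2, a2.1, a2.2]
    refine (hfl (D := 2) ?_).trans (by norm_num)
    rw [← mul_sub, abs_mul, abs_of_pos (hpw _)]
    calc (2 : ℝ) ^ (N 0 1 * J) * |F.d ω (c 0) - F.d ω' (c 0)| ≤
        (2 : ℝ) ^ (N 0 1 * J) * (2 * (σ / 2 ^ k)) := mul_le_mul_of_nonneg_left a3 (hpw _).le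
      _ = 2 * ((2 : ℝ) ^ (N 0 1 * J) * σ / 2 ^ k) := by ring
      _ ≤ 2 * 1 := by
        refine mul_le_mul_of_nonneg_left ?_ (by norm_num)
        rw [div_le_one h2k]
        exact n01
      _ = 2 := mul_one 2
  · rw [oj10, oj10]
    exact (hfl (key0 _ g1 _ _ (hyy 2) n10)).trans (by norm_num)
  · rw [oj11 F c hWJ, oj11 F c hWJ]
    have a1 := hvel ω hω 2
    have a2 := hvel ω' hω' 2
    rw [hD] at a1
    obtain ⟨Dv, hDv⟩ : ∃ Dv, Dv = C * Y / 2 ^ d + σ / 2 ^ k := ⟨_, rfl⟩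
    rw [← hDv] at a1 a2 n11
    have a3 : |(Polynomial.derivative (hgP c W₀ g1 Pl (slam F W₀ ω) 2)).eval (rt F W₀ ω) -
        (Polynomial.derivative (hgP c W₀ g1 Pl (slam F W₀ ω') 2)).eval (rt F W₀ ω')| ≤
        2 * Dv := by
      rw [abs_le] at a1 a2 ⊢
      constructor <;> linarith [a1.1, a1.2, a2.1, a2.2]
    refine (hfl (D := 2) ?_).trans (by norm_num)
    rw [← mul_sub, ← mul_sub, abs_mul, abs_mul, abs_of_pos (hpw _),
      abs_of_pos (by positivity : (0 : ℝ) < 2 ^ W₀ / 2 ^ g1)]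
    calc (2 : ℝ) ^ (N 1 1 * J) * (2 ^ W₀ / 2 ^ g1 * |_|) ≤
        (2 : ℝ) ^ (N 1 1 * J) * (2 ^ W₀ / 2 ^ g1 * (2 * Dv)) :=
          mul_le_mul_of_nonneg_left (mul_le_mul_of_nonneg_left a3 (by positivity)) (hpw _).le
      _ = 2 * ((2 : ℝ) ^ (N 1 1 * J) * 2 ^ W₀ * Dv / 2 ^ g1) := by ring
      _ ≤ 2 * 1 := by
        refine mul_le_mul_of_nonneg_left ?_ (by norm_num)
        rw [div_le_one (by positivity)]
        exact n11
      _ = 2 := mul_one 2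

/-- **The jets are few bits.** -/
theorem uj_few {F : Fam m J} {q : F.Ω → ℝ} (hq : IsLaw q) {u : F.Ω → ℕ → ℕ → ℤ}
    (h0 : ∀ ω l j, ¬ (l < 2 ∧ j ≤ 1) → u ω l j = 0) {T : Type} (W : F.Ω → T)
    (h : ∀ ω ω', 0 < q ω → 0 < q ω' → W ω = W ω' → ∀ l j, |(u ω l j : ℝ) - u ω' l j| ≤ 6) :
    CH q u W ≤ 4 * Real.log 7 := by
  have hn := hq.nonneg
  have h1 : CH q u W ≤ CH q (fun ω => ((u ω 0 0, u ω 0 1), (u ω 1 0, u ω 1 1))) W :=
    CH_mono_left hn fun ω ω' _ _ e => by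
      simp only [Prod.mk.injEq] at e
      funext l j
      by_cases hlj : l < 2 ∧ j ≤ 1
      · rcases (show (l = 0 ∧ j = 0) ∨ (l = 0 ∧ j = 1) ∨ (l = 1 ∧ j = 0) ∨ (l = 1 ∧ j = 1) by
          omega) with ⟨rfl, rfl⟩ | ⟨rfl, rfl⟩ | ⟨rfl, rfl⟩ | ⟨rfl, rfl⟩
        · exact e.1.1.1
        · exact e.1.1.2
        · exact e.1.2.1
        · exact e.1.2.2
      · rw [h0 ω l j hlj, h0 ω' l j hlj]
  have h2 : ∀ l j, CH q (fun ω => u ω l j) W ≤ Real.log 7 := fun l j => by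
    have := Pool.STB.cnt_int hq (fun ω => u ω l j) W (D := 6) (by norm_num)
      fun ω ω' a b e => h ω ω' a b e l j
    norm_num at this
    exact this
  refine h1.trans ((CH_subadd hn _ _ W).trans ?_)
  have h3 := CH_subadd hn (fun ω => u ω 0 0) (fun ω => u ω 0 1) W
  have h4 := CH_subadd hn (fun ω => u ω 1 0) (fun ω => u ω 1 1) W
  linarith [h2 0 0, h2 0 1, h2 1 0, h2 1 1]

end Pool.STA37
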