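import Pool.Agent.H37.STA.Osc
import Pool.Agent.H37.STA.Ujt

/-!
# The data of the line in two charts

`d1_near`: the velocity in the chart of the window `W₀` is determined, up to a few units, by the
velocity in the chart of an earlier window and by the closed record, when the difference of the two
charts has a natural oscillation.
-/

set_option autoImplicit false

namespace Pool.STA37

open Finset Real MvPolynomial
open Pool.Agent.H49.Ent Pool.Agent.H32.Dense Pool.STK Pool.KA Pool.KSAT Pool.K2S Pool.PB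
open Pool.GEN Pool.CHT Pool.D2F
open Pool.STB (V3 Po Bx Hb cv)
open Pool.STB65 (uni_der InpP PosO Rs Rs_pos st rt_st st_mem crs crs_slam)
open Pool.STB82 (yv hgP lnP tmP lnP_eval hgP_d1 hgP_deg)
open Pool.STB77 (vpl vpt vpl_eval vpt_none vpt_zero)
open Pool.LA91 (jet ojet eval_alp jet_sub)
open Pool.EJ13 (dX eval_dX line_der)
open Pool.PB.Trl (rt rt_mem t_rt)

variable {m J : ℕ}

/-- The point of the line at the time `τ` of the window. -/
noncomputable def lpt (F : Fam m J) (w : ℕ) (ω : F.Ω) (τ : ℝ) : Option (Fin m) → ℝ :=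
  fun o => bt F ω o + ((τ - rt F w ω) / 2 ^ w) * bd F ω o

theorem lpt_der (F : Fam m J) (w : ℕ) (ω : F.Ω) (Q : MvPolynomial (Option (Fin m)) ℝ) (τ : ℝ) :
    HasDerivAt (fun s : ℝ => eval (lpt F w ω s) Q)
      (1 / 2 ^ w * jet 1 Q (lpt F w ω τ) (bd F ω)) τ := by
  have h2 : HasDerivAt (fun s : ℝ => (s - τ) / 2 ^ w) (1 / 2 ^ w) τ :=
    ((hasDerivAt_id τ).sub_const _).div_const _
  have h3 : HasDerivAt (fun s : ℝ => eval (fun o => lpt F w ω τ o + ((s - τ) / 2 ^ w) * bd F ω o) Q)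
      (jet 1 Q (lpt F w ω τ) (bd F ω) * (1 / 2 ^ w)) τ := by
    refine HasDerivAt.comp (x := τ)
      (h₂ := fun s : ℝ => eval (fun o => lpt F w ω τ o + s * bd F ω o) Q)
      (h := fun s : ℝ => (s - τ) / 2 ^ w) ?_ h2
    rw [sub_self, zero_div]
    exact hd_jet _ _ _
  have e : (fun s : ℝ => eval (fun o => lpt F w ω τ o + ((s - τ) / 2 ^ w) * bd F ω o) Q) =
      fun s => eval (lpt F w ω s) Q := by
    funext s
    congr 2
    funext o
    unfold lpt
    ring
  rw [e, mul_comm] at h3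
  exact h3

/-- The velocity of the height of `c 1` at any time. -/
theorem hgP_dt (F : Fam m J) (c : ℕ → Fin m) {w : ℕ} (hw : w ≤ J) (g1 : ℕ)
    (P : LnT F → MvPolynomial (Option (Fin m)) ℝ) (ω : F.Ω) (τ : ℝ) :
    (Polynomial.derivative (hgP c w g1 P (slam F w ω) 2)).eval τ =
      2 ^ g1 * (1 / 2 ^ w * jet 1 (X (some (c 1)) - P (slam F w ω)) (lpt F w ω τ) (bd F ω)) := by
  have h1 := (hgP c w g1 P (slam F w ω) 2 : Polynomial ℝ).hasDerivAt τ
  have e : (fun s : ℝ => (hgP c w g1 P (slam F w ω) 2 : Polynomial ℝ).eval s) =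
      fun s => 2 ^ g1 * eval (lpt F w ω s) (X (some (c 1)) - P (slam F w ω)) := by
    funext s
    show (Polynomial.C (2 ^ g1) * (lnP w (slam F w ω) (some (c 1)) -
      aeval (lnP w (slam F w ω)) (P (slam F w ω)))).eval s = _
    rw [Polynomial.eval_mul, Polynomial.eval_C, Polynomial.eval_sub, Pool.STB82.eval_aevalP,
      map_sub, eval_X]
    congr 2
    · exact lnP_own F hw ω s _
    · congr 1
      congr 1
      funext o
      exact lnP_own F hw ω s o
  have h4 := (lpt_der F w ω (X (some (c 1)) - P (slam F w ω)) τ).const_mul ((2 : ℝ) ^ g1)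
  rw [← e] at h4
  exact h1.unique h4

/-- The polynomial in the coordinates of the window. -/
noncomputable def rhp (c : ℕ → Fin m) (W g T : ℕ) (R : MvPolynomial (Option (Fin m)) ℝ) : Po :=
  C (2 ^ g) * vpl c W g T 0 R

theorem rhp_deg (c : ℕ → Fin m) (W g T : ℕ) {R : MvPolynomial (Option (Fin m)) ℝ} {K : ℕ}
    (hR : R.totalDegree ≤ K) : (rhp c W g T R).totalDegree ≤ K := by
  classical
  have h1 : (vpl c W g T 0 R).totalDegree ≤ R.totalDegree * 1 := by
    refine Pool.STB77.deg_bnd _ (fun o => ?_) R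
    have hC : ∀ (a : ℝ) (i : Fin 3), (C a * X i : Po).totalDegree ≤ 1 := fun a i =>
      (totalDegree_mul _ _).trans (by
        rw [totalDegree_C, zero_add]
        exact (totalDegree_X (R := ℝ) i).le)
    cases o with
    | none =>
      show (C ((T : ℝ) / 2 ^ W) + C (1 / 2 ^ W) * X 0 : Po).totalDegree ≤ 1
      refine (totalDegree_add _ _).trans (max_le ?_ (hC _ _))
      rw [totalDegree_C]
      exact Nat.zero_le _
    | some k =>
      show (if k = c 0 then C (1 / 2 ^ W) * X 1 else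
        if k = c 1 then bind₁ (Pool.STB77.vs0 c W T) 0 + C (1 / 2 ^ g) * X 2 else 0 :
          Po).totalDegree ≤ 1
      split_ifs with h h'
      · exact hC _ _
      · rw [map_zero, zero_add]
        exact hC _ _
      · rw [totalDegree_zero]
        exact Nat.zero_le _
  refine (totalDegree_mul _ _).trans ?_
  rw [totalDegree_C, zero_add]
  omega

theorem rhp_eval (c : ℕ → Fin m) (W g T : ℕ) {R : MvPolynomial (Option (Fin m)) ℝ}
    (hR : DepC c 1 R) (q : V3) {b : Option (Fin m) → ℝ} (h0 : (T + q 0) / 2 ^ W = b none)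
    (h1 : q 1 / 2 ^ W = b (some (c 0))) :
    eval q (rhp c W g T R) = 2 ^ g * eval b R := by
  unfold rhp
  rw [map_mul, eval_C, vpl_eval]
  congr 1
  refine hR _ _ ?_ fun l hl => ?_
  · rw [vpt_none, h0]
  · have : l = 0 := by omega
    subst this
    rw [vpt_zero, h1]

/-- The position of a line in the plane of the time and of `c 0`. -/
noncomputable def pq (F : Fam m J) (c : ℕ → Fin m) (w : ℕ) (ω : F.Ω) (τ : ℝ) : V3 :=
  ![τ, 2 ^ w * lpt F w ω τ (some (c 0)), 0]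

/-- The direction of a line in this plane. -/
noncomputable def xq (F : Fam m J) (c : ℕ → Fin m) (ω : F.Ω) : V3 := ![1, F.d ω (c 0), 0]

theorem rhp_line (F : Fam m J) (c : ℕ → Fin m) {w : ℕ} (hw : w ≤ J) (g : ℕ)
    {R : MvPolynomial (Option (Fin m)) ℝ} (hR : DepC c 1 R) (ω : F.Ω) (τ s : ℝ) :
    eval (pq F c w ω τ + s • xq F c ω) (rhp c w g (slam F w ω).2.2 R) =
      2 ^ g * eval (lpt F w ω (τ + s)) R := by
  have hp : (0 : ℝ) < 2 ^ w := by positivity
  refine rhp_eval c w g _ hR _ ?_ ?_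
  · have h1 := t_rt F hw ω
    have h2 : (slam F w ω).2.2 = F.T1 w ω := rfl
    show (((slam F w ω).2.2 : ℝ) + (τ + s * 1)) / 2 ^ w = bt F ω none +
      ((τ + s - rt F w ω) / 2 ^ w) * bd F ω none
    have h3 : bt F ω none = F.t ω := rfl
    have h4 : bd F ω none = 1 := rfl
    rw [h3, h4, h1, h2]
    ring
  · show (2 ^ w * (bt F ω (some (c 0)) + ((τ - rt F w ω) / 2 ^ w) * bd F ω (some (c 0))) +
      s * F.d ω (c 0)) / 2 ^ w = bt F ω (some (c 0)) + ((τ + s - rt F w ω) / 2 ^ w) *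
        bd F ω (some (c 0))
    have h4 : bd F ω (some (c 0)) = F.d ω (c 0) := rfl
    rw [h4]
    field_simp
    ring

theorem rhp_der (F : Fam m J) (c : ℕ → Fin m) {w : ℕ} (hw : w ≤ J) (g : ℕ)
    {R : MvPolynomial (Option (Fin m)) ℝ} (hR : DepC c 1 R) (ω : F.Ω) (τ : ℝ) :
    eval (pq F c w ω τ) (dX (xq F c ω) (rhp c w g (slam F w ω).2.2 R)) =
      2 ^ g * (1 / 2 ^ w * jet 1 R (lpt F w ω τ) (bd F ω)) := by
  have h1 := line_der (pq F c w ω τ) (xq F c ω) (rhp c w g (slam F w ω).2.2 R) 0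
  have e : (fun s : ℝ => eval (pq F c w ω τ + s • xq F c ω) (rhp c w g (slam F w ω).2.2 R)) =
      fun s => 2 ^ g * eval (lpt F w ω (τ + s)) R := by
    funext s
    exact rhp_line F c hw g hR ω τ s
  rw [e, zero_smul, add_zero] at h1
  have h2 : HasDerivAt (fun s : ℝ => eval (lpt F w ω (τ + s)) R)
      (1 / 2 ^ w * jet 1 R (lpt F w ω τ) (bd F ω)) 0 := by
    have h3 := lpt_der F w ω R (τ + 0)
    have h4 : HasDerivAt (fun s : ℝ => τ + s) 1 0 := by
      simpa using (hasDerivAt_id (0 : ℝ)).const_add τ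
    have h5 := HasDerivAt.comp (x := 0) (h₂ := fun s : ℝ => eval (lpt F w ω s) R)
      (h := fun s : ℝ => τ + s) h3 h4
    rw [mul_one, add_zero] at h5
    exact h5
  exact h1.unique (h2.const_mul _)

theorem lpt_st (F : Fam m J) {W₀ d : ℕ} (h : W₀ + d ≤ J) (ω : F.Ω) :
    lpt F W₀ ω (st d (slam F (W₀ + d) ω)) =
      fun o => bt F ω o + (-(rt F (W₀ + d) ω) / 2 ^ (W₀ + d)) * bd F ω o := by
  have h1 := rt_st F h ω
  funext o
  unfold lpt
  congr 2
  rw [h1, pow_add]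
  have hp : (0 : ℝ) < 2 ^ W₀ := by positivity
  have hp' : (0 : ℝ) < 2 ^ d := by positivity
  field_simp
  ring

/-- **The velocity in the chart of a window** from the velocity in an earlier chart. -/
theorem d1_near (K : ℕ) : ∃ A : ℝ, 1 ≤ A ∧ ∀ {m J : ℕ} {F : Fam m J} {c : ℕ → Fin m}
    {B : F.Ω → Prop} {W₀ d k g₁ W₁ d₁ k₁ g₁' : ℕ} {σ σ' M ρ : ℝ}
    {Pl Pl' : LnT F → MvPolynomial (Option (Fin m)) ℝ} {D₁ D₁' : LnT F → V3},
    W₀ + d = W₁ + d₁ → W₀ + d ≤ J → 0 < σ → 0 < σ' → 0 ≤ ρ → 0 ≤ M →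
    (2 : ℝ) ^ g₁ / 2 ^ W₀ = ρ * (2 ^ g₁' / 2 ^ W₁) →
    (∀ ω, B ω → (Pl (slam F W₀ ω) - Pl' (slam F W₁ ω)).totalDegree ≤ K) →
    (∀ ω, B ω → DepC c 1 (Pl (slam F W₀ ω) - Pl' (slam F W₁ ω))) →
    (∀ ω, B ω → ∀ b : Option (Fin m) → ℝ, |b none - F.t ω| ≤ 1 / 2 ^ W₀ →
      |b (some (c 0)) - F.x ω (c 0)| ≤ 1 / 2 ^ W₀ →
      2 ^ g₁ * |eval b (Pl (slam F W₀ ω) - Pl' (slam F W₁ ω)) -
        eval (bt F ω) (Pl (slam F W₀ ω) - Pl' (slam F W₁ ω))| ≤ M) →
    (∀ ω, B ω → ∀ j, |D₁ (slam F (W₀ + d) ω) j - (1 / σ) *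
      (Polynomial.derivative (hgP c W₀ g₁ Pl (slam F W₀ ω) j)).eval
        (st d (slam F (W₀ + d) ω))| ≤ 1 / 2 ^ k) →
    (∀ ω, B ω → ∀ j, |D₁' (slam F (W₁ + d₁) ω) j - (1 / σ') *
      (Polynomial.derivative (hgP c W₁ g₁' Pl' (slam F W₁ ω) j)).eval
        (st d₁ (slam F (W₁ + d₁) ω))| ≤ 1 / 2 ^ k₁) →
    (∀ ω, B ω → |F.d ω (c 0)| ≤ 1) → 2 + σ ≤ 2 ^ d → 2 * σ' ≤ 2 ^ k₁ →
    ∀ {ω ω' : F.Ω}, B ω → B ω' → Pl (slam F W₀ ω) = Pl (slam F W₀ ω') →
    Pl' (slam F W₁ ω) = Pl' (slam F W₁ ω') → F.T1 (W₀ + d) ω = F.T1 (W₀ + d) ω' →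
    |2 ^ W₀ * F.x ω (c 0) - 2 ^ W₀ * F.x ω' (c 0)| ≤ σ / 2 ^ d →
    D₁' (slam F (W₁ + d₁) ω) = D₁' (slam F (W₁ + d₁) ω') →
    ∀ j, |D₁ (slam F (W₀ + d) ω) j - D₁ (slam F (W₀ + d) ω') j| ≤ 2 / 2 ^ k +
      (1 / σ) * ((1 + ρ) * (2 * σ' / 2 ^ k₁) +
        A * M * ((2 + σ) / 2 ^ d + 2 * σ' / 2 ^ k₁)) := by
  obtain ⟨A, hA, hdx⟩ := osc_dX K
  refine ⟨A, hA, ?_⟩
  intro m J F c B W₀ d k g₁ W₁ d₁ k₁ g₁' σ σ' M ρ Pl Pl' D₁ D₁' hWd hJ hσ hσ' hρ hM hg hdeg hdep
    hosc hdv hdv' hd1 h2σ hk₁ ω ω' hω hω' hP hP' hT hx hD j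
  have hW₀J : W₀ ≤ J := by omega
  have hpW : (0 : ℝ) < 2 ^ W₀ := by positivity
  have hpd : (0 : ℝ) < 2 ^ d := by positivity
  have hpk : (0 : ℝ) < 2 ^ k₁ := by positivity
  obtain ⟨ε, hε⟩ : ∃ ε, ε = 2 * σ' / 2 ^ k₁ := ⟨_, rfl⟩
  have hε0 : 0 ≤ ε := by rw [hε]; positivity
  have hε1 : ε ≤ 1 := by
    rw [hε, div_le_one hpk]
    exact hk₁
  -- the derivatives in the far chart are near
  have far : ∀ i, |(Polynomial.derivative (hgP c W₁ g₁' Pl' (slam F W₁ ω) i)).eval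
      (st d₁ (slam F (W₁ + d₁) ω)) - (Polynomial.derivative (hgP c W₁ g₁' Pl' (slam F W₁ ω') i)).eval
      (st d₁ (slam F (W₁ + d₁) ω'))| ≤ ε := by
    intro i
    have h1 := hdv' ω hω i
    have h2 := hdv' ω' hω' i
    rw [← hD] at h2
    obtain ⟨a, ha⟩ : ∃ a, a = (Polynomial.derivative (hgP c W₁ g₁' Pl' (slam F W₁ ω) i)).eval
      (st d₁ (slam F (W₁ + d₁) ω)) := ⟨_, rfl⟩
    obtain ⟨a', ha'⟩ : ∃ a', a' = (Polynomial.derivative (hgP c W₁ g₁' Pl' (slam F W₁ ω') i)).eval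
      (st d₁ (slam F (W₁ + d₁) ω')) := ⟨_, rfl⟩
    rw [← ha] at h1
    rw [← ha'] at h2
    rw [← ha, ← ha']
    have h3 : |1 / σ' * a - 1 / σ' * a'| ≤ 1 / 2 ^ k₁ + 1 / 2 ^ k₁ := by
      have e : 1 / σ' * a - 1 / σ' * a' = (D₁' (slam F (W₁ + d₁) ω) i - 1 / σ' * a') -
        (D₁' (slam F (W₁ + d₁) ω) i - 1 / σ' * a) := by ring
      rw [e]
      exact (abs_sub _ _).trans (by linarith)
    have h4 : a - a' = σ' * (1 / σ' * a - 1 / σ' * a') := by
      field_simp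
    rw [h4, abs_mul, abs_of_pos hσ', hε]
    refine (mul_le_mul_of_nonneg_left h3 hσ'.le).trans (le_of_eq ?_)
    ring
  have main : |(Polynomial.derivative (hgP c W₀ g₁ Pl (slam F W₀ ω) j)).eval
      (st d (slam F (W₀ + d) ω)) - (Polynomial.derivative (hgP c W₀ g₁ Pl (slam F W₀ ω') j)).eval
      (st d (slam F (W₀ + d) ω'))| ≤ (1 + ρ) * ε + A * M * ((2 + σ) / 2 ^ d + ε) := by
    have hrest : 0 ≤ A * M * ((2 + σ) / 2 ^ d + ε) := by positivity
    have hρε : 0 ≤ ρ * ε := by positivity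
    have hd01 := far 1
    rw [Pool.STB82.hgP_d1, Pool.STB82.hgP_d1] at hd01
    fin_cases j
    · show |(Polynomial.derivative (Polynomial.X : Polynomial ℝ)).eval _ -
        (Polynomial.derivative (Polynomial.X : Polynomial ℝ)).eval _| ≤ _
      rw [Polynomial.derivative_X, Polynomial.eval_one, Polynomial.eval_one, sub_self, abs_zero]
      nlinarith
    · show |(Polynomial.derivative (hgP c W₀ g₁ Pl (slam F W₀ ω) 1)).eval
        (st d (slam F (W₀ + d) ω)) - (Polynomial.derivative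
        (hgP c W₀ g₁ Pl (slam F W₀ ω') 1)).eval (st d (slam F (W₀ + d) ω'))| ≤ _
      rw [Pool.STB82.hgP_d1, Pool.STB82.hgP_d1]
      nlinarith
    · show |(Polynomial.derivative (hgP c W₀ g₁ Pl (slam F W₀ ω) 2)).eval
        (st d (slam F (W₀ + d) ω)) - (Polynomial.derivative
        (hgP c W₀ g₁ Pl (slam F W₀ ω') 2)).eval (st d (slam F (W₀ + d) ω'))| ≤ _
      have hW₁J : W₁ ≤ J := by omega
      -- the two charts
      obtain ⟨R, hR⟩ : ∃ R, R = Pl (slam F W₀ ω) - Pl' (slam F W₁ ω) := ⟨_, rfl⟩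
      have hR' : R = Pl (slam F W₀ ω') - Pl' (slam F W₁ ω') := by rw [hR, hP, hP']
      have hRd := hdeg ω hω
      have hRp := hdep ω hω
      have hRo := hosc ω hω
      rw [← hR] at hRd hRp hRo
      have hsp : ∀ υ : F.Ω, R = Pl (slam F W₀ υ) - Pl' (slam F W₁ υ) →
          (Polynomial.derivative (hgP c W₀ g₁ Pl (slam F W₀ υ) 2)).eval
            (st d (slam F (W₀ + d) υ)) =
          ρ * (Polynomial.derivative (hgP c W₁ g₁' Pl' (slam F W₁ υ) 2)).eval
            (st d₁ (slam F (W₁ + d₁) υ)) -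
          eval (pq F c W₀ υ (st d (slam F (W₀ + d) υ)))
            (dX (xq F c υ) (rhp c W₀ g₁ (slam F W₀ υ).2.2 R)) := by
        intro υ hRυ
        rw [hgP_dt F c hW₀J, hgP_dt F c hW₁J, rhp_der F c hW₀J g₁ hRp, lpt_st F hJ,
          lpt_st F (show W₁ + d₁ ≤ J by omega), ← hWd]
        have e : (X (some (c 1)) - Pl (slam F W₀ υ) : MvPolynomial (Option (Fin m)) ℝ) =
            (X (some (c 1)) - Pl' (slam F W₁ υ)) - R := by rw [hRυ]; ring
        rw [e, jet_sub]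
        have e2 : ∀ x : ℝ, (2 : ℝ) ^ g₁ * (1 / 2 ^ W₀ * x) = 2 ^ g₁ / 2 ^ W₀ * x := fun x => by ring
        have e3 : ∀ x : ℝ, (2 : ℝ) ^ g₁' * (1 / 2 ^ W₁ * x) = 2 ^ g₁' / 2 ^ W₁ * x :=
          fun x => by ring
        rw [e2, e3, e2, hg]
        ring
      rw [hsp ω hR, hsp ω' hR']
      have hf2 := far 2
      -- the oscillation
      have hTT : F.T1 W₀ ω = F.T1 W₀ ω' := by
        have h1 := T1_div F hJ ω
        have h2 := T1_div F hJ ω'
        rw [h1, h2, hT]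
      have hTs : (slam F W₀ ω').2.2 = (slam F W₀ ω).2.2 := hTT.symm
      have hst : st d (slam F (W₀ + d) ω') = st d (slam F (W₀ + d) ω) := by
        unfold st
        have : (slam F (W₀ + d) ω').2.2 = (slam F (W₀ + d) ω).2.2 := hT.symm
        rw [this]
      rw [hTs, hst]
      obtain ⟨τ, hτ⟩ : ∃ τ, τ = st d (slam F (W₀ + d) ω) := ⟨_, rfl⟩
      obtain ⟨a, ha⟩ : ∃ a : V3, a = pq F c W₀ ω (rt F W₀ ω) := ⟨_, rfl⟩
      have ha0 : a 0 = rt F W₀ ω := by rw [ha]; rfl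
      have ha1 : a 1 = 2 ^ W₀ * F.x ω (c 0) := by
        rw [ha]
        show 2 ^ W₀ * (bt F ω (some (c 0)) + ((rt F W₀ ω - rt F W₀ ω) / 2 ^ W₀) * _) = _
        rw [sub_self, zero_div, zero_mul, add_zero]
        rfl
      have ha2 : a 2 = 0 := by rw [ha]; rfl
      have hrm := rt_mem F (W₀ + d) ω
      have hrm' := rt_mem F (W₀ + d) ω'
      have hr := rt_st F hJ ω
      have hr' := rt_st F hJ ω'
      rw [hst] at hr'
      rw [← hτ] at hr hr' ⊢
      have hq1 : ∀ υ : F.Ω, rt F W₀ υ = τ + rt F (W₀ + d) υ / 2 ^ d → 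
          pq F c W₀ υ τ 1 = 2 ^ W₀ * F.x υ (c 0) - rt F (W₀ + d) υ / 2 ^ d * F.d υ (c 0) := by
        intro υ hυ
        show 2 ^ W₀ * (bt F υ (some (c 0)) + ((τ - rt F W₀ υ) / 2 ^ W₀) * F.d υ (c 0)) = _
        have h4 : bt F υ (some (c 0)) = F.x υ (c 0) := rfl
        rw [h4, hυ]
        field_simp
        ring
      have hb1 : ∀ υ : F.Ω, B υ → rt F (W₀ + d) υ ∈ Set.Icc (0 : ℝ) 1 →
          |rt F (W₀ + d) υ / 2 ^ d * F.d υ (c 0)| ≤ 1 / 2 ^ d := by
        intro υ hυ hm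
        rw [abs_mul, abs_div, abs_of_pos hpd, abs_of_nonneg hm.1]
        calc rt F (W₀ + d) υ / 2 ^ d * |F.d υ (c 0)| ≤ (1 / 2 ^ d) * 1 :=
              mul_le_mul (div_le_div_of_nonneg_right hm.2 hpd.le) (hd1 υ hυ) (abs_nonneg _)
                (by positivity)
          _ = _ := mul_one _
      have hmr : rt F (W₀ + d) ω ∈ Set.Icc (0 : ℝ) 1 := ⟨hrm.1, hrm.2⟩
      have hmr' : rt F (W₀ + d) ω' ∈ Set.Icc (0 : ℝ) 1 := ⟨hrm'.1, hrm'.2⟩
      have hbo := hb1 ω hω hmr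
      have hbo' := hb1 ω' hω' hmr'
      have hdd : (2 + σ) / 2 ^ d ≤ 1 := by
        rw [div_le_one hpd]
        exact h2σ
      have e4 : (2 + σ) / 2 ^ d = 1 / 2 ^ d + 1 / 2 ^ d + σ / 2 ^ d := by ring
      have hpd1 : 0 ≤ 1 / (2 : ℝ) ^ d := by positivity
      have hsd : 0 ≤ σ / (2 : ℝ) ^ d := by positivity
      have hrd : rt F (W₀ + d) ω / 2 ^ d ≤ 1 / 2 ^ d := div_le_div_of_nonneg_right hmr.2 hpd.le
      have hrd0 : 0 ≤ rt F (W₀ + d) ω / 2 ^ d := div_nonneg hmr.1 hpd.le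
      have hkey := (hdx (rhp c W₀ g₁ (slam F W₀ ω).2.2 R) a M (rhp_deg c W₀ g₁ _ hRd) ?_
        (pq F c W₀ ω τ - a) (pq F c W₀ ω' τ - a) (xq F c ω) (xq F c ω') ((2 + σ) / 2 ^ d) ε
        ?_ ?_ ?_ ?_ ?_ ?_).1
      · rw [add_sub_cancel, add_sub_cancel] at hkey
        have e5 : ∀ x y z w : ℝ, ρ * x - z - (ρ * y - w) = ρ * (x - y) - (z - w) := fun x y z w => by
          ring
        rw [e5]
        refine (abs_sub _ _).trans ?_
        rw [abs_mul, abs_of_nonneg hρ]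
        have := mul_le_mul_of_nonneg_left hf2 hρ
        linarith
      · -- the oscillation
        intro r hr1
        have hv : ∀ q : V3, eval q (rhp c W₀ g₁ (slam F W₀ ω).2.2 R) = 2 ^ g₁ *
            eval (fun o => if o = none then (((slam F W₀ ω).2.2 : ℝ) + q 0) / 2 ^ W₀ else
              q 1 / 2 ^ W₀) R := fun q => by
          refine rhp_eval c W₀ g₁ _ hRp q ?_ ?_
          · rw [if_pos rfl]
          · rw [if_neg (Option.some_ne_none _)]
        have ht := t_rt F hW₀J ω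
        have hown : eval (fun o => if o = none then (((slam F W₀ ω).2.2 : ℝ) + a 0) / 2 ^ W₀ else
              a 1 / 2 ^ W₀) R = eval (bt F ω) R := by
          refine hRp _ _ ?_ fun l hl => ?_
          · rw [if_pos rfl, ha0]
            show _ = F.t ω
            rw [ht]
          · have hl0 : l = 0 := by omega
            subst hl0
            rw [if_neg (Option.some_ne_none _), ha1]
            show _ = F.x ω (c 0)
            field_simp
        rw [hv, hv, hown, ← mul_sub, abs_mul, abs_of_pos (by positivity : (0 : ℝ) < 2 ^ g₁)]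
        refine hRo _ ?_ ?_
        · rw [if_pos rfl, ht]
          have e6 : (((slam F W₀ ω).2.2 : ℝ) + (a + r) 0) / 2 ^ W₀ -
              (((slam F W₀ ω).2.2 : ℝ) + rt F W₀ ω) / 2 ^ W₀ = r 0 / 2 ^ W₀ := by
            rw [Pi.add_apply, ha0]
            ring
          rw [e6, abs_div, abs_of_pos hpW]
          exact div_le_div_of_nonneg_right (hr1 0) hpW.le
        · rw [if_neg (Option.some_ne_none _)]
          have e6 : (a + r) 1 / 2 ^ W₀ - F.x ω (c 0) = r 1 / 2 ^ W₀ := by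
            rw [Pi.add_apply, ha1]
            field_simp
            ring
          rw [e6, abs_div, abs_of_pos hpW]
          exact div_le_div_of_nonneg_right (hr1 1) hpW.le
      · -- first position
        intro i
        fin_cases i
        · show |τ - a 0| ≤ 1
          rw [ha0, hr, abs_le]
          constructor <;> linarith
        · show |pq F c W₀ ω τ 1 - a 1| ≤ 1
          rw [ha1, hq1 ω hr]
          have := abs_le.1 hbo
          rw [abs_le]
          constructor <;> linarith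
        · show |(0 : ℝ) - a 2| ≤ 1
          rw [ha2, sub_zero, abs_zero]
          norm_num
      · intro i
        have hxx := abs_le.1 hx
        fin_cases i
        · show |τ - a 0| ≤ 1
          rw [ha0, hr, abs_le]
          constructor <;> linarith
        · show |pq F c W₀ ω' τ 1 - a 1| ≤ 1
          rw [ha1, hq1 ω' hr']
          have := abs_le.1 hbo'
          rw [abs_le]
          constructor <;> linarith
        · show |(0 : ℝ) - a 2| ≤ 1
          rw [ha2, sub_zero, abs_zero]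
          norm_num
      · intro i
        fin_cases i
        · show |(1 : ℝ)| ≤ 1
          rw [abs_one]
        · exact hd1 ω hω
        · show |(0 : ℝ)| ≤ 1
          rw [abs_zero]
          norm_num
      · intro i
        fin_cases i
        · show |(1 : ℝ)| ≤ 1
          rw [abs_one]
        · exact hd1 ω' hω'
        · show |(0 : ℝ)| ≤ 1
          rw [abs_zero]
          norm_num
      · intro i
        have hxx := abs_le.1 hx
        have e7 : (pq F c W₀ ω τ - a) - (pq F c W₀ ω' τ - a) = pq F c W₀ ω τ - pq F c W₀ ω' τ := by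
          abel
        rw [e7]
        fin_cases i
        · show |τ - τ| ≤ _
          rw [sub_self, abs_zero]
          positivity
        · show |pq F c W₀ ω τ 1 - pq F c W₀ ω' τ 1| ≤ _
          rw [hq1 ω hr, hq1 ω' hr']
          have h5 := abs_le.1 hbo
          have h6 := abs_le.1 hbo'
          rw [abs_le]
          constructor <;> linarith
        · show |(0 : ℝ) - 0| ≤ _
          rw [sub_zero, abs_zero]
          positivity
      · intro i
        fin_cases i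
        · show |(1 : ℝ) - 1| ≤ _
          rw [sub_self, abs_zero]
          exact hε0
        · exact hd01
        · show |(0 : ℝ) - 0| ≤ _
          rw [sub_zero, abs_zero]
          exact hε0
  have h1 := hdv ω hω j
  have h2 := hdv ω' hω' j
  rw [← hε]
  obtain ⟨a, ha⟩ : ∃ a, a = (Polynomial.derivative (hgP c W₀ g₁ Pl (slam F W₀ ω) j)).eval
      (st d (slam F (W₀ + d) ω)) := ⟨_, rfl⟩
  obtain ⟨a', ha'⟩ : ∃ a', a' = (Polynomial.derivative (hgP c W₀ g₁ Pl (slam F W₀ ω') j)).eval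
      (st d (slam F (W₀ + d) ω')) := ⟨_, rfl⟩
  rw [← ha] at h1 main
  rw [← ha'] at h2 main
  have e8 : D₁ (slam F (W₀ + d) ω) j - D₁ (slam F (W₀ + d) ω') j =
      (D₁ (slam F (W₀ + d) ω) j - 1 / σ * a) - (D₁ (slam F (W₀ + d) ω') j - 1 / σ * a') +
        1 / σ * (a - a') := by ring
  rw [e8]
  refine (abs_add_le _ _).trans ?_
  have h3 := abs_sub (D₁ (slam F (W₀ + d) ω) j - 1 / σ * a)
    (D₁ (slam F (W₀ + d) ω') j - 1 / σ * a')
  have h4 : |1 / σ * (a - a')| ≤ 1 / σ * ((1 + ρ) * ε + A * M * ((2 + σ) / 2 ^ d + ε)) := by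
    rw [abs_mul, abs_of_pos (by positivity : (0 : ℝ) < 1 / σ)]
    exact mul_le_mul_of_nonneg_left main (by positivity)
  have e9 : (2 : ℝ) / 2 ^ k = 1 / 2 ^ k + 1 / 2 ^ k := by ring
  linarith

end Pool.STA37
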