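import Pool.Agent.H37.STA.Dfw
import Pool.Agent.H98.STB.Ree

/-!
# The far data determine the position and the velocity in the near chart

`far_dat`: the far digits of the position and of the velocity. `pv_near`: the own position and the own
velocity in the near chart. `vel_far`: the velocity of the target over the closed polynomial of a
window is near the one over the closed polynomial of the first window, given the far data.
-/

set_option autoImplicit false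

namespace Pool.STA37

open Finset Real MvPolynomial
open Pool.Agent.H49.Ent Pool.Agent.H32.Dense Pool.STK Pool.KA Pool.KSAT Pool.K2S Pool.PB
open Pool.GEN Pool.CHT Pool.D2F
open Pool.STB (V3 Po Bx Hb cv)
open Pool.STB65 (uni_der InpP PosO Rs Rs_pos st rt_st st_mem crs crs_slam)
open Pool.STB82 (yv hgP lnP tmP lnP_eval hgP_d1 hgP_deg)
open Pool.STB77 (vpl vpt vpl_eval vpt_none vpt_zero)
open Pool.LA91 (jet ojet eval_alp jet_sub)
open Pool.EJ13 (dX eval_dX line_der mkv4 deg_pd)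
open Pool.PB.Trl (rt rt_mem t_rt)

variable {m J : ℕ}

/-- The value of a polynomial with a small oscillation. -/
theorem osc_lip (K : ℕ) : ∃ A : ℝ, 1 ≤ A ∧ ∀ (Q : Po) (a : V3) (M : ℝ), Q.totalDegree ≤ K →
    (∀ r, Bx 1 r → |eval (a + r) Q - eval a Q| ≤ M) → ∀ (r r' : V3) (δ : ℝ), Bx 1 r →
    Bx 1 r' → Bx δ (r - r') → |eval (a + r) Q - eval (a + r') Q| ≤ A * M * δ := by
  obtain ⟨A, hA, h⟩ := osc_dX K
  refine ⟨A, hA, ?_⟩
  intro Q a M hQ ho r r' δ hr hr' hδ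
  have hδ0 : 0 ≤ δ := (abs_nonneg _).trans (hδ 0)
  have hM : 0 ≤ M := (abs_nonneg _).trans (ho 0 fun i => by simp)
  have hb0 : Bx 1 (0 : V3) := fun i => by simp
  rcases hδ0.eq_or_lt with h0 | hpos
  · have e : r = r' := by
      funext i
      have h1 := hδ i
      rw [← h0] at h1
      have h2 := abs_nonpos_iff.1 h1
      rw [Pi.sub_apply] at h2
      linarith
    rw [e, sub_self, abs_zero]
    positivity
  have h1 := (convex_Icc (0 : ℝ) 1).norm_image_sub_le_of_norm_hasDerivWithin_le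
    (f := fun t : ℝ => eval (a + r' + t • (r - r')) Q)
    (f' := fun t => eval (a + r' + t • (r - r')) (dX (r - r') Q)) (C := A * M * δ)
    (fun t _ => (line_der (a + r') (r - r') Q t).hasDerivWithinAt) (fun t ht => by
      rw [Real.norm_eq_abs]
      have hb : Bx 1 (r' + t • (r - r')) := fun i => by
        have h2 := abs_le.1 (hr i)
        have h3 := abs_le.1 (hr' i)
        rw [Pi.add_apply, Pi.smul_apply, smul_eq_mul, Pi.sub_apply, abs_le]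
        constructor <;> nlinarith [ht.1, ht.2]
      have hv : Bx 1 ((1 / δ) • (r - r')) := fun i => by
        rw [Pi.smul_apply, smul_eq_mul, abs_mul, abs_of_pos (by positivity), one_div,
          inv_mul_le_one₀ hpos]
        exact hδ i
      have h4 := (h Q a M hQ ho (r' + t • (r - r')) 0 ((1 / δ) • (r - r')) 0 2 1 hb hb0 hv
        hb0 (fun i => by
          rw [sub_zero]
          exact (hb i).trans (by norm_num)) (by rw [sub_zero]; exact hv)).2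
      have e : eval (a + (r' + t • (r - r'))) (dX (r - r') Q) =
          δ * eval (a + (r' + t • (r - r'))) (dX ((1 / δ) • (r - r')) Q) := by
        rw [eval_dX, eval_dX, Finset.mul_sum]
        refine Finset.sum_congr rfl fun j _ => ?_
        rw [Pi.smul_apply, smul_eq_mul]
        field_simp
      rw [add_assoc, e, abs_mul, abs_of_pos hpos, mul_comm]
      exact mul_le_mul_of_nonneg_right h4 hδ0) (x := 0) (y := 1) ⟨le_rfl, zero_le_one⟩
      ⟨zero_le_one, le_rfl⟩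
  simp only [zero_smul, add_zero, one_smul, sub_zero, norm_one, mul_one, Real.norm_eq_abs] at h1
  have e2 : a + r' + (r - r') = a + r := by abel
  rwa [e2] at h1

/-- The far digits of the position and of the velocity. -/
theorem far_dat (K : ℕ) : ∃ C : ℝ, 1 ≤ C ∧ ∀ {m J : ℕ} {F : Fam m J} {B : F.Ω → Prop}
    (c : ℕ → Fin m) (W₀ d k n g1 i : ℕ) (Y σ Kp : ℝ)
    (Pl : LnT F → MvPolynomial (Option (Fin m)) ℝ) (yt : PtT F → V3) (ctr xo : ℕ → F.Ω → V3)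
    (D₁ : LnT F → V3),
    InpP F B W₀ d k n K Y (yv F c W₀ g1 Pl) yt (hgP c W₀ g1 Pl) →
    PosO F B W₀ d k n σ Kp (yv F c W₀ g1 Pl) (hgP c W₀ g1 Pl) ctr xo D₁ → i < n →
    W₀ + d + n * k ≤ J → 0 < σ → 0 ≤ Y → ∀ ω ω', B ω → B ω' →
    (ctr i ω = ctr i ω' → cv (2 ^ k) (xo i ω) = cv (2 ^ k) (xo i ω') → ∀ l,
      |yv F c W₀ g1 Pl ω l - yv F c W₀ g1 Pl ω' l| ≤ 5 * σ / (2 ^ (d + i * k) * 2 ^ k)) ∧
    (D₁ (slam F (W₀ + d) ω) = D₁ (slam F (W₀ + d) ω') → ∀ l,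
      |(Polynomial.derivative (hgP c W₀ g1 Pl (slam F W₀ ω) l)).eval (rt F W₀ ω) -
        (Polynomial.derivative (hgP c W₀ g1 Pl (slam F W₀ ω') l)).eval (rt F W₀ ω')| ≤
        2 * (C * Y / 2 ^ d + σ / 2 ^ k)) := by
  classical
  obtain ⟨C, hC, hu⟩ := uni_der K
  refine ⟨C, hC, ?_⟩
  intro m J F B c W₀ d k n g1 i Y σ Kp Pl yt ctr xo D₁ I O hi hJ hσ hY ω ω' hω hω'
  have hWJ : W₀ ≤ J := by omega
  have hWdJ : W₀ + d ≤ J := by omega
  have hR : 0 < Rs d k σ i := Rs_pos hσ i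
  have h2k : (0 : ℝ) < 2 ^ k := by positivity
  constructor
  · intro hctr hcv l
    have hxx : |xo i ω l - xo i ω' l| ≤ 1 / 2 ^ k := by
      have h1 := congrFun hcv l
      have h2 : ⌊((2 ^ k : ℕ) : ℝ) * xo i ω l⌋ = ⌊((2 ^ k : ℕ) : ℝ) * xo i ω' l⌋ := h1
      have e : ((2 ^ k : ℕ) : ℝ) = 2 ^ k := by push_cast; rfl
      rw [e] at h2
      have a1 := Int.floor_le ((2 : ℝ) ^ k * xo i ω l)
      have a2 := Int.lt_floor_add_one ((2 : ℝ) ^ k * xo i ω l)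
      have b1 := Int.floor_le ((2 : ℝ) ^ k * xo i ω' l)
      have b2 := Int.lt_floor_add_one ((2 : ℝ) ^ k * xo i ω' l)
      have e2 : ((⌊(2 : ℝ) ^ k * xo i ω l⌋ : ℤ) : ℝ) = (⌊(2 : ℝ) ^ k * xo i ω' l⌋ : ℤ) := by
        rw [h2]
      have h3 : |(2 : ℝ) ^ k * (xo i ω l - xo i ω' l)| ≤ 1 := by
        rw [mul_sub, abs_le]
        constructor <;> linarith
      rw [abs_mul, abs_of_pos h2k] at h3
      rw [le_div_iff₀ h2k, mul_comm]
      exact h3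
    have h1 := O.qx i hi ω hω l
    have h2 := O.qx i hi ω' hω' l
    rw [Pi.sub_apply, Pi.smul_apply, smul_eq_mul, Pi.sub_apply] at h1 h2
    rw [← hctr] at h2
    have h4 : |Rs d k σ i * (yv F c W₀ g1 Pl ω l - yv F c W₀ g1 Pl ω' l)| ≤ 5 / 2 ^ k := by
      have e : Rs d k σ i * (yv F c W₀ g1 Pl ω l - yv F c W₀ g1 Pl ω' l) =
          (xo i ω l - xo i ω' l) - (xo i ω l - Rs d k σ i * (yv F c W₀ g1 Pl ω l - ctr i ω l)) +
          (xo i ω' l - Rs d k σ i * (yv F c W₀ g1 Pl ω' l - ctr i ω l)) := by ring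
      rw [e]
      refine (abs_add_le _ _).trans ((add_le_add ((abs_sub _ _).trans (add_le_add hxx h1))
        h2).trans (le_of_eq ?_))
      ring
    rw [abs_mul, abs_of_pos hR] at h4
    have h5 : (2 : ℝ) ^ (d + i * k) / σ * |yv F c W₀ g1 Pl ω l - yv F c W₀ g1 Pl ω' l| ≤
        5 / 2 ^ k := h4
    rw [le_div_iff₀ (by positivity)]
    rw [div_mul_eq_mul_div, div_le_div_iff₀ hσ h2k] at h5
    calc _ = (2 : ℝ) ^ (d + i * k) * |yv F c W₀ g1 Pl ω l - yv F c W₀ g1 Pl ω' l| * 2 ^ k := by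
          ring
      _ ≤ 5 * σ := h5
  · intro hD l
    have hvel : ∀ (ω : F.Ω), B ω →
        |(Polynomial.derivative (hgP c W₀ g1 Pl (slam F W₀ ω) l)).eval (rt F W₀ ω) -
          σ * D₁ (slam F (W₀ + d) ω) l| ≤ C * Y / 2 ^ d + σ / 2 ^ k := by
      intro ω hω
      obtain ⟨Q, hQ⟩ : ∃ Q, Q = Polynomial.derivative (hgP c W₀ g1 Pl (slam F W₀ ω) l) := ⟨_, rfl⟩
      have h1 := O.dv ω hω l
      rw [← hQ] at h1 ⊢
      have hQd : Q.natDegree ≤ K := by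
        rw [hQ]
        exact (Polynomial.natDegree_derivative_le _).trans ((Nat.sub_le _ _).trans (I.hd _ _))
      have hQb : ∀ τ ∈ Set.Icc (0 : ℝ) 1, |Q.eval τ| ≤ Y := fun τ hτ => by
        rw [hQ]
        exact I.vel ω hω l τ hτ
      have hQ' : ∀ τ ∈ Set.Icc (0 : ℝ) 1, |(Polynomial.derivative Q).eval τ| ≤ C * Y :=
        fun τ hτ => (hu Q Y hQd hQb τ (by rw [abs_of_nonneg hτ.1]; linarith [hτ.2])).2
      have hr := rt_mem F W₀ ω
      have hs := Pool.STB65.st_mem (F := F) d (slam F (W₀ + d) ω)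
      have h2 := Pool.STB65.pol_lip Q hQ' (x := st d (slam F (W₀ + d) ω)) hs (y := rt F W₀ ω) hr
      have h3 : |rt F W₀ ω - st d (slam F (W₀ + d) ω)| ≤ 1 / 2 ^ d := by
        rw [rt_st F hWdJ ω, add_sub_cancel_left]
        have h4 := rt_mem F (W₀ + d) ω
        rw [abs_of_nonneg (div_nonneg h4.1 (by positivity))]
        exact div_le_div_of_nonneg_right h4.2 (by positivity)
      have h5 : |Q.eval (rt F W₀ ω) - Q.eval (st d (slam F (W₀ + d) ω))| ≤ C * Y / 2 ^ d := by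
        refine h2.trans ((mul_le_mul_of_nonneg_left h3 (by positivity)).trans (le_of_eq ?_))
        ring
      have h6 : |Q.eval (st d (slam F (W₀ + d) ω)) - σ * D₁ (slam F (W₀ + d) ω) l| ≤
          σ / 2 ^ k := by
        have e : Q.eval (st d (slam F (W₀ + d) ω)) - σ * D₁ (slam F (W₀ + d) ω) l =
            -(σ * (D₁ (slam F (W₀ + d) ω) l - 1 / σ * Q.eval (st d (slam F (W₀ + d) ω)))) := by
          field_simp
          ring
        rw [e, abs_neg, abs_mul, abs_of_pos hσ]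
        refine (mul_le_mul_of_nonneg_left h1 hσ.le).trans (le_of_eq ?_)
        ring
      have e : Q.eval (rt F W₀ ω) - σ * D₁ (slam F (W₀ + d) ω) l =
          (Q.eval (rt F W₀ ω) - Q.eval (st d (slam F (W₀ + d) ω))) +
            (Q.eval (st d (slam F (W₀ + d) ω)) - σ * D₁ (slam F (W₀ + d) ω) l) := by ring
      rw [e]
      exact (abs_add_le _ _).trans (add_le_add h5 h6)
    have h1 := hvel ω hω
    have h2 := hvel ω' hω'
    rw [← hD] at h2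
    have e : (Polynomial.derivative (hgP c W₀ g1 Pl (slam F W₀ ω) l)).eval (rt F W₀ ω) -
        (Polynomial.derivative (hgP c W₀ g1 Pl (slam F W₀ ω') l)).eval (rt F W₀ ω') =
        ((Polynomial.derivative (hgP c W₀ g1 Pl (slam F W₀ ω) l)).eval (rt F W₀ ω) -
          σ * D₁ (slam F (W₀ + d) ω) l) -
        ((Polynomial.derivative (hgP c W₀ g1 Pl (slam F W₀ ω') l)).eval (rt F W₀ ω') -
          σ * D₁ (slam F (W₀ + d) ω) l) := by ring
    rw [e]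
    exact (abs_sub _ _).trans (by linarith)

theorem lpt_own (F : Fam m J) (w : ℕ) (ω : F.Ω) : lpt F w ω (rt F w ω) = bt F ω := by
  funext o
  unfold lpt
  rw [sub_self, zero_div, zero_mul, add_zero]

/-- **The own position and velocity in the near chart.** -/
theorem pv_near (K : ℕ) : ∃ A : ℝ, 1 ≤ A ∧ ∀ {m J : ℕ} {F : Fam m J} {c : ℕ → Fin m}
    {W₀ g₁ W₁ g₁' : ℕ} {M ρ δ ε : ℝ} {Pl Pl' : LnT F → MvPolynomial (Option (Fin m)) ℝ}
    {ω ω' : F.Ω}, W₀ ≤ J → W₁ ≤ J → 0 ≤ ρ → 0 ≤ M → 0 ≤ δ → 0 ≤ ε →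
    (2 : ℝ) ^ g₁ / 2 ^ W₀ = ρ * (2 ^ g₁' / 2 ^ W₁) →
    (Pl (slam F W₀ ω) - Pl' (slam F W₁ ω)).totalDegree ≤ K →
    DepC c 1 (Pl (slam F W₀ ω) - Pl' (slam F W₁ ω)) →
    (∀ b : Option (Fin m) → ℝ, |b none - F.t ω| ≤ 1 / 2 ^ W₀ →
      |b (some (c 0)) - F.x ω (c 0)| ≤ 1 / 2 ^ W₀ →
      2 ^ g₁ * |eval b (Pl (slam F W₀ ω) - Pl' (slam F W₁ ω)) -
        eval (bt F ω) (Pl (slam F W₀ ω) - Pl' (slam F W₁ ω))| ≤ M) →
    |F.d ω (c 0)| ≤ 1 → |F.d ω' (c 0)| ≤ 1 → Pl (slam F W₀ ω) = Pl (slam F W₀ ω') →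
    Pl' (slam F W₁ ω) = Pl' (slam F W₁ ω') → F.T ω = F.T ω' →
    (∀ l, |yv F c W₁ g₁' Pl' ω l - yv F c W₁ g₁' Pl' ω' l| ≤ δ) →
    (∀ l, |(Polynomial.derivative (hgP c W₁ g₁' Pl' (slam F W₁ ω) l)).eval (rt F W₁ ω) -
      (Polynomial.derivative (hgP c W₁ g₁' Pl' (slam F W₁ ω') l)).eval (rt F W₁ ω')| ≤ ε) →
    2 ^ W₀ / 2 ^ W₁ * δ ≤ 1 → ε ≤ 1 →
    ∀ l, |yv F c W₀ g₁ Pl ω l - yv F c W₀ g₁ Pl ω' l| ≤
        (1 + ρ + A * M) * (2 ^ W₀ / 2 ^ W₁ * δ) ∧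
      |(Polynomial.derivative (hgP c W₀ g₁ Pl (slam F W₀ ω) l)).eval (rt F W₀ ω) -
        (Polynomial.derivative (hgP c W₀ g₁ Pl (slam F W₀ ω') l)).eval (rt F W₀ ω')| ≤
        (1 + ρ) * ε + A * M * (2 ^ W₀ / 2 ^ W₁ * δ + ε) := by
  obtain ⟨A₁, hA₁, hdx⟩ := osc_dX K
  obtain ⟨A₂, hA₂, hlp⟩ := osc_lip K
  refine ⟨A₁ + A₂, by linarith, ?_⟩
  intro m J F c W₀ g₁ W₁ g₁' M ρ δ ε Pl Pl' ω ω' hW₀J hW₁J hρ hM hδ hε hg hRd hRp hRo hd hd' hP hP'
    hT hy hv hδ1 hε1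
  have hpW : (0 : ℝ) < 2 ^ W₀ := by positivity
  have hpW₁ : (0 : ℝ) < 2 ^ W₁ := by positivity
  obtain ⟨E, hE⟩ : ∃ E : ℝ, E = 2 ^ W₀ / 2 ^ W₁ := ⟨_, rfl⟩
  have hE0 : 0 < E := by rw [hE]; positivity
  rw [← hE] at hδ1 ⊢
  have hEδ : 0 ≤ E * δ := by positivity
  obtain ⟨R, hR⟩ : ∃ R, R = Pl (slam F W₀ ω) - Pl' (slam F W₁ ω) := ⟨_, rfl⟩
  have hR' : R = Pl (slam F W₀ ω') - Pl' (slam F W₁ ω') := by rw [hR, hP, hP']
  rw [← hR] at hRd hRp hRo
  -- the times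
  have hTT : F.T1 W₀ ω = F.T1 W₀ ω' := by
    unfold Fam.T1
    rw [hT]
  have hTs : (slam F W₀ ω').2.2 = (slam F W₀ ω).2.2 := hTT.symm
  have hrt : ∀ w, w ≤ J → rt F w ω' = rt F w ω := by
    intro w hw
    have h1 := t_rt F hw ω
    have h2 := t_rt F hw ω'
    have h3 : F.t ω = F.t ω' := by
      unfold Fam.t
      rw [hT]
    have h4 : (slam F w ω).2.2 = (slam F w ω').2.2 := by
      show F.T1 w ω = F.T1 w ω'
      unfold Fam.T1
      rw [hT]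
    rw [h3, h2, h4] at h1
    field_simp at h1
    linarith
  have hrt0 := hrt W₀ hW₀J
  have hrt1 := hrt W₁ hW₁J
  obtain ⟨τ, hτ⟩ : ∃ τ, τ = rt F W₀ ω := ⟨_, rfl⟩
  -- the base point
  obtain ⟨a, ha⟩ : ∃ a : V3, a = pq F c W₀ ω τ := ⟨_, rfl⟩
  obtain ⟨a', ha'⟩ : ∃ a' : V3, a' = pq F c W₀ ω' τ := ⟨_, rfl⟩
  have ha0 : a 0 = τ := by rw [ha]; rfl
  have ha0' : a' 0 = τ := by rw [ha']; rfl
  have ha1 : a 1 = 2 ^ W₀ * F.x ω (c 0) := by
    rw [ha, hτ]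
    show 2 ^ W₀ * lpt F W₀ ω (rt F W₀ ω) (some (c 0)) = _
    rw [lpt_own]
    rfl
  have ha1' : a' 1 = 2 ^ W₀ * F.x ω' (c 0) := by
    rw [ha', hτ, ← hrt0]
    show 2 ^ W₀ * lpt F W₀ ω' (rt F W₀ ω') (some (c 0)) = _
    rw [lpt_own]
    rfl
  have ha2 : a 2 = 0 := by rw [ha]; rfl
  have ha2' : a' 2 = 0 := by rw [ha']; rfl
  have hx : |2 ^ W₀ * F.x ω (c 0) - 2 ^ W₀ * F.x ω' (c 0)| ≤ E * δ := by
    have h1 := hy 1
    have h2 : yv F c W₁ g₁' Pl' ω 1 = 2 ^ W₁ * F.x ω (c 0) := rfl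
    have h3 : yv F c W₁ g₁' Pl' ω' 1 = 2 ^ W₁ * F.x ω' (c 0) := rfl
    rw [h2, h3] at h1
    have e : 2 ^ W₀ * F.x ω (c 0) - 2 ^ W₀ * F.x ω' (c 0) =
        E * (2 ^ W₁ * F.x ω (c 0) - 2 ^ W₁ * F.x ω' (c 0)) := by
      rw [hE]
      field_simp
    rw [e, abs_mul, abs_of_pos hE0]
    exact mul_le_mul_of_nonneg_left h1 hE0.le
  have haa : Bx (E * δ) (0 - (a' - a)) := by
    intro i
    rw [Pi.sub_apply, Pi.zero_apply, zero_sub, abs_neg, Pi.sub_apply]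
    fin_cases i
    · show |a' 0 - a 0| ≤ _
      rw [ha0, ha0', sub_self, abs_zero]
      exact hEδ
    · show |a' 1 - a 1| ≤ _
      rw [ha1, ha1', abs_sub_comm]
      exact hx
    · show |a' 2 - a 2| ≤ _
      rw [ha2, ha2', sub_self, abs_zero]
      exact hEδ
  have hb0 : Bx 1 (0 : V3) := fun i => by simp
  have hb1 : Bx 1 (a' - a) := fun i => by
    have h1 := haa i
    rw [Pi.sub_apply, Pi.zero_apply, zero_sub, abs_neg] at h1
    exact h1.trans hδ1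
  -- the oscillation
  have hosc : ∀ r : V3, Bx 1 r → |eval (a + r) (rhp c W₀ g₁ (slam F W₀ ω).2.2 R) -
      eval a (rhp c W₀ g₁ (slam F W₀ ω).2.2 R)| ≤ M := by
    intro r hr1
    have hv1 : ∀ q : V3, eval q (rhp c W₀ g₁ (slam F W₀ ω).2.2 R) = 2 ^ g₁ *
        eval (fun o => if o = none then (((slam F W₀ ω).2.2 : ℝ) + q 0) / 2 ^ W₀ else
          q 1 / 2 ^ W₀) R := fun q => by
      refine rhp_eval c W₀ g₁ _ hRp q ?_ ?_
      · rw [if_pos rfl]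
      · rw [if_neg (Option.some_ne_none _)]
    have ht := t_rt F hW₀J ω
    have hown : eval (fun o => if o = none then (((slam F W₀ ω).2.2 : ℝ) + a 0) / 2 ^ W₀ else
          a 1 / 2 ^ W₀) R = eval (bt F ω) R := by
      refine hRp _ _ ?_ fun l hl => ?_
      · rw [if_pos rfl, ha0, hτ]
        show _ = F.t ω
        rw [ht]
      · have hl0 : l = 0 := by omega
        subst hl0
        rw [if_neg (Option.some_ne_none _), ha1]
        show _ = F.x ω (c 0)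
        field_simp
    rw [hv1, hv1, hown, ← mul_sub, abs_mul, abs_of_pos (by positivity : (0 : ℝ) < 2 ^ g₁)]
    refine hRo _ ?_ ?_
    · rw [if_pos rfl, ht]
      have e6 : (((slam F W₀ ω).2.2 : ℝ) + (a + r) 0) / 2 ^ W₀ -
          (((slam F W₀ ω).2.2 : ℝ) + rt F W₀ ω) / 2 ^ W₀ = r 0 / 2 ^ W₀ := by
        rw [Pi.add_apply, ha0, hτ]
        ring
      rw [e6, abs_div, abs_of_pos hpW]
      exact div_le_div_of_nonneg_right (hr1 0) hpW.le
    · rw [if_neg (Option.some_ne_none _)]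
      have e6 : (a + r) 1 / 2 ^ W₀ - F.x ω (c 0) = r 1 / 2 ^ W₀ := by
        rw [Pi.add_apply, ha1]
        field_simp
        ring
      rw [e6, abs_div, abs_of_pos hpW]
      exact div_le_div_of_nonneg_right (hr1 1) hpW.le
  have hAM1 : 0 ≤ A₁ * M * (E * δ) := by positivity
  have hAM2 : 0 ≤ A₂ * M * (E * δ) := by positivity
  have hρδ : 0 ≤ ρ * (E * δ) := by positivity
  have hρε : 0 ≤ ρ * ε := by positivity
  have hAε : 0 ≤ A₁ * M * ε := by positivity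
  have hAε2 : 0 ≤ A₂ * M * ε := by positivity
  -- the velocity of the first coordinate
  have hd01 := hv 1
  rw [Pool.STB82.hgP_d1, Pool.STB82.hgP_d1] at hd01
  have hsum1 : (1 + ρ + (A₁ + A₂) * M) * (E * δ) =
      E * δ + ρ * (E * δ) + A₁ * M * (E * δ) + A₂ * M * (E * δ) := by ring
  have hsum2 : (1 + ρ) * ε + (A₁ + A₂) * M * (E * δ + ε) =
      ε + ρ * ε + A₁ * M * (E * δ) + A₂ * M * (E * δ) + A₁ * M * ε + A₂ * M * ε := by ring
  intro l
  rw [hsum1, hsum2]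
  constructor
  · fin_cases l
    · show |rt F W₀ ω - rt F W₀ ω'| ≤ _
      rw [hrt0, sub_self, abs_zero]
      positivity
    · show |2 ^ W₀ * F.x ω (c 0) - 2 ^ W₀ * F.x ω' (c 0)| ≤ _
      linarith
    · show |yv F c W₀ g₁ Pl ω 2 - yv F c W₀ g₁ Pl ω' 2| ≤ _
      have hsp : ∀ υ : F.Ω, R = Pl (slam F W₀ υ) - Pl' (slam F W₁ υ) →
          yv F c W₀ g₁ Pl υ 2 = ρ * E * yv F c W₁ g₁' Pl' υ 2 -
            eval (pq F c W₀ υ (rt F W₀ υ)) (rhp c W₀ g₁ (slam F W₀ υ).2.2 R) := by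
        intro υ hRυ
        have h1 := rhp_line F c hW₀J g₁ hRp υ (rt F W₀ υ) 0
        rw [zero_smul, add_zero, add_zero, lpt_own] at h1
        rw [h1]
        show 2 ^ g₁ * (F.x υ (c 1) - eval (bt F υ) (Pl (slam F W₀ υ))) =
          ρ * E * (2 ^ g₁' * (F.x υ (c 1) - eval (bt F υ) (Pl' (slam F W₁ υ)))) - _
        rw [hRυ, map_sub]
        have e1 : (2 : ℝ) ^ g₁ = ρ * E * 2 ^ g₁' := by
          rw [hE]
          field_simp at hg ⊢
          linarith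
        rw [e1]
        ring
      rw [hsp ω hR, hsp ω' hR', hTs, hrt0, ← hτ, ← ha, ← ha']
      have h2 := hy 2
      have h3 := hlp (rhp c W₀ g₁ (slam F W₀ ω).2.2 R) a M (rhp_deg c W₀ g₁ _ hRd) hosc 0 (a' - a)
        (E * δ) hb0 hb1 haa
      rw [add_zero, add_sub_cancel] at h3
      have e5 : ∀ x y z w : ℝ, ρ * E * x - z - (ρ * E * y - w) = ρ * E * (x - y) - (z - w) :=
        fun x y z w => by ring
      rw [e5]
      refine (abs_sub _ _).trans ?_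
      rw [abs_mul, abs_of_nonneg (by positivity : 0 ≤ ρ * E)]
      have h4 := mul_le_mul_of_nonneg_left h2 (by positivity : 0 ≤ ρ * E)
      linarith
  · fin_cases l
    · show |(Polynomial.derivative (Polynomial.X : Polynomial ℝ)).eval _ -
        (Polynomial.derivative (Polynomial.X : Polynomial ℝ)).eval _| ≤ _
      rw [Polynomial.derivative_X, Polynomial.eval_one, Polynomial.eval_one, sub_self, abs_zero]
      positivity
    · show |(Polynomial.derivative (hgP c W₀ g₁ Pl (slam F W₀ ω) 1)).eval (rt F W₀ ω) -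
        (Polynomial.derivative (hgP c W₀ g₁ Pl (slam F W₀ ω') 1)).eval (rt F W₀ ω')| ≤ _
      rw [Pool.STB82.hgP_d1, Pool.STB82.hgP_d1]
      linarith
    · show |(Polynomial.derivative (hgP c W₀ g₁ Pl (slam F W₀ ω) 2)).eval (rt F W₀ ω) -
        (Polynomial.derivative (hgP c W₀ g₁ Pl (slam F W₀ ω') 2)).eval (rt F W₀ ω')| ≤ _
      have hsp : ∀ υ : F.Ω, R = Pl (slam F W₀ υ) - Pl' (slam F W₁ υ) →
          (Polynomial.derivative (hgP c W₀ g₁ Pl (slam F W₀ υ) 2)).eval (rt F W₀ υ) =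
          ρ * (Polynomial.derivative (hgP c W₁ g₁' Pl' (slam F W₁ υ) 2)).eval (rt F W₁ υ) -
          eval (pq F c W₀ υ (rt F W₀ υ))
            (dX (xq F c υ) (rhp c W₀ g₁ (slam F W₀ υ).2.2 R)) := by
        intro υ hRυ
        rw [hgP_dt F c hW₀J, hgP_dt F c hW₁J, rhp_der F c hW₀J g₁ hRp, lpt_own, lpt_own]
        have e : (X (some (c 1)) - Pl (slam F W₀ υ) : MvPolynomial (Option (Fin m)) ℝ) =
            (X (some (c 1)) - Pl' (slam F W₁ υ)) - R := by rw [hRυ]; ring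
        rw [e, jet_sub]
        have e2 : ∀ x : ℝ, (2 : ℝ) ^ g₁ * (1 / 2 ^ W₀ * x) = 2 ^ g₁ / 2 ^ W₀ * x := fun x => by ring
        have e3 : ∀ x : ℝ, (2 : ℝ) ^ g₁' * (1 / 2 ^ W₁ * x) = 2 ^ g₁' / 2 ^ W₁ * x :=
          fun x => by ring
        rw [e2, e3, e2, hg]
        ring
      have hf2 := hv 2
      rw [hsp ω hR, hsp ω' hR', hTs]
      rw [hrt1] at hf2
      rw [hrt0, hrt1, ← hτ, ← ha, ← ha']
      have h3 := (hdx (rhp c W₀ g₁ (slam F W₀ ω).2.2 R) a M (rhp_deg c W₀ g₁ _ hRd) hosc 0 (a' - a)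
        (xq F c ω) (xq F c ω') (E * δ) ε hb0 hb1 (by
          intro i
          fin_cases i
          · show |(1 : ℝ)| ≤ 1
            rw [abs_one]
          · exact hd
          · show |(0 : ℝ)| ≤ 1
            rw [abs_zero]
            norm_num) (by
          intro i
          fin_cases i
          · show |(1 : ℝ)| ≤ 1
            rw [abs_one]
          · exact hd'
          · show |(0 : ℝ)| ≤ 1
            rw [abs_zero]
            norm_num) haa (by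
          intro i
          fin_cases i
          · show |(1 : ℝ) - 1| ≤ _
            rw [sub_self, abs_zero]
            exact hε
          · exact hd01
          · show |(0 : ℝ) - 0| ≤ _
            rw [sub_zero, abs_zero]
            exact hε)).1
      rw [add_zero, add_sub_cancel] at h3
      have e5 : ∀ x y z w : ℝ, ρ * x - z - (ρ * y - w) = ρ * (x - y) - (z - w) :=
        fun x y z w => by ring
      rw [e5]
      refine (abs_sub _ _).trans ?_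
      rw [abs_mul, abs_of_nonneg hρ]
      have h4 := mul_le_mul_of_nonneg_left hf2 hρ
      linarith

/-- The derivative of a closed part at two points. -/
theorem ci_lip (b : ℕ) : ∃ A : ℝ, 1 ≤ A ∧ ∀ (Q : Po) (R G nu Yv δ ε : ℝ) (a y y' v v' : V3),
    Q.totalDegree ≤ b → 0 < R → 0 < nu → 0 ≤ G →
    (∀ j q, Bx 1 q → nu * |eval q (pderiv j Q)| ≤ G / R) →
    Bx (1 / 2) (R • (y - a)) → Bx (1 / 2) (R • (y' - a)) → Bx δ (y - y') → Bx ε (v - v') →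
    Bx Yv v' →
    |nu * R * eval (R • (y - a)) (dX v Q) - nu * R * eval (R • (y' - a)) (dX v' Q)| ≤
      A * G * (ε + R * δ * Yv) := by
  obtain ⟨A₀, hA₀, hm⟩ := mkv4 b
  refine ⟨9 * A₀, by linarith, ?_⟩
  intro Q R G nu Yv δ ε a y y' v v' hQ hR hnu hG hgr hy hy' hδ hε hv'
  have hδ0 : 0 ≤ δ := (abs_nonneg _).trans (hδ 0)
  have hε0 : 0 ≤ ε := (abs_nonneg _).trans (hε 0)
  have hY0 : 0 ≤ Yv := (abs_nonneg _).trans (hv' 0)
  have hnR : 0 < nu * R := by positivity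
  obtain ⟨g, hg⟩ : ∃ g, g = G / (nu * R) := ⟨_, rfl⟩
  have hg0 : 0 ≤ g := by rw [hg]; positivity
  have hgG : nu * R * g = G := by rw [hg]; field_simp
  have h1 : ∀ j q, Bx 1 q → |eval q (pderiv j Q)| ≤ g := fun j q hq => by
    rw [hg, le_div_iff₀ hnR]
    have h2 := hgr j q hq
    rw [le_div_iff₀ hR] at h2
    calc |eval q (pderiv j Q)| * (nu * R) = nu * |eval q (pderiv j Q)| * R := by ring
      _ ≤ G := h2
  have hb1 : Bx 1 (R • (y - a)) := fun i => (hy i).trans (by norm_num)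
  have hb1' : Bx 1 (R • (y' - a)) := fun i => (hy' i).trans (by norm_num)
  have hb2 : Bx (R * δ) (R • (y - a) - R • (y' - a)) := fun i => by
    have e : (R • (y - a) - R • (y' - a)) i = R * (y - y') i := by
      simp only [Pi.sub_apply, Pi.smul_apply, smul_eq_mul]
      ring
    rw [e, abs_mul, abs_of_pos hR]
    exact mul_le_mul_of_nonneg_left (hδ i) hR.le
  have h3 : ∀ j, |eval (R • (y - a)) (pderiv j Q) - eval (R • (y' - a)) (pderiv j Q)| ≤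
      3 * (A₀ * g) * (R * δ) := fun j =>
    lip_pd (pderiv j Q) (M := A₀ * g) (fun i r hr =>
      (hm (pderiv j Q) g (deg_pd hQ j) (fun q hq => h1 j q hq) i r hr).1) hb1 hb1' hb2
  have e1 : eval (R • (y - a)) (dX v Q) - eval (R • (y' - a)) (dX v' Q) =
      (∑ j, (v - v') j * eval (R • (y - a)) (pderiv j Q)) +
        ∑ j, v' j * (eval (R • (y - a)) (pderiv j Q) - eval (R • (y' - a)) (pderiv j Q)) := by
    rw [eval_dX, eval_dX, ← Finset.sum_sub_distrib, ← Finset.sum_add_distrib]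
    refine Finset.sum_congr rfl fun j _ => ?_
    rw [Pi.sub_apply]
    ring
  have b1 : |∑ j, (v - v') j * eval (R • (y - a)) (pderiv j Q)| ≤ 3 * (ε * g) := by
    calc _ ≤ ∑ j, |(v - v') j * eval (R • (y - a)) (pderiv j Q)| := Finset.abs_sum_le_sum_abs _ _
      _ ≤ ∑ _j : Fin 3, ε * g := Finset.sum_le_sum fun j _ => by
          rw [abs_mul]
          exact mul_le_mul (hε j) (h1 j _ hb1) (abs_nonneg _) hε0
      _ = _ := by
          rw [Finset.sum_const, Finset.card_univ, Fintype.card_fin, nsmul_eq_mul]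
          push_cast
          ring
  have b2 : |∑ j, v' j * (eval (R • (y - a)) (pderiv j Q) - eval (R • (y' - a)) (pderiv j Q))| ≤
      3 * (Yv * (3 * (A₀ * g) * (R * δ))) := by
    calc _ ≤ ∑ j, |v' j * (eval (R • (y - a)) (pderiv j Q) -
          eval (R • (y' - a)) (pderiv j Q))| := Finset.abs_sum_le_sum_abs _ _
      _ ≤ ∑ _j : Fin 3, Yv * (3 * (A₀ * g) * (R * δ)) := Finset.sum_le_sum fun j _ => by
          rw [abs_mul]
          exact mul_le_mul (hv' j) (h3 j) (abs_nonneg _) hY0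
      _ = _ := by
          rw [Finset.sum_const, Finset.card_univ, Fintype.card_fin, nsmul_eq_mul]
          push_cast
          ring
  rw [← mul_sub, abs_mul, abs_of_pos hnR, e1]
  have h5 : |(∑ j, (v - v') j * eval (R • (y - a)) (pderiv j Q)) +
      ∑ j, v' j * (eval (R • (y - a)) (pderiv j Q) - eval (R • (y' - a)) (pderiv j Q))| ≤
      3 * (ε * g) + 3 * (Yv * (3 * (A₀ * g) * (R * δ))) := (abs_add_le _ _).trans (add_le_add b1 b2)
  have h6 := mul_le_mul_of_nonneg_left h5 hnR.le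
  refine h6.trans ?_
  have e2 : nu * R * (3 * (ε * g) + 3 * (Yv * (3 * (A₀ * g) * (R * δ)))) =
      3 * (nu * R * g) * ε + 9 * A₀ * (nu * R * g) * (R * δ * Yv) := by ring
  rw [e2, hgG]
  have h7 : 3 * G * ε ≤ 9 * A₀ * G * ε := by
    have : 3 * G ≤ 9 * A₀ * G := mul_le_mul_of_nonneg_right (by linarith) hG
    exact mul_le_mul_of_nonneg_right this hε0
  calc 3 * G * ε + 9 * A₀ * G * (R * δ * Yv) ≤ 9 * A₀ * G * ε + 9 * A₀ * G * (R * δ * Yv) := by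
        linarith
    _ = _ := by ring

/-- The velocity in the chart. -/
noncomputable def hv (F : Fam m J) (c : ℕ → Fin m) (W₀ g1 : ℕ)
    (Pl : LnT F → MvPolynomial (Option (Fin m)) ℝ) (ω : F.Ω) : V3 :=
  fun j => (Polynomial.derivative (hgP c W₀ g1 Pl (slam F W₀ ω) j)).eval (rt F W₀ ω)

/-- The first jet of the closed polynomial of a window. -/
theorem cg_jet (F : Fam m J) (c : ℕ → Fin m) {W₀ : ℕ} (hW : W₀ ≤ J) (g1 : ℕ)
    (Pl : LnT F → MvPolynomial (Option (Fin m)) ℝ) (ω : F.Ω) (R : ℝ) (ctr : V3) (mu : ℝ)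
    (T : MvPolynomial (Option (Fin m)) ℝ) (Ci : Po) :
    1 / 2 ^ W₀ * jet 1 (Pool.STB.cg c W₀ g1 (slam F W₀ ω).2.2 (Pl (slam F W₀ ω)) R ctr mu T Ci)
        (bt F ω) (bd F ω) =
      1 / 2 ^ W₀ * jet 1 T (bt F ω) (bd F ω) +
        mu * (R * eval (R • (yv F c W₀ g1 Pl ω - ctr)) (dX (hv F c W₀ g1 Pl ω) Ci)) := by
  classical
  obtain ⟨L, hL⟩ : ∃ L : Fin 3 → Polynomial ℝ, L = fun j =>
      Polynomial.C R * (hgP c W₀ g1 Pl (slam F W₀ ω) j - Polynomial.C (ctr j)) := ⟨_, rfl⟩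
  have hyl : ∀ s (j : Fin 3), eval (lpt F W₀ ω s)
      (Pool.STB.yq c W₀ g1 (slam F W₀ ω).2.2 (Pl (slam F W₀ ω)) j) =
      (hgP c W₀ g1 Pl (slam F W₀ ω) j).eval s := by
    intro s j
    fin_cases j
    · show eval (lpt F W₀ ω s) (Pool.STB.yq c W₀ g1 _ _ 0) = (Polynomial.X : Polynomial ℝ).eval s
      rw [Pool.STB.yq_eval0, Polynomial.eval_X]
      have h1 := t_rt F hW ω
      show 2 ^ W₀ * (F.t ω + ((s - rt F W₀ ω) / 2 ^ W₀) * 1) - _ = _
      rw [h1]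
      field_simp
      ring
    · show eval (lpt F W₀ ω s) (Pool.STB.yq c W₀ g1 _ _ 1) =
        (Polynomial.C (2 ^ W₀) * lnP W₀ (slam F W₀ ω) (some (c 0))).eval s
      rw [Pool.STB.yq_eval1, Polynomial.eval_mul, Polynomial.eval_C]
      congr 1
      exact (lnP_own F hW ω s _).symm
    · show eval (lpt F W₀ ω s) (Pool.STB.yq c W₀ g1 _ _ 2) =
        (Polynomial.C (2 ^ g1) * (lnP W₀ (slam F W₀ ω) (some (c 1)) -
          aeval (lnP W₀ (slam F W₀ ω)) (Pl (slam F W₀ ω)))).eval s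
      rw [Pool.STB.yq_eval2, Polynomial.eval_mul, Polynomial.eval_C, Polynomial.eval_sub,
        Pool.STB82.eval_aevalP]
      congr 2
      · exact (lnP_own F hW ω s _).symm
      · congr 1
        congr 1
        funext o
        exact (lnP_own F hW ω s o).symm
  have hLe : ∀ s, (fun j => (L j).eval s) = fun j => eval (lpt F W₀ ω s)
      (Pool.STB.qn c W₀ g1 (slam F W₀ ω).2.2 (Pl (slam F W₀ ω)) R ctr j) := by
    intro s
    funext j
    rw [Pool.STB.qn_eval, hyl, hL]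
    show (Polynomial.C R * (_ - Polynomial.C (ctr j))).eval s = _
    rw [Polynomial.eval_mul, Polynomial.eval_C, Polynomial.eval_sub, Polynomial.eval_C]
  have h1 := lpt_der F W₀ ω (Pool.STB.cg c W₀ g1 (slam F W₀ ω).2.2 (Pl (slam F W₀ ω)) R ctr mu T
    Ci) (rt F W₀ ω)
  have h2 := lpt_der F W₀ ω T (rt F W₀ ω)
  have h3 := ((aeval L Ci : Polynomial ℝ).hasDerivAt (rt F W₀ ω)).const_mul mu
  have h4 := h2.add h3
  have e : (fun s => eval (lpt F W₀ ω s) (Pool.STB.cg c W₀ g1 (slam F W₀ ω).2.2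
      (Pl (slam F W₀ ω)) R ctr mu T Ci)) =
      (fun s => eval (lpt F W₀ ω s) T) + fun s => mu * (aeval L Ci : Polynomial ℝ).eval s := by
    funext s
    rw [Pi.add_apply, Pool.STB.cg_eval, Pool.STB82.eval_aevalP, hLe s]
  rw [e] at h1
  have h5 := h1.unique h4
  rw [lpt_own] at h5
  rw [h5, Pool.GEN.der_aevalσ, Polynomial.eval_finset_sum]
  congr 2
  rw [eval_dX, Finset.mul_sum]
  refine Finset.sum_congr rfl fun j _ => ?_
  rw [Polynomial.eval_mul, Pool.STB82.eval_aevalP]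
  have e2 : (fun o => (L o).eval (rt F W₀ ω)) = R • (yv F c W₀ g1 Pl ω - ctr) := by
    funext j
    rw [hL]
    show (Polynomial.C R * (_ - Polynomial.C (ctr j))).eval (rt F W₀ ω) = R * (_ - _)
    rw [Polynomial.eval_mul, Polynomial.eval_C, Polynomial.eval_sub, Polynomial.eval_C, ← hyl,
      lpt_own, Pool.STB.yq_bt F c hW]
  have e3 : (Polynomial.derivative (L j)).eval (rt F W₀ ω) = R * hv F c W₀ g1 Pl ω j := by
    rw [hL]
    show (Polynomial.derivative (Polynomial.C R * (_ - Polynomial.C (ctr j)))).eval _ = _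
    rw [Polynomial.derivative_C_mul, Polynomial.derivative_sub, Polynomial.derivative_C, sub_zero,
      Polynomial.eval_mul, Polynomial.eval_C]
    rfl
  rw [e2, e3]
  ring

/-- **The velocity over the closed polynomial of a window** is near the one over the closed
polynomial of another window, up to the far data. -/
theorem vel_far (b : ℕ) : ∃ A : ℝ, 1 ≤ A ∧ ∀ {m J : ℕ} {F : Fam m J} {c : ℕ → Fin m}
    {W₀ g1 g₃ : ℕ} {Pl : LnT F → MvPolynomial (Option (Fin m)) ℝ} {κ : Fin m} {ω ω' : F.Ω}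
    {T : MvPolynomial (Option (Fin m)) ℝ} {R₁ R₂ nu₁ nu₂ G Yv δ ε : ℝ} {a₁ a₂ : V3} {C₁ C₂ : Po},
    W₀ ≤ J → C₁.totalDegree ≤ b → C₂.totalDegree ≤ b → 0 < R₁ → 0 < R₂ → 0 < nu₁ → 0 < nu₂ →
    0 ≤ G → (∀ j q, Bx 1 q → nu₁ * |eval q (pderiv j C₁)| ≤ G / R₁) →
    (∀ j q, Bx 1 q → nu₂ * |eval q (pderiv j C₂)| ≤ G / R₂) →
    Bx (1 / 2) (R₁ • (yv F c W₀ g1 Pl ω - a₁)) → Bx (1 / 2) (R₁ • (yv F c W₀ g1 Pl ω' - a₁)) →
    Bx (1 / 2) (R₂ • (yv F c W₀ g1 Pl ω - a₂)) → Bx (1 / 2) (R₂ • (yv F c W₀ g1 Pl ω' - a₂)) →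
    Bx δ (yv F c W₀ g1 Pl ω - yv F c W₀ g1 Pl ω') →
    Bx ε (hv F c W₀ g1 Pl ω - hv F c W₀ g1 Pl ω') → Bx Yv (hv F c W₀ g1 Pl ω') →
    |ojet F κ 1 (Pool.STB.cg c W₀ g1 (slam F W₀ ω).2.2 (Pl (slam F W₀ ω)) R₂ a₂ (nu₂ / 2 ^ g₃)
        T C₂) ω -
      ojet F κ 1 (Pool.STB.cg c W₀ g1 (slam F W₀ ω').2.2 (Pl (slam F W₀ ω')) R₂ a₂ (nu₂ / 2 ^ g₃)
        T C₂) ω'| ≤
    |ojet F κ 1 (Pool.STB.cg c W₀ g1 (slam F W₀ ω).2.2 (Pl (slam F W₀ ω)) R₁ a₁ (nu₁ / 2 ^ g₃)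
        T C₁) ω -
      ojet F κ 1 (Pool.STB.cg c W₀ g1 (slam F W₀ ω').2.2 (Pl (slam F W₀ ω')) R₁ a₁ (nu₁ / 2 ^ g₃)
        T C₁) ω'| +
      2 ^ W₀ / 2 ^ g₃ * (A * G * (2 * ε + (R₁ + R₂) * δ * Yv)) := by
  obtain ⟨A, hA, h⟩ := ci_lip b
  refine ⟨A, hA, ?_⟩
  intro m J F c W₀ g1 g₃ Pl κ ω ω' T R₁ R₂ nu₁ nu₂ G Yv δ ε a₁ a₂ C₁ C₂ hW hC₁ hC₂ hR₁ hR₂ hn₁ hn₂ hG
    hg₁ hg₂ q1 q1' q2 q2' hδ hε hY
  have hpW : (0 : ℝ) < 2 ^ W₀ := by positivity
  have hpg : (0 : ℝ) < 2 ^ g₃ := by positivity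
  have key : ∀ (υ : F.Ω) (R nu : ℝ) (a : V3) (Ci : Po),
      ojet F κ 1 (Pool.STB.cg c W₀ g1 (slam F W₀ υ).2.2 (Pl (slam F W₀ υ)) R a (nu / 2 ^ g₃)
        T Ci) υ = jet 1 (X (some κ)) (bt F υ) (bd F υ) - jet 1 T (bt F υ) (bd F υ) -
        2 ^ W₀ / 2 ^ g₃ * (nu * R * eval (R • (yv F c W₀ g1 Pl υ - a))
          (dX (hv F c W₀ g1 Pl υ) Ci)) := by
    intro υ R nu a Ci
    have h1 := cg_jet F c hW g1 Pl υ R a (nu / 2 ^ g₃) T Ci
    show jet 1 (X (some κ) - _) (bt F υ) (bd F υ) = _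
    rw [jet_sub]
    have h2 : jet 1 (Pool.STB.cg c W₀ g1 (slam F W₀ υ).2.2 (Pl (slam F W₀ υ)) R a (nu / 2 ^ g₃)
        T Ci) (bt F υ) (bd F υ) = jet 1 T (bt F υ) (bd F υ) +
        2 ^ W₀ / 2 ^ g₃ * (nu * R * eval (R • (yv F c W₀ g1 Pl υ - a))
          (dX (hv F c W₀ g1 Pl υ) Ci)) := by
      have h3 : ∀ x y z : ℝ, 1 / 2 ^ W₀ * x = 1 / 2 ^ W₀ * y + z → x = y + 2 ^ W₀ * z := by
        intro x y z hz
        field_simp at hz
        linarith
      rw [h3 _ _ _ h1]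
      ring
    rw [h2]
    ring
  rw [key ω R₂ nu₂ a₂ C₂, key ω' R₂ nu₂ a₂ C₂, key ω R₁ nu₁ a₁ C₁, key ω' R₁ nu₁ a₁ C₁]
  have k1 := h C₁ R₁ G nu₁ Yv δ ε a₁ _ _ _ _ hC₁ hR₁ hn₁ hG hg₁ q1 q1' hδ hε hY
  have k2 := h C₂ R₂ G nu₂ Yv δ ε a₂ _ _ _ _ hC₂ hR₂ hn₂ hG hg₂ q2 q2' hδ hε hY
  obtain ⟨x, hx⟩ : ∃ x, x = nu₁ * R₁ * eval (R₁ • (yv F c W₀ g1 Pl ω - a₁))
          (dX (hv F c W₀ g1 Pl ω) C₁) := ⟨_, rfl⟩
  obtain ⟨x', hx'⟩ : ∃ x', x' = nu₁ * R₁ * eval (R₁ • (yv F c W₀ g1 Pl ω' - a₁))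
          (dX (hv F c W₀ g1 Pl ω') C₁) := ⟨_, rfl⟩
  obtain ⟨z, hz⟩ : ∃ z, z = nu₂ * R₂ * eval (R₂ • (yv F c W₀ g1 Pl ω - a₂))
          (dX (hv F c W₀ g1 Pl ω) C₂) := ⟨_, rfl⟩
  obtain ⟨z', hz'⟩ : ∃ z', z' = nu₂ * R₂ * eval (R₂ • (yv F c W₀ g1 Pl ω' - a₂))
          (dX (hv F c W₀ g1 Pl ω') C₂) := ⟨_, rfl⟩
  rw [← hx, ← hx'] at k1 ⊢
  rw [← hz, ← hz'] at k2 ⊢
  obtain ⟨s, hs⟩ : ∃ s : ℝ, s = 2 ^ W₀ / 2 ^ g₃ := ⟨_, rfl⟩
  have hs0 : 0 < s := by rw [hs]; positivity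
  rw [← hs]
  obtain ⟨p, hp⟩ : ∃ p, p = jet 1 (X (some κ)) (bt F ω) (bd F ω) - jet 1 T (bt F ω) (bd F ω) :=
    ⟨_, rfl⟩
  obtain ⟨p', hp'⟩ : ∃ p', p' = jet 1 (X (some κ)) (bt F ω') (bd F ω') -
    jet 1 T (bt F ω') (bd F ω') := ⟨_, rfl⟩
  rw [← hp, ← hp']
  have e : p - s * z - (p' - s * z') = (p - s * x - (p' - s * x')) + s * ((x - x') - (z - z')) := by
    ring
  rw [e]
  refine (abs_add_le _ _).trans (add_le_add le_rfl ?_)
  rw [abs_mul, abs_of_pos hs0]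
  refine mul_le_mul_of_nonneg_left ((abs_sub _ _).trans ((add_le_add k1 k2).trans (le_of_eq ?_)))
    hs0.le
  ring

end Pool.STA37
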