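import Pool.Agent.H37.STA.Rfw

/-!
# The data of the line are few bits over the velocities

`dg_few`: the data of the line in the two charts, given the labels of the velocities of the two first
coordinates over the far charts and the closed record of the window of the labels.
-/

set_option autoImplicit false

namespace Pool.STA37

open Finset Real MvPolynomial
open Pool.Agent.H49.Ent Pool.Agent.H32.Dense Pool.STK Pool.KA Pool.KSAT Pool.K2S Pool.PB Pool.S6C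
open Pool.GEN Pool.CHT Pool.RCD Pool.D2F
open Pool.STB (V3 Po Bx Hb cv cl_earlier PosR cnt_int cg VbT p2 lg_le)
open Pool.STB65 (InpP InpF PosO JetO nu nu_pos Rs Rs_pos grd_bx)
open Pool.STB82 (yv hgP Fst)
open Pool.LA91 (jet ojet)
open Pool.PB.Trl (rt rt_mem t_rt)

variable {m J : ℕ}

/-- **The data of the line** are few bits over the velocities. -/
theorem dg_few (K : ℕ) : ∃ C : ℝ, 1 ≤ C ∧ ∀ {m J : ℕ} {F : Fam m J} {c : ℕ → Fin m}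
    {A : F.Ω → Prop} (_ : 0 < Pe F.p A) {n e₁' : ℕ} {t : VbT F} {f : FaT F}
    {Kp Kp' ρ : ℝ} {ctr xo ctr' xo' : ℕ → F.Ω → V3} {D₁ D₁' : LnT F → V3}
    (_ : ∀ y, (t.Pv y).totalDegree ≤ K) (_ : ∀ y, DepC c 1 (t.Pv y))
    (_ : ∀ ω, A ω → t.Pv (ptr F J ω) = t.Pl (slam F t.W₀ ω))
    (_ : PosO F A t.W₀ t.k t.k n ((2 ^ t.y) ^ 2) Kp (yv F c t.W₀ t.g1 t.Pl) (hgP c t.W₀ t.g1 t.Pl)
      ctr xo D₁)
    (_ : FaE F c A K t.y e₁' t.W₀ t.g1 t.Pl f)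
    (_ : PosO F A f.W f.d f.k 1 ((2 ^ t.y) ^ 2) Kp' (yv F c f.W f.g f.Pl) (hgP c f.W f.g f.Pl)
      ctr' xo' D₁') (_ : 0 < n) (_ : t.W₀ + t.k ≤ J) (_ : f.W + f.d = t.W₀ + t.k) (_ : t.k ≤ f.k)
    (_ : f.k ≤ f.d) (_ : 2 * t.y + 2 ≤ t.k) (_ : C ≤ 2 ^ t.y) (_ : 0 ≤ ρ)
    (_ : ρ ≤ 2 ^ t.y) (_ : (2 : ℝ) ^ t.g1 / 2 ^ t.W₀ = ρ * (2 ^ f.g / 2 ^ f.W)) {P : Fin 2 → ℝ}
    (_ : (f.k : ℝ) ≤ P 0 * J) (_ : (f.k : ℝ) + f.g ≤ P 1 * J + f.W) {Z₀ : Type} {z₀ : F.Ω → Z₀}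
    (_ : Fst (slam F (t.W₀ + t.k)) (fun ω => ptr F J ω) A z₀),
    CH (Pool.Agent.H49.Ent.cond F.p A True)
      (fun ω => (D₁ (slam F (t.W₀ + t.k) ω), D₁' (slam F (t.W₀ + t.k) ω)))
      (fun ω => (ul c f P ω, (z₀ ω, F.W ω))) ≤ ((6 * t.y + 24 : ℕ) : ℝ) * Real.log 2 := by
  obtain ⟨A₁, hA₁, h1⟩ := d1_few K
  obtain ⟨A₂, hA₂, h2⟩ := d1f_few (K + 1)
  refine ⟨A₁ + A₂, by linarith, ?_⟩
  intro m J F c A hA n e₁' t f Kp Kp' ρ ctr xo ctr' xo' D₁ D₁' hPd hPp hPc O E O' hn hJ ht hkk hkd hyk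
    hCy hρ0 hρ hρe P hP0 hP1 Z₀ z₀ hz
  have hl := isLaw_cond F.isLaw hA
  have hn' := hl.nonneg
  have hpA : ∀ ω, 0 < Pool.Agent.H49.Ent.cond F.p A True ω → A ω := fun ω h =>
    Pool.STB82.cond_pos_B h
  have hY1 : (1 : ℝ) ≤ 2 ^ t.y := one_le_pow₀ one_le_two
  have hC1 : A₁ ≤ 2 ^ t.y := by linarith
  have hC2 : A₂ ≤ 2 ^ t.y := by linarith
  obtain ⟨Y, hY⟩ : ∃ Y : ℝ, Y = 2 ^ t.y := ⟨_, rfl⟩
  obtain ⟨σ, hσd⟩ : ∃ σ : ℝ, σ = (2 ^ t.y) ^ 2 := ⟨_, rfl⟩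
  have hσY : σ = Y ^ 2 := by rw [hσd, hY]
  have hYY : 1 ≤ Y := hY ▸ hY1
  have hσ1 : 1 ≤ σ := by rw [hσY]; exact one_le_pow₀ hYY
  have hσ : 0 < σ := by linarith
  rw [← hσd] at O O'
  have hl2 : 0 < Real.log 2 := Real.log_pos one_lt_two
  have hk0 : (0 : ℝ) < 2 ^ t.k := by positivity
  have hf0 : (0 : ℝ) < 2 ^ f.k := by positivity
  have hσ22 : σ = 2 ^ (2 * t.y) := by rw [hσd, ← pow_mul]; congr 1; ring
  have hσk : 2 + σ ≤ 2 ^ t.k := by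
    rw [hσ22]
    have h3 : (2 : ℝ) ^ (2 * t.y + 2) ≤ 2 ^ t.k := p2 hyk
    have h4 : (2 : ℝ) ^ (2 * t.y + 2) = 4 * 2 ^ (2 * t.y) := by rw [pow_add]; norm_num; ring
    have h5 : (1 : ℝ) ≤ 2 ^ (2 * t.y) := one_le_pow₀ one_le_two
    linarith
  have hσf : 2 * σ ≤ 2 ^ f.k := by
    have h3 : (2 : ℝ) ^ t.k ≤ 2 ^ f.k := p2 hkk
    have h4 : (2 : ℝ) ^ (2 * t.y + 2) ≤ 2 ^ t.k := p2 hyk
    have h5 : (2 : ℝ) ^ (2 * t.y + 2) = 4 * 2 ^ (2 * t.y) := by rw [pow_add]; norm_num; ring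
    rw [hσ22]
    have h6 : (0 : ℝ) < 2 ^ (2 * t.y) := by positivity
    linarith
  -- the closed data
  have cP : Cl2 (slam F (t.W₀ + t.k)) (fun ω => ptr F J ω) A (fun ω => t.Pv (ptr F J ω)) :=
    cl_earlier (Nat.le_add_right _ _) hJ hPc
  have cF : Cl2 (slam F (t.W₀ + t.k)) (fun ω => ptr F J ω) A (fun ω => f.Pv (ptr F J ω)) :=
    cl_earlier (by omega) hJ E.Pc
  have cc : Cl2 (slam F (t.W₀ + t.k)) (fun ω => ptr F J ω) A (ctr 0) := by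
    have := O.cc 0 hn
    rwa [Nat.zero_mul, Nat.add_zero] at this
  have hcl : ∀ ω ω', A ω → A ω' → (ul c f P ω, (z₀ ω, F.W ω)) = (ul c f P ω', (z₀ ω', F.W ω')) →
      t.Pl (slam F t.W₀ ω) = t.Pl (slam F t.W₀ ω') ∧
      f.Pl (slam F f.W ω) = f.Pl (slam F f.W ω') ∧
      F.T1 (t.W₀ + t.k) ω = F.T1 (t.W₀ + t.k) ω' ∧
      |2 ^ t.W₀ * F.x ω (c 0) - 2 ^ t.W₀ * F.x ω' (c 0)| ≤ σ / 2 ^ t.k := by
    intro ω ω' a a' e
    simp only [Prod.mk.injEq] at e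
    obtain ⟨-, e2, e3⟩ := e
    have eT : F.T ω = F.T ω' := congrArg Prod.fst e3
    have q1 : t.Pv (ptr F J ω) = t.Pv (ptr F J ω') := hz.fin _ _ cP ω ω' a a' e2
    have q2 : f.Pv (ptr F J ω) = f.Pv (ptr F J ω') := hz.fin _ _ cF ω ω' a a' e2
    have q3 := hz.fin _ _ cc ω ω' a a' e2
    rw [hPc ω a, hPc ω' a'] at q1
    rw [E.Pc ω a, E.Pc ω' a'] at q2
    refine ⟨q1, q2, ?_, ?_⟩
    · unfold Fam.T1
      rw [eT]
    · have r1 := O.q1 0 hn ω a 1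
      have r2 := O.q1 0 hn ω' a' 1
      rw [← q3] at r2
      have hR : Rs t.k t.k σ 0 = 2 ^ t.k / σ := by
        unfold Rs
        rw [Nat.zero_mul, Nat.add_zero]
      simp only [Pi.smul_apply, Pi.sub_apply, smul_eq_mul] at r1 r2
      rw [hR, abs_mul, abs_of_pos (by positivity : (0 : ℝ) < 2 ^ t.k / σ)] at r1 r2
      have s1 : ∀ x : ℝ, 2 ^ t.k / σ * |x| ≤ 1 / 2 → |x| ≤ σ / 2 ^ t.k / 2 := by
        intro x hx
        have h3 : (2 : ℝ) ^ t.k / σ * (σ / 2 ^ t.k / 2) = 1 / 2 := by field_simp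
        rw [← h3] at hx
        exact le_of_mul_le_mul_left hx (by positivity)
      have r1 := s1 _ r1
      have r2 := s1 _ r2
      show |yv F c t.W₀ t.g1 t.Pl ω 1 - yv F c t.W₀ t.g1 t.Pl ω' 1| ≤ σ / 2 ^ t.k
      have r3 : yv F c t.W₀ t.g1 t.Pl ω 1 - yv F c t.W₀ t.g1 t.Pl ω' 1 =
        (yv F c t.W₀ t.g1 t.Pl ω 1 - ctr 0 ω 1) - (yv F c t.W₀ t.g1 t.Pl ω' 1 - ctr 0 ω 1) := by
        ring
      rw [r3]
      refine (abs_sub _ _).trans ?_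
      linarith
  -- the far velocity
  have far := h2 (c := c) (k₁ := f.k) (P0 := 1 / (2 : ℝ) ^ (P 0 * J)) (P1 := 1 / (2 : ℝ) ^ (P 1 * J))
    (u := fun ω => (ul c f P ω, (z₀ ω, F.W ω))) (N := 6) hl hpA E.iP O' (by omega) hσ
    (by positivity) (fun ω ω' _ _ e => by
      simp only [Prod.mk.injEq] at e
      exact ul_eq e.1) (by positivity) (by positivity) (by
      have q0 : (2 : ℝ) ^ f.k * (1 / (2 : ℝ) ^ (P 0 * J)) ≤ 1 := by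
        rw [mul_one_div, div_le_one (by positivity)]
        exact Pool.STB.two_le_rpow hP0
      have q1 : (2 : ℝ) ^ f.k * (2 ^ f.g / 2 ^ f.W * (1 / (2 : ℝ) ^ (P 1 * J))) ≤ 1 := by
        have h3 : (2 : ℝ) ^ (f.k + f.g) ≤ 2 ^ (P 1 * J + f.W) := by
          refine Pool.STB.two_le_rpow ?_
          push_cast
          exact hP1
        rw [Real.rpow_add two_pos, Real.rpow_natCast, pow_add] at h3
        rw [mul_one_div, ← mul_div_assoc, ← mul_div_assoc, div_div, div_le_one (by positivity)]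
        linarith
      have q2 : (2 : ℝ) ^ f.k * (2 * (A₂ * 2 ^ t.y) / 2 ^ f.d) ≤ 2 * σ := by
        have h3 : (2 : ℝ) ^ f.k / 2 ^ f.d ≤ 1 := by
          rw [div_le_one (by positivity)]
          exact p2 hkd
        have h4 : A₂ * 2 ^ t.y ≤ σ := by
          rw [hσd, sq]
          exact mul_le_mul_of_nonneg_right hC2 (by positivity)
        calc (2 : ℝ) ^ f.k * (2 * (A₂ * 2 ^ t.y) / 2 ^ f.d) =
              2 * (A₂ * 2 ^ t.y) * (2 ^ f.k / 2 ^ f.d) := by ring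
          _ ≤ 2 * (A₂ * 2 ^ t.y) * 1 := mul_le_mul_of_nonneg_left h3 (by positivity)
          _ ≤ 2 * σ := by linarith
      have q3 : 2 ^ f.k * (1 / σ * (2 * (A₂ * 2 ^ t.y) / 2 ^ f.d + 1 / (2 : ℝ) ^ (P 0 * J) +
          2 ^ f.g / 2 ^ f.W * (1 / (2 : ℝ) ^ (P 1 * J)))) =
          1 / σ * (2 ^ f.k * (2 * (A₂ * 2 ^ t.y) / 2 ^ f.d) +
            2 ^ f.k * (1 / (2 : ℝ) ^ (P 0 * J)) +
            2 ^ f.k * (2 ^ f.g / 2 ^ f.W * (1 / (2 : ℝ) ^ (P 1 * J)))) := by ring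
      rw [q3]
      have q4 : 1 / σ * (2 ^ f.k * (2 * (A₂ * 2 ^ t.y) / 2 ^ f.d) +
            2 ^ f.k * (1 / (2 : ℝ) ^ (P 0 * J)) +
            2 ^ f.k * (2 ^ f.g / 2 ^ f.W * (1 / (2 : ℝ) ^ (P 1 * J)))) ≤ 1 / σ * (4 * σ) :=
        mul_le_mul_of_nonneg_left (by linarith) (by positivity)
      have q5 : 1 / σ * (4 * σ) = 4 := by field_simp
      linarith)
  -- the near velocity
  have near := h1 (c := c) (k := t.k) (k₁ := f.k) (g₁ := t.g1) (g₁' := f.g) (M := 2 ^ t.y)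
    (N := 16 * Y ^ 2)
    (y₀ := fun ω => (ul c f P ω, (z₀ ω, F.W ω))) hl hpA ht.symm hJ hσ hσ hρ0 (by positivity) hρe
    (fun ω hω => E.deg hPd hPc hω) (fun ω hω => E.dep hPp hPc hω) E.osc O.dg O.dv O'.dv
    (fun ω _ => F.dir ω _) hσk hσf hcl (by
      have h3 : (2 : ℝ) ^ t.k ≤ 2 ^ f.k := p2 hkk
      have q1 : (2 : ℝ) ^ t.k / 2 ^ f.k ≤ 1 := by rwa [div_le_one hf0]
      have q2 : 2 ^ t.k * (1 / σ * ((1 + ρ) * (2 * σ / 2 ^ f.k) +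
          A₁ * 2 ^ t.y * ((2 + σ) / 2 ^ t.k + 2 * σ / 2 ^ f.k))) =
          (1 + ρ) * 2 * (2 ^ t.k / 2 ^ f.k) + A₁ * 2 ^ t.y * ((2 + σ) / σ +
            2 * (2 ^ t.k / 2 ^ f.k)) := by
        field_simp
      rw [q2]
      have q3 : (2 + σ) / σ ≤ 3 := by
        rw [div_le_iff₀ hσ]
        linarith
      have q4 : (1 + ρ) * 2 * (2 ^ t.k / 2 ^ f.k) ≤ 4 * Y := by
        calc (1 + ρ) * 2 * (2 ^ t.k / 2 ^ f.k) ≤ (1 + ρ) * 2 * 1 :=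
              mul_le_mul_of_nonneg_left q1 (by linarith)
          _ ≤ 4 * Y := by
            rw [← hY] at hρ
            linarith
      have q5 : A₁ * 2 ^ t.y * ((2 + σ) / σ + 2 * (2 ^ t.k / 2 ^ f.k)) ≤ Y * Y * 5 := by
        rw [← hY]
        rw [← hY] at hC1
        exact mul_le_mul (mul_le_mul_of_nonneg_right hC1 (by linarith)) (by linarith)
          (by positivity) (by positivity)
      nlinarith)
  have hch := CH_chain hn' (fun ω => D₁ (slam F (t.W₀ + t.k) ω))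
    (fun ω => D₁' (slam F (t.W₀ + t.k) ω)) (fun ω => (ul c f P ω, (z₀ ω, F.W ω)))
  rw [ht] at far near
  have n1 : Real.log (6 + 1) ≤ 3 * Real.log 2 := by
    have := lg_le (z := 6 + 1) (a := 3) (by norm_num) (by norm_num)
    exact_mod_cast this
  have n2 : Real.log (16 * Y ^ 2 + 1) ≤ ((2 * t.y + 5 : ℕ) : ℝ) * Real.log 2 := by
    refine lg_le (by positivity) ?_
    have h3 : (2 : ℝ) ^ (2 * t.y + 5) = 32 * Y ^ 2 := by
      rw [hY, ← pow_mul, pow_add]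
      norm_num
      ring
    rw [h3]
    nlinarith
  push_cast at n2 ⊢
  rw [hch]
  linarith

end Pool.STA37
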