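import Pool.Agent.H37.STA.Sul

/-!
# The numbers of the event of the class theorem

`SuV`: the numbers of the target and of the first windows; `SuG`: the numbers of the far data and of
the labels. `sun_of`: they give `SuN`.
-/

set_option autoImplicit false

namespace Pool.STA37

open Finset Real MvPolynomial
open Pool.Agent.H49.Ent Pool.Agent.H32.Dense Pool.STK Pool.KA Pool.KSAT Pool.K2S Pool.PB Pool.S6C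
open Pool.GEN Pool.CHT Pool.RCD Pool.D2F Pool.CHX Pool.D2Con Pool.D2A
open Pool.STB (V3 Po Bx Hb cv cl_earlier PosR cnt_int cg VbT p2 lg_le ChH mu_num two_le_rpow)
open Pool.STB65 (InpP InpF PosO JetO nu nu_pos Rs Rs_pos grd_bx)
open Pool.STB82 (yv hgP Fst WinN cond_pos_B)
open Pool.LA91 (jet ojet qJet qJets qG Mx)
open Pool.RCD (vg)
open Pool.PB.Trl (rt rt_mem)

variable {m : ℕ}

/-- **The numbers of the target and of the windows.** -/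
structure SuV {J : ℕ} {F : Fam m J} (P : List (Fin m) × Fin m → ℝ → ℝ → ℝ) (c : ℕ → Fin m)
    (n b Cg ne : ℕ) (A τ kr ur η e0 eg : ℝ) (wi ai : ℕ → ℚ) (fi : ℕ → ℝ) (sf : ℕ → ℕ → ℝ)
    (t : VbT F) : Prop where
  kJ : kr * J ≤ t.k + 1
  yJ : t.y = ⌊ur * J⌋₊
  H : A * ((t.y : ℝ) + t.x + 1) ≤ τ * t.k
  Wi : ∀ i < n, t.W₀ + t.k + i * t.k ≤ ⌊(wi i : ℝ) * J⌋₊
  Wa : ∀ i < n, t.W₀ + t.k + i * t.k + t.k ≤ ⌊(ai i : ℝ) * J⌋₊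
  Wf : ∀ i < n, t.W₀ + t.k + i * t.k + t.k ≤ ⌊fi i * J⌋₊
  l2 : ∀ i < n, ⌊(bet P c 2 (wi i) (wi i) + η) * J⌋₊ + (t.W₀ + t.k + i * t.k) ≤
    t.p b i + ⌊(wi i : ℝ) * J⌋₊
  l0 : ∀ i < n, ⌊(bet P c 0 (ai i) (ai i) + η) * J⌋₊ ≤ ⌊(ai i : ℝ) * J⌋₊ + t.x
  l1 : ∀ i < n, ⌊(bet P c 1 (ai i) (ai i) + η) * J⌋₊ + t.W₀ ≤ t.g1 + ⌊(ai i : ℝ) * J⌋₊ + t.x
  Wg : t.W₀ ≤ t.g1 + t.x
  We : t.W₀ ≤ t.g1 + t.e₁'
  e12 : t.e₁' + 1 ≤ t.e₂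
  e2y : t.y + 2 * t.x + 6 ≤ t.e₂
  e2J : t.e₂ ≤ ⌊e0 * J⌋₊
  e1J : t.e₁ + 1 ≤ ⌊eg * J⌋₊
  J1 : ∀ i < n, t.e₂ + t.g1 + (t.k + i * t.k + t.k) + t.x + 4 ≤ J
  sy : t.s + 1 ≤ 2 * t.y
  gcJ : ∀ i < n, ∀ l < 2, t.gc i l ≤ J
  pJ : ∀ i < n, t.p b i ≤ J
  gr : ∀ i < n, ∀ l < 2, t.g1 + (if l = 0 then t.e₁' else 0) + ne * t.k + Cg * (t.y + 1) ≤
    t.g₃ + (t.e₁ + nlp (fun j => if j < 2 then t.gc i j else t.p b i) l 2)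
  f0 : ∀ i < n, sf i 0 * J ≤ t.W₀ + t.k + i * t.k + t.k + t.x
  f1 : ∀ i < n, sf i 1 * J ≤ t.g1 + (t.k + i * t.k + t.k) + t.x

/-- **The numbers of the far data and of the labels.** -/
structure SuG {J : ℕ} {F : Fam m J} (n b Cg : ℕ) (tt aw bb e1 eF : ℝ) (pf : ℕ → ℝ) (pr : ℝ)
    (Nf : ℕ → ℕ → ℝ) (N₂ : ℝ) (Pq : Fin 2 → ℝ) (sn : ℕ → ℝ → ℝ) (sw : ℕ → ℝ) (t : VbT F)
    (f : FaT F) (ρ : ℝ) : Prop where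
  ttJ : ⌊tt * J⌋₊ = t.W₀ + t.k
  bbJ : f.W ≤ ⌊bb * J⌋₊
  bbJ' : ⌊bb * J⌋₊ ≤ J
  ht : f.W + f.d = t.W₀ + t.k
  fJ : f.W + f.d + f.k ≤ ⌊aw * J⌋₊
  f1 : f.g + t.e₁' + 1 + (f.d + f.k) ≤ J
  g1 : t.g1 + t.e₁' + (t.k + n * t.k) ≤ J
  kd : f.k ≤ f.d
  kk : t.k ≤ f.k
  nk : ∀ i < n, b * (t.k + i * t.k) + i * t.k + Cg * (t.y + 1) ≤ f.k
  iw : ∀ i < n, t.W₀ + t.k + i * t.k + t.k ≤ ⌊aw * J⌋₊
  ρ0 : 0 ≤ ρ
  ρ1 : ρ ≤ 2 ^ t.y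
  ρe : (2 : ℝ) ^ t.g1 / 2 ^ t.W₀ = ρ * (2 ^ f.g / 2 ^ f.W)
  s : ∀ i < n, ((t.g₃ + b * (t.k + i * t.k) : ℕ) : ℝ) ≤ N₂ * J + ((t.W₀ + i * t.k : ℕ) : ℝ)
  N00 : Nf 0 0 * J + ((2 * t.y : ℕ) : ℝ) ≤ ((f.W + f.d + f.k : ℕ) : ℝ)
  N10 : Nf 1 0 * J + ((2 * t.y : ℕ) : ℝ) ≤ ((f.g + f.d + f.k : ℕ) : ℝ)
  N01 : Nf 0 1 * J + ((2 * t.y : ℕ) : ℝ) ≤ ((f.k : ℕ) : ℝ)
  N11 : Nf 1 1 * J + ((f.W + (2 * t.y + 1) : ℕ) : ℝ) ≤ ((f.g + f.k : ℕ) : ℝ)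
  P0 : (f.k : ℝ) ≤ Pq 0 * J
  P1 : (f.k : ℝ) + f.g ≤ Pq 1 * J + f.W
  w0 : sw 0 * J ≤ f.W + f.d + f.k + t.x
  w1 : sw 1 * J ≤ f.g + (f.d + f.k) + t.x
  q0 : ⌊(pf 0 - e1) * J⌋₊ + 2 * t.y ≤ f.W + f.d
  q1 : ⌊(pf 1 - e1) * J⌋₊ + 2 * t.y ≤ f.g + f.d
  q2 : ⌊(pr - e1) * J⌋₊ + Cg * (t.y + 1) ≤ t.g₃ + b * t.k
  r0 : ⌊(sn 0 bb - eF) * J⌋₊ + t.y ≤ f.W
  r1 : ⌊(sn 1 bb - eF) * J⌋₊ + t.y ≤ f.g

/-- A precision and a power of two. -/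
theorem rp_le {u : ℝ} {a b : ℕ} (h : u + ((a : ℕ) : ℝ) ≤ ((b : ℕ) : ℝ)) :
    (2 : ℝ) ^ u * 2 ^ a ≤ 2 ^ b := by
  have h2 : (2 : ℝ) ^ u * 2 ^ a = (2 : ℝ) ^ (u + ((a : ℕ) : ℝ)) := by
    rw [Real.rpow_add two_pos, Real.rpow_natCast]
  rw [h2]
  exact Pool.STB.rpow_le_two h

theorem fl_le2 {u : ℝ} {a b : ℕ} (h : ⌊u⌋₊ + a ≤ b) : (2 : ℝ) ^ a / 2 ^ b ≤ 1 / 2 ^ ⌊u⌋₊ := by
  rw [div_le_div_iff₀ (by positivity) (by positivity), one_mul, ← pow_add]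
  exact p2 (by omega)

theorem sun_of {J : ℕ} {F : Fam m J} {P : List (Fin m) × Fin m → ℝ → ℝ → ℝ} {c : ℕ → Fin m}
    {n b Cg ne E E' : ℕ} {A τ kr ur η e0 eg : ℝ} {wi ai : ℕ → ℚ} {fi : ℕ → ℝ}
    {sf : ℕ → ℕ → ℝ} {t : VbT F} {tt aw bb e1 eF : ℝ} {pf : ℕ → ℝ} {pr : ℝ} {Nf : ℕ → ℕ → ℝ}
    {N₂ : ℝ} {Pq : Fin 2 → ℝ} {sn : ℕ → ℝ → ℝ} {sw : ℕ → ℝ} {f : FaT F} {ρ : ℝ}
    (V : SuV P c n b Cg ne A τ kr ur η e0 eg wi ai fi sf t)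
    (G : SuG n b Cg tt aw bb e1 eF pf pr Nf N₂ Pq sn sw t f ρ) (hWJ : t.W₀ + t.k + n * t.k ≤ J)
    (haw : aw ≤ 1) (hyk : 2 * t.y + 2 ≤ t.k) (hq : E + 8 ≤ Cg) :
    SuN n b E E' t f ρ N₂ Nf Pq sf sw ⌊aw * J⌋₊ where
  WJ := hWJ
  ht := G.ht
  fJ := G.fJ
  wJ := by
    refine Nat.floor_le_of_le ?_
    calc aw * J ≤ 1 * J := mul_le_mul_of_nonneg_right haw (Nat.cast_nonneg J)
      _ = J := one_mul _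
  f1 := G.f1
  g1 := G.g1
  kd := G.kd
  kk := G.kk
  nk := fun i hi => by
    have h1 := G.nk i hi
    have h2 : (E + 8) * (t.y + 1) ≤ Cg * (t.y + 1) := Nat.mul_le_mul_right _ hq
    have h3 : (E + 8) * (t.y + 1) = t.y * (E + 6) + 2 * t.y + (E + 8) := by ring
    omega
  iw := G.iw
  yk := hyk
  ρ0 := G.ρ0
  ρ1 := G.ρ1
  ρe := G.ρe
  s := fun i hi => s_num (G.s i hi)
  N00 := by
    have h1 := rp_le G.N00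
    rw [two_mul, pow_add] at h1
    rw [sq]
    exact h1
  N10 := by
    have h1 := rp_le G.N10
    rw [two_mul, pow_add] at h1
    rw [sq]
    exact h1
  N01 := by
    have h1 := rp_le G.N01
    rw [two_mul, pow_add] at h1
    rw [sq]
    exact h1
  N11 := by
    have h1 := rp_le G.N11
    rw [mul_div_assoc', div_le_iff₀ (by positivity), mul_assoc, ← pow_add, ← pow_add]
    exact h1
  P0 := G.P0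
  P1 := G.P1
  s0 := V.f0
  s1 := V.f1
  w0 := G.w0
  w1 := G.w1

/-- **The far velocities are values of the first jets**, a later window. -/
theorem ug_lab' {J : ℕ} {F : Fam m J} {c : ℕ → Fin m} {B : F.Ω → Prop} {K y e₁' W₀ g1 Kf : ℕ}
    {Pl₀ : LnT F → MvPolynomial (Option (Fin m)) ℝ} {f : FaT F} {sn : ℕ → ℝ → ℝ} {b e : ℝ}
    {P : Fin 2 → ℝ} (hJ : 1 ≤ J) (E : FaE F c B K y e₁' W₀ g1 Pl₀ f) (ht : f.W ≤ ⌊b * J⌋₊)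
    (htJ : ⌊b * J⌋₊ ≤ J) (hy : y ≤ J) (hKf : K ≤ Kf) (hKf5 : 5 ≤ Kf) (hN : ∀ i, P i ≤ 1)
    (p0 : 2 ^ y / 2 ^ f.W ≤ (1 : ℝ) / 2 ^ ⌊(sn 0 b - e) * J⌋₊)
    (p1 : 2 ^ y / 2 ^ f.g ≤ (1 : ℝ) / 2 ^ ⌊(sn 1 b - e) * J⌋₊)
    (hd0 : ∀ ω, B ω → |F.d ω (c 0)| ≤ 1) :
    (qG m c 2 sn b P).P Kf e J F B (ul c f P) := by
  have hWJ : f.W ≤ J := ht.trans htJ
  have hpw : ∀ a : ℕ, (1 : ℝ) ≤ 2 ^ a := fun a => one_le_pow₀ one_le_two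
  have h2 : (1 : ℝ) ≤ 2 ^ (2 * J) := hpw _
  intro i
  fin_cases i
  · show (qJet m ((range 0).image c) (c 0) 1 b (sn 0 b) (P 0)).P Kf e J F B (fun ω =>
      ⌊(2 : ℝ) ^ (P 0 * J) * ojet F (c 0) 1 (C (f.xP (ptr F J ω))) ω⌋)
    refine qjet_of (n := 2) hJ (hN 0) ?_ ?_ ?_ ?_ ?_ (by omega)
    · exact (cl_earlier ht htJ E.xc).comp (fun a => C a)
    · intro ω _
      rw [totalDegree_C]
      exact Nat.zero_le _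
    · intro ω _ b b' _ _
      rw [eval_C, eval_C]
    · intro ω hω
      rw [eval_C]
      exact (E.xn ω hω).trans p0
    · intro ω hω
      have e : ojet F (c 0) 1 (C (f.xP (ptr F J ω))) ω = F.d ω (c 0) := by
        show jet 1 (X (some (c 0)) - C _) (bt F ω) (bd F ω) = _
        rw [jet1_C, jet1_X]
        rfl
      rw [e]
      exact (hd0 ω hω).trans h2
  · show (qJet m ((range 1).image c) (c 1) 1 b (sn 1 b) (P 1)).P Kf e J F B (fun ω =>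
      ⌊(2 : ℝ) ^ (P 1 * J) * ojet F (c 1) 1 (f.Pl (slam F f.W ω)) ω⌋)
    refine qjet_of (n := 2) hJ (hN 1) ?_ ?_ ?_ ?_ ?_ (by omega)
    · exact (cl_earlier ht htJ E.Pc).congr fun ω hω => (E.Pc ω hω).symm
    · intro ω hω
      rw [← E.Pc ω hω]
      exact (E.Pd _).trans hKf
    · intro ω hω
      rw [← E.Pc ω hω]
      exact depC_img (E.Pp _)
    · intro ω hω
      rw [← E.Pc ω hω]
      exact (E.pn ω hω).trans p1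
    · intro ω hω
      have e1 : ojet F (c 1) 1 (f.Pl (slam F f.W ω)) ω = 2 ^ f.W / 2 ^ f.g *
          (Polynomial.derivative (hgP c f.W f.g f.Pl (slam F f.W ω) 2)).eval (rt F f.W ω) := by
        rw [← oj11 F c hWJ f.g f.Pl 0 ω]
        show jet 1 (X (some (c 1)) - f.Pl (slam F f.W ω)) (bt F ω) (bd F ω) =
          jet 1 (X (some (c 1)) - (f.Pl (slam F f.W ω) + C (_ / 2 ^ f.g))) (bt F ω) (bd F ω)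
        rw [← sub_sub, jet1_C]
      rw [e1, abs_mul, abs_of_pos (by positivity : (0 : ℝ) < 2 ^ f.W / 2 ^ f.g)]
      have h3 := E.iP.vel ω hω 2 (rt F f.W ω) (rt_mem F f.W ω)
      have h4 : (2 : ℝ) ^ f.W / 2 ^ f.g ≤ 2 ^ J := by
        rw [div_le_iff₀ (by positivity)]
        calc (2 : ℝ) ^ f.W ≤ 2 ^ J * 1 := by
              rw [mul_one]
              exact pow_le_pow_right₀ one_le_two hWJ
          _ ≤ 2 ^ J * 2 ^ f.g := mul_le_mul_of_nonneg_left (hpw _) (by positivity)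
      have h5 : (2 : ℝ) ^ y ≤ 2 ^ J := pow_le_pow_right₀ one_le_two hy
      calc _ ≤ (2 : ℝ) ^ J * 2 ^ J := mul_le_mul h4 (h3.trans h5) (abs_nonneg _) (by positivity)
        _ = 2 ^ (2 * J) := by rw [← pow_add, two_mul]

end Pool.STA37
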