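import Pool.Agent.H37.STA.Ucg
import Pool.Agent.H37.STA.Sud
import Pool.Agent.H77.STB.Vbp
import Pool.Agent.H65.STB.Vbx
import Pool.Agent.H65.STB.Vdz

/-!
# The event of the class theorem of a static place

`sue_pos`: the positions (as `vbe_pos'` of helper77, for two places). `sue_tgt`: the target. `su_ev`:
the event.
-/

set_option autoImplicit false

namespace Pool.STA37

open Finset Real MvPolynomial
open Pool.Agent.H49.Ent Pool.Agent.H32.Dense Pool.STK Pool.KA Pool.KSAT Pool.K2S Pool.PB Pool.S6C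
open Pool.GEN Pool.CHT Pool.NVX Pool.CHX
open Pool.STB (V3 Po Bx VbT VbE)
open Pool.STB82 (yv yp hgP)
open Pool.STB65 (InpP InpF UcO cl_lip0)
open Pool.STB77 (Inc Nls cos chok_win)

variable {m J : ℕ}

/-- **The fields of `SuE` for the two first places.** -/
structure SuP (F : Fam m J) (c : ℕ → Fin m) (B : F.Ω → Prop) (K n : ℕ) (t : VbT F) : Prop where
  iP : InpP F B t.W₀ t.k t.k n (K + 1) (2 ^ t.y) (yv F c t.W₀ t.g1 t.Pl) t.yt
    (hgP c t.W₀ t.g1 t.Pl)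
  Pd : ∀ y, (t.Pv y).totalDegree ≤ K
  Pp : ∀ y, DepC c 1 (t.Pv y)
  Pc : ∀ ω, B ω → t.Pv (ptr F J ω) = t.Pl (slam F t.W₀ ω)
  Pg : ∀ ω, B ω → ∀ b : Option (Fin m) → ℝ, |b none - F.t ω| ≤ 1 / 2 ^ t.W₀ →
    |b (some (c 0)) - F.x ω (c 0)| ≤ 1 / 2 ^ t.W₀ →
    |eval b (pderiv (some (c 0)) (t.Pv (ptr F J ω)))| ≤ 2 ^ t.e₁'
  ch : ∀ i < n, ChOK F c 2 (fun _ => K) (t.W₀ + t.k + i * t.k) (t.W₀ + t.k + i * t.k) (t.e₁ + 1)
    (t.gc i) B (t.Gc i) (t.Hc i)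
  hx0 : ∀ i < n, ∀ ω, B ω → ∀ b, NBx c (t.Gc i (ptr F J ω)) (t.gc i) (t.W₀ + t.k + i * t.k)
    (F.t ω) 2 b → |b (some (c 0)) - F.x ω (c 0)| ≤ 2 ^ t.s / 2 ^ (t.W₀ + t.k + i * t.k)
  hx1 : ∀ i < n, ∀ ω, B ω → ∀ b, NBx c (t.Gc i (ptr F J ω)) (t.gc i) (t.W₀ + t.k + i * t.k)
    (F.t ω) 2 b → |(b (some (c 1)) - eval b (t.Pv (ptr F J ω))) -
      (F.x ω (c 1) - eval (bt F ω) (t.Pv (ptr F J ω)))| ≤ 2 ^ t.s / 2 ^ (t.g1 + (t.k + i * t.k))

/-- **The fields of the two first places of `SuE`**, from the list of balls: the balls `jb i` below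
the windows. -/
theorem sue_pos (D : ℕ) : ∃ C : ℕ, ∀ {m : ℕ} {S : PCl m} (_ : TmH S) (K : ℕ) (_ : D ≤ K)
    {ε w : ℝ} (K₁ : ℝ) (_ : 0 < ε) (_ : w < 1),
    Bas S (fun J F A => ∀ (B : F.Ω → Prop) (c : ℕ → Fin m) (N W s v n : ℕ) (A' e : ℕ → ℕ)
      (g : ℕ → ℕ → ℕ) (G : ℕ → PtT F → ℕ → MvPolynomial (Option (Fin m)) ℝ)
      (H : ℕ → LnT F → ℕ → MvPolynomial (Option (Fin m)) ℝ)
      (pP : PtT F → ℕ → MvPolynomial (Option (Fin m)) ℝ)
      (pH : LnT F → ℕ → MvPolynomial (Option (Fin m)) ℝ) (jb : ℕ → ℕ) (t : VbT F),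
      Sub B A → Pe F.p A ≤ K₁ * Pe F.p B → Inc F c D N W s v A' e g B G H pP pH → N ≤ s →
      (W : ℝ) ≤ w * J →
      (∀ ω, B ω → ∀ b : Option (Fin m) → ℝ, |b none - F.t ω| ≤ 1 / 2 ^ W →
        |b (some (c 0)) - F.x ω (c 0)| ≤ 1 / 2 ^ W →
        |eval b (pderiv (some (c 0)) (pP (ptr F J ω) 1))| ≤ 2 ^ t.e₁') →
      t.W₀ = W → t.g1 = g 0 1 → t.Pv = (fun y => pP y 1) → t.Pl = (fun S => pH S 1) →
      t.yt = yp F c W (g 0 1) (fun y => pP y 1) →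
      (∀ i < n, jb i ≤ N ∧ A' (jb i) ≤ W + t.k + i * t.k ∧ W + t.k + i * t.k ≤ A' (jb i) + v ∧
        A' (jb i) ≤ g (jb i) 0 + s ∧ e (jb i) ≤ t.e₁ + 1) →
      (∀ i < n, t.gc i = g (jb i) ∧ t.Gc i = G (jb i) ∧
        t.Hc i = fun S => H (jb i) (cos F (A' (jb i)) (W + t.k + i * t.k) S)) →
      C * (s + v + 1) ≤ t.s → ((s : ℝ) + 1) * Real.log 2 + ε * J ≤ t.y * Real.log 2 →
      g 0 1 + t.e₁' + 1 + t.k + n * t.k ≤ J → W + t.k + n * t.k ≤ J →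
      ∃ B' : F.Ω → Prop, Sub B' B ∧ Pe F.p B / 4 ≤ Pe F.p B' ∧ 0 < Pe F.p B ∧
        SuP F c B' K n t) := by
  obtain ⟨C, hbox⟩ := Pool.STB82.inc_box D
  refine ⟨C, ?_⟩
  intro m S hS K hDK ε w K₁ hε hw
  refine Bas.mono 0 (Pool.STB82.inp_cls hS K K₁ hε hw) ?_
  intro J _ F A hinp B c N W s v n A' e g G H pP pH jb t hBA hK I hNs hW hgr tW tg tP tL ty hjb hj2
    hCs hY hn1 hn2
  have hWJ : W ≤ J := by omega
  have ok0 := I.ok 0 (Nat.zero_le N)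
  have hA0 := I.A0
  obtain ⟨B', hB', hP', hP0, hI⟩ := hinp B c W t.k t.k n (g 0 1) t.e₁' (s + 1) (2 ^ t.y)
    (fun y => pP y 1) (fun S => pH S 1) hBA hK hW (fun S => (I.hd S 1).trans hDK)
    (fun y => I.pe y 1) (fun ω hω => I.pc ω hω 1) (fun ω hω r hr => by
      refine hgr ω hω _ ?_ ?_
      · rw [Function.update_of_ne (by simp)]
        show |F.t ω - F.t ω| ≤ _
        rw [sub_self, abs_zero]
        positivity
      · rw [Function.update_self]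
        show |F.x ω (c 0) + r - F.x ω (c 0)| ≤ _
        rw [add_sub_cancel_left]
        exact hr.trans (inv_mono hWJ)) (fun ω hω => by
      have h1 := ok0.pos ω hω 1 (by norm_num)
      have h2 := I.pn ω hω 1 one_pos (by norm_num) (bt F ω) (ok0.self hω (by norm_num))
      have e1 : F.x ω (c 1) - eval (bt F ω) (pP (ptr F J ω) 1) =
          (F.x ω (c 1) - eval (bt F ω) (G 0 (ptr F J ω) 1)) -
          (eval (bt F ω) (pP (ptr F J ω) 1) - eval (bt F ω) (G 0 (ptr F J ω) 1)) := by ring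
      rw [e1]
      refine (abs_sub _ _).trans ((add_le_add h1 h2).trans ?_)
      rw [← add_div]
      refine div_le_div_of_nonneg_right ?_ (by positivity)
      have h3 : (1 : ℝ) ≤ 2 ^ s := one_le_pow₀ (by norm_num)
      rw [pow_succ]
      linarith) (by
      have h1 : ∀ k : ℕ, (2 : ℝ) ^ k = Real.exp (k * Real.log 2) := by
        intro k
        rw [mul_comm, Real.exp_mul, Real.exp_log (by norm_num), Real.rpow_natCast]
      rw [h1, h1, ← Real.exp_add]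
      refine Real.exp_le_exp.2 ?_
      push_cast
      exact hY) hn1 hn2
  refine ⟨B', hB', hP', hP0, ?_, ?_, ?_, ?_, ?_, ?_, ?_, ?_⟩
  · rw [tW, tg, tL, ty]
    exact hI
  · intro y
    rw [tP]
    exact (I.pd y 1).trans hDK
  · intro y
    rw [tP]
    exact I.pe y 1
  · intro ω hω
    rw [tP, tL, tW]
    exact I.pc ω (hB' ω hω) 1
  · intro ω hω
    rw [tP, tW]
    exact hgr ω (hB' ω hω)
  · intro i hi
    obtain ⟨j1, j2, j3, j4, j5⟩ := hjb i hi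
    obtain ⟨j6, j7, j8⟩ := hj2 i hi
    rw [j6, j7, j8, tW]
    have hle : (i + 1) * t.k ≤ n * t.k := Nat.mul_le_mul_right _ hi
    rw [add_mul, one_mul] at hle
    exact chok_win (((I.ok (jb i) j1).sub hB').mono (by norm_num) (fun _ => hDK) le_rfl j5) j2 j2
      (by omega)
  · intro i hi ω hω b hb
    obtain ⟨j1, j2, j3, j4, j5⟩ := hjb i hi
    obtain ⟨j6, j7, j8⟩ := hj2 i hi
    rw [j6, j7, tW] at hb
    rw [tW]
    exact ((hbox I hNs j1 (hB' ω hω) j2 j3 j4 (hb.mono le_rfl le_rfl)).1).trans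
      (div_le_div_of_nonneg_right (pow_le_pow_right₀ (by norm_num) hCs) (by positivity))
  · intro i hi ω hω b hb
    obtain ⟨j1, j2, j3, j4, j5⟩ := hjb i hi
    obtain ⟨j6, j7, j8⟩ := hj2 i hi
    rw [j6, j7, tW] at hb
    rw [tP, tg]
    have h1 := (hbox I hNs j1 (hB' ω hω) j2 j3 j4 (hb.mono le_rfl le_rfl)).2
    rw [show W + t.k + i * t.k - W = t.k + i * t.k by omega] at h1
    exact h1.trans
      (div_le_div_of_nonneg_right (pow_le_pow_right₀ (by norm_num) hCs) (by positivity))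


/-- **The fields of `SuE` for the target.** -/
structure SuX (F : Fam m J) (c : ℕ → Fin m) (B : F.Ω → Prop) (K n N b : ℕ) (t : VbT F) : Prop where
  iF : InpF F B t.W₀ N (K + 1) b (2 ^ t.y) (yv F c t.W₀ t.g1 t.Pl) t.e t.f t.f' t.kf
  hji : ∀ i < n, t.ji i ≤ N ∧ t.e (t.ji i) ≤ t.k + i * t.k + t.k ∧
    (2 : ℝ) ^ (t.k + i * t.k + t.k) ≤ 2 ^ t.y * 2 ^ t.e (t.ji i)
  zd : ∀ y, (t.zP y).totalDegree ≤ K
  zp : ∀ y, DepC c 2 (t.zP y)
  zcl : ∀ ω, B ω → t.zP (ptr F J ω) = t.zH (slam F t.W₀ ω)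
  val : ∀ i < n, ∀ ω, B ω → |eval (yv F c t.W₀ t.g1 t.Pl ω) (t.f (t.ji i) (ptr F J ω)) -
    2 ^ t.g₃ * (F.x ω (c 2) - eval (bt F ω) (t.zP (ptr F J ω)))| ≤
      2 ^ t.y * (1 / 2 ^ t.e (t.ji i)) ^ b
  hlT : ∀ i < n, ∀ ω, B ω → ∀ b', NBx c (t.Gc i (ptr F J ω)) (t.gc i) (t.W₀ + t.k + i * t.k)
    (F.t ω) 2 b' → ∀ l < 2, |eval b' (pderiv (some (c l)) (t.zP (ptr F J ω)))| ≤
      2 ^ (t.e₁ + nlp (fun j => if j < 2 then t.gc i j else t.p b i) l 2) / 2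

theorem sue_tgt {F : Fam m J} {c : ℕ → Fin m} {B : F.Ω → Prop} {K n N b : ℕ} {t : VbT F}
    {D K₀ s v y e X : ℕ} {A ee : ℕ → ℕ} {g : ℕ → ℕ → ℕ}
    {Gn : ℕ → PtT F → ℕ → MvPolynomial (Option (Fin m)) ℝ}
    {Hn : ℕ → LnT F → ℕ → MvPolynomial (Option (Fin m)) ℝ}
    {pP : PtT F → ℕ → MvPolynomial (Option (Fin m)) ℝ}
    {pH : LnT F → ℕ → MvPolynomial (Option (Fin m)) ℝ} {xP : PtT F → ℝ} {xH : LnT F → ℝ}
    (O : UcO F c D K₀ b N t.W₀ s v y e X A ee g B Gn Hn pP pH xP xH t.f t.f' t.kf)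
    (h1 : t.g1 = g 0 1) (h2 : t.g₃ = g 0 2) (hPl : t.Pl = fun S => pH S 1)
    (hzP : t.zP = fun y => pP y 2) (hzH : t.zH = fun S => pH S 2)
    (he : t.e = fun k => A k - t.W₀) (hy : y ≤ t.y) (hK : K₀ ≤ K + 1) (hD : D ≤ K)
    (jb : ℕ → ℕ) (hjb : ∀ i < n, jb i ≤ N ∧ A (jb i) ≤ t.W₀ + t.k + i * t.k ∧
      t.Gc i = Gn (jb i) ∧ t.gc i = g (jb i))
    (hji : ∀ i < n, t.ji i ≤ N ∧ A (t.ji i) ≤ t.W₀ + (t.k + i * t.k + t.k) ∧
      t.W₀ + (t.k + i * t.k + t.k) ≤ t.y + A (t.ji i))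
    (hnl : ∀ i < n, ∀ l < 2, X + nlp (g 0) l 2 + 1 ≤
      t.e₁ + nlp (fun j => if j < 2 then t.gc i j else t.p b i) l 2) :
    SuX F c B K n N b t := by
  have pw : ∀ {x y : ℕ}, x ≤ y → (2 : ℝ) ^ x ≤ 2 ^ y := fun h => pow_le_pow_right₀ (by norm_num) h
  have hyv : yv F c t.W₀ t.g1 t.Pl = yv F c t.W₀ (g 0 1) (fun S => pH S 1) := by rw [h1, hPl]
  have hA : ∀ k ≤ N, t.W₀ ≤ A k := fun k hk => O.inc.AW k hk
  exact
    { iF := by
        rw [hyv, he]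
        exact (O.inp.up (pw hy)).deg hK
      hji := fun i hi => by
        obtain ⟨j1, j2, j3⟩ := hji i hi
        have := hA _ j1
        refine ⟨j1, ?_, ?_⟩
        · rw [he]
          show A (t.ji i) - t.W₀ ≤ _
          omega
        · rw [he, ← pow_add]
          refine pw ?_
          show _ ≤ t.y + (A (t.ji i) - t.W₀)
          omega
      zd := fun y => by
        rw [hzP]
        exact (O.inc.pd y 2).trans hD
      zp := fun y => by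
        rw [hzP]
        exact O.inc.pe y 2
      zcl := fun ω hω => by
        rw [hzP, hzH]
        exact O.inc.pc ω hω 2
      val := fun i hi ω hω => by
        obtain ⟨j1, j2, j3⟩ := hji i hi
        have h3 := O.val (t.ji i) j1 ω hω
        rw [hyv, he, hzP, h2]
        exact h3.trans (mul_le_mul_of_nonneg_right (pw hy) (by positivity))
      hlT := fun i hi ω hω b' hb l hl => by
        obtain ⟨j1, j2, j3, j4⟩ := hjb i hi
        have h3 := O.gT (jb i) j1 ω hω b' (by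
          rw [j3, j4] at hb
          exact ⟨hb.1.trans (one_div_le_one_div_of_le (by positivity) (pw j2)), hb.2⟩) l hl
        rw [hzP]
        refine h3.trans ?_
        rw [le_div_iff₀ (by norm_num), ← pow_succ]
        exact pw (hnl i hi l hl) }

/-- **The natural numbers of the frame**: windows `W + k + i k`, balls `jb i` below them and `ji i`
below their ends; `s`, `v`, `y₀`, `X`, `e` the losses of the labels. -/
structure FrS (J n N : ℕ) (C₁ : ℕ) (b W k y x e₁' e₁ st s v y₀ e X : ℕ) (A ee : ℕ → ℕ)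
    (g : ℕ → ℕ → ℕ) (jb ji : ℕ → ℕ) (w ε : ℝ) : Prop where
  Ww : (W : ℝ) ≤ w * J
  es : s + e ≤ e₁'
  jb0 : ∀ i < n, jb i ≤ N ∧ A (jb i) ≤ W + k + i * k ∧ W + k + i * k ≤ A (jb i) + v ∧
    A (jb i) ≤ g (jb i) 0 + s ∧ ee (jb i) ≤ e₁ + 1
  ji0 : ∀ i < n, ji i ≤ N ∧ A (ji i) ≤ W + (k + i * k + k) ∧ W + (k + i * k + k) ≤ y + A (ji i)
  Cs : C₁ * (s + v + 1) ≤ st
  sy : ((s : ℝ) + 1) * Real.log 2 + ε * J ≤ y * Real.log 2
  J1 : g 0 1 + e₁' + 1 + k + n * k ≤ J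
  J2 : W + k + n * k ≤ J
  yy : y₀ ≤ y
  nl : ∀ i < n, ∀ l < 2, X + nlp (g 0) l 2 + 1 ≤
    e₁ + nlp (fun j => if j < 2 then g (jb i) j else g 0 2 + b * (k + i * k) + x) l 2

/-- **The data of the event** from the labels at the balls. -/
noncomputable def sut {J : ℕ} (F : Fam m J) (c : ℕ → Fin m) (W k y x e₁' e₁ e₂ st : ℕ)
    (A : ℕ → ℕ) (g : ℕ → ℕ → ℕ) (jb ji : ℕ → ℕ)
    (Gn : ℕ → PtT F → ℕ → MvPolynomial (Option (Fin m)) ℝ)
    (Hn : ℕ → LnT F → ℕ → MvPolynomial (Option (Fin m)) ℝ)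
    (pP : PtT F → ℕ → MvPolynomial (Option (Fin m)) ℝ)
    (pH : LnT F → ℕ → MvPolynomial (Option (Fin m)) ℝ) (f : ℕ → PtT F → Po)
    (f' : ℕ → LnT F → Po) (kf : LnT F → Po) : VbT F where
  W₀ := W
  k := k
  y := y
  x := x
  g1 := g 0 1
  g₃ := g 0 2
  e₁' := e₁'
  e₁ := e₁
  e₂ := e₂
  s := st
  lz := 0
  Pv := fun y => pP y 1
  Pl := fun S => pH S 1
  yt := yp F c W (g 0 1) (fun y => pP y 1)
  e := fun j => A j - W
  ji := ji
  f := f
  f' := f'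
  kf := kf
  zP := fun y => pP y 2
  zH := fun S => pH S 2
  gc := fun i => g (jb i)
  Gc := fun i => Gn (jb i)
  Hc := fun i S => Hn (jb i) (cos F (A (jb i)) (W + k + i * k) S)

/-- **The natural numbers of the far data.** -/
structure FrF (J Nf C₂ : ℕ) (W k y e₁' s v Wf kf g1 sf vf ef : ℕ) (Af : ℕ → ℕ)
    (gf : ℕ → ℕ → ℕ) (w ε : ℝ) : Prop where
  Ww : (Wf : ℝ) ≤ w * J
  es : sf + ef ≤ e₁'
  Nfs : Nf ≤ sf
  AN : Af Nf = W
  WW : Wf ≤ W
  WJ : W ≤ J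
  g1 : g1 ≤ gf 0 1 + (W - Wf) + sf
  Co : C₂ * (s + v + sf + vf + 1) + sf + 1 ≤ y
  sy : ((sf : ℝ) + 1) * Real.log 2 + ε * J ≤ y * Real.log 2
  J1 : gf 0 1 + e₁' + 1 + (W + k - Wf) + 1 * kf ≤ J
  J2 : Wf + (W + k - Wf) + 1 * kf ≤ J

/-- **The far data.** -/
noncomputable def fat {J : ℕ} (F : Fam m J) (c : ℕ → Fin m) (W k Wf kf : ℕ) (gf : ℕ → ℕ → ℕ)
    (pP : PtT F → ℕ → MvPolynomial (Option (Fin m)) ℝ)
    (pH : LnT F → ℕ → MvPolynomial (Option (Fin m)) ℝ) (xP : PtT F → ℝ) (xH : LnT F → ℝ) :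
    FaT F where
  W := Wf
  d := W + k - Wf
  k := kf
  g := gf 0 1
  Pv := fun y => pP y 1
  Pl := fun S => pH S 1
  yt := yp F c Wf (gf 0 1) (fun y => pP y 1)
  xP := fun y => xP y / 2 ^ Wf
  xH := fun S => xH S / 2 ^ Wf

/-- **The far data on a part of an event.** -/
theorem fae_ev (D : ℕ) : ∃ C₂ : ℕ, ∀ {m : ℕ} {S : PCl m} (_ : TmH S) (K : ℕ) (_ : D ≤ K)
    {ε w : ℝ} (K₁ : ℝ) (_ : 0 < ε) (_ : w < 1),
    Bas S (fun J F A => ∀ (B : F.Ω → Prop) (c : ℕ → Fin m) (N Nf W k y e₁' s v Wf kf sf vf ef : ℕ)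
      (A' e Af ee : ℕ → ℕ) (g gf : ℕ → ℕ → ℕ)
      (G Gf : ℕ → PtT F → ℕ → MvPolynomial (Option (Fin m)) ℝ)
      (H Hf : ℕ → LnT F → ℕ → MvPolynomial (Option (Fin m)) ℝ)
      (pP pPf : PtT F → ℕ → MvPolynomial (Option (Fin m)) ℝ)
      (pH pHf : LnT F → ℕ → MvPolynomial (Option (Fin m)) ℝ) (xP : PtT F → ℝ) (xH : LnT F → ℝ),
      Sub B A → Pe F.p A ≤ K₁ * Pe F.p B → Inc F c D N W s v A' e g B G H pP pH → N ≤ s →
      Inc F c D Nf Wf sf vf Af ee gf B Gf Hf pPf pHf → Gf Nf = G 0 →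
      (∀ ω, B ω → xP (ptr F J ω) = xH (slam F Wf ω)) →
      (∀ ω, B ω → |xP (ptr F J ω) - 2 ^ Wf * F.x ω (c 0)| ≤ 2 ^ sf) →
      (∀ ω, B ω → ∀ b : Option (Fin m) → ℝ, |b none - F.t ω| ≤ 1 / 2 ^ Wf →
        |b (some (c 0)) - F.x ω (c 0)| ≤ 1 / 2 ^ Wf →
        |eval b (pderiv (some (c 0)) (pPf (ptr F J ω) 1))| ≤ 2 ^ (sf + ef)) →
      FrF J Nf C₂ W k y e₁' s v Wf kf (g 0 1) sf vf ef Af gf w ε →
      ∃ B' : F.Ω → Prop, Sub B' B ∧ Pe F.p B / 4 ≤ Pe F.p B' ∧ 0 < Pe F.p B ∧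
        FaE F c B' K y e₁' W (g 0 1) (fun S => pH S 1) (fat F c W k Wf kf gf pPf pHf xP xH)) := by
  obtain ⟨C, hlip⟩ := cl_lip0 D
  refine ⟨C, ?_⟩
  intro m S hS K hDK ε w K₁ hε hw
  refine Bas.mono 0 (Pool.STB82.inp_cls hS K K₁ hε hw) ?_
  intro J _ F A hinp B c N Nf W k y e₁' s v Wf kf sf vf ef A' e Af ee g gf G Gf H Hf pP pPf pH pHf
    xP xH hBA hK I hNs If hGG hxc hxn hgr R
  have pw : ∀ {x y : ℕ}, x ≤ y → (2 : ℝ) ^ x ≤ 2 ^ y := fun h => pow_le_pow_right₀ (by norm_num) h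
  have ok0 := If.ok 0 (Nat.zero_le Nf)
  have hA0 := If.A0
  have hWfJ : Wf ≤ J := R.WW.trans R.WJ
  have hgr' : ∀ ω, B ω → ∀ b : Option (Fin m) → ℝ, |b none - F.t ω| ≤ 1 / 2 ^ Wf →
      |b (some (c 0)) - F.x ω (c 0)| ≤ 1 / 2 ^ Wf →
      |eval b (pderiv (some (c 0)) (pPf (ptr F J ω) 1))| ≤ 2 ^ e₁' := fun ω hω b h1 h2 =>
    (hgr ω hω b h1 h2).trans (pw R.es)
  have hpos : ∀ ω, B ω → |F.x ω (c 1) - eval (bt F ω) (pPf (ptr F J ω) 1)| ≤
      2 ^ (sf + 1) / 2 ^ gf 0 1 := fun ω hω => by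
    have h1 := ok0.pos ω hω 1 (by norm_num)
    have h2 := If.pn ω hω 1 one_pos (by norm_num) (bt F ω) (ok0.self hω (by norm_num))
    have e1 : F.x ω (c 1) - eval (bt F ω) (pPf (ptr F J ω) 1) =
        (F.x ω (c 1) - eval (bt F ω) (Gf 0 (ptr F J ω) 1)) -
        (eval (bt F ω) (pPf (ptr F J ω) 1) - eval (bt F ω) (Gf 0 (ptr F J ω) 1)) := by ring
    rw [e1]
    refine (abs_sub _ _).trans ((add_le_add h1 h2).trans ?_)
    rw [← add_div]
    refine div_le_div_of_nonneg_right ?_ (by positivity)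
    have h3 : (1 : ℝ) ≤ 2 ^ sf := one_le_pow₀ (by norm_num)
    rw [pow_succ]
    linarith
  obtain ⟨B', hB', hP', hP0, hI⟩ := hinp B c Wf (W + k - Wf) kf 1 (gf 0 1) e₁' (sf + 1) (2 ^ y)
    (fun y => pPf y 1) (fun S => pHf S 1) hBA hK R.Ww (fun S => (If.hd S 1).trans hDK)
    (fun y => If.pe y 1) (fun ω hω => If.pc ω hω 1) (fun ω hω r hr => by
      refine hgr' ω hω _ ?_ ?_
      · rw [Function.update_of_ne (by simp)]
        show |F.t ω - F.t ω| ≤ _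
        rw [sub_self, abs_zero]
        positivity
      · rw [Function.update_self]
        show |F.x ω (c 0) + r - F.x ω (c 0)| ≤ _
        rw [add_sub_cancel_left]
        exact hr.trans (inv_mono hWfJ)) hpos (by
      have h1 : ∀ k : ℕ, (2 : ℝ) ^ k = Real.exp (k * Real.log 2) := by
        intro k
        rw [mul_comm, Real.exp_mul, Real.exp_log (by norm_num), Real.rpow_natCast]
      rw [h1, h1, ← Real.exp_add]
      refine Real.exp_le_exp.2 ?_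
      push_cast
      exact R.sy) R.J1 R.J2
  have hsy : sf + 1 ≤ y := by
    have := R.Co
    omega
  refine ⟨B', hB', hP', hP0, ?_⟩
  exact
    { iP := hI
      Pd := fun y => (If.pd y 1).trans hDK
      Pp := fun y => If.pe y 1
      Pc := fun ω hω => If.pc ω (hB' ω hω) 1
      Pg := fun ω hω b h1 h2 => hgr' ω (hB' ω hω) b (by
        rw [h1, sub_self, abs_zero]
        positivity) (h2.trans (inv_mono hWfJ))
      xc := fun ω hω => by
        show xP (ptr F J ω) / 2 ^ Wf = xH (slam F Wf ω) / 2 ^ Wf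
        rw [hxc ω (hB' ω hω)]
      xn := fun ω hω => by
        show |F.x ω (c 0) - xP (ptr F J ω) / 2 ^ Wf| ≤ 2 ^ y / 2 ^ Wf
        have h1 := hxn ω (hB' ω hω)
        have hp : (0 : ℝ) < 2 ^ Wf := by positivity
        rw [le_div_iff₀ hp]
        have e1 : |F.x ω (c 0) - xP (ptr F J ω) / 2 ^ Wf| * 2 ^ Wf =
            |xP (ptr F J ω) - 2 ^ Wf * F.x ω (c 0)| := by
          rw [← abs_of_pos hp, ← abs_mul, abs_of_pos hp, sub_mul, div_mul_cancel₀ _ hp.ne',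
            abs_sub_comm, mul_comm (F.x ω (c 0))]
        rw [e1]
        exact h1.trans (pw (by omega))
      pn := fun ω hω => (hpos ω (hB' ω hω)).trans
        (div_le_div_of_nonneg_right (pw hsy) (by positivity))
      osc := fun ω hω b h1 h2 => by
        show 2 ^ g 0 1 * |eval b (pH (slam F W ω) 1 - pHf (slam F Wf ω) 1) -
          eval (bt F ω) (pH (slam F W ω) 1 - pHf (slam F Wf ω) 1)| ≤ 2 ^ y
        rw [← I.pc ω (hB' ω hω) 1, ← If.pc ω (hB' ω hω) 1]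
        have k1 := hlip (k := 0) (a := W) I hNs (Nat.zero_le N) (hB' ω hω) (by rw [I.A0]) h1 h2
        have k2 := hlip (k := Nf) (a := W) If R.Nfs le_rfl (hB' ω hω) (by rw [R.AN]) h1 h2
        rw [hGG] at k2
        rw [Nat.sub_self, add_zero] at k1
        obtain ⟨Z, hZ⟩ : ∃ Z, Z = C * (s + v + sf + vf + 1) := ⟨_, rfl⟩
        have e1 : C * (s + v + 1) ≤ Z := by
          rw [hZ]
          exact Nat.mul_le_mul_left _ (by omega)
        have e2 : C * (sf + vf + 1) ≤ Z := by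
          rw [hZ]
          exact Nat.mul_le_mul_left _ (by omega)
        have hg := R.g1
        have k3 : (2 : ℝ) ^ (C * (s + v + 1)) / 2 ^ g 0 1 ≤ 2 ^ (Z + sf) / 2 ^ g 0 1 :=
          div_le_div_of_nonneg_right (pw (by omega)) (by positivity)
        have k4 : (2 : ℝ) ^ (C * (sf + vf + 1)) / 2 ^ (gf 0 1 + (W - Wf)) ≤
            2 ^ (Z + sf) / 2 ^ g 0 1 := by
          rw [div_le_div_iff₀ (by positivity) (by positivity), ← pow_add, ← pow_add]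
          exact pw (by omega)
        have k5 : |eval b (pP (ptr F J ω) 1 - pPf (ptr F J ω) 1) -
            eval (bt F ω) (pP (ptr F J ω) 1 - pPf (ptr F J ω) 1)| ≤
            2 * (2 ^ (Z + sf) / 2 ^ g 0 1) := by
          have j1 := abs_le.1 (k1.trans k3)
          have j2 := abs_le.1 (k2.trans k4)
          rw [map_sub, map_sub, abs_le]
          constructor <;> linarith [j1.1, j1.2, j2.1, j2.2]
        have k6 : (2 : ℝ) ^ g 0 1 * (2 * (2 ^ (Z + sf) / 2 ^ g 0 1)) = 2 ^ (Z + sf + 1) := by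
          rw [pow_succ]
          field_simp
        refine (mul_le_mul_of_nonneg_left k5 (by positivity)).trans ?_
        rw [k6]
        exact pw (by rw [hZ]; exact R.Co) }

end Pool.STA37
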