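import Pool.Agent.H37.STA.Eve
import Pool.Agent.H77.STB.Nin

/-!
# The event of the class theorem, from the labels at the nodes

`su_ev`: the near and the far data on a part of each event, from the labels at a list of nodes.
-/

set_option autoImplicit false

namespace Pool.STA37

open Finset Real MvPolynomial
open Pool.Agent.H49.Ent Pool.Agent.H32.Dense Pool.STK Pool.KA Pool.KSAT Pool.K2S Pool.PB Pool.S6C
open Pool.GEN Pool.CHT Pool.NVX Pool.CHX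
open Pool.STB (V3 Po Bx VbT VbE)
open Pool.STB82 (yv yp hgP)
open Pool.STB65 (InpP InpF UcO cl_lip0 inc_mono inc_less)
open Pool.STB77 (Inc Nls cos chok_win inc_nls)

/-- Larger losses of a list of nodes. -/
theorem nls_up {m J : ℕ} {F : Fam m J} {c : ℕ → Fin m} {r D Dr M s s' : ℕ} {R : ℕ → ℕ → Prop}
    {a w : ℕ → ℕ} {e E : ℕ} {g : ℕ → ℕ → ℕ} {h : ℕ} {κ : ℝ} {B : F.Ω → Prop}
    {G : ℕ → PtT F → ℕ → MvPolynomial (Option (Fin m)) ℝ}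
    {H : ℕ → LnT F → ℕ → MvPolynomial (Option (Fin m)) ℝ}
    (L : Nls F c r D Dr M s R a w e E g h κ B G H) (hs : s ≤ s') :
    Nls F c r D Dr M s' R a w e E g h κ B G H := by
  have pw : ∀ k : ℕ, (2 : ℝ) ^ s / 2 ^ k ≤ 2 ^ s' / 2 ^ k := fun k =>
    div_le_div_of_nonneg_right (pow_le_pow_right₀ (by norm_num) hs) (by positivity)
  exact ⟨L.nod, fun j hj k hk hR ω hω l hl b hb => (L.uni j hj k hk hR ω hω l hl b hb).trans (pw _),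
    fun j hj k hk hR ω hω l hl b hb => (L.two j hj k hk hR ω hω l hl b hb).trans (pw _),
    fun k hk h ω hω l hl t ht => (L.own k hk h ω hω l hl t ht).trans (pw _),
    fun k hk ω hω l hl t ht => (L.ow k hk ω hω l hl t ht).trans (pw _)⟩

/-- **The natural numbers of the far balls.** -/
structure FrL (J Nf : ℕ) (s v : ℕ) (a w : ℕ → ℕ) (g : ℕ → ℕ → ℕ) (ι : ℕ → ℕ) : Prop where
  wa : ∀ k ≤ Nf, w (ι k) = a (ι k)
  aJ : ∀ k ≤ Nf, a (ι k) ≤ J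
  am : ∀ k < Nf, a (ι k) ≤ a (ι (k + 1))
  av : ∀ k < Nf, a (ι (k + 1)) ≤ a (ι k) + v
  n0 : ∀ k ≤ Nf, g (ι k) 0 ≤ a (ι k) + s
  n0' : a (ι 0) ≤ g (ι 0) 0 + s
  n1g : a (ι 0) ≤ g (ι 0) 1 + s
  n1 : ∀ k ≤ Nf, g (ι k) 1 ≤ g (ι 0) 1 + (a (ι k) - a (ι 0)) + s
  n1' : ∀ k ≤ Nf, g (ι 0) 1 + (a (ι k) - a (ι 0)) ≤ g (ι k) 1 + s

/-- **The event.** -/
theorem su_ev (D D' : ℕ) : ∃ C₁ C₂ Cf D₂ : ℕ, D' ≤ D₂ ∧ 1 ≤ Cf ∧
    ∀ {K K₀ n N b M Dr : ℕ} (_ : D₂ ≤ K) (_ : K₀ ≤ K + 1) {m : ℕ} {S : PCl m} (_ : TmH S)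
    {c : ℕ → Fin m} (_ : Set.InjOn c (Set.Iio 3)) {w ε K₁ : ℝ} (_ : 0 < ε) (_ : w < 1)
    (_ : 0 < K₁) {R : ℕ → ℕ → Prop} {ι ιf : ℕ → ℕ} {Nf : ℕ} {s₀ s₁ eJ EJ hJ : ℕ → ℕ}
    {κJ : ℕ → ℝ} {a w' : ℕ → ℕ → ℕ} {g : ℕ → ℕ → ℕ → ℕ}
    {k y x e₁' e₁ e₂ st s v y₀ X kf vf : ℕ → ℕ} {jb ji : ℕ → ℕ}
    (_ : Bas S (fun J F A' => ∃ (B : F.Ω → Prop)
          (Gn : ℕ → PtT F → ℕ → MvPolynomial (Option (Fin m)) ℝ)
          (Hn : ℕ → LnT F → ℕ → MvPolynomial (Option (Fin m)) ℝ)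
          (pP : PtT F → ℕ → MvPolynomial (Option (Fin m)) ℝ)
          (pH : LnT F → ℕ → MvPolynomial (Option (Fin m)) ℝ) (xP : PtT F → ℝ) (xH : LnT F → ℝ)
          (f : ℕ → PtT F → Po) (f' : ℕ → LnT F → Po) (kf : LnT F → Po), Sub B A' ∧
          Pe F.p A' ≤ K₁ * Pe F.p B ∧
          Nls F c 2 D Dr M (s₀ J) R (a J) (w' J) (eJ J) (EJ J) (g J) (hJ J) (κJ J) B Gn Hn ∧
          UcO F c D' K₀ b N (a J (ι 0)) (s J) (v J) (y₀ J) (eJ J) (X J) (fun k => a J (ι k))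
            (fun _ => EJ J) (fun k => g J (ι k)) B (fun k => Gn (ι k)) (fun k => Hn (ι k)) pP pH
            xP xH f f' kf))
    (_ : ιf Nf = ι 0) (_ : ∀ k ≤ Nf, ιf k < M) (_ : ∀ k < Nf, R (ιf k) (ιf (k + 1))) {J₀ : ℕ}
    (_ : ∀ J ≥ J₀, s₀ J ≤ s₁ J ∧ FrL J Nf (s₁ J) (vf J) (a J) (w' J) (g J) ιf)
    (_ : ∀ J ≥ J₀, FrS J n N C₁ b (a J (ι 0)) (k J) (y J) (x J) (e₁' J) (e₁ J) (st J) (s J) (v J)
      (y₀ J) (eJ J) (X J) (fun k => a J (ι k)) (fun _ => EJ J) (fun k => g J (ι k)) jb ji w ε)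
    (_ : ∀ J ≥ J₀, FrF J Nf C₂ (a J (ι 0)) (k J) (y J) (e₁' J) (s J) (v J) (a J (ιf 0)) (kf J)
      (g J (ι 0) 1) (Cf * (s₁ J + 1)) (vf J) (eJ J) (fun k => a J (ιf k))
      (fun k => g J (ιf k)) w ε),
    Bas S (fun J F A' => ∃ B : F.Ω → Prop, Sub B A' ∧ 1 / (32 * K₁) * Pe F.p A' ≤ Pe F.p B ∧
      ∃ (t : VbT F) (fa : FaT F), SuE F c B K n N b t ∧
        FaE F c B K t.y t.e₁' t.W₀ t.g1 t.Pl fa ∧
        (∃ Gn Hn pP pH f f' kf, t = sut F c (a J (ι 0)) (k J) (y J) (x J) (e₁' J) (e₁ J) (e₂ J)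
          (st J) (fun k => a J (ι k)) (fun k => g J (ι k)) jb ji Gn Hn pP pH f f' kf) ∧
        ∃ pP pH xP xH, fa = fat F c (a J (ι 0)) (k J) (a J (ιf 0)) (kf J)
          (fun k => g J (ιf k)) pP pH xP xH) := by
  obtain ⟨Cf, D'', hCf, hDD'', hinc⟩ := inc_nls D
  obtain ⟨C₁, hpos⟩ := sue_pos D'
  obtain ⟨C₂, hfar⟩ := fae_ev (max D' D'')
  refine ⟨C₁, C₂, Cf, max D' D'', le_max_left _ _, hCf, ?_⟩
  intro K K₀ n N b M Dr hDK hK₀ m S hS c hc w ε K₁ hε hw hK₁ R ι ιf Nf s₀ s₁ eJ EJ hJ κJ a w' g k y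
    x e₁' e₁ e₂ st s v y₀ X kf vf jb ji hcls hιf hιM hιR J₀ hL hFS hFF
  have hD'K : D' ≤ K := (le_max_left _ _).trans hDK
  have hD''K : D'' ≤ K := (le_max_right _ _).trans hDK
  refine Bas.mono J₀ ((hcls.and (hpos hS K hD'K (2 * K₁) hε hw)).and
    (hfar hS K hDK (8 * K₁) hε hw)) ?_
  rintro J hJ F A' ⟨⟨⟨B, Gn, Hn, pP, pH, xP, xH, f, f', kp, hBA, hPB, hN, O⟩, hP⟩, hQ⟩
  obtain ⟨hs₀, L⟩ := hL J hJ
  have FS := hFS J hJ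
  have FF := hFF J hJ
  have hN' := nls_up hN hs₀
  obtain ⟨B₁, xPf, xHf, pPf, pHf, hB₁, hPB₁, If, -, hxc, hxn, hgr⟩ := hinc (ι := ιf) (N := Nf)
    (v := vf J) le_rfl (by simpa using hc) hN' hιM L.wa hιR L.aJ L.am L.av L.n0 L.n0' L.n1g L.n1
    L.n1'
  have O₁ := O.sub hB₁
  have hBA₁ : Sub B₁ A' := fun ω hω => hBA ω (hB₁ ω hω)
  have hPA₁ : Pe F.p A' ≤ 2 * K₁ * Pe F.p B₁ := by
    have := mul_le_mul_of_nonneg_left hPB₁ hK₁.le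
    linarith
  obtain ⟨t, ht⟩ : ∃ t, t = sut F c (a J (ι 0)) (k J) (y J) (x J) (e₁' J) (e₁ J) (e₂ J)
    (st J) (fun k => a J (ι k)) (fun k => g J (ι k)) jb ji (fun k => Gn (ι k))
    (fun k => Hn (ι k)) pP pH f f' kp := ⟨_, rfl⟩
  obtain ⟨B₂, hB₂, hPB₂, hP0₁, VP⟩ := hP B₁ c N (a J (ι 0)) (s J) (v J) n (fun k => a J (ι k))
    (fun _ => EJ J) (fun k => g J (ι k)) (fun k => Gn (ι k)) (fun k => Hn (ι k)) pP pH jb t hBA₁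
    hPA₁ O₁.inc O.Ns FS.Ww (fun ω hω b hb1 hb2 => by
      rw [ht]
      exact (O₁.pg ω hω b hb1 hb2).trans (pow_le_pow_right₀ one_le_two FS.es))
    (by rw [ht]; rfl) (by rw [ht]; rfl) (by rw [ht]; rfl) (by rw [ht]; rfl) (by rw [ht]; rfl)
    (by rw [ht]; exact FS.jb0) (by rw [ht]; exact fun i hi => ⟨rfl, rfl, rfl⟩)
    (by rw [ht]; exact FS.Cs) (by rw [ht]; exact FS.sy) (by rw [ht]; exact FS.J1)
    (by rw [ht]; exact FS.J2)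
  have O₂ := O₁.sub hB₂
  have hBA₂ : Sub B₂ A' := fun ω hω => hBA₁ ω (hB₂ ω hω)
  have hPA₂ : Pe F.p A' ≤ 8 * K₁ * Pe F.p B₂ := by
    have h1 : Pe F.p B₁ ≤ 4 * Pe F.p B₂ := by linarith
    have := mul_le_mul_of_nonneg_left h1 (show 0 ≤ 2 * K₁ by positivity)
    linarith
  obtain ⟨B₃, hB₃, hPB₃, -, FE⟩ := hQ B₂ c N Nf (a J (ι 0)) (k J) (y J) (e₁' J) (s J) (v J)
    (a J (ιf 0)) (kf J) (Cf * (s₁ J + 1)) (vf J) (eJ J) (fun k => a J (ι k))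
    (fun _ => EJ J) (fun k => a J (ιf k)) (fun _ => EJ J) (fun k => g J (ι k))
    (fun k => g J (ιf k)) (fun k => Gn (ι k)) (fun k => Gn (ιf k)) (fun k => Hn (ι k))
    (fun k => Hn (ιf k)) pP pPf pH pHf xPf xHf hBA₂ hPA₂
    (inc_mono O₂.inc (le_max_left _ _) le_rfl) O.Ns
    (inc_mono (inc_less If hB₂) (le_max_right _ _) le_rfl) (by show Gn _ = Gn _; rw [hιf])
    (fun ω hω => hxc ω (hB₂ ω hω)) (fun ω hω => hxn ω (hB₂ ω hω))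
    (fun ω hω => hgr ω (hB₂ ω hω)) FF
  have hPA₃ : 1 / (32 * K₁) * Pe F.p A' ≤ Pe F.p B₃ := by
    rw [div_mul_eq_mul_div, one_mul, div_le_iff₀ (by positivity)]
    have h1 : Pe F.p B₂ ≤ 4 * Pe F.p B₃ := by linarith
    have := mul_le_mul_of_nonneg_left h1 (show 0 ≤ 8 * K₁ by positivity)
    linarith
  have hOt : UcO F c D' K₀ b N t.W₀ (s J) (v J) (y₀ J) (eJ J) (X J) (fun k => a J (ι k))
      (fun _ => EJ J) (fun k => g J (ι k)) B₃ (fun k => Gn (ι k)) (fun k => Hn (ι k)) pP pH xP xH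
      t.f t.f' t.kf := by
    rw [ht]
    exact O₂.sub hB₃
  have VX : SuX F c B₃ K n N b t := by
    refine sue_tgt hOt (by rw [ht]; rfl) (by rw [ht]; rfl) (by rw [ht]; rfl) (by rw [ht]; rfl)
      (by rw [ht]; rfl) (by rw [ht]; rfl) (by rw [ht]; exact FS.yy) hK₀ hD'K jb
      (fun i hi => ?_) (by rw [ht]; exact FS.ji0) (fun i hi l hl => ?_)
    · rw [ht]
      obtain ⟨h1, h2, -⟩ := FS.jb0 i hi
      exact ⟨h1, h2, rfl, rfl⟩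
    · rw [ht]
      exact FS.nl i hi l hl
  refine ⟨B₃, fun ω hω => hBA₂ ω (hB₃ ω hω), hPA₃, t, fat F c (a J (ι 0)) (k J) (a J (ιf 0)) (kf J)
    (fun k => g J (ιf k)) pPf pHf xPf xHf, ?_, ?_, ⟨_, _, _, _, _, _, _, ht⟩, _, _, _, _, rfl⟩
  · exact
      { iP := VP.iP.sub hB₃
        iF := VX.iF
        hji := VX.hji
        zd := VX.zd
        zp := VX.zp
        zcl := VX.zcl
        val := VX.val
        Pd := VP.Pd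
        Pp := VP.Pp
        Pc := fun ω hω => VP.Pc ω (hB₃ ω hω)
        Pg := fun ω hω => VP.Pg ω (hB₃ ω hω)
        ch := fun i hi => (VP.ch i hi).sub hB₃
        hx0 := fun i hi ω hω => VP.hx0 i hi ω (hB₃ ω hω)
        hx1 := fun i hi ω hω => VP.hx1 i hi ω (hB₃ ω hω)
        hlT := VX.hlT }
  · rw [ht]
    exact FE

end Pool.STA37
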