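import Pool.Agent.H37.STA.Lab
import Pool.Agent.H98.STB.VbW

/-!
# The far chart

`FaT`: the data of a chart of the two first coordinates at an earlier window, `FaE`: the event.
`uj_lab`, `ug_lab`: its labels are admissible.
-/

set_option autoImplicit false

namespace Pool.STA37

open Finset Real MvPolynomial
open Pool.Agent.H49.Ent Pool.Agent.H32.Dense Pool.STK Pool.KA Pool.KSAT Pool.K2S Pool.PB Pool.S6C
open Pool.GEN Pool.CHT Pool.D2F Pool.RCD Pool.GRD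
open Pool.STB (V3 Po Bx Hb cv cl_earlier)
open Pool.STB65 (uni_der InpP PosO Rs Rs_pos st rt_st st_mem crs crs_slam)
open Pool.STB82 (yv hgP lnP tmP lnP_eval hgP_d1 hgP_deg)
open Pool.LA91 (jet ojet qJet qJets qG)
open Pool.PB.Trl (rt rt_mem t_rt)

variable {m J : ℕ}

/-- The data of the far chart. -/
structure FaT (F : Fam m J) where
  W : ℕ
  d : ℕ
  k : ℕ
  g : ℕ
  Pv : PtT F → MvPolynomial (Option (Fin m)) ℝ
  Pl : LnT F → MvPolynomial (Option (Fin m)) ℝ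
  yt : PtT F → V3
  xP : PtT F → ℝ
  xH : LnT F → ℝ

/-- **The event of the far chart**: `W₀`, `g1`, `Pl₀` the near chart. -/
structure FaE (F : Fam m J) (c : ℕ → Fin m) (B : F.Ω → Prop) (K y e₁' W₀ g1 : ℕ)
    (Pl₀ : LnT F → MvPolynomial (Option (Fin m)) ℝ) (f : FaT F) : Prop where
  iP : InpP F B f.W f.d f.k 1 (K + 1) (2 ^ y) (yv F c f.W f.g f.Pl) f.yt (hgP c f.W f.g f.Pl)
  Pd : ∀ y, (f.Pv y).totalDegree ≤ K
  Pp : ∀ y, DepC c 1 (f.Pv y)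
  Pc : ∀ ω, B ω → f.Pv (ptr F J ω) = f.Pl (slam F f.W ω)
  Pg : ∀ ω, B ω → ∀ b : Option (Fin m) → ℝ, b none = F.t ω →
    |b (some (c 0)) - F.x ω (c 0)| ≤ 1 / 2 ^ J →
    |eval b (pderiv (some (c 0)) (f.Pv (ptr F J ω)))| ≤ 2 ^ e₁'
  xc : ∀ ω, B ω → f.xP (ptr F J ω) = f.xH (slam F f.W ω)
  xn : ∀ ω, B ω → |F.x ω (c 0) - f.xP (ptr F J ω)| ≤ 2 ^ y / 2 ^ f.W
  pn : ∀ ω, B ω → |F.x ω (c 1) - eval (bt F ω) (f.Pv (ptr F J ω))| ≤ 2 ^ y / 2 ^ f.g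
  osc : ∀ ω, B ω → ∀ b : Option (Fin m) → ℝ, |b none - F.t ω| ≤ 1 / 2 ^ W₀ →
    |b (some (c 0)) - F.x ω (c 0)| ≤ 1 / 2 ^ W₀ →
    2 ^ g1 * |eval b (Pl₀ (slam F W₀ ω) - f.Pl (slam F f.W ω)) -
      eval (bt F ω) (Pl₀ (slam F W₀ ω) - f.Pl (slam F f.W ω))| ≤ 2 ^ y

theorem FaE.sub {F : Fam m J} {c : ℕ → Fin m} {B B' : F.Ω → Prop} {K y e₁' W₀ g1 : ℕ}
    {Pl₀ : LnT F → MvPolynomial (Option (Fin m)) ℝ} {f : FaT F} (h : FaE F c B K y e₁' W₀ g1 Pl₀ f)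
    (hB : Sub B' B) : FaE F c B' K y e₁' W₀ g1 Pl₀ f :=
  ⟨h.iP.sub hB, h.Pd, h.Pp, fun ω hω => h.Pc ω (hB ω hω), fun ω hω => h.Pg ω (hB ω hω),
    fun ω hω => h.xc ω (hB ω hω), fun ω hω => h.xn ω (hB ω hω), fun ω hω => h.pn ω (hB ω hω),
    fun ω hω => h.osc ω (hB ω hω)⟩

theorem depC_img {c : ℕ → Fin m} {i : ℕ} {P : MvPolynomial (Option (Fin m)) ℝ}
    (h : DepC c i P) : ∀ b b' : Option (Fin m) → ℝ, b none = b' none →
      (∀ l ∈ (range i).image c, b (some l) = b' (some l)) → eval b P = eval b' P :=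
  fun b b' hn hb => h b b' hn fun l hl => hb _ (mem_image_of_mem _ (mem_range.2 hl))

/-- **The jets of the two first coordinates** at the window of the positions are admissible. -/
theorem uj_lab {F : Fam m J} {c : ℕ → Fin m} {B : F.Ω → Prop} {K y e₁' W₀ g1 Kf : ℕ}
    {Pl₀ : LnT F → MvPolynomial (Option (Fin m)) ℝ} {f : FaT F} {σ' Kp t e : ℝ} {pf : ℕ → ℝ}
    {N : ℕ → ℕ → ℝ} {ctr xo : ℕ → F.Ω → V3} {D₁ : LnT F → V3} (hJ : 1 ≤ J)
    (E : FaE F c B K y e₁' W₀ g1 Pl₀ f)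
    (O : PosO F B f.W f.d f.k 1 σ' Kp (yv F c f.W f.g f.Pl) (hgP c f.W f.g f.Pl) ctr xo D₁)
    (ht : ⌊t * J⌋₊ = f.W + f.d) (hWJ : f.W + f.d ≤ J) (hσ : 0 < σ') (hy : y ≤ J)
    (hKf : K ≤ Kf) (hKf5 : 5 ≤ Kf) (hN : ∀ l < 2, ∀ j ≤ 1, N l j ≤ 1)
    (p0 : σ' / 2 ^ (f.W + f.d) ≤ 1 / 2 ^ ⌊(pf 0 - e) * J⌋₊)
    (p1 : σ' / 2 ^ (f.g + f.d) ≤ 1 / 2 ^ ⌊(pf 1 - e) * J⌋₊)
    (hd0 : ∀ ω, B ω → |F.d ω (c 0)| ≤ 1) :
    (qJets m c 0 2 1 (fun _ _ => t) (fun l _ => pf l) N).P Kf e J F B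
      (uj F c f.W f.g f.Pl (ctr 0) N) := by
  have hpw : ∀ a : ℕ, (1 : ℝ) ≤ 2 ^ a := fun a => one_le_pow₀ one_le_two
  have hR : Rs f.d f.k σ' 0 = 2 ^ f.d / σ' := by
    unfold Rs
    rw [Nat.zero_mul, Nat.add_zero]
  have hq : ∀ ω, B ω → ∀ j, |yv F c f.W f.g f.Pl ω j - ctr 0 ω j| ≤ σ' / 2 ^ f.d := by
    intro ω hω j
    have h1 := O.q1 0 one_pos ω hω j
    rw [Pi.smul_apply, smul_eq_mul, Pi.sub_apply, hR, abs_mul,
      abs_of_pos (by positivity : (0 : ℝ) < 2 ^ f.d / σ')] at h1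
    rw [le_div_iff₀ (by positivity)]
    rw [div_mul_eq_mul_div, div_le_iff₀ hσ] at h1
    nlinarith
  have cW : ∀ ω, B ω → f.Pv (ptr F J ω) = f.Pl (slam F f.W ω) := E.Pc
  have cP : Cl2 (slam F (f.W + f.d)) (fun ω => ptr F J ω) B (fun ω => f.Pv (ptr F J ω)) :=
    cl_earlier (Nat.le_add_right _ _) hWJ cW
  have cC : Cl2 (slam F (f.W + f.d)) (fun ω => ptr F J ω) B (ctr 0) := by
    have := O.cc 0 one_pos
    rwa [Nat.zero_mul, Nat.add_zero] at this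
  have cl : ∀ l, Cl2 (slam F ⌊t * J⌋₊) (fun ω => ptr F J ω) B
      (fun ω => lb f.W f.g (ctr 0 ω) (f.Pl (slam F f.W ω)) l) := by
    intro l
    rw [ht]
    refine ((cC.join cP).comp (fun a => lb f.W f.g a.1 a.2 l)).congr fun ω hω => ?_
    show _ = lb f.W f.g (ctr 0 ω) (f.Pv (ptr F J ω)) l
    rw [cW ω hω]
  have hdl : ∀ l, ∀ ω, B ω → (lb f.W f.g (ctr 0 ω) (f.Pl (slam F f.W ω)) l).totalDegree ≤ Kf := by
    intro l ω hω
    unfold lb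
    split_ifs
    · rw [totalDegree_C]
      exact Nat.zero_le _
    · refine (totalDegree_add _ _).trans (max_le ?_ ?_)
      · rw [← cW ω hω]
        exact (E.Pd _).trans hKf
      · rw [totalDegree_C]
        exact Nat.zero_le _
  have hdep : ∀ l < 2, ∀ ω, B ω → DepC c l (lb f.W f.g (ctr 0 ω) (f.Pl (slam F f.W ω)) l) := by
    intro l hl ω hω b b' hn hb
    unfold lb
    split_ifs with h0
    · rw [eval_C, eval_C]
    · have h1 : l = 1 := by omega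
      subst h1
      rw [map_add, map_add, eval_C, eval_C, ← cW ω hω, E.Pp _ b b' hn hb]
  have hval0 : ∀ ω, B ω → |ojet F (c 0) 0 (lb f.W f.g (ctr 0 ω) (f.Pl (slam F f.W ω)) 0) ω| ≤
      1 / 2 ^ ⌊(pf 0 - e) * J⌋₊ := by
    intro ω hω
    rw [oj00, abs_div, abs_of_pos (by positivity : (0 : ℝ) < 2 ^ f.W)]
    refine (div_le_div_of_nonneg_right (hq ω hω 1) (by positivity)).trans ?_
    rw [div_div, ← pow_add, add_comm f.d]
    exact p0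
  have hval1 : ∀ ω, B ω → |ojet F (c 1) 0 (lb f.W f.g (ctr 0 ω) (f.Pl (slam F f.W ω)) 1) ω| ≤
      1 / 2 ^ ⌊(pf 1 - e) * J⌋₊ := by
    intro ω hω
    rw [oj10, abs_div, abs_of_pos (by positivity : (0 : ℝ) < 2 ^ f.g)]
    refine (div_le_div_of_nonneg_right (hq ω hω 2) (by positivity)).trans ?_
    rw [div_div, ← pow_add, add_comm f.d]
    exact p1
  have hpos : ∀ l < 2, ∀ ω, B ω → |F.x ω (c l) -
      eval (bt F ω) (lb f.W f.g (ctr 0 ω) (f.Pl (slam F f.W ω)) l)| ≤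
      1 / 2 ^ ⌊(pf l - e) * J⌋₊ := by
    intro l hl ω hω
    have e1 : F.x ω (c l) - eval (bt F ω) (lb f.W f.g (ctr 0 ω) (f.Pl (slam F f.W ω)) l) =
        ojet F (c l) 0 (lb f.W f.g (ctr 0 ω) (f.Pl (slam F f.W ω)) l) ω := by
      rw [ojet_zero']
    rw [e1]
    rcases (show l = 0 ∨ l = 1 by omega) with rfl | rfl
    · exact hval0 ω hω
    · exact hval1 ω hω
  have hinv : ∀ a : ℕ, 1 / (2 : ℝ) ^ a ≤ 1 := fun a => by
    rw [div_le_one (by positivity)]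
    exact hpw a
  have hbig : ∀ l < 2, ∀ j ≤ 1, ∀ ω, B ω →
      |ojet F (c l) j (lb f.W f.g (ctr 0 ω) (f.Pl (slam F f.W ω)) l) ω| ≤ 2 ^ (2 * J) := by
    intro l hl j hj ω hω
    have h2 : (1 : ℝ) ≤ 2 ^ (2 * J) := hpw _
    rcases (show l = 0 ∨ l = 1 by omega) with rfl | rfl
    · rcases (show j = 0 ∨ j = 1 by omega) with rfl | rfl
      · exact (hval0 ω hω).trans ((hinv _).trans h2)
      · rw [oj01]
        exact (hd0 ω hω).trans h2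
    · rcases (show j = 0 ∨ j = 1 by omega) with rfl | rfl
      · exact (hval1 ω hω).trans ((hinv _).trans h2)
      · rw [oj11 F c (show f.W ≤ J by omega), abs_mul,
          abs_of_pos (by positivity : (0 : ℝ) < 2 ^ f.W / 2 ^ f.g)]
        have h3 := E.iP.vel ω hω 2 (rt F f.W ω) (rt_mem F f.W ω)
        have h4 : (2 : ℝ) ^ f.W / 2 ^ f.g ≤ 2 ^ J := by
          rw [div_le_iff₀ (by positivity)]
          calc (2 : ℝ) ^ f.W ≤ 2 ^ J * 1 := by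
                rw [mul_one]
                exact pow_le_pow_right₀ one_le_two (by omega)
            _ ≤ 2 ^ J * 2 ^ f.g := mul_le_mul_of_nonneg_left (hpw _) (by positivity)
        have h5 : (2 : ℝ) ^ y ≤ 2 ^ J := pow_le_pow_right₀ one_le_two hy
        calc _ ≤ (2 : ℝ) ^ J * 2 ^ J := mul_le_mul h4 (h3.trans h5) (abs_nonneg _) (by positivity)
          _ = 2 ^ (2 * J) := by rw [← pow_add, two_mul]
  refine ⟨fun i _ hi j hj => ?_, fun ω _ i j hij => ?_⟩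
  · have h1 := qjet_of (F := F) (I := (range i).image c) (k := c i) (j := j) (K := Kf) (n := 2)
      (w := t) (p := pf i) (N := N i j) (e := e) (A := B)
      (g := fun ω => lb f.W f.g (ctr 0 ω) (f.Pl (slam F f.W ω)) i) hJ (hN i hi j hj) (cl i)
      (hdl i) (fun ω hω => depC_img (hdep i hi ω hω)) (hpos i hi) (hbig i hi j hj) (by omega)
    have e1 : (fun ω => uj F c f.W f.g f.Pl (ctr 0) N ω i j) = fun ω =>
        ⌊(2 : ℝ) ^ (N i j * J) * ojet F (c i) j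
          (lb f.W f.g (ctr 0 ω) (f.Pl (slam F f.W ω)) i) ω⌋ := by
      funext ω
      unfold uj
      rw [if_pos ⟨hi, hj⟩]
    rw [e1]
    exact h1
  · unfold uj
    rw [if_neg fun h => hij ⟨Nat.zero_le _, h.1, h.2⟩]

/-- The closed polynomials of the far chart. -/
noncomputable def gl {F : Fam m J} (f : FaT F) (ω : F.Ω) (i : ℕ) :
    MvPolynomial (Option (Fin m)) ℝ :=
  if i = 0 then C (f.xP (ptr F J ω)) else f.Pl (slam F f.W ω)

/-- The labels of the velocities of the two first coordinates. -/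
noncomputable def ul {F : Fam m J} (c : ℕ → Fin m) (f : FaT F) (P : Fin 2 → ℝ) (ω : F.Ω)
    (i : Fin 2) : ℤ := ⌊(2 : ℝ) ^ (P i * J) * ojet F (c i) 1 (gl f ω i) ω⌋

theorem fl_near {s a b : ℝ} (hs : 0 < s) (h : ⌊s * a⌋ = ⌊s * b⌋) : |a - b| ≤ 1 / s := by
  have a1 := Int.floor_le (s * a)
  have a2 := Int.lt_floor_add_one (s * a)
  have b1 := Int.floor_le (s * b)
  have b2 := Int.lt_floor_add_one (s * b)
  have e2 : ((⌊s * a⌋ : ℤ) : ℝ) = (⌊s * b⌋ : ℤ) := by rw [h]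
  have h3 : |s * (a - b)| ≤ 1 := by
    rw [mul_sub, abs_le]
    constructor <;> linarith
  rw [abs_mul, abs_of_pos hs] at h3
  rw [le_div_iff₀ hs, mul_comm]
  exact h3

theorem ul_eq {F : Fam m J} {c : ℕ → Fin m} {f : FaT F} {P : Fin 2 → ℝ} {ω ω' : F.Ω}
    (h : ul c f P ω = ul c f P ω') :
    |F.d ω (c 0) - F.d ω' (c 0)| ≤ 1 / (2 : ℝ) ^ (P 0 * J) ∧
      |ojet F (c 1) 1 (f.Pl (slam F f.W ω)) ω - ojet F (c 1) 1 (f.Pl (slam F f.W ω')) ω'| ≤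
        1 / (2 : ℝ) ^ (P 1 * J) := by
  have hpw : ∀ x : ℝ, (0 : ℝ) < (2 : ℝ) ^ (x * J) := fun x => Real.rpow_pos_of_pos two_pos _
  constructor
  · have h1 : ⌊(2 : ℝ) ^ (P 0 * J) * ojet F (c 0) 1 (C (f.xP (ptr F J ω))) ω⌋ =
        ⌊(2 : ℝ) ^ (P 0 * J) * ojet F (c 0) 1 (C (f.xP (ptr F J ω'))) ω'⌋ := congrFun h 0
    have e : ∀ (υ : F.Ω) (a : ℝ), ojet F (c 0) 1 (C a) υ = F.d υ (c 0) := fun υ a => by
      show jet 1 (X (some (c 0)) - C a) (bt F υ) (bd F υ) = _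
      rw [jet1_C, jet1_X]
      rfl
    rw [e, e] at h1
    exact fl_near (hpw _) h1
  · have h1 : ⌊(2 : ℝ) ^ (P 1 * J) * ojet F (c 1) 1 (f.Pl (slam F f.W ω)) ω⌋ =
        ⌊(2 : ℝ) ^ (P 1 * J) * ojet F (c 1) 1 (f.Pl (slam F f.W ω')) ω'⌋ := congrFun h 1
    exact fl_near (hpw _) h1

/-- **The labels of the velocities are admissible.** -/
theorem ug_lab {F : Fam m J} {c : ℕ → Fin m} {B : F.Ω → Prop} {K y e₁' W₀ g1 Kf : ℕ}
    {Pl₀ : LnT F → MvPolynomial (Option (Fin m)) ℝ} {f : FaT F} {sn : ℕ → ℝ → ℝ} {b e : ℝ}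
    {P : Fin 2 → ℝ} (hJ : 1 ≤ J) (E : FaE F c B K y e₁' W₀ g1 Pl₀ f) (ht : ⌊b * J⌋₊ = f.W)
    (hWJ : f.W ≤ J) (hy : y ≤ J) (hKf : K ≤ Kf) (hKf5 : 5 ≤ Kf) (hN : ∀ i, P i ≤ 1)
    (p0 : 2 ^ y / 2 ^ f.W ≤ (1 : ℝ) / 2 ^ ⌊(sn 0 b - e) * J⌋₊)
    (p1 : 2 ^ y / 2 ^ f.g ≤ (1 : ℝ) / 2 ^ ⌊(sn 1 b - e) * J⌋₊)
    (hd0 : ∀ ω, B ω → |F.d ω (c 0)| ≤ 1) :
    (qG m c 2 sn b P).P Kf e J F B (ul c f P) := by
  have hpw : ∀ a : ℕ, (1 : ℝ) ≤ 2 ^ a := fun a => one_le_pow₀ one_le_two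
  have h2 : (1 : ℝ) ≤ 2 ^ (2 * J) := hpw _
  intro i
  fin_cases i
  · show (qJet m ((range 0).image c) (c 0) 1 b (sn 0 b) (P 0)).P Kf e J F B (fun ω =>
      ⌊(2 : ℝ) ^ (P 0 * J) * ojet F (c 0) 1 (C (f.xP (ptr F J ω))) ω⌋)
    refine qjet_of (n := 2) hJ (hN 0) ?_ ?_ ?_ ?_ ?_ (by omega)
    · rw [ht]
      exact (cl_earlier le_rfl hWJ E.xc).comp (fun a => C a)
    · intro ω _
      rw [totalDegree_C]
      exact Nat.zero_le _
    · intro ω _ b b' _ _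
      rw [eval_C, eval_C]
    · intro ω hω
      rw [eval_C]
      exact (E.xn ω hω).trans p0
    · intro ω hω
      have e : ojet F (c 0) 1 (C (f.xP (ptr F J ω))) ω = F.d ω (c 0) := by
        show jet 1 (X (some (c 0)) - C _) (bt F ω) (bd F ω) = _
        rw [jet1_C, jet1_X]
        rfl
      rw [e]
      exact (hd0 ω hω).trans h2
  · show (qJet m ((range 1).image c) (c 1) 1 b (sn 1 b) (P 1)).P Kf e J F B (fun ω =>
      ⌊(2 : ℝ) ^ (P 1 * J) * ojet F (c 1) 1 (f.Pl (slam F f.W ω)) ω⌋)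
    refine qjet_of (n := 2) hJ (hN 1) ?_ ?_ ?_ ?_ ?_ (by omega)
    · rw [ht]
      exact (cl_earlier le_rfl hWJ E.Pc).congr fun ω hω => (E.Pc ω hω).symm
    · intro ω hω
      rw [← E.Pc ω hω]
      exact (E.Pd _).trans hKf
    · intro ω hω
      rw [← E.Pc ω hω]
      exact depC_img (E.Pp _)
    · intro ω hω
      rw [← E.Pc ω hω]
      exact (E.pn ω hω).trans p1
    · intro ω hω
      have e1 : ojet F (c 1) 1 (f.Pl (slam F f.W ω)) ω = 2 ^ f.W / 2 ^ f.g *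
          (Polynomial.derivative (hgP c f.W f.g f.Pl (slam F f.W ω) 2)).eval (rt F f.W ω) := by
        rw [← oj11 F c hWJ f.g f.Pl 0 ω]
        show jet 1 (X (some (c 1)) - f.Pl (slam F f.W ω)) (bt F ω) (bd F ω) =
          jet 1 (X (some (c 1)) - (f.Pl (slam F f.W ω) + C (_ / 2 ^ f.g))) (bt F ω) (bd F ω)
        rw [← sub_sub, jet1_C]
      rw [e1, abs_mul, abs_of_pos (by positivity : (0 : ℝ) < 2 ^ f.W / 2 ^ f.g)]
      have h3 := E.iP.vel ω hω 2 (rt F f.W ω) (rt_mem F f.W ω)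
      have h4 : (2 : ℝ) ^ f.W / 2 ^ f.g ≤ 2 ^ J := by
        rw [div_le_iff₀ (by positivity)]
        calc (2 : ℝ) ^ f.W ≤ 2 ^ J * 1 := by
              rw [mul_one]
              exact pow_le_pow_right₀ one_le_two hWJ
          _ ≤ 2 ^ J * 2 ^ f.g := mul_le_mul_of_nonneg_left (hpw _) (by positivity)
      have h5 : (2 : ℝ) ^ y ≤ 2 ^ J := pow_le_pow_right₀ one_le_two hy
      calc _ ≤ (2 : ℝ) ^ J * 2 ^ J := mul_le_mul h4 (h3.trans h5) (abs_nonneg _) (by positivity)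
        _ = 2 ^ (2 * J) := by rw [← pow_add, two_mul]

end Pool.STA37
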