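import Pool.Agent.H32.Dense.Split
import Pool.Agent.H32.Dense.Pair
import Pool.Agent.H32.Dense.EntX
import Pool.Agent.H98.STB.Pass

/-!
# Far digits are taken out of the context

`time_out`: the exact time is removed from the context. `far_out`: a function of a record and of
free data does not become less random, given the first digits of the position, if the time and far
digits of the position are added, when the position is full for the record.
-/

set_option autoImplicit false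

namespace Pool.STA37

open Finset Real
open Pool.Agent.H49.Ent Pool.Agent.H32.Dense Pool.STK

section

variable {Ω : Type} [Fintype Ω] {p : Ω → ℝ}

/-- **The exact time is removed from the context.** -/
theorem time_out (hp : IsLaw p) {SA SC SS ST : Type} (A : Ω → SA) (C : Ω → SC) (S : Ω → SS)
    (T : Ω → ST) (hC : Det p S C) {R δ δ₂ c₀ : ℝ} (h1 : R - δ ≤ CH p T S)
    (h2 : CH p T C ≤ R + δ₂) (h3 : CH p A S ≤ c₀) :
    CH p A C ≤ CH p A (fun ω => (T ω, C ω)) + (δ + δ₂ + c₀) := by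
  have h0 := hp.nonneg
  have a1 := CH_bayes h0 A T C
  have a2 : CH p T (fun ω => (A ω, S ω)) ≤ CH p T (fun ω => (A ω, C ω)) :=
    CH_mono_cond h0 fun ω ω' a b e => by
      simp only [Prod.mk.injEq] at e ⊢
      exact ⟨e.1, hC ω ω' a b e.2⟩
  have a3 := CH_le_add h0 T A S
  linarith

/-- **Far digits are taken out of the context.** `zA` is the record, `zB` a later record, `C` the
context (the first digits of the position and the first record), `D` the data of the line, free of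
`zB` given `zA`; `X` the exact position, `Xf` its far digits. -/
theorem far_out (hp : IsLaw p) {SV SD ST SC SX SF SA SB : Type} (vel : Ω → SV) (D : Ω → SD)
    (T : Ω → ST) (C : Ω → SC) (X : Ω → SX) (Xf : Ω → SF) (zA : Ω → SA) (zB : Ω → SB)
    (hBA : Det p zB zA) (hBf : Det p zB Xf) (hAC : Det p zA C)
    {lT lA lB a1 a2 a3 a4 a5 a6 a7 a8 κ : ℝ}
    (hvel : CH p vel (fun ω => (zA ω, D ω)) ≤ a7)
    (t1 : CH p T C ≤ lT + a1) (t2 : lT - a2 ≤ CH p T (fun ω => (zA ω, D ω)))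
    (x1 : CH p X (fun ω => (T ω, C ω)) ≤ lA + a3)
    (x2 : lB - a4 ≤ CH p X (fun ω => (zB ω, T ω)))
    (x3 : lA - a5 ≤ CH p X (fun ω => (zA ω, T ω)))
    (x4 : CH p X (fun ω => (T ω, (Xf ω, C ω))) ≤ lB + a6)
    (x5 : CH p Xf (fun ω => (X ω, (T ω, C ω))) ≤ a8)
    (fr : CH p D (fun ω => (zA ω, T ω)) ≤ CH p D (fun ω => (zB ω, T ω)) + κ) :
    CH p vel (fun ω => (D ω, C ω)) ≤ CH p vel (fun ω => (Xf ω, (T ω, (D ω, C ω)))) +
      (a1 + a2 + a3 + a4 + a5 + a6 + 2 * a7 + a8 + κ) := by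
  have h0 := hp.nonneg
  -- the time
  have s1 : CH p vel (fun ω => (D ω, C ω)) ≤ CH p vel (fun ω => (T ω, (D ω, C ω))) +
      (a2 + a1 + a7) := by
    refine time_out hp vel (fun ω => (D ω, C ω)) (fun ω => (zA ω, D ω)) T ?_ t2
      (le_trans (CH_mono_cond h0 ?_) t1) hvel
    · intro ω ω' a b e
      simp only [Prod.mk.injEq] at e ⊢
      exact ⟨e.2, hAC ω ω' a b e.1⟩
    · intro ω ω' a b e
      exact (Prod.ext_iff.mp e).2
  -- the far digits given the context: an upper bound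
  have u1 : CH p Xf (fun ω => (T ω, (D ω, C ω))) ≤ (lA - lB) + (a3 + a4 + a8) := by
    have b1 : CH p Xf (fun ω => (T ω, (D ω, C ω))) ≤ CH p Xf (fun ω => (T ω, C ω)) :=
      CH_mono_cond h0 fun ω ω' a b e => by
        simp only [Prod.mk.injEq] at e ⊢
        exact ⟨e.1, e.2.2⟩
    have b2 := CH_chain h0 Xf X (fun ω => (T ω, C ω))
    have b3 := CH_chain h0 X Xf (fun ω => (T ω, C ω))
    have b4 : CH p (fun ω => (Xf ω, X ω)) (fun ω => (T ω, C ω)) =
        CH p (fun ω => (X ω, Xf ω)) (fun ω => (T ω, C ω)) := by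
      refine CH_congr h0 ?_ ?_ ?_ ?_ <;>
      · intro ω ω' _ _ e
        simp only [Prod.mk.injEq] at e ⊢
        tauto
    have b5 : CH p X (fun ω => (zB ω, T ω)) ≤ CH p X (fun ω => (Xf ω, (T ω, C ω))) :=
      CH_mono_cond h0 fun ω ω' a b e => by
        simp only [Prod.mk.injEq] at e ⊢
        exact ⟨hBf ω ω' a b e.1, e.2, hAC ω ω' a b (hBA ω ω' a b e.1)⟩
    linarith
  -- a lower bound
  have u2 : (lA - lB) - (a5 + a6 + κ) ≤ CH p Xf (fun ω => (T ω, (zA ω, D ω))) := by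
    have b1 := CH_bayes h0 Xf D (fun ω => (zA ω, T ω))
    have b2 : CH p D (fun ω => (zB ω, T ω)) ≤ CH p D (fun ω => (Xf ω, (zA ω, T ω))) :=
      CH_mono_cond h0 fun ω ω' a b e => by
        simp only [Prod.mk.injEq] at e ⊢
        exact ⟨hBf ω ω' a b e.1, hBA ω ω' a b e.1, e.2⟩
    have b3 : CH p Xf (fun ω => (D ω, (zA ω, T ω))) ≤ CH p Xf (fun ω => (T ω, (zA ω, D ω))) :=
      CH_mono_cond h0 fun ω ω' a b e => by
        simp only [Prod.mk.injEq] at e ⊢
        exact ⟨e.2.2, e.2.1, e.1⟩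
    have b4 := CH_le_add h0 X Xf (fun ω => (zA ω, T ω))
    have b5 : CH p X (fun ω => (Xf ω, (zA ω, T ω))) ≤ CH p X (fun ω => (T ω, (Xf ω, C ω))) :=
      CH_mono_cond h0 fun ω ω' a b e => by
        simp only [Prod.mk.injEq] at e ⊢
        exact ⟨e.2.2, e.1, hAC ω ω' a b e.2.1⟩
    linarith
  have s2 : CH p vel (fun ω => (T ω, (D ω, C ω))) ≤
      CH p vel (fun ω => (Xf ω, (T ω, (D ω, C ω)))) + ((a5 + a6 + κ) + (a3 + a4 + a8) + a7) := by
    refine time_out hp vel (fun ω => (T ω, (D ω, C ω))) (fun ω => (T ω, (zA ω, D ω))) Xf ?_ u2 u1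
      (le_trans (CH_mono_cond h0 ?_) hvel)
    · intro ω ω' a b e
      simp only [Prod.mk.injEq] at e ⊢
      exact ⟨e.1, e.2.2, hAC ω ω' a b e.2.1⟩
    · intro ω ω' a b e
      exact (Prod.ext_iff.mp e).2
  linarith

/-- **Free data**: what is few bits given free data is free. -/
theorem free_tr (hp : IsLaw p) {SU SD SY SZ SW : Type} (u : Ω → SU) (D : Ω → SD) (y : Ω → SY)
    (z : Ω → SZ) (W : Ω → SW) (hzy : Det p z y) {κ f : ℝ}
    (fr : CH p u (fun ω => (y ω, W ω)) ≤ CH p u (fun ω => (z ω, W ω)) + κ)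
    (fw : CH p D (fun ω => (u ω, (y ω, W ω))) ≤ f) :
    CH p D (fun ω => (y ω, W ω)) ≤ CH p D (fun ω => (z ω, W ω)) + (κ + f) := by
  have h0 := hp.nonneg
  have a1 := CH_bayes h0 D u (fun ω => (y ω, W ω))
  have a2 := CH_bayes h0 D u (fun ω => (z ω, W ω))
  have a3 : CH p u (fun ω => (D ω, (z ω, W ω))) ≤ CH p u (fun ω => (D ω, (y ω, W ω))) :=
    CH_mono_cond h0 fun ω ω' a b e => by
      simp only [Prod.mk.injEq] at e ⊢
      exact ⟨e.1, hzy ω ω' a b e.2.1, e.2.2⟩
  have a4 : 0 ≤ CH p D (fun ω => (u ω, (z ω, W ω))) := CH_nonneg h0 _ _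
  linarith

/-- **Free data without the time.** -/
theorem free_time (hp : IsLaw p) {SD SY SZ SW : Type} (D : Ω → SD) (y : Ω → SY)
    (z : Ω → SZ) (W : Ω → SW) {κ l a b : ℝ}
    (fr : CH p D (fun ω => (y ω, W ω)) ≤ CH p D (fun ω => (z ω, W ω)) + κ)
    (t1 : CH p W y ≤ l + a) (t2 : l - b ≤ CH p W (fun ω => (D ω, y ω))) :
    CH p D y - (κ + a + b) ≤ CH p D z := by
  have h0 := hp.nonneg
  have a1 := CH_bayes h0 D W y
  have a2 : CH p D (fun ω => (z ω, W ω)) ≤ CH p D z := CH_mono_cond h0 fun ω ω' _ _ e =>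
    (Prod.ext_iff.mp e).1
  have a3 : CH p D (fun ω => (W ω, y ω)) = CH p D (fun ω => (y ω, W ω)) := by
    refine CH_congr h0 ?_ ?_ ?_ ?_ <;>
    · intro ω ω' _ _ e
      simp only [Prod.mk.injEq] at e ⊢
      tauto
  linarith

end

end Pool.STA37
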