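import Pool.Agent.H37.STA.Dfx
import Pool.Agent.H98.STB.Pass

/-!
# The data of the line are few bits

`cnt_grd`: vectors of the grid. `d1_few`: the velocity in the near chart given the one in the far
chart and the closed record. `d1f_few`: the velocity in the far chart given the labels of the
velocities of the two first coordinates.
-/

set_option autoImplicit false

namespace Pool.STA37

open Finset Real MvPolynomial
open Pool.Agent.H49.Ent Pool.Agent.H32.Dense Pool.STK Pool.KA Pool.KSAT Pool.K2S Pool.PB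
open Pool.GEN Pool.CHT Pool.D2F
open Pool.STB (V3 Po Bx Hb cv)
open Pool.STB65 (uni_der InpP PosO Rs Rs_pos st rt_st st_mem crs crs_slam)
open Pool.STB82 (yv hgP lnP tmP lnP_eval hgP_d1 hgP_deg)
open Pool.LA91 (jet ojet eval_alp jet_sub)
open Pool.PB.Trl (rt rt_mem t_rt)

section

variable {Ω : Type} [Fintype Ω] {q : Ω → ℝ}

/-- Vectors of the grid which differ by a few units. -/
theorem cnt_grd (hq : IsLaw q) (k : ℕ) (D : Ω → V3) (hD : ∀ ω, D ω ∈ Pool.STB65.grd k) {SC : Type}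
    (C : Ω → SC) {N : ℝ} (hN : 0 ≤ N)
    (h : ∀ ω ω', 0 < q ω → 0 < q ω' → C ω = C ω' → ∀ j, |D ω j - D ω' j| ≤ N / 2 ^ k) :
    CH q D C ≤ 3 * Real.log (N + 1) := by
  have hn := hq.nonneg
  have hk : (0 : ℝ) < 2 ^ k := by positivity
  have hz : ∀ ω, ∃ z : Fin 3 → ℤ, D ω = fun j => (z j : ℝ) / 2 ^ k := by
    intro ω
    have h1 := hD ω
    unfold Pool.STB65.grd at h1
    rw [Finset.mem_image] at h1
    obtain ⟨z, -, hz⟩ := h1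
    exact ⟨z, hz.symm⟩
  choose z hz using hz
  have h1 : CH q D C ≤ CH q (fun ω => (z ω 0, (z ω 1, z ω 2))) C :=
    CH_mono_left hn fun ω ω' _ _ e => by
      simp only [Prod.mk.injEq] at e
      rw [hz ω, hz ω']
      funext j
      fin_cases j
      · show (z ω 0 : ℝ) / 2 ^ k = (z ω' 0 : ℝ) / 2 ^ k
        rw [e.1.1]
      · show (z ω 1 : ℝ) / 2 ^ k = (z ω' 1 : ℝ) / 2 ^ k
        rw [e.1.2.1]
      · show (z ω 2 : ℝ) / 2 ^ k = (z ω' 2 : ℝ) / 2 ^ k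
        rw [e.1.2.2]
  have h2 : ∀ j, CH q (fun ω => z ω j) C ≤ Real.log (N + 1) := fun j => by
    refine Pool.STB.cnt_int hq (fun ω => z ω j) C hN fun ω ω' a b e => ?_
    have h3 := h ω ω' a b e j
    rw [hz ω, hz ω'] at h3
    rw [← sub_div, abs_div, abs_of_pos hk, div_le_div_iff_of_pos_right hk] at h3
    exact h3
  have h3 := CH_subadd hn (fun ω => z ω 0) (fun ω => (z ω 1, z ω 2)) C
  have h4 := CH_subadd hn (fun ω => z ω 1) (fun ω => z ω 2) C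
  linarith [h2 0, h2 1, h2 2]

end

variable {m J : ℕ}

/-- **The velocity in the near chart** is few bits. -/
theorem d1_few (K : ℕ) : ∃ A : ℝ, 1 ≤ A ∧ ∀ {m J : ℕ} {F : Fam m J} {c : ℕ → Fin m}
    {B : F.Ω → Prop} {W₀ d k g₁ W₁ d₁ k₁ g₁' : ℕ} {σ σ' M ρ N : ℝ}
    {Pl Pl' : LnT F → MvPolynomial (Option (Fin m)) ℝ} {D₁ D₁' : LnT F → V3} {q : F.Ω → ℝ}
    {Y₀ : Type} {y₀ : F.Ω → Y₀}, IsLaw q → (∀ ω, 0 < q ω → B ω) →
    W₀ + d = W₁ + d₁ → W₀ + d ≤ J → 0 < σ → 0 < σ' → 0 ≤ ρ → 0 ≤ M →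
    (2 : ℝ) ^ g₁ / 2 ^ W₀ = ρ * (2 ^ g₁' / 2 ^ W₁) →
    (∀ ω, B ω → (Pl (slam F W₀ ω) - Pl' (slam F W₁ ω)).totalDegree ≤ K) →
    (∀ ω, B ω → DepC c 1 (Pl (slam F W₀ ω) - Pl' (slam F W₁ ω))) →
    (∀ ω, B ω → ∀ b : Option (Fin m) → ℝ, |b none - F.t ω| ≤ 1 / 2 ^ W₀ →
      |b (some (c 0)) - F.x ω (c 0)| ≤ 1 / 2 ^ W₀ →
      2 ^ g₁ * |eval b (Pl (slam F W₀ ω) - Pl' (slam F W₁ ω)) -
        eval (bt F ω) (Pl (slam F W₀ ω) - Pl' (slam F W₁ ω))| ≤ M) →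
    (∀ s, D₁ s ∈ Pool.STB65.grd k) →
    (∀ ω, B ω → ∀ j, |D₁ (slam F (W₀ + d) ω) j - (1 / σ) *
      (Polynomial.derivative (hgP c W₀ g₁ Pl (slam F W₀ ω) j)).eval
        (st d (slam F (W₀ + d) ω))| ≤ 1 / 2 ^ k) →
    (∀ ω, B ω → ∀ j, |D₁' (slam F (W₁ + d₁) ω) j - (1 / σ') *
      (Polynomial.derivative (hgP c W₁ g₁' Pl' (slam F W₁ ω) j)).eval
        (st d₁ (slam F (W₁ + d₁) ω))| ≤ 1 / 2 ^ k₁) →
    (∀ ω, B ω → |F.d ω (c 0)| ≤ 1) → 2 + σ ≤ 2 ^ d → 2 * σ' ≤ 2 ^ k₁ →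
    (∀ ω ω', B ω → B ω' → y₀ ω = y₀ ω' → Pl (slam F W₀ ω) = Pl (slam F W₀ ω') ∧
      Pl' (slam F W₁ ω) = Pl' (slam F W₁ ω') ∧ F.T1 (W₀ + d) ω = F.T1 (W₀ + d) ω' ∧
      |2 ^ W₀ * F.x ω (c 0) - 2 ^ W₀ * F.x ω' (c 0)| ≤ σ / 2 ^ d) →
    2 + 2 ^ k * ((1 / σ) * ((1 + ρ) * (2 * σ' / 2 ^ k₁) +
        A * M * ((2 + σ) / 2 ^ d + 2 * σ' / 2 ^ k₁))) ≤ N →
    CH q (fun ω => D₁ (slam F (W₀ + d) ω)) (fun ω => (D₁' (slam F (W₁ + d₁) ω), y₀ ω)) ≤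
      3 * Real.log (N + 1) := by
  obtain ⟨A, hA, h⟩ := d1_near K
  refine ⟨A, hA, ?_⟩
  intro m J F c B W₀ d k g₁ W₁ d₁ k₁ g₁' σ σ' M ρ N Pl Pl' D₁ D₁' q Y₀ y₀ hq hqB hWd hJ hσ hσ' hρ hM hg
    hdeg hdep hosc hgrd hdv hdv' hd1 h2σ hk₁ hy hN
  have hk : (0 : ℝ) < 2 ^ k := by positivity
  have hN0 : 0 ≤ N := le_trans (by positivity) hN
  refine cnt_grd hq k _ (fun ω => hgrd _) _ hN0 fun ω ω' a b e j => ?_
  simp only [Prod.mk.injEq] at e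
  obtain ⟨y1, y2, y3, y4⟩ := hy ω ω' (hqB ω a) (hqB ω' b) e.2
  refine (h hWd hJ hσ hσ' hρ hM hg hdeg hdep hosc hdv hdv' hd1 h2σ hk₁ (hqB ω a) (hqB ω' b) y1 y2
    y3 y4 e.1 j).trans ?_
  rw [le_div_iff₀ hk]
  refine le_trans (le_of_eq ?_) hN
  field_simp

/-- **The velocity in the far chart** is few bits given the labels of the velocities. -/
theorem d1f_few (K : ℕ) : ∃ C : ℝ, 1 ≤ C ∧ ∀ {m J : ℕ} {F : Fam m J} {c : ℕ → Fin m}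
    {B : F.Ω → Prop} {W₁ d₁ k₁ g₁' n : ℕ} {Y σ' Kp N P0 P1 : ℝ}
    {Pl' : LnT F → MvPolynomial (Option (Fin m)) ℝ} {yt : PtT F → V3} {ctr xo : ℕ → F.Ω → V3}
    {D₁' : LnT F → V3} {q : F.Ω → ℝ} {SU : Type} {u : F.Ω → SU}, IsLaw q →
    (∀ ω, 0 < q ω → B ω) →
    InpP F B W₁ d₁ k₁ n K Y (yv F c W₁ g₁' Pl') yt (hgP c W₁ g₁' Pl') →
    PosO F B W₁ d₁ k₁ n σ' Kp (yv F c W₁ g₁' Pl') (hgP c W₁ g₁' Pl') ctr xo D₁' →
    W₁ + d₁ ≤ J → 0 < σ' → 0 ≤ Y →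
    (∀ ω ω', B ω → B ω' → u ω = u ω' → |F.d ω (c 0) - F.d ω' (c 0)| ≤ P0 ∧
      |ojet F (c 1) 1 (Pl' (slam F W₁ ω)) ω - ojet F (c 1) 1 (Pl' (slam F W₁ ω')) ω'| ≤ P1) →
    0 ≤ P0 → 0 ≤ P1 →
    2 + 2 ^ k₁ * ((1 / σ') * (2 * (C * Y) / 2 ^ d₁ + P0 + 2 ^ g₁' / 2 ^ W₁ * P1)) ≤ N →
    CH q (fun ω => D₁' (slam F (W₁ + d₁) ω)) u ≤ 3 * Real.log (N + 1) := by
  obtain ⟨C, hC, hu⟩ := uni_der K
  refine ⟨C, hC, ?_⟩
  intro m J F c B W₁ d₁ k₁ g₁' n Y σ' Kp N P0 P1 Pl' yt ctr xo D₁' q SU u hq hqB I O hJ hσ hY huu hP0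
    hP1 hN
  have hW₁J : W₁ ≤ J := by omega
  have hk : (0 : ℝ) < 2 ^ k₁ := by positivity
  have hd0 : (0 : ℝ) < 2 ^ d₁ := by positivity
  have hN0 : 0 ≤ N := le_trans (by positivity) hN
  refine cnt_grd hq k₁ _ (fun ω => O.dg _) _ hN0 fun ω ω' a b e j => ?_
  have hω := hqB ω a
  have hω' := hqB ω' b
  obtain ⟨u0, u1⟩ := huu ω ω' hω hω' e
  -- the own velocities
  have hsm : ∀ (ω : F.Ω), B ω → ∀ j,
      |(Polynomial.derivative (hgP c W₁ g₁' Pl' (slam F W₁ ω) j)).eval (rt F W₁ ω) -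
        (Polynomial.derivative (hgP c W₁ g₁' Pl' (slam F W₁ ω) j)).eval
          (st d₁ (slam F (W₁ + d₁) ω))| ≤ C * Y / 2 ^ d₁ := by
    intro ω hω j
    obtain ⟨Q, hQ⟩ : ∃ Q, Q = Polynomial.derivative (hgP c W₁ g₁' Pl' (slam F W₁ ω) j) := ⟨_, rfl⟩
    rw [← hQ]
    have hQd : Q.natDegree ≤ K := by
      rw [hQ]
      exact (Polynomial.natDegree_derivative_le _).trans ((Nat.sub_le _ _).trans (I.hd _ _))
    have hQb : ∀ τ ∈ Set.Icc (0 : ℝ) 1, |Q.eval τ| ≤ Y := fun τ hτ => by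
      rw [hQ]
      exact I.vel ω hω j τ hτ
    have hQ' : ∀ τ ∈ Set.Icc (0 : ℝ) 1, |(Polynomial.derivative Q).eval τ| ≤ C * Y :=
      fun τ hτ => (hu Q Y hQd hQb τ (by rw [abs_of_nonneg hτ.1]; linarith [hτ.2])).2
    have h2 := Pool.STB65.pol_lip Q hQ' (x := st d₁ (slam F (W₁ + d₁) ω))
      (Pool.STB65.st_mem (F := F) d₁ _) (y := rt F W₁ ω) (rt_mem F W₁ ω)
    have h3 : |rt F W₁ ω - st d₁ (slam F (W₁ + d₁) ω)| ≤ 1 / 2 ^ d₁ := by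
      rw [rt_st F hJ ω, add_sub_cancel_left]
      have h4 := rt_mem F (W₁ + d₁) ω
      rw [abs_of_nonneg (div_nonneg h4.1 (by positivity))]
      exact div_le_div_of_nonneg_right h4.2 (by positivity)
    refine h2.trans ((mul_le_mul_of_nonneg_left h3 (by positivity)).trans (le_of_eq ?_))
    ring
  have hown : |(Polynomial.derivative (hgP c W₁ g₁' Pl' (slam F W₁ ω) j)).eval (rt F W₁ ω) -
      (Polynomial.derivative (hgP c W₁ g₁' Pl' (slam F W₁ ω') j)).eval (rt F W₁ ω')| ≤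
      P0 + 2 ^ g₁' / 2 ^ W₁ * P1 := by
    have p1 : 0 ≤ 2 ^ g₁' / 2 ^ W₁ * P1 := by positivity
    fin_cases j
    · show |(Polynomial.derivative (Polynomial.X : Polynomial ℝ)).eval _ -
        (Polynomial.derivative (Polynomial.X : Polynomial ℝ)).eval _| ≤ _
      rw [Polynomial.derivative_X, Polynomial.eval_one, Polynomial.eval_one, sub_self, abs_zero]
      positivity
    · show |(Polynomial.derivative (hgP c W₁ g₁' Pl' (slam F W₁ ω) 1)).eval (rt F W₁ ω) -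
        (Polynomial.derivative (hgP c W₁ g₁' Pl' (slam F W₁ ω') 1)).eval (rt F W₁ ω')| ≤ _
      rw [Pool.STB82.hgP_d1, Pool.STB82.hgP_d1]
      linarith
    · show |(Polynomial.derivative (hgP c W₁ g₁' Pl' (slam F W₁ ω) 2)).eval (rt F W₁ ω) -
        (Polynomial.derivative (hgP c W₁ g₁' Pl' (slam F W₁ ω') 2)).eval (rt F W₁ ω')| ≤ _
      rw [hgP_dt F c hW₁J, hgP_dt F c hW₁J, lpt_own, lpt_own]
      have e1 : ∀ υ : F.Ω, jet 1 (X (some (c 1)) - Pl' (slam F W₁ υ)) (bt F υ) (bd F υ) =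
          ojet F (c 1) 1 (Pl' (slam F W₁ υ)) υ := fun υ => rfl
      rw [e1, e1]
      have e2 : ∀ x y : ℝ, (2 : ℝ) ^ g₁' * (1 / 2 ^ W₁ * x) - 2 ^ g₁' * (1 / 2 ^ W₁ * y) =
          2 ^ g₁' / 2 ^ W₁ * (x - y) := fun x y => by ring
      rw [e2, abs_mul, abs_of_pos (by positivity)]
      have := mul_le_mul_of_nonneg_left u1 (by positivity : (0 : ℝ) ≤ 2 ^ g₁' / 2 ^ W₁)
      linarith
  have h1 := O.dv ω hω j
  have h2 := O.dv ω' hω' j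
  have h3 := hsm ω hω j
  have h4 := hsm ω' hω' j
  obtain ⟨s, hs⟩ : ∃ s, s = (Polynomial.derivative (hgP c W₁ g₁' Pl' (slam F W₁ ω) j)).eval
    (st d₁ (slam F (W₁ + d₁) ω)) := ⟨_, rfl⟩
  obtain ⟨s', hs'⟩ : ∃ s', s' = (Polynomial.derivative (hgP c W₁ g₁' Pl' (slam F W₁ ω') j)).eval
    (st d₁ (slam F (W₁ + d₁) ω')) := ⟨_, rfl⟩
  obtain ⟨r, hr⟩ : ∃ r, r = (Polynomial.derivative (hgP c W₁ g₁' Pl' (slam F W₁ ω) j)).eval
    (rt F W₁ ω) := ⟨_, rfl⟩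
  obtain ⟨r', hr'⟩ : ∃ r', r' = (Polynomial.derivative (hgP c W₁ g₁' Pl' (slam F W₁ ω') j)).eval
    (rt F W₁ ω') := ⟨_, rfl⟩
  rw [← hr, ← hr'] at hown
  rw [← hs] at h1 h3
  rw [← hs'] at h2 h4
  rw [← hr] at h3
  rw [← hr'] at h4
  have h5 : |s - s'| ≤ 2 * (C * Y) / 2 ^ d₁ + (P0 + 2 ^ g₁' / 2 ^ W₁ * P1) := by
    have e3 : s - s' = -(r - s) + (r' - s') + (r - r') := by ring
    rw [e3]
    refine (abs_add_le _ _).trans ?_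
    have h6 := abs_add_le (-(r - s)) (r' - s')
    rw [abs_neg] at h6
    have e4 : 2 * (C * Y) / 2 ^ d₁ = C * Y / 2 ^ d₁ + C * Y / 2 ^ d₁ := by ring
    linarith
  have h7 : |D₁' (slam F (W₁ + d₁) ω) j - D₁' (slam F (W₁ + d₁) ω') j| ≤
      2 / 2 ^ k₁ + 1 / σ' * (2 * (C * Y) / 2 ^ d₁ + (P0 + 2 ^ g₁' / 2 ^ W₁ * P1)) := by
    have e5 : D₁' (slam F (W₁ + d₁) ω) j - D₁' (slam F (W₁ + d₁) ω') j =
        (D₁' (slam F (W₁ + d₁) ω) j - 1 / σ' * s) - (D₁' (slam F (W₁ + d₁) ω') j - 1 / σ' * s') +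
          1 / σ' * (s - s') := by ring
    rw [e5]
    refine (abs_add_le _ _).trans ?_
    have h8 := abs_sub (D₁' (slam F (W₁ + d₁) ω) j - 1 / σ' * s)
      (D₁' (slam F (W₁ + d₁) ω') j - 1 / σ' * s')
    have h9 : |1 / σ' * (s - s')| ≤
        1 / σ' * (2 * (C * Y) / 2 ^ d₁ + (P0 + 2 ^ g₁' / 2 ^ W₁ * P1)) := by
      rw [abs_mul, abs_of_pos (by positivity : 0 < 1 / σ')]
      exact mul_le_mul_of_nonneg_left h5 (by positivity)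
    have e6 : (2 : ℝ) / 2 ^ k₁ = 1 / 2 ^ k₁ + 1 / 2 ^ k₁ := by ring
    linarith
  refine h7.trans ?_
  rw [le_div_iff₀ hk]
  refine le_trans (le_of_eq ?_) hN
  field_simp
  ring

end Pool.STA37
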