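import Pool.Agent.H13.EJ.Nfg
import Pool.Agent.H98.STB.Pass
import Pool.Agent.H89.OWN.NfD
import Pool.Agent.H32.Dense.Split
import Pool.Agent.H37.STA.Far

/-!
# Few velocities for all laws of bounded density

`time_out`: the exact time is removed from the context. `few_vel`: the velocity of the target is few
bits given the data of the line and the position. `free_sub`: free data on a part of the event.
`grad_dens`: the gradient is nonfull for all laws of bounded density.
-/

set_option autoImplicit false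

namespace Pool.STA37

open Finset Real MvPolynomial
open Pool.Agent.H49.Ent Pool.Agent.H32.Dense Pool.STK
open Pool.STB (V3 Po Bx cv)
open Pool.BFL (Pb)

section

variable {Ω : Type} [Fintype Ω] {p : Ω → ℝ}

/-- **The velocity is few bits** given the data and the position, from the first jets. -/
theorem few_vel (hp : IsLaw p) {SU SZ ST SC SV SW : Type} (vel : Ω → SV) (u' : Ω → SW)
    (uu : Ω → SU) (z : Ω → SZ) (T : Ω → ST) (C : Ω → SC) (hz : Det p C z) {e₁ e₂ e₃ : ℝ}
    (hf : CH p u' (fun ω => (uu ω, (z ω, T ω))) ≤ e₁) (hu : CH p uu (fun ω => (T ω, C ω)) ≤ e₂)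
    (hv : CH p vel u' ≤ e₃) : CH p vel (fun ω => (T ω, C ω)) ≤ e₁ + e₂ + e₃ := by
  have h0 := hp.nonneg
  have a1 := CH_le_add h0 vel uu (fun ω => (T ω, C ω))
  have a2 := CH_le_add h0 vel u' (fun ω => (uu ω, (T ω, C ω)))
  have a3 : CH p u' (fun ω => (uu ω, (T ω, C ω))) ≤ CH p u' (fun ω => (uu ω, (z ω, T ω))) :=
    CH_mono_cond h0 fun ω ω' a b e => by
      simp only [Prod.mk.injEq] at e ⊢
      exact ⟨e.1, hz ω ω' a b e.2.2, e.2.1⟩
  have a4 : CH p vel (fun ω => (u' ω, (uu ω, (T ω, C ω)))) ≤ CH p vel u' :=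
    CH_mono_cond h0 fun ω ω' _ _ e => (Prod.ext_iff.mp e).1
  linarith

/-- **Free data on a part of the event.** -/
theorem free_sub (hp : IsLaw p) {A : Ω → Prop} {SB SZ SP : Type} (b : Ω → SB) (z : Ω → SZ)
    (P : Ω → SP) (hP : Det p z P) {e : ℝ} (h : CH p b P - e ≤ CH p b z) {c₀ : ℝ} (hc : 0 < c₀)
    (hA : c₀ ≤ Pb p A) :
    CH (cond p A True) b P - (e + Real.log 2) / c₀ ≤ CH (cond p A True) b z := by
  classical
  have h0 := hp.nonneg
  have hl2 : 0 < Real.log 2 := Real.log_pos one_lt_two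
  have e1 := CH_split h0 b P A
  have e2 := CH_split h0 b z A
  have hpos : ∀ (j : Prop) ω, 0 < cond p A j ω → 0 < p ω := fun j ω hω => by
    by_contra hn
    have h1 : p ω = 0 := le_antisymm (not_lt.mp hn) (h0 ω)
    unfold Pool.Agent.H49.Ent.cond at hω
    rw [h1, zero_div] at hω
    split_ifs at hω <;> exact absurd hω (lt_irrefl _)
  have hterm : ∀ j : Prop, 0 ≤ CH (cond p A j) b P - CH (cond p A j) b z := fun j => by
    have := CH_mono_cond (cond_nonneg h0 A j) (X := b) (W' := z) (W := P)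
      (fun ω ω' a b' e => hP ω ω' (hpos j ω a) (hpos j ω' b') e)
    linarith
  have hlaw : ∀ j : Prop, 0 ≤ law p A j := fun j => by
    unfold law
    exact Finset.sum_nonneg fun ω _ => by
      split_ifs
      · exact h0 ω
      · exact le_rfl
  have hLA : law p A True = Pb p A := by
    unfold law Pb
    refine Finset.sum_congr rfl fun ω _ => ?_
    by_cases h1 : A ω
    · rw [if_pos (eq_true h1), if_pos h1]
    · rw [if_neg (fun h2 => h1 (of_eq_true h2)), if_neg h1]
  have hmem : True ∈ univ.image A := by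
    by_contra hn
    have h1 : Pb p A = 0 := by
      unfold Pb
      refine Finset.sum_eq_zero fun ω _ => ?_
      rw [if_neg]
      intro h2
      exact hn (mem_image.2 ⟨ω, mem_univ _, eq_true h2⟩)
    linarith
  have h4 : law p A True * (CH (cond p A True) b P - CH (cond p A True) b z) ≤
      CH p b (fun ω => (P ω, A ω)) - CH p b (fun ω => (z ω, A ω)) := by
    rw [e1, e2, ← Finset.sum_sub_distrib]
    have h5 := Finset.single_le_sum (s := univ.image A)
      (f := fun j => law p A j * CH (cond p A j) b P - law p A j * CH (cond p A j) b z)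
      (fun j _ => by
        have := mul_nonneg (hlaw j) (hterm j)
        rw [mul_sub] at this
        exact this) hmem
    rw [mul_sub]
    exact h5
  have h6 : CH p b (fun ω => (P ω, A ω)) ≤ CH p b P :=
    CH_mono_cond h0 fun ω ω' _ _ e => (Prod.ext_iff.mp e).1
  have h7 : CH p b z ≤ CH p A z + CH p b (fun ω => (z ω, A ω)) := by
    refine (CH_le_add h0 b A z).trans (add_le_add le_rfl ?_)
    exact CH_mono_cond h0 fun ω ω' _ _ e => by
      simp only [Prod.mk.injEq] at e ⊢
      exact ⟨e.2, e.1⟩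
  have h8 : CH p A z ≤ Real.log 2 := by
    refine (CH_le_card h0 hp.sum_one A z (fun _ => {True, False}) fun ω _ => ?_).trans ?_
    · by_cases h1 : A ω
      · rw [eq_true h1]
        exact mem_insert_self _ _
      · rw [eq_false h1]
        exact mem_insert_of_mem (mem_singleton_self _)
    · refine le_of_eq ?_
      rw [Ex_const hp.sum_one]
      congr 1
      have : (({True, False} : Finset Prop)).card = 2 := by
        rw [card_insert_of_notMem (by simp), card_singleton]
      rw [this]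
      norm_num
  rw [hLA] at h4
  have h9 : Pb p A * (CH (cond p A True) b P - CH (cond p A True) b z) ≤ e + Real.log 2 := by
    linarith
  have h10 : c₀ * (CH (cond p A True) b P - CH (cond p A True) b z) ≤ e + Real.log 2 :=
    (mul_le_mul_of_nonneg_right hA (hterm True)).trans h9
  have h11 : CH (cond p A True) b P - CH (cond p A True) b z ≤ (e + Real.log 2) / c₀ := by
    rw [le_div_iff₀ hc]
    linarith
  linarith

/-- General position on a part of the event. -/
theorem gp_sub (hp : IsLaw p) {A E : Ω → Prop} {c c₀ : ℝ} (hc : 0 < c₀) (hA : c₀ ≤ Pb p A)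
    (h : Pb p E ≤ c) : Pb (cond p A True) E ≤ c / c₀ := by
  classical
  have h0 := hp.nonneg
  have hLA : law p A True = Pb p A := by
    unfold law Pb
    refine Finset.sum_congr rfl fun ω _ => ?_
    by_cases h1 : A ω
    · rw [if_pos (eq_true h1), if_pos h1]
    · rw [if_neg (fun h2 => h1 (of_eq_true h2)), if_neg h1]
  have h1 : Pb (cond p A True) E * Pb p A ≤ Pb p E := by
    rw [← hLA]
    unfold Pb
    rw [Finset.sum_mul]
    refine Finset.sum_le_sum fun ω _ => ?_
    have hl : 0 < law p A True := by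
      rw [hLA]
      linarith
    by_cases hE : E ω
    · rw [if_pos hE, if_pos hE]
      unfold Pool.Agent.H49.Ent.cond
      split_ifs
      · rw [div_mul_cancel₀ _ hl.ne']
      · rw [zero_mul]
        exact h0 ω
    · rw [if_neg hE, if_neg hE, zero_mul]
  rw [le_div_iff₀ hc]
  have h2 : 0 ≤ Pb (cond p A True) E := by
    unfold Pb
    exact Finset.sum_nonneg fun ω _ => by
      split_ifs
      · exact cond_nonneg h0 A True ω
      · exact le_rfl
  calc Pb (cond p A True) E * c₀ ≤ Pb (cond p A True) E * Pb p A :=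
      mul_le_mul_of_nonneg_left hA h2
    _ ≤ Pb p E := h1
    _ ≤ c := h

/-- **The gradient is nonfull for all laws of bounded density.** -/
theorem grad_dens {Λ Z Y 𝒟 : Type} (hp : IsLaw p) {L : Ω → Λ} {z : Ω → Z} {y : Ω → Y} (D : Λ → 𝒟)
    (X : 𝒟 → V3) (x : Z → V3) (J : Z → Po) (vel : Ω → ℤ) {M M' : ℕ} {K e e' η c G c₀ R θ : ℝ}
    {nn : ℕ} (hyz : Det p z y) (hfree : CH p (fun ω => D (L ω)) y - e ≤ CH p (fun ω => D (L ω)) z)
    (hX : ∀ d, Bx 1 (X d)) (hη : 0 < η) (hK : 0 ≤ K) (hG : 0 ≤ G) (hM' : 1 ≤ M') (hMM : M' ≤ M)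
    (hv : ∀ ω, 0 < p ω → |(vel ω : ℝ) - M' * ∑ i, eval (x (z ω)) (pderiv i (J (z ω))) *
      X (D (L ω)) i| ≤ K)
    (hg : ∀ ω i, 0 < p ω → |eval (x (z ω)) (pderiv i (J (z ω)))| ≤ G)
    (hgp : ∀ H : Z → V3, (∀ r, Bx 1 (H r) ∧ ∃ i, |H r i| = 1) →
      Pb p (fun ω => |∑ i, H (z ω) i * X (D (L ω)) i| ≤ η) ≤ c)
    (hc₀ : 0 < c₀) (he : 0 ≤ e)
    (hrow : ∀ A : Ω → Prop, c₀ ≤ Pb p A → CH (cond p A True) vel
      (fun ω => (D (L ω), (cv M (x (z ω)), y ω))) ≤ e')
    (hR : 1 ≤ R) (hθ : 0 < θ) (he' : 0 ≤ e') (hc : 0 ≤ c) (i : Fin 3) (q : Ω → ℝ) (hq : IsLaw q)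
    (hd : ∀ ω, q ω ≤ R * p ω) :
    CH q (fun ω => ⌊(M : ℝ) * eval (x (z ω)) (pderiv i (J (z ω)))⌋)
      (fun ω => (cv M (x (z ω)), y ω)) ≤
      (1 + θ) * (Real.log ((M : ℝ) / M' + 2) + (3 * ((e + Real.log 2) / c₀) + 3 * e' + (Real.log 2 +
        Real.log (3 * (18 * K / η ^ 3 + 1)) + 3 * (c / c₀) * Real.log (2 * (M' * G + 2) + 1)))) +
      (R * c₀ * (1 + θ) / θ + R / (1 + θ) ^ nn) * Real.log (2 * (M * G + 1) + 1) +
      Real.log (nn + 1) := by
  classical
  have h0 := hp.nonneg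
  have hl2 : 0 < Real.log 2 := Real.log_pos one_lt_two
  obtain ⟨P, hP⟩ : ∃ P : Ω → (Fin 3 → ℤ) × Y, P = fun ω => (cv M (x (z ω)), y ω) := ⟨_, rfl⟩
  have hPz : Det p z P := fun ω ω' a b' e1 => by
    rw [hP]
    simp only
    rw [e1, hyz ω ω' a b' e1]
  have hfP : CH p (fun ω => D (L ω)) P - e ≤ CH p (fun ω => D (L ω)) z := by
    have h1 : CH p (fun ω => D (L ω)) P ≤ CH p (fun ω => D (L ω)) y :=
      CH_mono_cond h0 fun ω ω' _ _ e1 => by
        rw [hP] at e1
        exact (Prod.ext_iff.mp e1).2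
    linarith
  have hM0 : (0 : ℝ) < M' := by exact_mod_cast hM'
  have hMM0 : (M' : ℝ) ≤ M := by exact_mod_cast hMM
  have hM1 : (0 : ℝ) < M := by linarith
  have hpos : ∀ (A : Ω → Prop) ω, 0 < cond p A True ω → 0 < p ω := fun A ω hω => by
    by_contra hn
    have h1 : p ω = 0 := le_antisymm (not_lt.mp hn) (h0 ω)
    unfold Pool.Agent.H49.Ent.cond at hω
    rw [h1, zero_div] at hω
    split_ifs at hω <;> exact absurd hω (lt_irrefl _)
  -- the values
  obtain ⟨N, hN⟩ : ∃ N : Ω → ℤ, N = fun ω => ⌊(M : ℝ) * eval (x (z ω)) (pderiv i (J (z ω)))⌋ :=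
    ⟨_, rfl⟩
  obtain ⟨N', hN'⟩ : ∃ N' : Ω → ℤ, N' = fun ω =>
    ⌊(M' : ℝ) * eval (x (z ω)) (pderiv i (J (z ω)))⌋ := ⟨_, rfl⟩
  obtain ⟨U, hU⟩ : ∃ U : ℝ, U = 3 * ((e + Real.log 2) / c₀) + 3 * e' + (Real.log 2 +
    Real.log (3 * (18 * K / η ^ 3 + 1)) + 3 * (c / c₀) * Real.log (2 * (M' * G + 2) + 1)) :=
    ⟨_, rfl⟩
  have hgg : 0 ≤ (M' : ℝ) * G := by positivity
  have hU0 : 0 ≤ U := by
    rw [hU]
    have h1 : 0 ≤ Real.log (3 * (18 * K / η ^ 3 + 1)) := by
      refine Real.log_nonneg ?_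
      have : 0 ≤ 18 * K / η ^ 3 := by positivity
      linarith
    have h2 : 0 ≤ Real.log (2 * (M' * G + 2) + 1) := Real.log_nonneg (by linarith)
    positivity
  -- the digits beyond the first ones
  have hstep : ∀ r : Ω → ℝ, IsLaw r → (∀ ω, 0 < r ω → 0 < p ω) → CH r N P ≤
      CH r N' P + Real.log ((M : ℝ) / M' + 2) := fun r hr hrp => by
    refine (CH_le_add hr.nonneg N N' P).trans (add_le_add le_rfl ?_)
    have h1 := Pool.STB.cnt_int (q := r) hr N (fun ω => (N' ω, P ω)) (D := (M : ℝ) / M' + 1)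
      (by positivity) fun ω ω' _ _ e1 => by
        have e2 : N' ω = N' ω' := (Prod.ext_iff.mp e1).1
        rw [hN'] at e2
        rw [hN]
        obtain ⟨g, hgd⟩ : ∃ g, g = eval (x (z ω)) (pderiv i (J (z ω))) := ⟨_, rfl⟩
        obtain ⟨g', hgd'⟩ : ∃ g', g' = eval (x (z ω')) (pderiv i (J (z ω'))) := ⟨_, rfl⟩
        simp only at e2 ⊢
        rw [← hgd, ← hgd'] at e2 ⊢
        have a1 := Int.floor_le ((M' : ℝ) * g)
        have a2 := Int.lt_floor_add_one ((M' : ℝ) * g)
        have a3 := Int.floor_le ((M' : ℝ) * g')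
        have a4 := Int.lt_floor_add_one ((M' : ℝ) * g')
        have e3 : ((⌊(M' : ℝ) * g⌋ : ℤ) : ℝ) = (⌊(M' : ℝ) * g'⌋ : ℤ) := by rw [e2]
        have h2 : |(M' : ℝ) * (g - g')| ≤ 1 := by
          rw [mul_sub, abs_le]
          constructor <;> linarith
        have h3 : |(M : ℝ) * g - M * g'| ≤ M / M' := by
          have h4 : (M : ℝ) * g - M * g' = M / M' * (M' * (g - g')) := by
            field_simp
          rw [h4, abs_mul, abs_of_pos (by positivity : (0 : ℝ) < M / M')]
          calc (M : ℝ) / M' * |(M' : ℝ) * (g - g')| ≤ M / M' * 1 :=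
              mul_le_mul_of_nonneg_left h2 (by positivity)
            _ = M / M' := mul_one _
        have b1 := Int.floor_le ((M : ℝ) * g)
        have b2 := Int.lt_floor_add_one ((M : ℝ) * g)
        have b3 := Int.floor_le ((M : ℝ) * g')
        have b4 := Int.lt_floor_add_one ((M : ℝ) * g')
        rw [abs_le] at h3 ⊢
        constructor <;> linarith [h3.1, h3.2]
    refine h1.trans (le_of_eq ?_)
    congr 1
    ring
  -- the rows
  have key : ∀ A : Ω → Prop, c₀ ≤ Pb p A → CH (cond p A True) N P ≤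
      Real.log ((M : ℝ) / M' + 2) + U := fun A hA => by
    have hlA : 0 < law p A True := by
      have h1 : law p A True = Pb p A := by
        unfold law Pb
        refine Finset.sum_congr rfl fun ω _ => ?_
        by_cases h1 : A ω
        · rw [if_pos (eq_true h1), if_pos h1]
        · rw [if_neg (fun h2 => h1 (of_eq_true h2)), if_neg h1]
      rw [h1]
      linarith
    have hpA : IsLaw (cond p A True) :=
      ⟨cond_nonneg h0 A True, sum_cond p A hlA.ne'⟩
    have h1 := Pool.EJ13.grad_few hpA L z P (fun ω ω' a b' e1 => hPz ω ω' (hpos A ω a)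
      (hpos A ω' b') e1) (fun ω => D (L ω)) X vel (fun r i => eval (x r) (pderiv i (J r))) M'
      (e := (e + Real.log 2) / c₀) (e' := e') hη hK hG
      (free_sub hp _ z P hPz hfP hc₀ hA) hX
      (fun ω hω => hv ω (hpos A ω hω)) (by
        rw [hP]
        exact hrow A hA) (fun ω hω i => hg ω i (hpos A ω hω))
      (c := c / c₀) (fun H hH => gp_sub hp hc₀ hA (hgp H hH)) i
    have h2 := hstep (cond p A True) hpA (hpos A)
    have h3 : CH (cond p A True) N' P ≤ U := by
      rw [hN', hU]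
      exact h1
    linarith
  have triv : ∀ r : Ω → ℝ, IsLaw r → (∀ ω, 0 < r ω → 0 < p ω) →
      CH r N P ≤ Real.log (2 * (M * G + 1) + 1) := fun r hr hrp => by
    refine Pool.STB.cnt_int (q := r) hr N P (D := 2 * (M * G + 1)) (by positivity)
      fun ω ω' a b' _ => ?_
    rw [hN]
    have h1 : ∀ ω, 0 < r ω → |((⌊(M : ℝ) * eval (x (z ω)) (pderiv i (J (z ω)))⌋ : ℤ) : ℝ)| ≤
        M * G + 1 := fun ω hω => by
      have h2 := hg ω i (hrp ω hω)
      have h3 := Int.floor_le ((M : ℝ) * eval (x (z ω)) (pderiv i (J (z ω))))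
      have h4 := Int.lt_floor_add_one ((M : ℝ) * eval (x (z ω)) (pderiv i (J (z ω))))
      have h5 : |(M : ℝ) * eval (x (z ω)) (pderiv i (J (z ω)))| ≤ M * G := by
        rw [abs_mul, abs_of_pos hM1]
        exact mul_le_mul_of_nonneg_left h2 hM1.le
      rw [abs_le] at h5 ⊢
      constructor <;> linarith [h5.1, h5.2]
    refine (abs_sub _ _).trans ?_
    have := h1 ω a
    have := h1 ω' b'
    linarith
  have hl1 : 0 ≤ Real.log ((M : ℝ) / M' + 2) := Real.log_nonneg (by
    have : 0 ≤ (M : ℝ) / M' := by positivity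
    linarith)
  have hV0 : 0 ≤ Real.log (2 * (M * G + 1) + 1) := Real.log_nonneg (by
    have : 0 ≤ (M : ℝ) * G := by positivity
    linarith)
  have hfin := Pool.NFD.nf_dens hp hq (M := R) (c0 := c₀) (eta := θ)
    (U := Real.log ((M : ℝ) / M' + 2) + U) (V := Real.log (2 * (M * G + 1) + 1)) (L := nn) hR hd hc₀
    hθ N P (by linarith) hV0 key triv
  rw [hN, hP] at hfin
  rw [hU] at hfin
  exact hfin

end

end Pool.STA37
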