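import Pool.Agent.H77.STB.Nn7

/-!
# No closed label with a gain

`gain_void`: at a window of the chain of a record no part of the events has a label of the target
with a gain.
-/

set_option autoImplicit false

namespace Pool.STA37

open Finset Real MvPolynomial
open Pool.Agent.H49.Ent Pool.Agent.H32.Dense Pool.STK Pool.KA Pool.KSAT Pool.K2S Pool.PB Pool.S6C
open Pool.GEN Pool.CHT Pool.NVX
open Pool.PKG (Kg RecG)

/-- **No closed label with a gain**, at a window of the chain of a record. -/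
theorem gain_void {m : ℕ} {S : PCl m} {al : ℝ} {g₀ : ℝ → ℝ}
    {P₀ : List (Fin m) × Fin m → ℝ → ℝ → ℝ} {θ : ℝ}
    {P₂ : ℕ → List (Fin m) × Fin m → ℝ → ℝ → ℝ} {θ₂ Eb e₂ : ℕ → ℝ} {c : ℕ → Fin m}
    {Pt : ℝ → ℝ → ℝ} {r : ℝ → ℝ} {h K₀ g : ℝ} {L T : ℕ → ℝ → ℝ → ℝ} {Sl : ℕ → ℝ} {κ : ℕ → Kg}
    {G : Set ℝ} {S₀ N₀ : ℕ} {A V : ℕ → ℝ} {S₂ N' : ℕ} {V' : ℕ → ℝ} {K ε q t : ℝ}
    (R : RecG S al g₀ P₀ θ P₂ θ₂ Eb e₂ c Pt r h K₀ g L T Sl κ G S₀ N₀ A V S₂ N' V' K ε q t)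
    {i : ℕ} (hi1 : 1 ≤ i) (him : i < m) (D : ℕ) {k : ℕ} (hk : k < N') (hk1 : -K ≤ V' k)
    (hk2 : V' k ≤ K) {γ c₀ : ℝ} (hγ : 0 < γ) (hγK : γ ≤ 3 * K) (hc₀ : 0 < c₀)
    (hev : Bas S (fun J F A' => ∃ B : F.Ω → Prop, Sub B A' ∧ c₀ * Pe F.p A' ≤ Pe F.p B ∧
      ∃ (a₀ w₀ e₀ : ℕ) (g' : ℕ → ℕ), w₀ ≤ a₀ ∧ a₀ ≤ ⌊(t + V' k * q) * J⌋₊ ∧ e₀ ≤ ⌊e₂ i * J⌋₊ ∧
        (∀ l ≤ i, g' l ≤ J) ∧ ⌊(L i (t + V' k * q) (t + V' k * q) + γ * q) * J⌋₊ ≤ g' i +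
          (⌊(t + V' k * q) * J⌋₊ - a₀) ∧ ChN F c (i + 1) (fun _ => D) a₀ w₀ e₀ g' B)) : False := by
  have hq := R.q0
  have R2 := R.tg i hi1 him
  have hγq : 0 < γ * q := mul_pos hγ hq
  have hKq : 0 ≤ K * q := by
    have h1 : -K ≤ K := hk1.trans hk2
    exact mul_nonneg (by linarith) hq.le
  have e1 : -K * q ≤ V' k * q := mul_le_mul_of_nonneg_right hk1 hq.le
  have e2 : V' k * q ≤ K * q := mul_le_mul_of_nonneg_right hk2 hq.le
  have hx : |t + V' k * q - t| ≤ K * q := by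
    rw [abs_le]
    constructor <;> linarith
  have hx1 : t + V' k * q < 1 := by
    have := R.t1
    linarith
  have hx0 : 0 < t + V' k * q := by
    have := R.t0
    linarith
  have hroom := R2.room i le_rfl _ hx
  have hEb := R2.Eb0
  have heθ := R2.eθ _ hx
  have hγK' : γ * q ≤ 3 * K * q := mul_le_mul_of_nonneg_right hγK hq.le
  obtain ⟨d, hd, hrat⟩ := R2.ratc k hk (γ * q / 4) (by positivity)
  obtain ⟨w', hw1, hw2⟩ := exists_rat_btwn (show t + V' k * q <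
    t + V' k * q + min d (1 - (t + V' k * q)) by
      have : 0 < min d (1 - (t + V' k * q)) := lt_min hd (by linarith)
      linarith)
  have h3 := min_le_left d (1 - (t + V' k * q))
  have h4 := min_le_right d (1 - (t + V' k * q))
  have hbet := hrat w' hw1.le (by linarith) i le_rfl
  have hw0 : (0 : ℝ) < w' := by linarith
  have hw3 : (w' : ℝ) ≤ 1 := by linarith
  have hno := no_unif R2.thr₂ c i (fun _ => D) w' w' (e₂ i) (γ * q / 4)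
    (by exact_mod_cast hw0.le) le_rfl (by exact_mod_cast hw3) (by
      have h5 := mul_le_mul_of_nonneg_left hw1.le R2.th₂0.le
      linarith) (by positivity) (by linarith)
  have hno' := Pool.V1E.bas_big hno (1 / c₀)
  refine Pool.LBT.bas_false R.ne (Φ := fun _ _ _ => True) ⟨1, one_pos, 0, fun _ _ _ _ _ => trivial⟩
    (Bas.mono 0 (hev.and hno') ?_)
  rintro J - F A' ⟨⟨B, hBA, hPB, a₀, w₀, e₀, g', h5, h6, h7, h8, h9, hch⟩, hn⟩ -
  have hPB' : Pe F.p A' ≤ 1 / c₀ * Pe F.p B := by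
    rw [div_mul_eq_mul_div, one_mul, le_div_iff₀ hc₀]
    linarith
  have hfl : ⌊(t + V' k * q) * J⌋₊ ≤ ⌊(w' : ℝ) * J⌋₊ :=
    Nat.floor_mono (mul_le_mul_of_nonneg_right hw1.le (Nat.cast_nonneg J))
  have hfb : ⌊(bet (P₂ i) c i w' w' + γ * q / 4) * J⌋₊ ≤
      ⌊(L i (t + V' k * q) (t + V' k * q) + γ * q) * J⌋₊ :=
    Nat.floor_mono (mul_le_mul_of_nonneg_right (by linarith) (Nat.cast_nonneg J))
  exact hn B hBA hPB' a₀ w₀ e₀ g' h5 (h6.trans hfl) (h5.trans (h6.trans hfl)) h7 h8 (by omega) hch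

end Pool.STA37
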