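import Pool.Agent.H37.STA.Few
import Pool.Agent.H91.LA.Njet
import Pool.Agent.H91.LA.Own

/-!
# Closed polynomials give labels

`lbp_of`: a closed polynomial as a label. `qjet_of`: its jets are admissible.
-/

set_option autoImplicit false

namespace Pool.STA37

open Finset Real MvPolynomial
open Pool.Agent.H49.Ent Pool.Agent.H32.Dense Pool.STK Pool.KA Pool.KSAT Pool.K2S Pool.PB Pool.S6C
open Pool.GEN Pool.CHT Pool.D2F Pool.RCD Pool.GRD
open Pool.LA91 (jet ojet qJet qJets cnt_le_of_abs)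

variable {m J : ℕ}

/-- The number of the values of digits. -/
theorem cnt_fl {Ω : Type} [Fintype Ω] {p : Ω → ℝ} {A : Ω → Prop} {N : ℝ} {J : ℕ} (hJ : 1 ≤ J)
    (hN1 : N ≤ 1) {X : Ω → ℝ} {n : ℕ} (hX : ∀ ω, A ω → |X ω| ≤ 2 ^ (n * J)) {K : ℕ}
    (hK : n + 3 ≤ K) :
    (Pool.S6C.cnt p (fun ω => ⌊(2 : ℝ) ^ (N * J) * X ω⌋) A : ℝ) ≤ Real.exp (K * J) := by
  have hJ0 : (0 : ℝ) ≤ J := Nat.cast_nonneg J
  have hJ1 : (1 : ℝ) ≤ J := by exact_mod_cast hJ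
  have p0 : (0 : ℝ) < 2 ^ (N * J) := Real.rpow_pos_of_pos two_pos _
  have p1 : (2 : ℝ) ^ (N * J) ≤ 2 ^ J := by
    rw [← Real.rpow_natCast]
    exact Real.rpow_le_rpow_of_exponent_le (by norm_num) (by nlinarith)
  have h1 : ∀ ω, A ω → |((⌊(2 : ℝ) ^ (N * J) * X ω⌋ : ℤ) : ℝ)| ≤ 2 ^ J * 2 ^ (n * J) + 1 := by
    intro ω hω
    have f1 := Int.floor_le ((2 : ℝ) ^ (N * J) * X ω)
    have f2 := Int.lt_floor_add_one ((2 : ℝ) ^ (N * J) * X ω)
    have f3 : |(2 : ℝ) ^ (N * J) * X ω| ≤ 2 ^ J * 2 ^ (n * J) := by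
      rw [abs_mul, abs_of_pos p0]
      exact mul_le_mul p1 (hX ω hω) (abs_nonneg _) (by positivity)
    rw [abs_le] at f3
    rw [abs_le]
    constructor <;> linarith [f3.1, f3.2]
  have h2 := cnt_le_of_abs (p := p) (A := A)
    (by positivity : (0 : ℝ) ≤ 2 ^ J * 2 ^ (n * J) + 1) h1
  refine h2.trans ?_
  have h3 : (2 : ℝ) ≤ Real.exp 1 := by
    have := Real.add_one_le_exp (1 : ℝ)
    linarith
  have e1 : ∀ N' : ℕ, (2 : ℝ) ^ N' ≤ Real.exp N' := fun N' => by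
    calc (2 : ℝ) ^ N' ≤ Real.exp 1 ^ N' := pow_le_pow_left₀ (by norm_num) h3 N'
      _ = Real.exp N' := by rw [← Real.exp_nat_mul, mul_one]
  have e2 : (2 : ℝ) ^ J * 2 ^ (n * J) ≤ Real.exp (((n + 1 : ℕ) : ℝ) * J) := by
    rw [← pow_add]
    refine (e1 (J + n * J)).trans (Real.exp_le_exp.2 (le_of_eq ?_))
    push_cast
    ring
  have e4 : (5 : ℝ) ≤ Real.exp (2 * J) := by
    have h4 : (2.7 : ℝ) ≤ Real.exp 1 := by
      have := Real.exp_one_gt_d9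
      linarith
    have h5 : Real.exp 1 * Real.exp 1 ≤ Real.exp (2 * J) := by
      rw [← Real.exp_add]
      exact Real.exp_le_exp.2 (by linarith)
    nlinarith
  have e5 : (1 : ℝ) ≤ 2 ^ J * 2 ^ (n * J) :=
    one_le_mul_of_one_le_of_one_le (one_le_pow₀ (by norm_num)) (one_le_pow₀ (by norm_num))
  have e6 : 2 * ((2 : ℝ) ^ J * 2 ^ (n * J) + 1) + 1 ≤ 5 * (2 ^ J * 2 ^ (n * J)) := by linarith
  refine e6.trans ((mul_le_mul e4 e2 (by positivity) (Real.exp_pos _).le).trans ?_)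
  rw [← Real.exp_add]
  refine Real.exp_le_exp.2 ?_
  have h7 : ((n + 3 : ℕ) : ℝ) ≤ K := by exact_mod_cast hK
  have h8 := mul_le_mul_of_nonneg_right h7 hJ0
  push_cast at h8 ⊢
  linarith

/-- A closed polynomial as a label. -/
theorem lbp_of {F : Fam m J} {I : Finset (Fin m)} {k : Fin m} {K w P : ℕ} {A : F.Ω → Prop}
    {g : F.Ω → MvPolynomial (Option (Fin m)) ℝ}
    (hc : Cl2 (slam F w) (fun ω => ptr F J ω) A g) (hd : ∀ ω, A ω → (g ω).totalDegree ≤ K)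
    (hI : ∀ ω, A ω → ∀ b b' : Option (Fin m) → ℝ, b none = b' none →
      (∀ i ∈ I, b (some i) = b' (some i)) → eval b (g ω) = eval b' (g ω))
    (hp : ∀ ω, A ω → |F.x ω k - eval (bt F ω) (g ω)| ≤ 1 / 2 ^ P) :
    ∃ (V : Type) (z : PtT F → V) (z' : LnT F → V) (G : V → MvPolynomial (Option (Fin m)) ℝ),
      LbP F I k K J w P A z z' G ∧ ∀ ω, A ω → G (z' (slam F w ω)) = g ω := by
  classical
  obtain ⟨⟨φ, hφ⟩, ψ, hψ⟩ := hc
  obtain ⟨G, hG⟩ : ∃ G : MvPolynomial (Option (Fin m)) ℝ → MvPolynomial (Option (Fin m)) ℝ,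
      G = fun v => if v.totalDegree ≤ K ∧ ∀ b b' : Option (Fin m) → ℝ, b none = b' none →
      (∀ i ∈ I, b (some i) = b' (some i)) → eval b v = eval b' v then v else 0 := ⟨_, rfl⟩
  have hGg : ∀ ω, A ω → G (φ (slam F w ω)) = g ω := fun ω hω => by
    rw [← hφ ω hω, hG]
    exact if_pos ⟨hd ω hω, hI ω hω⟩
  refine ⟨MvPolynomial (Option (Fin m)) ℝ, ψ, φ, G, ⟨fun v => ?_, fun v b b' hn hi => ?_,
    fun ω hω => ?_, fun ω hω => ?_⟩, hGg⟩
  · rw [hG]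
    show (if _ then v else 0 : MvPolynomial (Option (Fin m)) ℝ).totalDegree ≤ K
    split_ifs with h
    · exact h.1
    · rw [totalDegree_zero]
      exact Nat.zero_le _
  · rw [hG]
    show eval b (if _ then v else 0 : MvPolynomial (Option (Fin m)) ℝ) =
      eval b' (if _ then v else 0 : MvPolynomial (Option (Fin m)) ℝ)
    split_ifs with h
    · exact h.2 b b' hn hi
    · rw [map_zero, map_zero]
  · rw [← hψ ω hω, ← hφ ω hω]
  · rw [hGg ω hω]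
    exact hp ω hω

/-- The jets over a closed polynomial are admissible. -/
theorem qjet_of {F : Fam m J} {I : Finset (Fin m)} {k : Fin m} {j K n : ℕ} {w p N e : ℝ}
    {A : F.Ω → Prop} {g : F.Ω → MvPolynomial (Option (Fin m)) ℝ} (hJ : 1 ≤ J) (hN : N ≤ 1)
    (hc : Cl2 (slam F ⌊w * J⌋₊) (fun ω => ptr F J ω) A g) (hd : ∀ ω, A ω → (g ω).totalDegree ≤ K)
    (hI : ∀ ω, A ω → ∀ b b' : Option (Fin m) → ℝ, b none = b' none →
      (∀ i ∈ I, b (some i) = b' (some i)) → eval b (g ω) = eval b' (g ω))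
    (hp : ∀ ω, A ω → |F.x ω k - eval (bt F ω) (g ω)| ≤ 1 / 2 ^ ⌊(p - e) * J⌋₊)
    (hb : ∀ ω, A ω → |ojet F k j (g ω) ω| ≤ 2 ^ (n * J)) (hK : n + 3 ≤ K) :
    (qJet m I k j w p N).P K e J F A (fun ω => ⌊(2 : ℝ) ^ (N * J) * ojet F k j (g ω) ω⌋) := by
  obtain ⟨V, z, z', G, h1, h2⟩ := lbp_of hc hd hI hp
  refine ⟨cnt_fl hJ hN hb hK, V, z, z', G, h1, fun ω hω => ?_⟩
  rw [h2 ω hω]

end Pool.STA37
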