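import Pool.Agent.H37.STA.Dgw
import Pool.Agent.H98.STB.Rdg
import Pool.Agent.H98.STB.NfF

/-!
# The lower bounds and the readings of the position

`low_cls`: the time and the positions are full behind closed records. `chart_near`: the chart of the
second coordinate. `posR_ch`: the readings of the position in a chart. `xf_near`: the far digits are
determined by the position. `dT_num`, `dX_num`: the numbers.
-/

set_option autoImplicit false

namespace Pool.STA37

open Finset Real MvPolynomial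
open Pool.Agent.H49.Ent Pool.Agent.H32.Dense Pool.STK Pool.KA Pool.KSAT Pool.K2S Pool.PB Pool.S6C
open Pool.GEN Pool.CHT Pool.RCD Pool.D2F
open Pool.STB (V3 Po Bx Hb cv cl_earlier PosR cnt_int cg VbT p2 lg_le posR_of x_near mv_pd)
open Pool.STB65 (InpP InpF PosO JetO nu nu_pos Rs Rs_pos grd_bx)
open Pool.STB82 (yv hgP Fst dg lift_D full_cls)
open Pool.LA91 (jet ojet FulC)
open Pool.PB.Trl (rt rt_mem t_rt)

variable {m J : ℕ}

/-- The lower bounds behind the closed records of a window. -/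
structure LowP (F : Fam m J) (A : F.Ω → Prop) (c : ℕ → Fin m) (sf : ℕ → ℝ) (w : ℕ) (r : ℝ) :
    Prop where
  kT : ((J : ℝ) - w) * Real.log 2 - r ≤
    CH (Pool.Agent.H49.Ent.cond F.p A True) (fun ω => F.W ω) (slam F w)
  kX : ∀ (V₂ : Type) (z₂ : PtT F → V₂) (z₂' : LnT F → V₂),
    (∀ ω, A ω → z₂ (ptr F J ω) = z₂' (slam F w ω)) →
    (1 - sf 0) * Real.log 2 * J - r ≤ CH (Pool.Agent.H49.Ent.cond F.p A True)
      (fun ω => F.X J ω (c 0)) (fun ω => (z₂' (slam F w ω), F.W ω)) ∧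
    (1 - sf 1) * Real.log 2 * J - r ≤ CH (Pool.Agent.H49.Ent.cond F.p A True)
      (fun ω => F.X J ω (c 1)) (fun ω => (F.X J ω (c 0), z₂' (slam F w ω), F.W ω))

/-- **The lower bounds**, class form. -/
theorem low_cls {S : PCl m} (hS : TmH S) {c : ℕ → Fin m} {a : ℝ} {sf : ℕ → ℝ} (ha1 : a ≤ 1)
    (hful : FulC S c 0 2 a sf) {ε : ℝ} (hε : 0 < ε) :
    Bas S (fun J F A => 0 < Pe F.p A ∧ ∀ w : ℕ, w ≤ ⌊a * J⌋₊ → LowP F A c sf w (ε * J)) := by
  obtain ⟨J₂, hJ₂⟩ := exists_nat_ge (Real.log 3 / (ε / 2))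
  have hρ : 0 < ε / 2 := by linarith
  refine Bas.mono (max J₂ 1) ((full_cls hS (ε := ε / 2) hρ).and (hful (ε / 2) hρ)) ?_
  rintro J hJ F B ⟨⟨hB, hT⟩, Hf⟩
  refine ⟨hB, fun w hw => ?_⟩
  have hJ1 : 1 ≤ J := (le_max_right _ _).trans hJ
  have hJ0 : (1 : ℝ) ≤ J := by exact_mod_cast hJ1
  have haJ : ⌊a * J⌋₊ ≤ J := by
    refine Nat.floor_le_of_le ?_
    nlinarith
  have hWk : w ≤ J := hw.trans haJ
  have h3 : Real.log 3 ≤ ε / 2 * J := by
    have h1 : Real.log 3 / (ε / 2) ≤ J := hJ₂.trans (by exact_mod_cast (le_max_left _ _).trans hJ)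
    rw [div_le_iff₀ (by positivity)] at h1
    linarith
  have hl2 : Real.log 2 ≤ 1 := by
    have := Real.log_two_lt_d9
    linarith
  have hl0 : 0 < Real.log 2 := Real.log_pos one_lt_two
  constructor
  · have h1 := hT w (J - w) (by omega)
    have h2 : ((J : ℝ) - (w : ℝ)) * Real.log 2 ≤ Real.log (2 * ((2 ^ (J - w) : ℕ) : ℝ) + 1) := by
      have e1 : ((J : ℝ) - (w : ℝ)) = ((J - w : ℕ) : ℝ) := by
        rw [Nat.cast_sub hWk]
      rw [e1, ← Real.log_pow]
      refine Real.log_le_log (by positivity) ?_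
      push_cast
      have : (1 : ℝ) ≤ 2 ^ (J - w) := one_le_pow₀ one_le_two
      linarith
    have h4 : CH (Pool.Agent.H49.Ent.cond F.p B True) (dg F w (J - w)) (slam F w) ≤
        CH (Pool.Agent.H49.Ent.cond F.p B True) (fun ω => F.W ω) (slam F w) :=
      CH_mono_left (isLaw_cond F.isLaw hB).nonneg fun ω ω' a b e => by
        simp only [Prod.mk.injEq] at e
        have e4 : F.T ω = F.T ω' := congrArg Prod.fst e.1
        unfold dg Fam.T1
        rw [e4]
    linarith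
  · intro V₂ z₂ z₂' hz₂
    obtain ⟨D', hD'⟩ := lift_D F hw haJ z₂'
    have h1 := Hf V₂ z₂ D' (fun ω hω => by rw [hD', hz₂ ω hω])
    have hn0 := (isLaw_cond F.isLaw hB).nonneg
    have e1 : ε / 2 * Real.log 2 * J ≤ ε * J := by
      have : ε / 2 * Real.log 2 ≤ ε * 1 := by nlinarith
      nlinarith
    have c0 := h1 0 le_rfl (by norm_num)
    have c1 := h1 1 (by norm_num) (by norm_num)
    refine ⟨le_trans ?_ (c0.trans ?_), le_trans ?_ (c1.trans ?_)⟩
    · have : (1 - sf 0 - ε / 2) * Real.log 2 * J = (1 - sf 0) * Real.log 2 * J -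
        ε / 2 * Real.log 2 * J := by ring
      linarith
    · refine CH_mono_cond hn0 fun ω ω' _ _ e => ?_
      simp only [Prod.mk.injEq] at e ⊢
      rw [hD', hD'] at e
      exact e.2
    · have : (1 - sf 1 - ε / 2) * Real.log 2 * J = (1 - sf 1) * Real.log 2 * J -
        ε / 2 * Real.log 2 * J := by ring
      linarith
    · refine CH_mono_cond hn0 fun ω ω' _ _ e => ?_
      simp only [Prod.mk.injEq] at e ⊢
      rw [hD', hD'] at e
      exact ⟨congrFun e.1 0, e.2⟩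

/-- **The chart of the second coordinate** at two points with one time and first coordinate. -/
theorem chart_near {F : Fam m J} {c : ℕ → Fin m} {ω ω' : F.Ω} (hW : F.W ω = F.W ω')
    (h0 : F.X J ω (c 0) = F.X J ω' (c 0)) {P : MvPolynomial (Option (Fin m)) ℝ}
    (hP : DepC c 1 P) {L : ℝ}
    (hL : ∀ b : Option (Fin m) → ℝ, b none = F.t ω → |b (some (c 0)) - F.x ω (c 0)| ≤ 1 / 2 ^ J →
      |eval b (pderiv (some (c 0)) P)| ≤ L) :
    |eval (bt F ω) P - eval (bt F ω') P| ≤ L / 2 ^ J := by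
  have ht : F.t ω = F.t ω' := by
    have h3 : F.T ω = F.T ω' := congrArg Prod.fst hW
    show (F.T ω : ℝ) / 2 ^ J = (F.T ω' : ℝ) / 2 ^ J
    rw [h3]
  obtain ⟨x', hx'⟩ : ∃ x' : Option (Fin m) → ℝ, x' = fun o => if o = some (c 0) then
    bt F ω' o else bt F ω o := ⟨_, rfl⟩
  have e1 : eval (bt F ω') P = eval x' P := by
    refine hP _ _ ?_ fun l hl => ?_
    · rw [hx']
      simp only
      rw [if_neg (by simp)]
      exact ht.symm
    · rw [hx']
      simp only
      have : l = 0 := by omega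
      subst this
      rw [if_pos rfl]
  have hd : |F.x ω' (c 0) - F.x ω (c 0)| ≤ 1 / 2 ^ J := by
    rw [abs_sub_comm]
    exact x_near F h0
  rw [abs_sub_comm, e1]
  refine (mv_pd P (bt F ω) x' (M := fun o => if o = some (c 0) then
    L / 2 ^ J else 0) ?_).trans (le_of_eq ?_)
  · intro t ht' o
    split_ifs with ho
    · subst ho
      have a1 : |x' (some (c 0)) - bt F ω (some (c 0))| ≤ 1 / 2 ^ J := by
        rw [hx']
        show |(if some (c 0) = some (c 0) then bt F ω' (some (c 0)) else bt F ω (some (c 0))) -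
          bt F ω (some (c 0))| ≤ _
        rw [if_pos rfl]
        exact hd
      have a2 : |eval (fun o => bt F ω o + t * (x' o - bt F ω o))
          (pderiv (some (c 0)) P)| ≤ L := by
        refine hL _ ?_ ?_
        · have e3 : x' none - bt F ω none = 0 := by
            rw [hx']
            simp only
            rw [if_neg (by simp), sub_self]
          simp only [e3]
          show F.t ω + t * 0 = F.t ω
          rw [mul_zero, add_zero]
        · have e2 : bt F ω (some (c 0)) + t * (x' (some (c 0)) - bt F ω (some (c 0))) -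
              F.x ω (c 0) = t * (x' (some (c 0)) - bt F ω (some (c 0))) := by
            show F.x ω (c 0) + _ - F.x ω (c 0) = _
            ring
          simp only [e2]
          rw [abs_mul, abs_of_nonneg ht'.1]
          have := abs_nonneg (x' (some (c 0)) - bt F ω (some (c 0)))
          nlinarith [ht'.1, ht'.2]
      have hL0 : 0 ≤ L := (abs_nonneg _).trans a2
      calc _ ≤ L * (1 / 2 ^ J) := mul_le_mul a2 a1 (abs_nonneg _) hL0
        _ = L / 2 ^ J := by ring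
    · have e3 : x' o - bt F ω o = 0 := by
        rw [hx']
        simp only
        rw [if_neg ho, sub_self]
      rw [e3, abs_zero, mul_zero]
  · rw [Finset.sum_ite_eq' Finset.univ, if_pos (Finset.mem_univ _)]

/-- **The readings of the position in a chart.** -/
theorem posR_ch {F : Fam m J} {c : ℕ → Fin m} {A : F.Ω → Prop} {W d k n g e₁' i : ℕ} {σ K : ℝ}
    {Pl : LnT F → MvPolynomial (Option (Fin m)) ℝ} {h : LnT F → Fin 3 → Polynomial ℝ}
    {ctr xo : ℕ → F.Ω → V3} {D₁ : LnT F → V3}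
    (O : PosO F A W d k n σ K (yv F c W g Pl) h ctr xo D₁) (hi : i < n) (hσ : 0 < σ)
    (hJ : W + d + i * k + k ≤ J) (hPp : ∀ ω, A ω → DepC c 1 (Pl (slam F W ω)))
    (hPg : ∀ ω, A ω → ∀ b : Option (Fin m) → ℝ, b none = F.t ω →
      |b (some (c 0)) - F.x ω (c 0)| ≤ 1 / 2 ^ J →
      |eval b (pderiv (some (c 0)) (Pl (slam F W ω)))| ≤ 2 ^ e₁')
    {Y₀ : Type} {y₀ : F.Ω → Y₀}
    (hc : ∀ ω ω', A ω → A ω' → y₀ ω = y₀ ω' → ctr i ω = ctr i ω' ∧
      (slam F W ω).2.2 = (slam F W ω').2.2 ∧ Pl (slam F W ω) = Pl (slam F W ω')) :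
    PosR F A k (c 0) (c 1) (xo i) y₀ (5 * σ * 2 ^ J / 2 ^ (W + d + i * k + k))
      (5 * σ * 2 ^ J / 2 ^ (W + d + i * k + k) + 1)
      (5 * σ * 2 ^ J / 2 ^ (g + d + i * k + k) + 2 ^ e₁' + 1) :=
  posR_of F hσ O hi hJ (κ₀ := c 0) (κ₁ := c 1) (g₀ := W) (g₁ := g)
    (b₀ := fun _ => 0) (b₁ := fun ω => eval (bt F ω) (Pl (slam F W ω))) (Lp := 2 ^ e₁') (y₀ := y₀)
    (fun ω ω' a b h => ⟨(hc ω ω' a b h).1, (hc ω ω' a b h).2.1⟩) (fun ω _ => rfl)
    (fun ω _ => by
      show 2 ^ W * F.x ω (c 0) = _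
      rw [sub_zero]) (fun ω _ => rfl) (fun ω ω' _ _ _ _ => rfl) fun ω ω' a b h hW h0 => by
    rw [← (hc ω ω' a b h).2.2]
    exact chart_near hW h0 (hPp ω a) (hPg ω a)

/-- **The far digits** are determined by the position. -/
theorem xf_near {F : Fam m J} {c : ℕ → Fin m} {A : F.Ω → Prop} {W d k n g e₁' i : ℕ} {σ K : ℝ}
    {Pl : LnT F → MvPolynomial (Option (Fin m)) ℝ} {h : LnT F → Fin 3 → Polynomial ℝ}
    {ctr xo : ℕ → F.Ω → V3} {D₁ : LnT F → V3}
    (O : PosO F A W d k n σ K (yv F c W g Pl) h ctr xo D₁) (hi : i < n) (hσ : 1 ≤ σ)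
    (hWJ : W ≤ J) (h1 : W + (d + i * k + k) ≤ J) (h2 : g + e₁' + 1 + (d + i * k + k) ≤ J)
    (hPp : ∀ ω, A ω → DepC c 1 (Pl (slam F W ω)))
    (hPg : ∀ ω, A ω → ∀ b : Option (Fin m) → ℝ, b none = F.t ω →
      |b (some (c 0)) - F.x ω (c 0)| ≤ 1 / 2 ^ J →
      |eval b (pderiv (some (c 0)) (Pl (slam F W ω)))| ≤ 2 ^ e₁') {ω ω' : F.Ω} (hω : A ω)
    (hω' : A ω') (ec : ctr i ω = ctr i ω') (et : (slam F W ω).2.2 = (slam F W ω').2.2)
    (eP : Pl (slam F W ω) = Pl (slam F W ω')) (eW : F.W ω = F.W ω')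
    (e0 : F.X J ω (c 0) = F.X J ω' (c 0)) (e1 : F.X J ω (c 1) = F.X J ω' (c 1)) (j : Fin 3) :
    |xo i ω j - xo i ω' j| ≤ 5 / 2 ^ k := by
  have hk : (0 : ℝ) < 2 ^ k := by positivity
  have hσ0 : 0 < σ := by linarith
  have hR := Rs_pos (d := d) (k := k) hσ0 i
  have hRk : Rs d k σ i ≤ 2 ^ (d + i * k) := div_le_self (by positivity) hσ
  -- the coordinates
  have key : ∀ j, Rs d k σ i * |yv F c W g Pl ω j - yv F c W g Pl ω' j| ≤ 1 / 2 ^ k := by
    intro j
    have hgen : ∀ z : ℝ, |z| ≤ 1 / 2 ^ (d + i * k + k) → Rs d k σ i * |z| ≤ 1 / 2 ^ k := by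
      intro z hz
      calc Rs d k σ i * |z| ≤ 2 ^ (d + i * k) * (1 / 2 ^ (d + i * k + k)) :=
            mul_le_mul hRk hz (abs_nonneg _) (by positivity)
        _ = 1 / 2 ^ k := by
          rw [pow_add (2 : ℝ) (d + i * k) k]
          field_simp
    refine hgen _ ?_
    have hT : F.T ω = F.T ω' := congrArg Prod.fst eW
    fin_cases j
    · show |rt F W ω - rt F W ω'| ≤ _
      have h4 : rt F W ω = rt F W ω' := by
        have t1 := t_rt F hWJ ω
        have t2 := t_rt F hWJ ω'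
        have t3 : F.t ω = F.t ω' := by
          show (F.T ω : ℝ) / 2 ^ J = (F.T ω' : ℝ) / 2 ^ J
          rw [hT]
        rw [t3, t2, et] at t1
        have hp2 : (0 : ℝ) < 2 ^ W := by positivity
        field_simp at t1
        linarith
      rw [h4, sub_self, abs_zero]
      positivity
    · show |2 ^ W * F.x ω (c 0) - 2 ^ W * F.x ω' (c 0)| ≤ _
      rw [← mul_sub, abs_mul, abs_of_pos (by positivity : (0 : ℝ) < 2 ^ W)]
      refine (mul_le_mul_of_nonneg_left (x_near F e0) (by positivity)).trans ?_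
      rw [mul_one_div, div_le_div_iff₀ (by positivity) (by positivity), one_mul, ← pow_add]
      exact p2 h1
    · show |2 ^ g * (F.x ω (c 1) - eval (bt F ω) (Pl (slam F W ω))) -
        2 ^ g * (F.x ω' (c 1) - eval (bt F ω') (Pl (slam F W ω')))| ≤ _
      rw [← mul_sub, abs_mul, abs_of_pos (by positivity : (0 : ℝ) < 2 ^ g), ← eP]
      have q1 := x_near F e1
      have q2 := chart_near eW e0 (hPp ω hω) (hPg ω hω)
      have q3 : F.x ω (c 1) - eval (bt F ω) (Pl (slam F W ω)) -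
          (F.x ω' (c 1) - eval (bt F ω') (Pl (slam F W ω))) =
          (F.x ω (c 1) - F.x ω' (c 1)) -
            (eval (bt F ω) (Pl (slam F W ω)) - eval (bt F ω') (Pl (slam F W ω))) := by ring
      rw [q3]
      have q4 : |(F.x ω (c 1) - F.x ω' (c 1)) -
            (eval (bt F ω) (Pl (slam F W ω)) - eval (bt F ω') (Pl (slam F W ω)))| ≤
            2 ^ (e₁' + 1) / 2 ^ J := by
        refine (abs_sub _ _).trans ((add_le_add q1 q2).trans ?_)
        rw [← add_div]
        refine div_le_div_of_nonneg_right ?_ (by positivity)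
        have : (1 : ℝ) ≤ 2 ^ e₁' := one_le_pow₀ one_le_two
        rw [pow_succ]
        linarith
      refine (mul_le_mul_of_nonneg_left q4 (by positivity)).trans ?_
      rw [← mul_div_assoc, div_le_div_iff₀ (by positivity) (by positivity), one_mul, ← pow_add,
        ← pow_add]
      exact p2 (by omega)
  have a1 := O.qx i hi ω hω j
  have a2 := O.qx i hi ω' hω' j
  rw [← ec] at a2
  have a3 : |(Rs d k σ i • (yv F c W g Pl ω - ctr i ω)) j -
      (Rs d k σ i • (yv F c W g Pl ω' - ctr i ω)) j| ≤ 1 / 2 ^ k := by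
    simp only [Pi.smul_apply, Pi.sub_apply, smul_eq_mul]
    rw [← mul_sub, abs_mul, abs_of_pos hR]
    have e3 : yv F c W g Pl ω j - ctr i ω j - (yv F c W g Pl ω' j - ctr i ω j) =
        yv F c W g Pl ω j - yv F c W g Pl ω' j := by ring
    rw [e3]
    exact key j
  simp only [Pi.sub_apply] at a1 a2
  have e5 : (5 : ℝ) / 2 ^ k = 2 / 2 ^ k + 1 / 2 ^ k + 2 / 2 ^ k := by ring
  rw [e5]
  obtain ⟨u, hu⟩ : ∃ u, u = (Rs d k σ i • (yv F c W g Pl ω - ctr i ω)) j := ⟨_, rfl⟩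
  obtain ⟨v, hv⟩ : ∃ v, v = (Rs d k σ i • (yv F c W g Pl ω' - ctr i ω)) j := ⟨_, rfl⟩
  rw [← hu] at a1 a3
  rw [← hv] at a2 a3
  have b1 := abs_le.1 a1
  have b2 := abs_le.1 a2
  have b3 := abs_le.1 a3
  rw [abs_le]
  constructor <;> linarith

/-- The number of the times. -/
theorem dT_num {J n y : ℕ} (hn : n ≤ J) :
    Real.log (5 * (2 ^ y) ^ 2 * 2 ^ J / 2 ^ n + 1) ≤
      ((J : ℝ) - n) * Real.log 2 + ((2 * y + 3 : ℕ) : ℝ) * Real.log 2 := by
  have h1 : (5 : ℝ) * (2 ^ y) ^ 2 * 2 ^ J / 2 ^ n = 5 * 2 ^ (2 * y + (J - n)) := by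
    rw [div_eq_iff (by positivity), mul_assoc 5, mul_assoc 5, ← pow_mul, ← pow_add, ← pow_add]
    congr 2
    omega
  have h2 : (1 : ℝ) ≤ 2 ^ (2 * y + (J - n)) := one_le_pow₀ one_le_two
  have h3 := lg_le (z := 5 * (2 ^ y) ^ 2 * 2 ^ J / 2 ^ n + 1) (a := 3 + (2 * y + (J - n)))
    (by positivity) (by
      rw [h1, pow_add (2 : ℝ) 3]
      norm_num
      linarith)
  refine h3.trans (le_of_eq ?_)
  push_cast [Nat.cast_sub hn]
  ring

/-- The numbers of the positions. -/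
theorem dX_num {J n g y x e : ℕ} {s0 s1 : ℝ} (hn : n ≤ J) (hg : g + e ≤ J)
    (h0 : s0 * J ≤ n + x) (h1 : s1 * J ≤ g + x) :
    Real.log (5 * (2 ^ y) ^ 2 * 2 ^ J / 2 ^ n + 1 + 1) +
      Real.log (5 * (2 ^ y) ^ 2 * 2 ^ J / 2 ^ g + 2 ^ e + 1 + 1) ≤
      (1 - s0) * Real.log 2 * J + (1 - s1) * Real.log 2 * J +
        ((2 * x + 4 * y + 6 : ℕ) : ℝ) * Real.log 2 := by
  have hl : 0 < Real.log 2 := Real.log_pos one_lt_two
  have hb : ∀ {a : ℕ}, a ≤ J → (5 : ℝ) * (2 ^ y) ^ 2 * 2 ^ J / 2 ^ a =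
      5 * 2 ^ (2 * y + (J - a)) := by
    intro a ha
    rw [div_eq_iff (by positivity), mul_assoc 5, mul_assoc 5, ← pow_mul, ← pow_add, ← pow_add]
    congr 2
    omega
  have h2 : (1 : ℝ) ≤ 2 ^ (2 * y + (J - n)) := one_le_pow₀ one_le_two
  have h3 := lg_le (z := 5 * (2 ^ y) ^ 2 * 2 ^ J / 2 ^ n + 1 + 1) (a := 3 + (2 * y + (J - n)))
    (by positivity) (by
      rw [hb hn, pow_add (2 : ℝ) 3]
      norm_num
      linarith)
  have h4 : (1 : ℝ) ≤ 2 ^ (2 * y + (J - g)) := one_le_pow₀ one_le_two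
  have h5 : (2 : ℝ) ^ e ≤ 2 ^ (2 * y + (J - g)) := p2 (by omega)
  have h6 := lg_le (z := 5 * (2 ^ y) ^ 2 * 2 ^ J / 2 ^ g + 2 ^ e + 1 + 1)
    (a := 3 + (2 * y + (J - g))) (by positivity) (by
      rw [hb (by omega), pow_add (2 : ℝ) 3]
      norm_num
      linarith)
  refine (add_le_add h3 h6).trans ?_
  push_cast [Nat.cast_sub hn, Nat.cast_sub (show g ≤ J by omega)]
  nlinarith [mul_le_mul_of_nonneg_left h0 hl.le, mul_le_mul_of_nonneg_left h1 hl.le]

end Pool.STA37
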