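import Pool.Agent.H37.STA.Low

/-!
# The row of the velocity of the target on a part

`SuD`: the data on an event; `SuN`: the numbers. `row_part`: on a part, the velocity of the target at
the window `i` given the data of the line and the digits of the window is few bits.
-/

set_option autoImplicit false

namespace Pool.STA37

open Finset Real MvPolynomial
open Pool.Agent.H49.Ent Pool.Agent.H32.Dense Pool.STK Pool.KA Pool.KSAT Pool.K2S Pool.PB Pool.S6C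
open Pool.GEN Pool.CHT Pool.RCD Pool.D2F
open Pool.STB (V3 Po Bx Hb cv cl_earlier PosR cnt_int cg VbT p2 lg_le)
open Pool.STB65 (InpP InpF PosO JetO nu nu_pos Rs Rs_pos grd_bx)
open Pool.STB82 (yv hgP Fst exists_fst)
open Pool.LA91 (jet ojet FulC)
open Pool.PB.Trl (rt rt_mem t_rt)

variable {m J : ℕ}

/-- **The data on an event.** -/
structure SuD (F : Fam m J) (c : ℕ → Fin m) (B : F.Ω → Prop) (K n N b E E' : ℕ) (t : VbT F)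
    (f : FaT F) (Kp Kp' Kc Ve : ℝ) (ctr xo ctr' xo' : ℕ → F.Ω → V3) (D₁ D₁' : LnT F → V3)
    (Jo Ci : ℕ → F.Ω → Po) (Φ₁ : LnT F → Po) : Prop where
  ev : SuE F c B K n N b t
  O : PosO F B t.W₀ t.k t.k n ((2 ^ t.y) ^ 2) Kp (yv F c t.W₀ t.g1 t.Pl) (hgP c t.W₀ t.g1 t.Pl) ctr
    xo D₁
  Jt : JetO F B t.W₀ t.k t.k n b ((2 ^ t.y) ^ 2) ((2 ^ t.y) ^ E') Kc ((2 ^ t.y) ^ E)
    (yv F c t.W₀ t.g1 t.Pl) t.f t.ji ctr xo Jo Ci Φ₁
  Ef : FaE F c B K t.y t.e₁' t.W₀ t.g1 t.Pl f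
  O' : PosO F B f.W f.d f.k 1 ((2 ^ t.y) ^ 2) Kp' (yv F c f.W f.g f.Pl) (hgP c f.W f.g f.Pl)
    ctr' xo' D₁'
  vel : ∀ i < n, ∀ ω, B ω →
    |1 / 2 ^ (t.W₀ + t.k + i * t.k) * ojet F (c 2) 1 (cgi c t E' b ctr Ci i ω) ω -
      mui t E' b i * ∑ j, eval (xo i ω) (pderiv j (Jo i ω)) * D₁ (slam F (t.W₀ + t.k) ω) j| ≤
      mui t E' b i * (Ve / 2 ^ t.k)

theorem SuD.sub {F : Fam m J} {c : ℕ → Fin m} {B B' : F.Ω → Prop} {K n N b E E' : ℕ} {t : VbT F}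
    {f : FaT F} {Kp Kp' Kc Ve : ℝ} {ctr xo ctr' xo' : ℕ → F.Ω → V3} {D₁ D₁' : LnT F → V3}
    {Jo Ci : ℕ → F.Ω → Po} {Φ₁ : LnT F → Po}
    (h : SuD F c B K n N b E E' t f Kp Kp' Kc Ve ctr xo ctr' xo' D₁ D₁' Jo Ci Φ₁)
    (hB : Sub B' B) : SuD F c B' K n N b E E' t f Kp Kp' Kc Ve ctr xo ctr' xo' D₁ D₁' Jo Ci Φ₁ :=
  ⟨h.ev.sub hB, h.O.sub hB, h.Jt.sub hB, h.Ef.sub hB, h.O'.sub hB,
    fun i hi ω hω => h.vel i hi ω (hB ω hω)⟩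

/-- **The numbers**: `sf i` the levels behind the window `i`, `sw` the levels behind the far window
`w'`, `P` the digits of the velocities of the line, `Nf`, `N₂` the digits of the jets. -/
structure SuN {F : Fam m J} (n b E E' : ℕ) (t : VbT F) (f : FaT F) (ρ N₂ : ℝ) (Nf : ℕ → ℕ → ℝ)
    (P : Fin 2 → ℝ) (sf : ℕ → ℕ → ℝ) (sw : ℕ → ℝ) (w' : ℕ) : Prop where
  WJ : t.W₀ + t.k + n * t.k ≤ J
  ht : f.W + f.d = t.W₀ + t.k
  fJ : f.W + f.d + f.k ≤ w'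
  wJ : w' ≤ J
  f1 : f.g + t.e₁' + 1 + (f.d + f.k) ≤ J
  g1 : t.g1 + t.e₁' + (t.k + n * t.k) ≤ J
  kd : f.k ≤ f.d
  kk : t.k ≤ f.k
  nk : ∀ i < n, b * (t.k + i * t.k) + i * t.k + t.y * (E + 6) + 8 ≤ f.k
  iw : ∀ i < n, t.W₀ + t.k + i * t.k + t.k ≤ w'
  yk : 2 * t.y + 2 ≤ t.k
  ρ0 : 0 ≤ ρ
  ρ1 : ρ ≤ 2 ^ t.y
  ρe : (2 : ℝ) ^ t.g1 / 2 ^ t.W₀ = ρ * (2 ^ f.g / 2 ^ f.W)
  s : ∀ i < n, 2 ^ t.k / (mui t E' b i * 2 ^ (t.W₀ + t.k + i * t.k)) ≤ (2 : ℝ) ^ (N₂ * J)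
  N00 : (2 : ℝ) ^ (Nf 0 0 * J) * (2 ^ t.y) ^ 2 ≤ 2 ^ (f.W + f.d + f.k)
  N10 : (2 : ℝ) ^ (Nf 1 0 * J) * (2 ^ t.y) ^ 2 ≤ 2 ^ (f.g + f.d + f.k)
  N01 : (2 : ℝ) ^ (Nf 0 1 * J) * (2 ^ t.y) ^ 2 ≤ 2 ^ f.k
  N11 : (2 : ℝ) ^ (Nf 1 1 * J) * 2 ^ f.W * (2 ^ (2 * t.y + 1) / 2 ^ f.k) ≤ 2 ^ f.g
  P0 : (f.k : ℝ) ≤ P 0 * J
  P1 : (f.k : ℝ) + f.g ≤ P 1 * J + f.W
  s0 : ∀ i < n, sf i 0 * J ≤ t.W₀ + t.k + i * t.k + t.k + t.x
  s1 : ∀ i < n, sf i 1 * J ≤ t.g1 + (t.k + i * t.k + t.k) + t.x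
  w0 : sw 0 * J ≤ f.W + f.d + f.k + t.x
  w1 : sw 1 * J ≤ f.g + (f.d + f.k) + t.x

/-- **The row of the velocity of the target**, on a part. -/
theorem row_part (K b : ℕ) : ∃ C : ℝ, 1 ≤ C ∧ ∀ {m J : ℕ} {F : Fam m J} {c : ℕ → Fin m}
    {A : F.Ω → Prop} (_ : 0 < Pe F.p A) {n N E E' : ℕ} {t : VbT F} {f : FaT F}
    {Kp Kp' Kc Ve : ℝ} {ctr xo ctr' xo' : ℕ → F.Ω → V3} {D₁ D₁' : LnT F → V3}
    {Jo Ci : ℕ → F.Ω → Po} {Φ₁ : LnT F → Po}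
    (_ : SuD F c A K n N b E E' t f Kp Kp' Kc Ve ctr xo ctr' xo' D₁ D₁' Jo Ci Φ₁)
    {ρ N₂ : ℝ} {Nf : ℕ → ℕ → ℝ} {P : Fin 2 → ℝ} {sf : ℕ → ℕ → ℝ} {sw : ℕ → ℝ} {w' : ℕ}
    (_ : SuN n b E E' t f ρ N₂ Nf P sf sw w') (_ : C ≤ 2 ^ t.y) (_ : 0 ≤ Ve)
    (_ : Ve + 1 ≤ 2 ^ (t.y * (b + 3) + 4)) {i : ℕ} (_ : i < n) {r : ℝ}
    (_ : LowP F A c (sf i) (t.W₀ + t.k + i * t.k + t.k) r) (_ : LowP F A c sw w' r) {κ : ℝ}
    (_ : ∀ (V : Type) (z : F.Ω → V) (V' : Type) (z' : F.Ω → V'),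
      Fst (slam F (t.W₀ + t.k)) (fun ω => ptr F J ω) A z →
      Fst (slam F w') (fun ω => ptr F J ω) A z' →
      CH (Pool.Agent.H49.Ent.cond F.p A True) (ul c f P) (fun ω => (z ω, F.W ω)) ≤
        CH (Pool.Agent.H49.Ent.cond F.p A True) (ul c f P) (fun ω => (z' ω, F.W ω)) + κ)
    {Y₀ Z₀ : Type} {yi : F.Ω → Y₀} {z : F.Ω → Z₀} (_ : YiD F A t f ctr Ci ctr' i yi z)
    (_ : Cl2 (slam F (t.W₀ + t.k + i * t.k)) (fun ω => ptr F J ω) A yi) {r₁ : ℝ}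
    (_ : CH (Pool.Agent.H49.Ent.cond F.p A True) (upi c t E' b ctr Ci N₂)
      (fun ω => (uj F c f.W f.g f.Pl (ctr' 0) Nf ω, (z ω, F.T ω))) ≤ r₁),
    CH (Pool.Agent.H49.Ent.cond F.p A True) (vli c t E' b ctr Ci i)
      (fun ω => ((D₁ (slam F (t.W₀ + t.k) ω), D₁' (slam F (t.W₀ + t.k) ω)),
        (cv (2 ^ t.k) (xo i ω), yi ω))) ≤
      r₁ + κ + 5 * r + ((4 * t.x + t.y * (2 * b + 22) + 76 : ℕ) : ℝ) * Real.log 2 := by
  obtain ⟨C₁, hC₁, h1⟩ := row_few K b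
  obtain ⟨C₂, hC₂, h2⟩ := dg_few K
  refine ⟨C₁ + C₂, by linarith, ?_⟩
  intro m J F c A hA n N E E' t f Kp Kp' Kc Ve ctr xo ctr' xo' D₁ D₁' Jo Ci Φ₁ S ρ N₂ Nf P sf sw w' M
    hCy hVe0 hVe i hi r Lw Lw' κ fr Y₀ Z₀ yi z Yd cy r₁ hF
  have hl2 : 0 < Real.log 2 := Real.log_pos one_lt_two
  have hn0 : 0 < n := by omega
  have hwJ := M.wJ
  have hiw := M.iw i hi
  have hfJ := M.fJ
  have ht := M.ht
  have hf1 := M.f1
  have hg1 := M.g1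
  have hik : i * t.k + t.k ≤ n * t.k := by
    have h3 : (i + 1) * t.k ≤ n * t.k := Nat.mul_le_mul_right _ hi
    have h4 : (i + 1) * t.k = i * t.k + t.k := by ring
    omega
  have hYpos : (1 : ℝ) ≤ 2 ^ t.y := one_le_pow₀ one_le_two
  have hσ1 : (1 : ℝ) ≤ (2 ^ t.y) ^ 2 := one_le_pow₀ hYpos
  have few := h1 hA S.ev S.O S.Jt S.Ef S.O' hi M.WJ M.ht (by omega) M.kd (M.nk i hi) (by linarith)
    M.ρ0 M.ρ1 M.ρe (M.s i hi) M.N00 M.N10 M.N01 M.N11 Yd hF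
  -- the charts
  have gPp : ∀ ω, A ω → DepC c 1 (t.Pl (slam F t.W₀ ω)) := fun ω hω => by
    rw [← S.ev.Pc ω hω]
    exact S.ev.Pp _
  have gPg : ∀ ω, A ω → ∀ b : Option (Fin m) → ℝ, b none = F.t ω →
      |b (some (c 0)) - F.x ω (c 0)| ≤ 1 / 2 ^ J →
      |eval b (pderiv (some (c 0)) (t.Pl (slam F t.W₀ ω)))| ≤ 2 ^ t.e₁' := fun ω hω b h3 h4 => by
    rw [← S.ev.Pc ω hω]
    refine S.ev.Pg ω hω b ?_ (h4.trans ?_)
    · rw [h3, sub_self, abs_zero]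
      positivity
    · exact one_div_le_one_div_of_le (by positivity) (p2 (by omega))
  have fPp : ∀ ω, A ω → DepC c 1 (f.Pl (slam F f.W ω)) := fun ω hω => by
    rw [← S.Ef.Pc ω hω]
    exact S.Ef.Pp _
  have fPg : ∀ ω, A ω → ∀ b : Option (Fin m) → ℝ, b none = F.t ω →
      |b (some (c 0)) - F.x ω (c 0)| ≤ 1 / 2 ^ J →
      |eval b (pderiv (some (c 0)) (f.Pl (slam F f.W ω)))| ≤ 2 ^ t.e₁' := fun ω hω b h3 h4 => by
    rw [← S.Ef.Pc ω hω]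
    exact S.Ef.Pg ω hω b h3 h4
  have Pn := posR_ch S.O hi (by positivity) (by omega) gPp gPg (y₀ := yi) fun ω ω' a b e =>
    ⟨Yd.ci ω ω' a b e, Yd.t1 ω ω' a b e, Yd.Pl ω ω' a b e⟩
  have Pf := posR_ch S.O' one_pos (by positivity) (by omega) fPp fPg (y₀ := yi)
    fun ω ω' a b e => ⟨Yd.cf ω ω' a b e, Yd.tf ω ω' a b e, Yd.Pf ω ω' a b e⟩
  have cf : Cl2 (slam F w') (fun ω => ptr F J ω) A (xo' 0) := by
    have h3 := S.O'.cx 0 one_pos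
    exact h3.mono (Pool.STB82.slam_coarse F (by omega) hwJ A) ⟨id, fun _ _ => rfl⟩
  have hmu := mui_pos t E' b i
  have hk0 : (0 : ℝ) < 2 ^ t.k := by positivity
  have out := row_out (κ₀ := c 0) (κ₁ := c 1) (X := Prod.fst) (Mv := 2 ^ t.k) (K := Ve + 1)
    (D := fun s => (D₁ s, D₁' s)) hA
    (show t.W₀ + t.k ≤ t.W₀ + t.k + i * t.k by omega) hiw hwJ (S.O.cx i hi) (S.Jt.cJ i hi) cy cf
    Yd.Z (by positivity) (by positivity) (by positivity) (by positivity) (by positivity)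
    (by positivity) Pn Pf (fun ω ω' a a' e eW e0 e1 j =>
      xf_near S.O' one_pos hσ1 (by omega) (by omega) (by omega) fPp fPg a a'
        (Yd.cf ω ω' a a' e) (Yd.tf ω ω' a a' e) (Yd.Pf ω ω' a a' e) eW e0 e1 j)
    Lw.kT Lw.kX Lw'.kX (by linarith) (vel := vli c t E' b ctr Ci i) (fun ω hω => by
      have h3 := S.vel i hi ω hω
      obtain ⟨Q, hQ⟩ : ∃ Q, Q = ∑ j, eval (xo i ω) (pderiv j (Jo i ω)) *
        D₁ (slam F (t.W₀ + t.k) ω) j := ⟨_, rfl⟩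
      obtain ⟨o, ho⟩ : ∃ o, o = ojet F (c 2) 1 (cgi c t E' b ctr Ci i ω) ω := ⟨_, rfl⟩
      rw [← hQ, ← ho] at h3
      show |((⌊2 ^ t.k / (mui t E' b i * 2 ^ (t.W₀ + t.k + i * t.k)) *
        ojet F (c 2) 1 (cgi c t E' b ctr Ci i ω) ω⌋ : ℤ) : ℝ) - 2 ^ t.k *
          ∑ j, eval (xo i ω) (pderiv j (Jo i ω)) * D₁ (slam F (t.W₀ + t.k) ω) j| ≤ Ve + 1
      rw [← hQ, ← ho]
      have h4 : |2 ^ t.k / (mui t E' b i * 2 ^ (t.W₀ + t.k + i * t.k)) * o - 2 ^ t.k * Q| ≤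
          Ve := by
        have h5 : 2 ^ t.k / (mui t E' b i * 2 ^ (t.W₀ + t.k + i * t.k)) * o - 2 ^ t.k * Q =
            2 ^ t.k / mui t E' b i * (1 / 2 ^ (t.W₀ + t.k + i * t.k) * o -
              mui t E' b i * Q) := by
          field_simp
        rw [h5, abs_mul, abs_of_pos (by positivity : 0 < 2 ^ t.k / mui t E' b i)]
        calc 2 ^ t.k / mui t E' b i * |_| ≤ 2 ^ t.k / mui t E' b i * (mui t E' b i *
              (Ve / 2 ^ t.k)) := mul_le_mul_of_nonneg_left h3 (by positivity)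
          _ = Ve := by field_simp
      have h6 := Int.floor_le (2 ^ t.k / (mui t E' b i * 2 ^ (t.W₀ + t.k + i * t.k)) * o)
      have h7 := Int.lt_floor_add_one (2 ^ t.k / (mui t E' b i * 2 ^ (t.W₀ + t.k + i * t.k)) * o)
      have h8 := abs_le.1 h4
      rw [abs_le]
      constructor <;> linarith) (u := ul c f P) fr (fun V z₀ hz₀ =>
        h2 hA S.ev.Pd S.ev.Pp S.ev.Pc S.O S.Ef S.O' hn0 (by omega) M.ht M.kk M.kd M.yk (by linarith)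
          M.ρ0 M.ρ1 M.ρe M.P0 M.P1 hz₀) few
  -- the numbers
  have nT := dT_num (J := J) (n := t.W₀ + t.k + i * t.k + t.k) (y := t.y) (by omega)
  have nX := dX_num (J := J) (n := t.W₀ + t.k + i * t.k + t.k)
    (g := t.g1 + t.k + i * t.k + t.k) (y := t.y) (x := t.x) (e := t.e₁') (s0 := sf i 0)
    (s1 := sf i 1) (by omega) (by omega) (by
      have := M.s0 i hi
      push_cast
      linarith) (by
      have := M.s1 i hi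
      push_cast
      linarith)
  have nF := dX_num (J := J) (n := f.W + f.d + 0 * f.k + f.k)
    (g := f.g + f.d + 0 * f.k + f.k) (y := t.y) (x := t.x) (e := t.e₁') (s0 := sw 0)
    (s1 := sw 1) (by omega) (by omega) (by
      have := M.w0
      push_cast
      linarith) (by
      have := M.w1
      push_cast
      linarith)
  have nV : Real.log (2 * (Ve + 1) + 1) ≤ ((t.y * (b + 3) + 6 : ℕ) : ℝ) * Real.log 2 := by
    refine lg_le (by positivity) ?_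
    have h3 : (2 : ℝ) ^ (t.y * (b + 3) + 6) = 4 * 2 ^ (t.y * (b + 3) + 4) := by
      rw [pow_add, pow_add]
      norm_num
      ring
    rw [h3]
    have h4 : (1 : ℝ) ≤ 2 ^ (t.y * (b + 3) + 4) := one_le_pow₀ one_le_two
    linarith
  have n7 : Real.log 7 ≤ 3 * Real.log 2 := by
    have := lg_le (z := 7) (a := 3) (by norm_num) (by norm_num)
    exact_mod_cast this
  have n4 : Real.log (3 + 1) ≤ 2 * Real.log 2 := by
    have := lg_le (z := 3 + 1) (a := 2) (by norm_num) (by norm_num)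
    exact_mod_cast this
  refine out.trans ?_
  have e1 : ((t.W₀ + t.k + i * t.k + t.k : ℕ) : ℝ) = (t.W₀ : ℝ) + t.k + i * t.k + t.k := by
    push_cast
    ring
  have e2 : ((4 * t.x + t.y * (2 * b + 22) + 76 : ℕ) : ℝ) * Real.log 2 =
      4 * Real.log 2 * t.x + (2 * b + 22) * (Real.log 2 * t.y) + 76 * Real.log 2 := by
    push_cast
    ring
  have e3 : ((t.y * (b + 3) + 6 : ℕ) : ℝ) * Real.log 2 =
      (b + 3) * (Real.log 2 * t.y) + 6 * Real.log 2 := by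
    push_cast
    ring
  have e4 : ((2 * t.y + 3 : ℕ) : ℝ) * Real.log 2 = 2 * (Real.log 2 * t.y) + 3 * Real.log 2 := by
    push_cast
    ring
  have e5 : ((2 * t.x + 4 * t.y + 6 : ℕ) : ℝ) * Real.log 2 =
      2 * (Real.log 2 * t.x) + 4 * (Real.log 2 * t.y) + 6 * Real.log 2 := by
    push_cast
    ring
  have e6 : ((6 * t.y + 24 : ℕ) : ℝ) * Real.log 2 = 6 * (Real.log 2 * t.y) + 24 * Real.log 2 := by
    push_cast
    ring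
  rw [e3] at nV
  rw [e4] at nT
  rw [e5] at nX nF
  rw [e2, e6]
  have g1 : ∀ a b r' c : ℝ, a ≤ b + c → a - (b - r') ≤ c + r' := fun a b r' c h => by
    linarith only [h]
  have g2 : ∀ a b b' r' c : ℝ, a ≤ b + b' + c → a - (b - r' + (b' - r')) ≤ c + 2 * r' :=
    fun a b b' r' c h => by linarith only [h]
  have k1 := g1 _ _ r _ nT
  have k2 := g2 _ _ _ r _ nX
  have k3 := g2 _ _ _ r _ nF
  have k4 := add_le_add (add_le_add (add_le_add (add_le_add k1 k2) k3)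
    (mul_le_mul_of_nonneg_left nV (zero_le_two (α := ℝ)))) (mul_le_mul_of_nonneg_left n7 (by norm_num : (0 : ℝ) ≤ 3))
  generalize Real.log (5 * (2 ^ t.y) ^ 2 * 2 ^ J / 2 ^ (t.W₀ + t.k + i * t.k + t.k) + 1) = L1 at k4 ⊢
  generalize Real.log (5 * (2 ^ t.y) ^ 2 * 2 ^ J / 2 ^ (t.W₀ + t.k + i * t.k + t.k) + 1 + 1) = L2
    at k4 ⊢
  generalize Real.log (5 * (2 ^ t.y) ^ 2 * 2 ^ J / 2 ^ (t.g1 + t.k + i * t.k + t.k) + 2 ^ t.e₁' + 1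
    + 1) = L3 at k4 ⊢
  generalize Real.log (5 * (2 ^ t.y) ^ 2 * 2 ^ J / 2 ^ (f.W + f.d + 0 * f.k + f.k) + 1 + 1) = L4
    at k4 ⊢
  generalize Real.log (5 * (2 ^ t.y) ^ 2 * 2 ^ J / 2 ^ (f.g + f.d + 0 * f.k + f.k) + 2 ^ t.e₁' + 1 +
    1) = L5 at k4 ⊢
  generalize Real.log (2 * (Ve + 1) + 1) = L6 at k4 ⊢
  generalize Real.log 7 = L7 at k4 n7 ⊢
  generalize Real.log (3 + 1) = L8 at n4 ⊢
  linarith only [k4, n7, n4, hl2]

end Pool.STA37
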