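import Pool.Agent.H37.STA.Nfr
import Pool.Agent.H37.STA.Fq
import Pool.Agent.H82.STB.Chp

/-!
# The gradients of the target are few bits

`free_all`: the data of the line are free over the windows. `pdv_bd`: gradients of bounded
polynomials. `su_nf`: at a window of the chain the partial derivatives of the Taylor polynomial of the
target are few bits over the digits of the window.
-/

set_option autoImplicit false

namespace Pool.STA37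

open Finset Real MvPolynomial
open Pool.Agent.H49.Ent Pool.Agent.H32.Dense Pool.STK Pool.KA Pool.KSAT Pool.K2S Pool.PB Pool.S6C
open Pool.GEN Pool.CHT Pool.RCD Pool.D2F
open Pool.STB (V3 Po Bx Hb cv cl_earlier PosR cnt_int cg VbT p2 lg_le ChH)
open Pool.STB65 (InpP InpF PosO JetO nu nu_pos Rs Rs_pos grd_bx xD pD)
open Pool.STB82 (yv hgP Fst exists_fst dg)
open Pool.LA91 (jet ojet FulC)
open Pool.BFL (Pb)
open Pool.PB.Trl (rt rt_mem t_rt)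

variable {m J : ℕ}

/-- The time over the record of a window. -/
theorem time_cnt {F : Fam m J} {A : F.Ω → Prop} {w : ℕ} {Z₀ : Type} {z : F.Ω → Z₀}
    (hz : Fst (slam F w) (fun ω => ptr F J ω) A z) (hw : w ≤ J) {p : F.Ω → ℝ} (hp : IsLaw p)
    (hpA : ∀ ω, 0 < p ω → A ω) : CH p (fun ω => F.W ω) z ≤ ((J : ℝ) - w) * Real.log 2 := by
  have hn := hp.nonneg
  have cZ : Cl2 (slam F w) (fun ω => ptr F J ω) A (fun ω => F.Z ω) :=
    ⟨⟨fun s => s.2.1, fun ω _ => rfl⟩, fun s => s.2.2, fun ω _ => rfl⟩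
  have cT : Cl2 (slam F w) (fun ω => ptr F J ω) A (fun ω => (slam F w ω).2.2) := cl_t1 le_rfl hw
  have c1 : CH p (fun ω => F.W ω) z ≤ CH p (fun ω => (F.T ω : ℤ)) z :=
    CH_mono_left hn fun ω ω' a b e => by
      simp only [Prod.mk.injEq] at e
      have e4 : F.T ω = F.T ω' := by exact_mod_cast e.1
      have e5 : F.Z ω = F.Z ω' := hz.fin _ _ cZ ω ω' (hpA ω a) (hpA ω' b) e.2
      show F.W ω = F.W ω'
      unfold Fam.W
      rw [e4, e5]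
  refine c1.trans ?_
  have hD : (0 : ℝ) ≤ 2 ^ (J - w) - 1 := by
    have : (1 : ℝ) ≤ 2 ^ (J - w) := one_le_pow₀ one_le_two
    linarith
  refine (cnt_int hp (fun ω => (F.T ω : ℤ)) z hD fun ω ω' a b e => ?_).trans (le_of_eq ?_)
  · have e6 : F.T1 w ω = F.T1 w ω' := hz.fin _ _ cT ω ω' (hpA ω a) (hpA ω' b) e
    have e7 : F.T ω / 2 ^ (J - w) = F.T ω' / 2 ^ (J - w) := e6
    have e1 := Nat.div_add_mod (F.T ω) (2 ^ (J - w))
    have e2 := Nat.div_add_mod (F.T ω') (2 ^ (J - w))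
    have m1 := Nat.mod_lt (F.T ω) (show 0 < 2 ^ (J - w) by positivity)
    have m2 := Nat.mod_lt (F.T ω') (show 0 < 2 ^ (J - w) by positivity)
    rw [e7] at e1
    obtain ⟨N, hN⟩ : ∃ N, N = 2 ^ (J - w) * (F.T ω' / 2 ^ (J - w)) := ⟨_, rfl⟩
    rw [← hN] at e1 e2
    have i1 : (F.T ω : ℝ) ≤ N + (2 ^ (J - w) - 1) := by
      have : F.T ω + 1 ≤ N + 2 ^ (J - w) := by omega
      have : ((F.T ω + 1 : ℕ) : ℝ) ≤ ((N + 2 ^ (J - w) : ℕ) : ℝ) := by exact_mod_cast this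
      push_cast at this
      linarith
    have i2 : (F.T ω' : ℝ) ≤ N + (2 ^ (J - w) - 1) := by
      have : F.T ω' + 1 ≤ N + 2 ^ (J - w) := by omega
      have : ((F.T ω' + 1 : ℕ) : ℝ) ≤ ((N + 2 ^ (J - w) : ℕ) : ℝ) := by exact_mod_cast this
      push_cast at this
      linarith
    have i3 : (N : ℝ) ≤ F.T ω := by exact_mod_cast (show N ≤ F.T ω by omega)
    have i4 : (N : ℝ) ≤ F.T ω' := by exact_mod_cast (show N ≤ F.T ω' by omega)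
    push_cast
    rw [abs_le]
    constructor <;> linarith
  · have e8 : (2 : ℝ) ^ (J - w) - 1 + 1 = 2 ^ (J - w) := by ring
    rw [e8, Real.log_pow, Nat.cast_sub hw]

/-- **The data of the line are free** over the windows. -/
theorem free_all {F : Fam m J} {A : F.Ω → Prop} (hA : 0 < Pe F.p A) {c : ℕ → Fin m} {sf : ℕ → ℝ}
    {t₀ w w₁ w' : ℕ} (h1 : t₀ ≤ w) (h2 : w ≤ w₁) (h3 : w₁ ≤ w') (h4 : w' ≤ J) {r κ f : ℝ}
    (L : LowP F A c sf t₀ r) {SU 𝒟 : Type} {u : F.Ω → SU} {D : LnT F → 𝒟}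
    (fr : ∀ (V : Type) (z : F.Ω → V) (V' : Type) (z' : F.Ω → V'),
      Fst (slam F t₀) (fun ω => ptr F J ω) A z → Fst (slam F w') (fun ω => ptr F J ω) A z' →
      CH (Pool.Agent.H49.Ent.cond F.p A True) u (fun ω => (z ω, F.W ω)) ≤
        CH (Pool.Agent.H49.Ent.cond F.p A True) u (fun ω => (z' ω, F.W ω)) + κ)
    (fw : ∀ (V : Type) (z : F.Ω → V), Fst (slam F t₀) (fun ω => ptr F J ω) A z →
      CH (Pool.Agent.H49.Ent.cond F.p A True) (fun ω => D (slam F t₀ ω))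
        (fun ω => (u ω, (z ω, F.W ω))) ≤ f)
    {Y Z : Type} {y : F.Ω → Y} {z : F.Ω → Z} (hy : Fst (slam F w) (fun ω => ptr F J ω) A y)
    (hz : Fst (slam F w₁) (fun ω => ptr F J ω) A z) :
    CH (Pool.Agent.H49.Ent.cond F.p A True) (fun ω => D (slam F t₀ ω)) y - (κ + f + r) ≤
      CH (Pool.Agent.H49.Ent.cond F.p A True) (fun ω => D (slam F t₀ ω)) z := by
  have hl := isLaw_cond F.isLaw hA
  have hn := hl.nonneg
  have hpA : ∀ ω, 0 < Pool.Agent.H49.Ent.cond F.p A True ω → A ω := fun ω h =>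
    Pool.STB82.cond_pos_B h
  obtain ⟨VB, zB, hzB⟩ := exists_fst (slam F w') (fun ω => ptr F J ω) A
  obtain ⟨V0, y₀, hy₀⟩ := exists_fst (slam F t₀) (fun ω => ptr F J ω) A
  have d1 : ∀ ω ω', A ω → A ω' → y ω = y ω' → y₀ ω = y₀ ω' :=
    hy₀.mono hy (Pool.STB82.slam_coarse F h1 (by omega) A)
  have d2 : ∀ ω ω', A ω → A ω' → zB ω = zB ω' → z ω = z ω' :=
    hz.mono hzB (Pool.STB82.slam_coarse F h3 h4 A)
  have d3 : ∀ ω ω', A ω → A ω' → zB ω = zB ω' → y₀ ω = y₀ ω' :=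
    hy₀.mono hzB (Pool.STB82.slam_coarse F (by omega) h4 A)
  have hfr := free_tr hl u (fun ω => D (slam F t₀ ω)) y₀ zB (fun ω => F.W ω)
    (fun ω ω' a b e => d3 ω ω' (hpA ω a) (hpA ω' b) e) (fr V0 y₀ VB zB hy₀ hzB) (fw V0 y₀ hy₀)
  have t1 := time_cnt hy₀ (by omega) hl hpA
  have t2 : ((J : ℝ) - t₀) * Real.log 2 - r ≤ CH (Pool.Agent.H49.Ent.cond F.p A True)
      (fun ω => F.W ω) (fun ω => (D (slam F t₀ ω), y₀ ω)) := by
    refine L.kT.trans (CH_mono_cond hn fun ω ω' a b e => ?_)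
    obtain ⟨⟨φ, hφ⟩, -⟩ := hy₀.cl
    simp only [Prod.mk.injEq]
    exact ⟨by rw [e], by rw [hφ ω (hpA ω a), hφ ω' (hpA ω' b), e]⟩
  have h5 := free_time hl (fun ω => D (slam F t₀ ω)) y₀ zB (fun ω => F.W ω) hfr
    (l := ((J : ℝ) - t₀) * Real.log 2) (a := 0) (b := r) (by linarith) t2
  have h6 : CH (Pool.Agent.H49.Ent.cond F.p A True) (fun ω => D (slam F t₀ ω)) y ≤
      CH (Pool.Agent.H49.Ent.cond F.p A True) (fun ω => D (slam F t₀ ω)) y₀ :=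
    CH_mono_cond hn fun ω ω' a b e => d1 ω ω' (hpA ω a) (hpA ω' b) e
  have h7 : CH (Pool.Agent.H49.Ent.cond F.p A True) (fun ω => D (slam F t₀ ω)) zB ≤
      CH (Pool.Agent.H49.Ent.cond F.p A True) (fun ω => D (slam F t₀ ω)) z :=
    CH_mono_cond hn fun ω ω' a b e => d2 ω ω' (hpA ω a) (hpA ω' b) e
  linarith

/-- Gradients of bounded polynomials. -/
theorem pdv_bd (b : ℕ) : ∃ A : ℝ, 1 ≤ A ∧ ∀ (Q : Po) (M : ℝ), Q.totalDegree ≤ b →
    (∀ q, Bx 1 q → |eval q Q| ≤ M) → ∀ (j : Fin 3) (r : V3), Bx 1 r →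
      |eval r (pderiv j Q)| ≤ A * M := by
  obtain ⟨A, hA, h⟩ := osc_dX b
  refine ⟨2 * A, by linarith, ?_⟩
  intro Q M hQ hM j r hr
  have h0 : Bx 1 (0 : V3) := fun i => by simp
  have hv : Bx 1 (fun i : Fin 3 => if i = j then (1 : ℝ) else 0) := fun i => by
    show |if i = j then (1 : ℝ) else 0| ≤ 1
    split_ifs <;> simp
  have h1 := (h Q 0 (2 * M) hQ (fun r' hr' => by
    rw [zero_add]
    refine (abs_sub _ _).trans ?_
    linarith [hM r' hr', hM 0 h0]) r r (fun i : Fin 3 => if i = j then (1 : ℝ) else 0)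
    (fun i : Fin 3 => if i = j then (1 : ℝ) else 0) 0 0 hr hr hv hv (fun i => by simp)
    (fun i => by simp)).2
  rw [zero_add, Pool.EJ13.eval_dX] at h1
  have h2 : ∑ i, (if i = j then (1 : ℝ) else 0) * eval r (pderiv i Q) = eval r (pderiv j Q) := by
    simp
  rw [h2] at h1
  linarith

/-- The record of a window determines the closed data. -/
theorem yiD_of {F : Fam m J} {c : ℕ → Fin m} {B : F.Ω → Prop} {K n N b E E' : ℕ} {t : VbT F}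
    {f : FaT F} {Kp Kp' Kc Ve : ℝ} {ctr xo ctr' xo' : ℕ → F.Ω → V3} {D₁ D₁' : LnT F → V3}
    {Jo Ci : ℕ → F.Ω → Po} {Φ₁ : LnT F → Po}
    (S : SuD F c B K n N b E E' t f Kp Kp' Kc Ve ctr xo ctr' xo' D₁ D₁' Jo Ci Φ₁)
    {i : ℕ} (hi : i < n) (hJ : t.W₀ + t.k + i * t.k ≤ J) (ht : f.W + f.d = t.W₀ + t.k)
    {Z₀ Y₀ : Type} {z : F.Ω → Z₀} (cz : Cl2 (slam F (t.W₀ + t.k)) (fun ω => ptr F J ω) B z)
    {y : F.Ω → Y₀} (hy : Fst (slam F (t.W₀ + t.k + i * t.k)) (fun ω => ptr F J ω) B y) :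
    YiD F B t f ctr Ci ctr' i y z := by
  have hn : 0 < n := by omega
  have up : ∀ {V : Type} {v : F.Ω → V} {w : ℕ}, w ≤ t.W₀ + t.k + i * t.k →
      Cl2 (slam F w) (fun ω => ptr F J ω) B v →
      ∀ ω ω', B ω → B ω' → y ω = y ω' → v ω = v ω' := fun hw hv =>
    hy.fin _ _ (hv.mono (Pool.STB82.slam_coarse F hw hJ B) ⟨id, fun _ _ => rfl⟩)
  have cZ : Cl2 (slam F (t.W₀ + t.k + i * t.k)) (fun ω => ptr F J ω) B (fun ω => F.Z ω) :=
    ⟨⟨fun s => s.2.1, fun ω _ => rfl⟩, fun s => s.2.2, fun ω _ => rfl⟩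
  have e0 : t.W₀ + t.k + 0 * t.k = t.W₀ + t.k := by rw [Nat.zero_mul, Nat.add_zero]
  have e1 : f.W + f.d + 0 * f.k = t.W₀ + t.k := by rw [Nat.zero_mul, Nat.add_zero, ht]
  have q1 : ∀ ω ω', B ω → B ω' → y ω = y ω' → t.Pv (ptr F J ω) = t.Pv (ptr F J ω') :=
    hy.fin _ _ (cl_earlier (by omega) hJ S.ev.Pc)
  have q2 : ∀ ω ω', B ω → B ω' → y ω = y ω' → f.Pv (ptr F J ω) = f.Pv (ptr F J ω') :=
    hy.fin _ _ (cl_earlier (by omega) hJ S.Ef.Pc)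
  have q3 : ∀ ω ω', B ω → B ω' → y ω = y ω' → t.zP (ptr F J ω) = t.zP (ptr F J ω') :=
    hy.fin _ _ (cl_earlier (by omega) hJ S.ev.zcl)
  exact
    { Z := hy.fin _ _ cZ
      z := up (by omega) cz
      t1 := up le_rfl (cl_t1 (by omega) hJ)
      tf := up le_rfl (cl_t1 (by omega) hJ)
      Pl := fun ω ω' a a' e => by
        rw [← S.ev.Pc ω a, ← S.ev.Pc ω' a']
        exact q1 ω ω' a a' e
      Pf := fun ω ω' a a' e => by
        rw [← S.Ef.Pc ω a, ← S.Ef.Pc ω' a']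
        exact q2 ω ω' a a' e
      zH := fun ω ω' a a' e => by
        rw [← S.ev.zcl ω a, ← S.ev.zcl ω' a']
        exact q3 ω ω' a a' e
      c0 := up (w := t.W₀ + t.k + 0 * t.k) (by omega) (S.O.cc 0 hn)
      ci := up le_rfl (S.O.cc i hi)
      C0 := up (w := t.W₀ + t.k + 0 * t.k) (by omega) (S.Jt.cC 0 hn)
      Ci := up le_rfl (S.Jt.cC i hi)
      cf := up (w := f.W + f.d + 0 * f.k) (by omega) (S.O'.cc 0 one_pos) }

/-- The direction of the data of a line in two charts. -/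
noncomputable def xG (d : V3 × V3) : V3 := open Classical in if Bx 1 d.1 then d.1 else 0

theorem xG_bx (d : V3 × V3) : Bx 1 (xG d) := by
  unfold xG
  split_ifs with h
  · exact h
  · exact fun i => by simp

/-- **The gradients of the target** are few bits. -/
theorem su_nf (K b : ℕ) : ∃ C : ℝ, 1 ≤ C ∧ ∀ {m J : ℕ} {F : Fam m J} {c : ℕ → Fin m}
    {B : F.Ω → Prop} (_ : 0 < Pe F.p B) {n N E E' : ℕ} {t : VbT F} {f : FaT F}
    {Kp Kp' Kc Ve : ℝ} {ctr xo ctr' xo' : ℕ → F.Ω → V3} {D₁ D₁' : LnT F → V3}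
    {Jo Ci : ℕ → F.Ω → Po} {Φ₁ : LnT F → Po}
    (_ : SuD F c B K n N b E E' t f Kp Kp' Kc Ve ctr xo ctr' xo' D₁ D₁' Jo Ci Φ₁)
    {ρ N₂ : ℝ} {Nf : ℕ → ℕ → ℝ} {P : Fin 2 → ℝ} {sf : ℕ → ℕ → ℝ} {sw : ℕ → ℝ} {w' : ℕ}
    (_ : SuN n b E E' t f ρ N₂ Nf P sf sw w') (_ : C ≤ 2 ^ t.y) (_ : 0 ≤ Kc) (_ : 0 ≤ Ve)
    (_ : Ve + 1 ≤ 2 ^ (t.y * (b + 3) + 4)) {i : ℕ} (_ : i < n) {r κ r₁ c₀ : ℝ} (_ : 0 < c₀)
    (_ : 0 ≤ κ) (_ : 0 ≤ r) (_ : 0 ≤ r₁) {s₀ : ℕ → ℝ} (_ : LowP F B c s₀ (t.W₀ + t.k) r)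
    (_ : ∀ (V : Type) (z : F.Ω → V) (V' : Type) (z' : F.Ω → V'),
      Fst (slam F (t.W₀ + t.k)) (fun ω => ptr F J ω) B z →
      Fst (slam F w') (fun ω => ptr F J ω) B z' →
      CH (Pool.Agent.H49.Ent.cond F.p B True) (ul c f P) (fun ω => (z ω, F.W ω)) ≤
        CH (Pool.Agent.H49.Ent.cond F.p B True) (ul c f P) (fun ω => (z' ω, F.W ω)) + κ)
    {Z₀ : Type} {z : F.Ω → Z₀} (_ : Cl2 (slam F (t.W₀ + t.k)) (fun ω => ptr F J ω) B z)
    (_ : ∀ A : F.Ω → Prop, Sub A B → c₀ * Pe F.p B ≤ Pe F.p A →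
      LowP F A c (sf i) (t.W₀ + t.k + i * t.k + t.k) r ∧ LowP F A c sw w' r ∧
      (∀ (V : Type) (z : F.Ω → V) (V' : Type) (z' : F.Ω → V'),
        Fst (slam F (t.W₀ + t.k)) (fun ω => ptr F J ω) A z →
        Fst (slam F w') (fun ω => ptr F J ω) A z' →
        CH (Pool.Agent.H49.Ent.cond F.p A True) (ul c f P) (fun ω => (z ω, F.W ω)) ≤
          CH (Pool.Agent.H49.Ent.cond F.p A True) (ul c f P) (fun ω => (z' ω, F.W ω)) + κ) ∧
      CH (Pool.Agent.H49.Ent.cond F.p A True) (upi c t E' b ctr Ci N₂)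
        (fun ω => (uj F c f.W f.g f.Pl (ctr' 0) Nf ω, (z ω, F.T ω))) ≤ r₁)
    {Zt Yt : Type} {zp : PtT F → Zt} {y : F.Ω → Yt} {D' : LnT F → V3 × Po} {x : Zt → V3}
    {Jz : Zt → Po} {K₁ e₁ h' R₁ η c₁ : ℝ} (_ : 0 < η) (_ : 0 ≤ c₁)
    (_ : Fst (slam F (t.W₀ + t.k + i * t.k + t.k)) (fun ω => ptr F J ω) B
      (fun ω => zp (ptr F J ω)))
    (_ : Fst (slam F (t.W₀ + t.k + i * t.k)) (fun ω => ptr F J ω) B y)
    (_ : ∀ ω, D' (slam F (t.W₀ + t.k + i * t.k) ω) =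
      (D₁ (slam F (t.W₀ + t.k) ω), Φ₁ (slam F (t.W₀ + t.k) ω)))
    (_ : ∀ ω, B ω → x (zp (ptr F J ω)) = xo i ω) (_ : ∀ ω, B ω → Jz (zp (ptr F J ω)) = Jo i ω)
    (_ : ChH (Pool.Agent.H49.Ent.cond F.p B True) (slam F (t.W₀ + t.k + i * t.k))
      (fun ω => zp (ptr F J ω)) y (dg F (t.W₀ + t.k + i * t.k) t.k) D' xD (pD b) x Jz b (2 ^ t.k)
      K₁ e₁ h' R₁ η c₁) {R θ : ℝ} (_ : 1 ≤ R) (_ : 0 < θ) (nn : ℕ) (j : Fin 3) (q : F.Ω → ℝ)
    (_ : IsLaw q) (_ : ∀ ω, q ω ≤ R * Pool.Agent.H49.Ent.cond F.p B True ω),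
    CH q (fun ω => ⌊((2 ^ t.k : ℕ) : ℝ) * eval (x (zp (ptr F J ω)))
        (pderiv j (Jz (zp (ptr F J ω))))⌋)
      (fun ω => (cv (2 ^ t.k) (x (zp (ptr F J ω))), y ω)) ≤
      (1 + θ) * (Real.log 3 + (3 * ((κ + ((6 * t.y + 24 : ℕ) : ℝ) * Real.log 2 + r +
        Real.log 2) / c₀) + 3 * (r₁ + κ + 5 * r +
          ((4 * t.x + t.y * (2 * b + 22) + 76 : ℕ) : ℝ) * Real.log 2) + (Real.log 2 +
        Real.log (3 * (18 * (Ve + 1) / η ^ 3 + 1)) + 3 * (c₁ / c₀) *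
          Real.log (2 * (((2 ^ t.k : ℕ) : ℝ) * (C * Kc) + 2) + 1)))) +
      (R * c₀ * (1 + θ) / θ + R / (1 + θ) ^ nn) *
        Real.log (2 * (((2 ^ t.k : ℕ) : ℝ) * (C * Kc) + 1) + 1) + Real.log (nn + 1) := by
  obtain ⟨C₁, hC₁, h1⟩ := row_part K b
  obtain ⟨C₂, hC₂, h2⟩ := dg_few K
  obtain ⟨C₃, hC₃, h3⟩ := pdv_bd b
  refine ⟨C₁ + C₂ + C₃, by linarith, ?_⟩
  obtain ⟨C, hCd⟩ : ∃ C, C = C₁ + C₂ + C₃ := ⟨_, rfl⟩
  rw [← hCd]
  intro m J F c B hB n N E E' t f Kp Kp' Kc Ve ctr xo ctr' xo' D₁ D₁' Jo Ci Φ₁ S ρ N₂ Nf P sf sw w' M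
    hCy hKc0 hVe0 hVe i hi r κ r₁ c₀ hc₀ hκ hr hr₁ s₀ LB frB Z₀ z cz parts Zt Yt zp y D' x Jz K₁ e₁ h'
    R₁ η c₁ hη hc₁ hz hy hD' hx hJz hCh R θ hR hθ nn j q hq hqp
  have hl := isLaw_cond F.isLaw hB
  have hn := hl.nonneg
  have hpB : ∀ ω, 0 < Pool.Agent.H49.Ent.cond F.p B True ω → B ω := fun ω h =>
    Pool.STB82.cond_pos_B h
  have hl2 : 0 < Real.log 2 := Real.log_pos one_lt_two
  have hn0 : 0 < n := by omega
  have hiw := M.iw i hi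
  have hwJ := M.wJ
  have Yd := yiD_of S hi (by omega) M.ht cz hy
  have hxG : ∀ s, xG (D₁ s, D₁' s) = D₁ s := fun s => by
    unfold xG
    exact if_pos (grd_bx (S.O.dg _))
  have hfree := free_all (D := fun s => (D₁ s, D₁' s)) hB (show t.W₀ + t.k ≤ t.W₀ + t.k + i * t.k by
    omega) (Nat.le_add_right _ t.k) hiw hwJ LB frB (fun V z₀ hz₀ =>
      h2 hB S.ev.Pd S.ev.Pp S.ev.Pc S.O S.Ef S.O' hn0 (by omega) M.ht M.kk M.kd M.yk (by linarith)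
        M.ρ0 M.ρ1 M.ρe M.P0 M.P1 hz₀) hy hz
  have hk0 : (0 : ℝ) < 2 ^ t.k := by positivity
  have hmu := mui_pos t E' b i
  have hMc : (((2 ^ t.k : ℕ) : ℝ)) = 2 ^ t.k := by push_cast; rfl
  have main := grad_dens hl (L := slam F (t.W₀ + t.k)) (z := fun ω => zp (ptr F J ω)) (y := y)
    (fun s => (D₁ s, D₁' s)) xG x Jz (vli c t E' b ctr Ci i) (M := 2 ^ t.k) (M' := 2 ^ t.k)
    (K := Ve + 1) (e := κ + ((6 * t.y + 24 : ℕ) : ℝ) * Real.log 2 + r)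
    (e' := r₁ + κ + 5 * r + ((4 * t.x + t.y * (2 * b + 22) + 76 : ℕ) : ℝ) * Real.log 2)
    (η := η) (c := c₁) (G := C * Kc) (c₀ := c₀) (R := R) (θ := θ) (nn := nn)
    (fun ω ω' a a' e => hCh.yz ω ω' a a' e) hfree xG_bx hη (by linarith)
    (mul_nonneg (by linarith) hKc0) (Nat.one_le_two_pow) le_rfl ?_ ?_ ?_ hc₀ (by positivity) ?_ hR
    hθ (by positivity) hc₁ j q hq hqp
  · have e1 : ((2 ^ t.k : ℕ) : ℝ) / ((2 ^ t.k : ℕ) : ℝ) + 2 = 3 := by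
      rw [div_self (by positivity)]
      norm_num
    rw [e1] at main
    exact main
  · intro ω hω
    have hω' := hpB ω hω
    simp only [hxG, hx ω hω', hJz ω hω']
    have h4 := S.vel i hi ω hω'
    obtain ⟨Q, hQ⟩ : ∃ Q, Q = ∑ j, eval (xo i ω) (pderiv j (Jo i ω)) *
      D₁ (slam F (t.W₀ + t.k) ω) j := ⟨_, rfl⟩
    obtain ⟨o, ho⟩ : ∃ o, o = ojet F (c 2) 1 (cgi c t E' b ctr Ci i ω) ω := ⟨_, rfl⟩
    rw [← hQ, ← ho] at h4
    show |((⌊2 ^ t.k / (mui t E' b i * 2 ^ (t.W₀ + t.k + i * t.k)) *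
      ojet F (c 2) 1 (cgi c t E' b ctr Ci i ω) ω⌋ : ℤ) : ℝ) - ((2 ^ t.k : ℕ) : ℝ) *
        ∑ j, eval (xo i ω) (pderiv j (Jo i ω)) * D₁ (slam F (t.W₀ + t.k) ω) j| ≤ Ve + 1
    rw [← hQ, ← ho, hMc]
    have h5 : |2 ^ t.k / (mui t E' b i * 2 ^ (t.W₀ + t.k + i * t.k)) * o - 2 ^ t.k * Q| ≤ Ve := by
      have h6 : 2 ^ t.k / (mui t E' b i * 2 ^ (t.W₀ + t.k + i * t.k)) * o - 2 ^ t.k * Q =
          2 ^ t.k / mui t E' b i * (1 / 2 ^ (t.W₀ + t.k + i * t.k) * o -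
            mui t E' b i * Q) := by
        field_simp
      rw [h6, abs_mul, abs_of_pos (by positivity : 0 < 2 ^ t.k / mui t E' b i)]
      calc 2 ^ t.k / mui t E' b i * |_| ≤ 2 ^ t.k / mui t E' b i * (mui t E' b i *
            (Ve / 2 ^ t.k)) := mul_le_mul_of_nonneg_left h4 (by positivity)
        _ = Ve := by field_simp
    have h6 := Int.floor_le (2 ^ t.k / (mui t E' b i * 2 ^ (t.W₀ + t.k + i * t.k)) * o)
    have h7 := Int.lt_floor_add_one (2 ^ t.k / (mui t E' b i * 2 ^ (t.W₀ + t.k + i * t.k)) * o)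
    have h8 := abs_le.1 h5
    rw [abs_le]
    constructor <;> linarith
  · intro ω j hω
    have hω' := hpB ω hω
    simp only [hx ω hω', hJz ω hω']
    refine (h3 _ Kc ((S.Jt.dJ i ω).trans (Nat.sub_le _ _))
      (fun q hq => S.Jt.J1 i hi ω hω' q hq) j _ (S.O.x1 i hi ω hω')).trans ?_
    exact mul_le_mul_of_nonneg_right (by linarith) hKc0
  · intro H hH
    refine le_trans (le_of_eq ?_) (hCh.gp H hH)
    congr 1
    funext ω
    have e1 : xD (D' (slam F (t.W₀ + t.k + i * t.k) ω)) = D₁ (slam F (t.W₀ + t.k) ω) := by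
      rw [hD' ω]
      unfold xD
      exact if_pos (grd_bx (S.O.dg _))
    rw [e1]
    simp only [hxG]
  · intro A hA
    have hPA : c₀ ≤ Pe (Pool.Agent.H49.Ent.cond F.p B True) A := by
      rw [← Pool.STB82.pb_pe]
      exact hA
    have e2 : Pool.Agent.H49.Ent.cond (Pool.Agent.H49.Ent.cond F.p B True) A True =
        Pool.Agent.H49.Ent.cond F.p (fun ω => B ω ∧ A ω) True := Piece.cond_inter hB.ne'
    have e3 : Pe (Pool.Agent.H49.Ent.cond F.p B True) A =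
        Pe F.p (fun ω => B ω ∧ A ω) / Pe F.p B := Pool.K2S.Pe_cond A
    have e4 : c₀ * Pe F.p B ≤ Pe F.p (fun ω => B ω ∧ A ω) := by
      rw [e3, le_div_iff₀ hB] at hPA
      exact hPA
    have hAB : 0 < Pe F.p (fun ω => B ω ∧ A ω) := (mul_pos hc₀ hB).trans_le e4
    have hsub : Sub (fun ω => B ω ∧ A ω) B := fun ω h => h.1
    obtain ⟨g1, g2, g3, g4⟩ := parts _ hsub e4
    have row := h1 hAB (S.sub hsub) M (by linarith) hVe0 hVe hi g1 g2 g3 (Yd.sub hsub)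
      (hy.cl.sub hsub) g4
    rw [e2]
    have hn2 := (isLaw_cond F.isLaw hAB).nonneg
    refine le_trans (CH_mono_cond hn2 fun ω ω' a b' e => ?_) row
    have hω := (Pool.STB82.cond_pos_B a).1
    have hω' := (Pool.STB82.cond_pos_B b').1
    simp only [Prod.mk.injEq, hx ω hω, hx ω' hω'] at e ⊢
    exact e

end Pool.STA37
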