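import Pool.Agent.H37.STA.Evf

/-!
# The numbers of the event at one dimension

`ApW`: the windows, up to errors; `ApN`: a list of balls, up to errors. `frl_of`, `frs_of`, `frf_of`:
the natural numbers of the balls, of the frame and of the far data.
-/

set_option autoImplicit false

namespace Pool.STA37

open Finset Real
open Pool.GEN Pool.NVX

/-- **The windows**, up to errors: all lengths are multiplied by the dimension. -/
structure ApW (n b : ℕ) (T Q κ h Y u : ℝ) (W k y x : ℕ) : Prop where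
  Q : Q = n * κ
  κ0 : 0 ≤ κ
  W1 : (W : ℝ) ≤ T - κ
  W2 : T - κ - 1 ≤ W
  k1 : (k : ℝ) ≤ κ + 1
  k2 : κ - 1 ≤ k
  t1 : (W : ℝ) + k ≤ T
  t2 : T - 1 ≤ (W : ℝ) + k
  y1 : (y : ℝ) ≤ Y
  y2 : Y - 1 ≤ y
  x1 : (x : ℝ) ≤ Y
  x2 : Y - 1 ≤ x
  u1 : ((n : ℝ) + 2) * (b + 1) ≤ u
  uh : 40 * u ≤ h
  hY : (10 * b + 40) * h ≤ Y
  Yκ : 40 * Y ≤ κ

section

variable {n b : ℕ} {T Q κ h Y u : ℝ} {W k y x : ℕ}

theorem ApW.un (A : ApW n b T Q κ h Y u W k y x) : (n : ℝ) + 2 ≤ u := by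
  have h1 := A.u1
  have h2 : (0 : ℝ) ≤ b := Nat.cast_nonneg _
  have h3 : (0 : ℝ) ≤ n := Nat.cast_nonneg _
  nlinarith

theorem ApW.ub (A : ApW n b T Q κ h Y u W k y x) : (b : ℝ) * (n + 2) ≤ u := by
  have h1 := A.u1
  have h3 : (0 : ℝ) ≤ n := Nat.cast_nonneg _
  nlinarith

/-- The positions of the windows. -/
theorem ApW.wi (A : ApW n b T Q κ h Y u W k y x) {i : ℕ} (hi : i ≤ n) :
    ((W + k + i * k : ℕ) : ℝ) ≤ T + i * κ + u ∧ T + i * κ - u ≤ ((W + k + i * k : ℕ) : ℝ) := by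
  have h1 := A.un
  have h2 : (i : ℝ) ≤ n := by exact_mod_cast hi
  have h3 : (0 : ℝ) ≤ i := Nat.cast_nonneg _
  have h4 := mul_le_mul_of_nonneg_left A.k1 h3
  have h5 := mul_le_mul_of_nonneg_left A.k2 h3
  have h6 := A.t1
  have h7 := A.t2
  push_cast
  constructor <;> linarith

/-- The lengths of the windows. -/
theorem ApW.ki (A : ApW n b T Q κ h Y u W k y x) {i : ℕ} (hi : i ≤ n) :
    ((k + i * k : ℕ) : ℝ) ≤ (i + 1) * κ + u ∧ (i + 1) * κ - u ≤ ((k + i * k : ℕ) : ℝ) := by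
  have h1 := A.un
  have h2 : (i : ℝ) ≤ n := by exact_mod_cast hi
  have h3 : (0 : ℝ) ≤ i := Nat.cast_nonneg _
  have h4 := mul_le_mul_of_nonneg_left A.k1 h3
  have h5 := mul_le_mul_of_nonneg_left A.k2 h3
  have h6 := A.k1
  have h7 := A.k2
  push_cast
  constructor <;> linarith

theorem ApW.kb (A : ApW n b T Q κ h Y u W k y x) {i : ℕ} (hi : i ≤ n) :
    ((b * (k + i * k) : ℕ) : ℝ) ≤ b * ((i + 1) * κ) + u ∧
      b * ((i + 1) * κ) - u ≤ ((b * (k + i * k) : ℕ) : ℝ) := by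
  have h1 := A.ub
  have hb : (0 : ℝ) ≤ b := Nat.cast_nonneg _
  have h2 : (i : ℝ) ≤ n := by exact_mod_cast hi
  have h3 : (0 : ℝ) ≤ i := Nat.cast_nonneg _
  have h4 := mul_le_mul_of_nonneg_left A.k1 (show (0 : ℝ) ≤ i + 1 by linarith)
  have h5 := mul_le_mul_of_nonneg_left A.k2 (show (0 : ℝ) ≤ i + 1 by linarith)
  have e1 : ((k + i * k : ℕ) : ℝ) = ((i : ℝ) + 1) * k := by push_cast; ring
  have h6 := mul_le_mul_of_nonneg_left h4 hb
  have h7 := mul_le_mul_of_nonneg_left h5 hb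
  have h8 : (b : ℝ) * (i + 1) ≤ b * (n + 2) := mul_le_mul_of_nonneg_left (by linarith) hb
  rw [Nat.cast_mul, e1]
  constructor <;> linarith

theorem ApW.iQ (A : ApW n b T Q κ h Y u W k y x) {i : ℕ} (hi : i ≤ n) : (i : ℝ) * κ ≤ Q := by
  rw [A.Q]
  exact mul_le_mul_of_nonneg_right (by exact_mod_cast hi) A.κ0

theorem ApW.iQ' (A : ApW n b T Q κ h Y u W k y x) {i : ℕ} (hi : i < n) :
    ((i : ℝ) + 1) * κ ≤ Q := by
  rw [A.Q]
  exact mul_le_mul_of_nonneg_right (by exact_mod_cast hi) A.κ0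

theorem ApW.u0 (A : ApW n b T Q κ h Y u W k y x) : 2 ≤ u := by
  have h1 := A.un
  have h3 : (0 : ℝ) ≤ n := Nat.cast_nonneg _
  linarith

theorem ApW.Yh (A : ApW n b T Q κ h Y u W k y x) : 40 * h ≤ Y ∧ (b : ℝ) * h * 10 ≤ Y := by
  have h1 := A.hY
  have h2 : (0 : ℝ) ≤ b := Nat.cast_nonneg _
  have h3 : 0 ≤ h := by
    have := A.uh
    have := A.u0
    linarith
  have h4 : 0 ≤ b * h := mul_nonneg h2 h3
  constructor <;> linarith

end

/-- **A list of balls**, up to errors: the first one is at the offset `o`. -/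
structure ApN (N b : ℕ) (T h u Λ1 Λ2 o : ℝ) (a : ℕ → ℕ) (g : ℕ → ℕ → ℕ) : Prop where
  a1 : ∀ k ≤ N, (a k : ℝ) ≤ T + (o + k * h)
  a2 : ∀ k ≤ N, T + (o + k * h) - 1 ≤ a k
  g01 : ∀ k ≤ N, (g k 0 : ℝ) ≤ T + (o + k * h) + u
  g02 : ∀ k ≤ N, T + (o + k * h) - u ≤ g k 0
  g11 : ∀ k ≤ N, (g k 1 : ℝ) ≤ Λ1 + (o + k * h) + u
  g12 : ∀ k ≤ N, Λ1 + (o + k * h) - u ≤ g k 1
  g21 : ∀ k ≤ N, (g k 2 : ℝ) ≤ Λ2 + b * (o + k * h) + u
  g22 : ∀ k ≤ N, Λ2 + b * (o + k * h) - u ≤ g k 2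

theorem nat_of {a b : ℕ} (h : (a : ℝ) < (b : ℝ) + 1) : a ≤ b := by
  have h1 : (a : ℝ) < ((b + 1 : ℕ) : ℝ) := by push_cast; exact h
  exact Nat.lt_succ_iff.1 (by exact_mod_cast h1)

theorem ApN.mono {N b : ℕ} {T h u Λ1 Λ2 o : ℝ} {a : ℕ → ℕ} {g : ℕ → ℕ → ℕ}
    (A : ApN N b T h u Λ1 Λ2 o a g) (hh : 1 ≤ h) {k k' : ℕ} (hk : k ≤ k') (hk' : k' ≤ N) :
    a k ≤ a k' := by
  rcases Nat.eq_or_lt_of_le hk with h1 | h1
  · rw [h1]
  · refine nat_of ?_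
    have h2 := A.a1 k (by omega)
    have h3 := A.a2 k' hk'
    have h4 : ((k : ℝ) + 1) * h ≤ k' * h :=
      mul_le_mul_of_nonneg_right (by exact_mod_cast h1) (by linarith)
    linarith

/-- **The natural numbers of the far balls.** -/
theorem frl_of {J Nf b s₁ vf : ℕ} {T h u Λ1 Λ2 o : ℝ} {a w : ℕ → ℕ} {g : ℕ → ℕ → ℕ} {ι : ℕ → ℕ}
    (A : ApN Nf b T h u Λ1 Λ2 o (fun k => a (ι k)) (fun k => g (ι k)))
    (hw : ∀ k ≤ Nf, w (ι k) = a (ι k)) (hu : 1 ≤ u) (huh : 2 * u ≤ h) (hs : 3 * u ≤ s₁)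
    (hv : h + 1 ≤ vf) (hJ : T + (o + Nf * h) ≤ J) (hΛ : T ≤ Λ1 + u) :
    FrL J Nf s₁ vf a w g ι where
  wa := hw
  aJ := fun k hk => by
    have h1 := A.a1 k hk
    have h2 : (k : ℝ) * h ≤ Nf * h := mul_le_mul_of_nonneg_right (by exact_mod_cast hk)
      (by linarith)
    exact_mod_cast (show ((a (ι k) : ℕ) : ℝ) ≤ J by linarith)
  am := fun k hk => A.mono (by linarith) (Nat.le_succ k) hk
  av := fun k hk => by
    have h1 := A.a1 (k + 1) hk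
    have h2 := A.a2 k hk.le
    refine nat_of ?_
    push_cast at h1 ⊢
    linarith
  n0 := fun k hk => by
    have h1 := A.g01 k hk
    have h2 := A.a2 k hk
    refine nat_of ?_
    push_cast
    linarith
  n0' := by
    have h1 := A.g02 0 (Nat.zero_le _)
    have h2 := A.a1 0 (Nat.zero_le _)
    refine nat_of ?_
    push_cast
    linarith
  n1g := by
    have h1 := A.g12 0 (Nat.zero_le _)
    have h2 := A.a1 0 (Nat.zero_le _)
    refine nat_of ?_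
    push_cast
    linarith
  n1 := fun k hk => by
    have h1 := A.g11 k hk
    have h2 := A.g12 0 (Nat.zero_le _)
    have h3 := A.a2 k hk
    have h4 := A.a1 0 (Nat.zero_le _)
    have h5 := A.mono (by linarith) (Nat.zero_le k) hk
    refine nat_of ?_
    push_cast [Nat.cast_sub h5] at h2 h4 ⊢
    linarith
  n1' := fun k hk => by
    have h1 := A.g12 k hk
    have h2 := A.g11 0 (Nat.zero_le _)
    have h3 := A.a1 k hk
    have h4 := A.a2 0 (Nat.zero_le _)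
    have h5 := A.mono (by linarith) (Nat.zero_le k) hk
    refine nat_of ?_
    push_cast [Nat.cast_sub h5] at h2 h4 ⊢
    linarith

end Pool.STA37
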