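import Pool.Agent.H37.STA.Nm1

/-!
# The natural numbers of the frame and of the far data

`frs_of`, `frf_of`.
-/

set_option autoImplicit false

namespace Pool.STA37

open Finset Real
open Pool.GEN Pool.NVX

/-- Comparing two sups, up to a shift of the third scale. -/
theorem nlp_cp {g g' : ℕ → ℕ} {l D : ℕ} (hl : l < 2) (h : ∀ j < 2, g j + g' 2 ≤ g' j + g 2 + D) :
    nlp g l 2 ≤ nlp g' l 2 + D := by
  have h1 : (Finset.Icc l 2).sup g ≤ (nlp g' l 2 + D) + g 2 := by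
    refine Finset.sup_le fun j hj => ?_
    obtain ⟨h2, h3⟩ := Finset.mem_Icc.1 hj
    rcases Nat.lt_or_ge j 2 with h4 | h4
    · have h5 := h j h4
      have h6 : g' j ≤ (Finset.Icc l 2).sup g' := Finset.le_sup (f := g') (Finset.mem_Icc.2 ⟨h2, h3⟩)
      unfold nlp
      omega
    · have : j = 2 := by omega
      rw [this]
      omega
  unfold nlp at h1 ⊢
  omega

theorem nlp_ge2 {g : ℕ → ℕ} {l j : ℕ} (h1 : l ≤ j) (h2 : j ≤ 2) : g j ≤ nlp g l 2 + g 2 := by
  have h6 : g j ≤ (Finset.Icc l 2).sup g := Finset.le_sup (f := g) (Finset.mem_Icc.2 ⟨h1, h2⟩)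
  unfold nlp
  omega

section

variable {n b J N R₁ C₁ : ℕ} {T Q κ h Y u Λ1 Λ2 w ε : ℝ} {W k y x : ℕ} {a : ℕ → ℕ}
  {g : ℕ → ℕ → ℕ}

/-- The index of a ball below a window. -/
theorem jb_val (hR : κ = R₁ * h) (hR1 : 1 ≤ R₁) (i : ℕ) :
    ((R₁ * (i + 1) - 1 : ℕ) : ℝ) * h = ((i : ℝ) + 1) * κ - h := by
  have h1 : 1 ≤ R₁ * (i + 1) := Nat.mul_pos hR1 (Nat.succ_pos _)
  rw [Nat.cast_sub h1]
  push_cast
  rw [hR]
  ring

/-- **The natural numbers of the frame.** -/
theorem frs_of (A : ApW n b T Q κ h Y u W k y x) (B : ApN N b T h u Λ1 Λ2 (-κ) a g)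
    (hW : W = a 0) (hR : κ = R₁ * h) (hR1 : 1 ≤ R₁) (hN : R₁ * (n + 1) ≤ N)
    {e₁' e₁ s v y₀ e X E : ℕ} (hw : T ≤ w * J) (hes : s + e ≤ e₁') (hs : u ≤ s) (hsh : (s : ℝ) ≤ 2 * h)
    (hv : 2 * h ≤ v) (hE : E ≤ e₁ + 1) (hε : ε * J ≤ u * Real.log 2)
    (hJ1 : Λ1 + e₁' + 2 * Q ≤ J) (hJ2 : T + 2 * Q ≤ J) (hyy : y₀ ≤ y)
    (hX : (X : ℝ) + 1 + b * Q + 3 * Y ≤ e₁) (hn : 0 < n) (hb : 1 ≤ b) :
    FrS J n N C₁ b (a 0) k y x e₁' e₁ (C₁ * (s + v + 1)) s v y₀ e X a (fun _ => E) g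
      (fun i => R₁ * (i + 1) - 1) (fun i => R₁ * (i + 2) - 1) w ε := by
  have u0 := A.u0
  have un := A.un
  have uh := A.uh
  have hYh := A.Yh
  have Yκ := A.Yκ
  have hκQ : κ ≤ Q := by
    have := A.iQ (i := 1) hn
    push_cast at this
    linarith
  have hb1 : (1 : ℝ) ≤ b := by exact_mod_cast hb
  have hQ0 : 0 ≤ Q := A.κ0.trans hκQ
  have hjb : ∀ i < n, R₁ * (i + 1) - 1 ≤ N := fun i hi => by
    have h1 : R₁ * (i + 1) ≤ R₁ * (n + 1) := Nat.mul_le_mul_left _ (by omega)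
    omega
  have hji : ∀ i < n, R₁ * (i + 2) - 1 ≤ N := fun i hi => by
    have h1 : R₁ * (i + 2) ≤ R₁ * (n + 1) := Nat.mul_le_mul_left _ (by omega)
    omega
  have hbQ : ∀ i < n, (b : ℝ) * ((i + 1) * κ) ≤ b * Q := fun i hi =>
    mul_le_mul_of_nonneg_left (A.iQ' hi) (by linarith)
  have hl2 : 0 < Real.log 2 := Real.log_pos one_lt_two
  have y2 := A.y2
  refine
    { Ww := ?_
      es := hes
      jb0 := fun i hi => ?_
      ji0 := fun i hi => ?_
      Cs := le_rfl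
      sy := ?_
      J1 := ?_
      J2 := ?_
      yy := hyy
      nl := fun i hi l hl => ?_ }
  · rw [← hW]
    have := A.W1
    have := A.κ0
    linarith
  · have hk := hjb i hi
    have e1 := jb_val hR hR1 i
    have w1 := (A.wi hi.le).1
    have w2 := (A.wi hi.le).2
    have a1 := B.a1 _ hk
    have a2 := B.a2 _ hk
    have g2 := B.g02 _ hk
    rw [e1] at a1 a2 g2
    rw [← hW]
    refine ⟨hk, nat_of (by linarith), nat_of (by push_cast at w1 w2 ⊢; linarith),
      nat_of (by push_cast; linarith), hE⟩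
  · have hk := hji i hi
    have e1 := jb_val hR hR1 (i + 1)
    have e2 : i + 1 + 1 = i + 2 := rfl
    rw [e2] at e1
    have w1 := (A.wi (i := i + 1) hi).1
    have w2 := (A.wi (i := i + 1) hi).2
    have a1 := B.a1 _ hk
    have a2 := B.a2 _ hk
    rw [e1] at a1 a2
    have e3 : W + (k + i * k + k) = W + k + (i + 1) * k := by ring
    rw [← hW, e3]
    push_cast at w1 w2 a1 a2
    refine ⟨hk, nat_of (by push_cast; linarith), nat_of (by push_cast; linarith)⟩
  · have h1 : ((s : ℝ) + 1) * Real.log 2 + u * Real.log 2 ≤ y * Real.log 2 := by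
      rw [← add_mul]
      exact mul_le_mul_of_nonneg_right (by linarith) hl2.le
    linarith
  · have g1 := B.g11 0 (Nat.zero_le _)
    have k1 := (A.ki (le_refl n)).1
    have hY := A.Q
    have : g 0 1 + e₁' + 1 + k + n * k = g 0 1 + e₁' + 1 + (k + n * k) := by ring
    rw [this]
    refine nat_of ?_
    push_cast at g1 k1 ⊢
    linarith
  · have w1 := (A.wi (le_refl n)).1
    have hY := A.Q
    rw [← hW]
    refine nat_of ?_
    push_cast at w1 ⊢
    linarith
  · have hk := hjb i hi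
    have e1 := jb_val hR hR1 i
    have b1 := (A.kb hi.le).1
    have hbq := hbQ i hi
    obtain ⟨D, hD⟩ : ∃ D, D = b * (k + i * k) + x + ⌊2 * h + 4 * u⌋₊ := ⟨_, rfl⟩
    have hD1 : (D : ℝ) ≤ b * ((i + 1) * κ) + u + Y + (2 * h + 4 * u) := by
      have := Nat.floor_le (show 0 ≤ 2 * h + 4 * u by linarith)
      have := A.x1
      rw [hD]
      push_cast at b1 ⊢
      linarith
    have hD2 : 2 * h + 4 * u ≤ (⌊2 * h + 4 * u⌋₊ : ℝ) + 1 := (Nat.lt_floor_add_one _).le
    have hi0 : (0 : ℝ) ≤ i * κ := mul_nonneg (Nat.cast_nonneg _) A.κ0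
    have h1 : nlp (g 0) l 2 ≤ nlp (fun j => if j < 2 then g (R₁ * (i + 1) - 1) j else
        g 0 2 + b * (k + i * k) + x) l 2 + D := by
      refine nlp_cp hl fun j hj => ?_
      simp only [lt_irrefl, if_false, if_pos hj]
      have key : g 0 j ≤ g (R₁ * (i + 1) - 1) j + ⌊2 * h + 4 * u⌋₊ := by
        refine nat_of ?_
        push_cast
        have : j = 0 ∨ j = 1 := by omega
        rcases this with rfl | rfl
        · have h3 := B.g01 0 (Nat.zero_le _)
          have h4 := B.g02 _ hk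
          rw [e1] at h4
          push_cast at h3
          linarith
        · have h3 := B.g11 0 (Nat.zero_le _)
          have h4 := B.g12 _ hk
          rw [e1] at h4
          push_cast at h3
          linarith
      omega
    have h2 : X + D + 1 ≤ e₁ := by
      refine nat_of ?_
      push_cast
      linarith
    show X + nlp (g 0) l 2 + 1 ≤ e₁ + nlp (fun j => if j < 2 then g (R₁ * (i + 1) - 1) j else
        g 0 2 + b * (k + i * k) + x) l 2
    omega

/-- **The natural numbers of the far data.** -/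
theorem frf_of (A : ApW n b T Q κ h Y u W k y x) {hf o Kf : ℝ} {Nf : ℕ} {af : ℕ → ℕ}
    {gf : ℕ → ℕ → ℕ} (B : ApN Nf b T hf u Λ1 Λ2 o af gf) (hW : W = af Nf) (hoN : o + Nf * hf = -κ)
    (hf0 : 1 ≤ hf) {C₂ e₁' s v sf vf ef kf g1 : ℕ} (hw : T ≤ w * J)
    (hes : sf + ef ≤ e₁') (hNs : Nf ≤ sf) (hs : 4 * u ≤ sf) (hg1 : (g1 : ℝ) ≤ Λ1 - κ + u)
    (hCo : C₂ * (s + v + sf + vf + 1) + sf + 1 ≤ y) (hsy : (sf : ℝ) + 1 + u ≤ y)
    (hε : ε * J ≤ u * Real.log 2) (hkf : (kf : ℝ) ≤ Kf + 1) (hJ1 : Λ1 + e₁' + Kf + 3 * u ≤ J)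
    (hJ2 : T + Kf + u ≤ J) (hKf : 0 ≤ Kf) :
    FrF J Nf C₂ W k y e₁' s v (af 0) kf g1 sf vf ef af gf w ε := by
  have hl2 : 0 < Real.log 2 := Real.log_pos one_lt_two
  have u0 := A.u0
  have hNh : (0 : ℝ) ≤ Nf * hf := mul_nonneg (Nat.cast_nonneg _) (by linarith)
  have a01 := B.a1 0 (Nat.zero_le _)
  have a02 := B.a2 0 (Nat.zero_le _)
  have W1 := A.W1
  have W2 := A.W2
  have t1 := A.t1
  have t2 := A.t2
  have hκ := A.κ0
  push_cast at a01 a02
  have hWW : af 0 ≤ W := by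
    rw [hW]
    exact B.mono hf0 (Nat.zero_le _) le_rfl
  have hc : ((W - af 0 : ℕ) : ℝ) = W - af 0 := Nat.cast_sub hWW
  have hWk : af 0 ≤ W + k := by omega
  have hc' : ((W + k - af 0 : ℕ) : ℝ) = W + k - af 0 := by
    rw [Nat.cast_sub hWk]
    push_cast
    ring
  have g01 := B.g11 0 (Nat.zero_le _)
  have g02 := B.g12 0 (Nat.zero_le _)
  push_cast at g01 g02
  have e1 := hoN
  refine
    { Ww := by linarith
      es := hes
      Nfs := hNs
      AN := hW.symm
      WW := hWW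
      WJ := nat_of (by linarith)
      g1 := nat_of (by
        push_cast
        rw [hc]
        linarith)
      Co := hCo
      sy := ?_
      J1 := nat_of (by
        push_cast
        rw [hc']
        linarith)
      J2 := nat_of (by
        push_cast
        rw [hc']
        linarith) }
  have h1 : ((sf : ℝ) + 1) * Real.log 2 + u * Real.log 2 ≤ y * Real.log 2 := by
    rw [← add_mul]
    exact mul_le_mul_of_nonneg_right (by linarith) hl2.le
  linarith

end

end Pool.STA37
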