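import Pool.Agent.H37.STA.Nm2

/-!
# The natural numbers of the event

`suv_of`: the numbers of the target and of the windows; `sug_of`: the numbers of the far data and of
the labels.
-/

set_option autoImplicit false

namespace Pool.STA37

open Finset Real MvPolynomial
open Pool.Agent.H49.Ent Pool.Agent.H32.Dense Pool.STK Pool.KA Pool.KSAT Pool.K2S Pool.PB Pool.S6C
open Pool.GEN Pool.CHT Pool.RCD Pool.D2F Pool.CHX Pool.D2Con Pool.D2A Pool.NVX
open Pool.STB (V3 Po Bx VbT)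

theorem fl_add {x : ℝ} {a b : ℕ} (h : x + a ≤ b) (h0 : a ≤ b) : ⌊x⌋₊ + a ≤ b := by
  rcases le_total 0 x with hx | hx
  · have h1 := Nat.floor_le hx
    have h2 : ((⌊x⌋₊ + a : ℕ) : ℝ) ≤ b := by push_cast; linarith
    exact_mod_cast h2
  · rw [Nat.floor_eq_zero.2 (by linarith)]
    omega

variable {m : ℕ}

section

variable {n b J N R₁ : ℕ} {T Q κ h Y u Λ1 Λ2 : ℝ} {W k y x : ℕ} {a : ℕ → ℕ}
  {g : ℕ → ℕ → ℕ} {F : Fam m J} {c : ℕ → Fin m}
  {Gn : ℕ → PtT F → ℕ → MvPolynomial (Option (Fin m)) ℝ}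
  {Hn : ℕ → LnT F → ℕ → MvPolynomial (Option (Fin m)) ℝ}
  {pP : PtT F → ℕ → MvPolynomial (Option (Fin m)) ℝ}
  {pH : LnT F → ℕ → MvPolynomial (Option (Fin m)) ℝ}
  {f : ℕ → PtT F → Po} {f' : ℕ → LnT F → Po} {kf : LnT F → Po}

/-- **The numbers of the target and of the windows.** -/
theorem suv_of (A : ApW n b T Q κ h Y u W k y x) (B : ApN N b T h u Λ1 Λ2 (-κ) a g)
    (hW : W = a 0) (hR : κ = R₁ * h) (hR1 : 1 ≤ R₁) (hN : R₁ * (n + 1) ≤ N) (hn : 0 < n)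
    {e₁' e₁ e₂ st : ℕ} {jb ji : ℕ → ℕ} (hjb : jb = fun i => R₁ * (i + 1) - 1)
    {P : List (Fin m) × Fin m → ℝ → ℝ → ℝ} {Cg ne : ℕ} {A₀ τ kr ur η e0 eg : ℝ} {wi ai : ℕ → ℚ}
    {fi : ℕ → ℝ} {sf : ℕ → ℕ → ℝ} (hkr : kr * J ≤ κ) (hy : y = ⌊ur * J⌋₊)
    (hH : A₀ * (2 * Y + 1) ≤ τ * (κ - 1)) (hA₀ : 0 ≤ A₀) (hτ : 0 ≤ τ)
    (hwi : ∀ i < n, T + i * κ + u ≤ wi i * J)
    (hw2 : ∀ i < n, (bet P c 2 (wi i) (wi i) + η) * J ≤ Λ2 + b * (i * κ + h) + u)
    (hai : ∀ i < n, T + (i + 1) * κ + 2 * u ≤ ai i * J)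
    (ha0 : ∀ i < n, (bet P c 0 (ai i) (ai i) + η) * J ≤ T + (i + 1) * κ + h + u)
    (ha1 : ∀ i < n, (bet P c 1 (ai i) (ai i) + η) * J ≤ Λ1 + (i + 1) * κ + h + u)
    (hfi : ∀ i < n, T + (i + 1) * κ + 2 * u ≤ fi i * J)
    (hf0 : ∀ i < n, sf i 0 * J ≤ T + (i + 1) * κ + h + u)
    (hf1 : ∀ i < n, sf i 1 * J ≤ Λ1 + (i + 1) * κ + h + u)
    (hΛ : T ≤ Λ1 + u) (he1 : 2 * u ≤ e₁') (he12 : e₁' + 1 ≤ e₂) (he2y : 3 * Y + 6 ≤ e₂)
    (he2 : e₂ ≤ ⌊e0 * J⌋₊) (he1g : e₁ + 1 ≤ ⌊eg * J⌋₊) (hJ1 : Λ1 + e₂ + 3 * Q ≤ J)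
    (hJ0 : T + 3 * Q ≤ J) (hJ2 : Λ2 + (b + 1) * Q ≤ J) (hst : st + 1 ≤ 2 * y)
    (hgr : e₁' + ne * (κ + 1) + Cg * (Y + 1) + b * Q + 2 * Y ≤ e₁) :
    SuV P c n b Cg ne A₀ τ kr ur η e0 eg wi ai fi sf
      (sut F c (a 0) k y x e₁' e₁ e₂ st a g jb ji Gn Hn pP pH f f' kf) := by
  have u0 := A.u0
  have uh := A.uh
  have hYh := A.Yh
  have Yκ := A.Yκ
  have t1 := A.t1
  have t2 := A.t2
  have hκQ : κ ≤ Q := by
    have := A.iQ (i := 1) hn
    push_cast at this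
    linarith
  have hQ0 : 0 ≤ Q := A.κ0.trans hκQ
  have hb0 : (0 : ℝ) ≤ b := Nat.cast_nonneg _
  have y1 := A.y1
  have y2 := A.y2
  have x1 := A.x1
  have x2 := A.x2
  have k1 := A.k1
  have k2 := A.k2
  have W1 := A.W1
  have W2 := A.W2
  have hbh : 0 ≤ (b : ℝ) * h := mul_nonneg hb0 (by linarith)
  have g01 := B.g11 0 (Nat.zero_le _)
  have g02 := B.g12 0 (Nat.zero_le _)
  have g21 := B.g21 0 (Nat.zero_le _)
  have g22 := B.g22 0 (Nat.zero_le _)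
  have e0 : -κ + ((0 : ℕ) : ℝ) * h = -κ := by push_cast; ring
  rw [e0] at g01 g02 g21 g22
  have hjN : ∀ i < n, R₁ * (i + 1) - 1 ≤ N := fun i hi => by
    have h1 : R₁ * (i + 1) ≤ R₁ * (n + 1) := Nat.mul_le_mul_left _ (by omega)
    omega
  have hwin : ∀ i < n, W + k + i * k + k = W + k + (i + 1) * k := fun i _ => by ring
  have hWi : ∀ i < n, W + k + i * k ≤ ⌊(wi i : ℝ) * J⌋₊ := fun i hi =>
    Nat.le_floor ((A.wi hi.le).1.trans (hwi i hi))
  have hki2 : ∀ i < n, ((k + i * k + k : ℕ) : ℝ) ≤ (i + 1) * κ + κ + u ∧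
      (i + 1) * κ + κ - u ≤ ((k + i * k + k : ℕ) : ℝ) := fun i hi => by
    have h1 := (A.ki (i := i + 1) hi).1
    have h2 := (A.ki (i := i + 1) hi).2
    have e : k + i * k + k = k + (i + 1) * k := by ring
    rw [e]
    push_cast at h1 h2 ⊢
    constructor <;> linarith
  have hwi2 : ∀ i < n, ((W + k + i * k + k : ℕ) : ℝ) ≤ T + (i + 1) * κ + u ∧
      T + (i + 1) * κ - u ≤ ((W + k + i * k + k : ℕ) : ℝ) := fun i hi => by
    have h1 := (A.wi (i := i + 1) hi).1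
    have h2 := (A.wi (i := i + 1) hi).2
    rw [hwin i hi]
    push_cast at h1 h2 ⊢
    constructor <;> linarith
  have hi0 : ∀ i : ℕ, (0 : ℝ) ≤ i * κ := fun i => mul_nonneg (Nat.cast_nonneg _) A.κ0
  have hiQ : ∀ i < n, ((i : ℝ) + 1) * κ ≤ Q := fun i hi => A.iQ' hi
  have hbQ : ∀ i < n, (b : ℝ) * ((i + 1) * κ) ≤ b * Q := fun i hi =>
    mul_le_mul_of_nonneg_left (A.iQ' hi) hb0
  subst hjb
  rw [← hW]
  refine
    { kJ := ?_
      yJ := hy
      H := ?_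
      Wi := hWi
      Wa := fun i hi => Nat.le_floor ((hwi2 i hi).1.trans (by have := hai i hi; linarith))
      Wf := fun i hi => Nat.le_floor ((hwi2 i hi).1.trans (by have := hfi i hi; linarith))
      l2 := fun i hi => ?_
      l0 := fun i hi => ?_
      l1 := fun i hi => ?_
      Wg := ?_
      We := ?_
      e12 := he12
      e2y := ?_
      e2J := he2
      e1J := he1g
      J1 := fun i hi => ?_
      sy := hst
      gcJ := fun i hi l hl => ?_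
      pJ := fun i hi => ?_
      gr := fun i hi l hl => ?_
      f0 := fun i hi => ?_
      f1 := fun i hi => ?_ }
  · show kr * J ≤ (k : ℝ) + 1
    linarith
  · show A₀ * ((y : ℝ) + x + 1) ≤ τ * k
    calc A₀ * ((y : ℝ) + x + 1) ≤ A₀ * (2 * Y + 1) := mul_le_mul_of_nonneg_left (by linarith) hA₀
      _ ≤ τ * (κ - 1) := hH
      _ ≤ τ * k := mul_le_mul_of_nonneg_left k2 hτ
  · show ⌊(bet P c 2 (wi i) (wi i) + η) * J⌋₊ + (W + k + i * k) ≤
      (g 0 2 + b * (k + i * k) + x) + ⌊(wi i : ℝ) * J⌋₊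
    have h1 := hw2 i hi
    have h2 := (A.kb hi.le).2
    have h3 := (A.wi hi.le).1
    have h4 := hwi i hi
    have h5 : (wi i : ℝ) * J ≤ (⌊(wi i : ℝ) * J⌋₊ : ℝ) + 1 := (Nat.lt_floor_add_one _).le
    have h6 := hWi i hi
    refine fl_add ?_ (by omega)
    push_cast at h2 h3 ⊢
    linarith
  · show ⌊(bet P c 0 (ai i) (ai i) + η) * J⌋₊ ≤ ⌊(ai i : ℝ) * J⌋₊ + x
    have h1 := ha0 i hi
    have h4 := hai i hi
    have h5 : (ai i : ℝ) * J ≤ (⌊(ai i : ℝ) * J⌋₊ : ℝ) + 1 := (Nat.lt_floor_add_one _).le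
    refine Nat.floor_le_of_le ?_
    push_cast
    linarith
  · show ⌊(bet P c 1 (ai i) (ai i) + η) * J⌋₊ + W ≤ g 0 1 + ⌊(ai i : ℝ) * J⌋₊ + x
    have h1 := ha1 i hi
    have h4 := hai i hi
    have h5 : (ai i : ℝ) * J ≤ (⌊(ai i : ℝ) * J⌋₊ : ℝ) + 1 := (Nat.lt_floor_add_one _).le
    have hik := hi0 i
    refine fl_add (by push_cast; linarith) ?_
    refine nat_of ?_
    push_cast
    linarith
  · show W ≤ g 0 1 + x
    refine nat_of ?_
    push_cast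
    linarith
  · show W ≤ g 0 1 + e₁'
    refine nat_of ?_
    push_cast
    linarith
  · show y + 2 * x + 6 ≤ e₂
    refine nat_of ?_
    push_cast
    linarith
  · show e₂ + g 0 1 + (k + i * k + k) + x + 4 ≤ J
    have h1 := (hki2 i hi).1
    have h2 := hiQ i hi
    refine nat_of ?_
    push_cast at h1 ⊢
    linarith
  · show g (R₁ * (i + 1) - 1) l ≤ J
    have hk := hjN i hi
    have e1 := jb_val hR hR1 i
    have h2 := hiQ i hi
    refine nat_of ?_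
    have : l = 0 ∨ l = 1 := by omega
    rcases this with rfl | rfl
    · have h3 := B.g01 _ hk
      rw [e1] at h3
      linarith
    · have h3 := B.g11 _ hk
      rw [e1] at h3
      have : (0 : ℝ) ≤ e₂ := Nat.cast_nonneg _
      linarith
  · show g 0 2 + b * (k + i * k) + x ≤ J
    have h2 := (A.kb hi.le).1
    have h3 := hbQ i hi
    have h4 : 0 ≤ b * κ := mul_nonneg hb0 A.κ0
    refine nat_of ?_
    push_cast at h2 ⊢
    linarith
  · show g 0 1 + (if l = 0 then e₁' else 0) + ne * k + Cg * (y + 1) ≤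
      g 0 2 + (e₁ + nlp (fun j => if j < 2 then g (R₁ * (i + 1) - 1) j else
        g 0 2 + b * (k + i * k) + x) l 2)
    have hk := hjN i hi
    have e1 := jb_val hR hR1 i
    have h1 := nlp_ge2 (g := fun j => if j < 2 then g (R₁ * (i + 1) - 1) j else
        g 0 2 + b * (k + i * k) + x) (l := l) (j := 1) (by omega) (by norm_num)
    simp only [lt_irrefl, if_false, if_pos (show 1 < 2 by norm_num)] at h1
    have h3 := B.g12 _ hk
    rw [e1] at h3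
    have h4 := (A.kb hi.le).1
    have h5 := hbQ i hi
    have h6 : (ne : ℝ) * k ≤ ne * (κ + 1) := mul_le_mul_of_nonneg_left k1 (Nat.cast_nonneg _)
    have h7 : (Cg : ℝ) * (y + 1) ≤ Cg * (Y + 1) :=
      mul_le_mul_of_nonneg_left (by linarith) (Nat.cast_nonneg _)
    have h8 := hi0 i
    have h9 : g 0 1 + e₁' + ne * k + Cg * (y + 1) + (b * (k + i * k) + x) ≤
        e₁ + g (R₁ * (i + 1) - 1) 1 := by
      refine nat_of ?_
      push_cast at h4 ⊢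
      linarith
    have h10 : (if l = 0 then e₁' else 0) ≤ e₁' := by split <;> omega
    omega
  · show sf i 0 * J ≤ (W : ℝ) + k + i * k + k + x
    have h1 := (hwi2 i hi).2
    have h2 := hf0 i hi
    push_cast at h1
    linarith
  · show sf i 1 * J ≤ (g 0 1 : ℝ) + (k + i * k + k) + x
    have h1 := (hki2 i hi).2
    have h2 := hf1 i hi
    push_cast at h1
    linarith

end

end Pool.STA37
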