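import Pool.Agent.H37.STA.Nm3

/-!
# The natural numbers of the event, second part

`sug_of`: the numbers of the far data and of the labels.
-/

set_option autoImplicit false

namespace Pool.STA37

open Finset Real MvPolynomial
open Pool.Agent.H49.Ent Pool.Agent.H32.Dense Pool.STK Pool.KA Pool.KSAT Pool.K2S Pool.PB Pool.S6C
open Pool.GEN Pool.CHT Pool.RCD Pool.D2F Pool.CHX Pool.D2Con Pool.D2A Pool.NVX
open Pool.STB (V3 Po Bx VbT)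

variable {m : ℕ}

section

variable {n b J N : ℕ} {T Q κ h Y u Λ1 Λ2 : ℝ} {W k y x : ℕ} {a : ℕ → ℕ}
  {g : ℕ → ℕ → ℕ} {F : Fam m J} {c : ℕ → Fin m}
  {Gn : ℕ → PtT F → ℕ → MvPolynomial (Option (Fin m)) ℝ}
  {Hn : ℕ → LnT F → ℕ → MvPolynomial (Option (Fin m)) ℝ}
  {pP pPf : PtT F → ℕ → MvPolynomial (Option (Fin m)) ℝ}
  {pH pHf : LnT F → ℕ → MvPolynomial (Option (Fin m)) ℝ}
  {f : ℕ → PtT F → Po} {f' : ℕ → LnT F → Po} {kp : LnT F → Po} {xP : PtT F → ℝ} {xH : LnT F → ℝ}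

/-- **The numbers of the far data and of the labels.** -/
theorem sug_of (A : ApW n b T Q κ h Y u W k y x) (B : ApN N b T h u Λ1 Λ2 (-κ) a g)
    (hW : W = a 0) (hn : 0 < n) {e₁' e₁ e₂ st : ℕ} {jb ji : ℕ → ℕ}
    {Nf' : ℕ} {hf o Kf : ℝ} {af : ℕ → ℕ} {gf : ℕ → ℕ → ℕ} (Bf : ApN Nf' b T hf u Λ1 Λ2 o af gf)
    {kf Cg : ℕ} {tt aw bb e1 eF : ℝ} {pf : ℕ → ℝ} {pr : ℝ} {Nf : ℕ → ℕ → ℝ} {N₂ : ℝ}
    {Pq : Fin 2 → ℝ} {sn : ℕ → ℝ → ℝ} {sw : ℕ → ℝ} (hT : T = tt * J) (htt : W + k = ⌊tt * J⌋₊)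
    (haw : aw * J = T + Kf) (hkf : ⌊tt * J⌋₊ + kf = ⌊aw * J⌋₊)
    (hbb : T + o ≤ bb * J) (hbb' : bb ≤ 1) (hΛ : T ≤ Λ1 + u) (hoK : Kf + 2 * u ≤ -o)
    (hJf : Λ1 + e₁' + Kf + 4 * u ≤ J) (hJg : Λ1 + e₁' + 2 * Q ≤ J)
    (hkk : (b + 2) * Q + Cg * (Y + 1) + 4 * u ≤ Kf) (hb : 3 ≤ b)
    (hN₂ : Λ2 + (b - 1) * Q - (b - 2) * κ + 5 * u ≤ T + N₂ * J)
    (h00 : Nf 0 0 * J + 3 * Y ≤ T + Kf) (h10 : Nf 1 0 * J + 3 * Y ≤ Λ1 + Kf)
    (h01 : Nf 0 1 * J + 3 * Y ≤ Kf) (h11 : Nf 1 1 * J + T + 3 * Y ≤ Λ1 + Kf)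
    (hP0 : Kf + 1 ≤ Pq 0 * J) (hP1 : Kf + Λ1 + 3 * u ≤ Pq 1 * J + T)
    (hw0 : sw 0 * J ≤ T + Kf + u) (hw1 : sw 1 * J ≤ Λ1 + Kf + u)
    (hq0 : (pf 0 - e1) * J + 3 * Y ≤ T) (hq1 : (pf 1 - e1) * J + 3 * Y ≤ Λ1)
    (hq2 : (pr - e1) * J + Cg * (Y + 1) + 4 * u ≤ Λ2) (hq2' : Cg * (Y + 1) + 4 * u ≤ Λ2)
    (hr0 : (sn 0 bb - eF) * J + 2 * Y ≤ T + o) (hr1 : (sn 1 bb - eF) * J + 2 * Y ≤ Λ1 + o)
    (hYT : 4 * Y ≤ T + o) :
    SuG n b Cg tt aw bb e1 eF pf pr Nf N₂ Pq sn sw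
      (sut F c (a 0) k y x e₁' e₁ e₂ st a g jb ji Gn Hn pP pH f f' kp)
      (fat F c (a 0) k (af 0) kf gf pPf pHf xP xH)
      (2 ^ g 0 1 * 2 ^ af 0 / (2 ^ a 0 * 2 ^ gf 0 1)) := by
  have u0 := A.u0
  have uh := A.uh
  have hYh := A.Yh
  have Yκ := A.Yκ
  have t1 := A.t1
  have t2 := A.t2
  have hκQ : κ ≤ Q := by
    have := A.iQ (i := 1) hn
    push_cast at this
    linarith
  have hκ0 := A.κ0
  have hQ0 : 0 ≤ Q := A.κ0.trans hκQ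
  have hb0 : (3 : ℝ) ≤ b := by exact_mod_cast hb
  have y1 := A.y1
  have y2 := A.y2
  have x1 := A.x1
  have x2 := A.x2
  have k1 := A.k1
  have k2 := A.k2
  have W1 := A.W1
  have W2 := A.W2
  have g01 := B.g11 0 (Nat.zero_le _)
  have g02 := B.g12 0 (Nat.zero_le _)
  have g21 := B.g21 0 (Nat.zero_le _)
  have g22 := B.g22 0 (Nat.zero_le _)
  have e0 : -κ + ((0 : ℕ) : ℝ) * h = -κ := by push_cast; ring
  rw [e0] at g01 g02 g21 g22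
  have af1 := Bf.a1 0 (Nat.zero_le _)
  have af2 := Bf.a2 0 (Nat.zero_le _)
  have gf1 := Bf.g11 0 (Nat.zero_le _)
  have gf2 := Bf.g12 0 (Nat.zero_le _)
  have e0' : o + ((0 : ℕ) : ℝ) * hf = o := by push_cast; ring
  rw [e0'] at af1 af2 gf1 gf2
  have hCg : (Cg : ℝ) * (y + 1) ≤ Cg * (Y + 1) :=
    mul_le_mul_of_nonneg_left (by linarith) (Nat.cast_nonneg _)
  have hCg0 : (0 : ℝ) ≤ Cg * (Y + 1) := mul_nonneg (Nat.cast_nonneg _) (by linarith)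
  have hbQ0 : 3 * Q ≤ b * Q := mul_le_mul_of_nonneg_right hb0 hQ0
  -- the far length
  have hft : ((⌊tt * J⌋₊ : ℕ) : ℝ) ≤ T := by
    rw [← htt]
    push_cast
    exact t1
  have hft' : T - 1 ≤ ((⌊tt * J⌋₊ : ℕ) : ℝ) := by
    rw [← htt]
    push_cast
    exact t2
  have haw0 : 0 ≤ aw * J := by
    rw [haw]
    linarith
  have hfa := Nat.floor_le haw0
  have hfa' : aw * J - 1 ≤ ((⌊aw * J⌋₊ : ℕ) : ℝ) := by
    have := Nat.lt_floor_add_one (aw * J)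
    linarith
  have hkfr : ((⌊tt * J⌋₊ : ℕ) : ℝ) + kf = ((⌊aw * J⌋₊ : ℕ) : ℝ) := by exact_mod_cast hkf
  have kf1 : (kf : ℝ) ≤ Kf + 1 := by linarith
  have kf2 : Kf - 1 ≤ (kf : ℝ) := by linarith
  have hWf : af 0 ≤ W + k := nat_of (by push_cast; linarith)
  have hd : ((W + k - af 0 : ℕ) : ℝ) = W + k - af 0 := by
    rw [Nat.cast_sub hWf]
    push_cast
    ring
  have hdd : af 0 + (W + k - af 0) = W + k := by omega
  have hwfk : af 0 + (W + k - af 0) + kf = ⌊aw * J⌋₊ := by rw [hdd, htt]; exact hkf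
  have hi0 : ∀ i : ℕ, (0 : ℝ) ≤ i * κ := fun i => mul_nonneg (Nat.cast_nonneg _) A.κ0
  have hbQ : ∀ i < n, (b : ℝ) * ((i + 1) * κ) ≤ b * Q := fun i hi =>
    mul_le_mul_of_nonneg_left (A.iQ' hi) (by linarith)
  rw [← hW]
  refine
    { ttJ := htt.symm
      bbJ := Nat.le_floor (by
        show ((af 0 : ℕ) : ℝ) ≤ bb * J
        linarith)
      bbJ' := ?_
      ht := hdd
      fJ := hwfk.le
      f1 := ?_
      g1 := ?_
      kd := ?_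
      kk := ?_
      nk := fun i hi => ?_
      iw := fun i hi => ?_
      ρ0 := by positivity
      ρ1 := ?_
      ρe := ?_
      s := fun i hi => ?_
      N00 := ?_
      N10 := ?_
      N01 := ?_
      N11 := ?_
      P0 := ?_
      P1 := ?_
      w0 := ?_
      w1 := ?_
      q0 := ?_
      q1 := ?_
      q2 := ?_
      r0 := ?_
      r1 := ?_ }
  · refine Nat.floor_le_of_le ?_
    calc bb * J ≤ 1 * J := mul_le_mul_of_nonneg_right hbb' (Nat.cast_nonneg J)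
      _ = J := one_mul _
  · show gf 0 1 + e₁' + 1 + ((W + k - af 0) + kf) ≤ J
    refine nat_of ?_
    push_cast
    rw [hd]
    linarith
  · show g 0 1 + e₁' + (k + n * k) ≤ J
    have h1 := (A.ki (le_refl n)).1
    have h2 := A.Q
    refine nat_of ?_
    push_cast at h1 ⊢
    linarith
  · show kf ≤ W + k - af 0
    refine nat_of ?_
    rw [hd]
    linarith
  · show k ≤ kf
    refine nat_of ?_
    linarith
  · show b * (k + i * k) + i * k + Cg * (y + 1) ≤ kf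
    have h1 := (A.kb hi.le).1
    have h2 := hbQ i hi
    have h3 := (A.ki hi.le).1
    have h4 := A.iQ' hi
    have h5 : (0 : ℝ) ≤ k := Nat.cast_nonneg _
    refine nat_of ?_
    push_cast at h1 h3 ⊢
    linarith
  · show W + k + i * k + k ≤ ⌊aw * J⌋₊
    have h1 := (A.wi (i := i + 1) hi).1
    have h2 := A.iQ' hi
    refine Nat.le_floor ?_
    push_cast at h1 ⊢
    linarith
  · show 2 ^ g 0 1 * 2 ^ af 0 / (2 ^ W * 2 ^ gf 0 1) ≤ (2 : ℝ) ^ y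
    rw [div_le_iff₀ (by positivity), ← pow_add, ← pow_add, ← pow_add]
    refine pow_le_pow_right₀ one_le_two (nat_of ?_)
    push_cast
    linarith
  · show (2 : ℝ) ^ g 0 1 / 2 ^ W =
      2 ^ g 0 1 * 2 ^ af 0 / (2 ^ W * 2 ^ gf 0 1) * (2 ^ gf 0 1 / 2 ^ af 0)
    have h1 : (2 : ℝ) ^ gf 0 1 ≠ 0 := by positivity
    have h2 : (2 : ℝ) ^ af 0 ≠ 0 := by positivity
    have h3 : (2 : ℝ) ^ W ≠ 0 := by positivity
    field_simp
  · show ((g 0 2 + b * (k + i * k) : ℕ) : ℝ) ≤ N₂ * J + ((W + i * k : ℕ) : ℝ)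
    have h1 := (A.kb hi.le).1
    have h2 := (A.wi hi.le).2
    have h3 : ((i : ℝ) + 1) * κ ≤ Q := A.iQ' hi
    have h4 : ((b : ℝ) - 1) * ((i + 1) * κ) ≤ (b - 1) * Q :=
      mul_le_mul_of_nonneg_left h3 (by linarith)
    push_cast at h1 h2 ⊢
    linarith
  · show Nf 0 0 * J + ((2 * y : ℕ) : ℝ) ≤ ((af 0 + (W + k - af 0) + kf : ℕ) : ℝ)
    rw [hwfk]
    push_cast
    linarith
  · show Nf 1 0 * J + ((2 * y : ℕ) : ℝ) ≤ ((gf 0 1 + (W + k - af 0) + kf : ℕ) : ℝ)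
    push_cast
    rw [hd]
    linarith
  · show Nf 0 1 * J + ((2 * y : ℕ) : ℝ) ≤ ((kf : ℕ) : ℝ)
    push_cast
    linarith
  · show Nf 1 1 * J + ((af 0 + (2 * y + 1) : ℕ) : ℝ) ≤ ((gf 0 1 + kf : ℕ) : ℝ)
    push_cast
    linarith
  · show (kf : ℝ) ≤ Pq 0 * J
    linarith
  · show (kf : ℝ) + gf 0 1 ≤ Pq 1 * J + af 0
    linarith
  · show sw 0 * J ≤ (af 0 : ℝ) + (W + k - af 0 : ℕ) + kf + x
    rw [hd]
    linarith
  · show sw 1 * J ≤ (gf 0 1 : ℝ) + ((W + k - af 0 : ℕ) + kf) + x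
    rw [hd]
    linarith
  · show ⌊(pf 0 - e1) * J⌋₊ + 2 * y ≤ af 0 + (W + k - af 0)
    rw [hdd]
    refine fl_add (by push_cast; linarith) (nat_of ?_)
    push_cast
    linarith
  · show ⌊(pf 1 - e1) * J⌋₊ + 2 * y ≤ gf 0 1 + (W + k - af 0)
    refine fl_add ?_ (nat_of ?_)
    · push_cast
      rw [hd]
      linarith
    · push_cast
      rw [hd]
      linarith
  · show ⌊(pr - e1) * J⌋₊ + Cg * (y + 1) ≤ g 0 2 + b * k
    have h1 := (A.kb (Nat.zero_le n)).2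
    have h2 : k + 0 * k = k := by ring
    rw [h2] at h1
    push_cast at h1
    refine fl_add ?_ (nat_of ?_)
    · push_cast
      linarith
    · push_cast
      linarith
  · show ⌊(sn 0 bb - eF) * J⌋₊ + y ≤ af 0
    refine fl_add (by push_cast; linarith) (nat_of (by linarith))
  · show ⌊(sn 1 bb - eF) * J⌋₊ + y ≤ gf 0 1
    refine fl_add (by push_cast; linarith) (nat_of (by linarith))

end

end Pool.STA37
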