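import Pool.Agent.H13.EJ.Der
import Pool.Agent.H77.STB.Vth

/-!
# The derivative of a polynomial with a small oscillation on a box

`osc_dX`: the derivatives in two directions at two points of the unit box differ by the size of the
oscillation times the distances.
-/

set_option autoImplicit false

namespace Pool.STA37

open Finset Real MvPolynomial
open Pool.STB (V3 Po Bx)
open Pool.EJ13 (dX eval_dX line_der deg_pd deg_dX mkv4)

theorem eval_sft (a : V3) (Q : Po) (q : V3) :
    eval q (bind₁ (fun i => X i + C (a i)) Q) = eval (a + q) Q := by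
  rw [Pool.STB77.eval_bnd]
  congr 2
  funext i
  rw [map_add, eval_X, eval_C, Pi.add_apply, add_comm]

theorem deg_sft (a : V3) {Q : Po} {K : ℕ} (h : Q.totalDegree ≤ K) :
    (bind₁ (fun i => X i + C (a i)) Q : Po).totalDegree ≤ K := by
  have h1 := Pool.STB77.deg_bnd (fun i : Fin 3 => (X i + C (a i) : Po)) (K := 1) (fun i => by
    refine (totalDegree_add _ _).trans (max_le ?_ ?_)
    · exact (totalDegree_X (R := ℝ) i).le
    · rw [totalDegree_C]
      exact Nat.zero_le _) Q
  omega

theorem dX_sft (a : V3) (Q : Po) (v q : V3) :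
    eval q (dX v (bind₁ (fun i => X i + C (a i)) Q)) = eval (a + q) (dX v Q) := by
  have h1 := line_der q v (bind₁ (fun i => X i + C (a i)) Q) 0
  have h2 := line_der (a + q) v Q 0
  have e : (fun s : ℝ => eval (q + s • v) (bind₁ (fun i => X i + C (a i)) Q)) =
      fun s : ℝ => eval (a + q + s • v) Q := by
    funext s
    rw [eval_sft, add_assoc]
  rw [e] at h1
  have h3 := h1.unique h2
  rwa [zero_smul, add_zero, add_zero] at h3

/-- The mean value inequality. -/
theorem lip_pd (Q : Po) {M : ℝ} (h : ∀ (j : Fin 3) (r : V3), Bx 4 r → |eval r (pderiv j Q)| ≤ M)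
    {r r' : V3} {δ : ℝ} (hr : Bx 1 r) (hr' : Bx 1 r') (hd : Bx δ (r - r')) :
    |eval r Q - eval r' Q| ≤ 3 * M * δ := by
  have hM : 0 ≤ M := (abs_nonneg _).trans (h 0 0 fun i => by simp)
  have hδ : 0 ≤ δ := (abs_nonneg _).trans (hd 0)
  have h1 := (convex_Icc (0 : ℝ) 1).norm_image_sub_le_of_norm_hasDerivWithin_le
    (f := fun t : ℝ => eval (r' + t • (r - r')) Q)
    (f' := fun t => eval (r' + t • (r - r')) (dX (r - r') Q)) (C := 3 * M * δ)
    (fun t _ => (line_der r' (r - r') Q t).hasDerivWithinAt) (fun t ht => by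
      rw [Real.norm_eq_abs, eval_dX]
      have hb : Bx 4 (r' + t • (r - r')) := fun i => by
        have h2 := abs_le.1 (hr i)
        have h3 := abs_le.1 (hr' i)
        rw [Pi.add_apply, Pi.smul_apply, smul_eq_mul, Pi.sub_apply, abs_le]
        constructor <;> nlinarith [ht.1, ht.2]
      calc |∑ j, (r - r') j * eval (r' + t • (r - r')) (pderiv j Q)| ≤
            ∑ j, |(r - r') j * eval (r' + t • (r - r')) (pderiv j Q)| :=
            Finset.abs_sum_le_sum_abs _ _
        _ ≤ ∑ _j : Fin 3, δ * M := Finset.sum_le_sum fun j _ => by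
            rw [abs_mul]
            exact mul_le_mul (hd j) (h j _ hb) (abs_nonneg _) hδ
        _ = 3 * M * δ := by
            rw [Finset.sum_const, Finset.card_univ, Fintype.card_fin, nsmul_eq_mul]
            push_cast
            ring) (x := 0) (y := 1) ⟨le_rfl, zero_le_one⟩ ⟨zero_le_one, le_rfl⟩
  simp only [zero_smul, add_zero, one_smul, sub_zero, norm_one, mul_one, Real.norm_eq_abs,
    add_sub_cancel] at h1
  exact h1

/-- **The derivative of a polynomial with a small oscillation.** -/
theorem osc_dX (K : ℕ) : ∃ A : ℝ, 1 ≤ A ∧ ∀ (Q : Po) (a : V3) (M : ℝ), Q.totalDegree ≤ K →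
    (∀ r, Bx 1 r → |eval (a + r) Q - eval a Q| ≤ M) → ∀ (r r' v v' : V3) (δ ε : ℝ), Bx 1 r →
    Bx 1 r' → Bx 1 v → Bx 1 v' → Bx δ (r - r') → Bx ε (v - v') →
    |eval (a + r) (dX v Q) - eval (a + r') (dX v' Q)| ≤ A * M * (δ + ε) ∧
      |eval (a + r) (dX v Q)| ≤ A * M := by
  obtain ⟨A, hA, hm⟩ := mkv4 K
  refine ⟨9 * A * A + 3 * A, by nlinarith, ?_⟩
  intro Q a M hQ ho r r' v v' δ ε hr hr' hv hv' hδ hε
  obtain ⟨P, hP⟩ : ∃ P : Po, P = bind₁ (fun i => X i + C (a i)) Q - C (eval a Q) := ⟨_, rfl⟩
  have hPd : P.totalDegree ≤ K := by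
    rw [hP]
    refine (totalDegree_sub _ _).trans (max_le (deg_sft a hQ) ?_)
    rw [totalDegree_C]
    exact Nat.zero_le _
  have hPe : ∀ q : V3, Bx 1 q → |eval q P| ≤ M := fun q hq => by
    rw [hP, map_sub, eval_sft, eval_C]
    exact ho q hq
  have hdX : ∀ w q : V3, eval q (dX w P) = eval (a + q) (dX w Q) := fun w q => by
    rw [← dX_sft, hP, Pool.EJ13.dX_sub, map_sub]
    have e : dX w (C (eval a Q) : Po) = 0 := by
      unfold dX
      exact Finset.sum_eq_zero fun j _ => by rw [pderiv_C, mul_zero]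
    rw [e, map_zero, sub_zero]
  have hM : 0 ≤ M := (abs_nonneg _).trans (hPe 0 fun i => by simp)
  have h1 : ∀ (j : Fin 3) (q : V3), Bx 4 q → |eval q (pderiv j P)| ≤ A * M := fun j q hq =>
    (hm P M hPd hPe j q hq).1
  have h2 : ∀ (i j : Fin 3) (q : V3), Bx 4 q → |eval q (pderiv i (pderiv j P))| ≤ A * (A * M) :=
    fun i j q hq => (hm (pderiv j P) (A * M) (deg_pd hPd j) (fun q' hq' => h1 j q' fun i =>
      (hq' i).trans (by norm_num)) i q hq).1
  have h4 : Bx 4 r := fun i => (hr i).trans (by norm_num)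
  have hδ0 : 0 ≤ δ := (abs_nonneg _).trans (hδ 0)
  have hε0 : 0 ≤ ε := (abs_nonneg _).trans (hε 0)
  have hAM : 0 ≤ A * M := by positivity
  constructor
  · rw [← hdX, ← hdX]
    have e1 : eval r (dX v P) - eval r' (dX v' P) =
        (∑ j, (v - v') j * eval r (pderiv j P)) +
          ∑ j, v' j * (eval r (pderiv j P) - eval r' (pderiv j P)) := by
      rw [eval_dX, eval_dX, ← Finset.sum_sub_distrib, ← Finset.sum_add_distrib]
      refine Finset.sum_congr rfl fun j _ => ?_
      rw [Pi.sub_apply]
      ring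
    rw [e1]
    have b1 : |∑ j, (v - v') j * eval r (pderiv j P)| ≤ 3 * (ε * (A * M)) := by
      calc _ ≤ ∑ j, |(v - v') j * eval r (pderiv j P)| := Finset.abs_sum_le_sum_abs _ _
        _ ≤ ∑ _j : Fin 3, ε * (A * M) := Finset.sum_le_sum fun j _ => by
            rw [abs_mul]
            exact mul_le_mul (hε j) (h1 j r h4) (abs_nonneg _) hε0
        _ = _ := by
            rw [Finset.sum_const, Finset.card_univ, Fintype.card_fin, nsmul_eq_mul]
            push_cast
            ring
    have b2 : |∑ j, v' j * (eval r (pderiv j P) - eval r' (pderiv j P))| ≤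
        3 * (3 * (A * (A * M)) * δ) := by
      calc _ ≤ ∑ j, |v' j * (eval r (pderiv j P) - eval r' (pderiv j P))| :=
            Finset.abs_sum_le_sum_abs _ _
        _ ≤ ∑ _j : Fin 3, 3 * (A * (A * M)) * δ := Finset.sum_le_sum fun j _ => by
            rw [abs_mul]
            calc |v' j| * |eval r (pderiv j P) - eval r' (pderiv j P)| ≤
                  1 * (3 * (A * (A * M)) * δ) :=
                  mul_le_mul (hv' j) (lip_pd (pderiv j P) (h2 · j) hr hr' hδ) (abs_nonneg _)
                    zero_le_one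
              _ = _ := one_mul _
        _ = _ := by
            rw [Finset.sum_const, Finset.card_univ, Fintype.card_fin, nsmul_eq_mul]
            push_cast
            ring
    refine (abs_add_le _ _).trans ((add_le_add b1 b2).trans ?_)
    have c1 : 0 ≤ A * M * δ := by positivity
    have c2 : 0 ≤ A * A * M * ε := by positivity
    nlinarith
  · rw [← hdX, eval_dX]
    calc _ ≤ ∑ j, |v j * eval r (pderiv j P)| := Finset.abs_sum_le_sum_abs _ _
      _ ≤ ∑ _j : Fin 3, 1 * (A * M) := Finset.sum_le_sum fun j _ => by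
          rw [abs_mul]
          exact mul_le_mul (hv j) (h1 j r h4) (abs_nonneg _) zero_le_one
      _ = 3 * (A * M) := by
          rw [Finset.sum_const, Finset.card_univ, Fintype.card_fin, nsmul_eq_mul]
          push_cast
          ring
      _ ≤ _ := by
          have c1 : 0 ≤ 9 * A * A * M := by positivity
          nlinarith

end Pool.STA37
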