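import Pool.Agent.H37.STA.Nm4
import Pool.Agent.H98.STB.VrR

/-!
# The nodes at a record

The balls `t + (-(M₁ ρ) + k ρ) q`, and the static node `(t + 2 q, t - q)`.
-/

set_option autoImplicit false

namespace Pool.STA37

open Finset Real MvPolynomial
open Pool.Agent.H49.Ent Pool.Agent.H32.Dense Pool.STK Pool.KA Pool.KSAT Pool.K2S Pool.PB Pool.S6C
open Pool.GEN Pool.RCD Pool.LA91 Pool.PKG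
open Pool.STB (V3 Po Bx VbT lv_lin lv_sta box_in)
open Pool.STB77 (NodF Nls cos)
open Pool.STB65 (UcO)

/-- The first window of a node. -/
noncomputable def uAA (t q ρ : ℝ) (M₁ M₂ k : ℕ) : ℝ :=
  if k ≤ M₂ then t + (-(M₁ * ρ) + k * ρ) * q else t + 2 * q

/-- The second window of a node. -/
noncomputable def uWW (t q ρ : ℝ) (M₁ M₂ k : ℕ) : ℝ :=
  if k ≤ M₂ then t + (-(M₁ * ρ) + k * ρ) * q else t + (-1) * q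

/-- The lists of the record contain the nodes. -/
structure LsU (ρ : ℝ) (n R₁ M₁ N₀ : ℕ) (A V : ℕ → ℝ) (N' : ℕ) (V' : ℕ → ℝ) (K : ℝ) : Prop where
  grid : ∀ j ≤ M₁ + 2 * n * R₁, ∃ k < N', V' k = -(M₁ * ρ) + j * ρ
  pair : ∃ k < N₀, A k = 2 ∧ V k = -1
  ρ0 : 0 < ρ
  ρn : n * (R₁ * ρ) = 1
  n0 : 0 < n
  R0 : 1 ≤ R₁
  MR : R₁ ≤ M₁
  MK : M₁ * ρ ≤ K
  K2 : 2 ≤ K

section

variable {m : ℕ} {S : PCl m} {al : ℝ} {g₀ : ℝ → ℝ} {P₀ : List (Fin m) × Fin m → ℝ → ℝ → ℝ}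
  {θ : ℝ} {P₂ : ℕ → List (Fin m) × Fin m → ℝ → ℝ → ℝ} {θ₂ Eb e₂ : ℕ → ℝ}
  {c : ℕ → Fin m} {Pt : ℝ → ℝ → ℝ} {r : ℝ → ℝ} {h K₀ g : ℝ} {L T : ℕ → ℝ → ℝ → ℝ}
  {Sl : ℕ → ℝ} {κ : ℕ → Kg} {G : Set ℝ} {S₀ N₀ : ℕ} {A V : ℕ → ℝ} {S₂ N' : ℕ} {V' : ℕ → ℝ}
  {K ε q t : ℝ} {ρ : ℝ} {n R₁ M₁ : ℕ}

theorem uAA_ball {M₂ k : ℕ} (h : k ≤ M₂) : uAA t q ρ M₁ M₂ k = t + (-(M₁ * ρ) + k * ρ) * q :=
  if_pos h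

theorem uWW_ball {M₂ k : ℕ} (h : k ≤ M₂) : uWW t q ρ M₁ M₂ k = t + (-(M₁ * ρ) + k * ρ) * q :=
  if_pos h

theorem uAA_st {M₂ : ℕ} : uAA t q ρ M₁ M₂ (M₂ + 1) = t + 2 * q := if_neg (by omega)

theorem uWW_st {M₂ : ℕ} : uWW t q ρ M₁ M₂ (M₂ + 1) = t + (-1) * q := if_neg (by omega)

theorem u_cases {M₂ k : ℕ} (h : k < M₂ + 2) : k ≤ M₂ ∨ k = M₂ + 1 := by omega

/-- The offsets of the balls. -/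
theorem LsU.off (H : LsU ρ n R₁ M₁ N₀ A V N' V' K) {k : ℕ} (hk : k ≤ M₁ + 2 * n * R₁) :
    -K ≤ -((M₁ : ℝ) * ρ) + k * ρ ∧ -((M₁ : ℝ) * ρ) + k * ρ ≤ 2 := by
  have h1 := H.MK
  have h2 : (0 : ℝ) ≤ k * ρ := mul_nonneg (Nat.cast_nonneg _) H.ρ0.le
  have h3 : (k : ℝ) ≤ M₁ + 2 * n * R₁ := by exact_mod_cast hk
  have h4 : (k : ℝ) * ρ ≤ (M₁ + 2 * n * R₁) * ρ := mul_le_mul_of_nonneg_right h3 H.ρ0.le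
  have h5 : ((M₁ : ℝ) + 2 * n * R₁) * ρ = M₁ * ρ + 2 * (n * (R₁ * ρ)) := by ring
  rw [H.ρn] at h5
  constructor <;> linarith

/-- The offset of a near ball. -/
theorem LsU.near (H : LsU ρ n R₁ M₁ N₀ A V N' V' K) (k : ℕ) :
    -((M₁ : ℝ) * ρ) + ((M₁ - R₁ + k : ℕ) : ℝ) * ρ = -(1 / n) + k * ρ := by
  have hn : (0 : ℝ) < n := by exact_mod_cast H.n0
  have h1 : (R₁ : ℝ) * ρ = 1 / n := by
    have h2 := H.ρn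
    field_simp
    linarith
  have h2 : ((M₁ - R₁ + k : ℕ) : ℝ) = M₁ - R₁ + k := by
    have := H.MR
    push_cast [Nat.cast_sub this]
    ring
  rw [h2, ← h1]
  ring

/-- **The nodes are windows.** -/
theorem u_box (R : RecG S al g₀ P₀ θ P₂ θ₂ Eb e₂ c Pt r h K₀ g L T Sl κ G S₀ N₀ A V S₂ N' V' K ε
    q t) (H : LsU ρ n R₁ M₁ N₀ A V N' V' K) {k : ℕ} (hk : k < M₁ + 2 * n * R₁ + 2) :
    0 ≤ uWW t q ρ M₁ (M₁ + 2 * n * R₁) k ∧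
      uWW t q ρ M₁ (M₁ + 2 * n * R₁) k ≤ uAA t q ρ M₁ (M₁ + 2 * n * R₁) k ∧
      uAA t q ρ M₁ (M₁ + 2 * n * R₁) k < 1 := by
  have hq := R.q0
  rcases u_cases hk with h1 | rfl
  · rw [uAA_ball h1, uWW_ball h1]
    obtain ⟨h2, h3⟩ := H.off h1
    have h4 := box_in R h2 (h3.trans H.K2)
    exact ⟨h4.2.1.le, le_rfl, h4.2.2⟩
  · rw [uAA_st, uWW_st]
    have h4 := box_in R (o := -1) (by linarith [H.K2]) (by linarith [H.K2])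
    have h5 := box_in R (o := 2) (by linarith [H.K2]) H.K2
    exact ⟨h4.2.1.le, by linarith, h5.2.2⟩

/-- Monotone levels. -/
theorem u_mono (R : RecG S al g₀ P₀ θ P₂ θ₂ Eb e₂ c Pt r h K₀ g L T Sl κ G S₀ N₀ A V S₂ N' V' K ε
    q t) {l : ℕ} (hl : l < m) {a a' w w' : ℝ} (hw : 0 ≤ w) (hww : w ≤ w') (haa : a ≤ a')
    (hwa : w ≤ a) (hwa' : w' ≤ a') (ha : a' ≤ 1) : L l a w ≤ L l a' w' :=
  ((R.lawL l hl).mono_a a a' w hw hwa haa ha).trans ((R.lawL l hl).mono_w a' w w' hw hww hwa' ha)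

/-- **The nodes of the list.** -/
theorem u_nod (r' S₀ S₂ : ℕ) (hr : 1 ≤ r') (hS₀ : 1 ≤ S₀) (hS₂ : 1 ≤ S₂) : ∃ D₀ : ℕ, 1 ≤ D₀ ∧
    ∀ {m : ℕ} {S : PCl m} {al : ℝ} {g₀ : ℝ → ℝ} {P₀ : List (Fin m) × Fin m → ℝ → ℝ → ℝ}
    {θ : ℝ} {P₂ : ℕ → List (Fin m) × Fin m → ℝ → ℝ → ℝ} {θ₂ Eb e₂ : ℕ → ℝ}
    {c : ℕ → Fin m} {Pt : ℝ → ℝ → ℝ} {rt : ℝ → ℝ} {h K₀ g : ℝ} {L T : ℕ → ℝ → ℝ → ℝ}
    {Sl : ℕ → ℝ} {κ : ℕ → Kg} {G : Set ℝ} {N₀ : ℕ} {A V : ℕ → ℝ} {N' : ℕ} {V' : ℕ → ℝ}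
    {K ε q t : ℝ}, RecG S al g₀ P₀ θ P₂ θ₂ Eb e₂ c Pt rt h K₀ g L T Sl κ G S₀ N₀ A V S₂ N' V' K ε
      q t → r' < m → ∀ {ρ : ℝ} {n R₁ M₁ : ℕ}, LsU ρ n R₁ M₁ N₀ A V N' V' K → ∀ D ≥ D₀,
      ∀ k < M₁ + 2 * n * R₁ + 2,
      NodF S c r' D L (Eb r') (Eb r') (uAA t q ρ M₁ (M₁ + 2 * n * R₁) k)
        (uWW t q ρ M₁ (M₁ + 2 * n * R₁) k) := by
  obtain ⟨D₁, hD₁, h1⟩ := Pool.STB82.nodF_rec r' S₀ hr hS₀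
  obtain ⟨D₂, hD₂, h2⟩ := Pool.STB82.nodF_pair r' S₂ hr hS₂
  refine ⟨max D₁ D₂, hD₁.trans (le_max_left _ _), ?_⟩
  intro m S al g₀ P₀ θ P₂ θ₂ Eb e₂ c Pt rt h K₀ g L T Sl κ G N₀ A V N' V' K ε q t R hrm ρ n R₁ M₁ H
    D hD k hk
  rcases u_cases hk with h3 | rfl
  · obtain ⟨i, hi, e1⟩ := H.grid k h3
    rw [uAA_ball h3, uWW_ball h3, ← e1]
    exact (h1 R hrm i hi).up ((le_max_left _ _).trans hD)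
  · obtain ⟨i, hi, e1, e2⟩ := H.pair
    rw [uAA_st, uWW_st, ← e1, ← e2]
    exact (h2 R hrm i hi).1.up ((le_max_right _ _).trans hD)

end

end Pool.STA37
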