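import Pool.Agent.H37.STA.Rcu

/-!
# The input of the jets at a record

`u_rcls`: `u_clg` at the nodes of a record; `apn_of`, `apw_of`: the numbers of the balls and of the
windows at one dimension.
-/

set_option autoImplicit false

namespace Pool.STA37

open Finset Real MvPolynomial
open Pool.Agent.H49.Ent Pool.Agent.H32.Dense Pool.STK Pool.KA Pool.KSAT Pool.K2S Pool.PB Pool.S6C
open Pool.GEN Pool.RCD Pool.LA91 Pool.PKG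
open Pool.STB (V3 Po Bx VbT lv_lin lv_sta box_in)
open Pool.STB77 (NodF Nls cos)
open Pool.STB65 (UcO)

/-- **The input of the jets at a record.** -/
theorem u_rcls (D b : ℕ) : ∃ C₀ C D' K' : ℕ, D ≤ D' ∧ 1 ≤ C₀ ∧
    ∀ {m : ℕ} {S : PCl m} {al : ℝ} {g₀ : ℝ → ℝ} {P₀ : List (Fin m) × Fin m → ℝ → ℝ → ℝ}
    {θ : ℝ} {P₂ : ℕ → List (Fin m) × Fin m → ℝ → ℝ → ℝ} {θ₂ Eb e₂ : ℕ → ℝ}
    {c : ℕ → Fin m} {Pt : ℝ → ℝ → ℝ} {rt : ℝ → ℝ} {h K₀ g : ℝ} {L T : ℕ → ℝ → ℝ → ℝ}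
    {Sl : ℕ → ℝ} {κ : ℕ → Kg} {G : Set ℝ} {S₀ N₀ : ℕ} {A V : ℕ → ℝ} {S₂ N' : ℕ} {V' : ℕ → ℝ}
    {K ε q t : ℝ} (_ : RecG S al g₀ P₀ θ P₂ θ₂ Eb e₂ c Pt rt h K₀ g L T Sl κ G S₀ N₀ A V S₂ N' V' K
      ε q t) (_ : 2 < m) (_ : κ 1 = .one) (_ : κ 2 = .sta) (_ : Sl 2 = b) {ρ : ℝ} {n R₁ M₁ : ℕ}
    (_ : LsU ρ n R₁ M₁ N₀ A V N' V' K) (_ : 0 < ε)
    (_ : ∀ k < M₁ + 2 * n * R₁ + 2, NodF S c 2 D L (Eb 2) (Eb 2)
      (uAA t q ρ M₁ (M₁ + 2 * n * R₁) k) (uWW t q ρ M₁ (M₁ + 2 * n * R₁) k)),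
    ∃ (K₁ : ℝ) (d : ℕ → ℕ → ℝ) (ψ : ℝ), 0 < K₁ ∧ 0 < ψ ∧
      (∀ k < M₁ + 2 * n * R₁ + 2, ∀ l ≤ 2, 0 < d k l ∧ d k l ≤ ε * q ∧
        d k l < uAA t q ρ M₁ (M₁ + 2 * n * R₁) k) ∧
      Bas S (fun J F A' => ∃ (B : F.Ω → Prop)
          (Gn : ℕ → PtT F → ℕ → MvPolynomial (Option (Fin m)) ℝ)
          (Hn : ℕ → LnT F → ℕ → MvPolynomial (Option (Fin m)) ℝ)
          (pP : PtT F → ℕ → MvPolynomial (Option (Fin m)) ℝ)
          (pH : LnT F → ℕ → MvPolynomial (Option (Fin m)) ℝ) (xP : PtT F → ℝ) (xH : LnT F → ℝ)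
          (f : ℕ → PtT F → Po) (f' : ℕ → LnT F → Po) (kf : LnT F → Po), Sub B A' ∧
          Pe F.p A' ≤ K₁ * Pe F.p B ∧
          Nls F c 2 D 0 (M₁ + 2 * n * R₁ + 2) ⌊ε * q * J⌋₊
            (fun j k => uAA t q ρ M₁ (M₁ + 2 * n * R₁) j ≤ uAA t q ρ M₁ (M₁ + 2 * n * R₁) k ∧
              uWW t q ρ M₁ (M₁ + 2 * n * R₁) j ≤ uWW t q ρ M₁ (M₁ + 2 * n * R₁) k)
            (fun k => ⌊uAA t q ρ M₁ (M₁ + 2 * n * R₁) k * J⌋₊)
            (fun k => ⌊uWW t q ρ M₁ (M₁ + 2 * n * R₁) k * J⌋₊) ⌊Eb 2 * J⌋₊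
            ⌊(Eb 2 + ε * q) * J⌋₊
            (fun k l => ⌊(L l (uAA t q ρ M₁ (M₁ + 2 * n * R₁) k)
              (uWW t q ρ M₁ (M₁ + 2 * n * R₁) k) - d k l) * J⌋₊) ⌊ε * q * J⌋₊
            (Real.exp (-(ψ * J))) B Gn Hn ∧
          UcO F c D' K' b (R₁ + 2 * n * R₁) ⌊uAA t q ρ M₁ (M₁ + 2 * n * R₁) (M₁ - R₁ + 0) * J⌋₊
            (C₀ * (⌊(4 * (ε * q) + 3 * (ε * q)) * J⌋₊ + 1)) (⌊2 * (ρ * q) * J⌋₊ + 1)
            (C * (⌊(4 * (ε * q) + 3 * (ε * q)) * J⌋₊ + ⌊2 * (ρ * q) * J⌋₊ + 1)) ⌊Eb 2 * J⌋₊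
            (C * (⌊(4 * (ε * q) + 3 * (ε * q)) * J⌋₊ + 1) + ⌊(Eb 2 + ε * q) * J⌋₊)
            (fun k => ⌊uAA t q ρ M₁ (M₁ + 2 * n * R₁) (M₁ - R₁ + k) * J⌋₊)
            (fun _ => ⌊(Eb 2 + ε * q) * J⌋₊)
            (fun k l => ⌊(L l (uAA t q ρ M₁ (M₁ + 2 * n * R₁) (M₁ - R₁ + k))
              (uWW t q ρ M₁ (M₁ + 2 * n * R₁) (M₁ - R₁ + k)) - d (M₁ - R₁ + k) l) * J⌋₊)
            B (fun k => Gn (M₁ - R₁ + k)) (fun k => Hn (M₁ - R₁ + k)) pP pH xP xH f f' kf) := by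
  obtain ⟨C₀, C, D', K', hDD, hC₀, hcl⟩ := Pool.STB65.u_clg D b
  refine ⟨C₀, C, D', K', hDD, hC₀, ?_⟩
  intro m S al g₀ P₀ θ P₂ θ₂ Eb e₂ c Pt rt h K₀ g L T Sl κ G S₀ N₀ A V S₂ N' V' K ε q t R hm hκ1 hκ2
    hb ρ n R₁ M₁ H hε hN
  have hq := R.q0
  have hεq : 0 < ε * q := mul_pos hε hq
  have hρq : 0 < ρ * q := mul_pos H.ρ0 hq
  have hn : (0 : ℝ) < n := by exact_mod_cast H.n0
  have hMR := H.MR
  have hNM : ∀ k ≤ R₁ + 2 * n * R₁, M₁ - R₁ + k ≤ M₁ + 2 * n * R₁ := fun k hk => by omega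
  have hbx : ∀ k < M₁ + 2 * n * R₁ + 2, _ := fun k hk => u_box R H hk
  -- the near balls
  have hA : ∀ k ≤ R₁ + 2 * n * R₁, uAA t q ρ M₁ (M₁ + 2 * n * R₁) (M₁ - R₁ + k) =
      t + (-(1 / n) + k * ρ) * q := fun k hk => by
    rw [uAA_ball (hNM k hk), H.near k]
  have hW : ∀ k ≤ R₁ + 2 * n * R₁, uWW t q ρ M₁ (M₁ + 2 * n * R₁) (M₁ - R₁ + k) =
      t + (-(1 / n) + k * ρ) * q := fun k hk => by
    rw [uWW_ball (hNM k hk), H.near k]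
  have hof : ∀ k ≤ R₁ + 2 * n * R₁, -K ≤ -(1 / (n : ℝ)) + k * ρ ∧ -(1 / (n : ℝ)) + k * ρ ≤ 2 :=
    fun k hk => by
      have h1 := H.off (hNM k hk)
      rw [H.near k] at h1
      exact h1
  have hxb : ∀ k ≤ R₁ + 2 * n * R₁, |t + (-(1 / (n : ℝ)) + k * ρ) * q - t| ≤ K * q ∧
      0 < t + (-(1 / (n : ℝ)) + k * ρ) * q ∧ t + (-(1 / (n : ℝ)) + k * ρ) * q < 1 := fun k hk =>
    box_in R (hof k hk).1 ((hof k hk).2.trans H.K2)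
  have s1 : Sl 1 = 1 := by
    have h1 := R.kd 1 (by omega)
    rw [hκ1] at h1
    exact h1
  have hst : ∀ k ≤ R₁ + 2 * n * R₁, (t + (-(1 / (n : ℝ)) + k * ρ) * q) -
      (t + (-(1 / (n : ℝ)) + (0 : ℕ) * ρ) * q) = k * ρ * q := fun k _ => by push_cast; ring
  have hkp : ∀ k : ℕ, 0 ≤ (k : ℝ) * ρ * q := fun k =>
    mul_nonneg (mul_nonneg (Nat.cast_nonneg _) H.ρ0.le) hq.le
  have hle0 : ∀ k ≤ R₁ + 2 * n * R₁, t + (-(1 / (n : ℝ)) + (0 : ℕ) * ρ) * q ≤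
      t + (-(1 / (n : ℝ)) + k * ρ) * q := fun k hk => by
    have := hst k hk
    have := hkp k
    linarith
  have hNρ : ((R₁ + 2 * n * R₁ : ℕ) : ℝ) * ρ = 1 / n + 2 := by
    have h2 := H.ρn
    have h1 : (R₁ : ℝ) * ρ = 1 / n := by
      field_simp
      linarith
    push_cast
    calc ((R₁ : ℝ) + 2 * n * R₁) * ρ = R₁ * ρ + 2 * (n * (R₁ * ρ)) := by ring
      _ = 1 / n + 2 := by rw [h2, h1]; ring
  have h1n : 1 / (n : ℝ) ≤ 1 := by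
    rw [div_le_one hn]
    exact_mod_cast H.n0
  have h0N : 0 ≤ R₁ + 2 * n * R₁ := Nat.zero_le _
  have hL0 := hxb 0 h0N
  obtain ⟨K₁, d, ψ, hK₁, hψ, hd, hbas⟩ := hcl (S := S) (c := c) (β := L) (e := Eb 2) (E := Eb 2)
    R.tmh (R.inj.mono (Set.Iio_subset_Iio (by omega))) (M₁ + 2 * n * R₁ + 2)
    (uAA t q ρ M₁ (M₁ + 2 * n * R₁)) (uWW t q ρ M₁ (M₁ + 2 * n * R₁))
    (fun k hk => (hbx k hk).1) (fun k hk => (hbx k hk).2.1) (fun k hk => (hbx k hk).2.2)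
    (fun j hj k hk h1 h2 => u_mono R hm (hbx j hj).1 h2 h1 (hbx j hj).2.1 (hbx k hk).2.1
      (hbx k hk).2.2.le) hN (R₁ + 2 * n * R₁) (fun k => M₁ - R₁ + k)
    (fun k hk => ⟨by have := hNM k hk; omega, by rw [hA k hk, hW k hk]⟩)
    (fun k hk => by
      rw [hA k hk.le, hA (k + 1) hk]
      push_cast
      linarith) (M₁ + 2 * n * R₁ + 1)
    ⟨by omega, by
      rw [uAA_st, hA _ le_rfl, hNρ]
      ring, by
      rw [uWW_st, hA 0 h0N]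
      have : -1 * q ≤ (-(1 / (n : ℝ)) + (0 : ℕ) * ρ) * q :=
        mul_le_mul_of_nonneg_right (by push_cast; linarith) hq.le
      linarith⟩
    (2 * (ρ * q)) (4 * (ε * q)) (fun k hk => by
      rw [hA k hk.le, hA (k + 1) hk]
      push_cast
      linarith) (by linarith) (fun k hk => by
      rw [hA k hk, hW k hk]
      have := abs_le.1 (R.l0 _ (hxb k hk).1)
      linarith) (by
      rw [hA 0 h0N, hW 0 h0N]
      have := abs_le.1 (R.l0 _ hL0.1)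
      linarith) (by
      rw [hA 0 h0N, hW 0 h0N]
      exact R.low_at (by omega) hL0.2.1.le le_rfl hL0.2.2.le) (fun k hk => by
      rw [hA k hk, hW k hk, hA 0 h0N, hW 0 h0N]
      have := abs_le.1 (lv_lin R (l := 1) (by omega) hL0.1 (hxb k hk).1)
      rw [s1] at this
      linarith) (fun k hk => by
      rw [hA k hk, hW k hk, hA 0 h0N, hW 0 h0N]
      have := abs_le.1 (lv_lin R (l := 1) (by omega) hL0.1 (hxb k hk).1)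
      rw [s1] at this
      linarith) (by
      rw [hA 0 h0N, hW 0 h0N]
      exact hL0.2.1.le.trans (R.low_at (by omega) hL0.2.1.le le_rfl hL0.2.2.le)) (fun k hk => by
      rw [hA k hk, hW k hk, hA 0 h0N, hW 0 h0N]
      have := abs_le.1 (lv_lin R (l := 2) (by omega) hL0.1 (hxb k hk).1)
      rw [hb] at this
      linarith) (by
      rw [uAA_st, uWW_st, hA 0 h0N, hW 0 h0N, hA _ le_rfl]
      have e1 : t + (-(1 / (n : ℝ)) + ((R₁ + 2 * n * R₁ : ℕ) : ℝ) * ρ) * q = t + 2 * q := by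
        rw [hNρ]
        ring
      rw [e1]
      have h1 := hxb _ (le_refl (R₁ + 2 * n * R₁))
      rw [e1] at h1
      have h2 := abs_le.1 (lv_lin R (l := 2) (by omega) hL0.1 h1.1)
      rw [hb] at h2
      have h3 := lv_sta R (l := 2) (by omega) hκ2 (a := t + 2 * q) (w := t + (-1) * q)
        (by have := mul_le_mul_of_nonneg_right H.K2 hq.le; linarith) (by linarith)
        (by have := mul_le_mul_of_nonneg_right H.K2 hq.le; linarith)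
      linarith) (fun k hk l hl => by
      rw [hA k hk, hW k hk, hA 0 h0N, hW 0 h0N]
      have := u_mono R (l := l) (by omega) hL0.2.1.le (hle0 k hk) (hle0 k hk) le_rfl le_rfl
        (hxb k hk).2.2.le
      linarith) 0 (ε * q) hεq
  exact ⟨K₁, d, ψ, hK₁, hψ, hd, hbas⟩

end Pool.STA37
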