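import Pool.Agent.H37.STA.Rcv

/-!
# The numbers of the balls and of the windows at one dimension

`apn_of`, `apw_of`.
-/

set_option autoImplicit false

namespace Pool.STA37

open Finset Real MvPolynomial
open Pool.Agent.H49.Ent Pool.Agent.H32.Dense Pool.STK Pool.KA Pool.KSAT Pool.K2S Pool.PB Pool.S6C
open Pool.GEN Pool.RCD Pool.LA91 Pool.PKG
open Pool.STB (V3 Po Bx VbT lv_lin lv_sta box_in)

section

variable {m : ℕ} {S : PCl m} {al : ℝ} {g₀ : ℝ → ℝ} {P₀ : List (Fin m) × Fin m → ℝ → ℝ → ℝ}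
  {θ : ℝ} {P₂ : ℕ → List (Fin m) × Fin m → ℝ → ℝ → ℝ} {θ₂ Eb e₂ : ℕ → ℝ}
  {c : ℕ → Fin m} {Pt : ℝ → ℝ → ℝ} {r : ℝ → ℝ} {h K₀ g : ℝ} {L T : ℕ → ℝ → ℝ → ℝ}
  {Sl : ℕ → ℝ} {κ : ℕ → Kg} {G : Set ℝ} {S₀ N₀ : ℕ} {A V : ℕ → ℝ} {S₂ N' : ℕ} {V' : ℕ → ℝ}
  {K ε q t : ℝ} {ρ : ℝ} {n R₁ M₁ : ℕ}

theorem fl_up {x y : ℝ} (h : x ≤ y) (hy : 0 ≤ y) : ((⌊x⌋₊ : ℕ) : ℝ) ≤ y := by
  have h1 : ⌊x⌋₊ ≤ ⌊y⌋₊ := Nat.floor_mono h
  have h2 : ((⌊x⌋₊ : ℕ) : ℝ) ≤ ((⌊y⌋₊ : ℕ) : ℝ) := by exact_mod_cast h1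
  exact h2.trans (Nat.floor_le hy)

theorem fl_lo {x y : ℝ} (h : y ≤ x - 1) : y ≤ ((⌊x⌋₊ : ℕ) : ℝ) := by
  have := (Nat.lt_floor_add_one x).le
  linarith

/-- **The numbers of a list of balls** at one dimension. -/
theorem apn_of (R : RecG S al g₀ P₀ θ P₂ θ₂ Eb e₂ c Pt r h K₀ g L T Sl κ G S₀ N₀ A V S₂ N' V' K ε
    q t) (hm : 2 < m) (hκ1 : κ 1 = .one) {b : ℕ} (hb : Sl 2 = b)
    (H : LsU ρ n R₁ M₁ N₀ A V N' V' K) (hε : 0 < ε) {ι : ℕ → ℕ} {N : ℕ} {o : ℝ}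
    (hι : ∀ k ≤ N, ι k ≤ M₁ + 2 * n * R₁ ∧ -((M₁ : ℝ) * ρ) + (ι k : ℕ) * ρ = o + k * ρ)
    {d : ℕ → ℕ → ℝ} (hd : ∀ k < M₁ + 2 * n * R₁ + 2, ∀ l ≤ 2, 0 < d k l ∧ d k l ≤ ε * q ∧
        d k l < uAA t q ρ M₁ (M₁ + 2 * n * R₁) k) {J : ℕ} (hJ : 1 ≤ ε * q * J) :
    ApN N b (t * J) (ρ * q * J) ((4 * (ε * q) + 3 * (ε * q)) * J) (L 1 t t * J) (L 2 t t * J)
      (o * q * J) (fun k => ⌊uAA t q ρ M₁ (M₁ + 2 * n * R₁) (ι k) * J⌋₊)
      (fun k l => ⌊(L l (uAA t q ρ M₁ (M₁ + 2 * n * R₁) (ι k))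
        (uWW t q ρ M₁ (M₁ + 2 * n * R₁) (ι k)) - d (ι k) l) * J⌋₊) := by
  have hq := R.q0
  have hJ0 : (0 : ℝ) ≤ J := Nat.cast_nonneg J
  have hA : ∀ k ≤ N, uAA t q ρ M₁ (M₁ + 2 * n * R₁) (ι k) = t + (o + k * ρ) * q := fun k hk => by
    rw [uAA_ball (hι k hk).1, (hι k hk).2]
  have hW : ∀ k ≤ N, uWW t q ρ M₁ (M₁ + 2 * n * R₁) (ι k) = t + (o + k * ρ) * q := fun k hk => by
    rw [uWW_ball (hι k hk).1, (hι k hk).2]
  have hbx : ∀ k ≤ N, |t + (o + k * ρ) * q - t| ≤ K * q ∧ 0 < t + (o + k * ρ) * q ∧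
      t + (o + k * ρ) * q < 1 := fun k hk => by
    have h1 := H.off (hι k hk).1
    rw [(hι k hk).2] at h1
    exact box_in R h1.1 (h1.2.trans H.K2)
  have s1 : Sl 1 = 1 := by
    have h1 := R.kd 1 (by omega)
    rw [hκ1] at h1
    exact h1
  have hx : ∀ k : ℕ, (t + (o + k * ρ) * q) * J = t * J + (o * q * J + k * (ρ * q * J)) :=
    fun k => by ring
  have hdk : ∀ k ≤ N, ∀ l ≤ 2, 0 < d (ι k) l ∧ d (ι k) l ≤ ε * q := fun k hk l hl => by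
    have h1 := hd (ι k) (by have := (hι k hk).1; omega) l hl
    exact ⟨h1.1, h1.2.1⟩
  -- the levels
  have up : ∀ k ≤ N, ∀ l ≤ 2, ∀ X : ℝ, L l (t + (o + k * ρ) * q) (t + (o + k * ρ) * q) * J ≤ X →
      ((⌊(L l (uAA t q ρ M₁ (M₁ + 2 * n * R₁) (ι k))
        (uWW t q ρ M₁ (M₁ + 2 * n * R₁) (ι k)) - d (ι k) l) * J⌋₊ : ℕ) : ℝ) ≤ X := by
    intro k hk l hl X hX
    rw [hA k hk, hW k hk]
    have h1 := (hdk k hk l hl).1
    have h2 : 0 ≤ L l (t + (o + k * ρ) * q) (t + (o + k * ρ) * q) :=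
      (hbx k hk).2.1.le.trans (R.low_at (by omega) (hbx k hk).2.1.le le_rfl (hbx k hk).2.2.le)
    refine (fl_up ?_ (mul_nonneg h2 hJ0)).trans hX
    exact mul_le_mul_of_nonneg_right (by linarith) hJ0
  have lo : ∀ k ≤ N, ∀ l ≤ 2, ∀ X : ℝ, X + ε * q * J + 1 ≤
      L l (t + (o + k * ρ) * q) (t + (o + k * ρ) * q) * J →
      X ≤ ((⌊(L l (uAA t q ρ M₁ (M₁ + 2 * n * R₁) (ι k))
        (uWW t q ρ M₁ (M₁ + 2 * n * R₁) (ι k)) - d (ι k) l) * J⌋₊ : ℕ) : ℝ) := by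
    intro k hk l hl X hX
    rw [hA k hk, hW k hk]
    have h1 := mul_le_mul_of_nonneg_right (hdk k hk l hl).2 hJ0
    refine fl_lo ?_
    rw [sub_mul]
    linarith
  refine ⟨fun k hk => ?_, fun k hk => ?_, fun k hk => ?_, fun k hk => ?_, fun k hk => ?_,
    fun k hk => ?_, fun k hk => ?_, fun k hk => ?_⟩
  · show ((⌊uAA t q ρ M₁ (M₁ + 2 * n * R₁) (ι k) * J⌋₊ : ℕ) : ℝ) ≤ _
    rw [hA k hk, ← hx]
    exact Nat.floor_le (mul_nonneg (hbx k hk).2.1.le hJ0)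
  · show _ ≤ ((⌊uAA t q ρ M₁ (M₁ + 2 * n * R₁) (ι k) * J⌋₊ : ℕ) : ℝ)
    rw [hA k hk, ← hx]
    exact fl_lo le_rfl
  · refine up k hk 0 (by norm_num) _ ?_
    have h1 := (abs_le.1 (R.l0 _ (hbx k hk).1)).2
    have h2 := mul_le_mul_of_nonneg_right h1 hJ0
    have h3 := hx k
    rw [sub_mul] at h2
    linarith
  · refine lo k hk 0 (by norm_num) _ ?_
    have h1 := (abs_le.1 (R.l0 _ (hbx k hk).1)).1
    have h2 := mul_le_mul_of_nonneg_right h1 hJ0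
    have h3 := hx k
    rw [sub_mul] at h2
    linarith
  · refine up k hk 1 (by norm_num) _ ?_
    have h1 := (abs_le.1 (R.dL 1 (by omega) _ (hbx k hk).1)).2
    rw [s1] at h1
    have h2 := mul_le_mul_of_nonneg_right h1 hJ0
    have h3 := hx k
    rw [sub_mul, sub_mul] at h2
    linarith
  · refine lo k hk 1 (by norm_num) _ ?_
    have h1 := (abs_le.1 (R.dL 1 (by omega) _ (hbx k hk).1)).1
    rw [s1] at h1
    have h2 := mul_le_mul_of_nonneg_right h1 hJ0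
    have h3 := hx k
    rw [sub_mul, sub_mul] at h2
    linarith
  · refine up k hk 2 le_rfl _ ?_
    have h1 := (abs_le.1 (R.dL 2 hm _ (hbx k hk).1)).2
    rw [hb] at h1
    have h2 := mul_le_mul_of_nonneg_right h1 hJ0
    have h3 : (b : ℝ) * (t + (o + k * ρ) * q - t) * J = b * (o * q * J + k * (ρ * q * J)) := by
      ring
    rw [sub_mul, sub_mul, h3] at h2
    linarith
  · refine lo k hk 2 le_rfl _ ?_
    have h1 := (abs_le.1 (R.dL 2 hm _ (hbx k hk).1)).1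
    rw [hb] at h1
    have h2 := mul_le_mul_of_nonneg_right h1 hJ0
    have h3 : (b : ℝ) * (t + (o + k * ρ) * q - t) * J = b * (o * q * J + k * (ρ * q * J)) := by
      ring
    rw [sub_mul, sub_mul, h3] at h2
    linarith

end

/-- **The numbers of the windows** at one dimension. -/
theorem apw_of {n b : ℕ} {t q ρ ω ε : ℝ} (hn : 0 < n) (hq : 0 < q) (ht : q ≤ t) (hω : 0 < ω)
    (h1 : 280 * ε ≤ ρ) (h2 : (10 * b + 40) * ρ ≤ ω) (h3 : 40 * ω * n ≤ 1) {J : ℕ}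
    (hJ : ((n : ℝ) + 2) * (b + 1) ≤ (4 * (ε * q) + 3 * (ε * q)) * J) :
    ApW n b (t * J) (q * J) (q / n * J) (ρ * q * J) (ω * q * J) ((4 * (ε * q) + 3 * (ε * q)) * J)
      ⌊(t - q / n) * J⌋₊ (⌊t * J⌋₊ - ⌊(t - q / n) * J⌋₊) ⌊ω * q * J⌋₊ ⌊ω * q * J⌋₊ := by
  have hn' : (0 : ℝ) < n := by exact_mod_cast hn
  have hJ0 : (0 : ℝ) ≤ J := Nat.cast_nonneg J
  have hqJ : 0 ≤ q * J := mul_nonneg hq.le hJ0
  have hqn : q / n ≤ q := div_le_self hq.le (by exact_mod_cast hn)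
  have hqn0 : 0 ≤ q / n := by positivity
  have e1 : (t - q / n) * J = t * J - q / n * J := by ring
  have f1 := Nat.floor_le (show 0 ≤ (t - q / n) * J from mul_nonneg (by linarith) hJ0)
  have f2 := (Nat.lt_floor_add_one ((t - q / n) * J)).le
  have f3 := Nat.floor_le (show 0 ≤ t * J from mul_nonneg (by linarith) hJ0)
  have f4 := (Nat.lt_floor_add_one (t * J)).le
  have f5 := Nat.floor_le (show 0 ≤ ω * q * J from by positivity)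
  have f6 := (Nat.lt_floor_add_one (ω * q * J)).le
  have hWt : ⌊(t - q / n) * J⌋₊ ≤ ⌊t * J⌋₊ :=
    Nat.floor_mono (mul_le_mul_of_nonneg_right (by linarith) hJ0)
  have hc : ((⌊t * J⌋₊ - ⌊(t - q / n) * J⌋₊ : ℕ) : ℝ) = ⌊t * J⌋₊ - ⌊(t - q / n) * J⌋₊ :=
    Nat.cast_sub hWt
  rw [e1] at f1 f2
  refine
    { Q := by field_simp
      κ0 := by positivity
      W1 := by rw [e1]; exact f1
      W2 := by rw [e1]; linarith
      k1 := by rw [hc, e1]; linarith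
      k2 := by rw [hc, e1]; linarith
      t1 := by rw [hc]; linarith
      t2 := by rw [hc]; linarith
      y1 := f5
      y2 := by linarith
      x1 := f5
      x2 := by linarith
      u1 := hJ
      uh := ?_
      hY := ?_
      Yκ := ?_ }
  · have := mul_le_mul_of_nonneg_right h1 hqJ
    linarith
  · have := mul_le_mul_of_nonneg_right h2 hqJ
    linarith
  · have h4 : 40 * ω ≤ 1 / n := by
      rw [le_div_iff₀ hn']
      exact h3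
    have h5 := mul_le_mul_of_nonneg_right h4 hqJ
    have e2 : q / n * J = 1 / n * (q * J) := by ring
    rw [e2]
    linarith

end Pool.STA37
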