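import Pool.Agent.H37.STA.Rcw

/-!
# The natural numbers at one dimension

`UNu`: the constants; `UNj`: the natural numbers at one dimension.
-/

set_option autoImplicit false

namespace Pool.STA37

open Finset Real

/-- **The constants.** -/
structure UNu (b n R₁ M₁ ne Cg C₀ C C₁ C₂ Cf : ℕ) (A τ ω ρ ε ν φ σ kf K : ℝ) : Prop where
  hb : 3 ≤ b
  n0 : 0 < n
  c0 : 1 ≤ C₀
  cf : 1 ≤ Cf
  A0 : 0 ≤ A
  τ0 : 0 ≤ τ
  ω0 : 0 < ω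
  ε0 : 0 < ε
  e1 : 280 * ε ≤ ρ
  e2 : C₀ * (16 * ε) ≤ ρ
  e3 : Cf * (200 * ε) ≤ ρ
  r1 : (10 * b + 40) * ρ ≤ ω
  r2 : C * (8 * ρ) ≤ ω
  r3 : C₁ * (8 * ρ) ≤ ω
  r4 : C₂ * (20 * ρ) ≤ ω
  w1 : 40 * ω * n ≤ 1
  w2 : 6 * A * ω * n ≤ τ
  w3 : Cg * (8 * ω) ≤ 1
  n1 : b + 4 ≤ ν
  n2 : kf + 1 ≤ ν
  m1 : ν + 1 ≤ M₁ * ρ
  m2 : M₁ * ρ + 1 ≤ K
  k1 : 2 * ne + 2 * Cg + b + 10 ≤ K
  p1 : (2 * Cg + 6) * ω ≤ φ
  s1 : 4 * ω ≤ σ / 40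

theorem UNu.κ' {b n R₁ M₁ ne Cg C₀ C C₁ C₂ Cf : ℕ} {A τ ω ρ ε ν φ σ kf K : ℝ}
    (N : UNu b n R₁ M₁ ne Cg C₀ C C₁ C₂ Cf A τ ω ρ ε ν φ σ kf K) : ω ≤ 1 / 40 := by
  have h1 := N.w1
  have h2 : (1 : ℝ) ≤ n := by exact_mod_cast N.n0
  have h3 : 40 * ω * 1 ≤ 40 * ω * n := mul_le_mul_of_nonneg_left h2 (by have := N.ω0; linarith)
  linarith

/-- **The numbers at one dimension.** -/
structure UNj (b n ne Cg C₀ C C₁ C₂ Cf : ℕ) (Q κ h Y u E0 : ℝ) (U sN vN y₀ X s₁ sf e₁' e₁ e₂ st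
    eN y : ℕ) (EX : ℕ) : Prop where
  Q0 : 0 ≤ Q
  u1 : u ≤ U
  U1 : (U : ℝ) * 35 ≤ h
  s1 : u ≤ sN
  s2 : (sN : ℝ) ≤ h
  v1 : 2 * h ≤ vN
  v2 : (vN : ℝ) ≤ 3 * h
  y0 : y₀ ≤ y
  X1 : (X : ℝ) + 1 + b * Q + 3 * Y ≤ e₁
  EX1 : EX ≤ e₁ + 1
  s11 : 3 * u ≤ s₁
  sf1 : 4 * u ≤ sf
  sf2 : (sf : ℝ) ≤ h
  es : sN + eN ≤ e₁'
  ef : sf + eN ≤ e₁'
  e1u : 2 * u ≤ e₁'
  e1Q : (e₁' : ℝ) ≤ E0 + Q
  e12 : e₁' + 1 ≤ e₂
  e1e : e₁ + 1 = e₂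
  e2y : 3 * Y + 6 ≤ e₂
  gr : (e₁' : ℝ) + ne * (κ + 1) + Cg * (Y + 1) + b * Q + 2 * Y ≤ e₁
  e2Q : (e₂ : ℝ) ≤ E0 + (2 * ne + 2 * Cg + b + 5) * Q
  st1 : st + 1 ≤ 2 * y
  Co : C₂ * (sN + vN + sf + vN + 1) + sf + 1 ≤ y
  CgY : Cg * (Y + 1) ≤ Q / 4
  uh : 40 * u ≤ h
  hY : 40 * h ≤ Y
  Yκ : 40 * Y ≤ κ
  κQ : κ ≤ Q

/-- **The numbers at one dimension** from the constants. -/
theorem unj_of {b n R₁ M₁ ne Cg C₀ C C₁ C₂ Cf : ℕ} {A τ ω ρ ε ν φ σ kf K : ℝ}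
    (N : UNu b n R₁ M₁ ne Cg C₀ C C₁ C₂ Cf A τ ω ρ ε ν φ σ kf K) {q Eb : ℝ} {J : ℕ} (hq : 0 < q)
    (hEb : 0 < Eb) (hJ : 10 + 2 * (ne : ℝ) + Cg ≤ ε * q * J) :
    UNj b n ne Cg C₀ C C₁ C₂ Cf (q * J) (q / n * J) (ρ * q * J) (ω * q * J)
      ((4 * (ε * q) + 3 * (ε * q)) * J) (Eb * J) (⌊(4 * (ε * q) + 3 * (ε * q)) * J⌋₊ + 1)
      (C₀ * (⌊(4 * (ε * q) + 3 * (ε * q)) * J⌋₊ + 1)) (⌊2 * (ρ * q) * J⌋₊ + 1)
      (C * (⌊(4 * (ε * q) + 3 * (ε * q)) * J⌋₊ + ⌊2 * (ρ * q) * J⌋₊ + 1))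
      (C * (⌊(4 * (ε * q) + 3 * (ε * q)) * J⌋₊ + 1) + ⌊(Eb + ε * q) * J⌋₊)
      (8 * (⌊(4 * (ε * q) + 3 * (ε * q)) * J⌋₊ + 1))
      (Cf * (8 * (⌊(4 * (ε * q) + 3 * (ε * q)) * J⌋₊ + 1) + 1))
      ((C₀ + 9 * Cf) * (⌊(4 * (ε * q) + 3 * (ε * q)) * J⌋₊ + 1) + ⌊Eb * J⌋₊)
      (⌊(Eb + (2 * ne + 2 * Cg + b + 5) * q) * J⌋₊ - 1)
      ⌊(Eb + (2 * ne + 2 * Cg + b + 5) * q) * J⌋₊
      (C₁ * (C₀ * (⌊(4 * (ε * q) + 3 * (ε * q)) * J⌋₊ + 1) + (⌊2 * (ρ * q) * J⌋₊ + 1) + 1))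
      ⌊Eb * J⌋₊ ⌊ω * q * J⌋₊ ⌊(Eb + ε * q) * J⌋₊ := by
  have hJ0 : (0 : ℝ) ≤ J := Nat.cast_nonneg J
  have hn1 : (1 : ℝ) ≤ n := by exact_mod_cast N.n0
  have hb0 : (3 : ℝ) ≤ b := by exact_mod_cast N.hb
  have hω := N.κ'
  have hω0 := N.ω0
  have hε0 := N.ε0
  have hρ0 : 0 < ρ := by have := N.e1; linarith
  obtain ⟨Q, hQ⟩ : ∃ Q, Q = q * J := ⟨_, rfl⟩
  have hεQ : 10 + 2 * (ne : ℝ) + Cg ≤ ε * Q := by
    rw [hQ]
    linarith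
  have hne0 : (0 : ℝ) ≤ ne := Nat.cast_nonneg _
  have hCg0 : (0 : ℝ) ≤ Cg := Nat.cast_nonneg _
  have hC0 : (0 : ℝ) ≤ C₀ := Nat.cast_nonneg _
  have hC0' : (1 : ℝ) ≤ C₀ := by exact_mod_cast N.c0
  have hCf0 : (1 : ℝ) ≤ Cf := by exact_mod_cast N.cf
  have hQ0 : 0 ≤ Q := by
    rw [hQ]
    positivity
  have e1 : (4 * (ε * q) + 3 * (ε * q)) * J = 7 * (ε * Q) := by rw [hQ]; ring
  have e2 : 2 * (ρ * q) * J = 2 * (ρ * Q) := by rw [hQ]; ring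
  have e3 : ρ * q * J = ρ * Q := by rw [hQ]; ring
  have e4 : ω * q * J = ω * Q := by rw [hQ]; ring
  have e5 : (Eb + (2 * ne + 2 * Cg + b + 5) * q) * J =
    Eb * J + (2 * ne + 2 * Cg + b + 5) * Q := by rw [hQ]; ring
  have e6 : (Eb + ε * q) * J = Eb * J + ε * Q := by rw [hQ]; ring
  have e7 : q / n * J = Q / n := by rw [hQ]; ring
  rw [e1, e2, e3, e4, e5, e6, e7, ← hQ]
  have hE0 : 0 ≤ Eb * J := by positivity
  generalize Eb * (J : ℝ) = E at hE0 ⊢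
  -- products with `Q`
  have q1 : 280 * (ε * Q) ≤ ρ * Q := by
    have := mul_le_mul_of_nonneg_right N.e1 hQ0
    linarith
  have q2 : C₀ * (16 * (ε * Q)) ≤ ρ * Q := by
    have := mul_le_mul_of_nonneg_right N.e2 hQ0
    linarith
  have q3 : Cf * (200 * (ε * Q)) ≤ ρ * Q := by
    have := mul_le_mul_of_nonneg_right N.e3 hQ0
    linarith
  have q4 : (10 * b + 40) * (ρ * Q) ≤ ω * Q := by
    have := mul_le_mul_of_nonneg_right N.r1 hQ0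
    linarith
  have q5 : C * (8 * (ρ * Q)) ≤ ω * Q := by
    have := mul_le_mul_of_nonneg_right N.r2 hQ0
    linarith
  have q6 : C₁ * (8 * (ρ * Q)) ≤ ω * Q := by
    have := mul_le_mul_of_nonneg_right N.r3 hQ0
    linarith
  have q7 : C₂ * (20 * (ρ * Q)) ≤ ω * Q := by
    have := mul_le_mul_of_nonneg_right N.r4 hQ0
    linarith
  have q8 : Cg * (8 * (ω * Q)) ≤ Q := by
    have := mul_le_mul_of_nonneg_right N.w3 hQ0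
    linarith
  have q9 : ω * Q ≤ Q / 40 := by
    have := mul_le_mul_of_nonneg_right hω hQ0
    linarith
  have q10 : 40 * (ω * Q) ≤ Q / n := by
    rw [le_div_iff₀ (by linarith)]
    have := mul_le_mul_of_nonneg_right N.w1 hQ0
    linarith
  have q11 : Q / n ≤ Q := div_le_self hQ0 hn1
  have hρQ : 0 ≤ ρ * Q := mul_nonneg hρ0.le hQ0
  have hbρ : 0 ≤ b * (ρ * Q) := mul_nonneg (by linarith) hρQ
  -- the floors
  have f1 := Nat.floor_le (show 0 ≤ 7 * (ε * Q) by linarith)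
  have f2 := (Nat.lt_floor_add_one (7 * (ε * Q))).le
  have f3 := Nat.floor_le (show 0 ≤ 2 * (ρ * Q) by linarith)
  have f4 := (Nat.lt_floor_add_one (2 * (ρ * Q))).le
  have f5 := (Nat.lt_floor_add_one (ω * Q)).le
  have f6 := Nat.floor_le (show 0 ≤ E + (2 * ne + 2 * Cg + b + 5) * Q by positivity)
  have f7 := (Nat.lt_floor_add_one (E + (2 * ne + 2 * Cg + b + 5) * Q)).le
  have f8 := Nat.floor_le hE0
  have f9 := Nat.floor_le (show 0 ≤ E + ε * Q by linarith)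
  generalize (⌊7 * (ε * Q)⌋₊ : ℕ) = U0 at f1 f2 ⊢
  generalize (⌊2 * (ρ * Q)⌋₊ : ℕ) = V0 at f3 f4 ⊢
  generalize (⌊ω * Q⌋₊ : ℕ) = Y0 at f5 ⊢
  generalize hE2 : (⌊E + (2 * ne + 2 * Cg + b + 5) * Q⌋₊ : ℕ) = E2 at f6 f7 ⊢
  generalize (⌊E⌋₊ : ℕ) = EN at f8 ⊢
  have hEX : ⌊E + ε * Q⌋₊ ≤ E2 := by
    rw [← hE2]
    refine Nat.floor_mono ?_
    have h1 : ε * Q ≤ Q := by linarith
    have h2 : 0 ≤ (2 * ne + 2 * Cg + b : ℝ) * Q := by positivity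
    linarith
  generalize (⌊E + ε * Q⌋₊ : ℕ) = EX at f9 hEX ⊢
  have hU : (U0 : ℝ) + 1 ≤ 8 * (ε * Q) := by linarith
  have hbQ : (2 * ne + 2 * Cg + b + 5 : ℝ) * Q = 2 * (ne * Q) + 2 * (Cg * Q) + b * Q + 5 * Q := by
    ring
  have hneQ : 0 ≤ (ne : ℝ) * Q := by positivity
  have hCgQ : 0 ≤ (Cg : ℝ) * Q := by positivity
  have hbQ0 : 3 * Q ≤ b * Q := mul_le_mul_of_nonneg_right hb0 hQ0
  have hE21 : 1 ≤ E2 := by
    refine Nat.one_le_iff_ne_zero.2 fun h => ?_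
    rw [h] at f7
    push_cast at f7
    linarith
  have hE2c : ((E2 - 1 : ℕ) : ℝ) = E2 - 1 := by
    rw [Nat.cast_sub hE21]
    push_cast
    ring
  -- the products of natural numbers
  have g1 : (C₀ : ℝ) * (U0 + 1) ≤ C₀ * (8 * (ε * Q)) := mul_le_mul_of_nonneg_left hU hC0
  have g2 : (Cf : ℝ) * (8 * (U0 + 1) + 1) ≤ Cf * (65 * (ε * Q)) :=
    mul_le_mul_of_nonneg_left (by linarith) (by linarith)
  have g3 : ((C₀ : ℝ) + 9 * Cf) * (U0 + 1) ≤ (C₀ + 9 * Cf) * (8 * (ε * Q)) :=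
    mul_le_mul_of_nonneg_left hU (by linarith)
  have g4 : (C : ℝ) * (U0 + V0 + 1) ≤ C * (4 * (ρ * Q)) :=
    mul_le_mul_of_nonneg_left (by linarith) (Nat.cast_nonneg _)
  have g5 : (C : ℝ) * (U0 + 1) ≤ C * (8 * (ρ * Q)) :=
    mul_le_mul_of_nonneg_left (by linarith) (Nat.cast_nonneg _)
  have g6 : (C₁ : ℝ) * (C₀ * (U0 + 1) + (V0 + 1) + 1) ≤ C₁ * (8 * (ρ * Q)) :=
    mul_le_mul_of_nonneg_left (by linarith) (Nat.cast_nonneg _)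
  have g7 : (C₂ : ℝ) * (C₀ * (U0 + 1) + (V0 + 1) + Cf * (8 * (U0 + 1) + 1) + (V0 + 1) + 1) ≤
      C₂ * (10 * (ρ * Q)) :=
    mul_le_mul_of_nonneg_left (by linarith) (Nat.cast_nonneg _)
  have g8 : (1 : ℝ) * (U0 + 1) ≤ C₀ * (U0 + 1) :=
    mul_le_mul_of_nonneg_right hC0' (by positivity)
  have g9 : (1 : ℝ) * (8 * (U0 + 1) + 1) ≤ Cf * (8 * (U0 + 1) + 1) :=
    mul_le_mul_of_nonneg_right hCf0 (by positivity)
  have g10 : (Cg : ℝ) * (ω * Q + 1) ≤ Cg * (2 * (ω * Q)) :=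
    mul_le_mul_of_nonneg_left (by linarith) hCg0
  have g11 : (ne : ℝ) * (Q / n + 1) ≤ ne * (2 * Q) :=
    mul_le_mul_of_nonneg_left (by linarith) hne0
  have hεε : ε * Q ≤ Q / 1000 := by linarith
  have g12 : 0 ≤ (Cf : ℝ) * U0 := mul_nonneg (by linarith) (Nat.cast_nonneg _)
  have g13 : (1 : ℝ) * (U0 + 1) ≤ Cf * (U0 + 1) := mul_le_mul_of_nonneg_right hCf0 (by positivity)
  have g14 : 0 ≤ (C₀ : ℝ) * (U0 + 1) := by positivity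
  have g15 : (0 : ℝ) ≤ EN := Nat.cast_nonneg _
  have hC2 : 0 ≤ (C₂ : ℝ) * (10 * (ρ * Q)) := by positivity
  have hC1 : 0 ≤ (C₁ : ℝ) * (8 * (ρ * Q)) := by positivity
  exact
    { Q0 := hQ0
      u1 := by push_cast; linarith
      U1 := by push_cast; linarith
      s1 := by push_cast; linarith
      s2 := by push_cast; linarith
      v1 := by push_cast; linarith
      v2 := by push_cast; linarith
      y0 := nat_of (by push_cast; linarith)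
      X1 := by
        rw [hE2c]
        push_cast
        linarith
      EX1 := by omega
      s11 := by push_cast; linarith
      sf1 := by push_cast; linarith
      sf2 := by push_cast; linarith
      es := nat_of (by push_cast; linarith)
      ef := nat_of (by push_cast; linarith)
      e1u := by push_cast; linarith
      e1Q := by push_cast; linarith
      e12 := nat_of (by push_cast; linarith)
      e1e := by omega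
      e2y := by linarith
      gr := by
        rw [hE2c]
        push_cast
        linarith
      e2Q := by linarith
      st1 := nat_of (by push_cast; linarith)
      Co := nat_of (by push_cast; linarith)
      CgY := by linarith
      uh := by linarith
      hY := by linarith
      Yκ := by linarith
      κQ := q11 }

end Pool.STA37
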