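import Pool.Agent.H37.STA.Rcx

/-!
# The frame and the far data at a record

`u_frm`: the natural numbers of the frame and of the far balls at one dimension of a record.
-/

set_option autoImplicit false

namespace Pool.STA37

open Finset Real MvPolynomial
open Pool.Agent.H49.Ent Pool.Agent.H32.Dense Pool.STK Pool.KA Pool.KSAT Pool.K2S Pool.PB Pool.S6C
open Pool.GEN Pool.RCD Pool.LA91 Pool.PKG
open Pool.STB (V3 Po Bx VbT lv_lin lv_sta box_in)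

/-- The loss of the nodes. -/
noncomputable abbrev vU (ε q : ℝ) (J : ℕ) : ℕ := ⌊(4 * (ε * q) + 3 * (ε * q)) * J⌋₊ + 1

/-- The step of the balls. -/
noncomputable abbrev vV (ρ q : ℝ) (J : ℕ) : ℕ := ⌊2 * (ρ * q) * J⌋₊ + 1

/-- The first windows. -/
noncomputable abbrev vA (t q ρ : ℝ) (M₁ M₂ J k : ℕ) : ℕ := ⌊uAA t q ρ M₁ M₂ k * J⌋₊

/-- The second windows. -/
noncomputable abbrev vW (t q ρ : ℝ) (M₁ M₂ J k : ℕ) : ℕ := ⌊uWW t q ρ M₁ M₂ k * J⌋₊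

/-- The levels. -/
noncomputable abbrev vG (L : ℕ → ℝ → ℝ → ℝ) (d : ℕ → ℕ → ℝ) (t q ρ : ℝ) (M₁ M₂ J k l : ℕ) : ℕ :=
  ⌊(L l (uAA t q ρ M₁ M₂ k) (uWW t q ρ M₁ M₂ k) - d k l) * J⌋₊

/-- The length of the windows. -/
noncomputable abbrev vK (n : ℕ) (t q : ℝ) (J : ℕ) : ℕ := ⌊t * J⌋₊ - ⌊(t - q / n) * J⌋₊

/-- The exponent of the windows. -/
noncomputable abbrev vE (ne Cg b : ℕ) (E q : ℝ) (J : ℕ) : ℕ :=
  ⌊(E + (2 * ne + 2 * Cg + b + 5) * q) * J⌋₊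

section

variable {m : ℕ} {S : PCl m} {al : ℝ} {g₀ : ℝ → ℝ} {P₀ : List (Fin m) × Fin m → ℝ → ℝ → ℝ}
  {θ : ℝ} {P₂ : ℕ → List (Fin m) × Fin m → ℝ → ℝ → ℝ} {θ₂ Eb e₂ : ℕ → ℝ}
  {c : ℕ → Fin m} {Pt : ℝ → ℝ → ℝ} {r : ℝ → ℝ} {h K₀ g : ℝ} {L T : ℕ → ℝ → ℝ → ℝ}
  {Sl : ℕ → ℝ} {κ : ℕ → Kg} {G : Set ℝ} {S₀ N₀ : ℕ} {A V : ℕ → ℝ} {S₂ N' : ℕ} {V' : ℕ → ℝ}
  {K ε q t : ℝ} {ρ : ℝ} {n R₁ M₁ b ne Cg C₀ C C₁ C₂ Cf : ℕ} {A₀ τ ω ν φ σ kf : ℝ}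
  {d : ℕ → ℕ → ℝ}

/-- The first window of the first near ball. -/
theorem LsU.w0 (H : LsU ρ n R₁ M₁ N₀ A V N' V' K) :
    uAA t q ρ M₁ (M₁ + 2 * n * R₁) (M₁ - R₁ + 0) = t - q / n := by
  have := H.MR
  rw [uAA_ball (by omega), H.near 0]
  push_cast
  ring

/-- The offset of a far ball. -/
theorem LsU.far (H : LsU ρ n R₁ M₁ N₀ A V N' V' K) :
    -((M₁ : ℝ) * ρ) + ((M₁ - R₁ : ℕ) : ℝ) * ρ = -(1 / n) := by
  have h1 := H.near 0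
  have h2 : M₁ - R₁ + 0 = M₁ - R₁ := rfl
  rw [h2] at h1
  rw [h1]
  push_cast
  ring

/-- **The windows and the balls at one dimension of a record.** -/
theorem u_ap (R : RecG S al g₀ P₀ θ P₂ θ₂ Eb e₂ c Pt r h K₀ g L T Sl κ G S₀ N₀ A V S₂ N' V' K ε
    q t) (hm : 2 < m) (hκ1 : κ 1 = .one) (hb : Sl 2 = b) (H : LsU ρ n R₁ M₁ N₀ A V N' V' K)
    (NU : UNu b n R₁ M₁ ne Cg C₀ C C₁ C₂ Cf A₀ τ ω ρ ε ν φ σ kf K)
    (hd : ∀ k < M₁ + 2 * n * R₁ + 2, ∀ l ≤ 2, 0 < d k l ∧ d k l ≤ ε * q ∧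
        d k l < uAA t q ρ M₁ (M₁ + 2 * n * R₁) k) {J : ℕ} (hJ : 1 ≤ ε * q * J)
    (hJ' : ((n : ℝ) + 2) * (b + 1) ≤ ε * q * J) :
    ApW n b (t * J) (q * J) (q / n * J) (ρ * q * J) (ω * q * J) ((4 * (ε * q) + 3 * (ε * q)) * J)
      (vA t q ρ M₁ (M₁ + 2 * n * R₁) J (M₁ - R₁ + 0)) (vK n t q J) ⌊ω * q * J⌋₊ ⌊ω * q * J⌋₊ ∧
    ApN (R₁ + 2 * n * R₁) b (t * J) (ρ * q * J) ((4 * (ε * q) + 3 * (ε * q)) * J) (L 1 t t * J)
      (L 2 t t * J) (-(q / n * J)) (fun k => vA t q ρ M₁ (M₁ + 2 * n * R₁) J (M₁ - R₁ + k))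
      (fun k => vG L d t q ρ M₁ (M₁ + 2 * n * R₁) J (M₁ - R₁ + k)) ∧
    ApN (M₁ - R₁) b (t * J) (ρ * q * J) ((4 * (ε * q) + 3 * (ε * q)) * J) (L 1 t t * J)
      (L 2 t t * J) (-(M₁ * ρ) * q * J) (fun k => vA t q ρ M₁ (M₁ + 2 * n * R₁) J k)
      (fun k => vG L d t q ρ M₁ (M₁ + 2 * n * R₁) J k) := by
  have hq := R.q0
  have hJ0 : (0 : ℝ) ≤ J := Nat.cast_nonneg J
  have hMR := H.MR
  refine ⟨?_, ?_, ?_⟩
  · have h1 := apw_of (b := b) (t := t) (ε := ε) (J := J) H.n0 hq (by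
      have h1 := R.t0
      have h2 := mul_le_mul_of_nonneg_right (show (1 : ℝ) ≤ K by linarith [H.K2]) hq.le
      linarith) NU.ω0 NU.e1 NU.r1 NU.w1 (by linarith)
    show ApW n b _ _ _ _ _ _ ⌊uAA t q ρ M₁ (M₁ + 2 * n * R₁) (M₁ - R₁ + 0) * J⌋₊ _ _ _
    rw [H.w0]
    exact h1
  · have h1 := apn_of R hm hκ1 hb H NU.ε0 (ι := fun k => M₁ - R₁ + k) (N := R₁ + 2 * n * R₁)
      (o := -(1 / n)) (fun k hk => ⟨by omega, H.near k⟩) hd hJ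
    have e : -(1 / (n : ℝ)) * q * J = -(q / n * J) := by ring
    rw [e] at h1
    exact h1
  · exact apn_of R hm hκ1 hb H NU.ε0 (ι := fun k => k) (N := M₁ - R₁)
      (o := -(M₁ * ρ)) (fun k hk => ⟨by omega, rfl⟩) hd hJ

/-- **The frame and the far balls at one dimension of a record.** -/
theorem u_frm (R : RecG S al g₀ P₀ θ P₂ θ₂ Eb e₂ c Pt r h K₀ g L T Sl κ G S₀ N₀ A V S₂ N' V' K ε
    q t) (hm : 2 < m) (hκ1 : κ 1 = .one) (hb : Sl 2 = b) (H : LsU ρ n R₁ M₁ N₀ A V N' V' K)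
    (NU : UNu b n R₁ M₁ ne Cg C₀ C C₁ C₂ Cf A₀ τ ω ρ ε ν φ σ kf K)
    (hd : ∀ k < M₁ + 2 * n * R₁ + 2, ∀ l ≤ 2, 0 < d k l ∧ d k l ≤ ε * q ∧
        d k l < uAA t q ρ M₁ (M₁ + 2 * n * R₁) k) {J : ℕ}
    (hJ1 : 10 + 2 * (ne : ℝ) + Cg ≤ ε * q * J) (hJ2 : ((n : ℝ) + 2) * (b + 1) ≤ ε * q * J)
    (hJ3 : (M₁ : ℝ) ≤ ε * q * J) :
    ⌊ε * q * J⌋₊ ≤ 8 * vU ε q J ∧
    FrL J (M₁ - R₁) (8 * vU ε q J) (vV ρ q J) (vA t q ρ M₁ (M₁ + 2 * n * R₁) J)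
      (vW t q ρ M₁ (M₁ + 2 * n * R₁) J) (vG L d t q ρ M₁ (M₁ + 2 * n * R₁) J) (fun k => k) ∧
    FrS J n (R₁ + 2 * n * R₁) C₁ b (vA t q ρ M₁ (M₁ + 2 * n * R₁) J (M₁ - R₁ + 0)) (vK n t q J)
      ⌊ω * q * J⌋₊ ⌊ω * q * J⌋₊ ((C₀ + 9 * Cf) * vU ε q J + ⌊Eb 2 * J⌋₊)
      (vE ne Cg b (Eb 2) q J - 1) (C₁ * (C₀ * vU ε q J + vV ρ q J + 1)) (C₀ * vU ε q J)
      (vV ρ q J) (C * (⌊(4 * (ε * q) + 3 * (ε * q)) * J⌋₊ + ⌊2 * (ρ * q) * J⌋₊ + 1)) ⌊Eb 2 * J⌋₊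
      (C * vU ε q J + ⌊(Eb 2 + ε * q) * J⌋₊)
      (fun k => vA t q ρ M₁ (M₁ + 2 * n * R₁) J (M₁ - R₁ + k)) (fun _ => ⌊(Eb 2 + ε * q) * J⌋₊)
      (fun k => vG L d t q ρ M₁ (M₁ + 2 * n * R₁) J (M₁ - R₁ + k)) (fun i => R₁ * (i + 1) - 1)
      (fun i => R₁ * (i + 2) - 1) t (ε * q) ∧
    FrF J (M₁ - R₁) C₂ (vA t q ρ M₁ (M₁ + 2 * n * R₁) J (M₁ - R₁ + 0)) (vK n t q J) ⌊ω * q * J⌋₊
      ((C₀ + 9 * Cf) * vU ε q J + ⌊Eb 2 * J⌋₊) (C₀ * vU ε q J) (vV ρ q J)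
      (vA t q ρ M₁ (M₁ + 2 * n * R₁) J 0) (⌊(t + ν * q) * J⌋₊ - ⌊t * J⌋₊)
      (vG L d t q ρ M₁ (M₁ + 2 * n * R₁) J (M₁ - R₁ + 0) 1) (Cf * (8 * vU ε q J + 1)) (vV ρ q J)
      ⌊Eb 2 * J⌋₊ (fun k => vA t q ρ M₁ (M₁ + 2 * n * R₁) J k)
      (fun k => vG L d t q ρ M₁ (M₁ + 2 * n * R₁) J k) t (ε * q) := by
  have hq := R.q0
  have hJ0 : (0 : ℝ) ≤ J := Nat.cast_nonneg J
  have hqJ : 0 ≤ q * J := mul_nonneg hq.le hJ0
  have hne0 : (0 : ℝ) ≤ ne := Nat.cast_nonneg _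
  have hCg0 : (0 : ℝ) ≤ Cg := Nat.cast_nonneg _
  have hεJ : 10 ≤ ε * q * J := by linarith
  have RT := R.tg 2 (by norm_num) hm
  obtain ⟨AW, AN, AF⟩ := u_ap R hm hκ1 hb H NU hd (by linarith) hJ2
  have NJ := unj_of NU hq RT.Eb0 hJ1
  have hb0 : (3 : ℝ) ≤ b := by exact_mod_cast NU.hb
  have hMR := H.MR
  have κ' := NU.κ'
  have hκQ := NJ.κQ
  have n1 := NU.n1
  have m1 := NU.m1
  have m2 := NU.m2
  have k1 := NU.k1
  -- the room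
  have hroom : ∀ l ≤ 2, L l t t * J + Eb 2 * J + 3 * (K * (q * J)) ≤ J := fun l hl => by
    have h1 := RT.room l hl t (by rw [sub_self, abs_zero]; have := H.K2; positivity)
    have h2 := mul_le_mul_of_nonneg_right h1.le hJ0
    linarith
  have hT1 : t * J + K * (q * J) ≤ J := by
    have h2 := mul_le_mul_of_nonneg_right R.t1.le hJ0
    linarith
  have hT0 : K * (q * J) ≤ t * J := by
    have h2 := mul_le_mul_of_nonneg_right (show K * q ≤ t by linarith [R.t0]) hJ0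
    linarith
  have hlow : t ≤ L 1 t t := R.low_at (by omega) (by
    have := R.t0; have := mul_nonneg (show 0 ≤ K by linarith [H.K2]) hq.le; linarith) le_rfl (by
    have := R.t1; have := mul_nonneg (show 0 ≤ K by linarith [H.K2]) hq.le; linarith)
  have hΛ : t * J ≤ L 1 t t * J := mul_le_mul_of_nonneg_right hlow hJ0
  have hKQ : ∀ x : ℝ, x ≤ K → x * (q * J) ≤ K * (q * J) := fun x hx =>
    mul_le_mul_of_nonneg_right hx hqJ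
  have K1 := hKQ (2 * ne + 2 * Cg + b + 10) k1
  have K2 := hKQ (ν + 2) (by linarith)
  have hneQ : 0 ≤ (ne : ℝ) * (q * J) := by positivity
  have hCgQ : 0 ≤ (Cg : ℝ) * (q * J) := by positivity
  have hbQ : 3 * (q * J) ≤ b * (q * J) := mul_le_mul_of_nonneg_right hb0 hqJ
  have hνQ : (b + 4) * (q * J) ≤ ν * (q * J) := mul_le_mul_of_nonneg_right n1 hqJ
  have hMρ : ((M₁ : ℝ) * ρ) * (q * J) ≤ K * (q * J) := hKQ _ (by linarith)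
  have hroom1 := hroom 1 (by norm_num)
  have huQ : (4 * (ε * q) + 3 * (ε * q)) * J ≤ q * J := by
    have h1 := NJ.uh
    have h2 := NJ.hY
    have h3 := NJ.Yκ
    have h4 := NJ.κQ
    linarith
  have hu1 : 7 ≤ (4 * (ε * q) + 3 * (ε * q)) * (J : ℝ) := by linarith
  have hh1 : 1 ≤ ρ * q * (J : ℝ) := by
    have h1 := NJ.uh
    linarith
  have hl2 : ε * q * J ≤ (4 * (ε * q) + 3 * (ε * q)) * J * Real.log 2 := by
    have h1 : (1 / 2 : ℝ) ≤ Real.log 2 := by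
      have := Real.log_two_gt_d9
      linarith
    have h2 := mul_le_mul_of_nonneg_left h1 (show 0 ≤ (4 * (ε * q) + 3 * (ε * q)) * (J : ℝ) by
      linarith)
    linarith
  have hρQ : ρ * q * J ≤ ω * q * J := by
    have := NJ.hY
    linarith
  refine ⟨?_, ?_, ?_, ?_⟩
  · have h1 := Nat.floor_mono (show ε * q * J ≤ (4 * (ε * q) + 3 * (ε * q)) * (J : ℝ) by linarith)
    show ⌊ε * q * J⌋₊ ≤ 8 * (⌊(4 * (ε * q) + 3 * (ε * q)) * (J : ℝ)⌋₊ + 1)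
    omega
  · refine frl_of (b := b) (ι := fun k => k) AF (fun k hk => ?_) (by linarith)
      (by have := NJ.uh; linarith) NJ.s11 (by
        have := NJ.v1
        linarith) ?_ (by linarith)
    · show ⌊uWW t q ρ M₁ (M₁ + 2 * n * R₁) k * J⌋₊ = ⌊uAA t q ρ M₁ (M₁ + 2 * n * R₁) k * J⌋₊
      rw [uWW_ball (by omega), uAA_ball (by omega)]
    · have e1 := H.far
      have e2 : -(M₁ * ρ) * q * J + ((M₁ - R₁ : ℕ) : ℝ) * (ρ * q * J) =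
          (-((M₁ : ℝ) * ρ) + ((M₁ - R₁ : ℕ) : ℝ) * ρ) * (q * J) := by ring
      rw [e2, e1]
      have h1 : 0 ≤ 1 / (n : ℝ) * (q * J) := by positivity
      have h2 : 0 ≤ K * (q * J) := by
        have := H.K2
        positivity
      linarith
  · refine frs_of AW AN rfl ?_ H.R0 ?_ le_rfl NJ.es NJ.s1 ?_ NJ.v1 NJ.EX1 hl2 ?_ ?_ NJ.y0 NJ.X1
      H.n0 (by have := NU.hb; omega)
    · have h2 := H.ρn
      have hn : (0 : ℝ) < n := by exact_mod_cast H.n0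
      have h1 : (R₁ : ℝ) * ρ = 1 / n := by
        field_simp
        linarith
      calc q / n * J = 1 / n * (q * J) := by ring
        _ = R₁ * (ρ * q * J) := by rw [← h1]; ring
    · have h1 : R₁ * (n + 1) = R₁ + n * R₁ := by ring
      have h2 : 2 * n * R₁ = n * R₁ + n * R₁ := by ring
      omega
    · have := NJ.s2
      linarith
    · have := NJ.e1Q
      linarith
    · linarith
  · have e1 := H.far
    have h8 := AN.g11 0 (Nat.zero_le _)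
    push_cast at h8
    have hkf : ((⌊(t + ν * q) * J⌋₊ - ⌊t * J⌋₊ : ℕ) : ℝ) ≤ ν * (q * J) + 1 := by
      have hνq : 0 ≤ ν * q := mul_nonneg (by linarith) hq.le
      have ht0 : 0 ≤ t := by
        have := R.t0
        have := mul_nonneg (show 0 ≤ K by linarith [H.K2]) hq.le
        linarith
      have h1 : ⌊t * J⌋₊ ≤ ⌊(t + ν * q) * J⌋₊ :=
        Nat.floor_mono (mul_le_mul_of_nonneg_right (by linarith) hJ0)
      rw [Nat.cast_sub h1]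
      have h2 := Nat.floor_le (show 0 ≤ (t + ν * q) * J by positivity)
      have h3 := (Nat.lt_floor_add_one (t * J)).le
      linarith
    refine frf_of AW AF ?_ ?_ hh1 le_rfl NJ.ef ?_ NJ.sf1 ?_ NJ.Co ?_ hl2 hkf ?_ ?_ ?_
    · rfl
    · have e2 : -(M₁ * ρ) * q * J + ((M₁ - R₁ : ℕ) : ℝ) * (ρ * q * J) =
          (-((M₁ : ℝ) * ρ) + ((M₁ - R₁ : ℕ) : ℝ) * ρ) * (q * J) := by ring
      rw [e2, e1]
      ring
    · have h1 := NJ.sf1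
      have h2 : ((M₁ - R₁ : ℕ) : ℝ) ≤ M₁ := by exact_mod_cast Nat.sub_le _ _
      refine nat_of ?_
      linarith
    · linarith
    · have h1 := NJ.sf2
      have h2 := NJ.hY
      have h3 := NJ.uh
      have h4 := AW.y2
      linarith
    · have := NJ.e1Q
      linarith
    · linarith
    · linarith

end

end Pool.STA37
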