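import Pool.Agent.H37.STA.Rcy

/-!
# The numbers of the event at a record

`UWd`: the data of the windows; `u_suv`, `u_sug`.
-/

set_option autoImplicit false

namespace Pool.STA37

open Finset Real MvPolynomial
open Pool.Agent.H49.Ent Pool.Agent.H32.Dense Pool.STK Pool.KA Pool.KSAT Pool.K2S Pool.PB Pool.S6C
open Pool.GEN Pool.CHT Pool.RCD Pool.D2F Pool.CHX Pool.D2Con Pool.D2A Pool.NVX
open Pool.LA91 Pool.PKG
open Pool.STB (V3 Po Bx VbT lv_lin lv_sta box_in)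

/-- **The data of the windows.** -/
structure UWd {m : ℕ} (L : ℕ → ℝ → ℝ → ℝ) (P : List (Fin m) × Fin m → ℝ → ℝ → ℝ)
    (c : ℕ → Fin m) (n M₁ : ℕ) (t q ρ ε ν : ℝ) (wi ai : ℕ → ℚ) (bb : ℝ) (Pq : Fin 2 → ℝ)
    (e1 eF hF : ℝ) : Prop where
  w1 : ∀ i < n, t + ((i : ℝ) / n + ρ) * q ≤ wi i
  w2 : ∀ i < n, bet P c 2 (wi i) (wi i) ≤
    L 2 (t + ((i : ℝ) / n + ρ) * q) (t + ((i : ℝ) / n + ρ) * q) + ε * q
  a1 : ∀ i < n, t + (((i : ℝ) + 1) / n + ρ) * q ≤ ai i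
  a2 : ∀ i < n, ∀ l < 2, bet P c l (ai i) (ai i) ≤
    L l (t + (((i : ℝ) + 1) / n + ρ) * q) (t + (((i : ℝ) + 1) / n + ρ) * q) + ε * q
  b1 : t + -(M₁ * ρ) * q ≤ bb
  b2 : bb ≤ t + -(M₁ * ρ) * q + ρ * q
  P0 : (ν + ε) * q ≤ Pq 0
  P1 : ν * q + L 1 t t - t + 21 * (ε * q) ≤ Pq 1
  e1 : 0 < e1
  eF : 0 < eF
  hF : q / 2 ≤ hF

section

variable {m : ℕ} {S : PCl m} {al : ℝ} {g₀ : ℝ → ℝ} {P₀ : List (Fin m) × Fin m → ℝ → ℝ → ℝ}
  {θ : ℝ} {P₂ : ℕ → List (Fin m) × Fin m → ℝ → ℝ → ℝ} {θ₂ Eb e₂ : ℕ → ℝ}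
  {c : ℕ → Fin m} {Pt : ℝ → ℝ → ℝ} {r : ℝ → ℝ} {h K₀ g : ℝ} {L T : ℕ → ℝ → ℝ → ℝ}
  {Sl : ℕ → ℝ} {κ : ℕ → Kg} {G : Set ℝ} {S₀ N₀ : ℕ} {A V : ℕ → ℝ} {S₂ N' : ℕ} {V' : ℕ → ℝ}
  {K ε q t : ℝ} {ρ : ℝ} {n R₁ M₁ b ne Cg C₀ C C₁ C₂ Cf : ℕ} {A₀ τ ω ν φ σ kf : ℝ}
  {d : ℕ → ℕ → ℝ} {wi ai : ℕ → ℚ} {bb : ℝ} {Pq : Fin 2 → ℝ} {e1 eF hF : ℝ} {J : ℕ} {F : Fam m J}
  {Gn : ℕ → PtT F → ℕ → MvPolynomial (Option (Fin m)) ℝ}
  {Hn : ℕ → LnT F → ℕ → MvPolynomial (Option (Fin m)) ℝ}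
  {pP pPf : PtT F → ℕ → MvPolynomial (Option (Fin m)) ℝ}
  {pH pHf : LnT F → ℕ → MvPolynomial (Option (Fin m)) ℝ}
  {f : ℕ → PtT F → Po} {f' : ℕ → LnT F → Po} {kp : LnT F → Po} {xP : PtT F → ℝ} {xH : LnT F → ℝ}

/-- Levels at a window. -/
theorem lv_up (R : RecG S al g₀ P₀ θ P₂ θ₂ Eb e₂ c Pt r h K₀ g L T Sl κ G S₀ N₀ A V S₂ N' V' K ε
    q t) {l : ℕ} (hl : l < m) {o : ℝ} (h1 : -K ≤ o) (h2 : o ≤ K) (J : ℕ) :
    L l (t + o * q) (t + o * q) * J ≤ L l t t * J + Sl l * (o * (q * J)) + ε * q * J ∧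
      L l t t * J + Sl l * (o * (q * J)) - ε * q * J ≤ L l (t + o * q) (t + o * q) * J := by
  have hJ0 : (0 : ℝ) ≤ J := Nat.cast_nonneg J
  have h3 := abs_le.1 (R.dL l hl _ (box_in R h1 h2).1)
  have h4 := mul_le_mul_of_nonneg_right h3.1 hJ0
  have h5 := mul_le_mul_of_nonneg_right h3.2 hJ0
  have e : (L l (t + o * q) (t + o * q) - L l t t - Sl l * (t + o * q - t)) * J =
      L l (t + o * q) (t + o * q) * J - L l t t * J - Sl l * (o * (q * J)) := by ring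
  rw [e] at h4 h5
  constructor <;> linarith

/-- **The numbers of the target and of the windows at a record.** -/
theorem u_suv (R : RecG S al g₀ P₀ θ P₂ θ₂ Eb e₂ c Pt r h K₀ g L T Sl κ G S₀ N₀ A V S₂ N' V' K ε
    q t) (hm : 2 < m) (hκ1 : κ 1 = .one) (hb : Sl 2 = b) (H : LsU ρ n R₁ M₁ N₀ A V N' V' K)
    (NU : UNu b n R₁ M₁ ne Cg C₀ C C₁ C₂ Cf A₀ τ ω ρ ε ν φ σ kf K)
    (hd : ∀ k < M₁ + 2 * n * R₁ + 2, ∀ l ≤ 2, 0 < d k l ∧ d k l ≤ ε * q ∧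
        d k l < uAA t q ρ M₁ (M₁ + 2 * n * R₁) k)
    (hJ1 : 10 + 2 * (ne : ℝ) + Cg ≤ ε * q * J) (hJ2 : ((n : ℝ) + 2) * (b + 1) ≤ ε * q * J)
    (W : UWd L P₀ c n M₁ t q ρ ε ν wi ai bb Pq e1 eF hF) :
    SuV P₀ c n b Cg ne A₀ τ (q / n) (ω * q) (ε * q) (Eb 2 + (2 * ne + 2 * Cg + b + 5) * q)
      (Eb 2 + (2 * ne + 2 * Cg + b + 5) * q) wi ai (fun i => t + (((i : ℝ) + 1) / n + ρ) * q)
      (fun i l => L l (t + (((i : ℝ) + 1) / n + ρ) * q) (t + (((i : ℝ) + 1) / n + ρ) * q))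
      (sut F c (vA t q ρ M₁ (M₁ + 2 * n * R₁) J (M₁ - R₁ + 0)) (vK n t q J) ⌊ω * q * J⌋₊
        ⌊ω * q * J⌋₊ ((C₀ + 9 * Cf) * vU ε q J + ⌊Eb 2 * J⌋₊) (vE ne Cg b (Eb 2) q J - 1)
        (vE ne Cg b (Eb 2) q J) (C₁ * (C₀ * vU ε q J + vV ρ q J + 1))
        (fun k => vA t q ρ M₁ (M₁ + 2 * n * R₁) J (M₁ - R₁ + k))
        (fun k => vG L d t q ρ M₁ (M₁ + 2 * n * R₁) J (M₁ - R₁ + k)) (fun i => R₁ * (i + 1) - 1)
        (fun i => R₁ * (i + 2) - 1) Gn Hn pP pH f f' kp) := by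
  have hq := R.q0
  have hJ0 : (0 : ℝ) ≤ J := Nat.cast_nonneg J
  have hqJ : 0 ≤ q * J := mul_nonneg hq.le hJ0
  have hne0 : (0 : ℝ) ≤ ne := Nat.cast_nonneg _
  have hCg0 : (0 : ℝ) ≤ Cg := Nat.cast_nonneg _
  have hεJ : 10 ≤ ε * q * J := by linarith
  have RT := R.tg 2 (by norm_num) hm
  obtain ⟨AW, AN, -⟩ := u_ap R hm hκ1 hb H NU hd (by linarith) hJ2
  have NJ := unj_of NU hq RT.Eb0 hJ1
  have hb0 : (3 : ℝ) ≤ b := by exact_mod_cast NU.hb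
  have hMR := H.MR
  have n1 := NU.n1
  have m1 := NU.m1
  have m2 := NU.m2
  have k1 := NU.k1
  have hn : (0 : ℝ) < n := by exact_mod_cast H.n0
  have s0 := R.s0
  have s1 : Sl 1 = 1 := by
    have h1 := R.kd 1 (by omega)
    rw [hκ1] at h1
    exact h1
  have hρ1 : ρ ≤ 1 := by
    have h1 := H.ρn
    have h2 : (1 : ℝ) ≤ n * R₁ := by
      have : 1 ≤ n * R₁ := Nat.mul_pos H.n0 H.R0
      exact_mod_cast this
    have h3 := mul_le_mul_of_nonneg_right h2 H.ρ0.le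
    linarith
  -- the room
  have hroom : ∀ l ≤ 2, L l t t * J + Eb 2 * J + 3 * (K * (q * J)) ≤ J := fun l hl => by
    have h1 := RT.room l hl t (by rw [sub_self, abs_zero]; have := H.K2; positivity)
    have h2 := mul_le_mul_of_nonneg_right h1.le hJ0
    linarith
  have hT1 : t * J + K * (q * J) ≤ J := by
    have h2 := mul_le_mul_of_nonneg_right R.t1.le hJ0
    linarith
  have ht0 : 0 ≤ t := by
    have := R.t0
    have := mul_nonneg (show 0 ≤ K by linarith [H.K2]) hq.le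
    linarith
  have hlow : t ≤ L 1 t t := R.low_at (by omega) ht0 le_rfl (by
    have := R.t1; have := mul_nonneg (show 0 ≤ K by linarith [H.K2]) hq.le; linarith)
  have hΛ : t * J ≤ L 1 t t * J := mul_le_mul_of_nonneg_right hlow hJ0
  have hKQ : ∀ x : ℝ, x ≤ K → x * (q * J) ≤ K * (q * J) := fun x hx =>
    mul_le_mul_of_nonneg_right hx hqJ
  have K1 := hKQ (2 * ne + 2 * Cg + b + 10) k1
  have hneQ : 0 ≤ (ne : ℝ) * (q * J) := by positivity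
  have hCgQ : 0 ≤ (Cg : ℝ) * (q * J) := by positivity
  have hbQ : 3 * (q * J) ≤ b * (q * J) := mul_le_mul_of_nonneg_right hb0 hqJ
  have huh := NJ.uh
  have hhY := NJ.hY
  have hEbJ : 0 ≤ Eb 2 * J := mul_nonneg RT.Eb0.le hJ0
  have hu : (4 * (ε * q) + 3 * (ε * q)) * (J : ℝ) = 7 * (ε * q * J) := by ring
  -- the offsets
  have ho : ∀ i < n, -K ≤ (i : ℝ) / n + ρ ∧ (i : ℝ) / n + ρ ≤ K ∧
      -K ≤ ((i : ℝ) + 1) / n + ρ ∧ ((i : ℝ) + 1) / n + ρ ≤ K := fun i hi => by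
    have h1 : ((i : ℝ) + 1) / n ≤ 1 := by
      rw [div_le_one hn]
      exact_mod_cast hi
    have h2 : (0 : ℝ) ≤ i / n := by positivity
    have h3 : (i : ℝ) / n ≤ (i + 1) / n := div_le_div_of_nonneg_right (by linarith) hn.le
    have := H.ρ0
    have := H.K2
    refine ⟨by linarith, by linarith, by linarith, by linarith⟩
  have ei : ∀ i : ℕ, ((i : ℝ) / n + ρ) * (q * J) = i * (q / n * J) + ρ * q * J := fun i => by
    ring
  have ei' : ∀ i : ℕ, (((i : ℝ) + 1) / n + ρ) * (q * J) = (i + 1) * (q / n * J) + ρ * q * J :=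
    fun i => by ring
  have lv2 : ∀ i < n, ∀ l < 2, L l (t + (((i : ℝ) + 1) / n + ρ) * q)
      (t + (((i : ℝ) + 1) / n + ρ) * q) * J ≤
      L l t t * J + ((i + 1) * (q / n * J) + ρ * q * J) + ε * q * J := fun i hi l hl => by
    have h1 := (lv_up R (l := l) (by omega) (ho i hi).2.2.1 (ho i hi).2.2.2 J).1
    rw [ei' i] at h1
    have h2 : Sl l = 1 := by
      have : l = 0 ∨ l = 1 := by omega
      rcases this with rfl | rfl
      · exact s0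
      · exact s1
    rw [h2] at h1
    linarith
  have h00 : L 0 t t * J ≤ t * J + ε * q * J := by
    have h1 := abs_le.1 (R.l0 t (by rw [sub_self, abs_zero]; have := H.K2; positivity))
    have h2 := mul_le_mul_of_nonneg_right h1.2 hJ0
    linarith
  refine suv_of AW AN rfl ?_ H.R0 ?_ H.n0 rfl (by linarith) rfl ?_ NU.A0 NU.τ0 ?_ ?_ ?_ ?_ ?_ ?_
    ?_ ?_ (by linarith) NJ.e1u NJ.e12 NJ.e2y le_rfl ?_ ?_ ?_ ?_ NJ.st1 NJ.gr
  · have h2 := H.ρn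
    have h1 : (R₁ : ℝ) * ρ = 1 / n := by
      field_simp
      linarith
    calc q / n * J = 1 / n * (q * J) := by ring
      _ = R₁ * (ρ * q * J) := by rw [← h1]; ring
  · have h1 : R₁ * (n + 1) = R₁ + n * R₁ := by ring
    have h2 : 2 * n * R₁ = n * R₁ + n * R₁ := by ring
    omega
  · have h1 : 6 * A₀ * ω * n * (q / n * J) ≤ τ * (q / n * J) :=
      mul_le_mul_of_nonneg_right NU.w2 (by positivity)
    have h2 : 6 * A₀ * ω * n * (q / n * J) = 6 * (A₀ * (ω * q * J)) := by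
      field_simp
    have h3 : A₀ * 1 ≤ A₀ * (ω * q * J) := mul_le_mul_of_nonneg_left (by linarith) NU.A0
    have h4 : τ * 1 ≤ τ * (q / n * J / 2) := mul_le_mul_of_nonneg_left (by
      have := NJ.Yκ
      linarith) NU.τ0
    linarith
  · intro i hi
    have h1 := mul_le_mul_of_nonneg_right (W.w1 i hi) hJ0
    have h2 := ei i
    linarith
  · intro i hi
    have h1 := mul_le_mul_of_nonneg_right (W.w2 i hi) hJ0
    have h2 := (lv_up R (l := 2) hm (ho i hi).1 (ho i hi).2.1 J).1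
    rw [ei i, hb] at h2
    linarith
  · intro i hi
    have h1 := mul_le_mul_of_nonneg_right (W.a1 i hi) hJ0
    have h2 := ei' i
    linarith
  · intro i hi
    have h1 := mul_le_mul_of_nonneg_right (W.a2 i hi 0 (by norm_num)) hJ0
    have h2 := lv2 i hi 0 (by norm_num)
    linarith
  · intro i hi
    have h1 := mul_le_mul_of_nonneg_right (W.a2 i hi 1 (by norm_num)) hJ0
    have h2 := lv2 i hi 1 (by norm_num)
    linarith
  · intro i hi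
    have h2 := ei' i
    show t * J + (i + 1) * (q / n * J) + 2 * ((4 * (ε * q) + 3 * (ε * q)) * J) ≤
      (t + (((i : ℝ) + 1) / n + ρ) * q) * J
    linarith
  · intro i hi
    have h2 := lv2 i hi 0 (by norm_num)
    show L 0 (t + (((i : ℝ) + 1) / n + ρ) * q) (t + (((i : ℝ) + 1) / n + ρ) * q) * J ≤ _
    linarith
  · intro i hi
    have h2 := lv2 i hi 1 (by norm_num)
    show L 1 (t + (((i : ℝ) + 1) / n + ρ) * q) (t + (((i : ℝ) + 1) / n + ρ) * q) * J ≤ _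
    linarith
  · rw [NJ.e1e]
  · have h1 := NJ.e2Q
    have h2 := hroom 1 (by norm_num)
    have h3 : (2 * ne + 2 * Cg + b + 5 : ℝ) * (q * J) = 2 * (ne * (q * J)) + 2 * (Cg * (q * J)) +
      b * (q * J) + 5 * (q * J) := by ring
    have h4 : (2 * ne + 2 * Cg + b + 10 : ℝ) * (q * J) = 2 * (ne * (q * J)) + 2 * (Cg * (q * J)) +
      b * (q * J) + 10 * (q * J) := by ring
    linarith
  · have h4 : (2 * ne + 2 * Cg + b + 10 : ℝ) * (q * J) = 2 * (ne * (q * J)) + 2 * (Cg * (q * J)) +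
      b * (q * J) + 10 * (q * J) := by ring
    linarith
  · have h2 := hroom 2 le_rfl
    have h4 : (2 * ne + 2 * Cg + b + 10 : ℝ) * (q * J) = 2 * (ne * (q * J)) + 2 * (Cg * (q * J)) +
      b * (q * J) + 10 * (q * J) := by ring
    linarith

end

end Pool.STA37
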