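import Pool.Agent.H37.STA.Rcz

/-!
# The numbers of the far data at a record

`u_sug`.
-/

set_option autoImplicit false

namespace Pool.STA37

open Finset Real MvPolynomial
open Pool.Agent.H49.Ent Pool.Agent.H32.Dense Pool.STK Pool.KA Pool.KSAT Pool.K2S Pool.PB Pool.S6C
open Pool.GEN Pool.CHT Pool.RCD Pool.D2F Pool.CHX Pool.D2Con Pool.D2A Pool.NVX
open Pool.LA91 Pool.PKG
open Pool.STB (V3 Po Bx VbT lv_lin lv_sta box_in)

section

variable {m : ℕ} {S : PCl m} {al : ℝ} {g₀ : ℝ → ℝ} {P₀ : List (Fin m) × Fin m → ℝ → ℝ → ℝ}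
  {θ : ℝ} {P₂ : ℕ → List (Fin m) × Fin m → ℝ → ℝ → ℝ} {θ₂ Eb e₂ : ℕ → ℝ}
  {c : ℕ → Fin m} {Pt : ℝ → ℝ → ℝ} {r : ℝ → ℝ} {h K₀ g : ℝ} {L T : ℕ → ℝ → ℝ → ℝ}
  {Sl : ℕ → ℝ} {κ : ℕ → Kg} {G : Set ℝ} {S₀ N₀ : ℕ} {A V : ℕ → ℝ} {S₂ N' : ℕ} {V' : ℕ → ℝ}
  {K ε q t : ℝ} {ρ : ℝ} {n R₁ M₁ b ne Cg C₀ C C₁ C₂ Cf : ℕ} {A₀ τ ω ν φ σ kf : ℝ}
  {d : ℕ → ℕ → ℝ} {wi ai : ℕ → ℚ} {bb : ℝ} {Pq : Fin 2 → ℝ} {e1 eF hF : ℝ} {J : ℕ} {F : Fam m J}
  {Gn : ℕ → PtT F → ℕ → MvPolynomial (Option (Fin m)) ℝ}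
  {Hn : ℕ → LnT F → ℕ → MvPolynomial (Option (Fin m)) ℝ}
  {pP pPf : PtT F → ℕ → MvPolynomial (Option (Fin m)) ℝ}
  {pH pHf : LnT F → ℕ → MvPolynomial (Option (Fin m)) ℝ}
  {f : ℕ → PtT F → Po} {f' : ℕ → LnT F → Po} {kp : LnT F → Po} {xP : PtT F → ℝ} {xH : LnT F → ℝ}

/-- **The numbers of the far data and of the labels at a record.** -/
theorem u_sug (R : RecG S al g₀ P₀ θ P₂ θ₂ Eb e₂ c Pt r h K₀ g L T Sl κ G S₀ N₀ A V S₂ N' V' K ε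
    q t) (hm : 2 < m) (hκ1 : κ 1 = .one) (hb : Sl 2 = b) (H : LsU ρ n R₁ M₁ N₀ A V N' V' K)
    (NU : UNu b n R₁ M₁ ne Cg C₀ C C₁ C₂ Cf A₀ τ ω ρ ε ν φ σ kf K) (hkf : 0 ≤ kf)
    (hd : ∀ k < M₁ + 2 * n * R₁ + 2, ∀ l ≤ 2, 0 < d k l ∧ d k l ≤ ε * q ∧
        d k l < uAA t q ρ M₁ (M₁ + 2 * n * R₁) k)
    (hJ1 : 10 + 2 * (ne : ℝ) + Cg ≤ ε * q * J) (hJ2 : ((n : ℝ) + 2) * (b + 1) ≤ ε * q * J)
    (W : UWd L P₀ c n M₁ t q ρ ε ν wi ai bb Pq e1 eF hF) :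
    SuG n b Cg t (t + ν * q) bb e1 eF (fun l => L l t t - φ * q) (L 2 t t - φ * q)
      (fun l j => L l t t + kf * q - (j : ℕ) * t) (L 2 t t + (b - 1) * q - t) Pq
      (fun i x => L i x x - σ / 20 * hF) (fun l => L l (t + ν * q) (t + ν * q))
      (sut F c (vA t q ρ M₁ (M₁ + 2 * n * R₁) J (M₁ - R₁ + 0)) (vK n t q J) ⌊ω * q * J⌋₊
        ⌊ω * q * J⌋₊ ((C₀ + 9 * Cf) * vU ε q J + ⌊Eb 2 * J⌋₊) (vE ne Cg b (Eb 2) q J - 1)
        (vE ne Cg b (Eb 2) q J) (C₁ * (C₀ * vU ε q J + vV ρ q J + 1))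
        (fun k => vA t q ρ M₁ (M₁ + 2 * n * R₁) J (M₁ - R₁ + k))
        (fun k => vG L d t q ρ M₁ (M₁ + 2 * n * R₁) J (M₁ - R₁ + k)) (fun i => R₁ * (i + 1) - 1)
        (fun i => R₁ * (i + 2) - 1) Gn Hn pP pH f f' kp)
      (fat F c (vA t q ρ M₁ (M₁ + 2 * n * R₁) J (M₁ - R₁ + 0)) (vK n t q J)
        (vA t q ρ M₁ (M₁ + 2 * n * R₁) J 0) (⌊(t + ν * q) * J⌋₊ - ⌊t * J⌋₊)
        (fun k => vG L d t q ρ M₁ (M₁ + 2 * n * R₁) J k) pPf pHf xP xH)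
      (2 ^ vG L d t q ρ M₁ (M₁ + 2 * n * R₁) J (M₁ - R₁ + 0) 1 *
        2 ^ vA t q ρ M₁ (M₁ + 2 * n * R₁) J 0 /
        (2 ^ vA t q ρ M₁ (M₁ + 2 * n * R₁) J (M₁ - R₁ + 0) *
          2 ^ vG L d t q ρ M₁ (M₁ + 2 * n * R₁) J 0 1)) := by
  have hq := R.q0
  have hJ0 : (0 : ℝ) ≤ J := Nat.cast_nonneg J
  have hqJ : 0 ≤ q * J := mul_nonneg hq.le hJ0
  have hne0 : (0 : ℝ) ≤ ne := Nat.cast_nonneg _
  have hCg0 : (0 : ℝ) ≤ Cg := Nat.cast_nonneg _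
  have hεJ : 10 ≤ ε * q * J := by linarith
  have RT := R.tg 2 (by norm_num) hm
  obtain ⟨AW, AN, AF⟩ := u_ap R hm hκ1 hb H NU hd (by linarith) hJ2
  have NJ := unj_of NU hq RT.Eb0 hJ1
  have hb0 : (3 : ℝ) ≤ b := by exact_mod_cast NU.hb
  have hMR := H.MR
  have n1 := NU.n1
  have m1 := NU.m1
  have m2 := NU.m2
  have k1 := NU.k1
  have hn : (0 : ℝ) < n := by exact_mod_cast H.n0
  have s0 := R.s0
  have s1 : Sl 1 = 1 := by
    have h1 := R.kd 1 (by omega)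
    rw [hκ1] at h1
    exact h1
  -- the room
  have hroom : ∀ l ≤ 2, L l t t * J + Eb 2 * J + 3 * (K * (q * J)) ≤ J := fun l hl => by
    have h1 := RT.room l hl t (by rw [sub_self, abs_zero]; have := H.K2; positivity)
    have h2 := mul_le_mul_of_nonneg_right h1.le hJ0
    linarith
  have hT1 : t * J + K * (q * J) ≤ J := by
    have h2 := mul_le_mul_of_nonneg_right R.t1.le hJ0
    linarith
  have hT0 : K * (q * J) ≤ t * J := by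
    have h2 := mul_le_mul_of_nonneg_right (show K * q ≤ t by linarith [R.t0]) hJ0
    linarith
  have hKq : 0 ≤ K * q := mul_nonneg (by linarith [H.K2]) hq.le
  have ht0 : 0 ≤ t := by
    have := R.t0
    linarith
  have ht1 : t ≤ 1 := by
    have := R.t1
    linarith
  have hlow : t ≤ L 1 t t := R.low_at (by omega) ht0 le_rfl ht1
  have hlow2 : t ≤ L 2 t t := R.low_at (by omega) ht0 le_rfl ht1
  have hΛ : t * J ≤ L 1 t t * J := mul_le_mul_of_nonneg_right hlow hJ0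
  have hΛ2 : t * J ≤ L 2 t t * J := mul_le_mul_of_nonneg_right hlow2 hJ0
  have hKQ : ∀ x : ℝ, x ≤ K → x * (q * J) ≤ K * (q * J) := fun x hx =>
    mul_le_mul_of_nonneg_right hx hqJ
  have K1 := hKQ (2 * ne + 2 * Cg + b + 10) k1
  have K2 := hKQ (ν + 2) (by linarith)
  have hneQ : 0 ≤ (ne : ℝ) * (q * J) := by positivity
  have hCgQ : 0 ≤ (Cg : ℝ) * (q * J) := by positivity
  have hbQ : 3 * (q * J) ≤ b * (q * J) := mul_le_mul_of_nonneg_right hb0 hqJ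
  have hνQ : (b + 4) * (q * J) ≤ ν * (q * J) := mul_le_mul_of_nonneg_right n1 hqJ
  have hkν : (kf + 1) * (q * J) ≤ ν * (q * J) := mul_le_mul_of_nonneg_right NU.n2 hqJ
  have huh := NJ.uh
  have hhY := NJ.hY
  have hYκ := NJ.Yκ
  have hκQ := NJ.κQ
  have hEbJ : 0 ≤ Eb 2 * J := mul_nonneg RT.Eb0.le hJ0
  have hu : (4 * (ε * q) + 3 * (ε * q)) * (J : ℝ) = 7 * (ε * q * J) := by ring
  have hCgY := NJ.CgY
  have he1Q := NJ.e1Q
  have hMρ : (ν + 1) * (q * J) ≤ ((M₁ : ℝ) * ρ) * (q * J) := mul_le_mul_of_nonneg_right m1 hqJ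
  have hMρ' : ((M₁ : ℝ) * ρ + 1) * (q * J) ≤ K * (q * J) := hKQ _ m2
  have hroom1 := hroom 1 (by norm_num)
  have h00 : L 0 t t * J ≤ t * J + ε * q * J := by
    have h1 := abs_le.1 (R.l0 t (by rw [sub_self, abs_zero]; exact hKq))
    have h2 := mul_le_mul_of_nonneg_right h1.2 hJ0
    linarith
  -- the exponents
  have hφ : (2 * Cg + 6) * (ω * q * J) ≤ φ * (q * J) := by
    have := mul_le_mul_of_nonneg_right NU.p1 hqJ
    linarith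
  have hCgω : 0 ≤ (Cg : ℝ) * (ω * q * J) := mul_nonneg hCg0 (by linarith)
  have hσ : 4 * (ω * q * J) ≤ σ / 40 * (q * J) := by
    have := mul_le_mul_of_nonneg_right NU.s1 hqJ
    linarith
  have hσF : σ / 40 * (q * J) ≤ σ / 20 * hF * J := by
    have h1 : 0 ≤ σ / 20 := by
      have := NU.s1
      have := NU.ω0
      linarith
    have h2 := mul_le_mul_of_nonneg_right (mul_le_mul_of_nonneg_left W.hF h1) hJ0
    linarith
  have he1J : 0 ≤ e1 * J := mul_nonneg W.e1.le hJ0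
  have heFJ : 0 ≤ eF * J := mul_nonneg W.eF.le hJ0
  have hνq : 0 ≤ ν * q := mul_nonneg (by linarith) hq.le
  -- the far window
  have hν1 := lv_up R (l := 0) (by omega) (o := ν) (by linarith [H.K2]) (by linarith) J
  have hν2 := lv_up R (l := 1) (by omega) (o := ν) (by linarith [H.K2]) (by linarith) J
  rw [s0] at hν1
  rw [s1] at hν2
  -- the early window
  have hbb1 : |bb - t| ≤ K * q := by
    have h1 := W.b1
    have h2 := W.b2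
    have h3 : ρ * q ≤ 1 * q := mul_le_mul_of_nonneg_right (by
      have h1 := H.ρn
      have h2 : (1 : ℝ) ≤ n * R₁ := by
        have : 1 ≤ n * R₁ := Nat.mul_pos H.n0 H.R0
        exact_mod_cast this
      have h3 := mul_le_mul_of_nonneg_right h2 H.ρ0.le
      linarith) hq.le
    have h4 : ((M₁ : ℝ) * ρ) * q ≤ K * q := mul_le_mul_of_nonneg_right (by linarith) hq.le
    have h5 : 1 * q ≤ ((M₁ : ℝ) * ρ) * q := mul_le_mul_of_nonneg_right (by linarith) hq.le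
    rw [abs_le]
    constructor <;> linarith
  have hbl0 := mul_le_mul_of_nonneg_right (abs_le.1 (R.l0 bb hbb1)).2 hJ0
  have hbl1 := mul_le_mul_of_nonneg_right (abs_le.1 (R.dL 1 (by omega) bb hbb1)).2 hJ0
  rw [s1] at hbl1
  have hb1J := mul_le_mul_of_nonneg_right W.b1 hJ0
  have hb2J := mul_le_mul_of_nonneg_right W.b2 hJ0
  have hP0 := mul_le_mul_of_nonneg_right W.P0 hJ0
  have hP1 := mul_le_mul_of_nonneg_right W.P1 hJ0
  have hCgY' : (Cg : ℝ) * (ω * q * J + 1) ≤ 2 * (Cg * (ω * q * J)) := by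
    have := mul_le_mul_of_nonneg_left (show (1 : ℝ) ≤ ω * q * J by linarith) hCg0
    linarith
  have hbκ : 1 * (q / n * J) ≤ (b - 2) * (q / n * J) :=
    mul_le_mul_of_nonneg_right (by linarith) AW.κ0
  refine sug_of AW AN rfl H.n0 (Kf := ν * q * J) AF rfl ?_ ?_ ?_ ?_ ?_ (by linarith) ?_ ?_ ?_ ?_
    NU.hb ?_ ?_ ?_ ?_ ?_ ?_ ?_ ?_ ?_ ?_ ?_ ?_ ?_ ?_ ?_ ?_
  · -- htt
    show ⌊uAA t q ρ M₁ (M₁ + 2 * n * R₁) (M₁ - R₁ + 0) * J⌋₊ +
      (⌊t * J⌋₊ - ⌊(t - q / n) * J⌋₊) = ⌊t * J⌋₊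
    rw [H.w0]
    have : ⌊(t - q / n) * J⌋₊ ≤ ⌊t * J⌋₊ := Nat.floor_mono (mul_le_mul_of_nonneg_right (by
      have : 0 ≤ q / n := by positivity
      linarith) hJ0)
    omega
  · ring
  · -- hkf
    have : ⌊t * J⌋₊ ≤ ⌊(t + ν * q) * J⌋₊ :=
      Nat.floor_mono (mul_le_mul_of_nonneg_right (by linarith) hJ0)
    omega
  · linarith
  · have h1 := (abs_le.1 hbb1).2
    have h2 := R.t1
    linarith
  · linarith
  · linarith
  · linarith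
  · linarith
  · linarith
  · show (L 0 t t + kf * q - ((0 : ℕ) : ℝ) * t) * J + 3 * (ω * q * J) ≤ t * J + ν * q * J
    push_cast
    linarith
  · show (L 1 t t + kf * q - ((0 : ℕ) : ℝ) * t) * J + 3 * (ω * q * J) ≤
      L 1 t t * J + ν * q * J
    push_cast
    linarith
  · show (L 0 t t + kf * q - ((1 : ℕ) : ℝ) * t) * J + 3 * (ω * q * J) ≤ ν * q * J
    push_cast
    linarith
  · show (L 1 t t + kf * q - ((1 : ℕ) : ℝ) * t) * J + t * J + 3 * (ω * q * J) ≤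
      L 1 t t * J + ν * q * J
    push_cast
    linarith
  · linarith
  · linarith
  · linarith
  · linarith
  · show (L 0 t t - φ * q - e1) * J + 3 * (ω * q * J) ≤ t * J
    linarith
  · show (L 1 t t - φ * q - e1) * J + 3 * (ω * q * J) ≤ L 1 t t * J
    linarith
  · linarith
  · linarith
  · show (L 0 bb bb - σ / 20 * hF - eF) * J + 2 * (ω * q * J) ≤ t * J + -(M₁ * ρ) * q * J
    linarith
  · show (L 1 bb bb - σ / 20 * hF - eF) * J + 2 * (ω * q * J) ≤ L 1 t t * J + -(M₁ * ρ) * q * J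
    linarith
  · linarith

end

end Pool.STA37
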