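import Pool.Agent.H37.STA.Rda

/-!
# The event at a record

`su_bas`: the event of the class theorem at a record.
-/

set_option autoImplicit false

namespace Pool.STA37

open Finset Real MvPolynomial
open Pool.Agent.H49.Ent Pool.Agent.H32.Dense Pool.STK Pool.KA Pool.KSAT Pool.K2S Pool.PB Pool.S6C
open Pool.GEN Pool.CHT Pool.RCD Pool.D2F Pool.CHX Pool.D2Con Pool.D2A Pool.NVX
open Pool.LA91 Pool.PKG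
open Pool.STB (V3 Po Bx VbT lv_lin lv_sta box_in)

/-- **The event at a record.** -/
theorem su_bas (S₀ S₂ b : ℕ) (hS₀ : 1 ≤ S₀) (hS₂ : 1 ≤ S₂) : ∃ C₀ C C₁ C₂ Cf K : ℕ,
    1 ≤ C₀ ∧ 1 ≤ Cf ∧ b ≤ K + 1 ∧ 1 ≤ K ∧
    ∀ {m : ℕ} {S : PCl m} {al : ℝ} {g₀ : ℝ → ℝ} {P₀ : List (Fin m) × Fin m → ℝ → ℝ → ℝ}
    {θ : ℝ} {P₂ : ℕ → List (Fin m) × Fin m → ℝ → ℝ → ℝ} {θ₂ Eb e₂ : ℕ → ℝ}
    {c : ℕ → Fin m} {Pt : ℝ → ℝ → ℝ} {r : ℝ → ℝ} {h K₀ g : ℝ} {L T : ℕ → ℝ → ℝ → ℝ}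
    {Sl : ℕ → ℝ} {κ : ℕ → Kg} {G : Set ℝ} {N₀ : ℕ} {A V : ℕ → ℝ} {N' : ℕ} {V' : ℕ → ℝ}
    {Kb ε q t : ℝ}
    (_ : RecG S al g₀ P₀ θ P₂ θ₂ Eb e₂ c Pt r h K₀ g L T Sl κ G S₀ N₀ A V S₂ N' V' Kb ε q t)
    (_ : 2 < m) (_ : κ 1 = .one) (_ : κ 2 = .sta) (_ : Sl 2 = b) {ρ : ℝ}
    {n R₁ M₁ ne Cg : ℕ} {A₀ τ ω ν φ σ kf : ℝ} (_ : LsU ρ n R₁ M₁ N₀ A V N' V' Kb)
    (_ : UNu b n R₁ M₁ ne Cg C₀ C C₁ C₂ Cf A₀ τ ω ρ ε ν φ σ kf Kb) (_ : 0 ≤ kf)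
    {wi ai : ℕ → ℚ} {bb : ℝ} {Pq : Fin 2 → ℝ} {e1 eF hF : ℝ}
    (_ : UWd L P₀ c n M₁ t q ρ ε ν wi ai bb Pq e1 eF hF),
    ∃ c₀ : ℝ, 0 < c₀ ∧ Bas S (fun J F A' => ∃ B : F.Ω → Prop, Sub B A' ∧
      c₀ * Pe F.p A' ≤ Pe F.p B ∧ ∃ (t' : VbT F) (f : FaT F) (ρ' : ℝ),
        SuE F c B K n (R₁ + 2 * n * R₁) b t' ∧
        FaE F c B K t'.y t'.e₁' t'.W₀ t'.g1 t'.Pl f ∧
        SuV P₀ c n b Cg ne A₀ τ (q / n) (ω * q) (ε * q) (Eb 2 + (2 * ne + 2 * Cg + b + 5) * q)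
          (Eb 2 + (2 * ne + 2 * Cg + b + 5) * q) wi ai (fun i => t + (((i : ℝ) + 1) / n + ρ) * q)
          (fun i l => L l (t + (((i : ℝ) + 1) / n + ρ) * q) (t + (((i : ℝ) + 1) / n + ρ) * q)) t' ∧
        SuG n b Cg t (t + ν * q) bb e1 eF (fun l => L l t t - φ * q) (L 2 t t - φ * q)
          (fun l j => L l t t + kf * q - (j : ℕ) * t) (L 2 t t + (b - 1) * q - t) Pq
          (fun i x => L i x x - σ / 20 * hF) (fun l => L l (t + ν * q) (t + ν * q)) t' f ρ') := by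
  obtain ⟨D, hD1, hnod⟩ := u_nod 2 S₀ S₂ (by norm_num) hS₀ hS₂
  obtain ⟨C₀, C, D', K', hDD, hC₀, hcl⟩ := u_rcls D b
  obtain ⟨C₁, C₂, Cf, D₂, hD₂, hCf, hev⟩ := su_ev D D'
  refine ⟨C₀, C, C₁, C₂, Cf, max D₂ K' + b + 1, hC₀, hCf, by omega, by omega, ?_⟩
  intro m S al g₀ P₀ θ P₂ θ₂ Eb e₂ c Pt r h K₀ g L T Sl κ G N₀ A V N' V' Kb ε q t R hm hκ1 hκ2 hb ρ
    n R₁ M₁ ne Cg A₀ τ ω ν φ σ kf H NU hkf wi ai bb Pq e1 eF hF W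
  have hq := R.q0
  have hε0 := NU.ε0
  have hεq : 0 < ε * q := mul_pos hε0 hq
  have hMR := H.MR
  obtain ⟨K₁, d, ψ, hK₁, hψ, hd, hbas⟩ := hcl R hm hκ1 hκ2 hb H hε0 (hnod R hm H D le_rfl)
  obtain ⟨J₀, hJ₀⟩ := exists_nat_ge
    ((10 + 2 * (ne : ℝ) + Cg + ((n : ℝ) + 2) * (b + 1) + M₁) / (ε * q))
  have hJJ : ∀ J ≥ J₀, 10 + 2 * (ne : ℝ) + Cg ≤ ε * q * (J : ℕ) ∧
      ((n : ℝ) + 2) * (b + 1) ≤ ε * q * (J : ℕ) ∧ (M₁ : ℝ) ≤ ε * q * (J : ℕ) := by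
    intro J hJ
    have h1 : (10 + 2 * (ne : ℝ) + Cg + ((n : ℝ) + 2) * (b + 1) + M₁) / (ε * q) ≤ J :=
      hJ₀.trans (by exact_mod_cast hJ)
    rw [div_le_iff₀ hεq] at h1
    have h2 : (0 : ℝ) ≤ ne := Nat.cast_nonneg _
    have h3 : (0 : ℝ) ≤ Cg := Nat.cast_nonneg _
    have h4 : (0 : ℝ) ≤ ((n : ℝ) + 2) * (b + 1) := by positivity
    have h5 : (0 : ℝ) ≤ M₁ := Nat.cast_nonneg _
    refine ⟨by linarith, by linarith, by linarith⟩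
  have hfr : ∀ J ≥ J₀, _ := fun J hJ =>
    u_frm R hm hκ1 hb H NU hd (hJJ J hJ).1 (hJJ J hJ).2.1 (hJJ J hJ).2.2
  have ht1 : t < 1 := by
    have := R.t1
    have := mul_nonneg (show 0 ≤ Kb by linarith [H.K2]) hq.le
    linarith
  have hE := hev (K := max D₂ K' + b + 1) (K₀ := K') (n := n) (N := R₁ + 2 * n * R₁) (b := b)
    (M := M₁ + 2 * n * R₁ + 2) (Dr := 0)
    (by omega) (by omega) R.tmh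
    (R.inj.mono (Set.Iio_subset_Iio (by omega))) (w := t) (ε := ε * q) (K₁ := K₁) hεq ht1 hK₁
    (R := fun j k => uAA t q ρ M₁ (M₁ + 2 * n * R₁) j ≤ uAA t q ρ M₁ (M₁ + 2 * n * R₁) k ∧
      uWW t q ρ M₁ (M₁ + 2 * n * R₁) j ≤ uWW t q ρ M₁ (M₁ + 2 * n * R₁) k)
    (ι := fun k => M₁ - R₁ + k) (ιf := fun k => k) (Nf := M₁ - R₁)
    (s₀ := fun J => ⌊ε * q * J⌋₊) (s₁ := fun J => 8 * vU ε q J) (eJ := fun J => ⌊Eb 2 * J⌋₊)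
    (EJ := fun J => ⌊(Eb 2 + ε * q) * J⌋₊) (hJ := fun J => ⌊ε * q * J⌋₊)
    (κJ := fun J => Real.exp (-(ψ * J))) (a := vA t q ρ M₁ (M₁ + 2 * n * R₁))
    (w' := vW t q ρ M₁ (M₁ + 2 * n * R₁)) (g := vG L d t q ρ M₁ (M₁ + 2 * n * R₁))
    (k := vK n t q) (y := fun J => ⌊ω * q * J⌋₊) (x := fun J => ⌊ω * q * J⌋₊)
    (e₁' := fun J => (C₀ + 9 * Cf) * vU ε q J + ⌊Eb 2 * J⌋₊)
    (e₁ := fun J => vE ne Cg b (Eb 2) q J - 1) (e₂ := vE ne Cg b (Eb 2) q)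
    (st := fun J => C₁ * (C₀ * vU ε q J + vV ρ q J + 1)) (s := fun J => C₀ * vU ε q J)
    (v := vV ρ q)
    (y₀ := fun J => C * (⌊(4 * (ε * q) + 3 * (ε * q)) * J⌋₊ + ⌊2 * (ρ * q) * J⌋₊ + 1))
    (X := fun J => C * vU ε q J + ⌊(Eb 2 + ε * q) * J⌋₊)
    (kf := fun J => ⌊(t + ν * q) * J⌋₊ - ⌊t * J⌋₊) (vf := vV ρ q)
    (jb := fun i => R₁ * (i + 1) - 1) (ji := fun i => R₁ * (i + 2) - 1) hbas rfl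
    (fun k hk => by
      show k < M₁ + 2 * n * R₁ + 2
      omega)
    (fun k hk => by
      show uAA t q ρ M₁ (M₁ + 2 * n * R₁) k ≤ uAA t q ρ M₁ (M₁ + 2 * n * R₁) (k + 1) ∧
        uWW t q ρ M₁ (M₁ + 2 * n * R₁) k ≤ uWW t q ρ M₁ (M₁ + 2 * n * R₁) (k + 1)
      rw [uAA_ball (by omega), uAA_ball (by omega), uWW_ball (by omega), uWW_ball (by omega)]
      have h1 : -((M₁ : ℝ) * ρ) + k * ρ ≤ -(M₁ * ρ) + ((k + 1 : ℕ) : ℝ) * ρ := by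
        have := H.ρ0
        push_cast
        linarith
      have h2 := mul_le_mul_of_nonneg_right h1 hq.le
      exact ⟨by linarith, by linarith⟩) (J₀ := J₀)
    (fun J hJ => ⟨(hfr J hJ).1, (hfr J hJ).2.1⟩) (fun J hJ => (hfr J hJ).2.2.1)
    (fun J hJ => (hfr J hJ).2.2.2)
  refine ⟨1 / (32 * K₁), by positivity, ?_⟩
  refine Bas.mono J₀ hE ?_
  rintro J hJ F A' ⟨B, hBA, hPB, t', fa, hSE, hFE, ⟨Gn, Hn, pP, pH, f, f', kp, ht'⟩, pPf, pHf, xP,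
    xH, hfa⟩
  refine ⟨B, hBA, hPB, t', fa, 2 ^ vG L d t q ρ M₁ (M₁ + 2 * n * R₁) J (M₁ - R₁ + 0) 1 *
        2 ^ vA t q ρ M₁ (M₁ + 2 * n * R₁) J 0 /
        (2 ^ vA t q ρ M₁ (M₁ + 2 * n * R₁) J (M₁ - R₁ + 0) *
          2 ^ vG L d t q ρ M₁ (M₁ + 2 * n * R₁) J 0 1), hSE, hFE, ?_, ?_⟩
  · rw [ht']
    exact u_suv R hm hκ1 hb H NU hd (hJJ J hJ).1 (hJJ J hJ).2.1 W
  · rw [ht', hfa]
    exact u_sug R hm hκ1 hb H NU hkf hd (hJJ J hJ).1 (hJJ J hJ).2.1 W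

end Pool.STA37
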