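import Pool.Agent.H37.STA.Rdb
import Pool.Agent.H91.FR.QpG
import Pool.Agent.H42.D2.Vlz
import Pool.Agent.H80.DIC.Tree

/-!
# The choices at a record

`nu_ex`: the constants; `u_rat`: rational windows; `u_sc`: the scale of the free velocities;
`u_row`: the row of the free velocities.
-/

set_option autoImplicit false

namespace Pool.STA37

open Finset Real MvPolynomial
open Pool.Agent.H49.Ent Pool.Agent.H32.Dense Pool.STK Pool.KA Pool.KSAT Pool.K2S Pool.PB Pool.S6C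
open Pool.GEN Pool.CHT Pool.RCD Pool.D2F Pool.CHX Pool.D2Con Pool.D2A Pool.NVX
open Pool.LA91 Pool.PKG
open Pool.STB (V3 Po Bx VbT lv_lin lv_sta box_in)

/-- **The constants exist.** -/
theorem nu_ex (b n Cg C₀ C C₁ C₂ Cf : ℕ) {A τ φ : ℝ} (n0 : 0 < n) (A0 : 0 ≤ A) (τ0 : 0 < τ)
    (φ0 : 0 < φ) : ∃ (ω ρ : ℝ) (R₁ : ℕ), 0 < ω ∧ 0 < ρ ∧ 1 ≤ R₁ ∧ n * (R₁ * ρ) = 1 ∧
      (10 * b + 40) * ρ ≤ ω ∧ C * (8 * ρ) ≤ ω ∧ C₁ * (8 * ρ) ≤ ω ∧ C₂ * (20 * ρ) ≤ ω ∧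
      40 * ω * n ≤ 1 ∧ 6 * A * ω * n ≤ τ ∧ Cg * (8 * ω) ≤ 1 ∧ (2 * Cg + 6) * ω ≤ φ ∧
      4 * ω ≤ 1 / 40 ∧ ∃ ε₁ : ℝ, 0 < ε₁ ∧ ∀ ε : ℝ, 0 < ε → ε ≤ ε₁ →
        280 * ε ≤ ρ ∧ C₀ * (16 * ε) ≤ ρ ∧ Cf * (200 * ε) ≤ ρ := by
  have hn : (0 : ℝ) < n := by exact_mod_cast n0
  obtain ⟨B, hB⟩ : ∃ B : ℝ, B = 40 * n + 6 * A * n / τ + 8 * Cg + (2 * Cg + 6) / φ + 160 :=
    ⟨_, rfl⟩
  have hB0 : 0 < B := by
    rw [hB]
    positivity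
  obtain ⟨ω, hω⟩ : ∃ ω, ω = 1 / B := ⟨_, rfl⟩
  have hω0 : 0 < ω := by
    rw [hω]
    positivity
  have hωB : ω * B = 1 := by
    rw [hω]
    field_simp
  obtain ⟨D, hD⟩ : ∃ D : ℝ, D = 10 * b + 40 + 8 * C + 8 * C₁ + 20 * C₂ := ⟨_, rfl⟩
  have hD0 : 0 < D := by
    rw [hD]
    positivity
  obtain ⟨R', hR'⟩ := exists_nat_ge (D / ω)
  obtain ⟨R₁, hR₁⟩ : ∃ R₁, R₁ = R' + 1 := ⟨_, rfl⟩
  have hR0 : (0 : ℝ) < R₁ := by
    rw [hR₁]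
    positivity
  have hn1 : (1 : ℝ) ≤ n := by exact_mod_cast n0
  obtain ⟨ρ, hρ⟩ : ∃ ρ, ρ = 1 / ((n : ℝ) * R₁) := ⟨_, rfl⟩
  have hρ0 : 0 < ρ := by
    rw [hρ]
    positivity
  have hDρ : D * ρ ≤ ω := by
    have h1 : D ≤ ω * R₁ := by
      have h2 : D / ω ≤ R₁ := by
        rw [hR₁]
        push_cast
        linarith
      rw [div_le_iff₀ hω0] at h2
      linarith
    have h3 : R₁ * ρ ≤ 1 := by
      rw [hρ, mul_one_div, div_le_one (by positivity)]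
      have := mul_le_mul_of_nonneg_right hn1 hR0.le
      linarith
    calc D * ρ ≤ ω * R₁ * ρ := mul_le_mul_of_nonneg_right h1 hρ0.le
      _ = ω * (R₁ * ρ) := by ring
      _ ≤ ω * 1 := mul_le_mul_of_nonneg_left h3 hω0.le
      _ = ω := mul_one _
  have hb0 : (0 : ℝ) ≤ b := Nat.cast_nonneg _
  have hC0 : (0 : ℝ) ≤ C := Nat.cast_nonneg _
  have hC1 : (0 : ℝ) ≤ C₁ := Nat.cast_nonneg _
  have hC2 : (0 : ℝ) ≤ C₂ := Nat.cast_nonneg _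
  have hCg : (0 : ℝ) ≤ Cg := Nat.cast_nonneg _
  have kD : ∀ x : ℝ, x ≤ D → x * ρ ≤ ω := fun x hx =>
    (mul_le_mul_of_nonneg_right hx hρ0.le).trans hDρ
  have kB : ∀ x : ℝ, x ≤ B → x * ω ≤ 1 := fun x hx => by
    have := mul_le_mul_of_nonneg_right hx hω0.le
    linarith
  have t1 : 0 ≤ 6 * A * n / τ := by positivity
  have t2 : 0 ≤ (2 * (Cg : ℝ) + 6) / φ := by positivity
  refine ⟨ω, ρ, R₁, hω0, hρ0, by omega, ?_, ?_, ?_, ?_, ?_, ?_, ?_, ?_, ?_, ?_, ρ /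
    (280 + 16 * C₀ + 200 * Cf), by positivity, fun ε hε hε1 => ?_⟩
  · rw [hρ]
    field_simp
  · exact kD _ (by rw [hD]; linarith)
  · have := kD (8 * C) (by rw [hD]; linarith)
    linarith
  · have := kD (8 * C₁) (by rw [hD]; linarith)
    linarith
  · have := kD (20 * C₂) (by rw [hD]; linarith)
    linarith
  · have := kB (40 * n) (by rw [hB]; linarith)
    linarith
  · have h1 := kB (6 * A * n / τ) (by rw [hB]; linarith)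
    have h2 : 6 * A * ω * n = 6 * A * n / τ * ω * τ := by
      field_simp
    rw [h2]
    have := mul_le_mul_of_nonneg_right h1 τ0.le
    linarith
  · have := kB (8 * Cg) (by rw [hB]; linarith)
    linarith
  · have h1 := kB ((2 * Cg + 6) / φ) (by rw [hB]; linarith)
    have h2 : (2 * Cg + 6) * ω = (2 * Cg + 6) / φ * ω * φ := by
      field_simp
    rw [h2]
    have := mul_le_mul_of_nonneg_right h1 φ0.le
    linarith
  · have := kB 160 (by rw [hB]; linarith)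
    linarith
  · have h1 : ε * (280 + 16 * C₀ + 200 * Cf) ≤ ρ := by
      rw [le_div_iff₀ (by positivity)] at hε1
      exact hε1
    have h2 : 0 ≤ ε * C₀ := mul_nonneg hε.le (Nat.cast_nonneg _)
    have h3 : 0 ≤ ε * Cf := mul_nonneg hε.le (Nat.cast_nonneg _)
    refine ⟨by linarith, by linarith, by linarith⟩

/-- **The first ball below a window.** -/
theorem m1_ex {t bb q ρ β : ℝ} (hq : 0 < q) (hρ : 0 < ρ) (h1 : t - (β + 1) * q ≤ bb)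
    (h2 : bb ≤ t - β * q) (hβ : 0 ≤ β) : ∃ M₁ : ℕ, t + -(M₁ * ρ) * q ≤ bb ∧
      bb ≤ t + -(M₁ * ρ) * q + ρ * q ∧ β ≤ M₁ * ρ ∧ M₁ * ρ ≤ β + 1 + ρ := by
  have hρq : 0 < ρ * q := mul_pos hρ hq
  have hβq : 0 ≤ β * q := mul_nonneg hβ hq.le
  have h0 : 0 ≤ (t - bb) / (ρ * q) := div_nonneg (by linarith) hρq.le
  refine ⟨⌈(t - bb) / (ρ * q)⌉₊, ?_⟩
  have h3 := Nat.le_ceil ((t - bb) / (ρ * q))
  have h4 := Nat.ceil_lt_add_one h0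
  generalize (⌈(t - bb) / (ρ * q)⌉₊ : ℕ) = M at h3 h4 ⊢
  rw [div_le_iff₀ hρq] at h3
  have h5 : (M : ℝ) * (ρ * q) ≤ (t - bb) + ρ * q := by
    have h6 := mul_le_mul_of_nonneg_right h4.le hρq.le
    rw [add_mul, div_mul_cancel₀ _ hρq.ne'] at h6
    linarith
  refine ⟨by linarith, by linarith, ?_, ?_⟩
  · refine le_of_mul_le_mul_right ?_ hq
    linarith
  · refine le_of_mul_le_mul_right ?_ hq
    linarith

/-- **The scale of the free velocities.** -/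
theorem u_sc {q : ℝ} {k₀ : ℕ} (hq : 0 < q) (hq1 : q < (1 / 2) ^ k₀) :
    ∃ k ≥ k₀, q / 2 ≤ (1 / 2 : ℝ) ^ k ∧ (1 / 2 : ℝ) ^ k ≤ q := by
  have h1 : q ≤ 1 := hq1.le.trans (pow_le_one₀ (by norm_num) (by norm_num))
  obtain ⟨n, h2, h3⟩ := exists_nat_pow_near_of_lt_one hq h1 (show (0 : ℝ) < 1 / 2 by norm_num)
    (by norm_num)
  refine ⟨n + 1, ?_, ?_, h2.le⟩
  · by_contra h
    have h4 : (1 / 2 : ℝ) ^ k₀ ≤ (1 / 2) ^ (n + 1) :=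
      pow_le_pow_of_le_one (by norm_num) (by norm_num) (by omega)
    linarith
  · rw [pow_succ]
    linarith

section

variable {m : ℕ} {S : PCl m} {al : ℝ} {g₀ : ℝ → ℝ} {P₀ : List (Fin m) × Fin m → ℝ → ℝ → ℝ}
  {θ : ℝ} {P₂ : ℕ → List (Fin m) × Fin m → ℝ → ℝ → ℝ} {θ₂ Eb e₂ : ℕ → ℝ}
  {c : ℕ → Fin m} {Pt : ℝ → ℝ → ℝ} {r : ℝ → ℝ} {h K₀ g : ℝ} {L T : ℕ → ℝ → ℝ → ℝ}
  {Sl : ℕ → ℝ} {κ : ℕ → Kg} {G : Set ℝ} {S₀ N₀ : ℕ} {A V : ℕ → ℝ} {S₂ N' : ℕ} {V' : ℕ → ℝ}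
  {K ε q t : ℝ}

/-- **A rational window after a window of the chain.** -/
theorem u_rat (R : RecG S al g₀ P₀ θ P₂ θ₂ Eb e₂ c Pt r h K₀ g L T Sl κ G S₀ N₀ A V S₂ N' V' K ε
    q t) (hm : 3 < m) (hε : 0 < ε) {o : ℝ} (h1 : -K ≤ o) (h2 : o ≤ K) (ho : ∃ k < N', V' k = o) :
    ∃ w : ℚ, t + o * q ≤ w ∧ (w : ℝ) ≤ 1 ∧
      ∀ l ≤ 2, bet P₀ c l w w ≤ L l (t + o * q) (t + o * q) + ε * q := by
  obtain ⟨k, hk, rfl⟩ := ho
  have hb := box_in R h1 h2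
  obtain ⟨d, hd, hdb⟩ := (R.tg 2 (by norm_num) (by omega)).ratc k hk (ε * q) (mul_pos hε R.q0)
  obtain ⟨w, hw1, hw2⟩ := exists_rat_btwn (show t + V' k * q < t + V' k * q +
    min d (1 - (t + V' k * q)) by
      have : 0 < min d (1 - (t + V' k * q)) := lt_min hd (by linarith [hb.2.2])
      linarith)
  have h3 := min_le_left d (1 - (t + V' k * q))
  have h4 := min_le_right d (1 - (t + V' k * q))
  refine ⟨w, hw1.le, by linarith, fun l hl => ?_⟩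
  have h5 := hdb w hw1.le (by linarith) l hl
  rw [(R.tgl 2 (by norm_num) (by omega)).1] at h5
  exact h5

end

end Pool.STA37
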