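import Pool.Agent.H37.STA.Rdc

/-!
# The free velocities at a record

`u_free`: the row of the free velocities at a record, with the precision of the labels.
-/

set_option autoImplicit false

namespace Pool.STA37

open Finset Real MvPolynomial
open Pool.Agent.H49.Ent Pool.Agent.H32.Dense Pool.STK Pool.KA Pool.KSAT Pool.K2S Pool.PB Pool.S6C
open Pool.GEN Pool.CHT Pool.RCD Pool.D2F Pool.CHX Pool.D2Con Pool.D2A Pool.NVX
open Pool.LA91 Pool.PKG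
open Pool.RCD (vg)
open Pool.STB (V3 Po Bx VbT lv_lin lv_sta box_in)

variable {m : ℕ} {S : PCl m} {al : ℝ} {g₀ : ℝ → ℝ} {P₀ : List (Fin m) × Fin m → ℝ → ℝ → ℝ}
  {θ : ℝ} {P₂ : ℕ → List (Fin m) × Fin m → ℝ → ℝ → ℝ} {θ₂ Eb e₂ : ℕ → ℝ}
  {c : ℕ → Fin m} {Pt : ℝ → ℝ → ℝ} {r : ℝ → ℝ} {h K₀ g : ℝ} {L T : ℕ → ℝ → ℝ → ℝ}
  {Sl : ℕ → ℝ} {κ : ℕ → Kg} {G : Set ℝ} {S₀ N₀ : ℕ} {A V : ℕ → ℝ} {S₂ N' : ℕ} {V' : ℕ → ℝ}
  {K ε q t : ℝ}

/-- **The row of the free velocities at a record.** -/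
theorem u_free (R : RecG S al g₀ P₀ θ P₂ θ₂ Eb e₂ c Pt r h K₀ g L T Sl κ G S₀ N₀ A V S₂ N' V' K ε
    q t) (hm : 2 < m) (hκ1 : κ 1 = .one) (hε : 0 < ε) (hε1 : 280 * ε ≤ 1) {CF k₀ : ℕ}
    {ν κF x₀ bb : ℝ} (hfa : ∀ k ≥ k₀, FreeAt S (fun J F => ptr F J) (fun _ F => F.W) c 2
      (fun l w => L l w w) G x₀ CF 1 κF k) (hbG : bb ∈ G) (hν : 0 ≤ ν)
    (hx1 : t + -(CF + 13 - ν) * q ≤ x₀) (hx2 : x₀ ≤ t + -(CF / 2 + 28) * q)
    (hb1 : t + -(CF + 28) * q ≤ bb) (hb2 : bb ≤ t + -(CF + 27) * q) (hνC : 2 * ν + 40 ≤ CF)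
    (hK : CF + 30 ≤ K) (hq1 : q < (1 / 2) ^ k₀) :
    ∃ (hF : ℝ) (Pq : Fin 2 → ℝ) (eF : ℝ), q / 2 ≤ hF ∧ hF ≤ q ∧ 0 < eF ∧ (∀ i, Pq i ≤ 1) ∧
      (ν + ε) * q ≤ Pq 0 ∧ ν * q + L 1 t t - t + 21 * (ε * q) ≤ Pq 1 ∧
      ∃ k₂ : ℝ, 0 < k₂ ∧ ∀ Kf : ℕ, Bas S (fun J F A =>
        ∀ (V : Type) (z : F.Ω → V) (V' : Type) (z' : F.Ω → V'),
        Mx (fun J F => ptr F J) (vg t) k₂ F A z →
        Mx (fun J F => ptr F J) (vg (t + ν * q)) k₂ F A z' →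
        ∀ u, (qG m c 2 (fun i x => L i x x - (1 : ℝ) / 20 * hF) bb Pq).P Kf eF J F A u →
        CH (Pool.Agent.H49.Ent.cond F.p A True) u (fun ω => (z ω, F.W ω)) ≤
          CH (Pool.Agent.H49.Ent.cond F.p A True) u (fun ω => (z' ω, F.W ω)) + κF * hF * J) := by
  have hq := R.q0
  obtain ⟨k, hk, hF1, hF2⟩ := u_sc hq hq1
  obtain ⟨H, hH⟩ : ∃ H : ℝ, H = (1 / 2) ^ k := ⟨_, rfl⟩
  have hH0 : 0 < H := by
    rw [hH]
    positivity
  rw [← hH] at hF1 hF2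
  have hCF : (0 : ℝ) ≤ CF := Nat.cast_nonneg _
  have hx0t : |x₀ - t| ≤ K * q := by
    have h1 : (CF + 13 - ν) * q ≤ K * q := mul_le_mul_of_nonneg_right (by linarith) hq.le
    have h2 : 0 ≤ (CF / 2 + 28 : ℝ) * q := by positivity
    rw [abs_le]
    constructor <;> linarith
  have hx00 : 0 < x₀ := by
    have h1 : (CF + 13 - ν) * q ≤ K * q := mul_le_mul_of_nonneg_right (by linarith) hq.le
    have h2 := R.t0
    linarith
  have hx01 : x₀ ≤ 1 := by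
    have h1 := (abs_le.1 hx0t).2
    have h2 := R.t1
    linarith
  have s1 : Sl 1 = 1 := by
    have h1 := R.kd 1 (by omega)
    rw [hκ1] at h1
    exact h1
  have RT := R.tg 2 (by norm_num) hm
  have hroom : ∀ l ≤ 2, L l x₀ x₀ + Eb 2 + 3 * K * q < 1 := fun l hl => RT.room l hl x₀ hx0t
  have hEb := RT.Eb0
  have n0 : 0 ≤ L 0 x₀ x₀ - x₀ := by
    have := R.low_at (i := 0) (by omega) hx00.le le_rfl hx01
    linarith
  have n1 : L 1 t t - t - ε * q ≤ L 1 x₀ x₀ - x₀ := by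
    have h1 := (abs_le.1 (R.dL 1 (by omega) x₀ hx0t)).1
    rw [s1] at h1
    linarith
  -- the precisions
  obtain ⟨p0, hp0, hp0'⟩ := exists_rat_btwn (show L 0 x₀ x₀ - x₀ + (CF - 1 / 4) * H <
    L 0 x₀ x₀ - x₀ + CF * H by linarith)
  obtain ⟨p1, hp1, hp1'⟩ := exists_rat_btwn (show L 1 x₀ x₀ - x₀ + (CF - 3) * H <
    L 1 x₀ x₀ - x₀ + (CF - 5 / 2) * H by linarith)
  have hCH : CF * H ≤ CF * q := mul_le_mul_of_nonneg_left hF2 hCF
  have hCH' : (CF : ℝ) * (q / 2) ≤ CF * H := mul_le_mul_of_nonneg_left hF1 hCF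
  have hCK : (CF : ℝ) * q ≤ K * q := mul_le_mul_of_nonneg_right (by linarith) hq.le
  have hKq : 0 ≤ K * q := le_trans (by positivity) hCK
  have hνq : 0 ≤ ν * q := mul_nonneg hν hq.le
  have hνCq : (2 * ν + 40) * q ≤ CF * q := mul_le_mul_of_nonneg_right hνC hq.le
  have hεq : 280 * ε * q ≤ 1 * q := mul_le_mul_of_nonneg_right hε1 hq.le
  obtain ⟨k₂, hk₂, e₀, he₀, hbas⟩ := hfa k hk ![p0, p1] bb t (t + ν * q)
    ⟨by
      intro i
      fin_cases i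
      · show L 0 x₀ x₀ - x₀ ≤ p0
        linarith
      · show L 1 x₀ x₀ - x₀ ≤ p1
        linarith, by
      intro i
      rw [← hH]
      fin_cases i
      · show (p0 : ℝ) ≤ L 0 x₀ x₀ - x₀ + CF * H
        linarith
      · show (p1 : ℝ) ≤ L 1 x₀ x₀ - x₀ + CF * H
        linarith, by
      intro l i hli
      rw [← hH]
      fin_cases l <;> fin_cases i
      · exact absurd hli (lt_irrefl _)
      · show (p1 : ℝ) - (L 1 x₀ x₀ - x₀) + 2 * ((1 : ℚ) : ℝ) * H ≤ p0 - (L 0 x₀ x₀ - x₀)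
        push_cast
        linarith
      · exact absurd hli (by decide)
      · exact absurd hli (lt_irrefl _)⟩ hbG
    (by
      rw [← hH]
      linarith)
    (by
      show bb + (CF + 7 * ((2 : ℕ) : ℝ) + 13) * (1 / 2) ^ k ≤ t
      rw [← hH]
      push_cast
      linarith)
    (by linarith)
    (by
      show t + ν * q ≤ x₀ + (2 * CF + 7 * ((2 : ℕ) : ℝ) + 12) * (1 / 2) ^ k
      rw [← hH]
      push_cast
      linarith)
  refine ⟨H, fun i => ((![p0, p1] i : ℚ) : ℝ), e₀, hF1, hF2, he₀, ?_, ?_, ?_, k₂, hk₂, ?_⟩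
  · intro i
    fin_cases i
    · show (p0 : ℝ) ≤ 1
      have := hroom 0 (by norm_num)
      linarith
    · show (p1 : ℝ) ≤ 1
      have := hroom 1 (by norm_num)
      linarith
  · show (ν + ε) * q ≤ p0
    linarith
  · show ν * q + L 1 t t - t + 21 * (ε * q) ≤ p1
    linarith
  · intro Kf
    have h1 := hbas Kf
    rw [← hH] at h1
    have e1 : (fun (i : ℕ) (x : ℝ) => (fun l w => L l w w) i x - ((1 : ℚ) : ℝ) / 20 * H) =
        fun i x => L i x x - (1 : ℝ) / 20 * H := by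
      funext i x
      push_cast
      rfl
    rw [e1] at h1
    exact h1

end Pool.STA37
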