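import Pool.Agent.H68.OWN.Jcl
import Pool.Agent.H92.GN.Rec
import Pool.Agent.H91.LA.Num
import Pool.Agent.H45.EXA.ExvB

/-!
# The first jets on all large parts of an event

`f1_row`: if a quantity is few bits given another one and the number of the record exists, then on
each event there is one closed function such that on all large parts of the event the quantity is few
bits given the other one, this closed function and the context.
-/

set_option autoImplicit false

namespace Pool.STA37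

open Finset Real
open Pool.Agent.H49.Ent Pool.Agent.H32.Dense Pool.STK Pool.KA Pool.KSAT Pool.K2S Pool.PB Pool.S6C
open Pool.GEN Pool.RCD Pool.LA91
open Pool.OWN68 (F1)

variable {m : ℕ}

/-- **Few bits given one closed function on all large parts of an event.** -/
theorem f1_row {S : PCl m}
    (hpos : ∀ (τ : ℝ) (J : ℕ) (F : Fam m J) (A : F.Ω → Prop), S.St τ J F A → 0 < Pe F.p A)
    {U U' : Type} {α β γ : ∀ J : ℕ, Fam m J → Type} {f : ∀ (J : ℕ) (F : Fam m J), F.Ω → α J F}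
    {g : ∀ (J : ℕ) (F : Fam m J), F.Ω → β J F} {y : ∀ (J : ℕ) (F : Fam m J), F.Ω → γ J F}
    {Q : Qt m U} {Q' : Qt m U'} {e η ρ : ℝ} (h1 : F1 S f g y Q Q' e η) (hρ : RNum S f g ρ)
    {h c₀ : ℝ} (hh : 0 < h) (hc : 0 < c₀) (K : ℕ) :
    Bas S (fun J F A => ∃ (V : Type) (z : F.Ω → V), Cl2 (f J F) (g J F) A z ∧
      ∀ B : F.Ω → Prop, Sub B A → c₀ * Pe F.p A ≤ Pe F.p B → ∀ u u', Q.P K e J F B u →
        Q'.P K e J F B u' → CH (Pool.Agent.H49.Ent.cond F.p B True) u'
          (fun ω => (u ω, (z ω, y J F ω))) ≤ (η + h) * J) := by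
  obtain ⟨κ, hκ, hmax⟩ := hρ.max hpos h hh
  have hc' : 0 < 1 / c₀ := by positivity
  obtain ⟨J₁, hJ₁⟩ := exists_nat_ge (Real.log (1 / c₀) / κ)
  refine Bas.mono J₁ ((hmax.and (hρ.at' (h / 2) (half_pos hh))).and
    (Pool.GRW.bas_part (h1 K) hc')) ?_
  rintro J hJ F A ⟨⟨h2, V, z, hz, hcell⟩, h3⟩
  refine ⟨V, z, hz, fun B hB hP u u' hu hu' => ?_⟩
  have hP' : Pe F.p A ≤ 1 / c₀ * Pe F.p B := by
    rw [one_div, inv_mul_eq_div, le_div_iff₀ hc, mul_comm]
    exact hP
  have hκP : Real.exp (-(κ * J)) * Pe F.p A ≤ Pe F.p B := by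
    refine le_trans (mul_le_mul_of_nonneg_right ?_ (Pe_nonneg F.isLaw A)) hP
    have h5 : (J₁ : ℝ) ≤ J := by exact_mod_cast hJ
    have h6 := hJ₁.trans h5
    rw [div_le_iff₀ hκ] at h6
    have h7 : -(κ * J) ≤ Real.log c₀ := by
      rw [one_div, Real.log_inv] at h6
      linarith
    calc Real.exp (-(κ * J)) ≤ Real.exp (Real.log c₀) := Real.exp_le_exp.2 h7
      _ = c₀ := Real.exp_log hc
  have e1 : -ρ - h / 2 = -ρ - h / 2 := rfl
  obtain ⟨hBp, -, h4⟩ := h2 V z hz hcell B hB hκP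
  obtain ⟨V', z', hz', h5⟩ := h3 B hB hP' u u' hu hu'
  have h6 := (h4 V' z' hz').2
  have hq := (isLaw_cond F.isLaw hBp).nonneg
  have h7 := CH_le_add hq u' z' (fun ω => (u ω, (z ω, y J F ω)))
  have h8 : CH (Pool.Agent.H49.Ent.cond F.p B True) z' (fun ω => (u ω, (z ω, y J F ω))) ≤
      CH (Pool.Agent.H49.Ent.cond F.p B True) z' z :=
    CH_mono_cond hq fun ω ω' _ _ h => by
      simp only [Prod.mk.injEq] at h
      exact h.2.1
  have h9 : CH (Pool.Agent.H49.Ent.cond F.p B True) u'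
      (fun ω => (z' ω, (u ω, (z ω, y J F ω)))) ≤
      CH (Pool.Agent.H49.Ent.cond F.p B True) u' (fun ω => (u ω, (z' ω, y J F ω))) :=
    CH_mono_cond hq fun ω ω' _ _ h => by
      simp only [Prod.mk.injEq] at h ⊢
      tauto
  have h10 : (η + h) * J = η * J + h * J := by ring
  linarith

end Pool.STA37
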