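import Pool.Agent.H37.STA.Rdd
import Pool.Agent.H37.STA.Rnx

/-!
# The class of the first jets

`u_f1`: a subclass with the row of the first jet of the place, uniform in the parts of an event.
-/

set_option autoImplicit false

namespace Pool.STA37

open Finset Real MvPolynomial
open Pool.Agent.H49.Ent Pool.Agent.H32.Dense Pool.STK Pool.KA Pool.KSAT Pool.K2S Pool.PB Pool.S6C
open Pool.GEN Pool.CHT Pool.RCD Pool.D2F Pool.CHX Pool.D2Con Pool.D2A Pool.NVX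
open Pool.LA91 Pool.PKG Pool.OWN68 Pool.V1E
open Pool.RCD (vg)
open Pool.STB (V3 Po Bx VbT lv_lin lv_sta box_in)

variable {m : ℕ} {S : PCl m} {al : ℝ} {g₀ : ℝ → ℝ} {P₀ : List (Fin m) × Fin m → ℝ → ℝ → ℝ}
  {θ : ℝ} {P₂ : ℕ → List (Fin m) × Fin m → ℝ → ℝ → ℝ} {θ₂ Eb e₂ : ℕ → ℝ}
  {c : ℕ → Fin m} {Pt : ℝ → ℝ → ℝ} {r : ℝ → ℝ} {h K₀ g : ℝ} {L T : ℕ → ℝ → ℝ → ℝ}
  {Sl : ℕ → ℝ} {κ : ℕ → Kg} {G : Set ℝ} {S₀ N₀ : ℕ} {A V : ℕ → ℝ} {S₂ N' : ℕ} {V' : ℕ → ℝ}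
  {K ε q t : ℝ}

/-- **The class of the first jets**, from a subclass with the first jet. -/
theorem u_f1s (R : RecG S al g₀ P₀ θ P₂ θ₂ Eb e₂ c Pt r h K₀ g L T Sl κ G S₀ N₀ A V S₂ N' V' K ε
    q t) {S₁ : PCl m} (hne : S₁.Ne)
    (hs : ∀ (τ : ℝ) (J : ℕ) (F : Fam m J) (A : F.Ω → Prop), S₁.St τ J F A → S.St τ J F A)
    {U U' : Type} {Q : Qt m U} {Q' : Qt m U'} {e η h' : ℝ}
    (hF : F1 S₁ (fun J F => ptr F J) (vg t) (fun _ F => F.T) Q Q' e η)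
    (hh : 0 < h') : ∃ S' : PCl m, S'.Ne ∧
      (∀ (τ : ℝ) (J : ℕ) (F : Fam m J) (A : F.Ω → Prop), S'.St τ J F A → S.St τ J F A) ∧
      ∀ (Kf : ℕ) (cF : ℝ), 0 < cF → Bas S' (fun J F A => ∃ (V : Type) (z : F.Ω → V),
        Cl2 (fun ω => ptr F J ω) (slam F ⌊t * J⌋₊) A z ∧
        ∀ B : F.Ω → Prop, Sub B A → cF * Pe F.p A ≤ Pe F.p B → ∀ u u',
          Q.P Kf e J F B u → Q'.P Kf e J F B u' →
          CH (Pool.Agent.H49.Ent.cond F.p B True) u' (fun ω => (u ω, (z ω, F.T ω))) ≤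
            (η + h') * J) := by
  have hM : Bas S (fun J F A => (cnt F.p (ptr F J) A : ℝ) ≤ Real.exp ((4 * m + 1) * J)) := by
    obtain ⟨s, d, e', K₀, N₁, hC⟩ := R.clx
    exact Bas.mono 0 hC.cnt fun J _ F A h => h J le_rfl
  obtain ⟨S', h1, h2, h3⟩ := ext_rec (S := S₁) hne
    (fun τ J F A h => R.pos τ J F A (hs τ J F A h)) (fun _ _ F => PtT F)
    (fun _ _ F => LnT F) (fun _ J F => ptr F J) (fun _ => vg t) (fun _ => (4 * m + 1 : ℝ))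
    (fun _ => hM.sub hs)
  obtain ⟨ρ, hρ⟩ := h3 0
  refine ⟨S', h1, fun τ J F A h => hs τ J F A (h2 τ J F A h), fun Kf cF hcF => ?_⟩
  have hF' : F1 S' (fun J F => ptr F J) (vg t) (fun _ F => F.T) Q Q' e η := fun K =>
    (hF K).sub h2
  exact f1_row (fun τ J F A h => R.pos τ J F A (hs τ J F A (h2 τ J F A h))) hF' hρ hh hcF Kf

/-- **The class of the first jets.** -/
theorem u_f1 (R : RecG S al g₀ P₀ θ P₂ θ₂ Eb e₂ c Pt r h K₀ g L T Sl κ G S₀ N₀ A V S₂ N' V' K ε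
    q t) {Φ : Stat m}
    {hΦ : ∀ (J : ℕ) (F : Fam m J) (A B : F.Ω → Prop), Sub B A → Φ J F A → Φ J F B} {K₂ : ℝ}
    (hbas : Bas S (fun J F A => ∃ B : F.Ω → Prop, Sub B A ∧ Pe F.p A ≤ K₂ * Pe F.p B ∧ Φ J F B))
    {U U' : Type} {Q : Qt m U} {Q' : Qt m U'} {e η h' : ℝ}
    (hF : F1 (rstC S Φ hΦ) (fun J F => ptr F J) (vg t) (fun _ F => F.T) Q Q' e η)
    (hh : 0 < h') : ∃ S' : PCl m, S'.Ne ∧
      (∀ (τ : ℝ) (J : ℕ) (F : Fam m J) (A : F.Ω → Prop), S'.St τ J F A → S.St τ J F A) ∧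
      ∀ (Kf : ℕ) (cF : ℝ), 0 < cF → Bas S' (fun J F A => ∃ (V : Type) (z : F.Ω → V),
        Cl2 (fun ω => ptr F J ω) (slam F ⌊t * J⌋₊) A z ∧
        ∀ B : F.Ω → Prop, Sub B A → cF * Pe F.p A ≤ Pe F.p B → ∀ u u',
          Q.P Kf e J F B u → Q'.P Kf e J F B u' →
          CH (Pool.Agent.H49.Ent.cond F.p B True) u' (fun ω => (u ω, (z ω, F.T ω))) ≤
            (η + h') * J) :=
  u_f1s R (rst_ne hbas R.ne) rst_sub hF hh

end Pool.STA37
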