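import Pool.Agent.H37.STA.Sud
import Pool.Agent.H13.EJ.Fal
import Pool.Agent.H98.STB.Vb

/-!
# The class theorem of a static place over two places of slope one

`su_void`: in a class with the thresholds, the fullness of the two first places, freeness of their
velocities and a row of few bits of the velocity of the place 2, an event with the data `SuE`, `FaE`
and the numbers `SuV`, `SuG` on every event of a subclass is impossible.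
-/

set_option autoImplicit false

namespace Pool.STA37

open Finset Real MvPolynomial
open Pool.Agent.H49.Ent Pool.Agent.H32.Dense Pool.STK Pool.KA Pool.KSAT Pool.K2S Pool.PB Pool.S6C
open Pool.GEN Pool.CHT Pool.RCD Pool.D2F Pool.CHX Pool.D2Con Pool.D2A
open Pool.STB (V3 Po Bx Hb cv cl_earlier PosR cnt_int cg VbT p2 lg_le ChH mu_num two_le_rpow
  vb_lev)
open Pool.STB65 (InpP InpF PosO JetO nu nu_pos Rs Rs_pos grd_bx xD pD jet_evE pos_ev se)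
open Pool.STB82 (yv hgP Fst WinN cond_pos_B chh_pos LevN)
open Pool.LA91 (jet ojet qJet qJets qG Mx FulC)
open Pool.RCD (vg)
open Pool.LBT (ThrOf)
open Pool.FLF (Fam.sub)

variable {m : ℕ}

/-- A finest closed function is maximal. -/
theorem mx_fst {J : ℕ} {F : Fam m J} {A : F.Ω → Prop} {w : ℝ} {u : ℕ} {k₂ : ℝ} (hk : 0 ≤ k₂)
    (hw : ⌊w * J⌋₊ = u) {V : Type} {z : F.Ω → V} (h : Fst (slam F u) (fun ω => ptr F J ω) A z) :
    Mx (fun J F => ptr F J) (vg w) k₂ F A z := by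
  have e : (vg w J F : F.Ω → LnT F) = slam F u := by
    funext ω
    unfold vg
    rw [hw]
  refine ⟨⟨h.cl.2, by rw [e]; exact h.cl.1⟩, fun V' z' hz' => ?_⟩
  rw [e] at hz'
  have h0 := Pool.Agent.H49.Ent.cond_nonneg F.isLaw.nonneg A True
  rw [CH_eq_zero h0 (fun ω ω' hω hω' hzz => h.fin V' z' ⟨hz'.2, hz'.1⟩ ω ω' (cond_pos_B hω)
    (cond_pos_B hω') hzz)]
  positivity

theorem rp_half (M : ℕ) : (M : ℝ) ^ (1 / 100 : ℝ) ≤ (M : ℝ) ^ (1 / 2 : ℝ) := by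
  rcases Nat.eq_zero_or_pos M with h | h
  · rw [h]
    simp only [Nat.cast_zero]
    rw [Real.zero_rpow (by norm_num), Real.zero_rpow (by norm_num)]
  · exact Real.rpow_le_rpow_of_exponent_le (by exact_mod_cast h) (by norm_num)

theorem mul_down {mu u v X : ℝ} (hu : 0 ≤ u) (huv : u ≤ v) (hX : 0 ≤ X) (h : mu * v ≤ X) :
    mu * u ≤ X := by
  rcases le_or_gt 0 mu with h1 | h1
  · exact (mul_le_mul_of_nonneg_left huv h1).trans h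
  · exact (mul_nonpos_of_nonpos_of_nonneg h1.le hu).trans hX

/-- **The class theorem.** -/
theorem su_void (m K b : ℕ) (hb : 3 ≤ b) (hbK : b ≤ K + 1) (hK : 1 ≤ K) :
    ∃ (n : ℕ) (A τ δ : ℝ) (Cg ne : ℕ), 0 < n ∧ 1 ≤ A ∧ 0 < τ ∧ τ ≤ 1 ∧ 0 < δ ∧
    ∀ (N : ℕ) (kr ur : ℝ), 0 < kr → 0 < ur →
    ∀ {θ : ℝ} {S S' : PCl m} (_ : ∀ (τ : ℝ) (J : ℕ) (F : Fam m J) (A : F.Ω → Prop),
        S'.St τ J F A → S.St τ J F A) {P : List (Fin m) × Fin m → ℝ → ℝ → ℝ}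
      (_ : ThrOf (chsys m θ) S P) (_ : TmH S) (_ : S'.Ne) (c : ℕ → Fin m)
      (_ : Set.InjOn c (Set.Iio 3)) {η e0 eg : ℝ} {wi ai : ℕ → ℚ} {fi : ℕ → ℝ}
      {sf : ℕ → ℕ → ℝ} (_ : 0 < θ) (_ : 0 < η)
      (_ : ∀ i < n, 0 ≤ wi i ∧ wi i ≤ 1 ∧ eg < θ * wi i ∧ bet P c 2 (wi i) (wi i) + η ≤ 1)
      (_ : ∀ i < n, 0 < ai i ∧ ai i ≤ 1 ∧ e0 < θ * ai i ∧ bet P c 0 (ai i) (ai i) + η ≤ 1 ∧
        bet P c 1 (ai i) (ai i) + η ≤ 1)
      (_ : ∀ i < n, fi i ≤ 1) (_ : ∀ i < n, FulC S c 0 2 (fi i) (sf i))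
      {tt aw bb e1 eF : ℝ} {pf : ℕ → ℝ} {pr : ℝ} {Nf : ℕ → ℕ → ℝ} {N₂ : ℝ} {Pq : Fin 2 → ℝ}
      {sn : ℕ → ℝ → ℝ} {sw : ℕ → ℝ} (_ : aw ≤ 1) (_ : FulC S c 0 2 aw sw)
      (_ : ∀ l < 2, ∀ j ≤ 1, Nf l j ≤ 1) (_ : N₂ ≤ 1) (_ : ∀ i, Pq i ≤ 1) {ρF κf : ℝ}
      (_ : 0 ≤ ρF) (_ : ρF ≤ δ * kr) (_ : 0 ≤ κf) (_ : κf ≤ δ * kr)
      (_ : ∃ k₂ : ℝ, 0 < k₂ ∧ ∀ Kf : ℕ, Bas S (fun J F A =>
        ∀ (V : Type) (z : F.Ω → V) (V' : Type) (z' : F.Ω → V'),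
        Mx (fun J F => ptr F J) (vg tt) k₂ F A z → Mx (fun J F => ptr F J) (vg aw) k₂ F A z' →
        ∀ u, (qG m c 2 sn bb Pq).P Kf eF J F A u →
        CH (Pool.Agent.H49.Ent.cond F.p A True) u (fun ω => (z ω, F.W ω)) ≤
          CH (Pool.Agent.H49.Ent.cond F.p A True) u (fun ω => (z' ω, F.W ω)) + κf * J))
      (_ : ∀ (Kf : ℕ) (cF : ℝ), 0 < cF → Bas S' (fun J F A => ∃ (V : Type) (z : F.Ω → V),
        Cl2 (fun ω => ptr F J ω) (slam F ⌊tt * J⌋₊) A z ∧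
        ∀ B : F.Ω → Prop, Sub B A → cF * Pe F.p A ≤ Pe F.p B → ∀ u u',
          (qJets m c 0 2 1 (fun _ _ => tt) (fun l _ => pf l) Nf).P Kf e1 J F B u →
          (qJet m ((range 2).image c) (c 2) 1 tt pr N₂).P Kf e1 J F B u' →
          CH (Pool.Agent.H49.Ent.cond F.p B True) u' (fun ω => (u ω, (z ω, F.T ω))) ≤ ρF * J))
      {c₀ : ℝ} (_ : 0 < c₀)
      (_ : Bas S' (fun J F A' => ∃ B : F.Ω → Prop, Sub B A' ∧ c₀ * Pe F.p A' ≤ Pe F.p B ∧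
        ∃ (t : VbT F) (f : FaT F) (ρ : ℝ), SuE F c B K n N b t ∧
          FaE F c B K t.y t.e₁' t.W₀ t.g1 t.Pl f ∧
          SuV P c n b Cg ne A τ kr ur η e0 eg wi ai fi sf t ∧
          SuG n b Cg tt aw bb e1 eF pf pr Nf N₂ Pq sn sw t f ρ)), False := by
  classical
  have hl2 : 0 < Real.log 2 := Real.log_pos one_lt_two
  obtain ⟨γ, γ₀, e₀, c', R, C₀, M₀, hγ, hγ₀, hγκ, he₀, hc', hR, hC₀, hend⟩ :=
    Pool.EJ13.stbJ_false b (1 / 2) (1 / 100) hb (by norm_num) (by norm_num)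
  obtain ⟨E, E', hjet⟩ := jet_evE m (K + 1) b (by omega) (by omega) hbK
  obtain ⟨C₂, hC₂, hvel⟩ := vel_all m K b
  obtain ⟨C₃, hC₃, hnf⟩ := su_nf K b
  obtain ⟨C₄, hC₄, hpos⟩ := pos_ev (K + 1)
  obtain ⟨C₅, hC₅, hpd⟩ := pdv_bd b
  -- the integers
  obtain ⟨ne, hne⟩ : ∃ ne : ℕ, e₀ ≤ ne := exists_nat_ge e₀
  obtain ⟨n', hn'⟩ : ∃ n' : ℕ, 2 * ((3 + (se b).card : ℕ) : ℝ) / e₀ ≤ n' := exists_nat_ge _
  obtain ⟨n, hnd⟩ : ∃ n, n = n' + 1 := ⟨_, rfl⟩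
  have hn0 : 0 < n := by omega
  have hncard : 2 * ((3 + (se b).card : ℕ) : ℝ) ≤ e₀ * n := by
    have h1 : 2 * ((3 + (se b).card : ℕ) : ℝ) / e₀ ≤ n := by
      rw [hnd]
      push_cast at hn' ⊢
      linarith
    rw [div_le_iff₀ he₀] at h1
    linarith
  obtain ⟨R', hR'd⟩ : ∃ R', R' = max R 1 := ⟨_, rfl⟩
  have hR'1 : 1 ≤ R' := hR'd ▸ le_max_right _ _
  have hR'R : R ≤ R' := hR'd ▸ le_max_left _ _
  have hR'0 : 0 < R' := by linarith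
  obtain ⟨nn, hnn⟩ : ∃ nn : ℕ, R' / 2 ^ nn ≤ 1 / 100 := by
    obtain ⟨nn, h⟩ := pow_unbounded_of_one_lt (100 * R') (one_lt_two (α := ℝ))
    refine ⟨nn, ?_⟩
    rw [div_le_iff₀ (by positivity)]
    linarith
  obtain ⟨q, hq⟩ : ∃ q : ℕ, q = E + E' + 4 * b + 30 := ⟨_, rfl⟩
  obtain ⟨A, hA⟩ : ∃ A : ℝ, A = 400000 * (R' + b + nn + 1) * q := ⟨_, rfl⟩
  have hb0 : (0 : ℝ) ≤ b := Nat.cast_nonneg _
  have hnn0 : (0 : ℝ) ≤ nn := Nat.cast_nonneg _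
  have hq30 : (30 : ℝ) ≤ q := by
    rw [hq]
    push_cast
    have h1 : (0 : ℝ) ≤ E := Nat.cast_nonneg _
    have h2 : (0 : ℝ) ≤ E' := Nat.cast_nonneg _
    linarith
  have hA1 : 400000 * (R' + b + nn + 1) ≤ A := by
    rw [hA]
    nlinarith
  have hqA : (q : ℝ) ≤ A := by
    rw [hA]
    nlinarith
  have hA30 : (30 : ℝ) ≤ A := hq30.trans hqA
  have natA : ∀ a : ℕ, a ≤ q → (a : ℝ) ≤ A := fun a ha => le_trans (by exact_mod_cast ha) hqA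
  obtain ⟨τ, hτ⟩ : ∃ τ : ℝ, τ = min (min γ (min γ₀ e₀)) (1 / 2) := ⟨_, rfl⟩
  have hτ0 : 0 < τ := by
    rw [hτ]
    exact lt_min (lt_min hγ (lt_min hγ₀ he₀)) (by norm_num)
  have hτ2 : τ ≤ 1 / 2 := hτ ▸ min_le_right _ _
  have hτ1 : τ ≤ 1 := by linarith
  have hτγ : τ ≤ γ := by
    rw [hτ]
    exact (min_le_left _ _).trans (min_le_left _ _)
  have hτγ₀ : τ ≤ γ₀ := by
    rw [hτ]
    exact (min_le_left _ _).trans ((min_le_right _ _).trans (min_le_left _ _))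
  have hτe : τ ≤ e₀ := by
    rw [hτ]
    exact (min_le_left _ _).trans ((min_le_right _ _).trans (min_le_right _ _))
  obtain ⟨δ₀, hδ₀⟩ : ∃ δ₀ : ℝ, δ₀ = 1 / (40000 * R') := ⟨_, rfl⟩
  have hδ₀0 : 0 < δ₀ := by rw [hδ₀]; positivity
  obtain ⟨cc, hcc⟩ : ∃ cc : ℝ, cc = 1 / (100 * R') := ⟨_, rfl⟩
  have hcc0 : 0 < cc := by rw [hcc]; positivity
  obtain ⟨c₁, hc₁⟩ : ∃ c₁ : ℝ, c₁ = min c' (cc / 200) := ⟨_, rfl⟩
  have hc₁0 : 0 < c₁ := by rw [hc₁]; exact lt_min hc' (by positivity)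
  refine ⟨n, A, τ, δ₀ / 2, q, ne + 1, hn0, by linarith, hτ0, hτ1, by positivity, ?_⟩
  intro N kr ur hkr hur
  obtain ⟨C₁, hC₁, hjetN⟩ := hjet N
  intro θ S S' hsub P hP hS hSn c hc η e0 eg wi ai fi sf hθ hη hwi hai hfi hful tt aw bb e1 eF pf pr
    Nf N₂ Pq sn sw haw hfulw hNf hN₂ hPq ρF κf hρF0 hρF hκf0 hκf hfree hF c₀ hc₀ hev
  obtain ⟨k₂, hk₂, hfree⟩ := hfree
  -- the constants of the class
  obtain ⟨C₆, hC₆, hchh⟩ := chh_pos hP hS c K n hn0 ai (e₀ := e0) (h := η)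
    (ε := τ * kr * Real.log 2 / 4) (c₁ := c₁) (fun i hi => (hai i hi).1)
    (fun i hi => (hai i hi).2.1) hθ (fun i hi => (hai i hi).2.2.1) hη
    (fun i hi => (hai i hi).2.2.2.1) (fun i hi => (hai i hi).2.2.2.2) (by positivity) hc₁0
  obtain ⟨sT, hsT⟩ : ∃ sT : ℝ, sT = ur * Real.log 2 / (4 * (C₁ + C₂)) := ⟨_, rfl⟩
  have hC12 : 0 < C₁ + C₂ := by linarith
  have hsT0 : 0 < sT := by
    rw [hsT]
    positivity
  obtain ⟨εL, hεL⟩ : ∃ εL : ℝ, εL = δ₀ / 2 * kr := ⟨_, rfl⟩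
  have hεL0 : 0 < εL := by rw [hεL]; positivity
  have hlow := Bas.all n fun i hi => low_cls hS (hfi i hi) (hful i hi) hεL0
  have hloww := low_cls hS haw hfulw hεL0
  obtain ⟨Kf, hKf⟩ : ∃ Kf : ℕ, Kf = b * K + K + b + (E' + 2 * b + 9) + 5 := ⟨_, rfl⟩
  obtain ⟨c₃, hc₃⟩ : ∃ c₃ : ℝ, c₃ = c₀ / (16 * 2 ^ n) := ⟨_, rfl⟩
  have hn2 : (1 : ℝ) ≤ 2 ^ n := one_le_pow₀ one_le_two
  have hc₃0 : 0 < c₃ := by rw [hc₃]; positivity
  have hc₃c : c₃ * (16 * 2 ^ n) = c₀ := by rw [hc₃]; field_simp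
  have hstb := Bas.all n fun i hi => hend m θ S P hP c 2 (b * (K + 1) + K) (wi i) (wi i) eg η
    (1 / c₃) (hwi i hi).1 le_rfl (hwi i hi).2.1 (hwi i hi).2.2.1 hη (hwi i hi).2.2.2 (by positivity)
  -- large numbers
  obtain ⟨c₂, hc₂⟩ : ∃ c₂ : ℕ, C₁ * (n + 1) + C₂ + C₃ + C₄ + C₅ + C₆ + C₀ ≤ (2 : ℝ) ^ c₂ :=
    (pow_unbounded_of_one_lt _ one_lt_two).imp fun _ h => h.le
  obtain ⟨N₁, hN₁⟩ : ∃ N₁ : ℕ, N₁ = 108 * n + 112 + c₂ + M₀ := ⟨_, rfl⟩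
  obtain ⟨J₁, hJ₁⟩ := exists_nat_ge (((N₁ : ℝ) + 2) / ur)
  obtain ⟨J₂, hJ₂⟩ := exists_nat_ge (((N₁ : ℝ) + 2) / kr)
  obtain ⟨J₃, hJ₃⟩ := exists_nat_ge (4 * ((C₁ + C₂) + Real.log 2) / (ur * Real.log 2))
  obtain ⟨J₄, hJ₄⟩ := exists_nat_ge (4 * (Real.log 3 + τ * Real.log 2) / (τ * kr * Real.log 2))
  obtain ⟨J₅, hJ₅⟩ : ∃ J₅ : ℕ, J₅ = max (max J₁ J₂) (max J₃ J₄) + 1 := ⟨_, rfl⟩
  have hc₃cc : 0 < c₃ * cc := by positivity
  have hall := (((Pool.LBK.Bas.ev ((hchh.and (hlow.and hloww)).and (hfree Kf)) hc₃cc).sub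
    hsub).and ((Pool.LBK.Bas.ev (hS.2 sT hsT0) hc₃0).sub hsub)).and
    (((hF Kf (c₃ * cc) hc₃cc).and (hstb.sub hsub)).and hev)
  obtain ⟨τ', hτ', J₆, hfin⟩ := hall
  obtain ⟨J, hJm, F, A', hA'⟩ := hSn τ' hτ' (max J₅ J₆)
  have hJ : J₅ ≤ J := (le_max_left _ _).trans hJm
  have hPA : 0 < Pe F.p A' := hS.1 τ' J F A' (hsub _ _ _ _ hA')
  obtain ⟨⟨hX, hTm⟩, ⟨⟨VF, zF, hzF, hrow⟩, hEnd⟩, B, hBA, hPB, t, f, ρ, hE, hFa, hV, hG⟩ :=
    hfin J ((le_max_right _ _).trans hJm) F A' hA'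
  clear hfin
  have hPB0 : 0 < Pe F.p B := lt_of_lt_of_le (by positivity) hPB
  -- the size of `J`
  have c1 : ((J₁ : ℕ) : ℝ) ≤ J := by exact_mod_cast (show J₁ ≤ J by omega)
  have c2 : ((J₂ : ℕ) : ℝ) ≤ J := by exact_mod_cast (show J₂ ≤ J by omega)
  have c3 : ((J₃ : ℕ) : ℝ) ≤ J := by exact_mod_cast (show J₃ ≤ J by omega)
  have c4 : ((J₄ : ℕ) : ℝ) ≤ J := by exact_mod_cast (show J₄ ≤ J by omega)
  have hJn : 1 ≤ J := by omega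
  have hJ1 : (1 : ℝ) ≤ J := by exact_mod_cast hJn
  have hJ0 : (0 : ℝ) < J := by linarith
  have d1 : (N₁ : ℝ) + 2 ≤ ur * J := by
    have := hJ₁.trans c1
    rwa [div_le_iff₀ hur, mul_comm] at this
  have d2 : (N₁ : ℝ) + 2 ≤ kr * J := by
    have := hJ₂.trans c2
    rwa [div_le_iff₀ hkr, mul_comm] at this
  have hyu : ur * J < t.y + 1 := by rw [hV.yJ]; exact Nat.lt_floor_add_one _
  have hku := hV.kJ
  have hyN : N₁ ≤ t.y := by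
    have : (N₁ : ℝ) ≤ t.y := by linarith
    exact_mod_cast this
  have hkN : N₁ ≤ t.k := by
    have : (N₁ : ℝ) ≤ t.k := by linarith
    exact_mod_cast this
  have hCy : C₁ * (n + 1) + C₂ + C₃ + C₄ + C₅ + C₆ + C₀ ≤ 2 ^ t.y := hc₂.trans (p2 (by omega))
  have hn1 : (1 : ℝ) ≤ n := by exact_mod_cast hn0
  have hC1n : C₁ ≤ C₁ * (n + 1) := le_mul_of_one_le_right (by linarith) (by linarith)
  have hC1n0 : 0 ≤ C₁ * ((n : ℝ) + 1) := by linarith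
  have y1 : C₁ * (n + 1) ≤ 2 ^ t.y := by linarith
  have y2 : C₁ ≤ 2 ^ t.y := by linarith
  have y3 : C₃ ≤ 2 ^ t.y := by linarith
  have y4 : C₄ ≤ 2 ^ t.y := by linarith
  have y5 : C₅ ≤ 2 ^ t.y := by linarith
  have y6 : C₆ ≤ 2 ^ t.y := by linarith
  have y0 : C₀ ≤ 2 ^ t.y := by linarith
  have H := hV.H
  have kb : ∀ a b' c' : ℕ, a ≤ q → b' ≤ q → c' ≤ q → a * t.y + b' * t.x + c' ≤ t.k :=
    fun a b' c' ha hb' hc' => Pool.STB6.lin_nat H hτ1 (le_refl _) (natA a ha) (natA b' hb')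
      (natA c' hc')
  have hyk : 2 * t.y + 3 ≤ t.k := by
    have := kb 2 0 3 (by omega) (by omega) (by omega)
    omega
  have hyb : t.y * (b + 1) + 2 ≤ t.k := by
    have := kb (b + 1) 0 2 (by omega) (by omega) (by omega)
    have h1 : (b + 1) * t.y = t.y * (b + 1) := Nat.mul_comm _ _
    omega
  -- sizes
  have hlast := hV.J1 (n - 1) (by omega)
  have hnk : t.k + (n - 1) * t.k + t.k = t.k + n * t.k := by
    have h1 : (n - 1) * t.k + t.k = n * t.k := by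
      rw [hnd]
      simp only [Nat.add_sub_cancel]
      ring
    omega
  rw [hnk] at hlast
  have hWJy : t.y + (t.W₀ + t.k + n * t.k) ≤ J := by
    have := hV.Wg
    have := hV.e2y
    omega
  have hWJ : t.W₀ + t.k + n * t.k ≤ J := by omega
  have hyJ : t.y ≤ J := by omega
  have hWiJ : ∀ i < n, t.W₀ + t.k + i * t.k + t.k ≤ J := by
    intro i hi
    have h1 := hV.J1 i hi
    have := hV.Wg
    omega
  -- the jets
  have hexp : (C₁ + C₂) * (sT * J + 1) ≤ t.y * Real.log 2 := by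
    have h1 : (C₁ + C₂) * (sT * J) = ur * Real.log 2 / 4 * J := by
      rw [hsT]
      field_simp
    have h2 : 4 * ((C₁ + C₂) + Real.log 2) ≤ ur * Real.log 2 * J := by
      have := hJ₃.trans c3
      rw [div_le_iff₀ (by positivity)] at this
      linarith
    have h3 : ur * J * Real.log 2 ≤ (t.y + 1) * Real.log 2 :=
      mul_le_mul_of_nonneg_right hyu.le hl2.le
    have h4 : (C₁ + C₂) * (sT * J + 1) = (C₁ + C₂) * (sT * J) + (C₁ + C₂) := by ring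
    rw [h4, h1]
    linarith only [h2, h3, hC12, hl2]
  have hsJ : 0 ≤ sT * J + 1 := by positivity
  have hexp1 : C₁ * (sT * J + 1) ≤ t.y * Real.log 2 :=
    (mul_le_mul_of_nonneg_right (by linarith) hsJ).trans hexp
  have hexp2 : C₂ * (sT * J + 1) ≤ t.y * Real.log 2 :=
    (mul_le_mul_of_nonneg_right (by linarith) hsJ).trans hexp
  have hyJr : (t.y : ℝ) * Real.log 2 ≤ ((J : ℝ) - ((t.W₀ + t.k + n * t.k : ℕ) : ℝ)) *
      Real.log 2 := by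
    refine mul_le_mul_of_nonneg_right ?_ hl2.le
    have h2 : ((t.y + (t.W₀ + t.k + n * t.k) : ℕ) : ℝ) ≤ J := by exact_mod_cast hWJy
    rw [Nat.cast_add] at h2
    linarith
  have hc₃₀ : c₃ ≤ c₀ := by
    rw [← hc₃c]
    exact le_mul_of_one_le_right hc₃0.le (by linarith)
  have hTm' := hTm B hBA (le_trans (mul_le_mul_of_nonneg_right hc₃₀ hPA.le) hPB) hPB0
  obtain ⟨B₁, ctr, xo, D₁, Jo, Ci, hB₁, hPB₁, O₁, Jt₁⟩ := hjetN F B hPB0 t.W₀ t.k t.k n (2 ^ t.y)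
    (sT * J) ((2 ^ t.y) ^ 2) (yv F c t.W₀ t.g1 t.Pl) t.yt (hgP c t.W₀ t.g1 t.Pl) t.e t.ji t.f t.f'
    t.kf hE.iP (fun _ => rfl) hE.iF hE.hji hn0 hWJ le_rfl y2
    (Pool.STB6.vn_sig (by omega)).1 (Pool.STB6.vn_sig (n := n) (by omega)).2 le_rfl
    (Pool.STB6.vn_YE H (natA E (by omega)) hτ1) (by positivity) hTm' (by
      refine hexp1.trans (hyJr.trans (mul_le_mul_of_nonneg_right ?_ hl2.le))
      push_cast
      have : (0 : ℝ) ≤ (t.k : ℝ) + n * t.k := by positivity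
      linarith) (Pool.STB6.vn_exp hexp1)
  have hPB₁0 : 0 < Pe F.p B₁ := by linarith
  -- the positions of the far data
  have hfk2 : 2 ≤ f.k := by
    have := hG.kk
    omega
  have hfJ : f.W + f.d + 1 * f.k ≤ J := by
    have h1 := hG.fJ
    have h2 : ⌊aw * J⌋₊ ≤ J := by
      refine Nat.floor_le_of_le ?_
      calc aw * J ≤ 1 * J := mul_le_mul_of_nonneg_right haw hJ0.le
        _ = J := one_mul _
    omega
  have hsig := Pool.STB6.vn_sig (n := 1) (y := t.y) (by omega)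
  obtain ⟨B₂, ctr', xo', D₁', hB₂, hPB₂, O'₂⟩ := hpos F B₁ f.W f.d f.k 1 (2 ^ t.y) ((2 ^ t.y) ^ 2)
    (yv F c f.W f.g f.Pl) f.yt (hgP c f.W f.g f.Pl) (hFa.iP.sub hB₁) hfJ hG.kd hfk2
    (one_le_pow₀ one_le_two) hsig.1 hsig.2
  have hPB₂0 : 0 < Pe F.p B₂ := by linarith
  have hE₂ := (hE.sub hB₁).sub hB₂
  have O₂ := O₁.sub hB₂
  have Jt₂ := Jt₁.sub hB₂
  have hKp1 : C₁ * 2 ^ t.y ≤ 2 ^ t.y * 2 ^ t.y := mul_le_mul_of_nonneg_right y2 (by positivity)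
  have hsum := vs_num (b := b) (by omega) (by omega : 1 ≤ t.y) y1 hKp1
  -- the velocity
  obtain ⟨B₃, hB₃, hPB₃, hve⟩ := hvel hE₂ O₂ Jt₂ (by omega) hK hWJ (by positivity)
    (by linarith) (hsum.trans (p2 hyb)) (sT * J) (by positivity)
    (fun B' hB' hP' hP0 => by
      have hBB : Sub B' A' := fun ω hω => hBA ω (hB₁ ω (hB₂ ω (hB' ω hω)))
      refine hTm B' hBB ?_ hP0
      have h1 : c₃ * (16 * 2 ^ n) * Pe F.p A' ≤ 16 * 2 ^ n * Pe F.p B' := by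
        rw [hc₃c]
        refine hPB.trans (hPB₁.trans ?_)
        linarith
      have h2 : (0 : ℝ) < 16 * 2 ^ n := by positivity
      by_contra h3
      have h4 : Pe F.p B' < c₃ * Pe F.p A' := not_le.1 h3
      have h5 := mul_lt_mul_of_pos_left h4 h2
      linarith) hPB₂0 (hexp2.trans hyJr)
  have hBA₃ : Sub B₃ A' := fun ω hω => hBA ω (hB₁ ω (hB₂ ω (hB₃ ω hω)))
  have hPA₃ : c₃ * Pe F.p A' ≤ Pe F.p B₃ := by
    have h1 : c₃ * (16 * 2 ^ n) * Pe F.p A' ≤ 16 * 2 ^ n * Pe F.p B₃ := by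
      rw [hc₃c]
      refine hPB.trans (hPB₁.trans ?_)
      linarith
    have h2 : (0 : ℝ) < 16 * 2 ^ n := by positivity
    by_contra h3
    have h4 : Pe F.p B₃ < c₃ * Pe F.p A' := not_le.1 h3
    have h5 := mul_lt_mul_of_pos_left h4 h2
    linarith
  have hPB₃0 : 0 < Pe F.p B₃ := lt_of_lt_of_le (by positivity) hPA₃
  obtain ⟨Kp, hKp⟩ : ∃ Kp, Kp = C₁ * (2 : ℝ) ^ t.y := ⟨_, rfl⟩
  obtain ⟨Kc, hKc⟩ : ∃ Kc, Kc = C₁ * ((n : ℝ) + 1) := ⟨_, rfl⟩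
  obtain ⟨Ex, hEx⟩ : ∃ Ex, Ex = Real.exp (C₂ * (sT * J + 1)) := ⟨_, rfl⟩
  obtain ⟨Ve, hVe⟩ : ∃ Ve, Ve = Ex * Kc * (Kc + Kp + 2 + 2 ^ (t.y * (b + 1))) := ⟨_, rfl⟩
  rw [← hKp] at O₂ hKp1 hsum hve
  rw [← hKc] at Jt₂ y1 hC1n0 hve hsum
  rw [← hEx] at hve
  have hEx0 : 0 ≤ Ex := by rw [hEx]; positivity
  have hExy : Ex ≤ 2 ^ t.y := hEx ▸ Pool.STB6.vn_exp hexp2
  have hKp0 : 0 ≤ Kp := by rw [hKp]; positivity
  have hVe0 : 0 ≤ Ve := by rw [hVe]; positivity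
  have hVe1 : Ve + 1 ≤ 2 ^ (t.y * (b + 3) + 4) :=
    hVe ▸ ve_num (by omega) (by omega) hExy hEx0 y1 hC1n0 hKp1 hKp0
  have hD : SuD F c B₃ K n N b E E' t f Kp (C₄ * 2 ^ t.y + 7) Kc Ve ctr xo ctr' xo' D₁ D₁' Jo Ci _ :=
    ⟨hE₂.sub hB₃, O₂.sub hB₃, Jt₂.sub hB₃, ((hFa.sub hB₁).sub hB₂).sub hB₃, O'₂.sub hB₃,
      fun i hi ω hω => by
        refine (hve i hi ω hω).trans (le_of_eq ?_)
        rw [hVe]
        ring⟩
  have hN : SuN n b E E' t f ρ N₂ Nf Pq sf sw ⌊aw * J⌋₊ := sun_of hV hG hWJ haw (by omega) (by omega)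
  -- the rows of the parts
  have hM : Real.log (((2 ^ t.k : ℕ) : ℝ)) = t.k * Real.log 2 := Pool.STB6.rp_log t.k
  have hk1 : (1 : ℝ) ≤ t.k := by exact_mod_cast (by omega : 1 ≤ t.k)
  have hδk : ∀ u : ℝ, 0 ≤ u → u ≤ δ₀ / 2 * kr → u * J ≤ δ₀ * t.k := fun u _ hu => by
    have h1 : u * J ≤ δ₀ / 2 * kr * J := mul_le_mul_of_nonneg_right hu hJ0.le
    have h2 : δ₀ / 2 * (kr * J) ≤ δ₀ / 2 * (2 * t.k) :=
      mul_le_mul_of_nonneg_left (by linarith) (by positivity)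
    linarith
  have hr0 : 0 ≤ εL * J := by positivity
  have hcm : c₃ * cc * Pe F.p A' ≤ cc * Pe F.p B₃ := by
    have h1 := mul_le_mul_of_nonneg_left hPA₃ hcc0.le
    linarith
  have hcc1 : cc ≤ 1 := by
    rw [hcc, div_le_one (by positivity)]
    linarith
  have key : ∀ A₀ : F.Ω → Prop, Sub A₀ B₃ → cc * Pe F.p B₃ ≤ Pe F.p A₀ →
      (∀ i < n, LowP F A₀ c (sf i) (t.W₀ + t.k + i * t.k + t.k) (εL * J)) ∧
      LowP F A₀ c (sf 0) (t.W₀ + t.k) (εL * J) ∧ LowP F A₀ c sw ⌊aw * J⌋₊ (εL * J) ∧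
      (∀ (V : Type) (z : F.Ω → V) (V' : Type) (z' : F.Ω → V'),
        Fst (slam F (t.W₀ + t.k)) (fun ω => ptr F J ω) A₀ z →
        Fst (slam F ⌊aw * J⌋₊) (fun ω => ptr F J ω) A₀ z' →
        CH (Pool.Agent.H49.Ent.cond F.p A₀ True) (ul c f Pq) (fun ω => (z ω, F.W ω)) ≤
          CH (Pool.Agent.H49.Ent.cond F.p A₀ True) (ul c f Pq) (fun ω => (z' ω, F.W ω)) +
            κf * J) ∧
      CH (Pool.Agent.H49.Ent.cond F.p A₀ True) (upi c t E' b ctr Ci N₂)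
        (fun ω => (uj F c f.W f.g f.Pl (ctr' 0) Nf ω, (zF ω, F.T ω))) ≤ ρF * J := by
    intro A₀ hA₀ hP₀
    have hS₀ : Sub A₀ A' := fun ω hω => hBA₃ ω (hA₀ ω hω)
    obtain ⟨⟨-, hlo, hlw⟩, hfr⟩ := hX A₀ hS₀ (hcm.trans hP₀)
    refine ⟨fun i hi => (hlo i hi).2 _ (hV.Wf i hi), (hlo 0 hn0).2 _ ?_, hlw.2 _ le_rfl, ?_, ?_⟩
    · have := hV.Wf 0 hn0
      omega
    · intro V z V' z' hz hz'
      refine hfr V z V' z' (mx_fst hk₂.le hG.ttJ hz) (mx_fst hk₂.le rfl hz') _ ?_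
      refine ug_lab' hJn (hD.Ef.sub hA₀) hG.bbJ hG.bbJ' hyJ (by omega) (by omega)
        hPq (fl_le2 hG.r0) (fl_le2 hG.r1) (fun ω _ => F.dir ω (c 0))
    · refine hrow A₀ hS₀ (hcm.trans hP₀) _ _ ?_ ?_
      · refine uj_lab hJn (hD.Ef.sub hA₀) (hD.O'.sub hA₀) (by rw [hG.ttJ, hG.ht])
          (by have := hG.ht; omega) (by positivity) hyJ (by omega) (by omega) hNf ?_ ?_
          (fun ω _ => F.dir ω (c 0))
        · rw [← pow_mul]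
          have := hG.q0
          exact fl_le2 (by rw [mul_comm t.y 2]; exact this)
        · rw [← pow_mul]
          have := hG.q1
          exact fl_le2 (by rw [mul_comm t.y 2]; exact this)
      · refine up_lab hJn (hD.ev.sub hA₀) (hD.O.sub hA₀) (hD.Jt.sub hA₀) (by omega) hK hn0
          (Ve := Ve) (C := C₅) hpd (by linarith) y5 hC1n0 y1
          (fun ω hω => hD.vel 0 hn0 ω (hA₀ ω hω)) ?_ hyJ (by omega) hG.ttJ hN₂ (by omega) ?_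
          (by omega) (by omega)
        · have h1 : (2 : ℝ) ^ (t.y * (b + 3) + 4) ≤ 2 ^ t.k := p2 (by
            have := kb (b + 3) 0 4 (by omega) (by omega) (by omega)
            have h1 : (b + 3) * t.y = t.y * (b + 3) := Nat.mul_comm _ _
            omega)
          linarith
        · have h1 := hG.q2
          have h2 : (E' + 2 * b + 1 + 1) * (t.y + 1) ≤ q * (t.y + 1) :=
            Nat.mul_le_mul_right _ (by omega)
          have h3 : (E' + 2 * b + 1 + 1) * (t.y + 1) =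
            t.y * E' + 2 * t.y * b + t.y + 1 + (t.y + (E' + 2 * b + 1)) := by ring
          omega
  -- the chain
  have hfull : τ * kr * Real.log 2 / 4 * J + Real.log 3 ≤
      e₀ * Real.log (((2 ^ t.k : ℕ) : ℝ)) := by
    refine Pool.STB6.vn_full (τ := τ) ?_ hτe
    have h2 : 4 * (Real.log 3 + τ * Real.log 2) ≤ τ * kr * Real.log 2 * J := by
      have := hJ₄.trans c4
      rw [div_le_iff₀ (by positivity)] at this
      linarith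
    have h3 : τ * Real.log 2 * (kr * J) ≤ τ * Real.log 2 * (t.k + 1) :=
      mul_le_mul_of_nonneg_left hku (by positivity)
    have h4 : 0 ≤ Real.log 3 := Real.log_nonneg (by norm_num)
    have h5 : 0 ≤ τ * Real.log 2 := by positivity
    linarith only [h2, h3, h4, h5]
  have hccB : cc * Pe F.p B₃ ≤ Pe F.p B₃ := by
    have := mul_le_mul_of_nonneg_right hcc1 hPB₃0.le
    linarith
  obtain ⟨⟨hchh', -, -⟩, -⟩ := hX B₃ hBA₃ (hcm.trans hccB)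
  have hKcr : Kc = C₁ * ((n : ℝ) + 1) := hKc
  obtain ⟨i, hi, Zt, Yt, zp, y, D', x, Jz, hz, hy, hD', hxx, hJz, hCh⟩ := hchh' t.W₀ t.k t.k b t.g1
    t.e₁' t.e₂ t.x (2 * t.y + 1) (t.y + 1) (2 ^ t.y) ((2 ^ t.y) ^ 2) Kp Kc
    (((2 ^ t.k : ℕ) : ℝ) ^ e₀) ((2 ^ t.y) ^ E') ((2 ^ t.y) ^ E)
    (e₀ * Real.log (((2 ^ t.k : ℕ) : ℝ))) (-1) R' (((2 ^ t.k : ℕ) : ℝ) ^ (-γ₀)) t.Pv t.Pl t.yt
    t.f t.ji ctr xo D₁ Jo Ci _ hD.ev.iP hD.O hD.Jt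
    (hKp ▸ Pool.STB6.vn_CY' H y2 (by linarith) hτe)
    (Pool.STB6.vn_C' H y1 (by linarith) hτe) (by positivity) (by positivity) (by positivity)
    hE.Pd hE.Pp (fun ω hω => hD.ev.Pc ω hω) (fun ω hω => hD.ev.Pg ω hω)
    (Pool.STB6.vn_card (T₀ := 3 + (se b).card) hn0 (by exact_mod_cast hncard) (by omega) (by
      push_cast
      exact le_rfl)) hfull hWJ (fun i hi => vb_lev H y6 (by linarith) hτγ₀ hτ1
        (natA 9 (by omega)) (hV.Wa i hi) (hV.l0 i hi) (hV.l1 i hi) hV.Wg hV.e12 hV.e2y hV.e2J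
        (hV.J1 i hi)) (fun i hi => win_triv (fun ω hω => hD.Jt.J1 i hi ω hω _
          (hD.O.x1 i hi ω hω)) hC1n0 y1 hyk (by positivity))
  have hlog : 0 ≤ Real.log (((2 ^ t.k : ℕ) : ℝ)) := by
    rw [hM]
    positivity
  refine su_fin (A' := A') (ne := ne) (M₀ := M₀) (γ := γ) (γ₀ := γ₀) (C₀ := C₀) (c₀ := c₃)
    (β := bet P c 2 (wi i) (wi i)) (η := η) (e := eg) (w := wi i) (e₀ := e₀) (c' := c') (R := R)
    (h := 1 / 2) hc hD.ev (by omega) hBA₃ hq hC1n0 y1 hD.O hD.Jt hi (hWiJ i hi) hV.We H hqA hτ2 hτγ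
    y0 hne ?_ (by omega) (hV.gr i hi) hV.sy (hV.Wi i hi) hV.e1J (hV.gcJ i hi) (hV.pJ i hi)
    (hV.l2 i hi) hPB₃0 hc₃0 hPA₃ hxx hJz
    { hCh with gp := fun H' hH' => (hCh.gp H' hH').trans (hc₁ ▸ min_le_left _ _) } ?_ ?_
  · have := Nat.lt_two_pow_self (n := t.k)
    omega
  · intro j q' hq' hq'p
    have hη0 : (0 : ℝ) < ((2 ^ t.k : ℕ) : ℝ) ^ (-γ₀) := by positivity
    have hb1 := hnf hPB₃0 hD hN y3 hC1n0 hVe0 hVe1 hi (r := εL * J) (κ := κf * J) (r₁ := ρF * J)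
      (c₀ := cc) hcc0 (by positivity) hr0 (by positivity) (s₀ := sf 0)
      (key B₃ (fun _ h => h) hccB).2.1 (key B₃ (fun _ h => h) hccB).2.2.2.1 (z := zF)
      (by
        have h1 := hzF.sub hBA₃
        rw [hG.ttJ] at h1
        exact ⟨h1.2, h1.1⟩)
      (fun A₀ hA₀ hP₀ => by
        obtain ⟨k1, -, k3, k4, k5⟩ := key A₀ hA₀ hP₀
        exact ⟨k1 i hi, k3, k4, k5⟩) hη0 hc₁0.le hz hy hD' hxx hJz hCh (R := R') (θ := 1) hR'1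
      one_pos nn j q' hq' (fun ω => (hq'p ω).trans (mul_le_mul_of_nonneg_right hR'R
        (Pool.Agent.H49.Ent.cond_nonneg F.isLaw.nonneg B₃ True ω)))
    refine hb1.trans ?_
    have h2 := hnf_num (R := R') (c₀ := cc) (A := A) (τ := τ) (κ := κf * J) (r := εL * J)
      (r₁ := ρF * J) (Ve := Ve) (C := C₃) (Kc := Kc) (γ₀ := γ₀) (c₁ := c₁) (δ := δ₀) (b := b)
      (k := t.k) (y := t.y) (x := t.x) (nn := nn) hR'1 hcc hA1 hτ1 H hδ₀ (hδk κf hκf0 hκf)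
      (hδk εL hεL0.le hεL.le) (hδk ρF hρF0 hρF) hnn hVe0 hVe1 (by linarith) y3 hC1n0 y1 hγ₀.le hγκ
      hc₁0.le (hc₁ ▸ min_le_right _ _)
    refine h2.trans ?_
    have h3 : 0 ≤ e₀ * Real.log (((2 ^ t.k : ℕ) : ℝ)) := by positivity
    linarith
  · intro KQ w₀ e₁ p M Kv g G H' V zc zc' CG Q Λ Z Y 𝒟 zp y t D X Φ x Jz mu ε h' R'' B q a1 a2 a3
      a4 a5 a6 a7 a8 a9 a10 a11 a12 a13 a14 a15 a16 a17 a18 a19
    have hMM := rp_half M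
    have hM0 : (0 : ℝ) ≤ (M : ℝ) ^ (1 / 100 : ℝ) := by positivity
    have hM1 : (0 : ℝ) ≤ (M : ℝ) ^ e₀ := by positivity
    refine hEnd i hi KQ w₀ e₁ p M Kv g G H' V zc zc' CG Q Λ Z Y 𝒟 zp y t D X Φ x Jz mu ε h' R'' B q
      a1 a2 a3 a4 a5 a6 a7 a8 a9 a10 a11 a12 ?_ (fun l hl => ⟨(a14 l hl).1, ?_⟩) a15 a16 a17 a18
      a19
    · refine mul_down (by positivity) ?_ (by positivity) a13
      exact mul_le_mul_of_nonneg_right hMM a11.le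
    · have h1 := (a14 l hl).2
      rw [mul_assoc] at h1 ⊢
      have h2 : C₀ * (mu * (((M : ℝ) ^ e₀ + (M : ℝ) ^ (1 / 100 : ℝ)) * Λ l)) =
          mu * (C₀ * (((M : ℝ) ^ e₀ + (M : ℝ) ^ (1 / 100 : ℝ)) * Λ l)) := by ring
      have h3 : C₀ * (mu * (((M : ℝ) ^ e₀ + (M : ℝ) ^ (1 / 2 : ℝ)) * Λ l)) =
          mu * (C₀ * (((M : ℝ) ^ e₀ + (M : ℝ) ^ (1 / 2 : ℝ)) * Λ l)) := by ring
      have h4 := (a14 l hl).1
      rw [h3] at h1
      rw [h2]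
      refine mul_down (by positivity) ?_ (by positivity) h1
      refine mul_le_mul_of_nonneg_left (mul_le_mul_of_nonneg_right ?_ h4) (by linarith)
      linarith

end Pool.STA37
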