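import Pool.Agent.H37.STA.Rde
import Pool.Agent.H37.STA.Suv
import Pool.Agent.H19.FLN.F1s

/-!
# A static place over two places of slope one

`sta_f1`: the class theorem of the windows with a static place of integral slope at least three over
two places of slope one, from the first jet of the place.
-/

set_option autoImplicit false

namespace Pool.STA37

open Finset Real MvPolynomial
open Pool.Agent.H49.Ent Pool.Agent.H32.Dense Pool.STK Pool.KA Pool.KSAT Pool.K2S Pool.PB Pool.S6C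
open Pool.GEN Pool.CHT Pool.RCD Pool.D2F Pool.CHX Pool.D2Con Pool.D2A Pool.NVX
open Pool.LA91 Pool.PKG
open Pool.RCD (vg)
open Pool.STB (V3 Po Bx VbT lv_lin lv_sta box_in)

/-- **A static place over two places of slope one**, from the first jet in a subclass. -/
theorem sta_f1s {m : ℕ} (hm : 4 ≤ m) {h : ℝ} {Sl : ℕ → ℝ} {κ : ℕ → Kg} {b : ℕ} (hb : 3 ≤ b)
    (hκ0 : κ 0 = .one) (hκ1 : κ 1 = .one) (hκ2 : κ 2 = .sta) (hs2 : Sl 2 = b) {ι Λ : Type}
    {Q : PropG m ι} {Z : PropZ m Λ} (hF : F1US m 2 h Sl κ Q Z) :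
    VoidZ m h Sl κ (sumQ Q FaQ) Z := by
  classical
  intro al hal K₀ hK₀ S₀ hS₀
  obtain ⟨Kr, Nr, Ar, Vr, hKr, hAV, hF⟩ := hF al hal K₀ hK₀ S₀ hS₀
  refine ⟨max Kr 2, Nr + 1, fun k => if k < Nr then Ar k else 2,
    fun k => if k < Nr then Vr k else -1, le_max_of_le_left hKr, fun k hk => ?_, fun S₂ hS₂ => ?_⟩
  · by_cases h1 : k < Nr
    · simp only [if_pos h1]
      obtain ⟨h2, h3, h4⟩ := hAV k h1
      have := le_max_left Kr 2
      exact ⟨by linarith, h3, by linarith⟩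
    · simp only [if_neg h1]
      have := le_max_right Kr 2
      exact ⟨by linarith, by norm_num, by linarith⟩
  obtain ⟨C₀, C, C₁, C₂, Cf, K, hC₀, hCf, hbK, hK1, hbas⟩ := su_bas S₀ S₂ b hS₀ (hS₀.trans hS₂)
  obtain ⟨n, A, τ, δ, Cg, ne, hn0, hA1, hτ0, hτ1, hδ0, hvoid⟩ := su_void m K b hb hbK hK1
  have hn : (0 : ℝ) < n := by exact_mod_cast hn0
  have hb3 : (3 : ℝ) ≤ b := by exact_mod_cast hb
  obtain ⟨lam, kf, φ, hkf, hφ, K₁, Nv, Vv, hVv, hF⟩ := hF S₂ hS₂ (δ / (2 * n)) (by positivity)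
  obtain ⟨ω, ρ, R₁, hω0, hρ0, hR1, hρn, r1, r2, r3, r4, w1, w2, w3, p1, s1, ε₁, hε₁, hε₁'⟩ :=
    nu_ex b n Cg C₀ C C₁ C₂ Cf (A := A) (τ := τ) (φ := φ) hn0 (by linarith) hτ0 hφ
  have hkf0 : (0 : ℝ) ≤ kf := by
    rw [hs2] at hkf
    linarith
  obtain ⟨ν, hν⟩ : ∃ ν : ℝ, ν = kf + b + 5 := ⟨_, rfl⟩
  obtain ⟨CF, hCF⟩ := exists_nat_ge (2 * ν + 40)
  obtain ⟨Mx, hMx⟩ := exists_nat_ge (((CF : ℝ) + 30) / ρ)
  rw [div_le_iff₀ hρ0] at hMx
  have hne0 : (0 : ℝ) ≤ ne := Nat.cast_nonneg _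
  have hCg0 : (0 : ℝ) ≤ Cg := Nat.cast_nonneg _
  have hCF0 : (0 : ℝ) ≤ CF := Nat.cast_nonneg _
  have hMx0 : 0 ≤ (Mx : ℝ) * ρ := mul_nonneg (Nat.cast_nonneg _) hρ0.le
  obtain ⟨K', hK'⟩ : ∃ K' : ℝ, K' = max (max Kr 2) K₁ +
    (2 * ne + 2 * Cg + b + 10 + (CF + 40) + Mx * ρ + ν) := ⟨_, rfl⟩
  have hm1 := le_max_left (max Kr 2) K₁
  have hm2 := le_max_right (max Kr 2) K₁
  have hm3 := le_max_right Kr 2
  have hν0 : 0 ≤ ν := by
    rw [hν]
    linarith
  have hKK : max Kr 2 ≤ K' := by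
    rw [hK']
    linarith
  obtain ⟨κF, hκF0, hκF1⟩ := exists_rat_btwn (show (0 : ℝ) < δ / n by positivity)
  obtain ⟨ε₀, hε₀, hF⟩ := hF K' (by rw [hK']; linarith)
  have hnR : 1 ≤ n * R₁ := Nat.mul_pos hn0 hR1
  have hρ1 : ρ ≤ 1 := by
    have h2 : (1 : ℝ) ≤ n * R₁ := by exact_mod_cast hnR
    have h3 := mul_le_mul_of_nonneg_right h2 hρ0.le
    linarith
  refine ⟨lam, K', Nv + (Mx + 2 * n * R₁ + 1) + 1, fun k => if k < Nv then Vv k else
    if k < Nv + (Mx + 2 * n * R₁ + 1) then (((k - Nv : ℕ) : ℝ) - Mx) * ρ else ν, hKK, ?_,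
    min ε₀ ε₁, lt_min hε₀ hε₁, ?_⟩
  · intro k hk
    by_cases h1 : k < Nv
    · simp only [if_pos h1]
      have h2 := hVv k h1
      rw [hK']
      exact ⟨by linarith, by linarith⟩
    · by_cases h2 : k < Nv + (Mx + 2 * n * R₁ + 1)
      · simp only [if_neg h1, if_pos h2]
        have h3 : ((k - Nv : ℕ) : ℝ) ≤ Mx + 2 * (n * R₁) := by
          have : k - Nv ≤ Mx + 2 * (n * R₁) := by
            have e : 2 * n * R₁ = 2 * (n * R₁) := by ring
            omega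
          exact_mod_cast this
        have h4 := mul_le_mul_of_nonneg_right h3 hρ0.le
        have h5 : (0 : ℝ) ≤ ((k - Nv : ℕ) : ℝ) * ρ := mul_nonneg (Nat.cast_nonneg _) hρ0.le
        rw [hK']
        constructor <;> linarith
      · simp only [if_neg h1, if_neg h2]
        rw [hK']
        exact ⟨by linarith, by linarith⟩
  intro S g₀ P θ P₂ θ₂ Eb e₂ c Pt r L T G g hG hg hder hZ
  obtain ⟨p₀, M₀, B₀, B₁, hB, hF⟩ := hF _ (lt_min hε₀ hε₁) (min_le_left _ _) S g₀ P θ P₂ θ₂ Eb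
    e₂ c Pt r L T G g hG hg hder hZ
  refine ⟨fun j => if j < M₀ then Sum.inl (p₀ j) else Sum.inr (2, CF, 1, κF), M₀ + 2,
    fun j => if j < M₀ then B₀ j else if j = M₀ then -(CF + 13 - ν) else -(CF + 28),
    fun j => if j < M₀ then B₁ j else if j = M₀ then -(CF / 2 + 28) else -(CF + 27),
    fun j hj => ?_, fun k₀ hQ => ?_⟩
  · by_cases h1 : j < M₀
    · simp only [if_pos h1]
      exact hB j h1
    · by_cases h2 : j = M₀
      · simp only [if_neg h1, if_pos h2]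
        linarith
      · simp only [if_neg h1, if_neg h2]
        linarith
  obtain ⟨q₁, hq₁, hF⟩ := hF k₀ (fun j hj => by
    have h1 := hQ j (by omega)
    simp only [if_pos hj] at h1
    exact h1)
  refine ⟨min q₁ ((1 / 2) ^ k₀ M₀), lt_min hq₁ (by positivity), ?_⟩
  intro q t x hqq hx R
  obtain ⟨ε, hε⟩ : ∃ ε, ε = min ε₀ ε₁ := ⟨_, rfl⟩
  rw [← hε] at R hF
  have hεpos : 0 < ε := by
    rw [hε]
    exact lt_min hε₀ hε₁
  obtain ⟨e1, e2, e3⟩ := hε₁' ε hεpos (by rw [hε]; exact min_le_right _ _)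
  have hq := R.q0
  -- the points of the property
  have hxF : ∀ j < M₀, x j ∈ G ∧ t + B₀ j * q ≤ x j ∧ x j ≤ t + B₁ j * q ∧
      Q (p₀ j) (k₀ j) S P θ c Pt r L T κ G (x j) := fun j hj => by
    have h1 := hx j (by omega)
    simp only [if_pos hj] at h1
    exact h1
  have hx0 := hx M₀ (by omega)
  simp only [if_neg (lt_irrefl M₀), if_true] at hx0
  obtain ⟨-, hx1, hx2, hfa⟩ := hx0
  have hfa : FaQ (2, CF, 1, κF) (k₀ M₀) S P θ c Pt r L T κ G (x M₀) := hfa
  have hxb := hx (M₀ + 1) (by omega)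
  simp only [if_neg (show ¬ M₀ + 1 < M₀ by omega), if_neg (show ¬ M₀ + 1 = M₀ by omega)] at hxb
  obtain ⟨hbG, hb1, hb2, -⟩ := hxb
  -- the first jet
  obtain ⟨S₁, hS₁ne, hS₁, e, he, hF1⟩ := hF q t x (lt_of_lt_of_le hqq (min_le_left _ _))
    hxF _ _ _ _ _ R
    (fun k hk => ⟨k, by omega, by simp only [if_pos hk], by simp only [if_pos hk]⟩)
    (fun k hk => ⟨k, by omega, by simp only [if_pos hk]⟩)
    (fun l => L l t t - φ * q) (L 2 t t - φ * q) (fun l j => L l t t + kf * q - (j : ℕ) * t)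
    (fun l _ => ⟨le_rfl, by have := mul_pos hφ hq; linarith⟩) le_rfl
    (by have := mul_pos hφ hq; linarith) (fun l _ j _ => rfl)
  rw [hs2] at hF1
  obtain ⟨S', hS'ne, hsub, hrow⟩ := u_f1s R hS₁ne hS₁ hF1
    (show 0 < δ * q / (2 * n) by have := R.q0; positivity)
  -- the first ball
  obtain ⟨M₁, hM1, hM2, hM3, hM4⟩ := m1_ex (β := CF + 27) hq hρ0
    (show t - ((CF : ℝ) + 27 + 1) * q ≤ x (M₀ + 1) by linarith)
    (show x (M₀ + 1) ≤ t - ((CF : ℝ) + 27) * q by linarith) (by linarith)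
  have hMM : M₁ ≤ Mx := by
    have h1 : (M₁ : ℝ) * ρ ≤ Mx * ρ := by linarith
    exact_mod_cast le_of_mul_le_mul_right h1 hρ0
  have hgrid : ∀ a : ℕ, a ≤ Mx + 2 * n * R₁ → ∃ k < Nv + (Mx + 2 * n * R₁ + 1) + 1,
      (fun k : ℕ => if k < Nv then Vv k else
        if k < Nv + (Mx + 2 * n * R₁ + 1) then (((k - Nv : ℕ) : ℝ) - Mx) * ρ else ν) k =
      ((a : ℝ) - Mx) * ρ := by
    intro a ha
    refine ⟨Nv + a, by omega, ?_⟩
    have h1 : Nv + a - Nv = a := by omega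
    simp only [if_neg (show ¬ Nv + a < Nv by omega),
      if_pos (show Nv + a < Nv + (Mx + 2 * n * R₁ + 1) by omega), h1]
  have HU : LsU ρ n R₁ M₁ (Nr + 1) (fun k => if k < Nr then Ar k else 2)
      (fun k => if k < Nr then Vr k else -1) (Nv + (Mx + 2 * n * R₁ + 1) + 1)
      (fun k => if k < Nv then Vv k else
        if k < Nv + (Mx + 2 * n * R₁ + 1) then (((k - Nv : ℕ) : ℝ) - Mx) * ρ else ν) K' :=
    { grid := fun j hj => by
        obtain ⟨k, hk, hk'⟩ := hgrid (j + (Mx - M₁)) (by omega)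
        refine ⟨k, hk, hk'.trans ?_⟩
        push_cast [Nat.cast_sub hMM]
        ring
      pair := ⟨Nr, by omega, by simp only [lt_irrefl, if_false], by simp only [lt_irrefl, if_false]⟩
      ρ0 := hρ0
      ρn := hρn
      n0 := hn0
      R0 := hR1
      MR := by
        have h1 : (R₁ : ℝ) * ρ ≤ 1 := by
          have h2 : (R₁ : ℝ) ≤ n * R₁ := by
            have : R₁ ≤ n * R₁ := Nat.le_mul_of_pos_left _ hn0
            exact_mod_cast this
          have h3 := mul_le_mul_of_nonneg_right h2 hρ0.le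
          linarith
        have h2 : (R₁ : ℝ) * ρ ≤ M₁ * ρ := by linarith
        exact_mod_cast le_of_mul_le_mul_right h2 hρ0
      MK := by
        rw [hK']
        linarith
      K2 := hm3.trans hKK }
  have NU : UNu b n R₁ M₁ ne Cg C₀ C C₁ C₂ Cf A τ ω ρ ε ν φ 1 kf K' :=
    { hb := hb
      n0 := hn0
      c0 := hC₀
      cf := hCf
      A0 := by linarith
      τ0 := hτ0.le
      ω0 := hω0
      ε0 := hεpos
      e1 := e1
      e2 := e2
      e3 := e3
      r1 := r1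
      r2 := r2
      r3 := r3
      r4 := r4
      w1 := w1
      w2 := w2
      w3 := w3
      n1 := by rw [hν]; linarith
      n2 := by rw [hν]; linarith
      m1 := by linarith
      m2 := by rw [hK']; linarith
      k1 := by rw [hK']; linarith
      p1 := p1
      s1 := s1 }
  -- the free velocities
  obtain ⟨hFq, Pq, eF, hH1, hH2, heF, hPq, hP0, hP1, hfree⟩ := u_free R (by omega) hκ1 hεpos
    (by linarith) (fun k hk => hfa.free (by show 2 < m; omega) (fun l hl => by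
      have hl' : l < 2 := hl
      have : l = 0 ∨ l = 1 := by omega
      rcases this with rfl | rfl
      · exact hκ0
      · exact hκ1) (by norm_num) (by norm_num) (by exact_mod_cast hκF0) k hk) hbG hν0 hx1 hx2 hb1
    hb2 hCF (by rw [hK']; linarith) (lt_of_lt_of_le hqq (min_le_right _ _))
  -- the offsets
  have hR1n : (R₁ : ℝ) * ρ = 1 / n := by
    field_simp
    linarith
  have hoff : ∀ a : ℕ, a ≤ n → ∃ k < Nv + (Mx + 2 * n * R₁ + 1) + 1,
      (fun k : ℕ => if k < Nv then Vv k else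
        if k < Nv + (Mx + 2 * n * R₁ + 1) then (((k - Nv : ℕ) : ℝ) - Mx) * ρ else ν) k =
      (a : ℝ) / n + ρ := by
    intro a ha
    have h1 : R₁ * a ≤ n * R₁ := by
      rw [mul_comm n R₁]
      exact Nat.mul_le_mul_left _ ha
    have h2 : 2 * n * R₁ = n * R₁ + n * R₁ := by ring
    obtain ⟨k, hk, hk'⟩ := hgrid (Mx + (R₁ * a + 1)) (by omega)
    refine ⟨k, hk, hk'.trans ?_⟩
    have h3 : ((a : ℝ)) / n = a * (R₁ * ρ) := by rw [hR1n]; ring
    rw [h3]
    push_cast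
    ring
  have hobd : ∀ a : ℕ, a ≤ n → -K' ≤ (a : ℝ) / n + ρ ∧ (a : ℝ) / n + ρ ≤ 2 ∧
      0 ≤ (a : ℝ) / n + ρ := by
    intro a ha
    have h1 : (a : ℝ) / n ≤ 1 := by
      rw [div_le_one hn]
      exact_mod_cast ha
    have h2 : (0 : ℝ) ≤ a / n := by positivity
    have h3 := hm3.trans hKK
    exact ⟨by linarith, by linarith, by linarith⟩
  have hK2 : 2 ≤ K' := hm3.trans hKK
  have hcast : ∀ i : ℕ, (((i + 1 : ℕ) : ℝ)) = (i : ℝ) + 1 := fun i => by push_cast; ring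
  have hwex : ∀ i : ℕ, ∃ w : ℚ, i < n → (t + ((i : ℝ) / n + ρ) * q ≤ w ∧ (w : ℝ) ≤ 1 ∧
      ∀ l ≤ 2, bet P c l w w ≤ L l (t + ((i : ℝ) / n + ρ) * q) (t + ((i : ℝ) / n + ρ) * q) +
        ε * q) := by
    intro i
    by_cases hi : i < n
    · obtain ⟨w, hw⟩ := u_rat R (by omega) hεpos (hobd i hi.le).1 ((hobd i hi.le).2.1.trans hK2)
        (hoff i hi.le)
      exact ⟨w, fun _ => hw⟩
    · exact ⟨0, fun h => absurd h hi⟩
  have haex : ∀ i : ℕ, ∃ w : ℚ, i < n → (t + (((i : ℝ) + 1) / n + ρ) * q ≤ w ∧ (w : ℝ) ≤ 1 ∧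
      ∀ l ≤ 2, bet P c l w w ≤ L l (t + (((i : ℝ) + 1) / n + ρ) * q)
        (t + (((i : ℝ) + 1) / n + ρ) * q) + ε * q) := by
    intro i
    by_cases hi : i < n
    · have h1 := hobd (i + 1) hi
      have h2 := hoff (i + 1) hi
      rw [hcast] at h1 h2
      obtain ⟨w, hw⟩ := u_rat R (by omega) hεpos h1.1 (h1.2.1.trans hK2) h2
      exact ⟨w, fun _ => hw⟩
    · exact ⟨0, fun h => absurd h hi⟩
  choose wi hwi using hwex
  choose ai hai using haex
  have WD : UWd L P c n M₁ t q ρ ε ν wi ai (x (M₀ + 1)) Pq e eF hFq :=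
    { w1 := fun i hi => (hwi i hi).1
      w2 := fun i hi => (hwi i hi).2.2 2 le_rfl
      a1 := fun i hi => (hai i hi).1
      a2 := fun i hi l hl => (hai i hi).2.2 l hl.le
      b1 := hM1
      b2 := hM2
      P0 := hP0
      P1 := hP1
      e1 := he
      eF := heF
      hF := hH1 }
  obtain ⟨c₀, hc₀, hev⟩ := hbas R (by omega) hκ1 hκ2 hs2 HU NU hkf0 WD
  -- the bounds at the windows
  have RT := R.tg 2 (by norm_num) (by omega)
  obtain ⟨hP2, hθ2⟩ := R.tgl 2 (by norm_num) (by omega)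
  have hK'q : 0 ≤ K' * q := by positivity
  have ht0 : 0 < t := by
    have := R.t0
    linarith
  have ht1 : t < 1 := by
    have := R.t1
    linarith
  have hwb : ∀ a : ℕ, a ≤ n → |t + ((a : ℝ) / n + ρ) * q - t| ≤ K' * q ∧
      0 < t + ((a : ℝ) / n + ρ) * q ∧ t + ((a : ℝ) / n + ρ) * q < 1 := fun a ha =>
    box_in R (hobd a ha).1 ((hobd a ha).2.1.trans hK2)
  have hk9 : (2 * ne + 2 * Cg + b + 5) * q ≤ 3 * K' * q := by
    refine mul_le_mul_of_nonneg_right ?_ hq.le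
    rw [hK']
    linarith
  have hEe : Eb 2 + (2 * ne + 2 * Cg + b + 5) * q < e₂ 2 := by
    have := RT.Ebe
    linarith
  have hεK : 2 * (ε * q) ≤ 3 * K' * q := by
    have : 2 * ε * q ≤ 3 * K' * q := mul_le_mul_of_nonneg_right (by linarith) hq.le
    linarith
  have hroom : ∀ l ≤ 2, ∀ y : ℝ, |y - t| ≤ K' * q → L l y y + Eb 2 + 3 * K' * q < 1 :=
    fun l hl y hy => RT.room l hl y hy
  have hEb := RT.Eb0
  have htt : |t - t| ≤ K' * q := by rw [sub_self, abs_zero]; exact hK'q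
  have hFulx : ∀ y ∈ G, FulC S c 0 2 y (fun i => L i y y) := by
    intro y hy
    obtain ⟨u₁, rd, -, hch⟩ := (hfa.ch 2 (by omega)).ch y hy
    exact hch.ful
  have hνG : t + ν * q ∈ G := by
    have h1 := R.memG.2 (Nv + (Mx + 2 * n * R₁ + 1)) (by omega)
    simp only [if_neg (show ¬ Nv + (Mx + 2 * n * R₁ + 1) < Nv by omega), lt_irrefl,
      if_false] at h1
    exact h1
  have hfG : ∀ i < n, t + (((i : ℝ) + 1) / n + ρ) * q ∈ G := by
    intro i hi
    obtain ⟨k, hk, hk'⟩ := hoff (i + 1) hi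
    have h1 := R.memG.2 k hk
    beta_reduce at hk' h1
    rw [hk', hcast] at h1
    exact h1
  have hνK : ν ≤ K' := by
    rw [hK']
    linarith
  have hνb := box_in R (o := ν) (by linarith) hνK
  refine hvoid (R₁ + 2 * n * R₁) (q / n) (ω * q) (by positivity) (by positivity) hsub R.thr R.tmh
    hS'ne c (R.inj.mono (Set.Iio_subset_Iio (by omega))) (η := ε * q) R.th0 (by positivity)
    (fun i hi => ?_) (fun i hi => ?_) (fun i hi => ?_) (fun i hi => hFulx _ (hfG i hi))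
    hνb.2.2.le (hFulx _ hνG) (fun l hl j hj => ?_) ?_ hPq (ρF := δ / (2 * n) * q + δ * q / (2 * n))
    (κf := κF * hFq) (by positivity) ?_ ?_ ?_ hfree hrow hc₀ (hev.sub hsub)
  · -- the window of the target
    obtain ⟨h1, h2, h3⟩ := hwi i hi
    have hb1 := hwb i hi.le
    have hw0 : (0 : ℝ) < wi i := by linarith [hb1.2.1]
    refine ⟨by exact_mod_cast hw0.le, by exact_mod_cast h2, ?_, ?_⟩
    · have h4 := RT.eθ _ hb1.1
      rw [hθ2] at h4
      have h5 := mul_le_mul_of_nonneg_left h1 R.th0.le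
      linarith
    · have h4 := h3 2 le_rfl
      have h5 := hroom 2 le_rfl _ hb1.1
      linarith
  · obtain ⟨h1, h2, h3⟩ := hai i hi
    have hb1 := hwb (i + 1) hi
    rw [hcast] at hb1
    have hw0 : (0 : ℝ) < ai i := by linarith [hb1.2.1]
    refine ⟨by exact_mod_cast hw0, by exact_mod_cast h2, ?_, ?_, ?_⟩
    · have h4 := RT.eθ _ hb1.1
      rw [hθ2] at h4
      have h5 := mul_le_mul_of_nonneg_left h1 R.th0.le
      linarith
    · have h4 := h3 0 (by norm_num)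
      have h5 := hroom 0 (by norm_num) _ hb1.1
      linarith
    · have h4 := h3 1 (by norm_num)
      have h5 := hroom 1 (by norm_num) _ hb1.1
      linarith
  · have hb1 := hwb (i + 1) hi
    rw [hcast] at hb1
    exact hb1.2.2.le
  · have h1 := hroom l (by omega) t htt
    have h2 : 0 ≤ (j : ℝ) * t := mul_nonneg (Nat.cast_nonneg _) ht0.le
    have h3 : kf * q ≤ 3 * K' * q := mul_le_mul_of_nonneg_right (by
      have : kf ≤ ν := by rw [hν]; linarith
      linarith) hq.le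
    linarith
  · have h1 := hroom 2 le_rfl t htt
    have h3 : ((b : ℝ) - 1) * q ≤ 3 * K' * q := mul_le_mul_of_nonneg_right (by
      have : (b : ℝ) ≤ ν := by rw [hν]; linarith
      linarith) hq.le
    linarith
  · apply le_of_eq
    field_simp
    ring
  · exact mul_nonneg hκF0.le (by linarith)
  · calc (κF : ℝ) * hFq ≤ δ / n * hFq := mul_le_mul_of_nonneg_right hκF1.le (by linarith)
      _ ≤ δ / n * q := mul_le_mul_of_nonneg_left hH2 (by positivity)
      _ = δ * (q / n) := by ring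

/-- **A static place over two places of slope one.** -/
theorem sta_f1 {m : ℕ} (hm : 4 ≤ m) {h : ℝ} {Sl : ℕ → ℝ} {κ : ℕ → Kg} {b : ℕ} (hb : 3 ≤ b)
    (hκ0 : κ 0 = .one) (hκ1 : κ 1 = .one) (hκ2 : κ 2 = .sta) (hs2 : Sl 2 = b) {ι Λ : Type}
    {Q : PropG m ι} {Z : PropZ m Λ} (hF : F1UZ m 2 h Sl κ Q Z) :
    VoidZ m h Sl κ (sumQ Q FaQ) Z :=
  sta_f1s hm hb hκ0 hκ1 hκ2 hs2 hF.s

end Pool.STA37
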