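import Pool.Agent.H98.STB.Ree

/-!
# The data of the refutation for the target `c 2`

`re_ofU`: as `re_of`, for the target `c 2` over the two first coordinates, at a window `U` behind the
window of the data.
-/

set_option autoImplicit false

namespace Pool.STA37

open Finset Real MvPolynomial
open Pool.Agent.H49.Ent Pool.Agent.H32.Dense Pool.STK Pool.KA Pool.KSAT Pool.K2S Pool.PB Pool.S6C
open Pool.GEN Pool.CHT Pool.CHX Pool.D2F Pool.D2Con Pool.D2A Pool.RCD Pool.VIS24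
open Pool.STB
open Pool.STB82 (yv)
open Pool.STB65 (PosO JetO nu Rs Rs_pos nu_pos)
open Pool.PB.Trl (rt rt_mem t_rt)

variable {m : ℕ}

theorem yq_dep2 (c : ℕ → Fin m) (W g1 T : ℕ) {P : MvPolynomial (Option (Fin m)) ℝ}
    (hP : DepC c 1 P) (j : Fin 3) : DepC c 2 (yq c W g1 T P j) := by
  intro b b' hn hb
  fin_cases j
  · show eval b (yq c W g1 T P 0) = eval b' (yq c W g1 T P 0)
    rw [yq_eval0, yq_eval0, hn]
  · show eval b (yq c W g1 T P 1) = eval b' (yq c W g1 T P 1)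
    rw [yq_eval1, yq_eval1, hb 0 (by norm_num)]
  · show eval b (yq c W g1 T P 2) = eval b' (yq c W g1 T P 2)
    rw [yq_eval2, yq_eval2, hb 1 (by norm_num), hP b b' hn fun l hl => hb l (by omega)]

theorem cg_dep2 (c : ℕ → Fin m) (W g1 T : ℕ) {P : MvPolynomial (Option (Fin m)) ℝ}
    (hP : DepC c 1 P) (R : ℝ) (ctr : V3) (mu : ℝ) {G : MvPolynomial (Option (Fin m)) ℝ}
    (hG : DepC c 2 G) (Ci : Po) : DepC c 2 (cg c W g1 T P R ctr mu G Ci) := by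
  intro b b' hn hb
  rw [cg_eval, cg_eval, hG b b' hn hb]
  have h1 : (fun j => eval b (qn c W g1 T P R ctr j)) = fun j => eval b' (qn c W g1 T P R ctr j) := by
    funext j
    rw [qn_eval, qn_eval, yq_dep2 c W g1 T hP j b b' hn hb]
  rw [h1]

theorem qn_dep2 (c : ℕ → Fin m) (W g1 T : ℕ) {P : MvPolynomial (Option (Fin m)) ℝ}
    (hP : DepC c 1 P) (R : ℝ) (ctr : V3) (j : Fin 3) : DepC c 2 (qn c W g1 T P R ctr j) := by
  intro b b' hn hb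
  rw [qn_eval, qn_eval, yq_dep2 c W g1 T hP j b b' hn hb]

/-- **The data of the refutation** for the target `c 2`, at a window `U` behind the window of the data.
`T`: the closed part of the target, `f` its height in closed coordinates. -/
theorem re_ofU {J : ℕ} {F : Fam m J} {B : F.Ω → Prop} {c : ℕ → Fin m}
    (hc : Set.InjOn c (Set.Iio 3)) {W₀ d k n b g1 g₃ e₁' s K KQ p e₁ : ℕ}
    {σ κ Kp Kc Gr Ev KJ : ℝ} {Pv : PtT F → MvPolynomial (Option (Fin m)) ℝ}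
    {Pl : LnT F → MvPolynomial (Option (Fin m)) ℝ}
    {h : LnT F → Fin 3 → Polynomial ℝ} {ctr xo : ℕ → F.Ω → V3} {D₁ : LnT F → V3}
    {f : ℕ → PtT F → Po} {ji : ℕ → ℕ} {Jo Ci : ℕ → F.Ω → Po} {Φ₁ : LnT F → Po}
    (O : PosO F B W₀ d k n σ Kp (yv F c W₀ g1 Pl) h ctr xo D₁)
    (Jt : JetO F B W₀ d k n b σ κ Kc Gr (yv F c W₀ g1 Pl) f ji ctr xo Jo Ci Φ₁)
    {i : ℕ} (hi : i < n) {U : ℕ} (hWU : W₀ + d + i * k ≤ U) (hJ : U ≤ J) (hσ : 0 < σ) (hκ : 0 < κ) (hGr : 0 ≤ Gr)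
    (hPd : ∀ y, (Pv y).totalDegree ≤ KQ) (hPp : ∀ y, DepC c 1 (Pv y)) (hQ1 : 1 ≤ KQ)
    (hbK : b * KQ ≤ K) (hWg : W₀ ≤ g1 + e₁')
    (hPc : ∀ ω, B ω → Pv (ptr F J ω) = Pl (slam F W₀ ω))
    (hPl : ∀ ω, B ω → ∀ b : Option (Fin m) → ℝ, |b none - F.t ω| ≤ 1 / 2 ^ W₀ →
      |b (some (c 0)) - F.x ω (c 0)| ≤ 1 / 2 ^ W₀ →
      |eval b (pderiv (some (c 0)) (Pv (ptr F J ω)))| ≤ 2 ^ e₁')
    {T : F.Ω → MvPolynomial (Option (Fin m)) ℝ}
    (cT : Cl2 (slam F U) (fun ω => ptr F J ω) B T)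
    (dT : ∀ ω, B ω → (T ω).totalDegree ≤ K) (pT : ∀ ω, B ω → DepC c 2 (T ω))
    (hT : ∀ ω, B ω → |eval (yv F c W₀ g1 Pl ω) (f (ji i) (ptr F J ω)) -
      2 ^ g₃ * (F.x ω (c 2) - eval (bt F ω) (T ω))| ≤ Ev)
    {Gc : PtT F → ℕ → MvPolynomial (Option (Fin m)) ℝ} {gc : ℕ → ℕ} {LT Λ : ℕ → ℝ}
    (hx0 : ∀ ω, B ω → ∀ b, NBx c (Gc (ptr F J ω)) gc U (F.t ω) 2 b →
      |b (some (c 0)) - F.x ω (c 0)| ≤ 2 ^ s / 2 ^ (W₀ + d + i * k))
    (hx1 : ∀ ω, B ω → ∀ b, NBx c (Gc (ptr F J ω)) gc U (F.t ω) 2 b →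
      |(b (some (c 1)) - eval b (Pv (ptr F J ω))) -
        (F.x ω (c 1) - eval (bt F ω) (Pv (ptr F J ω)))| ≤ 2 ^ s / 2 ^ (g1 + (d + i * k)))
    (hlT : ∀ ω, B ω → ∀ b, NBx c (Gc (ptr F J ω)) gc U (F.t ω) 2 b → ∀ l < 2,
      |eval b (pderiv (some (c l)) (T ω))| ≤ LT l)
    (hs : 2 * 2 ^ s ≤ σ) (hsd : s ≤ d + i * k)
    (hpos : nu κ (Rs d k σ i) b / 2 ^ g₃ * (Kc / 2 ^ k) + Ev / 2 ^ g₃ ≤ 1 / 2 ^ (p + 1))
    (hl : ∀ l < 2, LT l + 3 * (Gr / 2 ^ g₃ * lm g1 e₁' l) ≤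
      2 ^ (e₁ + nlp (fun j => if j < 2 then gc j else p) l 2))
    (hΛ : ∀ l < 2, Rs d k σ i * lm g1 e₁' l ≤ Λ l)
    {Zt : Type} {zp : PtT F → Zt} {x : Zt → V3} {Jz : Zt → Po}
    (hx : ∀ ω, B ω → x (zp (ptr F J ω)) = xo i ω)
    (hJz : ∀ ω, B ω → Jz (zp (ptr F J ω)) = Jo i ω) (x1 : ∀ r, Bx 1 (x r))
    (J1 : ∀ r, (Jz r).totalDegree ≤ b ∧ ∀ q, Bx 1 q → |eval q (Jz r)| ≤ KJ) :
    ∃ (V : Type) (zc : PtT F → V) (zc' : LnT F → V) (CG : V → MvPolynomial (Option (Fin m)) ℝ)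
      (Q : V → Fin 3 → MvPolynomial (Option (Fin m)) ℝ),
      Re F c 2 K KQ U e₁ p b gc B Gc zc zc' CG Q Λ zp x Jz
        (nu κ (Rs d k σ i) b / 2 ^ g₃) KJ (2 / 2 ^ k) ∧
      ∀ ω, B ω → CG (zc (ptr F J ω)) = cg c W₀ g1 (slam F W₀ ω).2.2 (Pv (ptr F J ω))
        (Rs d k σ i) (ctr i ω) (nu κ (Rs d k σ i) b / 2 ^ g₃) (T ω) (Ci i ω) := by
  classical
  have hW : W₀ ≤ J := by omega
  obtain ⟨R, hRd⟩ : ∃ R, R = Rs d k σ i := ⟨_, rfl⟩
  have hR : 0 < R := hRd ▸ Rs_pos hσ i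
  have hRe : R * (2 ^ s / 2 ^ (d + i * k)) ≤ 1 / 2 := by
    rw [hRd]
    unfold Rs
    have h1 : (2 : ℝ) ^ (d + i * k) / σ * (2 ^ s / 2 ^ (d + i * k)) = 2 ^ s / σ := by
      have : (2 : ℝ) ^ (d + i * k) ≠ 0 := by positivity
      field_simp
    rw [h1, div_le_iff₀ hσ]
    linarith
  rw [← hRd] at hpos hΛ ⊢
  obtain ⟨mu, hmu⟩ : ∃ mu, mu = nu κ R b / 2 ^ g₃ := ⟨_, rfl⟩
  have hcoa := Pool.STB82.slam_coarse F hWU hJ B
  have hnu : 0 < nu κ R b := nu_pos hκ hR b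
  have hmu0 : 0 ≤ mu := by rw [hmu]; positivity
  rw [← hmu] at hpos ⊢
  -- the codes
  have hcs : ∀ ω, Pool.STB77.cos F W₀ U (slam F U ω) = slam F W₀ ω :=
    fun ω => Pool.STB77.cos_slam F (by omega) hJ ω
  have cτ : Cl2 (slam F U) (fun ω => ptr F J ω) B (fun ω => (slam F W₀ ω).2.2) := by
    refine ⟨⟨fun S => (Pool.STB77.cos F W₀ U S).2.2, fun ω _ => ?_⟩,
      fun y => y.2.1 / 2 ^ (J - W₀), fun ω _ => rfl⟩
    show _ = (Pool.STB77.cos F W₀ U (slam F U ω)).2.2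
    rw [hcs ω]
  have cP : Cl2 (slam F U) (fun ω => ptr F J ω) B (fun ω => Pv (ptr F J ω)) := by
    refine ⟨⟨fun S => Pl (Pool.STB77.cos F W₀ U S), fun ω hω => ?_⟩,
      fun y => Pv y, fun ω _ => rfl⟩
    show _ = Pl (Pool.STB77.cos F W₀ U (slam F U ω))
    rw [hcs ω]
    exact hPc ω hω
  have cA := (cτ.join cP).join ((((O.cc i hi).mono hcoa ⟨id, fun _ _ => rfl⟩).join
    ((Jt.cC i hi).mono hcoa ⟨id, fun _ _ => rfl⟩)).join cT)
  have cE := cA.comp (fun a => ((cg c W₀ g1 a.1.1 a.1.2 R a.2.1.1 mu a.2.2 a.2.1.2,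
    qn c W₀ g1 a.1.1 a.1.2 R a.2.1.1) :
      MvPolynomial (Option (Fin m)) ℝ × (Fin 3 → MvPolynomial (Option (Fin m)) ℝ)))
  obtain ⟨⟨φ, hφ⟩, ψ, hψ⟩ := cE
  have hbd : b - 1 ≤ b := Nat.sub_le b 1
  have hbd2 : (b - 1) * KQ ≤ K := (Nat.mul_le_mul_right _ hbd).trans hbK
  have eG : ∀ ω, B ω → gd c 2 K (ψ (ptr F J ω)).1 =
      cg c W₀ g1 (slam F W₀ ω).2.2 (Pv (ptr F J ω)) R (ctr i ω) mu (T ω) (Ci i ω) := by
    intro ω hω
    rw [← hψ ω hω]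
    exact gd_of (cg_deg c W₀ g1 _ hQ1 (hPd _) R _ mu (dT ω hω) (Jt.dC i ω) hbd2)
      (cg_dep2 c W₀ g1 _ (hPp _) R _ mu (pT ω hω) _)
  have eQ : ∀ ω, B ω → ∀ j, gd c 2 KQ ((ψ (ptr F J ω)).2 j) =
      qn c W₀ g1 (slam F W₀ ω).2.2 (Pv (ptr F J ω)) R (ctr i ω) j := by
    intro ω hω j
    rw [← hψ ω hω]
    exact gd_of (qn_deg c W₀ g1 _ hQ1 (hPd _) R _ j) (qn_dep2 c W₀ g1 _ (hPp _) R _ j)
  have eq0 : ∀ ω, B ω → (fun j => eval (bt F ω) (qn c W₀ g1 (slam F W₀ ω).2.2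
      (Pv (ptr F J ω)) R (ctr i ω) j)) = R • (yv F c W₀ g1 Pl ω - ctr i ω) := by
    intro ω hω
    funext j
    rw [qn_eval, hPc ω hω, yq_bt F c hW]
    rfl
  -- the box
  have hbox : ∀ ω, B ω → ∀ b, NBx c (Gc (ptr F J ω)) gc U (F.t ω) 2 b →
      Bx 1 (fun j => eval b (qn c W₀ g1 (slam F W₀ ω).2.2 (Pv (ptr F J ω)) R (ctr i ω) j)) := by
    intro ω hω b hb j
    have a1 : |eval b (yq c W₀ g1 (slam F W₀ ω).2.2 (Pv (ptr F J ω)) j) - yv F c W₀ g1 Pl ω j| ≤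
        2 ^ s / 2 ^ (d + i * k) := by
      rw [← yq_bt F c hW g1 Pl ω j, ← hPc ω hω]
      have p1 : (2 : ℝ) ^ (W₀ + d + i * k) = 2 ^ W₀ * 2 ^ (d + i * k) := by
        rw [← pow_add, add_assoc]
      have p2 : (2 : ℝ) ^ (g1 + (d + i * k)) = 2 ^ g1 * 2 ^ (d + i * k) := pow_add _ _ _
      have p3 : (1 : ℝ) ≤ 2 ^ s := one_le_pow₀ one_le_two
      have hP0 : (0 : ℝ) < 2 ^ (d + i * k) := by positivity
      fin_cases j
      · show |eval b (yq c W₀ g1 (slam F W₀ ω).2.2 (Pv (ptr F J ω)) 0) -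
          eval (bt F ω) (yq c W₀ g1 (slam F W₀ ω).2.2 (Pv (ptr F J ω)) 0)| ≤ _
        rw [yq_eval0, yq_eval0]
        have e1 : 2 ^ W₀ * b none - ((slam F W₀ ω).2.2 : ℝ) -
            (2 ^ W₀ * bt F ω none - ((slam F W₀ ω).2.2 : ℝ)) = 2 ^ W₀ * (b none - F.t ω) := by
          show _ - (2 ^ W₀ * F.t ω - _) = _
          ring
        rw [e1, abs_mul, abs_of_pos (by positivity)]
        calc (2 : ℝ) ^ W₀ * |b none - F.t ω| ≤ 2 ^ W₀ * (1 / 2 ^ (W₀ + d + i * k)) :=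
              mul_le_mul_of_nonneg_left (hb.1.trans (one_div_le_one_div_of_le (by positivity)
                (pow_le_pow_right₀ one_le_two hWU))) (by positivity)
          _ = 1 / 2 ^ (d + i * k) := by
              rw [p1]
              field_simp
          _ ≤ 2 ^ s / 2 ^ (d + i * k) := div_le_div_of_nonneg_right p3 hP0.le
      · show |eval b (yq c W₀ g1 (slam F W₀ ω).2.2 (Pv (ptr F J ω)) 1) -
          eval (bt F ω) (yq c W₀ g1 (slam F W₀ ω).2.2 (Pv (ptr F J ω)) 1)| ≤ _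
        rw [yq_eval1, yq_eval1, ← mul_sub, abs_mul, abs_of_pos (show (0 : ℝ) < 2 ^ W₀ by positivity)]
        calc (2 : ℝ) ^ W₀ * |b (some (c 0)) - bt F ω (some (c 0))| ≤
              2 ^ W₀ * (2 ^ s / 2 ^ (W₀ + d + i * k)) :=
              mul_le_mul_of_nonneg_left (hx0 ω hω b hb) (by positivity)
          _ = 2 ^ s / 2 ^ (d + i * k) := by
              rw [p1]
              field_simp
      · show |eval b (yq c W₀ g1 (slam F W₀ ω).2.2 (Pv (ptr F J ω)) 2) -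
          eval (bt F ω) (yq c W₀ g1 (slam F W₀ ω).2.2 (Pv (ptr F J ω)) 2)| ≤ _
        rw [yq_eval2, yq_eval2, ← mul_sub, abs_mul, abs_of_pos (show (0 : ℝ) < 2 ^ g1 by positivity)]
        calc (2 : ℝ) ^ g1 * |b (some (c 1)) - eval b (Pv (ptr F J ω)) -
                (bt F ω (some (c 1)) - eval (bt F ω) (Pv (ptr F J ω)))| ≤
              2 ^ g1 * (2 ^ s / 2 ^ (g1 + (d + i * k))) :=
              mul_le_mul_of_nonneg_left (hx1 ω hω b hb) (by positivity)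
          _ = 2 ^ s / 2 ^ (d + i * k) := by
              rw [p2]
              field_simp
    have a2 := O.q1 i hi ω hω j
    rw [← hRd, Pi.smul_apply, smul_eq_mul, Pi.sub_apply] at a2
    show |eval b (qn c W₀ g1 (slam F W₀ ω).2.2 (Pv (ptr F J ω)) R (ctr i ω) j)| ≤ 1
    rw [qn_eval]
    have a3 : |R * (eval b (yq c W₀ g1 (slam F W₀ ω).2.2 (Pv (ptr F J ω)) j) -
        yv F c W₀ g1 Pl ω j)| ≤ 1 / 2 := by
      rw [abs_mul, abs_of_pos hR]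
      exact (mul_le_mul_of_nonneg_left a1 hR.le).trans hRe
    rw [abs_le] at a2 a3 ⊢
    constructor <;> nlinarith
  refine ⟨MvPolynomial (Option (Fin m)) ℝ × (Fin 3 → MvPolynomial (Option (Fin m)) ℝ), ψ, φ,
    fun v => gd c 2 K v.1, fun v j => gd c 2 KQ (v.2 j), ?_, fun ω hω => eG ω hω⟩
  constructor
  · intro ω hω
    rw [← hψ ω hω, ← hφ ω hω]
  · exact fun v => gd_deg c 2 K _
  · exact fun v => gd_dep c 2 K _
  · exact fun v j => gd_deg c 2 KQ _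
  · exact fun v j => gd_dep c 2 KQ _
  · exact hbK
  · exact hmu0
  · intro ω hω
    have b1 := Jt.val i hi ω hω
    rw [← hRd] at b1
    rw [eG ω hω, cg_eval]
    simp only [eQ ω hω]
    rw [eq0 ω hω, hJz ω hω]
    have b2 := hT ω hω
    obtain ⟨q, hq⟩ : ∃ q, q = R • (yv F c W₀ g1 Pl ω - ctr i ω) := ⟨_, rfl⟩
    obtain ⟨fv, hfv⟩ : ∃ fv, fv = eval (yv F c W₀ g1 Pl ω) (f (ji i) (ptr F J ω)) := ⟨_, rfl⟩
    rw [← hq, ← hfv] at b1
    rw [← hfv] at b2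
    rw [← hq]
    have hg3 : (0 : ℝ) < 2 ^ g₃ := by positivity
    have c1 : F.x ω (c 2) - (eval (bt F ω) (T ω) + mu * eval q (Ci i ω) +
        mu * eval q (Jo i ω)) =
        -(fv - 2 ^ g₃ * (F.x ω (c 2) - eval (bt F ω) (T ω))) / 2 ^ g₃ -
          mu * (eval q (Jo i ω) + eval q (Ci i ω) - fv / nu κ R b) := by
      rw [hmu]
      field_simp
      ring
    rw [c1]
    have c2 : |-(fv - 2 ^ g₃ * (F.x ω (c 2) - eval (bt F ω) (T ω))) / 2 ^ g₃| ≤ Ev / 2 ^ g₃ := by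
      rw [abs_div, abs_neg, abs_of_pos hg3]
      exact div_le_div_of_nonneg_right b2 hg3.le
    have c3 : |mu * (eval q (Jo i ω) + eval q (Ci i ω) - fv / nu κ R b)| ≤ mu * (Kc / 2 ^ k) := by
      rw [abs_mul, abs_of_nonneg hmu0]
      exact mul_le_mul_of_nonneg_left b1 hmu0
    refine (abs_sub _ _).trans ?_
    linarith
  · intro ω hω j
    simp only [eQ ω hω]
    have a1 := O.qx i hi ω hω j
    rw [← hRd] at a1
    have a2 := congrFun (eq0 ω hω) j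
    rw [a2, hx ω hω, abs_sub_comm]
    exact a1
  · intro ω hω b' hb' l hl2
    rw [eG ω hω]
    have q1 := hbox ω hω b' hb'
    have pW : (2 : ℝ) ^ (W₀ + d + i * k) = 2 ^ W₀ * 2 ^ (d + i * k) := by
      rw [← pow_add, add_assoc]
    have t1 : |b' none - F.t ω| ≤ 1 / 2 ^ W₀ := by
      refine hb'.1.trans ?_
      refine one_div_le_one_div_of_le (by positivity) (pow_le_pow_right₀ one_le_two (by omega))
    have t2 : |b' (some (c 0)) - F.x ω (c 0)| ≤ 1 / 2 ^ W₀ := by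
      refine (hx0 ω hω b' hb').trans ?_
      rw [pW, div_le_div_iff₀ (by positivity) (by positivity), one_mul]
      have : (2 : ℝ) ^ s ≤ 2 ^ (d + i * k) := pow_le_pow_right₀ one_le_two hsd
      nlinarith [show (0 : ℝ) < 2 ^ W₀ by positivity]
    have hmuG : ∀ j, mu * |eval (fun j => eval b' (qn c W₀ g1 (slam F W₀ ω).2.2
        (Pv (ptr F J ω)) R (ctr i ω) j)) (pderiv j (Ci i ω))| ≤ Gr / 2 ^ g₃ / R := by
      intro j
      have g1' := Jt.grad i hi ω hω j _ q1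
      rw [← hRd] at g1'
      rw [hmu, div_mul_eq_mul_div, div_div, mul_comm (2 ^ g₃ : ℝ) R, ← div_div]
      exact div_le_div_of_nonneg_right g1' (by positivity)
    refine (cg_pd c W₀ g1 _ _ hR _ hmu0 _ _ _ _ (by positivity) (hlT ω hω b' hb' l hl2) hmuG
      (fun j => yq_lm c hc W₀ g1 _ hWg (hPp _) (hPl ω hω b' t1 t2) j (by omega : l < 3))).trans ?_
    exact hl l hl2
  · intro ω hω b' hb' l hl2 j
    simp only [eQ ω hω]
    have pW : (2 : ℝ) ^ (W₀ + d + i * k) = 2 ^ W₀ * 2 ^ (d + i * k) := by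
      rw [← pow_add, add_assoc]
    have t1 : |b' none - F.t ω| ≤ 1 / 2 ^ W₀ := by
      refine hb'.1.trans ?_
      refine one_div_le_one_div_of_le (by positivity) (pow_le_pow_right₀ one_le_two (by omega))
    have t2 : |b' (some (c 0)) - F.x ω (c 0)| ≤ 1 / 2 ^ W₀ := by
      refine (hx0 ω hω b' hb').trans ?_
      rw [pW, div_le_div_iff₀ (by positivity) (by positivity), one_mul]
      have : (2 : ℝ) ^ s ≤ 2 ^ (d + i * k) := pow_le_pow_right₀ one_le_two hsd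
      nlinarith [show (0 : ℝ) < 2 ^ W₀ by positivity]
    rw [qn_pd, abs_mul, abs_of_pos hR]
    exact (mul_le_mul_of_nonneg_left (yq_lm c hc W₀ g1 _ hWg (hPp _) (hPl ω hω b' t1 t2) j (by omega : l < 3))
      hR.le).trans (hΛ l hl2)
  · intro ω hω b' hb' j
    simp only [eQ ω hω]
    exact hbox ω hω b' hb' j
  · exact x1
  · exact J1

end Pool.STA37
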