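import Pool.Agent.H37.STA.Sue

/-!
# The velocity at a window is few bits behind the far digits

`few_vel'`: the chain of the labels. `vel_num`: the numbers. `row_few`: the velocity at the window
`i` given the far digits, the time, the data of the line and the digits of the window.
-/

set_option autoImplicit false

namespace Pool.STA37

open Finset Real MvPolynomial
open Pool.Agent.H49.Ent Pool.Agent.H32.Dense Pool.STK Pool.KA Pool.KSAT Pool.K2S Pool.PB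
open Pool.GEN Pool.CHT Pool.RCD Pool.D2F
open Pool.STB (V3 Po Bx Hb cv cl_earlier PosR cnt_int cg VbT p2)
open Pool.STB65 (InpP InpF PosO JetO nu nu_pos Rs Rs_pos grd_bx)
open Pool.STB82 (yv hgP)
open Pool.LA91 (jet ojet)
open Pool.PB.Trl (rt rt_mem t_rt)

section

variable {Ω : Type} [Fintype Ω] {p : Ω → ℝ}

/-- **The chain of the labels.** -/
theorem few_vel' (hp : IsLaw p) {SU SZ ST SC SV SW : Type} (vel : Ω → SV) (u' : Ω → SW)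
    (uu : Ω → SU) (z : Ω → SZ) (T : Ω → ST) (C : Ω → SC) (hz : Det p C z) (hT : Det p C T)
    {e₁ e₂ e₃ : ℝ} (hf : CH p u' (fun ω => (uu ω, (z ω, T ω))) ≤ e₁) (hu : CH p uu C ≤ e₂)
    (hv : CH p vel (fun ω => (u' ω, C ω)) ≤ e₃) : CH p vel C ≤ e₁ + e₂ + e₃ := by
  have hn := hp.nonneg
  have h1 := CH_chain hn vel u' C
  have h2 := CH_chain hn u' uu C
  have h3 : CH p vel C ≤ CH p (fun ω => (vel ω, u' ω)) C :=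
    CH_mono_left hn fun ω ω' _ _ e => by
      simp only [Prod.mk.injEq] at e
      exact e.1.1
  have h4 : CH p u' C ≤ CH p (fun ω => (u' ω, uu ω)) C :=
    CH_mono_left hn fun ω ω' _ _ e => by
      simp only [Prod.mk.injEq] at e
      exact e.1.1
  have h5 : CH p u' (fun ω => (uu ω, C ω)) ≤ CH p u' (fun ω => (uu ω, (z ω, T ω))) :=
    CH_mono_cond hn fun ω ω' a b e => by
      simp only [Prod.mk.injEq] at e ⊢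
      exact ⟨e.1, hz ω ω' a b e.2, hT ω ω' a b e.2⟩
  linarith

end

/-- **The numbers** of the velocity at the window `i`. -/
theorem vel_num {b k y i g₃ W₀ E E' k₁ d₁ : ℕ} {A ρ Gr : ℝ} (hA : 1 ≤ A) (hAy : A ≤ 2 ^ y)
    (hρ0 : 0 ≤ ρ) (hρ : ρ ≤ 2 ^ y) (hG0 : 0 ≤ Gr) (hG : Gr ≤ (2 ^ y) ^ E) (hkd : k₁ ≤ d₁)
    (hk : b * (k + i * k) + i * k + y * (E + 6) + 8 ≤ k₁) :
    2 ^ k / (nu ((2 ^ y) ^ E') (Rs k k ((2 ^ y) ^ 2) i) b / 2 ^ g₃ * 2 ^ (W₀ + k + i * k)) *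
      (2 ^ W₀ / 2 ^ g₃ * (A * Gr * (2 * ((1 + ρ) * (2 * (A * 2 ^ y / 2 ^ d₁ +
        (2 ^ y) ^ 2 / 2 ^ k₁)) + A * 2 ^ y * (5 * (2 ^ y) ^ 2 / (2 ^ k * 2 ^ k₁) +
          2 * (A * 2 ^ y / 2 ^ d₁ + (2 ^ y) ^ 2 / 2 ^ k₁))) +
        (Rs k k ((2 ^ y) ^ 2) 0 + Rs k k ((2 ^ y) ^ 2) i) *
          ((1 + ρ + A * 2 ^ y) * (5 * (2 ^ y) ^ 2 / (2 ^ k * 2 ^ k₁))) * 2 ^ y))) ≤ 1 := by
  have hY1 : (1 : ℝ) ≤ 2 ^ y := one_le_pow₀ one_le_two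
  obtain ⟨Y, hY⟩ : ∃ Y : ℝ, Y = 2 ^ y := ⟨_, rfl⟩
  obtain ⟨X, hX⟩ : ∃ X : ℝ, X = 1 / 2 ^ k₁ := ⟨_, rfl⟩
  have hX0 : 0 < X := by rw [hX]; positivity
  have hd : (1 : ℝ) / 2 ^ d₁ ≤ X := by
    rw [hX]
    exact one_div_le_one_div_of_le (by positivity) (p2 hkd)
  have hkk : (1 : ℝ) ≤ 2 ^ k := one_le_pow₀ one_le_two
  obtain ⟨Ri, hRi⟩ : ∃ Ri : ℝ, Ri = 2 ^ (k + i * k) := ⟨_, rfl⟩
  have hRi1 : 1 ≤ Ri := by rw [hRi]; exact one_le_pow₀ one_le_two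
  have r0 : Rs k k ((2 ^ y) ^ 2) 0 ≤ 2 ^ k := by
    unfold Rs
    rw [Nat.zero_mul, Nat.add_zero]
    exact div_le_self (by positivity) (one_le_pow₀ hY1)
  have ri : Rs k k ((2 ^ y) ^ 2) i ≤ Ri := by
    unfold Rs
    rw [hRi]
    exact div_le_self (by positivity) (one_le_pow₀ hY1)
  have e5 : (5 : ℝ) * (2 ^ y) ^ 2 / (2 ^ k * 2 ^ k₁) = 5 * Y ^ 2 * X / 2 ^ k := by
    rw [hX, hY]
    field_simp
  have hYY : 1 ≤ Y := by rw [hY]; exact hY1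
  have hAY : A ≤ Y := by rw [hY]; exact hAy
  have hρY : ρ ≤ Y := by rw [hY]; exact hρ
  -- the pieces
  have p1 : 2 * (A * 2 ^ y / 2 ^ d₁ + (2 ^ y) ^ 2 / 2 ^ k₁) ≤ 4 * Y ^ 2 * X := by
    have h1 : A * 2 ^ y / 2 ^ d₁ ≤ Y * Y * X := by
      rw [← hY, div_eq_mul_one_div]
      exact mul_le_mul (mul_le_mul_of_nonneg_right hAY (by linarith)) hd (by positivity)
        (by positivity)
    have h2 : (2 ^ y) ^ 2 / 2 ^ k₁ = Y ^ 2 * X := by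
      rw [hX, ← hY]
      ring
    rw [h2]
    nlinarith
  have p1' : 0 ≤ 2 * (A * 2 ^ y / 2 ^ d₁ + (2 ^ y) ^ 2 / 2 ^ k₁) := by positivity
  have p2' : 5 * (2 ^ y) ^ 2 / (2 ^ k * 2 ^ k₁) ≤ 5 * Y ^ 2 * X := by
    rw [e5]
    exact div_le_self (by positivity) hkk
  have p3 : (1 + ρ) * (2 * (A * 2 ^ y / 2 ^ d₁ + (2 ^ y) ^ 2 / 2 ^ k₁)) ≤
      2 * Y * (4 * Y ^ 2 * X) := mul_le_mul (by linarith) p1 p1' (by positivity)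
  have p4 : A * 2 ^ y * (5 * (2 ^ y) ^ 2 / (2 ^ k * 2 ^ k₁) +
      2 * (A * 2 ^ y / 2 ^ d₁ + (2 ^ y) ^ 2 / 2 ^ k₁)) ≤ Y * Y * (9 * Y ^ 2 * X) := by
    rw [← hY]
    rw [← hY] at p1 p2'
    refine mul_le_mul (mul_le_mul_of_nonneg_right hAY (by linarith)) (by linarith) ?_
      (by positivity)
    have : 0 ≤ 5 * Y ^ 2 / (2 ^ k * 2 ^ k₁) := by positivity
    rw [← hY] at p1'
    linarith
  have p5 : (Rs k k ((2 ^ y) ^ 2) 0 + Rs k k ((2 ^ y) ^ 2) i) *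
      ((1 + ρ + A * 2 ^ y) * (5 * (2 ^ y) ^ 2 / (2 ^ k * 2 ^ k₁))) * 2 ^ y ≤
      15 * (2 ^ (i * k) + 1) * Y ^ 5 * X := by
    have h1 : 1 + ρ + A * 2 ^ y ≤ 3 * (Y * Y) := by
      rw [← hY]
      nlinarith
    have h2 : 0 ≤ 1 + ρ + A * 2 ^ y := by positivity
    rw [e5]
    have h3 : Rs k k ((2 ^ y) ^ 2) 0 + Rs k k ((2 ^ y) ^ 2) i ≤ 2 ^ k * (2 ^ (i * k) + 1) := by
      have : (2 : ℝ) ^ k * (2 ^ (i * k) + 1) = 2 ^ k + Ri := by rw [hRi, pow_add]; ring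
      rw [this]
      linarith
    have h4 : 0 ≤ Rs k k ((2 ^ y) ^ 2) 0 + Rs k k ((2 ^ y) ^ 2) i := by
      have := Rs_pos (d := k) (k := k) (σ := (2 ^ y) ^ 2) (by positivity) 0
      have := Rs_pos (d := k) (k := k) (σ := (2 ^ y) ^ 2) (by positivity) i
      linarith
    calc (Rs k k ((2 ^ y) ^ 2) 0 + Rs k k ((2 ^ y) ^ 2) i) *
          ((1 + ρ + A * 2 ^ y) * (5 * Y ^ 2 * X / 2 ^ k)) * 2 ^ y ≤
        2 ^ k * (2 ^ (i * k) + 1) * (3 * (Y * Y) * (5 * Y ^ 2 * X / 2 ^ k)) * 2 ^ y := by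
          refine mul_le_mul_of_nonneg_right ?_ (by positivity)
          exact mul_le_mul h3 (mul_le_mul_of_nonneg_right h1 (by positivity)) (by positivity)
            (by positivity)
      _ = 15 * (2 ^ (i * k) + 1) * Y ^ 5 * X := by
          rw [← hY]
          field_simp
          ring
  have p6 : A * Gr * (2 * ((1 + ρ) * (2 * (A * 2 ^ y / 2 ^ d₁ + (2 ^ y) ^ 2 / 2 ^ k₁)) +
      A * 2 ^ y * (5 * (2 ^ y) ^ 2 / (2 ^ k * 2 ^ k₁) +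
          2 * (A * 2 ^ y / 2 ^ d₁ + (2 ^ y) ^ 2 / 2 ^ k₁))) +
        (Rs k k ((2 ^ y) ^ 2) 0 + Rs k k ((2 ^ y) ^ 2) i) *
          ((1 + ρ + A * 2 ^ y) * (5 * (2 ^ y) ^ 2 / (2 ^ k * 2 ^ k₁))) * 2 ^ y) ≤
      64 * (2 ^ (i * k) * Y ^ (E + 6)) * X := by
    have h1 : (1 : ℝ) ≤ 2 ^ (i * k) := one_le_pow₀ one_le_two
    have h2 : 2 * ((1 + ρ) * (2 * (A * 2 ^ y / 2 ^ d₁ + (2 ^ y) ^ 2 / 2 ^ k₁)) +
      A * 2 ^ y * (5 * (2 ^ y) ^ 2 / (2 ^ k * 2 ^ k₁) +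
          2 * (A * 2 ^ y / 2 ^ d₁ + (2 ^ y) ^ 2 / 2 ^ k₁))) +
        (Rs k k ((2 ^ y) ^ 2) 0 + Rs k k ((2 ^ y) ^ 2) i) *
          ((1 + ρ + A * 2 ^ y) * (5 * (2 ^ y) ^ 2 / (2 ^ k * 2 ^ k₁))) * 2 ^ y ≤
        64 * (2 ^ (i * k) * Y ^ 5) * X := by
      have h3 : Y ^ 3 ≤ Y ^ 5 := pow_le_pow_right₀ hYY (by norm_num)
      have h4 : Y ^ 4 ≤ Y ^ 5 := pow_le_pow_right₀ hYY (by norm_num)
      have h5 : Y ^ 5 ≤ 2 ^ (i * k) * Y ^ 5 := le_mul_of_one_le_left (by positivity) h1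
      have h6 : 2 * (2 * Y * (4 * Y ^ 2 * X) + Y * Y * (9 * Y ^ 2 * X)) +
          15 * (2 ^ (i * k) + 1) * Y ^ 5 * X =
          (16 * Y ^ 3 + 18 * Y ^ 4 + 15 * (2 ^ (i * k) * Y ^ 5) + 15 * Y ^ 5) * X := by ring
      have h7 : (16 * Y ^ 3 + 18 * Y ^ 4 + 15 * (2 ^ (i * k) * Y ^ 5) + 15 * Y ^ 5) * X ≤
          64 * (2 ^ (i * k) * Y ^ 5) * X := mul_le_mul_of_nonneg_right (by linarith) hX0.le
      linarith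
    have h3 : A * Gr ≤ Y ^ (E + 1) := by
      rw [pow_succ, mul_comm]
      rw [← hY] at hG
      exact mul_le_mul hG hAY (by linarith) (by positivity)
    calc A * Gr * _ ≤ Y ^ (E + 1) * (64 * (2 ^ (i * k) * Y ^ 5) * X) :=
          mul_le_mul h3 h2 (by
            have := Rs_pos (d := k) (k := k) (σ := (2 ^ y) ^ 2) (by positivity) 0
            have := Rs_pos (d := k) (k := k) (σ := (2 ^ y) ^ 2) (by positivity) i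
            positivity) (by positivity)
      _ = 64 * (2 ^ (i * k) * Y ^ (E + 6)) * X := by
          rw [show E + 6 = (E + 1) + 5 by ring, pow_add Y (E + 1) 5]
          ring
  -- the factor
  have p7 : 2 ^ k / (nu ((2 ^ y) ^ E') (Rs k k ((2 ^ y) ^ 2) i) b / 2 ^ g₃ *
      2 ^ (W₀ + k + i * k)) * (2 ^ W₀ / 2 ^ g₃) ≤ 2 ^ (b * (k + i * k)) := by
    rw [Pool.STB.nu_pow]
    have h1 : (1 : ℝ) ≤ 2 ^ (y * E' + 2 * y * b) := one_le_pow₀ one_le_two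
    have h2 : (1 : ℝ) ≤ 2 ^ (i * k) := one_le_pow₀ one_le_two
    have h3 : (2 : ℝ) ^ k / (2 ^ (y * E' + 2 * y * b) / 2 ^ (b * (k + i * k)) / 2 ^ g₃ *
        2 ^ (W₀ + k + i * k)) * (2 ^ W₀ / 2 ^ g₃) =
        2 ^ (b * (k + i * k)) / (2 ^ (y * E' + 2 * y * b) * 2 ^ (i * k)) := by
      rw [pow_add (2 : ℝ) (W₀ + k), pow_add (2 : ℝ) W₀]
      field_simp
    rw [h3]
    exact div_le_self (by positivity) (one_le_mul_of_one_le_of_one_le h1 h2)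
  obtain ⟨Q, hQ⟩ : ∃ Q : ℝ, Q = A * Gr * (2 * ((1 + ρ) * (2 * (A * 2 ^ y / 2 ^ d₁ +
      (2 ^ y) ^ 2 / 2 ^ k₁)) + A * 2 ^ y * (5 * (2 ^ y) ^ 2 / (2 ^ k * 2 ^ k₁) +
          2 * (A * 2 ^ y / 2 ^ d₁ + (2 ^ y) ^ 2 / 2 ^ k₁))) +
        (Rs k k ((2 ^ y) ^ 2) 0 + Rs k k ((2 ^ y) ^ 2) i) *
          ((1 + ρ + A * 2 ^ y) * (5 * (2 ^ y) ^ 2 / (2 ^ k * 2 ^ k₁))) * 2 ^ y) := ⟨_, rfl⟩
  rw [← hQ] at p6 ⊢
  have hQ0 : 0 ≤ Q := by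
    rw [hQ]
    have := Rs_pos (d := k) (k := k) (σ := (2 ^ y) ^ 2) (by positivity) 0
    have := Rs_pos (d := k) (k := k) (σ := (2 ^ y) ^ 2) (by positivity) i
    positivity
  rw [← mul_assoc]
  calc _ ≤ 2 ^ (b * (k + i * k)) * (64 * (2 ^ (i * k) * Y ^ (E + 6)) * X) :=
        mul_le_mul p7 p6 hQ0 (by positivity)
    _ = 2 ^ (b * (k + i * k) + i * k + y * (E + 6) + 6) / 2 ^ k₁ := by
        rw [hY, hX, ← pow_mul, pow_add (2 : ℝ) _ 6, pow_add (2 : ℝ) _ (y * (E + 6)),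
          pow_add (2 : ℝ) _ (i * k)]
        norm_num
        ring
    _ ≤ 1 := by
        rw [div_le_one (by positivity)]
        exact p2 (by omega)

variable {m J : ℕ}

/-- The closed data which the digits of a window determine. -/
structure YiD (F : Fam m J) (A : F.Ω → Prop) (t : VbT F) (f : FaT F) (ctr : ℕ → F.Ω → V3)
    (Ci : ℕ → F.Ω → Po) (ctr' : ℕ → F.Ω → V3) (i : ℕ) {Y₀ : Type} (yi : F.Ω → Y₀) {Z₀ : Type}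
    (z : F.Ω → Z₀) : Prop where
  Z : ∀ ω ω', A ω → A ω' → yi ω = yi ω' → F.Z ω = F.Z ω'
  z : ∀ ω ω', A ω → A ω' → yi ω = yi ω' → z ω = z ω'
  t1 : ∀ ω ω', A ω → A ω' → yi ω = yi ω' → (slam F t.W₀ ω).2.2 = (slam F t.W₀ ω').2.2
  tf : ∀ ω ω', A ω → A ω' → yi ω = yi ω' → (slam F f.W ω).2.2 = (slam F f.W ω').2.2
  Pl : ∀ ω ω', A ω → A ω' → yi ω = yi ω' → t.Pl (slam F t.W₀ ω) = t.Pl (slam F t.W₀ ω')
  Pf : ∀ ω ω', A ω → A ω' → yi ω = yi ω' → f.Pl (slam F f.W ω) = f.Pl (slam F f.W ω')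
  zH : ∀ ω ω', A ω → A ω' → yi ω = yi ω' → t.zH (slam F t.W₀ ω) = t.zH (slam F t.W₀ ω')
  c0 : ∀ ω ω', A ω → A ω' → yi ω = yi ω' → ctr 0 ω = ctr 0 ω'
  ci : ∀ ω ω', A ω → A ω' → yi ω = yi ω' → ctr i ω = ctr i ω'
  C0 : ∀ ω ω', A ω → A ω' → yi ω = yi ω' → Ci 0 ω = Ci 0 ω'
  Ci : ∀ ω ω', A ω → A ω' → yi ω = yi ω' → Ci i ω = Ci i ω'
  cf : ∀ ω ω', A ω → A ω' → yi ω = yi ω' → ctr' 0 ω = ctr' 0 ω'

theorem YiD.sub {F : Fam m J} {A B : F.Ω → Prop} {t : VbT F} {f : FaT F} {ctr : ℕ → F.Ω → V3}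
    {Ci : ℕ → F.Ω → Po} {ctr' : ℕ → F.Ω → V3} {i : ℕ} {Y₀ : Type} {yi : F.Ω → Y₀} {Z₀ : Type}
    {z : F.Ω → Z₀} (h : YiD F A t f ctr Ci ctr' i yi z) (hB : Sub B A) :
    YiD F B t f ctr Ci ctr' i yi z :=
  ⟨fun ω ω' a b => h.Z ω ω' (hB ω a) (hB ω' b), fun ω ω' a b => h.z ω ω' (hB ω a) (hB ω' b),
    fun ω ω' a b => h.t1 ω ω' (hB ω a) (hB ω' b), fun ω ω' a b => h.tf ω ω' (hB ω a) (hB ω' b),
    fun ω ω' a b => h.Pl ω ω' (hB ω a) (hB ω' b), fun ω ω' a b => h.Pf ω ω' (hB ω a) (hB ω' b),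
    fun ω ω' a b => h.zH ω ω' (hB ω a) (hB ω' b), fun ω ω' a b => h.c0 ω ω' (hB ω a) (hB ω' b),
    fun ω ω' a b => h.ci ω ω' (hB ω a) (hB ω' b), fun ω ω' a b => h.C0 ω ω' (hB ω a) (hB ω' b),
    fun ω ω' a b => h.Ci ω ω' (hB ω a) (hB ω' b), fun ω ω' a b => h.cf ω ω' (hB ω a) (hB ω' b)⟩

/-- The first label of the target: the velocity over the first closed polynomial. -/
noncomputable def upi {F : Fam m J} (c : ℕ → Fin m) (t : VbT F) (E' b : ℕ) (ctr : ℕ → F.Ω → V3)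
    (Ci : ℕ → F.Ω → Po) (N₂ : ℝ) (ω : F.Ω) : ℤ :=
  ⌊(2 : ℝ) ^ (N₂ * J) * ojet F (c 2) 1 (cgi c t E' b ctr Ci 0 ω) ω⌋

/-- **The velocity at the window** `i` is few bits behind the far digits. -/
theorem row_few (K b : ℕ) : ∃ C : ℝ, 1 ≤ C ∧ ∀ {m J : ℕ} {F : Fam m J} {c : ℕ → Fin m}
    {A : F.Ω → Prop} (_ : 0 < Pe F.p A) {n N E E' e₁' : ℕ} {t : VbT F} {f : FaT F}
    {Kp Kp' Kc ρ : ℝ} {ctr xo ctr' xo' : ℕ → F.Ω → V3} {D₁ D₁' : LnT F → V3}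
    {Jo Ci : ℕ → F.Ω → Po} {Φ₁ : LnT F → Po} (_ : SuE F c A K n N b t)
    (_ : PosO F A t.W₀ t.k t.k n ((2 ^ t.y) ^ 2) Kp (yv F c t.W₀ t.g1 t.Pl) (hgP c t.W₀ t.g1 t.Pl)
      ctr xo D₁)
    (_ : JetO F A t.W₀ t.k t.k n b ((2 ^ t.y) ^ 2) ((2 ^ t.y) ^ E') Kc ((2 ^ t.y) ^ E)
      (yv F c t.W₀ t.g1 t.Pl) t.f t.ji ctr xo Jo Ci Φ₁)
    (_ : FaE F c A K t.y e₁' t.W₀ t.g1 t.Pl f)
    (_ : PosO F A f.W f.d f.k 1 ((2 ^ t.y) ^ 2) Kp' (yv F c f.W f.g f.Pl) (hgP c f.W f.g f.Pl)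
      ctr' xo' D₁')
    {i : ℕ} (_ : i < n) (_ : t.W₀ + t.k + n * t.k ≤ J) (_ : f.W + f.d = t.W₀ + t.k)
    (_ : f.W + f.d + f.k ≤ J) (_ : f.k ≤ f.d)
    (_ : b * (t.k + i * t.k) + i * t.k + t.y * (E + 6) + 8 ≤ f.k) (_ : C ≤ 2 ^ t.y) (_ : 0 ≤ ρ)
    (_ : ρ ≤ 2 ^ t.y) (_ : (2 : ℝ) ^ t.g1 / 2 ^ t.W₀ = ρ * (2 ^ f.g / 2 ^ f.W)) {N₂ : ℝ}
    (_ : 2 ^ t.k / (mui t E' b i * 2 ^ (t.W₀ + t.k + i * t.k)) ≤ (2 : ℝ) ^ (N₂ * J))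
    {Nf : ℕ → ℕ → ℝ}
    (_ : (2 : ℝ) ^ (Nf 0 0 * J) * (2 ^ t.y) ^ 2 ≤ 2 ^ (f.W + f.d + f.k))
    (_ : (2 : ℝ) ^ (Nf 1 0 * J) * (2 ^ t.y) ^ 2 ≤ 2 ^ (f.g + f.d + f.k))
    (_ : (2 : ℝ) ^ (Nf 0 1 * J) * (2 ^ t.y) ^ 2 ≤ 2 ^ f.k)
    (_ : (2 : ℝ) ^ (Nf 1 1 * J) * 2 ^ f.W * (2 ^ (2 * t.y + 1) / 2 ^ f.k) ≤ 2 ^ f.g)
    {Y₀ Z₀ : Type} {yi : F.Ω → Y₀} {z : F.Ω → Z₀} (_ : YiD F A t f ctr Ci ctr' i yi z) {r₁ : ℝ}
    (_ : CH (Pool.Agent.H49.Ent.cond F.p A True) (upi c t E' b ctr Ci N₂)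
      (fun ω => (uj F c f.W f.g f.Pl (ctr' 0) Nf ω, (z ω, F.T ω))) ≤ r₁),
    CH (Pool.Agent.H49.Ent.cond F.p A True) (vli c t E' b ctr Ci i)
      (fun ω => (cv (2 ^ f.k) (xo' 0 ω), (F.W ω, ((D₁ (slam F (t.W₀ + t.k) ω),
        D₁' (slam F (t.W₀ + t.k) ω)), (cv (2 ^ t.k) (xo i ω), yi ω))))) ≤
      r₁ + 4 * Real.log 7 + Real.log (3 + 1) := by
  obtain ⟨A₁, hA₁, h1⟩ := vel_pt K b
  obtain ⟨A₂, hA₂, h2⟩ := uj_near (K + 1)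
  refine ⟨A₁ + A₂, by linarith, ?_⟩
  intro m J F c A hA n N E E' e₁' t f Kp Kp' Kc ρ ctr xo ctr' xo' D₁ D₁' Jo Ci Φ₁ hE O Jt Ef O' i hi
    hJ ht hfJ hkd hk hCy hρ0 hρ hρe N₂ hs Nf n1 n2 n3 n4 Y₀ Z₀ yi z Yd r₁ hF
  have hl := isLaw_cond F.isLaw hA
  have hpA : ∀ ω, 0 < Pool.Agent.H49.Ent.cond F.p A True ω → A ω := fun ω h =>
    Pool.STB82.cond_pos_B h
  have hY1 : (1 : ℝ) ≤ 2 ^ t.y := one_le_pow₀ one_le_two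
  have hC1 : A₁ ≤ 2 ^ t.y := by linarith
  have hC2 : A₂ ≤ 2 ^ t.y := by linarith
  have hσ : (0 : ℝ) < (2 ^ t.y) ^ 2 := by positivity
  -- sizes
  have hyk : 2 * t.y + 3 ≤ f.k := by
    have : 2 * t.y ≤ t.y * (E + 6) := by nlinarith [Nat.zero_le (t.y * E)]
    omega
  have s1 : 5 * (2 ^ t.y) ^ 2 ≤ (2 : ℝ) ^ t.k * 2 ^ f.k := by
    calc 5 * ((2 : ℝ) ^ t.y) ^ 2 ≤ 2 ^ 3 * (2 ^ t.y) ^ 2 := by
          refine mul_le_mul_of_nonneg_right (by norm_num) (by positivity)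
      _ = 2 ^ (2 * t.y + 3) := by rw [← pow_mul, ← pow_add]; congr 1; ring
      _ ≤ 2 ^ (t.k + f.k) := p2 (by omega)
      _ = _ := pow_add _ _ _
  have hd2 : (2 : ℝ) ^ f.k ≤ 2 ^ f.d := p2 hkd
  have b0 : ∀ a : ℝ, 1 ≤ a → a ≤ 2 ^ t.y → a * 2 ^ t.y / 2 ^ f.d + (2 ^ t.y) ^ 2 / 2 ^ f.k ≤
      2 ^ (2 * t.y + 1) / 2 ^ f.k := by
    intro a ha1 ha
    have q1 : a * 2 ^ t.y / 2 ^ f.d ≤ (2 ^ t.y) ^ 2 / 2 ^ f.k := by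
      refine div_le_div₀ (by positivity) ?_ (by positivity) hd2
      rw [sq]
      exact mul_le_mul_of_nonneg_right ha (by positivity)
    have q2 : (2 : ℝ) ^ (2 * t.y + 1) / 2 ^ f.k = 2 * ((2 ^ t.y) ^ 2 / 2 ^ f.k) := by
      rw [pow_succ, pow_mul']
      ring
    rw [q2]
    linarith
  have s2 : 2 * (A₁ * 2 ^ t.y / 2 ^ f.d + (2 ^ t.y) ^ 2 / 2 ^ f.k) ≤ 1 := by
    refine (mul_le_mul_of_nonneg_left (b0 A₁ hA₁ hC1) zero_le_two).trans ?_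
    rw [← mul_div_assoc, ← pow_succ', div_le_one (by positivity)]
    exact p2 (by omega)
  have u1 := uj_few hl (u := uj F c f.W f.g f.Pl (ctr' 0) Nf) (fun ω l j h => if_neg h)
    (fun ω => (cv (2 ^ f.k) (xo' 0 ω), (F.W ω, ((D₁ (slam F (t.W₀ + t.k) ω),
        D₁' (slam F (t.W₀ + t.k) ω)), (cv (2 ^ t.k) (xo i ω), yi ω))))) (by
    intro ω ω' a a' e
    simp only [Prod.mk.injEq] at e
    obtain ⟨e1, e2, e3, e4, e5⟩ := e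
    have ha := hpA ω a
    have ha' := hpA ω' a'
    refine h2 c f.W f.d f.k 1 f.g 0 (2 ^ t.y) _ Kp' f.Pl f.yt ctr' xo' D₁' Nf Ef.iP O' one_pos
      (by omega) hσ (by positivity) ?_ ?_ n3 ?_ ω ω' ha ha' (Yd.cf ω ω' ha ha' e5)
      (Yd.Pf ω ω' ha ha' e5) ?_ e1
    · rw [Nat.zero_mul, Nat.add_zero]
      exact n1
    · rw [Nat.zero_mul, Nat.add_zero]
      exact n2
    · refine le_trans (mul_le_mul_of_nonneg_left (b0 A₂ hA₂ hC2) (by positivity)) n4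
    · rw [ht]
      exact e3.2)
  refine few_vel' hl _ _ _ z (fun ω => F.T ω) _ ?_ ?_ hF u1 ?_
  · intro ω ω' a a' e
    simp only [Prod.mk.injEq] at e
    exact Yd.z ω ω' (hpA ω a) (hpA ω' a') e.2.2.2.2
  · intro ω ω' a a' e
    simp only [Prod.mk.injEq] at e
    exact congrArg Prod.fst e.2.1
  · refine cnt_int hl _ _ (by norm_num) fun ω ω' a a' e => ?_
    simp only [Prod.mk.injEq] at e
    obtain ⟨e0, e1, e2, e3, e4, e5⟩ := e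
    have ha := hpA ω a
    have ha' := hpA ω' a'
    have eT : F.T ω = F.T ω' := congrArg Prod.fst e2
    have v1 := h1 (κ₂ := c 2) (g₃ := t.g₃) hE.iP O Jt Ef O' hE.Pd hE.Pp hE.Pc hi hJ ht hfJ hσ
      (by positivity) (by positivity) (by positivity) hρ0 hρe (fun ω _ => F.dir ω _) s1 s2 ha ha'
      (Yd.Pl ω ω' ha ha' e5) (Yd.Pf ω ω' ha ha' e5) eT (Yd.c0 ω ω' ha ha' e5)
      (Yd.ci ω ω' ha ha' e5) (Yd.C0 ω ω' ha ha' e5) (Yd.Ci ω ω' ha ha' e5)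
      (Yd.cf ω ω' ha ha' e5) e1 (by rw [ht]; exact e3.2) (t.zH (slam F t.W₀ ω))
    obtain ⟨s, hs'⟩ : ∃ s : ℝ, s = 2 ^ t.k / (mui t E' b i * 2 ^ (t.W₀ + t.k + i * t.k)) :=
      ⟨_, rfl⟩
    have hs0 : 0 < s := by
      rw [hs']
      have := mui_pos t E' b i
      positivity
    have hz := Yd.zH ω ω' ha ha' e5
    have w1 : |ojet F (c 2) 1 (cgi c t E' b ctr Ci 0 ω) ω -
        ojet F (c 2) 1 (cgi c t E' b ctr Ci 0 ω') ω'| ≤ 1 / (2 : ℝ) ^ (N₂ * J) :=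
      fl_near (by positivity) e0
    obtain ⟨Q, hQ⟩ : ∃ Q : ℝ, Q = A₁ * (2 ^ t.y) ^ E * (2 * ((1 + ρ) * (2 * (A₁ * 2 ^ t.y / 2 ^ f.d +
        (2 ^ t.y) ^ 2 / 2 ^ f.k)) + A₁ * 2 ^ t.y * (5 * (2 ^ t.y) ^ 2 / (2 ^ t.k * 2 ^ f.k) +
          2 * (A₁ * 2 ^ t.y / 2 ^ f.d + (2 ^ t.y) ^ 2 / 2 ^ f.k))) +
        (Rs t.k t.k ((2 ^ t.y) ^ 2) 0 + Rs t.k t.k ((2 ^ t.y) ^ 2) i) *
          ((1 + ρ + A₁ * 2 ^ t.y) * (5 * (2 ^ t.y) ^ 2 / (2 ^ t.k * 2 ^ f.k))) * 2 ^ t.y) :=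
      ⟨_, rfl⟩
    rw [← hQ] at v1
    have w2 : |ojet F (c 2) 1 (cgi c t E' b ctr Ci i ω) ω -
        ojet F (c 2) 1 (cgi c t E' b ctr Ci i ω') ω'| ≤
        1 / (2 : ℝ) ^ (N₂ * J) + 2 ^ t.W₀ / 2 ^ t.g₃ * Q := by
      refine le_trans ?_ (add_le_add w1 le_rfl)
      have q1 : ∀ j, cgi c t E' b ctr Ci j ω' = cg c t.W₀ t.g1 (slam F t.W₀ ω').2.2
          (t.Pl (slam F t.W₀ ω')) (Rs t.k t.k ((2 ^ t.y) ^ 2) j) (ctr j ω') (mui t E' b j)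
          (t.zH (slam F t.W₀ ω)) (Ci j ω') := fun j => by
        unfold cgi
        rw [hz]
      rw [q1, q1]
      exact v1
    have w3 : s * (2 ^ t.W₀ / 2 ^ t.g₃ * Q) ≤ 1 := by
      rw [hs', hQ]
      exact vel_num hA₁ hC1 hρ0 hρ (by positivity) le_rfl hkd hk
    have w4 : s * (1 / (2 : ℝ) ^ (N₂ * J)) ≤ 1 := by
      rw [mul_one_div, div_le_one (by positivity), hs']
      exact hs
    have w5 : |s * ojet F (c 2) 1 (cgi c t E' b ctr Ci i ω) ω -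
        s * ojet F (c 2) 1 (cgi c t E' b ctr Ci i ω') ω'| ≤ 2 := by
      rw [← mul_sub, abs_mul, abs_of_pos hs0]
      refine (mul_le_mul_of_nonneg_left w2 hs0.le).trans ?_
      rw [mul_add]
      linarith
    have w6 := Pool.STB.fl_near w5
    have w7 : (2 : ℝ) + 1 = 3 := by norm_num
    rw [w7] at w6
    show |((⌊2 ^ t.k / (mui t E' b i * 2 ^ (t.W₀ + t.k + i * t.k)) *
      ojet F (c 2) 1 (cgi c t E' b ctr Ci i ω) ω⌋ : ℤ) : ℝ) -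
      ((⌊2 ^ t.k / (mui t E' b i * 2 ^ (t.W₀ + t.k + i * t.k)) *
      ojet F (c 2) 1 (cgi c t E' b ctr Ci i ω') ω'⌋ : ℤ) : ℝ)| ≤ 3
    rw [← hs']
    exact w6

end Pool.STA37
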