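import Pool.Agent.H37.STA.FaD
import Pool.Agent.H37.STA.Far
import Pool.Agent.H37.STA.Few
import Pool.Agent.H98.STB.NfF

/-!
# The row of the velocity of the target at a window

`pos_cnt`: the digits of the position. `row_out`: the velocity given the digits of a window and the
velocity of the line is as few as behind the far digits.
-/

set_option autoImplicit false

namespace Pool.STA37

open Finset Real MvPolynomial
open Pool.Agent.H49.Ent Pool.Agent.H32.Dense Pool.STK Pool.KA Pool.KSAT Pool.K2S Pool.PB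
open Pool.GEN Pool.CHT Pool.RCD
open Pool.STB (V3 Po Bx Hb cv cl_earlier PosR cnt_int)
open Pool.STB82 (Fst exists_fst)

variable {m J : ℕ}

section

variable {Ω : Type} [Fintype Ω] {q : Ω → ℝ}

/-- Three integers which differ by a few units. -/
theorem cnt_three (hq : IsLaw q) {SC : Type} (v : Ω → Fin 3 → ℤ) (C : Ω → SC) {N : ℝ} (hN : 0 ≤ N)
    (h : ∀ ω ω', 0 < q ω → 0 < q ω' → C ω = C ω' → ∀ j, |(v ω j : ℝ) - v ω' j| ≤ N) :
    CH q v C ≤ 3 * Real.log (N + 1) := by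
  have hn := hq.nonneg
  have h1 : CH q v C ≤ CH q (fun ω => (v ω 0, (v ω 1, v ω 2))) C :=
    CH_mono_left hn fun ω ω' _ _ e => by
      simp only [Prod.mk.injEq] at e
      funext j
      fin_cases j
      · exact e.1.1
      · exact e.1.2.1
      · exact e.1.2.2
  have h2 : ∀ j, CH q (fun ω => v ω j) C ≤ Real.log (N + 1) := fun j =>
    cnt_int hq (fun ω => v ω j) C hN fun ω ω' a b e => h ω ω' a b e j
  have h3 := CH_subadd hn (fun ω => v ω 0) (fun ω => (v ω 1, v ω 2)) C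
  have h4 := CH_subadd hn (fun ω => v ω 1) (fun ω => v ω 2) C
  linarith [h2 0, h2 1, h2 2]

end

/-- **The digits of the position.** -/
theorem pos_cnt {F : Fam m J} {A : F.Ω → Prop} {k : ℕ} {κ₀ κ₁ : Fin m} {xo : F.Ω → V3}
    {Y₀ : Type} {y₀ : F.Ω → Y₀} {DT D₀ D₁ : ℝ} (P : PosR F A k κ₀ κ₁ xo y₀ DT D₀ D₁)
    (hDT : 0 ≤ DT) (hD₀ : 0 ≤ D₀) (hD₁ : 0 ≤ D₁)
    (hZ : ∀ ω ω', A ω → A ω' → y₀ ω = y₀ ω' → F.Z ω = F.Z ω') {r : F.Ω → ℝ} (hr : IsLaw r)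
    (hrA : ∀ ω, 0 < r ω → A ω) :
    CH r (fun ω => F.W ω) (fun ω => (cv (2 ^ k) (xo ω), y₀ ω)) ≤ Real.log (DT + 1) ∧
    CH r (fun ω => (F.X J ω κ₁, F.X J ω κ₀))
      (fun ω => (F.W ω, (cv (2 ^ k) (xo ω), y₀ ω))) ≤ Real.log (D₀ + 1) + Real.log (D₁ + 1) := by
  have hn := hr.nonneg
  have b3 : CH r (fun ω => F.X J ω κ₀) (fun ω => (F.W ω, (cv (2 ^ k) (xo ω), y₀ ω))) ≤
      Real.log (D₀ + 1) :=
    cnt_int hr _ _ hD₀ fun ω ω' a b e => by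
      simp only [Prod.mk.injEq] at e
      exact P.p0 ω ω' (hrA _ a) (hrA _ b) e.2.2 e.2.1 e.1
  have b4 : CH r (fun ω => F.X J ω κ₁)
      (fun ω => (F.X J ω κ₀, (F.W ω, (cv (2 ^ k) (xo ω), y₀ ω)))) ≤ Real.log (D₁ + 1) :=
    cnt_int hr _ _ hD₁ fun ω ω' a b e => by
      simp only [Prod.mk.injEq] at e
      exact P.p1 ω ω' (hrA _ a) (hrA _ b) e.2.2.2 e.2.2.1 e.2.1 e.1
  constructor
  · have c1 : CH r (fun ω => F.W ω) (fun ω => (cv (2 ^ k) (xo ω), y₀ ω)) ≤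
        CH r (fun ω => (F.T ω : ℤ)) (fun ω => (cv (2 ^ k) (xo ω), y₀ ω)) :=
      CH_mono_left hn fun ω ω' a b e => by
        simp only [Prod.mk.injEq] at e
        have e4 : F.T ω = F.T ω' := by exact_mod_cast e.1
        have e5 := hZ _ _ (hrA _ a) (hrA _ b) e.2.2
        show F.W ω = F.W ω'
        unfold Fam.W
        rw [e4, e5]
    refine c1.trans (cnt_int hr _ _ hDT fun ω ω' a b e => ?_)
    simp only [Prod.mk.injEq] at e
    exact P.tm ω ω' (hrA _ a) (hrA _ b) e.2 e.1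
  · have h1 := CH_chain hn (fun ω => F.X J ω κ₁) (fun ω => F.X J ω κ₀)
      (fun ω => (F.W ω, (cv (2 ^ k) (xo ω), y₀ ω)))
    linarith

/-- The lower bounds of the position over a closed label. -/
theorem pos_low {F : Fam m J} {A : F.Ω → Prop} (hA : 0 < Pe F.p A) {w : ℕ} {κ₀ κ₁ : Fin m}
    {Zt : Type} {z : F.Ω → Zt} (hz : Cl2 (slam F w) (fun ω => ptr F J ω) A z) {l0 l1 : ℝ}
    (kA : ∀ (V₂ : Type) (z₂ : PtT F → V₂) (z₂' : LnT F → V₂),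
      (∀ ω, A ω → z₂ (ptr F J ω) = z₂' (slam F w ω)) →
      l0 ≤ CH (Pool.Agent.H49.Ent.cond F.p A True) (fun ω => F.X J ω κ₀)
        (fun ω => (z₂' (slam F w ω), F.W ω)) ∧
      l1 ≤ CH (Pool.Agent.H49.Ent.cond F.p A True) (fun ω => F.X J ω κ₁)
        (fun ω => (F.X J ω κ₀, z₂' (slam F w ω), F.W ω))) :
    l0 + l1 ≤ CH (Pool.Agent.H49.Ent.cond F.p A True) (fun ω => (F.X J ω κ₁, F.X J ω κ₀))
      (fun ω => (z ω, F.W ω)) := by
  have hl := isLaw_cond F.isLaw hA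
  have hn := hl.nonneg
  have hpA : ∀ ω, 0 < Pool.Agent.H49.Ent.cond F.p A True ω → A ω := fun ω h =>
    Pool.STB82.cond_pos_B h
  obtain ⟨⟨φ, hφ⟩, ψ, hψ⟩ := hz
  obtain ⟨k0, k1⟩ := kA Zt ψ φ fun ω hω => by rw [← hφ ω hω, ← hψ ω hω]
  have b1 := CH_chain hn (fun ω => F.X J ω κ₁) (fun ω => F.X J ω κ₀) (fun ω => (z ω, F.W ω))
  have b3 : CH (Pool.Agent.H49.Ent.cond F.p A True) (fun ω => F.X J ω κ₀)
      (fun ω => (φ (slam F w ω), F.W ω)) ≤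
      CH (Pool.Agent.H49.Ent.cond F.p A True) (fun ω => F.X J ω κ₀) (fun ω => (z ω, F.W ω)) :=
    CH_mono_cond hn fun ω ω' a b e => by
      simp only [Prod.mk.injEq] at e ⊢
      exact ⟨by rw [hφ ω (hpA ω a), hφ ω' (hpA ω' b)]; exact e.1, e.2⟩
  have b4 : CH (Pool.Agent.H49.Ent.cond F.p A True) (fun ω => F.X J ω κ₁)
      (fun ω => (F.X J ω κ₀, φ (slam F w ω), F.W ω)) ≤
      CH (Pool.Agent.H49.Ent.cond F.p A True) (fun ω => F.X J ω κ₁)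
      (fun ω => (F.X J ω κ₀, (z ω, F.W ω))) :=
    CH_mono_cond hn fun ω ω' a b e => by
      simp only [Prod.mk.injEq] at e ⊢
      exact ⟨e.1, by rw [hφ ω (hpA ω a), hφ ω' (hpA ω' b)]; exact e.2.1, e.2.2⟩
  linarith

/-- **The row of the velocity given the digits of a window**, from the row behind the far digits. -/
theorem row_out {F : Fam m J} {A : F.Ω → Prop} (hA : 0 < Pe F.p A) {t₀ Wi k k₁ w' : ℕ}
    (h1 : t₀ ≤ Wi) (h2 : Wi + k ≤ w') (h3 : w' ≤ J) {κ₀ κ₁ : Fin m} {xo xf : F.Ω → V3}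
    {Jo : F.Ω → Po} {Y₀ : Type} {yi : F.Ω → Y₀}
    (cx : Cl2 (slam F (Wi + k)) (fun ω => ptr F J ω) A xo)
    (cJ : Cl2 (slam F (Wi + k)) (fun ω => ptr F J ω) A Jo)
    (cy : Cl2 (slam F Wi) (fun ω => ptr F J ω) A yi)
    (cf : Cl2 (slam F w') (fun ω => ptr F J ω) A xf)
    (hZ : ∀ ω ω', A ω → A ω' → yi ω = yi ω' → F.Z ω = F.Z ω')
    {DT D₀ D₁ DT' D₀' D₁' : ℝ} (d0 : 0 ≤ DT) (d1 : 0 ≤ D₀) (d2 : 0 ≤ D₁) (d3 : 0 ≤ DT')
    (d4 : 0 ≤ D₀') (d5 : 0 ≤ D₁')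
    (P : PosR F A k κ₀ κ₁ xo yi DT D₀ D₁) (P' : PosR F A k₁ κ₀ κ₁ xf yi DT' D₀' D₁')
    (hf : ∀ ω ω', A ω → A ω' → yi ω = yi ω' → F.W ω = F.W ω' → F.X J ω κ₀ = F.X J ω' κ₀ →
      F.X J ω κ₁ = F.X J ω' κ₁ → ∀ j, |xf ω j - xf ω' j| ≤ 5 / 2 ^ k₁)
    {lT l0 l1 l0' l1' : ℝ}
    (kT : lT ≤ CH (Pool.Agent.H49.Ent.cond F.p A True) (fun ω => F.W ω) (slam F (Wi + k)))
    (kA : ∀ (V₂ : Type) (z₂ : PtT F → V₂) (z₂' : LnT F → V₂),
      (∀ ω, A ω → z₂ (ptr F J ω) = z₂' (slam F (Wi + k) ω)) →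
      l0 ≤ CH (Pool.Agent.H49.Ent.cond F.p A True) (fun ω => F.X J ω κ₀)
        (fun ω => (z₂' (slam F (Wi + k) ω), F.W ω)) ∧
      l1 ≤ CH (Pool.Agent.H49.Ent.cond F.p A True) (fun ω => F.X J ω κ₁)
        (fun ω => (F.X J ω κ₀, z₂' (slam F (Wi + k) ω), F.W ω)))
    (kB : ∀ (V₂ : Type) (z₂ : PtT F → V₂) (z₂' : LnT F → V₂),
      (∀ ω, A ω → z₂ (ptr F J ω) = z₂' (slam F w' ω)) →
      l0' ≤ CH (Pool.Agent.H49.Ent.cond F.p A True) (fun ω => F.X J ω κ₀)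
        (fun ω => (z₂' (slam F w' ω), F.W ω)) ∧
      l1' ≤ CH (Pool.Agent.H49.Ent.cond F.p A True) (fun ω => F.X J ω κ₁)
        (fun ω => (F.X J ω κ₀, z₂' (slam F w' ω), F.W ω)))
    {𝒟 : Type} {D : LnT F → 𝒟} {X : 𝒟 → V3} {vel : F.Ω → ℤ} {Mv K : ℝ} (hK : 0 ≤ K)
    (hv : ∀ ω, A ω → |(vel ω : ℝ) - Mv * ∑ i, eval (xo ω) (pderiv i (Jo ω)) *
      X (D (slam F t₀ ω)) i| ≤ K)
    {SU : Type} {u : F.Ω → SU} {κ f : ℝ}
    (fr : ∀ (V : Type) (z : F.Ω → V) (V' : Type) (z' : F.Ω → V'),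
      Fst (slam F t₀) (fun ω => ptr F J ω) A z → Fst (slam F w') (fun ω => ptr F J ω) A z' →
      CH (Pool.Agent.H49.Ent.cond F.p A True) u (fun ω => (z ω, F.W ω)) ≤
        CH (Pool.Agent.H49.Ent.cond F.p A True) u (fun ω => (z' ω, F.W ω)) + κ)
    (fw : ∀ (V : Type) (z : F.Ω → V), Fst (slam F t₀) (fun ω => ptr F J ω) A z →
      CH (Pool.Agent.H49.Ent.cond F.p A True) (fun ω => D (slam F t₀ ω))
        (fun ω => (u ω, (z ω, F.W ω))) ≤ f)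
    {fe : ℝ}
    (few : CH (Pool.Agent.H49.Ent.cond F.p A True) vel (fun ω => (cv (2 ^ k₁) (xf ω),
      (F.W ω, (D (slam F t₀ ω), (cv (2 ^ k) (xo ω), yi ω))))) ≤ fe) :
    CH (Pool.Agent.H49.Ent.cond F.p A True) vel
      (fun ω => (D (slam F t₀ ω), (cv (2 ^ k) (xo ω), yi ω))) ≤
      fe + ((Real.log (DT + 1) - lT) + (Real.log (D₀ + 1) + Real.log (D₁ + 1) - (l0 + l1)) +
        (Real.log (D₀' + 1) + Real.log (D₁' + 1) - (l0' + l1')) + 2 * Real.log (2 * K + 1) +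
        3 * Real.log 7 + (κ + f)) := by
  have hl := isLaw_cond F.isLaw hA
  have hn := hl.nonneg
  have hpA : ∀ ω, 0 < Pool.Agent.H49.Ent.cond F.p A True ω → A ω := fun ω h =>
    Pool.STB82.cond_pos_B h
  obtain ⟨VA, zA, hzA⟩ := exists_fst (slam F (Wi + k)) (fun ω => ptr F J ω) A
  obtain ⟨VB, zB, hzB⟩ := exists_fst (slam F w') (fun ω => ptr F J ω) A
  obtain ⟨V0, y₀, hy₀⟩ := exists_fst (slam F t₀) (fun ω => ptr F J ω) A
  have hBA' : ∀ ω ω', A ω → A ω' → zB ω = zB ω' → zA ω = zA ω' :=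
    hzA.mono hzB (Pool.STB82.slam_coarse F h2 h3 A)
  have hA0' : ∀ ω ω', A ω → A ω' → zA ω = zA ω' → y₀ ω = y₀ ω' :=
    hy₀.mono hzA (Pool.STB82.slam_coarse F (by omega) (by omega) A)
  have cyA : Cl2 (slam F (Wi + k)) (fun ω => ptr F J ω) A yi :=
    cy.mono (Pool.STB82.slam_coarse F (Nat.le_add_right _ _) (by omega) A) ⟨id, fun _ _ => rfl⟩
  have hBA : Det (Pool.Agent.H49.Ent.cond F.p A True) zB zA := fun ω ω' a b e =>
    hBA' ω ω' (hpA ω a) (hpA ω' b) e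
  have hBf : Det (Pool.Agent.H49.Ent.cond F.p A True) zB (fun ω => cv (2 ^ k₁) (xf ω)) :=
    fun ω ω' a b e => by
      have := hzB.fin _ _ cf ω ω' (hpA ω a) (hpA ω' b) e
      simp only [this]
  have hAC : Det (Pool.Agent.H49.Ent.cond F.p A True) zA
      (fun ω => (cv (2 ^ k) (xo ω), yi ω)) := fun ω ω' a b e => by
    have e1 := hzA.fin _ _ cx ω ω' (hpA ω a) (hpA ω' b) e
    have e2 := hzA.fin _ _ cyA ω ω' (hpA ω a) (hpA ω' b) e
    simp only [e1, e2]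
  -- the velocity
  have hvel : CH (Pool.Agent.H49.Ent.cond F.p A True) vel
      (fun ω => (zA ω, D (slam F t₀ ω))) ≤ Real.log (2 * K + 1) := by
    refine cnt_int hl _ _ (by linarith) fun ω ω' a b e => ?_
    simp only [Prod.mk.injEq] at e
    have e1 := hzA.fin _ _ cx ω ω' (hpA ω a) (hpA ω' b) e.1
    have e2 := hzA.fin _ _ cJ ω ω' (hpA ω a) (hpA ω' b) e.1
    have g1 := abs_le.1 (hv ω (hpA ω a))
    have g2 := abs_le.1 (hv ω' (hpA ω' b))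
    rw [e1, e2, e.2] at g1
    rw [abs_le]
    constructor <;> linarith
  obtain ⟨p1, p2⟩ := pos_cnt P d0 d1 d2 hZ hl hpA
  have p3 := (pos_cnt P' d3 d4 d5 hZ hl hpA).2
  have lwA := pos_low hA hzA.cl kA
  have lwB := pos_low hA hzB.cl kB
  have kT' : lT ≤ CH (Pool.Agent.H49.Ent.cond F.p A True) (fun ω => F.W ω)
      (fun ω => (zA ω, D (slam F t₀ ω))) := by
    refine kT.trans (CH_mono_cond hn fun ω ω' a b e => ?_)
    obtain ⟨⟨φ, hφ⟩, -⟩ := hzA.cl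
    obtain ⟨χ, hχ⟩ := Pool.STB82.slam_coarse F (show t₀ ≤ Wi + k by omega) (by omega) A
    simp only [Prod.mk.injEq]
    exact ⟨by rw [hφ ω (hpA ω a), hφ ω' (hpA ω' b), e],
      by rw [hχ ω (hpA ω a), hχ ω' (hpA ω' b), e]⟩
  have x4 : CH (Pool.Agent.H49.Ent.cond F.p A True) (fun ω => (F.X J ω κ₁, F.X J ω κ₀))
      (fun ω => (F.W ω, (cv (2 ^ k₁) (xf ω), (cv (2 ^ k) (xo ω), yi ω)))) ≤
      Real.log (D₀' + 1) + Real.log (D₁' + 1) := by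
    refine (CH_mono_cond hn fun ω ω' a b e => ?_).trans p3
    simp only [Prod.mk.injEq] at e ⊢
    exact ⟨e.1, e.2.1, e.2.2.2⟩
  have x5 : CH (Pool.Agent.H49.Ent.cond F.p A True) (fun ω => cv (2 ^ k₁) (xf ω))
      (fun ω => ((F.X J ω κ₁, F.X J ω κ₀), (F.W ω, (cv (2 ^ k) (xo ω), yi ω)))) ≤
      3 * Real.log (6 + 1) := by
    refine cnt_three hl _ _ (by norm_num) fun ω ω' a b e j => ?_
    simp only [Prod.mk.injEq] at e
    have g1 := hf ω ω' (hpA ω a) (hpA ω' b) e.2.2.2 e.2.1 e.1.2 e.1.1 j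
    have g2 := Pool.STB.fl_near (x := ((2 ^ k₁ : ℕ) : ℝ) * xf ω j)
      (y := ((2 ^ k₁ : ℕ) : ℝ) * xf ω' j) (D := 5) (by
        rw [← mul_sub, abs_mul, abs_of_pos (by positivity : (0 : ℝ) < ((2 ^ k₁ : ℕ) : ℝ))]
        push_cast
        calc (2 : ℝ) ^ k₁ * |xf ω j - xf ω' j| ≤ 2 ^ k₁ * (5 / 2 ^ k₁) :=
              mul_le_mul_of_nonneg_left g1 (by positivity)
          _ = 5 := mul_div_cancel₀ _ (by positivity))
    unfold cv
    linarith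
  have hfr := free_tr hl u (fun ω => D (slam F t₀ ω)) y₀ zB (fun ω => F.W ω)
    (fun ω ω' a b e => hA0' ω ω' (hpA ω a) (hpA ω' b) (hBA ω ω' a b e))
    (fr V0 y₀ VB zB hy₀ hzB) (fw V0 y₀ hy₀)
  have hfr' : CH (Pool.Agent.H49.Ent.cond F.p A True) (fun ω => D (slam F t₀ ω))
      (fun ω => (zA ω, F.W ω)) ≤ CH (Pool.Agent.H49.Ent.cond F.p A True)
      (fun ω => D (slam F t₀ ω)) (fun ω => (zB ω, F.W ω)) + (κ + f) := by
    refine (CH_mono_cond hn fun ω ω' a b e => ?_).trans hfr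
    simp only [Prod.mk.injEq] at e ⊢
    exact ⟨hA0' ω ω' (hpA ω a) (hpA ω' b) e.1, e.2⟩
  have hout := far_out hl vel (fun ω => D (slam F t₀ ω)) (fun ω => F.W ω)
    (fun ω => (cv (2 ^ k) (xo ω), yi ω)) (fun ω => (F.X J ω κ₁, F.X J ω κ₀))
    (fun ω => cv (2 ^ k₁) (xf ω)) zA zB hBA hBf hAC (lT := lT) (lA := l0 + l1)
    (lB := l0' + l1') (a1 := Real.log (DT + 1) - lT) (a2 := 0)
    (a3 := Real.log (D₀ + 1) + Real.log (D₁ + 1) - (l0 + l1)) (a4 := 0) (a5 := 0)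
    (a6 := Real.log (D₀' + 1) + Real.log (D₁' + 1) - (l0' + l1'))
    hvel (by linarith) (by linarith) (by linarith) (by linarith) (by linarith) (by linarith) x5
    hfr'
  have e3 : (6 : ℝ) + 1 = 7 := by norm_num
  rw [e3] at hout
  linarith
end Pool.STA37
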