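import Pool.Agent.H65.STB.Jev
import Pool.Agent.H77.STB.Vso
import Pool.Agent.H91.LA.Fml
import Pool.Agent.H13.EJ.Der

/-!
# The velocity of the target in a window of the chain

`vel_ev`: on half of the event the own path of the height of the target over a closed polynomial has
the velocity `∇J . X`, up to the resolution of the window.
-/

set_option autoImplicit false

namespace Pool.STA37

open Finset Real MvPolynomial
open Pool.Agent.H49.Ent Pool.Agent.H32.Dense Pool.STK Pool.KA Pool.KSAT Pool.K2S Pool.PB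
open Pool.GEN Pool.CHT Pool.D2F
open Pool.STB (V3 Po Bx Hb hom_zero)
open Pool.STB65 (uni_der lip_bx grow bxm bxa)
open Pool.STB77 (lnp lnp_eval lnp_deg opt)
open Pool.LA91 (jet ojet eval_alp)
open Pool.PB.Trl (rt rt_mem t_rt)
open Pool.FLF (Fam.sub)
open Pool.NFT33 (rem_evs)

variable {m J : ℕ}

/-- The jet of order one is a derivative. -/
theorem hd_jet (H : MvPolynomial (Option (Fin m)) ℝ) (b v : Option (Fin m) → ℝ) :
    HasDerivAt (fun s : ℝ => eval (fun o => b o + s * v o) H) (jet 1 H b v) 0 := by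
  have h1 := (aeval (Pool.LA91.lp b v) H : Polynomial ℝ).hasDerivAt 0
  have e : (fun s : ℝ => eval (fun o => b o + s * v o) H) =
      fun s => (aeval (Pool.LA91.lp b v) H : Polynomial ℝ).eval s := by
    funext s
    rw [eval_alp]
  rw [e]
  exact h1

/-- The line through `p` with the velocity `v`, as polynomials. -/
noncomputable def lq (p v : V3) (j : Fin 3) : Polynomial ℝ :=
  Polynomial.C (p j) + Polynomial.C (v j) * Polynomial.X

theorem lq_deg (p v : V3) (j : Fin 3) : (lq p v j).natDegree ≤ 1 := by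
  unfold lq
  refine (Polynomial.natDegree_add_le _ _).trans (max_le ?_ ?_)
  · rw [Polynomial.natDegree_C]
    exact Nat.zero_le _
  · exact (Polynomial.natDegree_C_mul_le _ _).trans Polynomial.natDegree_X_le

theorem lq_eval (p v : V3) (P : Po) (τ : ℝ) :
    (aeval (lq p v) P).eval τ = eval (p + τ • v) P := by
  rw [Pool.KBX.eval_aeval_poly]
  congr 2
  funext j
  show (Polynomial.C (p j) + Polynomial.C (v j) * Polynomial.X).eval τ = p j + τ * v j
  rw [Polynomial.eval_add, Polynomial.eval_mul, Polynomial.eval_C, Polynomial.eval_C,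
    Polynomial.eval_X]
  ring

/-- The derivative on a line. -/
theorem lq_der (p v : V3) (P : Po) (τ : ℝ) :
    (Polynomial.derivative (aeval (lq p v) P)).eval τ =
      ∑ j, eval (p + τ • v) (pderiv j P) * v j := by
  have h1 := (aeval (lq p v) P : Polynomial ℝ).hasDerivAt τ
  have h2 := Pool.EJ13.line_der p v P τ
  have e : (fun s : ℝ => eval (p + s • v) P) =
      fun s => (aeval (lq p v) P : Polynomial ℝ).eval s := by
    funext s
    rw [lq_eval]
  rw [e] at h2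
  rw [h1.unique h2, Pool.EJ13.eval_dX]
  exact Finset.sum_congr rfl fun j _ => mul_comm _ _

/-- A homogeneous polynomial of degree at least two has no gradient at the origin. -/
theorem hom_grad {b : ℕ} (hb : 2 ≤ b) {Φ : Po} (h : Φ.IsHomogeneous b) (j : Fin 3) :
    eval (0 : V3) (pderiv j Φ) = 0 :=
  hom_zero (h.pderiv (i := j)) (by omega)

/-- The own path of a height in a window, as a polynomial of the time of the window. -/
theorem lnp_der (F : Fam m J) {w : ℕ} (hw : w ≤ J) (ω : F.Ω)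
    (H : MvPolynomial (Option (Fin m)) ℝ) :
    (Polynomial.derivative (aeval (lnp w ((slam F w ω).1, ((), (slam F w ω).2.2))) H)).eval
      (rt F w ω) = 1 / 2 ^ w * jet 1 H (bt F ω) (bd F ω) := by
  have hp : (0 : ℝ) < 2 ^ w := by positivity
  have h1 := (aeval (lnp w ((slam F w ω).1, ((), (slam F w ω).2.2))) H : Polynomial ℝ).hasDerivAt
    (rt F w ω)
  have e : (fun τ : ℝ => (aeval (lnp w ((slam F w ω).1, ((), (slam F w ω).2.2))) H :
      Polynomial ℝ).eval τ) = fun τ => eval (fun o => bt F ω o + ((τ - rt F w ω) / 2 ^ w) *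
        bd F ω o) H := by
    funext τ
    rw [Pool.KBX.eval_aeval_poly]
    congr 2
    funext o
    rw [lnp_eval]
    show bt F ω o + ((((slam F w ω).2.2 : ℝ) + τ) / 2 ^ w - F.t ω) * bd F ω o = _
    rw [t_rt F hw ω]
    ring
  have h2 : HasDerivAt (fun τ : ℝ => (τ - rt F w ω) / 2 ^ w) (1 / 2 ^ w) (rt F w ω) :=
    ((hasDerivAt_id (rt F w ω)).sub_const _).div_const _
  have h3 : HasDerivAt (fun τ : ℝ => eval (fun o => bt F ω o + ((τ - rt F w ω) / 2 ^ w) *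
      bd F ω o) H) (jet 1 H (bt F ω) (bd F ω) * (1 / 2 ^ w)) (rt F w ω) := by
    refine HasDerivAt.comp (x := rt F w ω)
      (h₂ := fun s : ℝ => eval (fun o => bt F ω o + s * bd F ω o) H)
      (h := fun τ : ℝ => (τ - rt F w ω) / 2 ^ w) ?_ h2
    rw [sub_self, zero_div]
    exact hd_jet H _ _
  rw [← e] at h3
  rw [h1.unique h3]
  ring

theorem bx_sm {r c : ℝ} {q : V3} (hq : Bx r q) (h : |c| ≤ 1) (hr : 0 ≤ r) : Bx r (c • q) :=
  fun i => by
    show |c * q i| ≤ r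
    rw [abs_mul]
    calc |c| * |q i| ≤ 1 * r := mul_le_mul h (hq i) (abs_nonneg _) zero_le_one
      _ = r := one_mul r

/-- **The velocity of the target in a window.** -/
theorem vel_ev (m D : ℕ) : ∃ C : ℝ, 1 ≤ C ∧ ∀ {J : ℕ} (F : Fam m J) (B : F.Ω → Prop)
    (hB : 0 < Pe F.p B) (w b : ℕ) (θ mu ε Kc : ℝ) (κ : Fin m)
    (G : F.Ω → MvPolynomial (Option (Fin m)) ℝ) (x V : F.Ω → V3) (Jo Φ : F.Ω → Po),
    w ≤ J → 0 ≤ θ → (Fam.sub F B hB).Tm θ → C * (θ + 1) ≤ ((J : ℝ) - w) * Real.log 2 →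
    0 < mu → 0 < ε → ε ≤ 1 → 1 ≤ Kc → 2 ≤ b → b ≤ D →
    (∀ ω, B ω → (G ω).totalDegree ≤ D) → 1 ≤ D → (∀ ω, B ω → (Jo ω).totalDegree ≤ D) →
    (∀ ω, B ω → Hb b 1 (Φ ω)) → (∀ ω, B ω → Bx 1 (V ω)) → (∀ ω, B ω → Bx 1 (x ω)) →
    (∀ ω, B ω → ∀ q, Bx 1 q → |eval q (Jo ω)| ≤ Kc) →
    (∀ ω ω', B ω → B ω' → slam F w ω = slam F w ω' → G ω = G ω') →
    (∀ ω, B ω → |F.x ω κ - eval (bt F ω) (G ω) - mu * eval (x ω) (Jo ω)| ≤ mu * ε) →
    (∀ ω ω', B ω → B ω' → slam F w ω = slam F w ω' →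
      Bx ε (x ω' - x ω - (rt F w ω' - rt F w ω) • V ω)) →
    (∀ ω ω', B ω → B ω' → slam F w ω = slam F w ω' → ∀ q, Bx 4 q →
      |(eval q (Jo ω') + eval (q - x ω') (Φ ω)) - (eval q (Jo ω) + eval (q - x ω) (Φ ω))| ≤ ε) →
    ∃ B' : F.Ω → Prop, Sub B' B ∧ Pe F.p B / 2 ≤ Pe F.p B' ∧ ∀ ω, B' ω →
      |1 / 2 ^ w * ojet F κ 1 (G ω) ω - mu * ∑ j, eval (x ω) (pderiv j (Jo ω)) * V ω j| ≤
        mu * (Real.exp (C * (θ + 1)) * Kc * ε) := by
  classical
  obtain ⟨C₁, hC₁, hrem⟩ := rem_evs m D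
  obtain ⟨C₂, hC₂, hgr⟩ := grow D
  obtain ⟨C₃, hC₃, hlip⟩ := lip_bx D
  obtain ⟨C₄, hC₄, hud⟩ := uni_der D
  obtain ⟨A, hA⟩ : ∃ A : ℝ, A = 2 + 2 * (C₃ * C₂ * 4 ^ D) := ⟨_, rfl⟩
  have hA0 : 0 < A := by rw [hA]; positivity
  have hA1 : 1 ≤ A := by
    have : 0 ≤ 2 * (C₃ * C₂ * 4 ^ D) := by positivity
    rw [hA]
    linarith
  refine ⟨C₁ + C₄ * A, by nlinarith, ?_⟩
  intro J F B hB w b θ mu ε Kc κ G x V Jo Φ hw hθ hTm hJ hmu hε hε1 hKc hb hbD hGd hD1 hJd hΦ hV hx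
    hJb hcl hval hpos hjet
  have hJ1 : C₁ * (θ + 1) ≤ ((J : ℝ) - w) * Real.log 2 := by
    refine le_trans ?_ hJ
    have : 0 ≤ C₄ * A * (θ + 1) := by positivity
    nlinarith
  have hrt : ∀ ω, 0 ≤ rt F w ω ∧ rt F w ω ≤ 1 := fun ω => rt_mem F w ω
  obtain ⟨Z, hZ⟩ : ∃ Z : F.Ω → Polynomial ℝ, ∀ ω, Z ω =
      Polynomial.C (1 / mu) * aeval (lnp w ((slam F w ω).1, ((), (slam F w ω).2.2)))
        (X (some κ) - G ω) - (aeval (lq (x ω - rt F w ω • V ω) (V ω)) (Jo ω) +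
          aeval (lq (-(rt F w ω • V ω)) (V ω)) (Φ ω)) := ⟨_, fun _ => rfl⟩
  have hHd : ∀ ω, B ω → (X (some κ) - G ω).totalDegree ≤ D := fun ω hω =>
    (totalDegree_sub _ _).trans (max_le ((totalDegree_X _).le.trans hD1) (hGd ω hω))
  have hZd : ∀ ω, B ω → (Z ω).natDegree ≤ D := fun ω hω => by
    rw [hZ]
    refine (Polynomial.natDegree_sub_le _ _).trans (max_le ?_ ?_)
    · exact (Polynomial.natDegree_C_mul_le _ _).trans
        (Pool.KBX.natDegree_aeval_le _ _ (fun o => lnp_deg w _ o) (hHd ω hω))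
    · refine (Polynomial.natDegree_add_le _ _).trans (max_le ?_ ?_)
      · exact Pool.KBX.natDegree_aeval_le _ _ (lq_deg _ _) (hJd ω hω)
      · exact Pool.KBX.natDegree_aeval_le _ _ (lq_deg _ _)
          ((hΦ ω hω).hom.totalDegree_le.trans hbD)
  -- the values at the own times of the line
  have hown : ∀ ω₀ ω, B ω₀ → B ω → slam F w ω₀ = slam F w ω →
      |(Z ω₀).eval (rt F w ω)| ≤ A * Kc * ε := by
    intro ω₀ ω h0 h1 hs
    have e1 : (aeval (lnp w ((slam F w ω₀).1, ((), (slam F w ω₀).2.2)))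
        (X (some κ) - G ω₀) : Polynomial ℝ).eval (rt F w ω) =
          F.x ω κ - eval (bt F ω) (G ω) := by
      rw [Pool.KBX.eval_aeval_poly, hcl ω₀ ω h0 h1 hs, hs]
      have e2 : (fun o => (lnp w ((slam F w ω).1, ((), (slam F w ω).2.2)) o).eval (rt F w ω)) =
          bt F ω := by
        funext o
        rw [lnp_eval, ← t_rt F hw ω]
        show bt F ω o + (F.t ω - F.t ω) * bd F ω o = _
        ring
      rw [e2, map_sub, eval_X]
      rfl
    obtain ⟨τ, hτ⟩ : ∃ τ : ℝ, τ = rt F w ω - rt F w ω₀ := ⟨_, rfl⟩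
    have hτ1 : |τ| ≤ 1 := by
      rw [hτ, abs_le]
      constructor <;> linarith [(hrt ω).1, (hrt ω).2, (hrt ω₀).1, (hrt ω₀).2]
    have e3 : (x ω₀ - rt F w ω₀ • V ω₀) + rt F w ω • V ω₀ = x ω₀ + τ • V ω₀ := by
      rw [hτ, sub_smul]
      abel
    have e4 : -(rt F w ω₀ • V ω₀) + rt F w ω • V ω₀ = τ • V ω₀ := by
      rw [hτ, sub_smul]
      abel
    have e5 : (Z ω₀).eval (rt F w ω) = 1 / mu * (F.x ω κ - eval (bt F ω) (G ω)) -
        (eval (x ω₀ + τ • V ω₀) (Jo ω₀) + eval (τ • V ω₀) (Φ ω₀)) := by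
      rw [hZ, Polynomial.eval_sub, Polynomial.eval_mul, Polynomial.eval_C, e1,
        Polynomial.eval_add, lq_eval, lq_eval, e3, e4]
    have a1 : |1 / mu * (F.x ω κ - eval (bt F ω) (G ω)) - eval (x ω) (Jo ω)| ≤ ε := by
      have h2 : 1 / mu * (F.x ω κ - eval (bt F ω) (G ω)) - eval (x ω) (Jo ω) =
          1 / mu * (F.x ω κ - eval (bt F ω) (G ω) - mu * eval (x ω) (Jo ω)) := by
        field_simp
      rw [h2, abs_mul, abs_of_pos (one_div_pos.2 hmu)]
      calc 1 / mu * |F.x ω κ - eval (bt F ω) (G ω) - mu * eval (x ω) (Jo ω)| ≤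
          1 / mu * (mu * ε) := mul_le_mul_of_nonneg_left (hval ω h1) (by positivity)
        _ = ε := by field_simp
    have a2 : |eval (x ω) (Jo ω) - (eval (x ω) (Jo ω₀) + eval (x ω - x ω₀) (Φ ω₀))| ≤ ε := by
      have h2 := hjet ω₀ ω h0 h1 hs (x ω) (bxm (hx ω h1) (by norm_num))
      rwa [sub_self, hom_zero (hΦ ω₀ h0).hom (by omega), add_zero] at h2
    obtain ⟨y, hy⟩ : ∃ y : V3, y = x ω - x ω₀ - τ • V ω₀ := ⟨_, rfl⟩
    have hyb : Bx ε y := by
      rw [hy, hτ]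
      exact hpos ω₀ ω h0 h1 hs
    have hVb : Bx 1 (τ • V ω₀) := bx_sm (hV ω₀ h0) hτ1 zero_le_one
    have hz : Bx (4 / 2) (x ω₀ + τ • V ω₀) := bxm (bxa (hx ω₀ h0) hVb) (by norm_num)
    have hxz : x ω = x ω₀ + τ • V ω₀ + y := by
      rw [hy]
      abel
    have hxz' : x ω - x ω₀ = τ • V ω₀ + y := by
      rw [hy]
      abel
    have a3 : |eval (x ω) (Jo ω₀) - eval (x ω₀ + τ • V ω₀) (Jo ω₀)| ≤
        C₃ * C₂ * 4 ^ D * Kc * ε := by
      have h2 := hlip (Jo ω₀) (C₂ * Kc * (4 / 1) ^ D) 4 ε (hJd ω₀ h0) (by norm_num) hε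
        (by linarith) (hgr (Jo ω₀) Kc 1 4 (hJd ω₀ h0) one_pos (by norm_num) (hJb ω₀ h0))
        (x ω₀ + τ • V ω₀) y hz hyb
      rw [← hxz] at h2
      refine h2.trans ?_
      have h3 : C₃ * (C₂ * Kc * (4 / 1) ^ D) * (ε / 4) = C₃ * C₂ * 4 ^ D * Kc * ε / 4 := by
        rw [div_one]
        ring
      rw [h3]
      have : 0 ≤ C₃ * C₂ * 4 ^ D * Kc * ε := by positivity
      linarith
    have a4 : |eval (x ω - x ω₀) (Φ ω₀) - eval (τ • V ω₀) (Φ ω₀)| ≤
        C₃ * C₂ * 4 ^ D * Kc * ε := by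
      have hd : (Φ ω₀).totalDegree ≤ D := (hΦ ω₀ h0).hom.totalDegree_le.trans hbD
      have h2 := hlip (Φ ω₀) (C₂ * 1 * (4 / 1) ^ D) 4 ε hd (by norm_num) hε
        (by linarith) (hgr (Φ ω₀) 1 1 4 hd one_pos (by norm_num) (hΦ ω₀ h0).bd)
        (τ • V ω₀) y (bxm hVb (by norm_num)) hyb
      rw [← hxz'] at h2
      refine h2.trans ?_
      have h3 : C₃ * (C₂ * 1 * (4 / 1) ^ D) * (ε / 4) = C₃ * C₂ * 4 ^ D * 1 * ε / 4 := by
        rw [div_one]
        ring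
      rw [h3]
      have h4 : C₃ * C₂ * 4 ^ D * 1 * ε ≤ C₃ * C₂ * 4 ^ D * Kc * ε := by
        refine mul_le_mul_of_nonneg_right (mul_le_mul_of_nonneg_left hKc (by positivity)) hε.le
      have : 0 ≤ C₃ * C₂ * 4 ^ D * 1 * ε := by positivity
      linarith
    rw [e5]
    have h5 : 1 / mu * (F.x ω κ - eval (bt F ω) (G ω)) -
        (eval (x ω₀ + τ • V ω₀) (Jo ω₀) + eval (τ • V ω₀) (Φ ω₀)) =
        (1 / mu * (F.x ω κ - eval (bt F ω) (G ω)) - eval (x ω) (Jo ω)) +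
        (eval (x ω) (Jo ω) - (eval (x ω) (Jo ω₀) + eval (x ω - x ω₀) (Φ ω₀))) +
        ((eval (x ω) (Jo ω₀) - eval (x ω₀ + τ • V ω₀) (Jo ω₀)) +
          (eval (x ω - x ω₀) (Φ ω₀) - eval (τ • V ω₀) (Φ ω₀))) := by ring
    rw [h5]
    refine (abs_add_le _ _).trans ?_
    refine (add_le_add ((abs_add_le _ _).trans (add_le_add a1 a2))
      ((abs_add_le _ _).trans (add_le_add a3 a4))).trans ?_
    have h6 : A * Kc * ε = 2 * Kc * ε + 2 * (C₃ * C₂ * 4 ^ D * Kc * ε) := by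
      rw [hA]
      ring
    rw [h6]
    have h7 : ε ≤ Kc * ε := le_mul_of_one_le_left hε.le hKc
    linarith
  -- Remez
  obtain ⟨q, hq⟩ : ∃ q : LnT F → F.Ω → Polynomial ℝ, ∀ s ω₀, q s ω₀ =
      if slam F w ω₀ = s ∧ B ω₀ then Z ω₀ else 0 := ⟨_, fun _ _ => rfl⟩
  have hS : 0 < A * Kc * ε := by positivity
  obtain ⟨B', hB', hP, hBr⟩ := hrem F B hB w q (fun _ => A * Kc * ε) θ hw (fun s a => by
      rw [hq]
      split_ifs with h
      · exact hZd a h.2
      · rw [Polynomial.natDegree_zero]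
        exact Nat.zero_le _) (fun _ => hS) hθ hTm hJ1 (fun ω hω a => by
      rw [hq]
      split_ifs with h
      · exact hown a ω h.2 hω h.1
      · rw [Polynomial.eval_zero, abs_zero]
        exact hS.le)
  refine ⟨B', hB', hP, fun ω hω => ?_⟩
  have hBω := hB' ω hω
  obtain ⟨E, hE⟩ : ∃ E, E = Real.exp (C₁ * (θ + 1)) := ⟨_, rfl⟩
  have h1 := (hud (Z ω) (E * (A * Kc * ε)) (hZd ω hBω) (fun t ht => by
    have h2 := hBr ω hω ω t ht
    rw [hq, if_pos ⟨rfl, hBω⟩, ← hE] at h2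
    exact h2) (rt F w ω) (by
      rw [abs_of_nonneg (hrt ω).1]
      linarith [(hrt ω).2])).2
  have e1 : (Polynomial.derivative (Z ω)).eval (rt F w ω) =
      1 / mu * (1 / 2 ^ w * ojet F κ 1 (G ω) ω) -
        ∑ j, eval (x ω) (pderiv j (Jo ω)) * V ω j := by
    rw [hZ, Polynomial.derivative_sub, Polynomial.derivative_C_mul, Polynomial.derivative_add,
      Polynomial.eval_sub, Polynomial.eval_mul, Polynomial.eval_C, Polynomial.eval_add,
      lnp_der F hw ω, lq_der, lq_der]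
    have e3 : (x ω - rt F w ω • V ω) + rt F w ω • V ω = x ω := by abel
    have e4 : -(rt F w ω • V ω) + rt F w ω • V ω = 0 := by abel
    rw [e3, e4, Finset.sum_eq_zero (s := Finset.univ)
      (f := fun j => eval (0 : V3) (pderiv j (Φ ω)) * V ω j) (fun j _ => by
        rw [hom_grad hb (hΦ ω hBω).hom j, zero_mul]), add_zero]
    rfl
  rw [e1] at h1
  have e2 : 1 / 2 ^ w * ojet F κ 1 (G ω) ω - mu * ∑ j, eval (x ω) (pderiv j (Jo ω)) * V ω j =
      mu * (1 / mu * (1 / 2 ^ w * ojet F κ 1 (G ω) ω) -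
        ∑ j, eval (x ω) (pderiv j (Jo ω)) * V ω j) := by
    field_simp
  rw [e2, abs_mul, abs_of_pos hmu]
  refine mul_le_mul_of_nonneg_left (h1.trans ?_) hmu.le
  have h3 : C₄ * A ≤ Real.exp (C₄ * A * (θ + 1)) := by
    have h4 := Real.add_one_le_exp (C₄ * A * (θ + 1))
    have h5 : C₄ * A * 1 ≤ C₄ * A * (θ + 1) := mul_le_mul_of_nonneg_left (by linarith)
      (by positivity)
    linarith
  have h6 : Real.exp ((C₁ + C₄ * A) * (θ + 1)) = E * Real.exp (C₄ * A * (θ + 1)) := by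
    rw [hE, ← Real.exp_add]
    congr 1
    ring
  have hE0 : 0 < E := by rw [hE]; exact Real.exp_pos _
  rw [h6]
  calc C₄ * (E * (A * Kc * ε)) = E * (C₄ * A) * Kc * ε := by ring
    _ ≤ E * Real.exp (C₄ * A * (θ + 1)) * Kc * ε :=
      mul_le_mul_of_nonneg_right (mul_le_mul_of_nonneg_right
        (mul_le_mul_of_nonneg_left h3 hE0.le) (by linarith)) hε.le

end Pool.STA37
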