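import Pool.Agent.H37.STA.Sun
import Pool.Agent.H37.STA.Reu
import Pool.Agent.H37.STA.FaD
import Pool.Agent.H37.STA.Lab

/-!
# The velocity of the target as a label

`up_lab`: the velocity of the target at the first window of the chain is a value of the first jet
over closed labels; `cgi_deg`: the degree of the labels.
-/

set_option autoImplicit false

namespace Pool.STA37

open Finset Real MvPolynomial
open Pool.Agent.H49.Ent Pool.Agent.H32.Dense Pool.STK Pool.KA Pool.KSAT Pool.K2S Pool.PB Pool.S6C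
open Pool.GEN Pool.CHT Pool.RCD Pool.D2F Pool.CHX Pool.D2Con Pool.D2A
open Pool.STB (V3 Po Bx Hb cv cl_earlier PosR cnt_int cg VbT p2 lg_le ChH mu_num)
open Pool.STB65 (InpP InpF PosO JetO nu nu_pos Rs Rs_pos grd_bx)
open Pool.STB82 (yv hgP Fst WinN cond_pos_B)
open Pool.LA91 (jet ojet qJet qJets qG)

variable {m J : ℕ} {F : Fam m J} {c : ℕ → Fin m} {B : F.Ω → Prop} {K n N b E E' : ℕ} {t : VbT F}
  {Kp Kc : ℝ} {ctr xo : ℕ → F.Ω → V3} {D₁ : LnT F → V3} {Jo Ci : ℕ → F.Ω → Po} {Φ₁ : LnT F → Po}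

theorem cgi_deg (hE : SuE F c B K n N b t) (hK : 1 ≤ K)
    (Jt : JetO F B t.W₀ t.k t.k n b ((2 ^ t.y) ^ 2) ((2 ^ t.y) ^ E') Kc ((2 ^ t.y) ^ E)
      (yv F c t.W₀ t.g1 t.Pl) t.f t.ji ctr xo Jo Ci Φ₁) {i : ℕ} {ω : F.Ω} (hω : B ω) :
    (cgi c t E' b ctr Ci i ω).totalDegree ≤ b * K + K + b := by
  unfold cgi
  refine Pool.STB.cg_deg (b' := b) c t.W₀ t.g1 _ hK ?_ _ _ _ ?_
    ((Jt.dC i ω).trans (Nat.sub_le _ _)) (by omega)
  · rw [← hE.Pc ω hω]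
    exact hE.Pd _
  · rw [← hE.zcl ω hω]
    exact (hE.zd _).trans (by omega)

/-- **The velocity of the target is a value of its first jet.** -/
theorem up_lab {Ve C tt pr e N₂ : ℝ} {Kf : ℕ} (hJ1 : 1 ≤ J) (hE : SuE F c B K n N b t)
    (O : PosO F B t.W₀ t.k t.k n ((2 ^ t.y) ^ 2) Kp (yv F c t.W₀ t.g1 t.Pl)
      (hgP c t.W₀ t.g1 t.Pl) ctr xo D₁)
    (Jt : JetO F B t.W₀ t.k t.k n b ((2 ^ t.y) ^ 2) ((2 ^ t.y) ^ E') Kc ((2 ^ t.y) ^ E)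
      (yv F c t.W₀ t.g1 t.Pl) t.f t.ji ctr xo Jo Ci Φ₁) (hb : 1 ≤ b) (hK : 1 ≤ K) (hn : 0 < n)
    (hC : ∀ (Q : Po) (M : ℝ), Q.totalDegree ≤ b → (∀ q, Bx 1 q → |eval q Q| ≤ M) →
      ∀ (j : Fin 3) (r : V3), Bx 1 r → |eval r (pderiv j Q)| ≤ C * M) (hC0 : 0 ≤ C)
    (hCy : C ≤ 2 ^ t.y) (hKc0 : 0 ≤ Kc) (hKc : Kc ≤ 2 ^ t.y)
    (hvel : ∀ ω, B ω →
      |1 / 2 ^ (t.W₀ + t.k + 0 * t.k) * ojet F (c 2) 1 (cgi c t E' b ctr Ci 0 ω) ω -
        mui t E' b 0 * ∑ j, eval (xo 0 ω) (pderiv j (Jo 0 ω)) *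
          D₁ (slam F (t.W₀ + t.k) ω) j| ≤ mui t E' b 0 * (Ve / 2 ^ t.k))
    (hVe : Ve ≤ 2 ^ t.k) (hyJ : t.y ≤ J) (hWJ : t.W₀ + t.k ≤ J)
    (ht : ⌊tt * J⌋₊ = t.W₀ + t.k) (hN : N₂ ≤ 1)
    (hk : t.y * (b + 1) + 1 ≤ t.k)
    (hp : ⌊(pr - e) * J⌋₊ + (t.y * E' + 2 * t.y * b + t.y + 1) ≤ t.g₃ + b * t.k)
    (hKf : b * K + K + b ≤ Kf) (hKf' : E' + 2 * b + 9 ≤ Kf) :
    (qJet m ((range 2).image c) (c 2) 1 tt pr N₂).P Kf e J F B (upi c t E' b ctr Ci N₂) := by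
  have hk0 : (0 : ℝ) < 2 ^ t.k := by positivity
  have hmu := mui_pos t E' b 0
  have h0k : t.W₀ + t.k + 0 * t.k = t.W₀ + t.k := by ring
  have hcl := cgi_cl hE O Jt hn (by omega)
  rw [h0k] at hcl
  have hmui : mui t E' b 0 = 2 ^ (t.y * E' + 2 * t.y * b) / 2 ^ (t.g₃ + b * t.k) := by
    rw [mui_eq]
    congr 2
    ring
  have hdep : ∀ ω, B ω → DepC c 2 (cgi c t E' b ctr Ci 0 ω) := fun ω hω => by
    unfold cgi
    refine cg_dep2 c _ _ _ ?_ _ _ _ ?_ _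
    · rw [← hE.Pc ω hω]
      exact hE.Pp _
    · rw [← hE.zcl ω hω]
      exact hE.zp _
  have hmle : mui t E' b 0 ≤ 2 ^ (t.y * E' + 2 * t.y * b) := by
    rw [hmui]
    exact div_le_self (by positivity) (one_le_pow₀ one_le_two)
  refine qjet_of (n := E' + 2 * b + 6) hJ1 hN (g := cgi c t E' b ctr Ci 0) (by rw [ht]; exact hcl)
    (fun ω hω => (cgi_deg hE hK Jt hω).trans hKf) (fun ω hω => depC_img (hdep ω hω)) ?_ ?_
    (by omega)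
  · intro ω hω
    have h1 := cgi_near hE hb hKc0 Jt hn (by omega) hω
    have h2 := Jt.J1 0 hn ω hω _ (O.x1 0 hn ω hω)
    have h3 : (Kc + 2 ^ (t.y * (b + 1))) / 2 ^ t.k ≤ 2 ^ t.y := by
      rw [div_le_iff₀ hk0]
      have h4 : (2 : ℝ) ^ (t.y * (b + 1) + 1) ≤ 2 ^ t.k := p2 hk
      have h5 : (1 : ℝ) ≤ 2 ^ t.y := one_le_pow₀ one_le_two
      have h6 : (2 : ℝ) ^ t.y ≤ 2 ^ (t.y * (b + 1)) := p2 (by nlinarith)
      rw [pow_succ] at h4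
      nlinarith
    have h4 : |mui t E' b 0 * eval (xo 0 ω) (Jo 0 ω)| ≤ mui t E' b 0 * 2 ^ t.y := by
      rw [abs_mul, abs_of_pos hmu]
      exact mul_le_mul_of_nonneg_left (h2.trans hKc) hmu.le
    have h5 := mul_le_mul_of_nonneg_left h3 hmu.le
    have h6 : |F.x ω (c 2) - eval (bt F ω) (cgi c t E' b ctr Ci 0 ω)| ≤
        mui t E' b 0 * 2 ^ t.y + mui t E' b 0 * 2 ^ t.y := by
      have h7 := abs_le.1 (h1.trans h5)
      have h8 := abs_le.1 h4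
      rw [abs_le]
      constructor <;> linarith
    refine h6.trans ?_
    rw [hmui, div_mul_eq_mul_div, ← add_div, le_div_iff₀ (by positivity), div_mul_eq_mul_div,
      div_le_iff₀ (by positivity), one_mul]
    have e1 : (2 : ℝ) ^ (t.y * E' + 2 * t.y * b) * 2 ^ t.y + 2 ^ (t.y * E' + 2 * t.y * b) * 2 ^ t.y =
        2 ^ (t.y * E' + 2 * t.y * b + t.y + 1) := by
      rw [pow_add _ _ 1, pow_add _ _ t.y]
      ring
    rw [e1, ← pow_add]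
    exact p2 (by omega)
  · intro ω hω
    have h1 := hvel ω hω
    rw [h0k] at h1
    have h2 : |∑ j, eval (xo 0 ω) (pderiv j (Jo 0 ω)) * D₁ (slam F (t.W₀ + t.k) ω) j| ≤
        3 * (2 ^ t.y * 2 ^ t.y) := by
      refine (Finset.abs_sum_le_sum_abs _ _).trans ?_
      have h3 : ∀ j : Fin 3, |eval (xo 0 ω) (pderiv j (Jo 0 ω)) *
          D₁ (slam F (t.W₀ + t.k) ω) j| ≤ 2 ^ t.y * 2 ^ t.y := by
        intro j
        rw [abs_mul]
        have h4 := hC (Jo 0 ω) Kc ((Jt.dJ 0 ω).trans (Nat.sub_le _ _))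
          (fun q hq => Jt.J1 0 hn ω hω q hq) j _ (O.x1 0 hn ω hω)
        have h5 : |D₁ (slam F (t.W₀ + t.k) ω) j| ≤ 1 := grd_bx (O.dg _) j
        calc |eval (xo 0 ω) (pderiv j (Jo 0 ω))| * |D₁ (slam F (t.W₀ + t.k) ω) j| ≤
              (C * Kc) * 1 := mul_le_mul h4 h5 (abs_nonneg _) (by positivity)
          _ ≤ 2 ^ t.y * 2 ^ t.y := by
              rw [mul_one]
              exact mul_le_mul hCy hKc hKc0 (by positivity)
      calc ∑ j : Fin 3, |eval (xo 0 ω) (pderiv j (Jo 0 ω)) * D₁ (slam F (t.W₀ + t.k) ω) j| ≤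
            ∑ _j : Fin 3, (2 : ℝ) ^ t.y * 2 ^ t.y := Finset.sum_le_sum fun j _ => h3 j
        _ = 3 * (2 ^ t.y * 2 ^ t.y) := by
            simp
    have hW0 : (0 : ℝ) < 2 ^ (t.W₀ + t.k) := by positivity
    have h3 : Ve / 2 ^ t.k ≤ 1 := by rw [div_le_one hk0]; exact hVe
    have hyy : (1 : ℝ) ≤ 2 ^ t.y * 2 ^ t.y := by
      have := one_le_pow₀ (n := t.y) (one_le_two (α := ℝ))
      nlinarith
    have h4 : |1 / 2 ^ (t.W₀ + t.k) * ojet F (c 2) 1 (cgi c t E' b ctr Ci 0 ω) ω| ≤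
        mui t E' b 0 * (4 * (2 ^ t.y * 2 ^ t.y)) := by
      have h5 := mul_le_mul_of_nonneg_left h3 hmu.le
      have h6 : |mui t E' b 0 * ∑ j, eval (xo 0 ω) (pderiv j (Jo 0 ω)) *
          D₁ (slam F (t.W₀ + t.k) ω) j| ≤ mui t E' b 0 * (3 * (2 ^ t.y * 2 ^ t.y)) := by
        rw [abs_mul, abs_of_pos hmu]
        exact mul_le_mul_of_nonneg_left h2 hmu.le
      have h7 := abs_le.1 (h1.trans h5)
      have h8 := abs_le.1 h6
      have h9 : mui t E' b 0 * 1 ≤ mui t E' b 0 * (2 ^ t.y * 2 ^ t.y) :=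
        mul_le_mul_of_nonneg_left hyy hmu.le
      have h10 : mui t E' b 0 * (4 * (2 ^ t.y * 2 ^ t.y)) =
        mui t E' b 0 * (3 * (2 ^ t.y * 2 ^ t.y)) + mui t E' b 0 * (2 ^ t.y * 2 ^ t.y) := by ring
      rw [abs_le, h10]
      constructor <;> linarith [h7.1, h7.2, h8.1, h8.2]
    rw [abs_mul, abs_of_pos (by positivity : (0 : ℝ) < 1 / 2 ^ (t.W₀ + t.k)), one_div_mul_eq_div,
      div_le_iff₀ hW0] at h4
    refine h4.trans ?_
    have h5 : mui t E' b 0 * (4 * (2 ^ t.y * 2 ^ t.y)) ≤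
        2 ^ (t.y * E' + 2 * t.y * b) * (4 * (2 ^ t.y * 2 ^ t.y)) :=
      mul_le_mul_of_nonneg_right hmle (by positivity)
    refine (mul_le_mul_of_nonneg_right h5 hW0.le).trans ?_
    have h6 : (2 : ℝ) ^ (t.y * E' + 2 * t.y * b) * (4 * (2 ^ t.y * 2 ^ t.y)) * 2 ^ (t.W₀ + t.k) =
        2 ^ (t.y * E' + 2 * t.y * b + 2 + t.y + t.y + (t.W₀ + t.k)) := by
      rw [pow_add _ _ (t.W₀ + t.k), pow_add _ _ t.y, pow_add _ _ t.y, pow_add _ _ 2]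
      ring
    rw [h6]
    refine p2 ?_
    have h7 : t.y * E' ≤ J * E' := Nat.mul_le_mul_right _ hyJ
    have h8 : 2 * t.y * b ≤ 2 * J * b := Nat.mul_le_mul_right _ (by omega)
    have h9 : (E' + 2 * b + 6) * J = J * E' + 2 * J * b + 6 * J := by ring
    omega

end Pool.STA37
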