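import Pool.Agent.H37.STA.Suf
import Pool.Agent.H6.STB.Vn

/-!
# The numbers of the class theorem

`hnf_num`: the bound of `su_nf` is below one half. `win_triv`: the label has at most two times the
full number of bits. `ve_num`, `s_num`, `pr_num`: the numbers of the velocity of the target.
-/

set_option autoImplicit false

namespace Pool.STA37

open Finset Real MvPolynomial
open Pool.Agent.H49.Ent Pool.Agent.H32.Dense Pool.STK Pool.KA Pool.KSAT Pool.K2S Pool.PB Pool.S6C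
open Pool.GEN Pool.CHT Pool.RCD Pool.D2F Pool.CHX Pool.D2Con Pool.D2A
open Pool.STB (V3 Po Bx Hb cv cl_earlier PosR cnt_int cg VbT p2 lg_le ChH mu_num)
open Pool.STB65 (InpP InpF PosO JetO nu nu_pos Rs Rs_pos)
open Pool.STB82 (yv hgP Fst WinN cond_pos_B)
open Pool.LA91 (jet ojet)

variable {m : ℕ}

/-- A number with the exponent `k + 2 y + 3`. -/
theorem lg_kc {k y : ℕ} {C Kc u : ℝ} (hC0 : 0 ≤ C) (hC : C ≤ 2 ^ y) (hKc0 : 0 ≤ Kc)
    (hKc : Kc ≤ 2 ^ y) (hu0 : 0 ≤ u) (hu : u ≤ 2) :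
    Real.log (2 * (((2 ^ k : ℕ) : ℝ) * (C * Kc) + u) + 1) ≤ ((k : ℝ) + 2 * y + 3) * Real.log 2 := by
  have h1 : C * Kc ≤ 2 ^ y * 2 ^ y := mul_le_mul hC hKc hKc0 (by positivity)
  have h2 : (((2 ^ k : ℕ) : ℝ)) = 2 ^ k := by push_cast; rfl
  have h3 : 2 * (((2 ^ k : ℕ) : ℝ) * (C * Kc) + u) + 1 ≤ 2 ^ (k + 2 * y + 3) := by
    have h4 : (2 : ℝ) ^ k * (C * Kc) ≤ 2 ^ k * (2 ^ y * 2 ^ y) :=
      mul_le_mul_of_nonneg_left h1 (by positivity)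
    have h5 : (1 : ℝ) ≤ 2 ^ k * (2 ^ y * 2 ^ y) := by
      have := one_le_pow₀ (n := k) (one_le_two (α := ℝ))
      have := one_le_pow₀ (n := y) (one_le_two (α := ℝ))
      have h6 : (1 : ℝ) ≤ 2 ^ y * 2 ^ y := by nlinarith
      nlinarith
    have h6 : (2 : ℝ) ^ (k + 2 * y + 3) = 8 * (2 ^ k * (2 ^ y * 2 ^ y)) := by
      rw [pow_add, pow_add, two_mul, pow_add]
      ring
    rw [h6, h2]
    linarith
  have h4 : 0 ≤ ((2 ^ k : ℕ) : ℝ) * (C * Kc) := by positivity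
  have h5 := lg_le (by positivity) h3
  push_cast at h5 ⊢
  exact h5

/-- **The bound of the number of bits of the gradient.** -/
theorem hnf_num {R c₀ A τ κ r r₁ Ve C Kc γ₀ c₁ δ : ℝ} {b k y x nn : ℕ} (hR : 1 ≤ R)
    (hc₀ : c₀ = 1 / (100 * R)) (hA : 400000 * (R + b + nn + 1) ≤ A) (hτ : τ ≤ 1)
    (H : A * ((y : ℝ) + x + 1) ≤ τ * k) (hδ : δ = 1 / (40000 * R)) (hκ : κ ≤ δ * k)
    (hr : r ≤ δ * k) (hr₁ : r₁ ≤ δ * k) (hnn : R / 2 ^ nn ≤ 1 / 100) (hVe0 : 0 ≤ Ve)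
    (hVe : Ve + 1 ≤ 2 ^ (y * (b + 3) + 4)) (hC0 : 0 ≤ C) (hC : C ≤ 2 ^ y) (hKc0 : 0 ≤ Kc)
    (hKc : Kc ≤ 2 ^ y) (hγ0 : 0 ≤ γ₀) (hγ : γ₀ ≤ 1 / 100) (hc₁0 : 0 ≤ c₁) (hc₁ : c₁ ≤ c₀ / 200) :
    (1 + 1) * (Real.log 3 + (3 * ((κ + ((6 * y + 24 : ℕ) : ℝ) * Real.log 2 + r +
        Real.log 2) / c₀) + 3 * (r₁ + κ + 5 * r +
          ((4 * x + y * (2 * b + 22) + 76 : ℕ) : ℝ) * Real.log 2) + (Real.log 2 +
        Real.log (3 * (18 * (Ve + 1) / ((((2 ^ k : ℕ) : ℝ)) ^ (-γ₀)) ^ 3 + 1)) + 3 * (c₁ / c₀) *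
          Real.log (2 * (((2 ^ k : ℕ) : ℝ) * (C * Kc) + 2) + 1)))) +
      (R * c₀ * (1 + 1) / 1 + R / (1 + 1) ^ nn) *
        Real.log (2 * (((2 ^ k : ℕ) : ℝ) * (C * Kc) + 1) + 1) + Real.log (nn + 1) ≤
      (1 - 1 / 2) * Real.log (((2 ^ k : ℕ) : ℝ)) := by
  have hlog2 := Real.log_two_gt_d9
  have hlog2' := Real.log_two_lt_d9
  obtain ⟨L, hL⟩ : ∃ L, L = Real.log 2 := ⟨_, rfl⟩
  have hR0 : 0 < R := by linarith
  have hM : Real.log (((2 ^ k : ℕ) : ℝ)) = k * L := by rw [hL]; exact Pool.STB6.rp_log k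
  -- logarithms
  have e1 := lg_kc (k := k) hC0 hC hKc0 hKc (by norm_num : (0 : ℝ) ≤ 2) le_rfl
  have e2 := lg_kc (k := k) hC0 hC hKc0 hKc (by norm_num : (0 : ℝ) ≤ 1) one_le_two
  have e1' : 0 ≤ Real.log (2 * (((2 ^ k : ℕ) : ℝ) * (C * Kc) + 2) + 1) :=
    Real.log_nonneg (by
      have : 0 ≤ ((2 ^ k : ℕ) : ℝ) * (C * Kc) := by positivity
      linarith)
  have e2' : 0 ≤ Real.log (2 * (((2 ^ k : ℕ) : ℝ) * (C * Kc) + 1) + 1) :=
    Real.log_nonneg (by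
      have : 0 ≤ ((2 ^ k : ℕ) : ℝ) * (C * Kc) := by positivity
      linarith)
  have e3 : Real.log 3 ≤ 2 * L := by
    have := lg_le (z := 3) (a := 2) (by norm_num) (by norm_num)
    rw [hL]
    exact_mod_cast this
  have e4 : Real.log ((nn : ℝ) + 1) ≤ nn := by
    have := Real.log_le_sub_one_of_pos (show (0 : ℝ) < (nn : ℝ) + 1 by positivity)
    linarith
  have e5 : Real.log (3 * (18 * (Ve + 1) / ((((2 ^ k : ℕ) : ℝ)) ^ (-γ₀)) ^ 3 + 1)) ≤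
      ((y : ℝ) * (b + 3) + 10) * L + 3 * γ₀ * (k * L) := by
    have hMp : (0 : ℝ) < ((2 ^ k : ℕ) : ℝ) := by positivity
    have hM1 : (1 : ℝ) ≤ ((2 ^ k : ℕ) : ℝ) := by
      push_cast
      exact one_le_pow₀ one_le_two
    obtain ⟨v, hv⟩ : ∃ v, v = (((2 ^ k : ℕ) : ℝ)) ^ γ₀ := ⟨_, rfl⟩
    have hv0 : 0 < v := by rw [hv]; positivity
    have hv1 : 1 ≤ v := by
      rw [hv]
      exact Real.one_le_rpow hM1 hγ0
    have h1 : ((((2 ^ k : ℕ) : ℝ)) ^ (-γ₀)) ^ 3 = (v ^ 3)⁻¹ := by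
      rw [Real.rpow_neg hMp.le, ← hv, inv_pow]
    rw [h1, div_inv_eq_mul]
    have hv3 : 1 ≤ v ^ 3 := one_le_pow₀ hv1
    have h2 : 3 * (18 * (Ve + 1) * v ^ 3 + 1) ≤ 2 ^ (y * (b + 3) + 10) * v ^ 3 := by
      have h3 : 3 * (18 * (Ve + 1) * v ^ 3 + 1) ≤ 64 * (Ve + 1) * v ^ 3 := by
        have : 1 ≤ (Ve + 1) * v ^ 3 := by nlinarith
        nlinarith
      refine h3.trans (mul_le_mul_of_nonneg_right ?_ (by positivity))
      have h4 : (2 : ℝ) ^ (y * (b + 3) + 10) = 64 * 2 ^ (y * (b + 3) + 4) := by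
        rw [pow_add, pow_add]
        norm_num
        ring
      rw [h4]
      linarith
    have h5 : 0 < 3 * (18 * (Ve + 1) * v ^ 3 + 1) := by positivity
    refine (Real.log_le_log h5 h2).trans ?_
    rw [Real.log_mul (by positivity) (by positivity), Real.log_pow, Real.log_pow, hv,
      Real.log_rpow hMp, hM, ← hL]
    push_cast
    linarith
  -- the atoms
  have hs1 : (0 : ℝ) ≤ y := Nat.cast_nonneg _
  have hs2 : (0 : ℝ) ≤ x := Nat.cast_nonneg _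
  have hs3 : (0 : ℝ) ≤ b := Nat.cast_nonneg _
  have hs4 : (0 : ℝ) ≤ nn := Nat.cast_nonneg _
  have hs5 : (0 : ℝ) ≤ k := Nat.cast_nonneg _
  obtain ⟨s, hs⟩ : ∃ s : ℝ, s = (y : ℝ) + x + 1 := ⟨_, rfl⟩
  rw [← hs] at H
  have hs6 : 1 ≤ s := by rw [hs]; linarith
  have H1 : 400000 * (R + b + nn + 1) * s ≤ k := by
    refine (mul_le_mul_of_nonneg_right hA (by linarith)).trans (H.trans ?_)
    calc τ * k ≤ 1 * k := mul_le_mul_of_nonneg_right hτ hs5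
      _ = k := one_mul _
  have hs0 : 0 ≤ s := by linarith
  rw [← hL] at e1 e2 hlog2 hlog2' ⊢
  have hL0 : 0 < L := by linarith
  rw [hM]
  have n1 : 0 ≤ R * s := mul_nonneg hR0.le hs0
  have n2 : 0 ≤ b * s := mul_nonneg hs3 hs0
  have n3 : 0 ≤ nn * s := mul_nonneg hs4 hs0
  have n4 : (nn : ℝ) * 1 ≤ nn * s := mul_le_mul_of_nonneg_left hs6 hs4
  have H2 : 400000 * (R * s) + 400000 * (b * s) + 400000 * (nn * s) + 400000 * s ≤ k := by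
    have h1 : 400000 * (R + b + nn + 1) * s = 400000 * (R * s) + 400000 * (b * s) +
      400000 * (nn * s) + 400000 * s := by ring
    linarith
  have hRs : 400000 * (R * s) ≤ k := by linarith
  have hbs : 400000 * (b * s) ≤ k := by linarith
  have hss : 400000 * s ≤ k := by linarith
  have hnk : 400000 * (nn : ℝ) ≤ k := by linarith
  have hys : (y : ℝ) ≤ s := by rw [hs]; linarith
  have hxs : (x : ℝ) ≤ s := by rw [hs]; linarith
  have hby : (y : ℝ) * b ≤ b * s := by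
    rw [mul_comm]
    exact mul_le_mul_of_nonneg_left hys hs3
  -- the terms
  have hδR : R * δ = 1 / 40000 := by rw [hδ]; field_simp
  have hδ0 : 0 < δ := by rw [hδ]; positivity
  have hδ1 : δ ≤ 1 / 40000 := by
    rw [hδ]
    exact one_div_le_one_div_of_le (by norm_num) (by linarith)
  have f1 : 3 * ((κ + ((6 * y + 24 : ℕ) : ℝ) * L + r + L) / c₀) ≤
      (300 / 20000) * k + 7500 * (R * s) * L := by
    have h1 : (κ + ((6 * y + 24 : ℕ) : ℝ) * L + r + L) / c₀ =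
        100 * (R * (κ + ((6 * y + 24 : ℕ) : ℝ) * L + r + L)) := by
      rw [hc₀]
      field_simp
    rw [h1]
    have h2 : κ + ((6 * y + 24 : ℕ) : ℝ) * L + r + L ≤ 2 * (δ * k) + 25 * (s * L) := by
      push_cast
      have h3 : (6 * (y : ℝ) + 24 + 1) * L ≤ 25 * s * L := by
        refine mul_le_mul_of_nonneg_right ?_ hL0.le
        rw [hs]
        linarith
      have h4 : (6 * (y : ℝ) + 24 + 1) * L = (6 * (y : ℝ) + 24) * L + L := by ring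
      have h5 : 25 * s * L = 25 * (s * L) := by ring
      linarith
    have h3 := mul_le_mul_of_nonneg_left h2 hR0.le
    have h4 : R * (2 * (δ * k) + 25 * (s * L)) = 2 * (R * δ) * k + 25 * (R * s) * L := by ring
    rw [h4, hδR] at h3
    linarith
  have f2 : 3 * (r₁ + κ + 5 * r + ((4 * x + y * (2 * b + 22) + 76 : ℕ) : ℝ) * L) ≤
      (21 / 40000) * k + 3 * (2 * (b * s) + 76 * s) * L := by
    have h1 : ((4 * x + y * (2 * b + 22) + 76 : ℕ) : ℝ) ≤ 2 * (b * s) + 76 * s := by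
      push_cast
      have h4 : 4 * (x : ℝ) + 22 * y + 76 ≤ 76 * s := by
        rw [hs]
        linarith
      have h5 : (y : ℝ) * (2 * b + 22) = 2 * (y * b) + 22 * y := by ring
      linarith
    have h2 := mul_le_mul_of_nonneg_right h1 hL0.le
    have h3 : δ * k ≤ (1 / 40000) * k := mul_le_mul_of_nonneg_right hδ1 hs5
    linarith
  have f3 : ((y : ℝ) * (b + 3) + 10) * L + 3 * γ₀ * (k * L) ≤
      (b * s + 10 * s) * L + (3 / 100) * (k * L) := by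
    have h1 : (y : ℝ) * (b + 3) + 10 ≤ b * s + 10 * s := by
      have h4 : 3 * (y : ℝ) + 10 ≤ 10 * s := by
        rw [hs]
        linarith
      have h5 : (y : ℝ) * (b + 3) = y * b + 3 * y := by ring
      linarith
    have h2 := mul_le_mul_of_nonneg_right h1 hL0.le
    have h3 : 3 * γ₀ * (k * L) ≤ (3 / 100) * (k * L) :=
      mul_le_mul_of_nonneg_right (by linarith) (by positivity)
    linarith
  have hkb : ((k : ℝ) + 2 * y + 3) * L ≤ (k + 3 * s) * L := by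
    refine mul_le_mul_of_nonneg_right ?_ hL0.le
    rw [hs]
    linarith
  have f4 : 3 * (c₁ / c₀) * Real.log (2 * (((2 ^ k : ℕ) : ℝ) * (C * Kc) + 2) + 1) ≤
      (3 / 200) * ((k + 3 * s) * L) := by
    have hc : 0 < c₀ := by rw [hc₀]; positivity
    have h1 : c₁ / c₀ ≤ 1 / 200 := by
      rw [div_le_iff₀ hc]
      linarith
    have h2 : 0 ≤ c₁ / c₀ := by positivity
    exact mul_le_mul (by linarith) (e1.trans hkb) e1' (by norm_num)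
  have f5 : (R * c₀ * (1 + 1) / 1 + R / (1 + 1) ^ nn) *
      Real.log (2 * (((2 ^ k : ℕ) : ℝ) * (C * Kc) + 1) + 1) ≤ (3 / 100) * ((k + 3 * s) * L) := by
    have h1 : R * c₀ = 1 / 100 := by rw [hc₀]; field_simp
    have h2 : (1 : ℝ) + 1 = 2 := by norm_num
    have h3 : R * c₀ * (1 + 1) / 1 + R / (1 + 1) ^ nn ≤ 3 / 100 := by
      rw [h1, h2]
      linarith
    have h4 : 0 ≤ R * c₀ * (1 + 1) / 1 + R / (1 + 1) ^ nn := by
      rw [h1]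
      positivity
    exact mul_le_mul h3 (e2.trans hkb) e2' (by norm_num)
  generalize Real.log (2 * (((2 ^ k : ℕ) : ℝ) * (C * Kc) + 2) + 1) = X1 at *
  generalize Real.log (2 * (((2 ^ k : ℕ) : ℝ) * (C * Kc) + 1) + 1) = X2 at *
  generalize Real.log (3 * (18 * (Ve + 1) / ((((2 ^ k : ℕ) : ℝ)) ^ (-γ₀)) ^ 3 + 1)) = X3 at *
  generalize Real.log 3 = X4 at *
  generalize Real.log ((nn : ℝ) + 1) = X5 at *
  generalize 3 * ((κ + ((6 * y + 24 : ℕ) : ℝ) * L + r + L) / c₀) = X6 at *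
  generalize 3 * (r₁ + κ + 5 * r + ((4 * x + y * (2 * b + 22) + 76 : ℕ) : ℝ) * L) = X7 at *
  generalize 3 * (c₁ / c₀) * X1 = X8 at *
  generalize (R * c₀ * (1 + 1) / 1 + R / (1 + 1) ^ nn) * X2 = X9 at *
  have g1 := mul_le_mul_of_nonneg_right hRs hL0.le
  have g2 := mul_le_mul_of_nonneg_right hbs hL0.le
  have g3 := mul_le_mul_of_nonneg_right hss hL0.le
  have g6 := mul_le_mul_of_nonneg_right hs6 hL0.le
  have g4 : (0.69 : ℝ) * k ≤ k * L := by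
    rw [mul_comm]
    exact mul_le_mul_of_nonneg_left (by linarith) hs5
  clear hRs hbs hss H1 H2 H hA n1 n2 n3 hκ hr hr₁ hδ hc₀ hnn hVe hC hKc hc₁ hδR hδ1 hys hxs hby
  ring_nf at *
  linarith

/-- **The label has at most two times the full number of bits.** -/
theorem win_triv {J : ℕ} {F : Fam m J} {B : F.Ω → Prop} {W k y : ℕ} {xo : F.Ω → V3}
    {Jo : F.Ω → Po} {K e R : ℝ} (hv : ∀ ω, B ω → |eval (xo ω) (Jo ω)| ≤ K) (hK0 : 0 ≤ K)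
    (hK : K ≤ 2 ^ y) (hk : 2 * y + 3 ≤ k) (he : 0 ≤ e) :
    WinN F B W k xo Jo e (-1) R := by
  intro Y y' hy q hq hqR
  have hB : ∀ ω, 0 < q ω → B ω := fun ω hω => by
    have h0 : 0 < Pool.Agent.H49.Ent.cond F.p B True ω := by
      by_contra h
      have h1 : Pool.Agent.H49.Ent.cond F.p B True ω ≤ 0 := not_lt.1 h
      have h2 := Pool.Agent.H49.Ent.cond_nonneg F.isLaw.nonneg B True ω
      have h3 : Pool.Agent.H49.Ent.cond F.p B True ω = 0 := le_antisymm h1 h2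
      have h4 := hqR ω
      rw [h3, mul_zero] at h4
      linarith
    exact cond_pos_B h0
  have hk0 : (0 : ℝ) ≤ ((2 ^ k : ℕ) : ℝ) := by positivity
  have hb1 : ∀ ω, B ω → |((⌊((2 ^ k : ℕ) : ℝ) * eval (xo ω) (Jo ω)⌋ : ℤ) : ℝ)| ≤
      ((2 ^ k : ℕ) : ℝ) * K + 1 := by
    intro ω hω
    have h1 := Int.floor_le (((2 ^ k : ℕ) : ℝ) * eval (xo ω) (Jo ω))
    have h2 := Int.lt_floor_add_one (((2 ^ k : ℕ) : ℝ) * eval (xo ω) (Jo ω))
    have h3 := abs_le.1 (hv ω hω)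
    have h4 := mul_le_mul_of_nonneg_left h3.1 hk0
    have h5 := mul_le_mul_of_nonneg_left h3.2 hk0
    rw [abs_le]
    constructor <;> linarith
  have h1 := cnt_int hq (fun ω => ⌊((2 ^ k : ℕ) : ℝ) * eval (xo ω) (Jo ω)⌋)
    (fun ω => (cv (2 ^ k) (xo ω), y' ω)) (D := 2 * (((2 ^ k : ℕ) : ℝ) * K + 1)) (by positivity)
    (fun ω ω' hω hω' _ => by
      have h2 := abs_le.1 (hb1 ω (hB ω hω))
      have h3 := abs_le.1 (hb1 ω' (hB ω' hω'))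
      rw [abs_le]
      constructor <;> linarith)
  refine h1.trans ?_
  have h2 := lg_kc (k := k) (y := y) (C := 1) (Kc := K) (u := 1) zero_le_one
    (one_le_pow₀ one_le_two) hK0 hK zero_le_one one_le_two
  rw [one_mul] at h2
  refine h2.trans ?_
  have h3 : Real.log (((2 ^ k : ℕ) : ℝ)) = k * Real.log 2 := Pool.STB6.rp_log k
  rw [h3]
  have hl2 : 0 < Real.log 2 := Real.log_pos one_lt_two
  have h4 : ((2 * y + 3 : ℕ) : ℝ) ≤ k := by exact_mod_cast hk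
  push_cast at h4
  have h5 : ((k : ℝ) + 2 * y + 3) * Real.log 2 ≤ (k + k) * Real.log 2 :=
    mul_le_mul_of_nonneg_right (by linarith) hl2.le
  linarith

/-- The sum of the numbers of a velocity. -/
theorem vs_num {Kc Kp : ℝ} {y b : ℕ} (hb : 1 ≤ b) (hy : 1 ≤ y) (hKc : Kc ≤ 2 ^ y)
    (hKp : Kp ≤ 2 ^ y * 2 ^ y) :
    Kc + Kp + 2 + 2 ^ (y * (b + 1)) ≤ 2 ^ (y * (b + 1) + 2) := by
  have h1 : (2 : ℝ) ^ y ≤ 2 ^ (y * (b + 1)) := p2 (by nlinarith)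
  have h2 : (2 : ℝ) ^ y * 2 ^ y ≤ 2 ^ (y * (b + 1)) := by
    rw [← pow_add]
    exact p2 (by nlinarith)
  have h3 : (2 : ℝ) ≤ 2 ^ (y * (b + 1)) := by
    have : (2 : ℝ) ^ 1 ≤ 2 ^ (y * (b + 1)) := p2 (by nlinarith)
    linarith
  have h4 : (2 : ℝ) ^ (y * (b + 1) + 2) = 4 * 2 ^ (y * (b + 1)) := by
    rw [pow_add]
    norm_num
    ring
  rw [h4]
  linarith

/-- **The number of the error of the velocity.** -/
theorem ve_num {Ex Kc Kp : ℝ} {y b : ℕ} (hb : 1 ≤ b) (hy : 1 ≤ y) (hEx : Ex ≤ 2 ^ y)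
    (hEx0 : 0 ≤ Ex) (hKc : Kc ≤ 2 ^ y) (hKc0 : 0 ≤ Kc) (hKp : Kp ≤ 2 ^ y * 2 ^ y)
    (hKp0 : 0 ≤ Kp) :
    Ex * Kc * (Kc + Kp + 2 + 2 ^ (y * (b + 1))) + 1 ≤ 2 ^ (y * (b + 3) + 4) := by
  have h1 := vs_num hb hy hKc hKp
  have h2 : Ex * Kc ≤ 2 ^ y * 2 ^ y := mul_le_mul hEx hKc hKc0 (by positivity)
  have h3 : Ex * Kc * (Kc + Kp + 2 + 2 ^ (y * (b + 1))) ≤
      2 ^ y * 2 ^ y * 2 ^ (y * (b + 1) + 2) :=
    mul_le_mul h2 h1 (by positivity) (by positivity)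
  have h4 : (2 : ℝ) ^ y * 2 ^ y * 2 ^ (y * (b + 1) + 2) = 2 ^ (y * (b + 3) + 2) := by
    rw [← pow_add, ← pow_add]
    congr 1
    ring
  have h5 : (2 : ℝ) ^ (y * (b + 3) + 4) = 4 * 2 ^ (y * (b + 3) + 2) := by
    rw [pow_add, pow_add]
    norm_num
    ring
  have h6 : (1 : ℝ) ≤ 2 ^ (y * (b + 3) + 2) := one_le_pow₀ one_le_two
  rw [h4] at h3
  rw [h5]
  linarith

theorem mui_eq {J : ℕ} {F : Fam m J} (t : VbT F) (E' b i : ℕ) : mui t E' b i =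
    2 ^ (t.y * E' + 2 * t.y * b) / 2 ^ (t.g₃ + b * (t.k + i * t.k)) := by
  have h := mu_num (b := b) (k := t.k) (y := t.y) (x := 0) (i := i) (g₃ := t.g₃) (E' := E')
  rw [add_zero, add_zero] at h
  exact h

/-- **The precision of the velocity of the target.** -/
theorem s_num {J : ℕ} {F : Fam m J} {t : VbT F} {E' b i : ℕ} {N₂ : ℝ}
    (h : ((t.g₃ + b * (t.k + i * t.k) : ℕ) : ℝ) ≤ N₂ * J + ((t.W₀ + i * t.k : ℕ) : ℝ)) :
    2 ^ t.k / (mui t E' b i * 2 ^ (t.W₀ + t.k + i * t.k)) ≤ (2 : ℝ) ^ (N₂ * J) := by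
  have hp : (0 : ℝ) < mui t E' b i * 2 ^ (t.W₀ + t.k + i * t.k) :=
    mul_pos (mui_pos t E' b i) (by positivity)
  rw [div_le_iff₀ hp, mui_eq]
  have h1 : (2 : ℝ) ^ (t.g₃ + b * (t.k + i * t.k)) ≤ 2 ^ (N₂ * J) * 2 ^ (t.W₀ + i * t.k) := by
    have h2 : (2 : ℝ) ^ (N₂ * J) * 2 ^ (t.W₀ + i * t.k) =
        (2 : ℝ) ^ (N₂ * J + ((t.W₀ + i * t.k : ℕ) : ℝ)) := by
      rw [Real.rpow_add two_pos, Real.rpow_natCast]
    rw [h2]
    exact Pool.STB.two_le_rpow h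
  have h3 : (1 : ℝ) ≤ 2 ^ (t.y * E' + 2 * t.y * b) := one_le_pow₀ one_le_two
  have h4 : (2 : ℝ) ^ (t.W₀ + t.k + i * t.k) = 2 ^ t.k * 2 ^ (t.W₀ + i * t.k) := by
    rw [← pow_add]
    congr 1
    ring
  rw [h4]
  have hG : (0 : ℝ) < 2 ^ (t.g₃ + b * (t.k + i * t.k)) := by positivity
  have hk : (0 : ℝ) < 2 ^ t.k := by positivity
  have h5 : (2 : ℝ) ^ t.k * 2 ^ (t.g₃ + b * (t.k + i * t.k)) ≤
      2 ^ t.k * (2 ^ (N₂ * J) * 2 ^ (t.W₀ + i * t.k)) := mul_le_mul_of_nonneg_left h1 hk.le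
  have h6 : (2 : ℝ) ^ t.k ≤ 2 ^ t.k * (2 ^ (N₂ * J) * 2 ^ (t.W₀ + i * t.k)) /
      2 ^ (t.g₃ + b * (t.k + i * t.k)) := by
    rw [le_div_iff₀ hG]
    exact h5
  have h7 : (0 : ℝ) ≤ 2 ^ t.k * (2 ^ (N₂ * J) * 2 ^ (t.W₀ + i * t.k)) /
      2 ^ (t.g₃ + b * (t.k + i * t.k)) := by positivity
  have h8 : (2 : ℝ) ^ (N₂ * J) * (2 ^ (t.y * E' + 2 * t.y * b) /
      2 ^ (t.g₃ + b * (t.k + i * t.k)) * (2 ^ t.k * 2 ^ (t.W₀ + i * t.k))) =
      2 ^ (t.y * E' + 2 * t.y * b) * (2 ^ t.k * (2 ^ (N₂ * J) * 2 ^ (t.W₀ + i * t.k)) /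
        2 ^ (t.g₃ + b * (t.k + i * t.k))) := by ring
  rw [h8]
  calc (2 : ℝ) ^ t.k ≤ 1 * (2 ^ t.k * (2 ^ (N₂ * J) * 2 ^ (t.W₀ + i * t.k)) /
        2 ^ (t.g₃ + b * (t.k + i * t.k))) := by rw [one_mul]; exact h6
    _ ≤ _ := mul_le_mul_of_nonneg_right h3 h7

end Pool.STA37
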