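import Pool.Agent.H65.STB.Ucl
import Pool.Agent.H77.STB.Vbp

/-!
# The input of the jets for a static third place, with a distant static node

`u_clg`: as `u_cls` of helper65, the window of the static node is below the window of the first ball.
-/

set_option autoImplicit false

namespace Pool.STB65

open Finset Real MvPolynomial
open Pool.Agent.H49.Ent Pool.Agent.H32.Dense Pool.STK Pool.KA Pool.KSAT Pool.K2S Pool.PB Pool.S6C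
open Pool.GEN Pool.CHT Pool.NVX
open Pool.STB (V3 Po Bx)
open Pool.STB77 (Inc Nls NodW NodF inc_cls grd_p2 cos cos_slam)
open Pool.STB82 (yv)

variable {m : ℕ}

/-- **The input of the jets for a static third place, in a class**: balls `ι`, the static node `j₀`
with a window below the window of the first ball. -/
theorem u_clg (D b : ℕ) : ∃ C₀ C D' K : ℕ, D ≤ D' ∧ 1 ≤ C₀ ∧ ∀ {m : ℕ} {S : PCl m}
    {c : ℕ → Fin m} {β : ℕ → ℝ → ℝ → ℝ} {e E : ℝ} (_ : TmH S) (_ : Set.InjOn c (Set.Iio 3))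
    (M : ℕ) (AA WW : ℕ → ℝ) (_ : ∀ k < M, 0 ≤ WW k) (_ : ∀ k < M, WW k ≤ AA k)
    (_ : ∀ k < M, AA k < 1) (_ : ∀ j < M, ∀ k < M, AA j ≤ AA k → WW j ≤ WW k →
      β 2 (AA j) (WW j) ≤ β 2 (AA k) (WW k))
    (_ : ∀ k < M, NodF S c 2 D β e E (AA k) (WW k)) (N : ℕ) (ι : ℕ → ℕ)
    (_ : ∀ k ≤ N, ι k < M ∧ WW (ι k) = AA (ι k)) (_ : ∀ k < N, AA (ι k) ≤ AA (ι (k + 1)))
    (j₀ : ℕ) (_ : j₀ < M ∧ AA j₀ = AA (ι N) ∧ WW j₀ ≤ AA (ι 0))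
    (v s₀ : ℝ) (_ : ∀ k < N, AA (ι (k + 1)) ≤ AA (ι k) + v) (_ : 0 ≤ s₀)
    (_ : ∀ k ≤ N, β 0 (AA (ι k)) (WW (ι k)) ≤ AA (ι k) + s₀)
    (_ : AA (ι 0) ≤ β 0 (AA (ι 0)) (WW (ι 0)) + s₀) (_ : AA (ι 0) ≤ β 1 (AA (ι 0)) (WW (ι 0)))
    (_ : ∀ k ≤ N, β 1 (AA (ι k)) (WW (ι k)) ≤
      β 1 (AA (ι 0)) (WW (ι 0)) + (AA (ι k) - AA (ι 0)) + s₀)
    (_ : ∀ k ≤ N, β 1 (AA (ι 0)) (WW (ι 0)) + (AA (ι k) - AA (ι 0)) ≤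
      β 1 (AA (ι k)) (WW (ι k)) + s₀) (_ : 0 ≤ β 2 (AA (ι 0)) (WW (ι 0)))
    (_ : ∀ k ≤ N, β 2 (AA (ι 0)) (WW (ι 0)) + b * (AA (ι k) - AA (ι 0)) ≤
      β 2 (AA (ι k)) (WW (ι k)) + s₀)
    (_ : β 2 (AA (ι 0)) (WW (ι 0)) + b * (AA (ι N) - AA (ι 0)) ≤ β 2 (AA j₀) (WW j₀) + s₀)
    (_ : ∀ k ≤ N, ∀ l < 3, β l (AA (ι 0)) (WW (ι 0)) ≤ β l (AA (ι k)) (WW (ι k)) + s₀)
    (Dr : ℕ) (s : ℝ) (_ : 0 < s),
    ∃ (K₁ : ℝ) (d : ℕ → ℕ → ℝ) (ψ : ℝ), 0 < K₁ ∧ 0 < ψ ∧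
      (∀ k < M, ∀ l ≤ 2, 0 < d k l ∧ d k l ≤ s ∧ d k l < AA k) ∧
      Bas S (fun J F A => ∃ (B : F.Ω → Prop)
          (Gn : ℕ → PtT F → ℕ → MvPolynomial (Option (Fin m)) ℝ)
          (Hn : ℕ → LnT F → ℕ → MvPolynomial (Option (Fin m)) ℝ)
          (pP : PtT F → ℕ → MvPolynomial (Option (Fin m)) ℝ)
          (pH : LnT F → ℕ → MvPolynomial (Option (Fin m)) ℝ) (xP : PtT F → ℝ) (xH : LnT F → ℝ)
          (f : ℕ → PtT F → Po) (f' : ℕ → LnT F → Po) (kf : LnT F → Po), Sub B A ∧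
          Pe F.p A ≤ K₁ * Pe F.p B ∧
          Nls F c 2 D Dr M ⌊s * J⌋₊ (fun j k => AA j ≤ AA k ∧ WW j ≤ WW k)
            (fun k => ⌊AA k * J⌋₊) (fun k => ⌊WW k * J⌋₊) ⌊e * J⌋₊ ⌊(E + s) * J⌋₊
            (fun k l => ⌊(β l (AA k) (WW k) - d k l) * J⌋₊) ⌊s * J⌋₊ (Real.exp (-(ψ * J)))
            B Gn Hn ∧
          UcO F c D' K b N ⌊AA (ι 0) * J⌋₊ (C₀ * (⌊(s₀ + 3 * s) * J⌋₊ + 1)) (⌊v * J⌋₊ + 1)
            (C * (⌊(s₀ + 3 * s) * J⌋₊ + ⌊v * J⌋₊ + 1)) ⌊e * J⌋₊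
            (C * (⌊(s₀ + 3 * s) * J⌋₊ + 1) + ⌊(E + s) * J⌋₊)
            (fun k => ⌊AA (ι k) * J⌋₊) (fun _ => ⌊(E + s) * J⌋₊)
            (fun k l => ⌊(β l (AA (ι k)) (WW (ι k)) - d (ι k) l) * J⌋₊) B (fun k => Gn (ι k))
            (fun k => Hn (ι k)) pP pH xP xH f f' kf) := by
  classical
  obtain ⟨C₁, D₁, hDD₁, hinc⟩ := inc_cls D
  obtain ⟨C₂, K, hin⟩ := u_inp D₁ b
  obtain ⟨C₃, hgrd⟩ := grd_p2 D₁
  obtain ⟨C₀, hC₀⟩ : ∃ C₀, C₀ = C₁ + 1 := ⟨_, rfl⟩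
  refine ⟨C₀, C₂ * (C₀ + 3) + C₃ * (C₀ + 1), D₁, K, hDD₁, by omega, ?_⟩
  intro m S c β e E hS hc M AA WW hW0 hWA hA1 hmon hN N ι hι ham j₀ hj₀ v s₀ hav hs₀
    hn0 hn0' hg1 hn1 hn1' hg2 hn2 hnS hgm Dr s hs
  have hAA0 : ∀ k ≤ N, AA (ι 0) ≤ AA (ι k) := by
    intro k
    induction k with
    | zero => exact fun _ => le_rfl
    | succ k ih => exact fun hk => (ih (by omega)).trans (ham k (by omega))
  have h00 : 0 ≤ AA (ι 0) := (hW0 _ (hι 0 (Nat.zero_le _)).1).trans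
    (hWA _ (hι 0 (Nat.zero_le _)).1)
  obtain ⟨K₁, d, ψ, hK₁, hψ, hd, hbas⟩ := hinc (r := 2) le_rfl hS hc M AA WW hW0 hWA hA1
    hmon hN N ι (fun k hk => (hι k hk).1) (fun k hk => (hι k hk).2)
    ham v s₀ hav hs₀ hn0 hn0' hg1 hn1 hn1' Dr s s hs hs
  obtain ⟨J₁, hJ₁⟩ := exists_nat_ge (((b : ℝ) + N + 6) / s)
  refine ⟨K₁, d, ψ, hK₁, hψ, hd, Bas.mono J₁ hbas ?_⟩
  rintro J hJ F A ⟨B, Gn, Hn, xP, xH, pP, pH, b1, b2, b3, b4, b5, b6, b7, b8, b9⟩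
  have hJ0 : (0 : ℝ) ≤ J := Nat.cast_nonneg J
  have hb0 : (0 : ℝ) ≤ b := Nat.cast_nonneg b
  have hN0 : (0 : ℝ) ≤ N := Nat.cast_nonneg N
  have n1 : (b : ℝ) + N + 6 ≤ s * J := by
    have h1 := hJ₁.trans (show (J₁ : ℝ) ≤ J by exact_mod_cast hJ)
    rw [div_le_iff₀ hs] at h1
    linarith
  have n2 : N ≤ ⌊s * (J : ℝ)⌋₊ := Nat.le_floor (by linarith)
  have n3 : ⌊s * (J : ℝ)⌋₊ ≤ ⌊(s₀ + 3 * s) * (J : ℝ)⌋₊ := Nat.floor_le_floor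
    (mul_le_mul_of_nonneg_right (by linarith) hJ0)
  obtain ⟨n, hn⟩ : ∃ n, n = ⌊(s₀ + 3 * s) * (J : ℝ)⌋₊ := ⟨_, rfl⟩
  have hx3 : ∀ {X i : ℕ} {Y : ℝ}, (X : ℝ) ≤ Y * J + b → i < M → Y ≤ β 2 (AA i) (WW i) + s₀ →
      X ≤ ⌊(β 2 (AA i) (WW i) - d i 2) * (J : ℝ)⌋₊ + n := by
    intro X i Y h1 h2 h3
    rw [hn]
    exact x3_num (β := fun _ => β 2) (d := fun k _ => d k 2) h1 hs₀ (by linarith) h2
      (fun k hk _ _ => ⟨(hd k hk 2 le_rfl).1, (hd k hk 2 le_rfl).2.1⟩) h3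
  rw [← hn] at n3 b4 b5 b8 b9 ⊢
  have n4 : n + 1 ≤ C₀ * (n + 1) := Nat.le_mul_of_pos_left _ (by omega)
  have n5 : C₁ * (n + 1) ≤ C₀ * (n + 1) := Nat.mul_le_mul_right _ (by omega)
  have pw : ∀ {x y : ℕ}, x ≤ y → (2 : ℝ) ^ x ≤ 2 ^ y := fun h =>
    pow_le_pow_right₀ (by norm_num) h
  have hI := inc_mono b4 le_rfl n5
  have hgk : ∀ k ≤ N, ((⌊(β 2 (AA (ι 0)) (WW (ι 0)) - d (ι 0) 2) * (J : ℝ)⌋₊ +
      b * (⌊AA (ι k) * (J : ℝ)⌋₊ - ⌊AA (ι 0) * (J : ℝ)⌋₊) : ℕ) : ℝ) ≤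
      (β 2 (AA (ι 0)) (WW (ι 0)) + b * (AA (ι k) - AA (ι 0))) * J + b := fun k hk =>
    g3_hi (J := J) (β := fun _ => β 2) (d := fun k _ => d k 2) hg2
      (hd _ (hι 0 (Nat.zero_le _)).1 2 le_rfl).1.le h00 (hAA0 k hk)
  have nodj := b3.nod j₀ hj₀.1
  obtain ⟨U, hU⟩ : ∃ U : LnT F → LnT F, U = cos F ⌊WW j₀ * (J : ℝ)⌋₊ ⌊AA (ι 0) * (J : ℝ)⌋₊ :=
    ⟨_, rfl⟩
  have hUs : ∀ ω, U (slam F ⌊AA (ι 0) * (J : ℝ)⌋₊ ω) = slam F ⌊WW j₀ * (J : ℝ)⌋₊ ω := fun ω => by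
    rw [hU]
    refine cos_slam F (Nat.floor_le_floor (mul_le_mul_of_nonneg_right hj₀.2.2 hJ0)) ?_ ω
    refine Nat.floor_le_of_le ?_
    calc AA (ι 0) * (J : ℝ) ≤ 1 * J :=
          mul_le_mul_of_nonneg_right (hA1 _ (hι 0 (Nat.zero_le _)).1).le hJ0
      _ = J := one_mul _
  obtain ⟨f, f', kf, k1, k2⟩ := hin (US := fun S => Hn j₀ (U S) 2)
    (gS := ⌊(β 2 (AA j₀) (WW j₀) - d j₀ 2) * (J : ℝ)⌋₊) hI (by omega)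
    (fun S => (nodj.top.degH (U S) 2).trans hDD₁) (fun S => nodj.top.depH (U S) 2)
    (fun ω hω b' hb => by
      have h1 := b3.two j₀ hj₀.1 (ι N) (hι N le_rfl).1
        ⟨hj₀.2.1.le, by rw [(hι N le_rfl).2]; exact hj₀.2.2.trans (hAA0 N le_rfl)⟩ ω hω 2 le_rfl b' hb
      have h2 : |eval b' (Hn j₀ (U (slam F ⌊AA (ι 0) * (J : ℝ)⌋₊ ω)) 2) -
          eval b' (Gn (ι N) (ptr F J ω) 2)| ≤
          2 ^ ⌊s * (J : ℝ)⌋₊ / 2 ^ ⌊(β 2 (AA j₀) (WW j₀) - d j₀ 2) * (J : ℝ)⌋₊ := by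
        rw [hUs ω]
        exact h1
      exact h2.trans (div_le_div_of_nonneg_right (pw (by omega)) (by positivity)))
    (fun k hk => (hx3 (hgk k hk) (hι k hk).1 (hn2 k hk)).trans (by
      show _ ≤ ⌊(β 2 (AA (ι k)) (WW (ι k)) - d (ι k) 2) * (J : ℝ)⌋₊ + _
      omega))
    ((hx3 (hgk N le_rfl) hj₀.1 hnS).trans (by omega))
  have hy : C₂ * (C₀ * (n + 1) + (⌊v * (J : ℝ)⌋₊ + 1) + 1) ≤
      (C₂ * (C₀ + 3) + C₃ * (C₀ + 1)) * (n + ⌊v * (J : ℝ)⌋₊ + 1) := by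
    have h1 : C₂ * (C₀ * (n + 1) + (⌊v * (J : ℝ)⌋₊ + 1) + 1) ≤
        C₂ * ((C₀ + 3) * (n + ⌊v * (J : ℝ)⌋₊ + 1)) :=
      Nat.mul_le_mul_left _ (by nlinarith [Nat.zero_le (C₀ * ⌊v * (J : ℝ)⌋₊)])
    nlinarith [Nat.zero_le (C₃ * (C₀ + 1) * (n + ⌊v * (J : ℝ)⌋₊ + 1))]
  have hX : C₃ * (C₀ * (n + 1) + 1) ≤ (C₂ * (C₀ + 3) + C₃ * (C₀ + 1)) * (n + 1) := by
    have h1 : C₃ * (C₀ * (n + 1) + 1) ≤ C₃ * ((C₀ + 1) * (n + 1)) :=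
      Nat.mul_le_mul_left _ (by nlinarith)
    nlinarith [Nat.zero_le (C₂ * (C₀ + 3) * (n + 1))]
  refine ⟨B, Gn, Hn, pP, pH, xP, xH, f, f', kf, b1, b2, b3,
    { inc := hI
      Ns := by omega
      n0' := by omega
      hp := b6
      xc := b7
      xn := fun ω hω => (b8 ω hω).trans (pw n5)
      pg := fun ω hω b' h1 h2 => (b9 ω hω b' h1 h2).trans (pw (by omega))
      inp := k1.up (pw hy)
      val := fun k hk ω hω => (k2 k hk ω hω).trans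
        (mul_le_mul_of_nonneg_right (pw hy) (by positivity))
      gT := fun k hk ω hω b' hb l hl => ?_ }⟩
  have h1 := hgrd (k := k) (l := l) hI hk (fun ω hω l hl b' hb => by
      refine (b3.uni (ι 0) (hι 0 (Nat.zero_le _)).1 (ι k) (hι k hk).1
        ⟨hAA0 k hk, by
          rw [(hι 0 (Nat.zero_le _)).2, (hι k hk).2]
          exact hAA0 k hk⟩ ω hω l (by omega) b' hb).trans ?_
      exact div_le_div_of_nonneg_right (pw (by omega)) (by positivity))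
    (fun l hl => by
      have h1 := fl_two (J := J) (by linarith) (hd _ (hι 0 (Nat.zero_le _)).1 l (by omega)).1.le
        (hd _ (hι k hk).1 l (by omega)).2.1 (hgm k hk l hl)
      rw [← hn] at h1
      exact h1.trans (by omega)) hω hl b' hb
  refine h1.trans (pw ?_)
  show C₃ * (C₀ * (n + 1) + 1) + ⌊(E + s) * (J : ℝ)⌋₊ + _ ≤ _
  omega

end Pool.STB65
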