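import Pool.Agent.H37.STA.Row

/-!
# The velocity at a window from the velocity at the first window and the far data

`FaE.deg`, `FaE.dep`: the difference of the closed polynomials of the two charts. `vel_pt`: the
velocity of the target over the closed polynomial of a window, from the one over the closed
polynomial of the first window.
-/

set_option autoImplicit false

namespace Pool.STA37

open Finset Real MvPolynomial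
open Pool.Agent.H49.Ent Pool.Agent.H32.Dense Pool.STK Pool.KA Pool.KSAT Pool.K2S Pool.PB
open Pool.GEN Pool.CHT Pool.RCD Pool.D2F
open Pool.STB (V3 Po Bx Hb cv cl_earlier PosR cnt_int cg)
open Pool.STB65 (InpP PosO JetO nu nu_pos Rs Rs_pos)
open Pool.STB82 (yv hgP)
open Pool.LA91 (jet ojet)
open Pool.PB.Trl (rt rt_mem t_rt)

variable {m J : ℕ}

theorem FaE.deg {F : Fam m J} {c : ℕ → Fin m} {B : F.Ω → Prop} {K y e₁' W₀ g1 : ℕ}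
    {Pl₀ : LnT F → MvPolynomial (Option (Fin m)) ℝ} {f : FaT F} (E : FaE F c B K y e₁' W₀ g1 Pl₀ f)
    {Pv : PtT F → MvPolynomial (Option (Fin m)) ℝ} (hd : ∀ y, (Pv y).totalDegree ≤ K)
    (hc : ∀ ω, B ω → Pv (ptr F J ω) = Pl₀ (slam F W₀ ω)) {ω : F.Ω} (hω : B ω) :
    (Pl₀ (slam F W₀ ω) - f.Pl (slam F f.W ω)).totalDegree ≤ K := by
  rw [← hc ω hω, ← E.Pc ω hω]
  exact (totalDegree_sub _ _).trans (max_le (hd _) (E.Pd _))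

theorem FaE.dep {F : Fam m J} {c : ℕ → Fin m} {B : F.Ω → Prop} {K y e₁' W₀ g1 : ℕ}
    {Pl₀ : LnT F → MvPolynomial (Option (Fin m)) ℝ} {f : FaT F} (E : FaE F c B K y e₁' W₀ g1 Pl₀ f)
    {Pv : PtT F → MvPolynomial (Option (Fin m)) ℝ} (hp : ∀ y, DepC c 1 (Pv y))
    (hc : ∀ ω, B ω → Pv (ptr F J ω) = Pl₀ (slam F W₀ ω)) {ω : F.Ω} (hω : B ω) :
    DepC c 1 (Pl₀ (slam F W₀ ω) - f.Pl (slam F f.W ω)) := by
  rw [← hc ω hω, ← E.Pc ω hω]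
  intro b b' hn hb
  rw [map_sub, map_sub, hp _ b b' hn hb, E.Pp _ b b' hn hb]

/-- **The velocity of the target at a window** from the one at the first window and the far data. -/
theorem vel_pt (K b : ℕ) : ∃ A : ℝ, 1 ≤ A ∧ ∀ {m J : ℕ} {F : Fam m J} {c : ℕ → Fin m}
    {B : F.Ω → Prop} {W₀ k n g1 g₃ e₁' y i : ℕ} {Y σ κ Kp Kp' Kc Gr ρ : ℝ}
    {Pv : PtT F → MvPolynomial (Option (Fin m)) ℝ} {Pl : LnT F → MvPolynomial (Option (Fin m)) ℝ}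
    {yt : PtT F → V3} {f : FaT F} {ctr xo ctr' xo' : ℕ → F.Ω → V3} {D₁ D₁' : LnT F → V3}
    {fj : ℕ → PtT F → Po} {ji : ℕ → ℕ} {Jo Ci : ℕ → F.Ω → Po} {Φ₁ : LnT F → Po} {κ₂ : Fin m},
    InpP F B W₀ k k n (K + 1) Y (yv F c W₀ g1 Pl) yt (hgP c W₀ g1 Pl) →
    PosO F B W₀ k k n σ Kp (yv F c W₀ g1 Pl) (hgP c W₀ g1 Pl) ctr xo D₁ →
    JetO F B W₀ k k n b σ κ Kc Gr (yv F c W₀ g1 Pl) fj ji ctr xo Jo Ci Φ₁ →
    FaE F c B K y e₁' W₀ g1 Pl f →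
    PosO F B f.W f.d f.k 1 σ Kp' (yv F c f.W f.g f.Pl) (hgP c f.W f.g f.Pl) ctr' xo' D₁' →
    (∀ y, (Pv y).totalDegree ≤ K) → (∀ y, DepC c 1 (Pv y)) →
    (∀ ω, B ω → Pv (ptr F J ω) = Pl (slam F W₀ ω)) →
    i < n → W₀ + k + n * k ≤ J → f.W + f.d = W₀ + k → f.W + f.d + f.k ≤ J → 0 < σ → 0 ≤ Y → 0 < κ →
    0 ≤ Gr → 0 ≤ ρ → (2 : ℝ) ^ g1 / 2 ^ W₀ = ρ * (2 ^ f.g / 2 ^ f.W) →
    (∀ ω, B ω → |F.d ω (c 0)| ≤ 1) → 5 * σ ≤ 2 ^ k * 2 ^ f.k →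
    2 * (A * 2 ^ y / 2 ^ f.d + σ / 2 ^ f.k) ≤ 1 → ∀ {ω ω' : F.Ω}, B ω → B ω' →
    Pl (slam F W₀ ω) = Pl (slam F W₀ ω') → f.Pl (slam F f.W ω) = f.Pl (slam F f.W ω') →
    F.T ω = F.T ω' → ctr 0 ω = ctr 0 ω' → ctr i ω = ctr i ω' → Ci 0 ω = Ci 0 ω' →
    Ci i ω = Ci i ω' → ctr' 0 ω = ctr' 0 ω' → cv (2 ^ f.k) (xo' 0 ω) = cv (2 ^ f.k) (xo' 0 ω') →
    D₁' (slam F (f.W + f.d) ω) = D₁' (slam F (f.W + f.d) ω') →
    ∀ T : MvPolynomial (Option (Fin m)) ℝ,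
    |ojet F κ₂ 1 (cg c W₀ g1 (slam F W₀ ω).2.2 (Pl (slam F W₀ ω)) (Rs k k σ i) (ctr i ω)
        (nu κ (Rs k k σ i) b / 2 ^ g₃) T (Ci i ω)) ω -
      ojet F κ₂ 1 (cg c W₀ g1 (slam F W₀ ω').2.2 (Pl (slam F W₀ ω')) (Rs k k σ i) (ctr i ω')
        (nu κ (Rs k k σ i) b / 2 ^ g₃) T (Ci i ω')) ω'| ≤
    |ojet F κ₂ 1 (cg c W₀ g1 (slam F W₀ ω).2.2 (Pl (slam F W₀ ω)) (Rs k k σ 0) (ctr 0 ω)
        (nu κ (Rs k k σ 0) b / 2 ^ g₃) T (Ci 0 ω)) ω -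
      ojet F κ₂ 1 (cg c W₀ g1 (slam F W₀ ω').2.2 (Pl (slam F W₀ ω')) (Rs k k σ 0) (ctr 0 ω')
        (nu κ (Rs k k σ 0) b / 2 ^ g₃) T (Ci 0 ω')) ω'| +
      2 ^ W₀ / 2 ^ g₃ * (A * Gr * (2 * ((1 + ρ) * (2 * (A * 2 ^ y / 2 ^ f.d + σ / 2 ^ f.k)) +
        A * 2 ^ y * (5 * σ / (2 ^ k * 2 ^ f.k) + 2 * (A * 2 ^ y / 2 ^ f.d + σ / 2 ^ f.k))) +
        (Rs k k σ 0 + Rs k k σ i) * ((1 + ρ + A * 2 ^ y) * (5 * σ / (2 ^ k * 2 ^ f.k))) *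
          Y)) := by
  obtain ⟨A₁, hA₁, h1⟩ := far_dat (K + 1)
  obtain ⟨A₂, hA₂, h2⟩ := pv_near K
  obtain ⟨A₃, hA₃, h3⟩ := vel_far b
  refine ⟨A₁ + A₂ + A₃, by linarith, ?_⟩
  intro m J F c B W₀ k n g1 g₃ e₁' y i Y σ κ Kp Kp' Kc Gr ρ Pv Pl yt f ctr xo ctr' xo' D₁ D₁' fj ji
    Jo Ci Φ₁ κ₂ I O Jt E O' hd hp hc hi hJ ht hfJ hσ hY hκ hGr hρ hρe hd0 s1 s2 ω ω' hω hω' ePl ePl'
    eT ec0 eci eC0 eCi ec' ex eD T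
  obtain ⟨A, hA⟩ : ∃ A, A = A₁ + A₂ + A₃ := ⟨_, rfl⟩
  rw [← hA] at s2 ⊢
  have hA1 : A₁ ≤ A := by linarith
  have hA2 : A₂ ≤ A := by linarith
  have hA3 : A₃ ≤ A := by linarith
  have hn0 : 0 < n := by omega
  have hWJ : W₀ ≤ J := by omega
  have hfW : f.W ≤ J := by omega
  -- the far data
  obtain ⟨f1, f2⟩ := h1 c f.W f.d f.k 1 f.g 0 (2 ^ y) σ Kp' f.Pl f.yt ctr' xo' D₁' E.iP O' one_pos
    (by omega) hσ (by positivity) ω ω' hω hω'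
  have f1 := f1 ec' ex
  have f2 := f2 eD
  obtain ⟨δ', hδ'⟩ : ∃ δ' : ℝ, δ' = 5 * σ / (2 ^ (f.d + 0 * f.k) * 2 ^ f.k) := ⟨_, rfl⟩
  obtain ⟨ε', hε'⟩ : ∃ ε' : ℝ, ε' = 2 * (A * 2 ^ y / 2 ^ f.d + σ / 2 ^ f.k) := ⟨_, rfl⟩
  have hε0 : 0 ≤ ε' := by
    rw [hε']
    have : 0 ≤ A := by linarith
    positivity
  have hδ0 : 0 ≤ δ' := by rw [hδ']; positivity
  have eδ : (2 : ℝ) ^ W₀ / 2 ^ f.W * δ' = 5 * σ / (2 ^ k * 2 ^ f.k) := by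
    have h4 : (2 : ℝ) ^ f.W * 2 ^ f.d = 2 ^ W₀ * 2 ^ k := by rw [← pow_add, ← pow_add, ht]
    rw [hδ', Nat.zero_mul, Nat.add_zero, div_mul_div_comm, div_eq_div_iff (by positivity)
      (by positivity)]
    calc (2 : ℝ) ^ W₀ * (5 * σ) * (2 ^ k * 2 ^ f.k) = 5 * σ * (2 ^ W₀ * 2 ^ k * 2 ^ f.k) := by ring
      _ = 5 * σ * (2 ^ f.W * (2 ^ f.d * 2 ^ f.k)) := by rw [← h4]; ring
  have f2' : ∀ l, |(Polynomial.derivative (hgP c f.W f.g f.Pl (slam F f.W ω) l)).eval (rt F f.W ω) -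
      (Polynomial.derivative (hgP c f.W f.g f.Pl (slam F f.W ω') l)).eval (rt F f.W ω')| ≤ ε' := by
    intro l
    refine (f2 l).trans ?_
    rw [hε']
    have : A₁ * 2 ^ y / 2 ^ f.d ≤ A * 2 ^ y / 2 ^ f.d :=
      div_le_div_of_nonneg_right (mul_le_mul_of_nonneg_right hA1 (by positivity)) (by positivity)
    linarith
  have hM0 : (0 : ℝ) ≤ 2 ^ y := by positivity
  have pv := h2 (c := c) hWJ hfW hρ hM0 hδ0 hε0 hρe (E.deg hd hc hω) (E.dep hp hc hω)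
    (E.osc ω hω) (hd0 ω hω) (hd0 ω' hω') ePl ePl' eT (fun l => by rw [hδ']; exact f1 l) f2'
    (by
      rw [eδ, div_le_one (by positivity)]
      exact s1) (by rw [hε']; exact s2)
  rw [eδ] at pv
  obtain ⟨δ, hδ⟩ : ∃ δ : ℝ, δ = (1 + ρ + A * 2 ^ y) * (5 * σ / (2 ^ k * 2 ^ f.k)) := ⟨_, rfl⟩
  obtain ⟨ε, hε⟩ : ∃ ε : ℝ, ε = (1 + ρ) * ε' + A * 2 ^ y * (5 * σ / (2 ^ k * 2 ^ f.k) + ε') :=
    ⟨_, rfl⟩
  have hq0 : (0 : ℝ) ≤ 5 * σ / (2 ^ k * 2 ^ f.k) := by positivity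
  have b1 : Bx δ (yv F c W₀ g1 Pl ω - yv F c W₀ g1 Pl ω') := by
    intro l
    rw [Pi.sub_apply, hδ]
    refine (pv l).1.trans (mul_le_mul_of_nonneg_right ?_ hq0)
    have := mul_le_mul_of_nonneg_right hA2 hM0
    linarith
  have b2 : Bx ε (hv F c W₀ g1 Pl ω - hv F c W₀ g1 Pl ω') := by
    intro l
    rw [Pi.sub_apply, hε]
    refine (pv l).2.trans ?_
    have h5 : A₂ * 2 ^ y * (5 * σ / (2 ^ k * 2 ^ f.k) + ε') ≤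
        A * 2 ^ y * (5 * σ / (2 ^ k * 2 ^ f.k) + ε') :=
      mul_le_mul_of_nonneg_right (mul_le_mul_of_nonneg_right hA2 hM0) (by linarith)
    linarith
  have b3 : Bx Y (hv F c W₀ g1 Pl ω') := by
    intro l
    have h6 := rt_mem F W₀ ω'
    exact I.vel ω' hω' l _ ⟨h6.1, h6.2⟩
  have hR0 := Rs_pos (d := k) (k := k) hσ 0
  have hRi := Rs_pos (d := k) (k := k) hσ i
  have hb1 : ∀ j, (Ci j ω).totalDegree ≤ b := fun j => (Jt.dC j ω).trans (Nat.sub_le _ _)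
  have o0 := O.q1 0 hn0 ω hω
  have o0' := O.q1 0 hn0 ω' hω'
  have oi := O.q1 i hi ω hω
  have oi' := O.q1 i hi ω' hω'
  rw [← ec0] at o0'
  rw [← eci] at oi'
  have fin := h3 (c := c) (g₃ := g₃) (κ := κ₂) (T := T) (nu₁ := nu κ (Rs k k σ 0) b)
    (nu₂ := nu κ (Rs k k σ i) b) hWJ (hb1 0) (hb1 i) hR0 hRi (nu_pos hκ hR0 b) (nu_pos hκ hRi b) hGr
    (fun j q hq => Jt.grad 0 hn0 ω hω j q hq) (fun j q hq => Jt.grad i hi ω hω j q hq) o0 o0' oi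
    oi' b1 b2 b3
  rw [← ec0, ← eci, ← eC0, ← eCi]
  refine fin.trans (add_le_add le_rfl (mul_le_mul_of_nonneg_left ?_ (by positivity)))
  rw [← hε', ← hε, ← hδ]
  have hε1 : 0 ≤ ε := (abs_nonneg _).trans (b2 0)
  have hδ1 : 0 ≤ δ := (abs_nonneg _).trans (b1 0)
  have h7 : 0 ≤ 2 * ε + (Rs k k σ 0 + Rs k k σ i) * δ * Y := by positivity
  exact mul_le_mul_of_nonneg_right (mul_le_mul_of_nonneg_right hA3 hGr) h7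

end Pool.STA37
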